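import Pool.Agent.Work.Bes.ALG

/-!
# Block AL: alignment with the polar part
-/

open MeasureTheory Complex
open scoped ComplexOrder InnerProductSpace ComplexConjugate

set_option autoImplicit false
set_option linter.unusedSectionVars false

universe v

namespace Pool.Bes

namespace ALAux

open ALGAux

variable {H : Type v} [NormedAddCommGroup H] [InnerProductSpace ℂ H] [CompleteSpace H]

theorem one_sub_nonneg (W : H →L[ℂ] H) (hW : ‖W‖ ≤ 1) : 0 ≤ 1 - star W * W := by
  rw [ContinuousLinearMap.nonneg_iff_isPositive, ContinuousLinearMap.isPositive_def]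
  refine ⟨?_, fun x => ?_⟩
  · have : IsSelfAdjoint (1 - star W * W) := (IsSelfAdjoint.one _).sub (IsSelfAdjoint.star_mul_self W)
    exact this.isSymmetric
  · rw [ContinuousLinearMap.reApplyInnerSelf_apply]
    have h1 : ‖W x‖ ≤ ‖x‖ := by
      calc ‖W x‖ ≤ ‖W‖ * ‖x‖ := W.le_opNorm x
        _ ≤ 1 * ‖x‖ := by gcongr
        _ = ‖x‖ := one_mul _
    have h2 : ⟪(1 - star W * W) x, x⟫_ℂ = ((‖x‖ ^ 2 - ‖W x‖ ^ 2 : ℝ) : ℂ) := by
      change ⟪x - (star W) (W x), x⟫_ℂ = _
      rw [inner_sub_left, ContinuousLinearMap.star_eq_adjoint,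
        ContinuousLinearMap.adjoint_inner_left, inner_self_eq_norm_sq_to_K,
        inner_self_eq_norm_sq_to_K]
      push_cast
      rfl
    rw [h2]
    have h3 : 0 ≤ ‖x‖ ^ 2 - ‖W x‖ ^ 2 := by
      have := pow_le_pow_left₀ (norm_nonneg _) h1 2
      linarith
    rw [show RCLike.re (((‖x‖ ^ 2 - ‖W x‖ ^ 2 : ℝ)) : ℂ) = ‖x‖ ^ 2 - ‖W x‖ ^ 2 from Complex.ofReal_re _]
    exact h3

end ALAux

open ALGAux ALAux in
/-- Block AL. -/
theorem blk_AL : Stmt_Alg.{v} → Stmt_Pos.{v} → Stmt_AL.{v} := by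
  intro _ hP H _ _ _ X W ω hpol
  obtain ⟨hW, hpos, hX, hω⟩ := hpol
  obtain ⟨hP1, hP2, hP3, hP4, -, -, -, -, hP9⟩ := hP H ω hpos
  have hsW : ‖star W‖ ≤ 1 := by rwa [norm_star]
  have hXω : ∀ S, pr X S = pr ω (S * W) := by
    intro S
    conv_lhs => rw [hX]
    rw [pr_lm]
  have hωX : ∀ S, pr ω S = pr X (S * star W) := by
    intro S
    conv_lhs => rw [hω]
    rw [pr_lm]
  have hn1 : ‖ω‖ ≤ ‖X‖ := by
    rw [hω]
    refine (norm_lm_le _ _).trans ?_
    calc ‖star W‖ * ‖X‖ ≤ 1 * ‖X‖ := by gcongr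
      _ = ‖X‖ := one_mul _
  have hn2 : ‖X‖ ≤ ‖ω‖ := by
    conv_lhs => rw [hX]
    refine (norm_lm_le _ _).trans ?_
    calc ‖W‖ * ‖ω‖ ≤ 1 * ‖ω‖ := by gcongr
      _ = ‖ω‖ := one_mul _
  have hn : ‖ω‖ = ‖X‖ := le_antisymm hn1 hn2
  have hXW : pr X (star W) = (‖X‖ : ℂ) := by
    rw [← hn, ← hP3, hωX, one_mul]
  have he : 0 ≤ 1 - star W * W := one_sub_nonneg W hW
  have hzero : ∀ Y, pr ω ((1 - star W * W) * Y) = 0 := by
    intro Y
    have hs1 : CFC.sqrt (1 - star W * W) * CFC.sqrt (1 - star W * W) = 1 - star W * W :=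
      CFC.sqrt_mul_sqrt_self _ he
    have hs2 : star (CFC.sqrt (1 - star W * W)) = CFC.sqrt (1 - star W * W) :=
      (CFC.sqrt_nonneg _).isSelfAdjoint.star_eq
    set s := CFC.sqrt (1 - star W * W)
    have h1 := hP4 s (s * Y)
    rw [hs2, ← mul_assoc, hs1] at h1
    have h2 : sn ω s ^ 2 = 0 := by
      rw [hP9, hs2, hs1, pr_sub_right, hP3, ← hXω, hXW, hn]
      simp
    have h3 : sn ω s = 0 := by simpa using h2
    rw [h3, zero_mul] at h1
    exact norm_le_zero_iff.1 h1
  have hWW : ∀ Y, pr ω (star W * W * Y) = pr ω Y := by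
    intro Y
    have := hzero Y
    rw [sub_mul, one_mul, pr_sub_right] at this
    exact (sub_eq_zero.1 this).symm
  have hpos' : Pos (rm (star W) X) := by
    intro Y
    rw [pr_rm, hXω]
    have : star W * (star Y * Y) * W = star (Y * W) * (Y * W) := by
      rw [star_mul]; simp only [mul_assoc]
    rw [this]
    exact hpos _
  have hXr : X = rm W (rm (star W) X) := by
    refine ext_pr fun S => ?_
    rw [pr_rm, pr_rm, hXω, hXω]
    have : star W * (W * S) * W = star W * W * (S * W) := by simp only [mul_assoc]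
    rw [this, hWW]
  obtain ⟨-, hQ2, hQ3, -, -, -, -, -, hQ9⟩ := hP H (rm (star W) X) hpos'
  have hn' : ‖rm (star W) X‖ = ‖X‖ := by
    have h1 : pr (rm (star W) X) 1 = (‖X‖ : ℂ) := by rw [pr_rm, mul_one, hXW]
    rw [hQ3] at h1
    exact_mod_cast h1
  have hopω : op ω = star W * op X := by
    conv_lhs => rw [hω]
    rw [op_lm]
  have hopX : op X = W * op ω := by
    conv_lhs => rw [hX]
    rw [op_lm]
  refine ⟨hn, hXW, hpos', hXr, hn', hopω, hopX, fun V hV => ?_⟩
  have hVV : ‖star V * V‖ ≤ 1 := by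
    calc ‖star V * V‖ ≤ ‖star V‖ * ‖V‖ := norm_mul_le _ _
      _ ≤ 1 * 1 := by rw [norm_star]; gcongr
      _ = 1 := one_mul _
  have hVV' : ‖V * star V‖ ≤ 1 := by
    calc ‖V * star V‖ ≤ ‖V‖ * ‖star V‖ := norm_mul_le _ _
      _ ≤ 1 * 1 := by rw [norm_star]; gcongr
      _ = 1 := one_mul _
  have hWW1 : ‖star W * W‖ ≤ 1 := by
    calc ‖star W * W‖ ≤ ‖star W‖ * ‖W‖ := norm_mul_le _ _
      _ ≤ 1 * 1 := by rw [norm_star]; gcongr
      _ = 1 := one_mul _
  have hWW1' : ‖W * star W‖ ≤ 1 := by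
    calc ‖W * star W‖ ≤ ‖W‖ * ‖star W‖ := norm_mul_le _ _
      _ ≤ 1 * 1 := by rw [norm_star]; gcongr
      _ = 1 := one_mul _
  have bound : ∀ (Z : S1 H) (S : H →L[ℂ] H), ‖S‖ ≤ 1 → (pr Z S).re ≤ ‖Z‖ := by
    intro Z S hS
    calc (pr Z S).re ≤ ‖pr Z S‖ := Complex.re_le_norm _
      _ ≤ ‖Z‖ * ‖S‖ := norm_pr_le _ _
      _ ≤ ‖Z‖ * 1 := by gcongr
      _ = ‖Z‖ := mul_one _
  constructor
  · rw [hP9]
    have hexp : star (V - W) * (V - W) = star V * V - star V * W - star W * V + star W * W := by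
      rw [star_sub]; noncomm_ring
    have h1 : pr ω (star V * W) = pr X (star V) := (hXω _).symm
    have h2 : pr ω (star W * V) = conj (pr X (star V)) := by
      have hsa : star (op ω) = op ω := (IsSelfAdjoint.of_nonneg hP2).star_eq
      have := pr_star_of_selfAdjoint ω hsa (star V * W)
      rw [star_mul, star_star] at this
      rw [this, h1]
    rw [hexp, pr_add_right, pr_sub_right, pr_sub_right, h1, h2]
    simp only [add_re, sub_re, conj_re]
    have h3 := bound ω (star V * V) hVV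
    have h4 := bound ω (star W * W) hWW1
    rw [hn] at h3 h4
    linarith
  · rw [hQ9, star_star]
    have hexp : (V - W) * star (V - W) = V * star V - V * star W - W * star V + W * star W := by
      rw [star_sub]; noncomm_ring
    have h1 : pr (rm (star W) X) (W * star V) = pr X (star V) := by
      rw [pr_rm, hXω, hXω]
      have : star W * (W * star V) * W = star W * W * (star V * W) := by simp only [mul_assoc]
      rw [this, hWW]
    have h2 : pr (rm (star W) X) (V * star W) = conj (pr X (star V)) := by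
      have hsa : star (op (rm (star W) X)) = op (rm (star W) X) :=
        (IsSelfAdjoint.of_nonneg hQ2).star_eq
      have := pr_star_of_selfAdjoint (rm (star W) X) hsa (W * star V)
      rw [star_mul, star_star] at this
      rw [this, h1]
    rw [hexp, pr_add_right, pr_sub_right, pr_sub_right, h1, h2]
    simp only [add_re, sub_re, conj_re]
    have h3 := bound (rm (star W) X) (V * star V) hVV'
    have h4 := bound (rm (star W) X) (W * star W) hWW1'
    rw [hn'] at h3 h4
    linarith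

end Pool.Bes
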