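import Pool.Agent.Work.Bes.Interface

/-!
# Block ALG: algebra of the trace class operators
-/

open MeasureTheory Complex
open scoped ComplexOrder InnerProductSpace ComplexConjugate

set_option autoImplicit false
set_option linter.unusedSectionVars false

universe v

namespace Pool.Bes

namespace ALGAux

variable {H : Type v} [NormedAddCommGroup H] [InnerProductSpace ℂ H] [CompleteSpace H]

/-- the vector functional as an element of `S1` -/
noncomputable def mv (x y : H) : S1 H := S1.mk (vf x y) (vf_mem x y)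

theorem pr_mv (x y : H) (Y : H →L[ℂ] H) : pr (mv x y) Y = ⟪y, Y x⟫_ℂ := rfl

/-- `X ↦ pr X Y` -/
noncomputable def prL (Y : H →L[ℂ] H) : S1 H →L[ℂ] ℂ :=
  (ContinuousLinearMap.apply ℂ ℂ Y).comp (S1.toDual (H := H))

theorem prL_apply (Y : H →L[ℂ] H) (X : S1 H) : prL Y X = pr X Y := rfl

theorem pr_add_left (X X' : S1 H) (Y : H →L[ℂ] H) : pr (X + X') Y = pr X Y + pr X' Y := by
  rw [← prL_apply, ← prL_apply, ← prL_apply, map_add]

theorem pr_smul_left (c : ℂ) (X : S1 H) (Y : H →L[ℂ] H) : pr (c • X) Y = c * pr X Y := by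
  rw [← prL_apply, ← prL_apply, map_smul, smul_eq_mul]

theorem pr_sub_left (X X' : S1 H) (Y : H →L[ℂ] H) : pr (X - X') Y = pr X Y - pr X' Y := by
  rw [← prL_apply, ← prL_apply, ← prL_apply, map_sub]

theorem pr_zero_left (Y : H →L[ℂ] H) : pr (0 : S1 H) Y = 0 := by
  rw [← prL_apply, map_zero]

theorem pr_add_right (X : S1 H) (Y Y' : H →L[ℂ] H) : pr X (Y + Y') = pr X Y + pr X Y' :=
  map_add _ _ _

theorem pr_sub_right (X : S1 H) (Y Y' : H →L[ℂ] H) : pr X (Y - Y') = pr X Y - pr X Y' :=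
  map_sub _ _ _

theorem pr_smul_right (c : ℂ) (X : S1 H) (Y : H →L[ℂ] H) : pr X (c • Y) = c * pr X Y := by
  unfold pr
  rw [map_smul, smul_eq_mul]

theorem continuous_pr (Y : H →L[ℂ] H) : Continuous fun X : S1 H => pr X Y := (prL Y).continuous

theorem norm_pr_le (X : S1 H) (Y : H →L[ℂ] H) : ‖pr X Y‖ ≤ ‖X‖ * ‖Y‖ := by
  have := X.toDual.le_opNorm Y
  rwa [S1.norm_toDual] at this

theorem norm_le_of_pr (X : S1 H) (C : ℝ) (hC : 0 ≤ C) (h : ∀ Y, ‖pr X Y‖ ≤ C * ‖Y‖) : ‖X‖ ≤ C := by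
  rw [← S1.norm_toDual]
  exact ContinuousLinearMap.opNorm_le_bound _ hC h

theorem ext_pr {X Y : S1 H} (h : ∀ S, pr X S = pr Y S) : X = Y :=
  S1.toDual_injective (ContinuousLinearMap.ext h)

theorem S1_ind {p : S1 H → Prop} (hc : IsClosed {X | p X}) (h0 : p 0)
    (hadd : ∀ X Y, p X → p Y → p (X + Y)) (hs : ∀ (c : ℂ) X, p X → p (c • X))
    (hv : ∀ x y, p (mv x y)) (X : S1 H) : p X := by
  have hF : ∀ φ ∈ FRk H, ∀ h : φ ∈ S1sub H, p (S1.mk φ h) := by
    intro φ hφ
    refine Submodule.span_induction (p := fun φ _ => ∀ h : φ ∈ S1sub H, p (S1.mk φ h))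
      ?_ ?_ ?_ ?_ hφ
    · rintro _ ⟨q, rfl⟩ h
      exact hv q.1 q.2
    · intro h
      exact h0
    · intro φ ψ hφ hψ ih1 ih2 h
      exact hadd _ _ (ih1 ((FRk H).le_topologicalClosure hφ))
        (ih2 ((FRk H).le_topologicalClosure hψ))
    · intro c φ hφ ih h
      exact hs c _ (ih ((FRk H).le_topologicalClosure hφ))
  have hcl : X ∈ closure {Y : S1 H | Y.toDual ∈ FRk H} := by
    have hind : Topology.IsInducing (fun Y : S1 H => Y.toDual) := Topology.IsInducing.subtypeVal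
    rw [hind.closure_eq_preimage_closure_image, Set.mem_preimage]
    have : (fun Y : S1 H => Y.toDual) '' {Y : S1 H | Y.toDual ∈ FRk H} = (FRk H : Set _) := by
      ext φ
      constructor
      · rintro ⟨Y, hY, rfl⟩
        exact hY
      · intro hφ
        exact ⟨S1.mk φ ((FRk H).le_topologicalClosure hφ), hφ, rfl⟩
    rw [this]
    exact X.toDual_mem
  have hsub : {Y : S1 H | Y.toDual ∈ FRk H} ⊆ {X | p X} := fun Y hY => hF _ hY Y.toDual_mem
  exact hc.closure_subset_iff.2 hsub hcl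

/-- the set of the elements with finite rank is dense -/
theorem exists_near (X : S1 H) (ε : ℝ) (hε : 0 < ε) :
    ∃ X' : S1 H, X'.toDual ∈ FRk H ∧ ‖X - X'‖ < ε := by
  have h1 := X.toDual_mem
  have h2 : X.toDual ∈ closure (FRk H : Set (StrongDual ℂ (H →L[ℂ] H))) := h1
  obtain ⟨φ, hφ, hd⟩ := Metric.mem_closure_iff.1 h2 ε hε
  refine ⟨S1.mk φ ((FRk H).le_topologicalClosure hφ), hφ, ?_⟩
  rw [dist_eq_norm] at hd
  exact hd

theorem op_lm (S : H →L[ℂ] H) (X : S1 H) : op (lm S X) = S * op X := by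
  refine ContinuousLinearMap.ext fun x => ext_inner_left ℂ fun y => ?_
  rw [inner_op, pr_lm]
  have h1 : r1 x y * S = r1 x (star S y) := by
    ext z
    change ⟪y, S z⟫_ℂ • x = ⟪star S y, z⟫_ℂ • x
    rw [ContinuousLinearMap.star_eq_adjoint, ContinuousLinearMap.adjoint_inner_left]
  rw [h1, ← inner_op, ContinuousLinearMap.star_eq_adjoint, ContinuousLinearMap.adjoint_inner_left]
  rfl

theorem op_rm (S : H →L[ℂ] H) (X : S1 H) : op (rm S X) = op X * S := by
  refine ContinuousLinearMap.ext fun x => ext_inner_left ℂ fun y => ?_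
  rw [inner_op, pr_rm]
  have h1 : S * r1 x y = r1 (S x) y := by
    ext z
    change S (⟪y, z⟫_ℂ • x) = ⟪y, z⟫_ℂ • S x
    rw [map_smul]
  rw [h1, ← inner_op]
  rfl

theorem op_mv (x y : H) : op (mv x y) = r1 x y := by
  refine ContinuousLinearMap.ext fun u => ext_inner_left ℂ fun v => ?_
  rw [inner_op, pr_mv, r1_apply, r1_apply, inner_smul_right, inner_smul_right, mul_comm]

theorem star_r1 (x y : H) : star (r1 x y) = r1 y x := by
  refine ContinuousLinearMap.ext fun u => ext_inner_left ℂ fun v => ?_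
  rw [ContinuousLinearMap.star_eq_adjoint, ContinuousLinearMap.adjoint_inner_right, r1_apply,
    r1_apply, inner_smul_left, inner_smul_right, inner_conj_symm, mul_comm]

theorem pr_symm (X Y : S1 H) : pr X (op Y) = pr Y (op X) := by
  refine S1_ind (p := fun X => pr X (op Y) = pr Y (op X)) ?_ ?_ ?_ ?_ ?_ X
  · exact isClosed_eq (continuous_pr _) (Y.toDual.continuous.comp (op (H := H)).continuous)
  · rw [pr_zero_left, map_zero]
    exact (map_zero Y.toDual).symm
  · intro X X' h h'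
    rw [pr_add_left, h, h', map_add, pr_add_right]
  · intro c X h
    rw [pr_smul_left, h, map_smul, pr_smul_right]
  · intro x y
    rw [pr_mv, op_mv, inner_op]

theorem pr_star_op (X Y : S1 H) : pr X (star (op Y)) = conj (pr Y (star (op X))) := by
  refine S1_ind (p := fun X => pr X (star (op Y)) = conj (pr Y (star (op X)))) ?_ ?_ ?_ ?_ ?_ X
  · refine isClosed_eq (continuous_pr _) ?_
    exact Complex.continuous_conj.comp (Y.toDual.continuous.comp
      (continuous_star.comp (op (H := H)).continuous))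
  · rw [pr_zero_left, map_zero, star_zero]
    have : pr Y (0 : H →L[ℂ] H) = 0 := map_zero Y.toDual
    rw [this, map_zero]
  · intro X X' h h'
    rw [pr_add_left, h, h', map_add, star_add, pr_add_right, map_add]
  · intro c X h
    rw [pr_smul_left, h, map_smul, star_smul, pr_smul_right, map_mul]
    simp
  · intro x y
    rw [pr_mv, op_mv, star_r1, ← inner_op, inner_conj_symm,
      ContinuousLinearMap.star_eq_adjoint, ContinuousLinearMap.adjoint_inner_right]

theorem norm_lm_le (S : H →L[ℂ] H) (X : S1 H) : ‖lm S X‖ ≤ ‖S‖ * ‖X‖ := by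
  refine norm_le_of_pr _ _ (by positivity) fun Y => ?_
  rw [pr_lm]
  calc ‖pr X (Y * S)‖ ≤ ‖X‖ * ‖Y * S‖ := norm_pr_le _ _
    _ ≤ ‖X‖ * (‖Y‖ * ‖S‖) := by gcongr; exact norm_mul_le _ _
    _ = ‖S‖ * ‖X‖ * ‖Y‖ := by ring

theorem norm_rm_le (S : H →L[ℂ] H) (X : S1 H) : ‖rm S X‖ ≤ ‖S‖ * ‖X‖ := by
  refine norm_le_of_pr _ _ (by positivity) fun Y => ?_
  rw [pr_rm]
  calc ‖pr X (S * Y)‖ ≤ ‖X‖ * ‖S * Y‖ := norm_pr_le _ _
    _ ≤ ‖X‖ * (‖S‖ * ‖Y‖) := by gcongr; exact norm_mul_le _ _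
    _ = ‖S‖ * ‖X‖ * ‖Y‖ := by ring

/-- For a finite rank functional, compression by a large finite dimensional projection changes
nothing. -/
theorem FRk_proj (φ : StrongDual ℂ (H →L[ℂ] H)) (hφ : φ ∈ FRk H) :
    ∃ K : Submodule ℂ H, FiniteDimensional ℂ K ∧ ∀ Q : H →L[ℂ] H, (∀ x ∈ K, Q x = x) →
      ∀ S : H →L[ℂ] H, φ (S * Q) = φ S ∧ φ (star Q * S) = φ S := by
  refine Submodule.span_induction (p := fun φ _ => ∃ K : Submodule ℂ H, FiniteDimensional ℂ K ∧
    ∀ Q : H →L[ℂ] H, (∀ x ∈ K, Q x = x) →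
      ∀ S : H →L[ℂ] H, φ (S * Q) = φ S ∧ φ (star Q * S) = φ S) ?_ ?_ ?_ ?_ hφ
  · rintro _ ⟨⟨x, y⟩, rfl⟩
    refine ⟨Submodule.span ℂ {x, y}, FiniteDimensional.span_of_finite ℂ (Set.toFinite _),
      fun Q hQ S => ⟨?_, ?_⟩⟩
    · change ⟪y, S (Q x)⟫_ℂ = ⟪y, S x⟫_ℂ
      rw [hQ x (Submodule.subset_span (by simp))]
    · change ⟪y, (star Q) (S x)⟫_ℂ = ⟪y, S x⟫_ℂ
      rw [ContinuousLinearMap.star_eq_adjoint, ContinuousLinearMap.adjoint_inner_right,
        hQ y (Submodule.subset_span (by simp))]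
  · exact ⟨⊥, inferInstance, fun Q _ S => ⟨rfl, rfl⟩⟩
  · rintro φ ψ - - ⟨K, hK, h⟩ ⟨L, hL, h'⟩
    refine ⟨K ⊔ L, inferInstance, fun Q hQ S => ⟨?_, ?_⟩⟩
    · rw [_root_.add_apply, _root_.add_apply,
        (h Q (fun x hx => hQ x (Submodule.mem_sup_left hx)) S).1,
        (h' Q (fun x hx => hQ x (Submodule.mem_sup_right hx)) S).1]
    · rw [_root_.add_apply, _root_.add_apply,
        (h Q (fun x hx => hQ x (Submodule.mem_sup_left hx)) S).2,
        (h' Q (fun x hx => hQ x (Submodule.mem_sup_right hx)) S).2]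
  · rintro c φ - ⟨K, hK, h⟩
    refine ⟨K, hK, fun Q hQ S => ⟨?_, ?_⟩⟩
    · rw [_root_.smul_apply, _root_.smul_apply, (h Q hQ S).1]
    · rw [_root_.smul_apply, _root_.smul_apply, (h Q hQ S).2]

/-- Approximation of an element of `S1` by compressions. -/
theorem exists_proj (X : S1 H) (ε : ℝ) (hε : 0 < ε) :
    ∃ K : Submodule ℂ H, ∃ _ : FiniteDimensional ℂ K, ∀ S : H →L[ℂ] H,
      ‖pr X S - pr X (S * K.starProjection)‖ ≤ ε * ‖S‖ ∧
      ‖pr X S - pr X (K.starProjection * S)‖ ≤ ε * ‖S‖ := by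
  obtain ⟨X', hX', hn⟩ := exists_near X (ε / 2) (by positivity)
  obtain ⟨K, hK, h⟩ := FRk_proj _ hX'
  refine ⟨K, hK, fun S => ?_⟩
  have hQ : ∀ x ∈ K, K.starProjection x = x := fun x hx => Submodule.starProjection_eq_self_iff.2 hx
  have hQs : star K.starProjection = K.starProjection :=
    (isSelfAdjoint_starProjection K).star_eq
  have hQn : ‖K.starProjection‖ ≤ 1 := K.starProjection_norm_le
  have hd := h K.starProjection hQ S
  rw [hQs] at hd
  have key : ∀ T : H →L[ℂ] H, ‖T‖ ≤ ‖S‖ → pr X' T = pr X' S → ‖pr X S - pr X T‖ ≤ ε * ‖S‖ := by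
    intro T hT he
    have : pr X S - pr X T = pr (X - X') S - pr (X - X') T := by
      rw [pr_sub_left, pr_sub_left, he]; ring
    rw [this]
    calc ‖pr (X - X') S - pr (X - X') T‖ ≤ ‖pr (X - X') S‖ + ‖pr (X - X') T‖ := norm_sub_le _ _
      _ ≤ ‖X - X'‖ * ‖S‖ + ‖X - X'‖ * ‖S‖ := by
        refine add_le_add (norm_pr_le _ _) ((norm_pr_le _ _).trans ?_)
        gcongr
      _ ≤ ε / 2 * ‖S‖ + ε / 2 * ‖S‖ := by gcongr
      _ = ε * ‖S‖ := by ring
  refine ⟨key _ ?_ hd.1, key _ ?_ hd.2⟩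
  · calc ‖S * K.starProjection‖ ≤ ‖S‖ * ‖K.starProjection‖ := norm_mul_le _ _
      _ ≤ ‖S‖ * 1 := by gcongr
      _ = ‖S‖ := mul_one _
  · calc ‖K.starProjection * S‖ ≤ ‖K.starProjection‖ * ‖S‖ := norm_mul_le _ _
      _ ≤ 1 * ‖S‖ := by gcongr
      _ = ‖S‖ := one_mul _

/-- `S Q` is a sum of rank one operators. -/
theorem mul_proj (K : Submodule ℂ H) [FiniteDimensional ℂ K] (S : H →L[ℂ] H) :
    S * K.starProjection = ∑ i, r1 (S (stdOrthonormalBasis ℂ K i : H))
      (stdOrthonormalBasis ℂ K i : H) := by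
  ext x
  have h2 : K.starProjection x = ∑ i, ⟪(stdOrthonormalBasis ℂ K i : H), x⟫_ℂ •
      (stdOrthonormalBasis ℂ K i : H) := by
    rw [(stdOrthonormalBasis ℂ K).starProjection_eq_sum_rankOne]
    simp
  change S (K.starProjection x) = _
  rw [h2, map_sum, _root_.sum_apply]
  refine Finset.sum_congr rfl fun i _ => ?_
  rw [map_smul, r1_apply]

theorem proj_mul (K : Submodule ℂ H) [FiniteDimensional ℂ K] (S : H →L[ℂ] H) :
    K.starProjection * S = ∑ i, r1 (stdOrthonormalBasis ℂ K i : H)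
      (star S (stdOrthonormalBasis ℂ K i : H)) := by
  have h1 := congrArg star (mul_proj K (star S))
  rw [star_mul, star_star, (isSelfAdjoint_starProjection K).star_eq, star_sum] at h1
  rw [h1]
  refine Finset.sum_congr rfl fun i _ => ?_
  rw [star_r1]

theorem eq_zero_of_op (X : S1 H) (h : op X = 0) : X = 0 := by
  refine ext_pr fun S => ?_
  rw [pr_zero_left]
  have h0 : ∀ x y : H, pr X (r1 x y) = 0 := by
    intro x y
    rw [← inner_op, h]
    simp
  by_contra hne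
  have hpos : 0 < ‖pr X S‖ := norm_pos_iff.2 hne
  obtain ⟨K, hK, hp⟩ := exists_proj X (‖pr X S‖ / (2 * (‖S‖ + 1))) (by positivity)
  have h1 := (hp S).1
  rw [mul_proj, show pr X (∑ i, r1 (S (stdOrthonormalBasis ℂ K i : H))
      (stdOrthonormalBasis ℂ K i : H)) = 0 by
    unfold pr
    rw [map_sum]
    exact Finset.sum_eq_zero fun i _ => h0 _ _, sub_zero] at h1
  have h2 : ‖pr X S‖ / (2 * (‖S‖ + 1)) * ‖S‖ < ‖pr X S‖ := by
    rw [div_mul_eq_mul_div, div_lt_iff₀ (by positivity)]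
    nlinarith [norm_nonneg S]
  linarith

theorem pr_star_of_selfAdjoint (X : S1 H) (h : star (op X) = op X) (Y : H →L[ℂ] H) :
    pr X (star Y) = conj (pr X Y) := by
  -- for the operators of elements of `S1`
  have h0 : ∀ Z : S1 H, pr X (star (op Z)) = conj (pr X (op Z)) := by
    intro Z
    rw [pr_star_op, h, pr_symm]
  by_contra hne
  have hpos : 0 < ‖pr X (star Y) - conj (pr X Y)‖ := norm_pos_iff.2 (sub_ne_zero.2 hne)
  set δ := ‖pr X (star Y) - conj (pr X Y)‖ with hδ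
  obtain ⟨K, hK, hp⟩ := exists_proj X (δ / (4 * (‖Y‖ + 1))) (by positivity)
  have h1 := (hp (star Y)).1
  have h2 := (hp Y).2
  rw [norm_star] at h1
  have hYK : K.starProjection * Y = op (∑ i, mv (stdOrthonormalBasis ℂ K i : H)
      (star Y (stdOrthonormalBasis ℂ K i : H))) := by
    rw [proj_mul, map_sum]
    exact Finset.sum_congr rfl fun i _ => (op_mv _ _).symm
  have h3 : pr X (star Y * K.starProjection) = conj (pr X (K.starProjection * Y)) := by
    have : star Y * K.starProjection = star (K.starProjection * Y) := by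
      rw [star_mul, (isSelfAdjoint_starProjection K).star_eq]
    rw [this, hYK]
    exact h0 _
  have h4 : δ ≤ δ / (4 * (‖Y‖ + 1)) * ‖Y‖ + δ / (4 * (‖Y‖ + 1)) * ‖Y‖ := by
    have : pr X (star Y) - conj (pr X Y) = (pr X (star Y) - pr X (star Y * K.starProjection)) -
        conj (pr X Y - pr X (K.starProjection * Y)) := by
      rw [h3, map_sub]; ring
    calc δ = ‖(pr X (star Y) - pr X (star Y * K.starProjection)) -
        conj (pr X Y - pr X (K.starProjection * Y))‖ := by rw [hδ, this]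
      _ ≤ ‖pr X (star Y) - pr X (star Y * K.starProjection)‖ +
        ‖conj (pr X Y - pr X (K.starProjection * Y))‖ := norm_sub_le _ _
      _ ≤ _ := by
        refine add_le_add h1 ?_
        rw [RCLike.norm_conj]
        exact h2
  have h5 : δ / (4 * (‖Y‖ + 1)) * ‖Y‖ < δ / 2 := by
    rw [div_mul_eq_mul_div, div_lt_div_iff₀ (by positivity) (by positivity)]
    nlinarith [norm_nonneg Y]
  linarith

end ALGAux

open ALGAux in
/-- Block ALG. -/
theorem blk_ALG : Stmt_Alg.{v} := by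
  intro H _ _ _
  exact ⟨op_lm, op_rm, pr_symm, eq_zero_of_op, norm_lm_le, norm_rm_le, norm_pr_le, pr_star_op,
    pr_star_of_selfAdjoint⟩

end Pool.Bes
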