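import Pool.Agent.Work.Bes.Interface

/-!
# Block WT: stability of the class `Wt` (helper31)
-/

open MeasureTheory Complex
open scoped ComplexOrder InnerProductSpace ComplexConjugate

set_option autoImplicit false

namespace Pool.Bes.WTB

theorem ip_add_left (ξ η z : ℂ) : ip (ξ + η) z = ip ξ z + ip η z := by
  simp only [ip, add_re, add_im]; ring

theorem ip_add_right (ξ z w : ℂ) : ip ξ (z + w) = ip ξ z + ip ξ w := by
  simp only [ip, add_re, add_im]; ring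

theorem ip_comm (ξ z : ℂ) : ip ξ z = ip z ξ := by
  simp only [ip]; ring

theorem ip_eq_inner (ξ z : ℂ) : ip ξ z = ⟪ξ, z⟫_ℝ := by
  rw [Complex.inner, ip, Complex.mul_re, Complex.conj_re, Complex.conj_im]
  ring

theorem abs_ip_le (ξ z : ℂ) : |ip ξ z| ≤ ‖ξ‖ * ‖z‖ := by
  rw [ip_eq_inner]
  exact abs_real_inner_le_norm ξ z

theorem continuous_ip : Continuous fun p : ℂ × ℂ => ip p.1 p.2 := by
  unfold ip
  fun_prop

theorem norm_ch (ξ z : ℂ) : ‖ch ξ z‖ = 1 := by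
  rw [ch, mul_comm]
  exact Complex.norm_exp_ofReal_mul_I _

theorem ch_add_left (ξ η z : ℂ) : ch (ξ + η) z = ch ξ z * ch η z := by
  rw [ch, ch, ch, ← Complex.exp_add, ip_add_left]
  congr 1
  push_cast
  ring

theorem ch_add_right (ξ z w : ℂ) : ch ξ (z + w) = ch ξ z * ch ξ w := by
  rw [ch, ch, ch, ← Complex.exp_add, ip_add_right]
  congr 1
  push_cast
  ring

theorem continuous_ch : Continuous fun p : ℂ × ℂ => ch p.1 p.2 := by
  unfold ch
  exact Complex.continuous_exp.comp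
    (continuous_const.mul (Complex.continuous_ofReal.comp continuous_ip))

theorem gam_nonneg (t : ℝ) (s : ℂ) : 0 ≤ gam t s := by
  unfold gam
  positivity

theorem continuous_gam (t : ℝ) : Continuous (gam t) := by
  unfold gam
  fun_prop

/-- the characteristic function of the Gaussian density -/
theorem integral_gam_ch {ρ : ℝ} (hρ : 0 < ρ) (ξ : ℂ) :
    ∫ n : ℂ, (gam ρ n : ℂ) * ch ξ n = (Real.exp (-(ρ ^ 2 * ‖ξ‖ ^ 2 / 2)) : ℝ) := by
  have hb : 0 < (((1 / (2 * ρ ^ 2) : ℝ) : ℂ)).re := by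
    rw [Complex.ofReal_re]; positivity
  have h1 := GaussianFourier.integral_cexp_neg_mul_sq_norm_add (V := ℂ) hb Complex.I ξ
  have hρ0 : (ρ : ℂ) ≠ 0 := by exact_mod_cast hρ.ne'
  have hπ : (Real.pi : ℂ) ≠ 0 := by exact_mod_cast Real.pi_ne_zero
  have h2 : (fun n : ℂ => (gam ρ n : ℂ) * ch ξ n) = fun n : ℂ =>
      (((1 / (2 * Real.pi * ρ ^ 2) : ℝ)) : ℂ) *
        Complex.exp (-((1 / (2 * ρ ^ 2) : ℝ) : ℂ) * (‖n‖ : ℂ) ^ 2 + Complex.I * (⟪ξ, n⟫_ℝ : ℝ)) := by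
    funext n
    rw [Complex.exp_add, ← mul_assoc, ← ip_eq_inner, gam, Complex.ofReal_mul, ch,
      Complex.ofReal_exp]
    congr 3
    push_cast
    ring
  rw [h2, integral_const_mul, h1, Complex.finrank_real_complex]
  have h3 : ((2 : ℕ) : ℂ) / 2 = 1 := by norm_num
  rw [h3, Complex.cpow_one, ← mul_assoc]
  have h4 : (((1 / (2 * Real.pi * ρ ^ 2) : ℝ)) : ℂ) * ((Real.pi : ℂ) / ((1 / (2 * ρ ^ 2) : ℝ) : ℂ)) =
      1 := by
    push_cast
    field_simp
  rw [h4, one_mul, Complex.ofReal_exp]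
  congr 1
  rw [Complex.I_sq]
  push_cast
  field_simp
  ring

theorem integrable_gam {ρ : ℝ} (hρ : 0 < ρ) : Integrable (gam ρ) := by
  have h1 : (∫ n : ℂ, (gam ρ n : ℂ)) = 1 := by
    have h := integral_gam_ch hρ 0
    simpa [ch, ip] using h
  have h2 : Integrable (fun n : ℂ => (gam ρ n : ℂ)) := by
    by_contra hc
    rw [integral_undef hc] at h1
    exact zero_ne_one h1
  have h3 := h2.re
  simpa using h3

theorem integral_gam {ρ : ℝ} (hρ : 0 < ρ) : ∫ n : ℂ, gam ρ n = 1 := by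
  have h := integral_gam_ch hρ 0
  have h1 : (∫ n : ℂ, (gam ρ n : ℂ)) = 1 := by simpa [ch, ip] using h
  rw [integral_complex_ofReal] at h1
  exact_mod_cast h1

theorem wt_integrable {a : ℂ → ℂ} (ha : Wt a) : Integrable a := by
  have h := ha.2 0
  simp only [pow_zero, one_mul] at h
  exact (integrable_norm_iff ha.1).1 h

theorem wt_mono {a b : ℂ → ℂ} (ha : Wt a) (hb : AEStronglyMeasurable b volume) (C D : ℝ)
    (h : ∀ ξ, ‖b ξ‖ ≤ C * ‖a ξ‖ + D * (‖ξ‖ * ‖a ξ‖)) : Wt b := by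
  refine ⟨hb, fun k => ?_⟩
  refine Integrable.mono' (((ha.2 k).const_mul C).add ((ha.2 (k + 1)).const_mul D)) ?_ ?_
  · exact (continuous_norm.pow k).aestronglyMeasurable.mul hb.norm
  · refine Filter.Eventually.of_forall fun ξ => ?_
    rw [Real.norm_of_nonneg (by positivity)]
    calc ‖ξ‖ ^ k * ‖b ξ‖ ≤ ‖ξ‖ ^ k * (C * ‖a ξ‖ + D * (‖ξ‖ * ‖a ξ‖)) :=
          mul_le_mul_of_nonneg_left (h ξ) (by positivity)
      _ = C * (‖ξ‖ ^ k * ‖a ξ‖) + D * (‖ξ‖ ^ (k + 1) * ‖a ξ‖) := by ring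

theorem wt_gm {a : ℂ → ℂ} (ha : Wt a) (ρ : ℝ) : Wt (gm ρ a) := by
  refine wt_mono ha (b := gm ρ a) ?_ 1 0 fun ξ => ?_
  · unfold gm
    refine AEStronglyMeasurable.mul (Continuous.aestronglyMeasurable ?_) ha.1
    exact Complex.continuous_ofReal.comp (by fun_prop)
  · rw [gm, norm_mul, Complex.norm_real, Real.norm_of_nonneg (Real.exp_nonneg _)]
    have h1 : Real.exp (-(ρ ^ 2 * ‖ξ‖ ^ 2 / 2)) ≤ 1 := by
      rw [Real.exp_le_one_iff]
      have : 0 ≤ ρ ^ 2 * ‖ξ‖ ^ 2 / 2 := by positivity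
      linarith
    nlinarith [norm_nonneg (a ξ)]

theorem wt_add {a b : ℂ → ℂ} (ha : Wt a) (hb : Wt b) : Wt (fun ξ => a ξ + b ξ) := by
  refine ⟨ha.1.add hb.1, fun k => ?_⟩
  refine Integrable.mono' ((ha.2 k).add (hb.2 k)) ?_ ?_
  · exact (continuous_norm.pow k).aestronglyMeasurable.mul (ha.1.add hb.1).norm
  · refine Filter.Eventually.of_forall fun ξ => ?_
    rw [Real.norm_of_nonneg (by positivity)]
    calc ‖ξ‖ ^ k * ‖a ξ + b ξ‖ ≤ ‖ξ‖ ^ k * (‖a ξ‖ + ‖b ξ‖) :=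
          mul_le_mul_of_nonneg_left (norm_add_le _ _) (by positivity)
      _ = ‖ξ‖ ^ k * ‖a ξ‖ + ‖ξ‖ ^ k * ‖b ξ‖ := by ring

theorem wt_const_mul {a : ℂ → ℂ} (ha : Wt a) (c : ℂ) : Wt (fun ξ => c * a ξ) := by
  refine wt_mono ha (aestronglyMeasurable_const.mul ha.1) ‖c‖ 0 fun ξ => ?_
  rw [norm_mul]
  simp

theorem wt_sub {a b : ℂ → ℂ} (ha : Wt a) (hb : Wt b) : Wt (fun ξ => a ξ - b ξ) := by
  have h := wt_add ha (wt_const_mul hb (-1))
  refine (congrArg Wt ?_).mp h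
  funext ξ
  ring

theorem wt_ip_mul {a : ℂ → ℂ} (ha : Wt a) (e : ℂ) : Wt (fun ξ => (ip e ξ : ℂ) * a ξ) := by
  refine wt_mono ha (AEStronglyMeasurable.mul (Continuous.aestronglyMeasurable ?_) ha.1) 0 ‖e‖
    fun ξ => ?_
  · exact Complex.continuous_ofReal.comp
      (continuous_ip.comp (by fun_prop : Continuous fun ξ : ℂ => (e, ξ)))
  · rw [norm_mul, Complex.norm_real, Real.norm_eq_abs]
    have := mul_le_mul_of_nonneg_right (abs_ip_le e ξ) (norm_nonneg (a ξ))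
    linarith

theorem wt_ch_mul {a : ℂ → ℂ} (ha : Wt a) (n : ℂ) : Wt (fun ξ => ch ξ n * a ξ) := by
  refine wt_mono ha (AEStronglyMeasurable.mul (Continuous.aestronglyMeasurable ?_) ha.1) 1 0
    fun ξ => ?_
  · exact continuous_ch.comp (by fun_prop : Continuous fun ξ : ℂ => (ξ, n))
  · rw [norm_mul, norm_ch]
    simp

theorem gm_gm (a : ℂ → ℂ) (ρ σ : ℝ) : gm ρ (gm σ a) = gm (Real.sqrt (ρ ^ 2 + σ ^ 2)) a := by
  funext ξ
  rw [gm, gm, gm, ← mul_assoc, ← Complex.ofReal_mul, ← Real.exp_add,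
    Real.sq_sqrt (by positivity)]
  congr 3
  ring

/-- the convolution formula -/
theorem syn_gm {a : ℂ → ℂ} (ha : Integrable a) {ρ : ℝ} (hρ : 0 < ρ) (z : ℂ) :
    syn (gm ρ a) z = ∫ n : ℂ, gam ρ n * syn a (z + n) := by
  have hint : Integrable (fun p : ℂ × ℂ => (gam ρ p.1 : ℂ) * (a p.2 * ch p.2 (z + p.1)))
      (volume.prod volume) := by
    have h1 : Integrable (fun p : ℂ × ℂ => (gam ρ p.1 : ℂ) * a p.2) (volume.prod volume) :=
      ((integrable_gam hρ).ofReal (𝕜 := ℂ)).mul_prod ha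
    have h2 : Continuous fun p : ℂ × ℂ => ch p.2 (z + p.1) :=
      continuous_ch.comp (by fun_prop : Continuous fun p : ℂ × ℂ => (p.2, z + p.1))
    have h3 : Integrable (fun p : ℂ × ℂ => ((gam ρ p.1 : ℂ) * a p.2) * ch p.2 (z + p.1))
        (volume.prod volume) := by
      refine h1.mono (h1.aestronglyMeasurable.mul h2.aestronglyMeasurable) ?_
      refine Filter.Eventually.of_forall fun p => ?_
      rw [norm_mul, norm_ch, mul_one]
    refine h3.congr (Filter.Eventually.of_forall fun p => ?_)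
    simp only
    ring
  have h1 : ∀ n : ℂ, (gam ρ n : ℂ) * syn a (z + n) =
      ∫ ξ : ℂ, (gam ρ n : ℂ) * (a ξ * ch ξ (z + n)) := by
    intro n
    rw [syn, integral_const_mul]
  simp_rw [h1]
  rw [integral_integral_swap hint, syn]
  refine integral_congr_ae (Filter.Eventually.of_forall fun ξ => ?_)
  have h2 : ∀ n : ℂ, (gam ρ n : ℂ) * (a ξ * ch ξ (z + n)) =
      (a ξ * ch ξ z) * ((gam ρ n : ℂ) * ch ξ n) := by
    intro n
    rw [ch_add_right]
    ring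
  simp only [h2]
  rw [integral_const_mul, integral_gam_ch hρ, gm]
  ring

end Pool.Bes.WTB

namespace Pool.Bes

theorem blk_WT : Stmt_Wt :=
  ⟨fun _ ha => WTB.wt_integrable ha, fun _ ρ ha => WTB.wt_gm ha ρ,
    fun _ _ ha hb => WTB.wt_add ha hb, fun _ _ ha hb => WTB.wt_sub ha hb,
    fun _ c ha => WTB.wt_const_mul ha c, fun _ e ha => WTB.wt_ip_mul ha e,
    fun _ n ha => WTB.wt_ch_mul ha n, WTB.gm_gm,
    fun _ ha _ hρ z => WTB.syn_gm (WTB.wt_integrable ha) hρ z⟩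

end Pool.Bes
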