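import Pool.Agent.Work.Bes.ALG
import Pool.Agent.Work.Bes.WT

/-!
# Block AV: averages of translates
-/

open MeasureTheory Complex
open scoped ComplexOrder InnerProductSpace ComplexConjugate

set_option autoImplicit false
set_option linter.unusedSectionVars false

universe v

namespace Pool.Bes

namespace AVAux

open ALGAux

section Alg

variable {H : Type v} [NormedAddCommGroup H] [InnerProductSpace ℂ H] [CompleteSpace H]

theorem op_inj {X Y : S1 H} (h : op X = op Y) : X = Y := by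
  have : op (X - Y) = 0 := by rw [map_sub, h, sub_self]
  exact sub_eq_zero.1 (eq_zero_of_op _ this)

theorem op_sw (S T : H →L[ℂ] H) (X : S1 H) : op (sw S T X) = S * op X * T := by
  change op (lm S (rm T X)) = _
  rw [op_lm, op_rm, mul_assoc]

theorem norm_sw_le (S T : H →L[ℂ] H) (X : S1 H) : ‖sw S T X‖ ≤ ‖S‖ * ‖T‖ * ‖X‖ := by
  calc ‖sw S T X‖ ≤ ‖S‖ * ‖rm T X‖ := norm_lm_le _ _
    _ ≤ ‖S‖ * (‖T‖ * ‖X‖) := by gcongr; exact norm_rm_le _ _
    _ = _ := by ring

/-- `lm` as a bilinear map. -/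
noncomputable def lmL : (H →L[ℂ] H) →L[ℂ] S1 H →L[ℂ] S1 H :=
  LinearMap.mkContinuous₂ (LinearMap.mk₂ ℂ (fun S X => lm S X)
    (fun S S' X => ext_pr fun Y => by
      rw [pr_add_left, pr_lm, pr_lm, pr_lm, mul_add, pr_add_right])
    (fun c S X => ext_pr fun Y => by
      rw [pr_smul_left, pr_lm, pr_lm, mul_smul_comm, pr_smul_right])
    (fun S X X' => map_add _ _ _) (fun c S X => map_smul _ _ _)) 1
    (fun S X => by rw [one_mul]; exact norm_lm_le S X)

/-- `rm` as a bilinear map. -/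
noncomputable def rmL : (H →L[ℂ] H) →L[ℂ] S1 H →L[ℂ] S1 H :=
  LinearMap.mkContinuous₂ (LinearMap.mk₂ ℂ (fun S X => rm S X)
    (fun S S' X => ext_pr fun Y => by
      rw [pr_add_left, pr_rm, pr_rm, pr_rm, add_mul, pr_add_right])
    (fun c S X => ext_pr fun Y => by
      rw [pr_smul_left, pr_rm, pr_rm, smul_mul_assoc, pr_smul_right])
    (fun S X X' => map_add _ _ _) (fun c S X => map_smul _ _ _)) 1
    (fun S X => by rw [one_mul]; exact norm_rm_le S X)

theorem lmL_apply (S : H →L[ℂ] H) (X : S1 H) : lmL S X = lm S X := rfl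
theorem rmL_apply (S : H →L[ℂ] H) (X : S1 H) : rmL S X = rm S X := rfl

theorem continuous_lm {α : Type*} [TopologicalSpace α] {S : α → H →L[ℂ] H} {X : α → S1 H}
    (hS : Continuous S) (hX : Continuous X) : Continuous fun a => lm (S a) (X a) :=
  (lmL.continuous.comp hS).clm_apply hX

theorem continuous_rm {α : Type*} [TopologicalSpace α] {S : α → H →L[ℂ] H} {X : α → S1 H}
    (hS : Continuous S) (hX : Continuous X) : Continuous fun a => rm (S a) (X a) :=
  (rmL.continuous.comp hS).clm_apply hX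

theorem continuous_sw {α : Type*} [TopologicalSpace α] {S T : α → H →L[ℂ] H} {X : α → S1 H}
    (hS : Continuous S) (hT : Continuous T) (hX : Continuous X) :
    Continuous fun a => sw (S a) (T a) (X a) :=
  continuous_lm hS (continuous_rm hT hX)

end Alg

section Gauss

theorem gam_pos {t : ℝ} (ht : 0 < t) (s : ℂ) : 0 < gam t s := by
  unfold gam
  have := Real.pi_pos
  positivity

/-- completing the square -/
theorem gam_mul_gam {t r : ℝ} (ht : 0 < t) (hr : 0 < r) (s u : ℂ) :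
    gam t s * gam r (u - s) = gam (Real.sqrt (t ^ 2 + r ^ 2)) u *
      gam (t * r / Real.sqrt (t ^ 2 + r ^ 2)) (s - (t ^ 2 / (t ^ 2 + r ^ 2) : ℝ) * u) := by
  have hq : 0 < t ^ 2 + r ^ 2 := by positivity
  have hq1 : Real.sqrt (t ^ 2 + r ^ 2) ^ 2 = t ^ 2 + r ^ 2 := Real.sq_sqrt hq.le
  have hpi := Real.pi_pos
  simp only [gam, div_pow, hq1, mul_pow]
  have key : -(‖s‖ ^ 2 / (2 * t ^ 2)) + -(‖u - s‖ ^ 2 / (2 * r ^ 2)) =
      -(‖u‖ ^ 2 / (2 * (t ^ 2 + r ^ 2))) +
        -(‖s - ((t ^ 2 / (t ^ 2 + r ^ 2) : ℝ) : ℂ) * u‖ ^ 2 /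
          (2 * (t ^ 2 * r ^ 2 / (t ^ 2 + r ^ 2)))) := by
    rw [← Complex.normSq_eq_norm_sq, ← Complex.normSq_eq_norm_sq, ← Complex.normSq_eq_norm_sq,
      ← Complex.normSq_eq_norm_sq]
    simp only [Complex.normSq_apply, Complex.sub_re, Complex.sub_im, Complex.mul_re,
      Complex.mul_im, Complex.ofReal_re, Complex.ofReal_im, zero_mul, sub_zero, add_zero]
    field_simp
    ring
  have h1 : ∀ a b c d : ℝ, a * Real.exp b * (c * Real.exp d) = a * c * Real.exp (b + d) := by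
    intro a b c d
    rw [Real.exp_add]; ring
  rw [h1, h1, key]
  congr 1
  field_simp

theorem gam_neg (t : ℝ) (s : ℂ) : gam t (-s) = gam t s := by
  unfold gam
  rw [norm_neg]

theorem integral_gam_mul_gam {t r : ℝ} (ht : 0 < t) (hr : 0 < r) (u : ℂ) :
    ∫ s : ℂ, gam t s * gam r (u - s) = gam (Real.sqrt (t ^ 2 + r ^ 2)) u := by
  have hq : 0 < Real.sqrt (t ^ 2 + r ^ 2) := Real.sqrt_pos.2 (by positivity)
  simp only [gam_mul_gam ht hr]
  rw [integral_const_mul]
  have h1 := integral_sub_right_eq_self (μ := (volume : Measure ℂ))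
    (gam (t * r / Real.sqrt (t ^ 2 + r ^ 2))) (((t ^ 2 / (t ^ 2 + r ^ 2) : ℝ) : ℂ) * u)
  rw [h1, WTB.integral_gam (by positivity), mul_one]

end Gauss

section Av

variable {H : Type v} [NormedAddCommGroup H] [InnerProductSpace ℂ H] [CompleteSpace H]

/-- the properties of the groups -/
structure Grp (P : Pair H) : Prop where
  A0 : ex P.A 0 = 1
  Aadd : ∀ s t : ℂ, ex P.A (s + t) = ex P.A s * ex P.A t
  An : ∀ s : ℂ, ‖ex P.A s‖ ≤ 1
  Ac : Continuous (ex P.A)
  B0 : ex P.B 0 = 1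
  Badd : ∀ s t : ℂ, ex P.B (s + t) = ex P.B s * ex P.B t
  Bn : ∀ s : ℂ, ‖ex P.B s‖ ≤ 1
  Bc : Continuous (ex P.B)

theorem grp_of_ex (hE : Stmt_Ex.{v}) (P : Pair H) : Grp P := by
  obtain ⟨a1, a2, -, a4, a5, -, -, -⟩ := hE H P.A P.hA
  obtain ⟨b1, b2, -, b4, b5, -, -, -⟩ := hE H P.B P.hB
  exact ⟨a1, a2, a4, a5, b1, b2, b4, b5⟩

variable {P : Pair H} (h : Grp P)
include h

theorem op_tD (s : ℂ) (X : S1 H) : op (tD P s X) = tO P s (op X) := op_sw _ _ _

theorem tD_add (s t : ℂ) (X : S1 H) : tD P (s + t) X = tD P s (tD P t X) := by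
  apply op_inj
  rw [op_tD h, op_tD h, op_tD h, tO, tO, tO, h.Aadd, show -(s + t) = -t + -s by ring, h.Badd]
  simp only [mul_assoc]

theorem tD_zero (X : S1 H) : tD P 0 X = X := by
  apply op_inj
  rw [op_tD h, tO, neg_zero, h.A0, h.B0, one_mul, mul_one]

theorem norm_tD_le (s : ℂ) (X : S1 H) : ‖tD P s X‖ ≤ ‖X‖ := by
  refine (norm_sw_le _ _ _).trans ?_
  have h1 := h.An s
  have h2 := h.Bn (-s)
  calc ‖ex P.A s‖ * ‖ex P.B (-s)‖ * ‖X‖ ≤ 1 * 1 * ‖X‖ := by gcongr
    _ = ‖X‖ := by ring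

theorem norm_tD (s : ℂ) (X : S1 H) : ‖tD P s X‖ = ‖X‖ := by
  refine le_antisymm (norm_tD_le h s X) ?_
  have : X = tD P (-s) (tD P s X) := by
    rw [← tD_add h, neg_add_cancel, tD_zero h]
  conv_lhs => rw [this]
  exact norm_tD_le h _ _

theorem continuous_tD (X : S1 H) : Continuous fun s => tD P s X :=
  continuous_sw h.Ac (h.Bc.comp continuous_neg) continuous_const

theorem continuous_tD' {α : Type*} [TopologicalSpace α] {s : α → ℂ} {X : α → S1 H}
    (hs : Continuous s) (hX : Continuous X) : Continuous fun a => tD P (s a) (X a) :=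
  continuous_sw (h.Ac.comp hs) (h.Bc.comp (continuous_neg.comp hs)) hX

theorem continuous_tO (Y : H →L[ℂ] H) : Continuous fun s => tO P s Y :=
  (h.Ac.mul continuous_const).mul (h.Bc.comp continuous_neg)

theorem norm_tO_le (s : ℂ) (Y : H →L[ℂ] H) : ‖tO P s Y‖ ≤ ‖Y‖ := by
  have h1 := h.An s
  have h2 := h.Bn (-s)
  calc ‖tO P s Y‖ ≤ ‖ex P.A s * Y‖ * ‖ex P.B (-s)‖ := norm_mul_le _ _
    _ ≤ ‖ex P.A s‖ * ‖Y‖ * ‖ex P.B (-s)‖ := by gcongr; exact norm_mul_le _ _
    _ ≤ 1 * ‖Y‖ * 1 := by gcongr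
    _ = ‖Y‖ := by ring

theorem integrable_smul_tD (X : S1 H) {ψ : ℂ → ℂ} (hψ : Integrable ψ) :
    Integrable fun s => ψ s • tD P s X := by
  refine (hψ.norm.mul_const ‖X‖).mono' (hψ.aestronglyMeasurable.smul
    (continuous_tD h X).aestronglyMeasurable) (ae_of_all _ fun s => ?_)
  rw [norm_smul, norm_tD h]

theorem norm_av_le (X : S1 H) {ψ : ℂ → ℂ} (_ : Integrable ψ) :
    ‖av P ψ X‖ ≤ (∫ s, ‖ψ s‖) * ‖X‖ := by
  rw [← integral_mul_const]
  refine (norm_integral_le_integral_norm _).trans (le_of_eq ?_)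
  refine integral_congr_ae (ae_of_all _ fun s => ?_)
  change ‖ψ s • tD P s X‖ = ‖ψ s‖ * ‖X‖
  rw [norm_smul, norm_tD h]

theorem op_av (X : S1 H) {ψ : ℂ → ℂ} (hψ : Integrable ψ) : op (av P ψ X) = avO P ψ (op X) := by
  rw [av, avO, ← ContinuousLinearMap.integral_comp_comm _ (integrable_smul_tD h X hψ)]
  refine integral_congr_ae (ae_of_all _ fun s => ?_)
  change op (ψ s • tD P s X) = ψ s • tO P s (op X)
  rw [map_smul, op_tD h]

theorem tD_av (s : ℂ) (X : S1 H) {ψ : ℂ → ℂ} (hψ : Integrable ψ) :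
    tD P s (av P ψ X) = av P ψ (tD P s X) := by
  rw [av, av, ← ContinuousLinearMap.integral_comp_comm _ (integrable_smul_tD h X hψ)]
  refine integral_congr_ae (ae_of_all _ fun u => ?_)
  change tD P s (ψ u • tD P u X) = ψ u • tD P u (tD P s X)
  rw [map_smul, ← tD_add h, ← tD_add h, add_comm]

omit h in
theorem integrable_gamC {t : ℝ} (ht : 0 < t) : Integrable fun s => (gam t s : ℂ) :=
  (WTB.integrable_gam ht).ofReal

omit h in
theorem integrable_gamC' (t : ℝ) : Integrable fun s => (gam t s : ℂ) := by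
  rcases lt_trichotomy t 0 with ht | ht | ht
  · have : (fun s => (gam t s : ℂ)) = fun s => (gam (-t) s : ℂ) := by
      funext s
      unfold gam
      rw [neg_sq]
    rw [this]
    exact integrable_gamC (neg_pos.2 ht)
  · have : (fun s => (gam t s : ℂ)) = fun _ => 0 := by
      funext s
      simp [gam, ht]
    rw [this]
    exact integrable_zero _ _ _
  · exact integrable_gamC ht

theorem tD_G (t : ℝ) (s : ℂ) (X : S1 H) : tD P s (G P t X) = G P t (tD P s X) :=
  tD_av h s X (integrable_gamC' t)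

theorem norm_G_le {t : ℝ} (ht : 0 < t) (X : S1 H) : ‖G P t X‖ ≤ ‖X‖ := by
  refine (norm_av_le h X (integrable_gamC ht)).trans (le_of_eq ?_)
  have : ∫ s, ‖(gam t s : ℂ)‖ = 1 := by
    rw [← WTB.integral_gam ht]
    refine integral_congr_ae (ae_of_all _ fun s => ?_)
    change ‖(gam t s : ℂ)‖ = gam t s
    rw [Complex.norm_real, Real.norm_of_nonneg (WTB.gam_nonneg t s)]
  rw [this, one_mul]

theorem G_G {t r : ℝ} (ht : 0 < t) (hr : 0 < r) (X : S1 H) :
    G P t (G P r X) = G P (Real.sqrt (t ^ 2 + r ^ 2)) X := by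
  have e1 : ∀ s : ℂ, (gam t s : ℂ) • tD P s (G P r X) =
      ∫ u : ℂ, ((gam t s : ℂ) * (gam r (u - s) : ℂ)) • tD P u X := by
    intro s
    rw [G, tD_av h s X (integrable_gamC hr), av, ← integral_smul]
    rw [← integral_sub_right_eq_self (μ := (volume : Measure ℂ)) _ s]
    refine integral_congr_ae (ae_of_all _ fun u => ?_)
    change (gam t s : ℂ) • ((gam r (u - s) : ℂ) • tD P (u - s) (tD P s X)) = _
    rw [← tD_add h, sub_add_cancel, smul_smul]
  have e2 : Integrable (fun p : ℂ × ℂ => ((gam t p.1 : ℂ) * (gam r (p.2 - p.1) : ℂ)) • tD P p.2 X)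
      ((volume : Measure ℂ).prod volume) := by
    have hc : Continuous fun p : ℂ × ℂ =>
        ((gam t p.1 : ℂ) * (gam r (p.2 - p.1) : ℂ)) • tD P p.2 X := by
      have c1 := (continuous_ofReal.comp ((WTB.continuous_gam t).comp (continuous_fst (X := ℂ) (Y := ℂ))))
      have c2 := (continuous_ofReal.comp ((WTB.continuous_gam r).comp
        ((continuous_snd (X := ℂ) (Y := ℂ)).sub continuous_fst)))
      exact (c1.mul c2).smul ((continuous_tD h X).comp continuous_snd)
    rw [integrable_prod_iff hc.aestronglyMeasurable]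
    have hn : ∀ s u : ℂ, ‖((gam t s : ℂ) * (gam r (u - s) : ℂ)) • tD P u X‖ =
        gam t s * gam r (u - s) * ‖X‖ := by
      intro s u
      rw [norm_smul, norm_tD h, norm_mul, Complex.norm_real, Complex.norm_real,
        Real.norm_of_nonneg (WTB.gam_nonneg t s), Real.norm_of_nonneg (WTB.gam_nonneg r _)]
    have hi : ∀ s : ℂ, Integrable fun u : ℂ => gam r (u - s) := fun s =>
      (WTB.integrable_gam hr).comp_sub_right s
    constructor
    · refine ae_of_all _ fun s => ?_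
      refine ((hi s).const_mul (gam t s) |>.mul_const ‖X‖).mono'
        (hc.comp (Continuous.prodMk_right s)).aestronglyMeasurable (ae_of_all _ fun u => ?_)
      exact (hn s u).le
    · simp only [hn]
      have : ∀ s : ℂ, ∫ u : ℂ, gam t s * gam r (u - s) * ‖X‖ = gam t s * ‖X‖ := by
        intro s
        rw [integral_mul_const, integral_const_mul,
          integral_sub_right_eq_self (μ := (volume : Measure ℂ)) (gam r) s, WTB.integral_gam hr,
          mul_one]
      simp only [this]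
      exact (WTB.integrable_gam ht).mul_const _
  rw [G, av]
  simp only [e1]
  rw [integral_integral_swap e2, G, av]
  refine integral_congr_ae (ae_of_all _ fun u => ?_)
  change ∫ s : ℂ, ((gam t s : ℂ) * (gam r (u - s) : ℂ)) • tD P u X = _
  rw [integral_smul_const]
  change _ = (gam (Real.sqrt (t ^ 2 + r ^ 2)) u : ℂ) • tD P u X
  rw [← integral_gam_mul_gam ht hr]
  congr 1
  rw [← integral_complex_ofReal]
  simp only [ofReal_mul]

theorem vv_antitone (e : ℂ) : AntitoneOn (vv P e) (Set.Ioi 0) := by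
  intro t ht t' _ htt
  rcases eq_or_lt_of_le htt with h1 | h1
  · rw [h1]
  · have ht0 : 0 < t := ht
    have hr : 0 < Real.sqrt (t' ^ 2 - t ^ 2) := Real.sqrt_pos.2 (by nlinarith)
    have h2 : Real.sqrt (Real.sqrt (t' ^ 2 - t ^ 2) ^ 2 + t ^ 2) = t' := by
      rw [Real.sq_sqrt (by nlinarith), sub_add_cancel, Real.sqrt_sq (by linarith)]
    have h3 := G_G h hr ht0 (P.D e)
    rw [h2] at h3
    rw [vv, vv, ← h3]
    exact norm_G_le h hr _

theorem vv_le (e : ℂ) {t : ℝ} (ht : 0 < t) : vv P e t ≤ ‖e‖ * P.d :=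
  (norm_G_le h ht _).trans (P.hd e)

end Av

end AVAux

open ALGAux AVAux in
/-- Block AV. -/
theorem blk_AV : Stmt_Alg.{v} → Stmt_Ex.{v} → Stmt_Av.{v} := by
  intro _ hE H _ _ _ P
  have h := grp_of_ex hE P
  refine ⟨tD_add h, norm_tD h, continuous_tD h, continuous_tO h, op_tD h,
    fun ψ X hψ => norm_av_le h X hψ, fun ψ X hψ => op_av h X hψ,
    fun t ht => ⟨WTB.integral_gam ht, WTB.integrable_gam ht, gam_pos ht⟩,
    fun t X ht => norm_G_le h ht X, fun t r X ht hr => G_G h ht hr X,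
    fun t s X => tD_G h t s X, vv_antitone h, fun e t ht => vv_le h e ht⟩

end Pool.Bes
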