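import Pool.Agent.Work.Bes.OLG

/-! # Block CO: the coarse part -/

open MeasureTheory Complex
open scoped ComplexOrder InnerProductSpace ComplexConjugate

set_option autoImplicit false
set_option linter.unusedSectionVars false

universe v

namespace Pool.Bes.COB

open KIA OLGB
open WTB (gam_nonneg continuous_gam integral_gam integrable_gam)

theorem hasDerivAt_syn {a : ℂ → ℂ} (ha : Wt a) (z n : ℂ) (t : ℝ) :
    HasDerivAt (fun t : ℝ => syn a (z + t * n)) (syn (dd n a) (z + t * n)) t := by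
  have hai := WTB.wt_integrable ha
  have h1 : Integrable fun ξ : ℂ => ‖n‖ * (‖ξ‖ ^ 1 * ‖a ξ‖) := (ha.2 1).const_mul _
  have hF' : ∀ (t : ℝ) (ξ : ℂ), HasDerivAt (fun t : ℝ => a ξ * ch ξ (z + t * n))
      (dd n a ξ * ch ξ (z + t * n)) t := by
    intro t ξ
    have e1 : ∀ t : ℝ, ip ξ (z + t * n) = ip ξ z + t * ip n ξ := by
      intro t
      simp only [ip, Complex.add_re, Complex.add_im, Complex.re_ofReal_mul,
        Complex.im_ofReal_mul]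
      ring
    have h2 : HasDerivAt (fun t : ℝ => Complex.I * ((ip ξ z + t * ip n ξ : ℝ) : ℂ))
        (Complex.I * ((ip n ξ : ℝ) : ℂ)) t := by
      have h3 : HasDerivAt (fun t : ℝ => ip ξ z + t * ip n ξ) (ip n ξ) t := by
        have := ((hasDerivAt_id t).mul_const (ip n ξ)).const_add (ip ξ z)
        simpa using this
      exact h3.ofReal_comp.const_mul Complex.I
    have h4 := (h2.cexp).const_mul (a ξ)
    have e2 : (fun t : ℝ => a ξ * ch ξ (z + t * n)) = fun t : ℝ => a ξ *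
        Complex.exp (Complex.I * ((ip ξ z + t * ip n ξ : ℝ) : ℂ)) := by
      funext t
      rw [ch, e1]
    rw [e2]
    refine h4.congr_deriv ?_
    rw [ch, e1, dd]
    ring
  have hm : ∀ (b : ℂ → ℂ), AEStronglyMeasurable b volume → ∀ t : ℝ,
      AEStronglyMeasurable (fun ξ => b ξ * ch ξ (z + t * n)) volume := by
    intro b hb t
    exact hb.mul ((WTB.continuous_ch.comp (Continuous.prodMk_left _)).aestronglyMeasurable)
  have hdd : AEStronglyMeasurable (dd n a) volume := by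
    unfold dd
    refine (Continuous.aestronglyMeasurable ?_).mul ha.1
    exact continuous_const.mul (Complex.continuous_ofReal.comp
      (WTB.continuous_ip.comp (Continuous.prodMk_right n)))
  have h := hasDerivAt_integral_of_dominated_loc_of_deriv_le (μ := volume) (𝕜 := ℝ)
    (F := fun t ξ => a ξ * ch ξ (z + t * n)) (F' := fun t ξ => dd n a ξ * ch ξ (z + t * n))
    (x₀ := t) (s := Set.univ) (bound := fun ξ => ‖n‖ * (‖ξ‖ ^ 1 * ‖a ξ‖)) Filter.univ_mem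
    (Filter.Eventually.of_forall fun t => hm a ha.1 t)
    (FNB.integrable_mul_ch a hai _) (hm _ hdd t)
    (Filter.Eventually.of_forall fun ξ t _ => by
      rw [norm_mul, WTB.norm_ch, mul_one, dd, norm_mul, norm_mul, Complex.norm_I, one_mul,
        Complex.norm_real, Real.norm_eq_abs, pow_one, ← mul_assoc]
      exact mul_le_mul_of_nonneg_right (WTB.abs_ip_le n ξ) (norm_nonneg _)) h1
    (Filter.Eventually.of_forall fun ξ t _ => hF' t ξ)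
  exact h.2

theorem norm_syn_add_sub_le {a : ℂ → ℂ} (ha : Wt a) {L : ℝ}
    (hL : ∀ e z : ℂ, ‖syn (dd e a) z‖ ≤ ‖e‖ * L) (z n : ℂ) :
    ‖syn a (z + n) - syn a z‖ ≤ ‖n‖ * L := by
  have h := norm_image_sub_le_of_norm_deriv_le_segment_01' (f := fun t : ℝ => syn a (z + t * n))
    (f' := fun t : ℝ => syn (dd n a) (z + t * n)) (C := ‖n‖ * L)
    (fun t _ => (hasDerivAt_syn ha z n t).hasDerivWithinAt) (fun t _ => hL n _)
  simpa using h

section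

variable {H : Type v} [NormedAddCommGroup H] [InnerProductSpace ℂ H] [CompleteSpace H]

/-- `f(A + n) - f(A)` -/
noncomputable def Sd (N : H →L[ℂ] H) (a : ℂ → ℂ) (n : ℂ) : H →L[ℂ] H :=
  Sn N a n - fn (syn a) N

theorem norm_Sd_le (N : H →L[ℂ] H) {a : ℂ → ℂ} (ha : Wt a) {L : ℝ} (hL0 : 0 ≤ L)
    (hL : ∀ e z : ℂ, ‖syn (dd e a) z‖ ≤ ‖e‖ * L) (n : ℂ) : ‖Sd N a n‖ ≤ L * ‖n‖ := by
  have hai := WTB.wt_integrable ha
  rw [Sd, Sn, fn, fn, ← cfc_sub (syn fun ξ => ch ξ n * a ξ) (syn a) N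
    (FNB.continuous_syn _ (integrable_ch_mul hai n)).continuousOn
    (FNB.continuous_syn _ hai).continuousOn]
  refine norm_cfc_le (by positivity) fun z _ => ?_
  rw [FNB.syn_ch_mul, mul_comm]
  exact norm_syn_add_sub_le ha hL z n

theorem Kd_eq {P : Pair H} (D : DuData P) {ρ : ℝ} (hρ : 0 < ρ) {a : ℂ → ℂ} (ha : Integrable a) :
    Kd ρ (Sn P.A a) (Vr P) = Kd ρ (Sd P.A a) (Vr P) := by
  have hU : ∀ z, ‖syn a z‖ ≤ ∫ ξ, ‖a ξ‖ := FNB.norm_syn_le a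
  have hgi : Integrable fun n => (∫ ξ, ‖a ξ‖) * Qn ρ n := (integrable_Qn hρ).const_mul _
  have h1 := (integrable_Kd hρ (Sn P.A a) (continuous_Sn P.A P.hA ha) (fun _ => ∫ ξ, ‖a ξ‖)
    (norm_Sn_le P.A hU) hgi (Vr P) (continuous_Vr D) P.d (pair_d_nonneg P) (norm_Vr_le D)).1
  have hW := integrable_Wn hρ (Vr P) (continuous_Vr D) P.d (pair_d_nonneg P) (norm_Vr_le D)
  have h2 : Integrable fun n => lmL (fn (syn a) P.A) (Wn ρ (Vr P) n) :=
    (lmL (fn (syn a) P.A)).integrable_comp hW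
  have h3 : ∫ n, lmL (fn (syn a) P.A) (Wn ρ (Vr P) n) = 0 := by
    rw [(lmL (fn (syn a) P.A)).integral_comp_comm hW,
      integral_Wn hρ (Vr P) (continuous_Vr D) P.d (pair_d_nonneg P) (norm_Vr_le D), map_zero]
  have h4 : Kd ρ (Sd P.A a) (Vr P) = ∫ n, (lmL (Sn P.A a n) (Wn ρ (Vr P) n) -
      lmL (fn (syn a) P.A) (Wn ρ (Vr P) n)) := by
    unfold Kd Sd
    congr 1
    funext n
    rw [map_sub, _root_.sub_apply]
  rw [h4, integral_sub h1 h2, h3, sub_zero, Kd]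

theorem norm_Kd_le {P : Pair H} (D : DuData P) {ρ : ℝ} (hρ : 0 < ρ) {a : ℂ → ℂ} (ha : Wt a)
    {L : ℝ} (hL0 : 0 ≤ L) (hL : ∀ e z : ℂ, ‖syn (dd e a) z‖ ≤ ‖e‖ * L) :
    ‖Kd ρ (Sn P.A a) (Vr P)‖ ≤ 10 * L * P.d := by
  rw [Kd_eq D hρ (WTB.wt_integrable ha)]
  have e : (fun n : ℂ => L * ‖n‖ * Qn ρ n) = fun n : ℂ => L * (‖n‖ * Qn ρ n) := by
    funext n; ring
  have hgi : Integrable fun n : ℂ => L * ‖n‖ * Qn ρ n := by
    rw [e]; exact (integrable_norm_Qn hρ).const_mul L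
  have h := (integrable_Kd hρ (Sd P.A a) ((continuous_Sn P.A P.hA
    (WTB.wt_integrable ha)).sub continuous_const) (fun n => L * ‖n‖)
    (norm_Sd_le P.A ha hL0 hL) hgi (Vr P) (continuous_Vr D) P.d (pair_d_nonneg P)
    (norm_Vr_le D)).2
  refine h.trans ?_
  rw [e, integral_const_mul]
  have h1 := mul_le_mul_of_nonneg_left (mul_le_mul_of_nonneg_left (integral_norm_Qn_le hρ) hL0)
    (pair_d_nonneg P)
  linarith

theorem norm_op_Y1_le {P : Pair H} (D : DuData P) {ρ : ℝ} (hρ : 0 < ρ)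
    (h3 : 3 * ‖P.A - P.B‖ ≤ ρ) : ‖op (Y1 P ρ)‖ ≤ 0.4715 := by
  unfold Y1
  rw [← (op (H := H)).integral_comp_comm (integrable_gam_Vr D hρ)]
  have hb : ∀ r : ℂ, ‖op ((gam (1 / ρ) r : ℂ) • Vr P r)‖ ≤
      ‖P.A - P.B‖ * (‖r‖ * gam (1 / ρ) r) := by
    intro r
    rw [map_smul, norm_smul, Complex.norm_real, Real.norm_eq_abs, abs_of_nonneg (gam_nonneg _ _)]
    have h := D.nop (-r)
    rw [norm_neg] at h
    have := mul_le_mul_of_nonneg_left h (gam_nonneg (1 / ρ) r)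
    rw [Vr]
    linarith
  refine (norm_integral_le_of_norm_le
    ((integrable_norm_gam (s := 1 / ρ) (by positivity)).const_mul ‖P.A - P.B‖)
    (Filter.Eventually.of_forall hb)).trans ?_
  rw [integral_const_mul]
  have h1 := mul_le_mul_of_nonneg_left (integral_norm_gam_le (s := 1 / ρ) (by positivity))
    (norm_nonneg (P.A - P.B))
  refine h1.trans ?_
  have h2 : ‖P.A - P.B‖ * (Real.sqrt 2 * (1 / ρ)) = Real.sqrt 2 * (‖P.A - P.B‖ / ρ) := by ring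
  have h4 : ‖P.A - P.B‖ / ρ ≤ 1 / 3 := by
    rw [div_le_iff₀ hρ]
    linarith
  have h6 : Real.sqrt 2 ≤ 1.4144 := by
    rw [Real.sqrt_le_left (by norm_num)]
    norm_num
  rw [h2]
  have h7 : 0 ≤ Real.sqrt 2 := Real.sqrt_nonneg 2
  have h8 : 0 ≤ ‖P.A - P.B‖ / ρ := by positivity
  nlinarith

theorem norm_one_le' : ‖(1 : H →L[ℂ] H)‖ ≤ 1 := ContinuousLinearMap.norm_id_le

/-- the inverse of `Y` -/
theorem exists_inv {P : Pair H} (D : DuData P) {ρ : ℝ} (hρ : 0 < ρ)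
    (h3 : 3 * ‖P.A - P.B‖ ≤ ρ) :
    ∃ Z : H →L[ℂ] H, Z * Yo P ρ = 1 ∧ Yo P ρ * Z = 1 ∧ ‖Z‖ ≤ 1.9 := by
  have h1 := norm_op_Y1_le D hρ h3
  have ht : ‖-(op (Y1 P ρ))‖ < 1 := by rw [norm_neg]; linarith
  have hY : Yo P ρ = 1 - -(op (Y1 P ρ)) := by rw [op_Y1 D hρ]; abel
  set u := Units.oneSub (-(op (Y1 P ρ))) ht with hu
  have hu1 : (u : H →L[ℂ] H) = Yo P ρ := by rw [hY]; rfl
  refine ⟨(↑(u⁻¹) : H →L[ℂ] H), by rw [← hu1, Units.inv_mul], by rw [← hu1, Units.mul_inv], ?_⟩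
  set Z : H →L[ℂ] H := ↑(u⁻¹) with hZ
  have hZ1 : Yo P ρ * Z = 1 := by rw [← hu1, Units.mul_inv]
  have hZ2 : Z = 1 - op (Y1 P ρ) * Z := by
    have : Z = (1 + op (Y1 P ρ)) * Z - op (Y1 P ρ) * Z := by noncomm_ring
    have h5 : (1 + op (Y1 P ρ)) = Yo P ρ := by rw [op_Y1 D hρ]; abel
    rw [h5, hZ1] at this
    exact this
  have h6 : ‖Z‖ ≤ 1 + 0.4715 * ‖Z‖ := by
    calc ‖Z‖ = ‖1 - op (Y1 P ρ) * Z‖ := by rw [← hZ2]
      _ ≤ ‖(1 : H →L[ℂ] H)‖ + ‖op (Y1 P ρ) * Z‖ := norm_sub_le _ _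
      _ ≤ 1 + ‖op (Y1 P ρ)‖ * ‖Z‖ := add_le_add norm_one_le' (norm_mul_le _ _)
      _ ≤ 1 + 0.4715 * ‖Z‖ := by gcongr
  have h7 := norm_nonneg Z
  norm_num at h6 ⊢
  linarith

theorem norm_T_le {P : Pair H} (D : DuData P) (hKI : Stmt_KI.{v}) {ρ : ℝ} (hρ : 0 < ρ)
    {a : ℂ → ℂ} (ha : Wt a) {L : ℝ} (hL : ∀ e z : ℂ, ‖syn (dd e a) z‖ ≤ ‖e‖ * L)
    (h3 : 3 * ‖P.A - P.B‖ ≤ ρ) : ‖T P (gm ρ a)‖ ≤ 20 * L * P.d := by
  have hL0 : 0 ≤ L := by
    have h := (norm_nonneg _).trans (hL 1 0)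
    rw [norm_one, one_mul] at h
    exact h
  have hd := pair_d_nonneg P
  have hK := norm_Kd_le D hρ ha hL0 hL
  obtain ⟨Z, hZ1, hZ2, hZn⟩ := exists_inv D hρ h3
  set K := Kd ρ (Sn P.A a) (Vr P) with hKdef
  set g := fn (syn (gm ρ a)) P.B with hg
  set h := fn (syn (gm ρ a)) P.A with hh
  have hopK : op K = h * Yo P ρ - Yo P ρ * g :=
    op_K D hKI hρ (WTB.wt_integrable ha) (FNB.norm_syn_le a)
  have hY1 := op_Y1 D hρ
  have hF : Fd P (gm ρ a) = rm Z K + (rm Z (rm g (Y1 P ρ)) - rm Z (lm g (Y1 P ρ))) := by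
    rw [← sub_eq_zero]
    refine ALGAux.eq_zero_of_op _ ?_
    rw [map_sub, map_add, map_sub, ALGAux.op_rm, ALGAux.op_rm, ALGAux.op_rm, ALGAux.op_rm,
      ALGAux.op_lm, hopK, hY1, D.opF _ (WTB.wt_gm ha ρ), ← hg, ← hh]
    have e1 : (h * Yo P ρ - Yo P ρ * g) * Z = h - Yo P ρ * g * Z := by
      rw [sub_mul, mul_assoc h, hZ2, mul_one]
    have e2 : g * (Yo P ρ - 1) * Z = g - g * Z := by
      rw [mul_sub, mul_one, sub_mul, mul_assoc g, hZ2, mul_one]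
    rw [e1, e2]
    noncomm_ring
  have hcomm : lm Z (Y1 P ρ) = rm Z (Y1 P ρ) := by
    rw [← sub_eq_zero]
    refine ALGAux.eq_zero_of_op _ ?_
    rw [map_sub, ALGAux.op_rm, ALGAux.op_lm, hY1, mul_sub, sub_mul, hZ1, hZ2, mul_one, one_mul,
      sub_self]
  have htr : T P (gm ρ a) = pr K Z := by
    rw [T, hF, tr, ALGAux.pr_add_left, ALGAux.pr_sub_left, pr_rm, pr_rm, pr_rm, pr_rm, pr_lm,
      mul_one]
    have e3 : pr (Y1 P ρ) (g * Z) = pr (Y1 P ρ) (Z * g) := by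
      rw [← pr_lm, ← pr_rm, hcomm]
    rw [e3, sub_self, add_zero]
  rw [htr]
  calc ‖pr K Z‖ ≤ ‖K‖ * ‖Z‖ := ALGAux.norm_pr_le _ _
    _ ≤ (10 * L * P.d) * 1.9 := mul_le_mul hK hZn (norm_nonneg _) (by positivity)
    _ ≤ 20 * L * P.d := by nlinarith [mul_nonneg hL0 hd]

end

end Pool.Bes.COB

namespace Pool.Bes

theorem blk_CO (hDU : Stmt_Du.{v}) (hKI : Stmt_KI.{v}) : Stmt_Co.{v} := by
  intro H _ _ _ P a ha L hL ρ hρ h3
  exact COB.norm_T_le (OLGB.duData hDU P) hKI hρ ha hL h3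

end Pool.Bes
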