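import Pool.Agent.Work.Bes.Interface

/-!
# Block COS: `‖X - cos (θ [Q, ·]) X‖ ≤ θ² / 2 ‖[Q, [Q, X]]‖`
-/

open MeasureTheory Complex
open scoped ComplexOrder InnerProductSpace ComplexConjugate

set_option autoImplicit false
set_option linter.unusedSectionVars false

universe v

namespace Pool.Bes

namespace CosBlock

variable {H : Type v} [NormedAddCommGroup H] [InnerProductSpace ℂ H] [CompleteSpace H]

theorem ext_pr {X Y : S1 H} (h : ∀ Z, pr X Z = pr Y Z) : X = Y :=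
  S1.toDual_injective (ContinuousLinearMap.ext h)

theorem pr_add (X Y : S1 H) (Z : H →L[ℂ] H) : pr (X + Y) Z = pr X Z + pr Y Z := rfl
theorem pr_sub (X Y : S1 H) (Z : H →L[ℂ] H) : pr (X - Y) Z = pr X Z - pr Y Z := by
  unfold pr; rw [map_sub]; rfl
theorem pr_smul (c : ℂ) (X : S1 H) (Z : H →L[ℂ] H) : pr (c • X) Z = c * pr X Z := rfl
theorem pr_add_right (X : S1 H) (Y Z : H →L[ℂ] H) : pr X (Y + Z) = pr X Y + pr X Z :=
  map_add _ _ _
theorem pr_neg_right (X : S1 H) (Y : H →L[ℂ] H) : pr X (-Y) = -pr X Y :=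
  map_neg _ _
theorem pr_smul_right (c : ℂ) (X : S1 H) (Y : H →L[ℂ] H) : pr X (c • Y) = c * pr X Y :=
  map_smul X.toDual _ _

/-- left multiplication as a bilinear map -/
noncomputable def BL (hn : ∀ (S : H →L[ℂ] H) (X : S1 H), ‖lm S X‖ ≤ ‖S‖ * ‖X‖) :
    (H →L[ℂ] H) →L[ℂ] S1 H →L[ℂ] S1 H :=
  LinearMap.mkContinuous₂
    (LinearMap.mk₂ ℂ (fun (S : H →L[ℂ] H) (X : S1 H) => lm S X)
      (fun S T X => ext_pr fun Z => by
        rw [pr_add, pr_lm, pr_lm, pr_lm, mul_add, pr_add_right])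
      (fun c S X => ext_pr fun Z => by
        rw [pr_smul, pr_lm, pr_lm, mul_smul_comm, pr_smul_right])
      (fun S X Y => map_add _ _ _)
      (fun c S X => map_smul _ _ _)) 1
    (fun S X => by rw [one_mul]; exact hn S X)

/-- right multiplication as a bilinear map -/
noncomputable def BR (hn : ∀ (S : H →L[ℂ] H) (X : S1 H), ‖rm S X‖ ≤ ‖S‖ * ‖X‖) :
    (H →L[ℂ] H) →L[ℂ] S1 H →L[ℂ] S1 H :=
  LinearMap.mkContinuous₂
    (LinearMap.mk₂ ℂ (fun (S : H →L[ℂ] H) (X : S1 H) => rm S X)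
      (fun S T X => ext_pr fun Z => by
        rw [pr_add, pr_rm, pr_rm, pr_rm, add_mul, pr_add_right])
      (fun c S X => ext_pr fun Z => by
        rw [pr_smul, pr_rm, pr_rm, smul_mul_assoc, pr_smul_right])
      (fun S X Y => map_add _ _ _)
      (fun c S X => map_smul _ _ _)) 1
    (fun S X => by rw [one_mul]; exact hn S X)

theorem BL_apply (hn : ∀ (S : H →L[ℂ] H) (X : S1 H), ‖lm S X‖ ≤ ‖S‖ * ‖X‖)
    (S : H →L[ℂ] H) (X : S1 H) : BL hn S X = lm S X := rfl

theorem BR_apply (hn : ∀ (S : H →L[ℂ] H) (X : S1 H), ‖rm S X‖ ≤ ‖S‖ * ‖X‖)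
    (S : H →L[ℂ] H) (X : S1 H) : BR hn S X = rm S X := rfl

/-- the group `exp (i s a) X exp (- i s b)` -/
noncomputable def V (a b : H →L[ℂ] H) (X : S1 H) (s : ℂ) : S1 H :=
  sw (NormedSpace.exp (s • (I • a))) (NormedSpace.exp (s • (-(I • b)))) X

theorem hasDerivAt_V (hl : ∀ (S : H →L[ℂ] H) (X : S1 H), ‖lm S X‖ ≤ ‖S‖ * ‖X‖)
    (hr : ∀ (S : H →L[ℂ] H) (X : S1 H), ‖rm S X‖ ≤ ‖S‖ * ‖X‖)
    (a b : H →L[ℂ] H) (X : S1 H) (s : ℂ) :
    HasDerivAt (V a b X) (V a b (I • (lm a X - rm b X)) s) s := by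
  have hA : HasDerivAt (fun u : ℂ => NormedSpace.exp (u • (I • a)))
      (NormedSpace.exp (s • (I • a)) * (I • a)) s := hasDerivAt_exp_smul_const (I • a) s
  have hB : HasDerivAt (fun u : ℂ => NormedSpace.exp (u • (-(I • b))))
      (-(I • b) * NormedSpace.exp (s • (-(I • b)))) s := hasDerivAt_exp_smul_const' (-(I • b)) s
  have h1 := (BL hl).hasFDerivAt.comp_hasDerivAt s hA
  have h2 := (BR hr).hasFDerivAt.comp_hasDerivAt s hB
  have h3 := h2.clm_apply (hasDerivAt_const s X)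
  have h4 := h1.clm_apply h3
  refine h4.congr_deriv ?_
  refine ext_pr fun Z => ?_
  simp only [Function.comp_apply, BL_apply, BR_apply, V, sw, ContinuousLinearMap.comp_apply,
    map_zero, add_zero]
  rw [pr_add, pr_lm, pr_lm, pr_lm, pr_rm, pr_rm, pr_rm, pr_smul, pr_sub, pr_lm, pr_rm]
  rw [mul_sub, sub_eq_add_neg, ← pr_smul_right, ← pr_smul_right, ← pr_neg_right]
  congr 2
  · simp only [mul_assoc, mul_smul_comm]

theorem fn_eQ (N : H →L[ℂ] H) (hN : IsStarNormal N) (Q : ℂ → ℝ) (hQ : Continuous Q) (s : ℝ) :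
    fn (eQ s Q) N = NormedSpace.exp ((s : ℂ) • (I • fn (fun z => (Q z : ℂ)) N)) := by
  have hc : Continuous fun z => (Q z : ℂ) := Complex.continuous_ofReal.comp hQ
  have h1 : (s : ℂ) • (I • fn (fun z => (Q z : ℂ)) N) =
      cfc (fun z => (s : ℂ) • (I • (Q z : ℂ))) N := by
    unfold fn
    rw [cfc_smul (s : ℂ) (fun z => I • (Q z : ℂ)) N (by fun_prop), cfc_smul I (fun z => (Q z : ℂ)) N
      (by fun_prop)]
  rw [h1, ← CFC.complex_exp_eq_normedSpace_exp (cfc_predicate _ N), ← cfc_comp' Complex.exp _ N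
    (by fun_prop) (by fun_prop) hN]
  unfold fn eQ
  congr 1
  funext z
  congr 1
  simp only [smul_eq_mul]
  push_cast
  ring

theorem norm_eQ_le (N : H →L[ℂ] H) (Q : ℂ → ℝ) (s : ℝ) :
    ‖fn (eQ s Q) N‖ ≤ 1 := by
  unfold fn
  refine norm_cfc_le zero_le_one fun z _ => ?_
  unfold eQ
  rw [Complex.norm_exp]
  simp

end CosBlock

open CosBlock in
theorem blk_COS : Stmt_Alg.{v} → Stmt_Cos.{v} := by
  intro hAlg H _ _ _ P Q hQ θ X
  obtain ⟨-, -, -, -, hl, hr, -, -, -⟩ := hAlg H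
  set qA := fn (fun z => (Q z : ℂ)) P.A with hqA
  set qB := fn (fun z => (Q z : ℂ)) P.B with hqB
  set X1 : S1 H := cm P (fun z => (Q z : ℂ)) X with hX1
  set X2 : S1 H := cm P (fun z => (Q z : ℂ)) X1 with hX2
  have hV : ∀ (Y : S1 H) (s : ℝ), V qA qB Y s = sw (fn (eQ s Q) P.A) (fn (eQ (-s) Q) P.B) Y := by
    intro Y s
    rw [fn_eQ P.A P.hA Q hQ, fn_eQ P.B P.hB Q hQ, V]
    have h1 : ((s : ℂ)) • (-(I • qB)) = ((-s : ℝ) : ℂ) • (I • fn (fun z => (Q z : ℂ)) P.B) := by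
      rw [← hqB]
      simp
    rw [h1]
  have hVn : ∀ (Y : S1 H) (s : ℝ), ‖V qA qB Y s‖ ≤ ‖Y‖ := by
    intro Y s
    rw [hV]
    refine (hl _ _).trans ?_
    refine (mul_le_of_le_one_left (norm_nonneg _) (norm_eQ_le _ _ _)).trans ?_
    refine (hr _ _).trans ?_
    exact mul_le_of_le_one_left (norm_nonneg _) (norm_eQ_le _ _ _)
  have hVd : ∀ (Y : S1 H) (s : ℝ), HasDerivAt (fun u : ℝ => V qA qB Y u)
      (V qA qB (I • cm P (fun z => (Q z : ℂ)) Y) s) s := by
    intro Y s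
    have h1 := (hasDerivAt_V hl hr qA qB Y s).scomp s Complex.ofRealCLM.hasDerivAt
    have h2 : Complex.ofRealCLM 1 • V qA qB (I • (lm qA Y - rm qB Y)) s =
        V qA qB (I • cm P (fun z => (Q z : ℂ)) Y) s := by
      rw [Complex.ofRealCLM_apply, Complex.ofReal_one, one_smul]
      rfl
    rw [← h2]
    exact h1
  have hVd' : ∀ (Y : S1 H) (s : ℝ), HasDerivAt (fun u : ℝ => V qA qB Y (-u : ℝ))
      (-V qA qB (I • cm P (fun z => (Q z : ℂ)) Y) (-s : ℝ)) s := by
    intro Y s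
    have h1 := (hVd Y (-s)).scomp s (hasDerivAt_neg s)
    rw [neg_one_smul] at h1
    exact h1
  -- homogeneity
  have hVs : ∀ (c : ℂ) (Y : S1 H) (s : ℂ), V qA qB (c • Y) s = c • V qA qB Y s := by
    intro c Y s
    exact map_smul _ _ _
  have hcs : ∀ s : ℝ, cs P s Q X = (1 / 2 : ℂ) • (V qA qB X s + V qA qB X (-s : ℝ)) := by
    intro s
    rw [hV, hV, neg_neg]
    rfl
  -- first derivative
  set g1 : ℝ → S1 H := fun s => (1 / 2 : ℂ) • (V qA qB (I • X1) s - V qA qB (I • X1) (-s : ℝ))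
    with hg1
  have hd0 : ∀ s : ℝ, HasDerivAt (fun u : ℝ => X - cs P u Q X) (-g1 s) s := by
    intro s
    have h1 := ((hVd X s).add (hVd' X s)).const_smul (1 / 2 : ℂ)
    have h2 := h1.const_sub X
    refine (h2.congr_deriv ?_).congr_of_eventuallyEq (Filter.Eventually.of_forall fun u => ?_)
    · rw [← sub_eq_add_neg]
    · simp only [hcs, Pi.smul_apply, Pi.add_apply]
  have hd1 : ∀ s : ℝ, HasDerivAt (fun u : ℝ => -g1 u)
      ((1 / 2 : ℂ) • (V qA qB X2 s + V qA qB X2 (-s : ℝ))) s := by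
    intro s
    have h1 := (((hVd (I • X1) s).sub (hVd' (I • X1) s)).const_smul (1 / 2 : ℂ)).neg
    refine (h1.congr_deriv ?_).congr_of_eventuallyEq (Filter.Eventually.of_forall fun u => ?_)
    · have h2 : I • cm P (fun z => (Q z : ℂ)) (I • X1) = (-1 : ℂ) • X2 := by
        have : cm P (fun z => (Q z : ℂ)) (I • X1) = I • X2 := by
          rw [hX2]
          unfold cm
          rw [map_smul, map_smul, smul_sub]
        rw [this, smul_smul, I_mul_I]
      rw [h2, hVs, hVs]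
      module
    · simp only [hg1, Pi.smul_apply, Pi.sub_apply, Pi.neg_apply]
  have hbd : ∀ s : ℝ, ‖(1 / 2 : ℂ) • (V qA qB X2 s + V qA qB X2 (-s : ℝ))‖ ≤ ‖X2‖ := by
    intro s
    rw [norm_smul]
    have h1 := hVn X2 s
    have h2 := hVn X2 (-s)
    have h3 := norm_add_le (V qA qB X2 s) (V qA qB X2 (-s : ℝ))
    have h4 : ‖(1 / 2 : ℂ)‖ = 1 / 2 := by simp
    rw [h4]
    linarith
  have hg10 : g1 0 = 0 := by
    simp [hg1]
  have key : ∀ t : ℝ, 0 ≤ t → ‖X - cs P t Q X‖ ≤ t ^ 2 / 2 * ‖X2‖ := by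
    intro t ht
    have hb1 : ∀ s : ℝ, 0 ≤ s → ‖-g1 s‖ ≤ s * ‖X2‖ := by
      intro s hs
      have h := image_norm_le_of_norm_deriv_right_le_deriv_boundary (a := 0) (b := s)
        (f := fun u : ℝ => -g1 u)
        (f' := fun u => (1 / 2 : ℂ) • (V qA qB X2 u + V qA qB X2 (-u : ℝ)))
        (fun u _ => (hd1 u).continuousAt.continuousWithinAt)
        (fun u _ => (hd1 u).hasDerivWithinAt)
        (B := fun u => u * ‖X2‖) (B' := fun _ => ‖X2‖) (by simp [hg10])
        (fun u => by simpa using (hasDerivAt_id u).mul_const ‖X2‖)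
        (fun u _ => hbd u)
      exact h (Set.right_mem_Icc.2 hs)
    have h := image_norm_le_of_norm_deriv_right_le_deriv_boundary (a := 0) (b := t)
      (f := fun u : ℝ => X - cs P u Q X) (f' := fun u => -g1 u)
      (fun u _ => (hd0 u).continuousAt.continuousWithinAt)
      (fun u _ => (hd0 u).hasDerivWithinAt)
      (B := fun u => u ^ 2 / 2 * ‖X2‖) (B' := fun u => u * ‖X2‖) (by
        have : X - cs P 0 Q X = 0 := by
          rw [hcs]
          have h0 : V qA qB X ((0 : ℝ) : ℂ) = X := by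
            unfold V
            refine ext_pr fun Z => ?_
            simp [sw, pr_lm, pr_rm]
          have h0' : V qA qB X ((-0 : ℝ) : ℂ) = X := by
            rw [neg_zero]; exact h0
          rw [h0, h0']
          module
        simp [this])
      (fun u => by
        have := ((hasDerivAt_pow 2 u).div_const 2).mul_const ‖X2‖
        refine this.congr_deriv ?_
        simp)
      (fun u hu => hb1 u hu.1)
    exact h (Set.right_mem_Icc.2 ht)
  rcases le_total 0 θ with h | h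
  · exact key θ h
  · have h1 := key (-θ) (by linarith)
    have h2 : cs P (-θ) Q X = cs P θ Q X := by
      rw [hcs, hcs, neg_neg, add_comm]
    rw [h2, neg_sq] at h1
    exact h1

end Pool.Bes
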