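import Pool.Agent.Work.Bes.Interface

/-!
# Block DEF: the double commutators
-/

open MeasureTheory Complex Finset
open scoped ComplexOrder InnerProductSpace ComplexConjugate

set_option autoImplicit false

universe v

namespace Pool.Bes

namespace DEF

section

variable {H : Type v} [NormedAddCommGroup H] [InnerProductSpace ℂ H] [CompleteSpace H]

theorem pr_ext {X Y : S1 H} (h : ∀ Z : H →L[ℂ] H, pr X Z = pr Y Z) : X = Y :=
  S1.toDual_injective (ContinuousLinearMap.ext h)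

theorem pr_add (X Y : S1 H) (Z : H →L[ℂ] H) : pr (X + Y) Z = pr X Z + pr Y Z := by
  rw [pr, pr, pr, map_add]
  rfl

theorem lm_sum (s : Finset ℕ) (S : ℕ → H →L[ℂ] H) (X : S1 H) :
    lm (∑ j ∈ s, S j) X = ∑ j ∈ s, lm (S j) X := by
  refine pr_ext fun Z => ?_
  have h : ∀ t : Finset ℕ, pr (∑ j ∈ t, lm (S j) X) Z = ∑ j ∈ t, pr (lm (S j) X) Z := by
    intro t
    rw [pr, map_sum, ContinuousLinearMap.sum_apply]
    rfl
  rw [h, pr_lm, mul_sum, pr, map_sum]
  rfl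

theorem rm_sum (s : Finset ℕ) (S : ℕ → H →L[ℂ] H) (X : S1 H) :
    rm (∑ j ∈ s, S j) X = ∑ j ∈ s, rm (S j) X := by
  refine pr_ext fun Z => ?_
  have h : ∀ t : Finset ℕ, pr (∑ j ∈ t, rm (S j) X) Z = ∑ j ∈ t, pr (rm (S j) X) Z := by
    intro t
    rw [pr, map_sum, ContinuousLinearMap.sum_apply]
    rfl
  rw [h, pr_rm, sum_mul, pr, map_sum]
  rfl

/-- norm of a commutator -/
theorem norm_cm_le (hAlg : Stmt_Alg.{v}) (P : Pair H) (Q : ℂ → ℂ) (X : S1 H) {S : ℝ}
    (hS : 0 ≤ S) (h : ∀ z, ‖Q z‖ ≤ S) : ‖cm P Q X‖ ≤ 2 * S * ‖X‖ := by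
  obtain ⟨-, -, -, -, al5, al6, -⟩ := hAlg H
  have h1 : ∀ N : H →L[ℂ] H, ‖fn Q N‖ ≤ S := fun N => norm_cfc_le hS fun z _ => h z
  rw [cm]
  refine (norm_sub_le _ _).trans ?_
  have h2 := (al5 (fn Q P.A) X).trans (mul_le_mul_of_nonneg_right (h1 _) (norm_nonneg _))
  have h3 := (al6 (fn Q P.B) X).trans (mul_le_mul_of_nonneg_right (h1 _) (norm_nonneg _))
  linarith

/-- symmetry of the double commutator -/
theorem cm_symm (hAlg : Stmt_Alg.{v}) (hDu : Stmt_Du.{v}) (hFn : Stmt_Fn.{v}) (hW : Stmt_Wt)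
    (P : Pair H) {x y : ℂ → ℂ} (hx : Wt x) (hy : Wt y) :
    cm P (syn x) (Fd P y) = cm P (syn y) (Fd P x) := by
  obtain ⟨al1, al2, -, al4, -⟩ := hAlg H
  have du := (hDu H P).2.2.2.2.2.2.2.2.2.2.2.2.2
  have ox := (du x hx).2.1
  have oy := (du y hy).2.1
  have cx := (hFn H P.A P.hA x (hW.1 x hx)).1
  have cy := (hFn H P.A P.hA y (hW.1 y hy)).1
  have kA : Commute (fn (syn x) P.A) (fn (syn y) P.A) := cfc_commute_cfc _ _ _
  have kB : Commute (fn (syn x) P.B) (fn (syn y) P.B) := cfc_commute_cfc _ _ _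
  rw [← sub_eq_zero]
  refine al4 _ ?_
  rw [map_sub, cm, cm, map_sub, map_sub, al1, al2, al1, al2, ox, oy]
  have e1 := kA.eq
  have e2 := kB.eq
  simp only [mul_sub, sub_mul]
  rw [e1, e2]
  abel

end

/-- the pieces of the gradient -/
noncomputable def gp (f : LP) (e : ℂ) (j : ℕ) : ℂ → ℂ :=
  if j = 0 then dd e (f.F 0) else fun ξ => dd e (f.F j) ξ - dd e (f.F (j - 1)) ξ

theorem sum_gp (f : LP) (e : ℂ) (i : ℕ) (ξ : ℂ) :
    ∑ j ∈ range (i + 1), gp f e j ξ = dd e (f.F i) ξ := by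
  induction i with
  | zero => simp [gp]
  | succ i ih =>
    rw [sum_range_succ, ih, gp, if_neg (by omega)]
    simp only [Nat.add_sub_cancel]
    ring

theorem dd_gm (e : ℂ) (ρ : ℝ) (a : ℂ → ℂ) : dd e (gm ρ a) = gm ρ (dd e a) := by
  funext ξ
  simp only [dd, gm]
  ring

theorem dd_wt (hW : Stmt_Wt) {a : ℂ → ℂ} (ha : Wt a) (e : ℂ) : Wt (dd e a) := by
  obtain ⟨-, -, -, -, h5, h6, -⟩ := hW
  have h := h5 _ Complex.I (h6 a e ha)
  have h2 : (fun ξ => Complex.I * ((ip e ξ : ℂ) * a ξ)) = dd e a := by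
    funext ξ
    simp only [dd]
    ring
  rwa [h2] at h

theorem syn_dd (e : ℂ) (a : ℂ → ℂ) (z : ℂ) :
    syn (dd e a) z = Complex.I * syn (fun ξ => (ip e ξ : ℂ) * a ξ) z := by
  rw [syn, syn, ← integral_const_mul]
  refine integral_congr_ae (Filter.Eventually.of_forall fun ξ => ?_)
  simp only [dd]
  ring

theorem piece (hW : Stmt_Wt) (hD : Stmt_Der) (hO : Stmt_OLG.{v}) (hLPI : Stmt_LPI)
    {H : Type v} [NormedAddCommGroup H] [InnerProductSpace ℂ H] [CompleteSpace H] (P : Pair H)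
    (f : LP) (e : ℂ) (he : ‖e‖ = 1) (j : ℕ) :
    Wt (gp f e j) ∧ 0 ≤ f.m j ∧ (∀ z, ‖syn (gp f e j) z‖ ≤ 2 * f.m j) ∧
      ‖Fd P (gp f e j)‖ ≤ 72 * f.m j * P.d / f.w j := by
  have hgm : ∀ ρ : ℝ, Wt (gm ρ f.a) := fun ρ => hW.2.1 f.a ρ f.ha
  have hd : 0 ≤ P.d := by
    have h := P.hd 1
    rw [norm_one, one_mul] at h
    exact (norm_nonneg _).trans h
  have hw : 0 < f.w j := div_pos f.hl (by positivity)
  by_cases hj : j = 0
  · subst hj
    have h1 : gp f e 0 = gm (f.w 0) (dd e f.a) := by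
      rw [gp, if_pos rfl, LP.F, dd_gm]
    have hL0 : 0 ≤ f.L := by
      have h := f.hL 1 0
      rw [norm_one, one_mul] at h
      exact (norm_nonneg _).trans h
    have hLb : ∀ z, ‖syn (dd e f.a) z‖ ≤ f.L := fun z => by
      have := f.hL e z
      rwa [he, one_mul] at this
    rw [h1, f.m0]
    refine ⟨hW.2.1 _ _ (dd_wt hW f.ha e), hL0, fun z => ?_, ?_⟩
    · have := (hD (dd e f.a) (dd_wt hW f.ha e) f.L (f.w 0) hw hLb).1 z
      linarith
    · refine (hO H P (dd e f.a) (dd_wt hW f.ha e) f.L hLb (f.w 0) hw).trans ?_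
      have : 0 ≤ f.L * P.d := mul_nonneg hL0 hd
      rw [div_le_div_iff_of_pos_right hw]
      nlinarith
  · have hj1 : 1 ≤ j := by omega
    set u : ℂ → ℂ := fun ξ => gm (Real.sqrt 3 * (f.w j / 2)) f.a ξ -
      gm (Real.sqrt 15 * (f.w j / 2)) f.a ξ with hu
    have hWu : Wt u := hW.2.2.2.1 _ _ (hgm _) (hgm _)
    have hU : ∀ z, ‖syn u z‖ ≤ f.m j * f.w j := fun z => f.hm j hj1 z
    have hm0 : 0 ≤ f.m j := nonneg_of_mul_nonneg_left ((norm_nonneg _).trans (hU 0)) hw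
    have h1 : gp f e j = dd e (gm (f.w j / 2) u) := by
      rw [gp, if_neg hj, ← hLPI f j hj1]
      funext ξ
      simp only [dd]
      ring
    have hW1 : Wt (gp f e j) := by
      rw [h1]
      exact dd_wt hW (hW.2.1 _ _ hWu) e
    refine ⟨hW1, hm0, fun z => ?_, ?_⟩
    · rw [h1, syn_dd, norm_mul, Complex.norm_I, one_mul]
      have h2 := (hD u hWu (f.m j * f.w j) (f.w j / 2) (by positivity) hU).2.1 e z
      refine h2.trans (le_of_eq ?_)
      rw [he]
      field_simp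
    · set r := f.w j / (2 * Real.sqrt 2) with hr
      have hr0 : 0 < r := by positivity
      have h22 : Real.sqrt 2 ^ 2 = 2 := Real.sq_sqrt (by norm_num)
      have e1 : Real.sqrt (r ^ 2 + r ^ 2) = f.w j / 2 := by
        have : r ^ 2 + r ^ 2 = (f.w j / 2) ^ 2 := by
          rw [hr, div_pow, mul_pow, h22]
          ring
        rw [this]
        exact Real.sqrt_sq (by positivity)
      have h2 : gp f e j = gm r (gm r (dd e u)) := by
        rw [h1, dd_gm, hW.2.2.2.2.2.2.2.1, e1]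
      have hWv : Wt (gm r (dd e u)) := hW.2.1 _ _ (dd_wt hW hWu e)
      have hV : ∀ z, ‖syn (gm r (dd e u)) z‖ ≤ 2 * Real.sqrt 2 * f.m j := by
        intro z
        rw [← dd_gm, syn_dd, norm_mul, Complex.norm_I, one_mul]
        have h3 := (hD u hWu (f.m j * f.w j) r hr0 hU).2.1 e z
        refine h3.trans (le_of_eq ?_)
        rw [he, hr]
        field_simp
      rw [h2]
      refine (hO H P _ hWv _ hV r hr0).trans (le_of_eq ?_)
      rw [hr]
      field_simp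
      rw [h22]
      ring

end DEF

open DEF

theorem blk_DEF (hAlg : Stmt_Alg.{v}) (hFn : Stmt_Fn.{v}) (hDu : Stmt_Du.{v}) (hW : Stmt_Wt)
    (hD : Stmt_Der) (hO : Stmt_OLG.{v}) (hLPI : Stmt_LPI) : Stmt_Def.{v} := by
  refine ⟨288, by norm_num, ?_⟩
  intro H _ _ _ P f i e he
  have hd : 0 ≤ P.d := by
    have h := P.hd 1
    rw [norm_one, one_mul] at h
    exact (norm_nonneg _).trans h
  have hp := piece hW hD hO hLPI P f e he
  have hw : ∀ j, 0 < f.w j := fun j => div_pos f.hl (by positivity)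
  have du := (hDu H P).2.2.2.2.2.2.2.2.2.2.2.2.2
  have hsum : dd e (f.F i) = fun ξ => ∑ j ∈ range (i + 1), gp f e j ξ := by
    funext ξ
    exact (sum_gp f e i ξ).symm
  have hint : ∀ j, Integrable (gp f e j) := fun j => hW.1 _ (hp j).1
  have hFi : Wt (dd e (f.F i)) := dd_wt hW (hW.2.1 f.a _ f.ha) e
  have hfn : ∀ N : H →L[ℂ] H, IsStarNormal N → fn (syn (dd e (f.F i))) N =
      ∑ j ∈ range (i + 1), fn (syn (gp f e j)) N := by
    intro N hN
    rw [(hFn H N hN _ (hW.1 _ hFi)).2.1, hsum]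
    simp only [sum_smul]
    rw [integral_finset_sum _ fun j _ => (hFn H N hN _ (hint j)).2.2.2.2]
    exact sum_congr rfl fun j _ => ((hFn H N hN _ (hint j)).2.1).symm
  have hFd : Fd P (dd e (f.F i)) = ∑ k ∈ range (i + 1), Fd P (gp f e k) := by
    rw [Fd, hsum]
    simp only [sum_smul]
    rw [integral_finset_sum _ fun j _ => (du _ (hp j).1).1]
    rfl
  have hcm : cm P (syn (dd e (f.F i))) (Fd P (dd e (f.F i))) =
      ∑ j ∈ range (i + 1), ∑ k ∈ range (i + 1), cm P (syn (gp f e j)) (Fd P (gp f e k)) := by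
    rw [cm, hfn P.A P.hA, hfn P.B P.hB, lm_sum, rm_sum, ← sum_sub_distrib]
    refine sum_congr rfl fun j _ => ?_
    rw [hFd, map_sum, map_sum, ← sum_sub_distrib]
    rfl
  rw [hcm, mul_sum]
  refine norm_sum_le_of_le _ fun j _ => ?_
  rw [mul_sum]
  refine norm_sum_le_of_le _ fun k _ => ?_
  have main : ∀ j k : ℕ, ‖cm P (syn (gp f e j)) (Fd P (gp f e k))‖ ≤
      288 * P.d * (f.m j * f.m k / f.w k) := by
    intro j k
    obtain ⟨-, mj, sj, -⟩ := hp j
    obtain ⟨-, mk, -, nk⟩ := hp k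
    refine (norm_cm_le hAlg P _ _ (by positivity) sj).trans ?_
    calc 2 * (2 * f.m j) * ‖Fd P (gp f e k)‖ ≤ 2 * (2 * f.m j) * (72 * f.m k * P.d / f.w k) :=
          mul_le_mul_of_nonneg_left nk (by positivity)
      _ = 288 * P.d * (f.m j * f.m k / f.w k) := by ring
  rcases le_total j k with hjk | hjk
  · rw [min_eq_left hjk, cm_symm hAlg hDu hFn hW P (hp j).1 (hp k).1]
    refine (main k j).trans (le_of_eq ?_)
    ring
  · rw [min_eq_right hjk]
    exact main j k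

end Pool.Bes
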