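import Pool.Agent.Work.Bes.WT

/-!
# Block DER: sup norms of derivatives of `k_ρ * u` (helper31)
-/

open MeasureTheory Complex
open scoped ComplexOrder InnerProductSpace ComplexConjugate

set_option autoImplicit false

namespace Pool.Bes.DERB

open Pool.Bes.WTB

theorem ch_comm (ξ z : ℂ) : ch ξ z = ch z ξ := by
  rw [ch, ch, ip_comm]

theorem wt_dd {w : ℂ → ℂ} (hw : Wt w) (e : ℂ) : Wt (dd e w) := by
  have h := wt_const_mul (wt_ip_mul hw e) Complex.I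
  refine (congrArg Wt ?_).mp h
  funext ξ
  rw [dd, mul_assoc]

theorem integrable_mul_ch {w : ℂ → ℂ} (hw : Integrable w) (z : ℂ) :
    Integrable (fun ξ => w ξ * ch ξ z) := by
  refine hw.mono (hw.aestronglyMeasurable.mul (Continuous.aestronglyMeasurable ?_)) ?_
  · exact continuous_ch.comp (by fun_prop : Continuous fun ξ : ℂ => (ξ, z))
  · refine Filter.Eventually.of_forall fun ξ => ?_
    rw [norm_mul, norm_ch, mul_one]

theorem hasDerivAt_ch (n ξ e : ℂ) (s : ℝ) :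
    HasDerivAt (fun s : ℝ => ch n (ξ + s • e))
      (Complex.I * (ip e n : ℂ) * ch n (ξ + s • e)) s := by
  have h1 : ∀ s : ℝ, ch n (ξ + s • e) =
      Complex.exp (Complex.I * ((ip n ξ : ℝ) : ℂ) + (s : ℂ) * (Complex.I * (ip e n : ℂ))) := by
    intro s
    rw [ch]
    congr 1
    have : ip n (ξ + s • e) = ip n ξ + s * ip e n := by
      simp only [ip, add_re, add_im, Complex.smul_re, Complex.smul_im, smul_eq_mul]
      ring
    rw [this]
    push_cast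
    ring
  simp_rw [h1]
  have h2 : HasDerivAt (fun s : ℝ => Complex.I * ((ip n ξ : ℝ) : ℂ) +
      (s : ℂ) * (Complex.I * (ip e n : ℂ))) (1 * (Complex.I * (ip e n : ℂ))) s :=
    (Complex.ofRealCLM.hasDerivAt.mul_const _).const_add _
  have h3 := h2.cexp
  rw [one_mul] at h3
  rw [mul_comm (Complex.I * (ip e n : ℂ))]
  exact h3

theorem hasDerivAt_syn {w : ℂ → ℂ} (hw : Wt w) (e ξ : ℂ) (s : ℝ) :
    HasDerivAt (fun s : ℝ => syn w (ξ + s • e)) (syn (dd e w) (ξ + s • e)) s := by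
  have h := hasDerivAt_integral_of_dominated_loc_of_deriv_le (μ := (volume : Measure ℂ))
    (F := fun (s : ℝ) (n : ℂ) => w n * ch n (ξ + s • e))
    (F' := fun (s : ℝ) (n : ℂ) => w n * (Complex.I * (ip e n : ℂ) * ch n (ξ + s • e)))
    (x₀ := s) (s := Set.univ) (bound := fun n => ‖e‖ * (‖n‖ ^ 1 * ‖w n‖)) Filter.univ_mem
    ?_ ?_ ?_ ?_ ?_ ?_
  · have h2 := h.2
    have h3 : (∫ n : ℂ, w n * (Complex.I * (ip e n : ℂ) * ch n (ξ + s • e))) =
        syn (dd e w) (ξ + s • e) := by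
      rw [syn]
      refine integral_congr_ae (Filter.Eventually.of_forall fun n => ?_)
      simp only [dd]
      ring
    rw [h3] at h2
    exact h2
  · exact Filter.Eventually.of_forall fun s =>
      (integrable_mul_ch (wt_integrable hw) _).aestronglyMeasurable
  · exact integrable_mul_ch (wt_integrable hw) _
  · have h3 := (integrable_mul_ch (wt_integrable (wt_dd hw e)) (ξ + s • e)).aestronglyMeasurable
    refine h3.congr (Filter.Eventually.of_forall fun n => ?_)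
    simp only [dd]
    ring
  · refine Filter.Eventually.of_forall fun n s _ => ?_
    rw [norm_mul, norm_mul, norm_mul, norm_ch, Complex.norm_I, one_mul, mul_one,
      Complex.norm_real, Real.norm_eq_abs]
    have := mul_le_mul_of_nonneg_left (abs_ip_le e n) (norm_nonneg (w n))
    nlinarith
  · exact (hw.2 1).const_mul _
  · exact Filter.Eventually.of_forall fun n s _ => (hasDerivAt_ch n ξ e s).const_mul _

/-- the Gaussian density as a complex function -/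
noncomputable def g (ρ : ℝ) (n : ℂ) : ℂ := (gam ρ n : ℂ)

theorem norm_g (ρ : ℝ) (n : ℂ) : ‖g ρ n‖ = gam ρ n := by
  rw [g, Complex.norm_real, Real.norm_of_nonneg (gam_nonneg ρ n)]

theorem wt_g {ρ : ℝ} (hρ : 0 < ρ) : Wt (g ρ) := by
  refine ⟨(Complex.continuous_ofReal.comp (continuous_gam ρ)).aestronglyMeasurable, fun k => ?_⟩
  have hs : 0 < Real.sqrt 2 * ρ := by positivity
  refine Integrable.mono' ((integrable_gam hs).const_mul
    (2 * (1 + (4 * ρ ^ 2) ^ k * k.factorial))) ?_ ?_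
  · exact (continuous_norm.pow k).aestronglyMeasurable.mul
      (Complex.continuous_ofReal.comp (continuous_gam ρ)).aestronglyMeasurable.norm
  · refine Filter.Eventually.of_forall fun n => ?_
    rw [norm_g, Real.norm_of_nonneg (mul_nonneg (by positivity) (gam_nonneg ρ n))]
    set y : ℝ := ‖n‖ ^ 2 / (4 * ρ ^ 2) with hy
    have hy0 : 0 ≤ y := by positivity
    have h1 : gam ρ n = 1 / (2 * Real.pi * ρ ^ 2) * Real.exp (-(2 * y)) := by
      rw [gam, hy]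
      congr 3
      field_simp
      ring
    have h2 : gam (Real.sqrt 2 * ρ) n = 1 / (2 * Real.pi * ρ ^ 2) / 2 * Real.exp (-y) := by
      rw [gam, hy, mul_pow, Real.sq_sqrt (by norm_num : (0 : ℝ) ≤ 2)]
      congr 1
      · field_simp
      · congr 2
        field_simp
        ring
    have h3 : (‖n‖ ^ k) ^ 2 ≤ (4 * ρ ^ 2) ^ k * k.factorial * Real.exp y := by
      have h4 := Real.pow_div_factorial_le_exp y hy0 k
      have h5 : (0 : ℝ) < k.factorial := by exact_mod_cast k.factorial_pos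
      rw [div_le_iff₀ h5] at h4
      have h6 : (‖n‖ ^ k) ^ 2 = (4 * ρ ^ 2) ^ k * y ^ k := by
        rw [hy, ← mul_pow, mul_div_cancel₀ _ (by positivity), ← pow_mul, ← pow_mul, mul_comm]
      rw [h6, mul_assoc]
      refine mul_le_mul_of_nonneg_left ?_ (by positivity)
      linarith
    have h7 : ‖n‖ ^ k ≤ 1 + (‖n‖ ^ k) ^ 2 := by nlinarith [sq_nonneg (‖n‖ ^ k - 1)]
    have h8 : Real.exp (-(2 * y)) = Real.exp (-y) * Real.exp (-y) := by
      rw [← Real.exp_add]; congr 1; ring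
    have h9 : Real.exp (-y) ≤ 1 := by rw [Real.exp_le_one_iff]; linarith
    have h10 : Real.exp y * Real.exp (-y) = 1 := by
      rw [← Real.exp_add]; simp
    have h11 : 0 < Real.exp (-y) := Real.exp_pos _
    have h12 : 0 < 1 / (2 * Real.pi * ρ ^ 2) := by positivity
    have h13 : ‖n‖ ^ k * Real.exp (-(2 * y)) ≤
        (1 + (4 * ρ ^ 2) ^ k * k.factorial) * Real.exp (-y) := by
      calc ‖n‖ ^ k * Real.exp (-(2 * y)) ≤
          (1 + (4 * ρ ^ 2) ^ k * k.factorial * Real.exp y) * Real.exp (-(2 * y)) :=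
            mul_le_mul_of_nonneg_right (h7.trans (by linarith)) (Real.exp_pos _).le
        _ = Real.exp (-y) * Real.exp (-y) + (4 * ρ ^ 2) ^ k * k.factorial *
            (Real.exp y * Real.exp (-y)) * Real.exp (-y) := by rw [h8]; ring
        _ ≤ Real.exp (-y) * 1 + (4 * ρ ^ 2) ^ k * k.factorial * 1 * Real.exp (-y) := by
            rw [h10]
            have := mul_le_mul_of_nonneg_left h9 h11.le
            linarith
        _ = _ := by ring
    calc ‖n‖ ^ k * gam ρ n = 1 / (2 * Real.pi * ρ ^ 2) * (‖n‖ ^ k * Real.exp (-(2 * y))) := by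
          rw [h1]; ring
      _ ≤ 1 / (2 * Real.pi * ρ ^ 2) * ((1 + (4 * ρ ^ 2) ^ k * k.factorial) * Real.exp (-y)) :=
          mul_le_mul_of_nonneg_left h13 h12.le
      _ = _ := by rw [h2]; ring

/-- the Gaussian multiplier -/
noncomputable def E (ρ : ℝ) (ξ : ℂ) : ℂ := (Real.exp (-(ρ ^ 2 * ‖ξ‖ ^ 2 / 2)) : ℝ)

theorem syn_g {ρ : ℝ} (hρ : 0 < ρ) (ξ : ℂ) : syn (g ρ) ξ = E ρ ξ := by
  rw [E, ← integral_gam_ch hρ ξ, syn]
  refine integral_congr_ae (Filter.Eventually.of_forall fun n => ?_)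
  simp only [g, ch_comm n ξ]

theorem normSq_line (ξ e : ℂ) (s : ℝ) :
    ‖ξ + s • e‖ ^ 2 = ‖ξ‖ ^ 2 + 2 * s * ip e ξ + s ^ 2 * ‖e‖ ^ 2 := by
  simp only [← Complex.normSq_eq_norm_sq, Complex.normSq_apply, ip, add_re, add_im,
    Complex.smul_re, Complex.smul_im, smul_eq_mul]
  ring

theorem ip_line (e f ξ : ℂ) (s : ℝ) : ip e (ξ + s • f) = ip e ξ + s * ip e f := by
  simp only [ip, add_re, add_im, Complex.smul_re, Complex.smul_im, smul_eq_mul]
  ring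

theorem ip_self (e : ℂ) : ip e e = ‖e‖ ^ 2 := by
  rw [← Complex.normSq_eq_norm_sq, Complex.normSq_apply, ip]

theorem hasDerivAt_E (ρ : ℝ) (ξ e : ℂ) (s : ℝ) :
    HasDerivAt (fun s : ℝ => E ρ (ξ + s • e))
      (-((ρ ^ 2 * ip e (ξ + s • e) : ℝ) : ℂ) * E ρ (ξ + s • e)) s := by
  have h1 : HasDerivAt (fun s : ℝ => -(ρ ^ 2 * (‖ξ‖ ^ 2 + 2 * s * ip e ξ + s ^ 2 * ‖e‖ ^ 2) / 2))
      (-(ρ ^ 2 * ip e (ξ + s • e))) s := by
    have h2 : HasDerivAt (fun s : ℝ => ‖ξ‖ ^ 2 + 2 * s * ip e ξ + s ^ 2 * ‖e‖ ^ 2)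
        (2 * ip e ξ + 2 * s * ‖e‖ ^ 2) s := by
      have h3 : HasDerivAt (fun s : ℝ => 2 * s * ip e ξ) (2 * 1 * ip e ξ) s :=
        ((hasDerivAt_id s).const_mul 2).mul_const _
      have h4 : HasDerivAt (fun s : ℝ => s ^ 2 * ‖e‖ ^ 2) (((2 : ℕ) * s ^ (2 - 1) * 1) * ‖e‖ ^ 2) s :=
        ((hasDerivAt_id s).pow 2).mul_const _
      have h5 := (h3.const_add (‖ξ‖ ^ 2)).add h4
      refine h5.congr_deriv ?_
      push_cast
      ring
    have h6 := ((h2.const_mul (ρ ^ 2)).div_const 2).neg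
    refine h6.congr_deriv ?_
    rw [ip_line, ip_self]
    ring
  have h7 := (h1.exp).ofReal_comp
  have h8 : (fun s : ℝ => E ρ (ξ + s • e)) = fun s : ℝ =>
      ((Real.exp (-(ρ ^ 2 * (‖ξ‖ ^ 2 + 2 * s * ip e ξ + s ^ 2 * ‖e‖ ^ 2) / 2)) : ℝ) : ℂ) := by
    funext s
    rw [E, normSq_line]
  rw [h8]
  refine h7.congr_deriv ?_
  rw [E, normSq_line]
  push_cast
  ring

/-- product rule for `p E` with a real polynomial `p` of `ip e η` -/
theorem hasDerivAt_pE (ρ : ℝ) (η f : ℂ) (p : ℝ → ℝ) (p' : ℝ) (hp : HasDerivAt p p' 0) :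
    HasDerivAt (fun s : ℝ => (p s : ℂ) * E ρ (η + s • f))
      (((p' - p 0 * (ρ ^ 2 * ip f η) : ℝ) : ℂ) * E ρ η) 0 := by
  have h1 := hp.ofReal_comp.mul (hasDerivAt_E ρ η f 0)
  refine h1.congr_deriv ?_
  rw [zero_smul, add_zero]
  push_cast
  ring

theorem syn_dd_eq {w : ℂ → ℂ} (hw : Wt w) (f η : ℂ) {c : ℂ} (F : ℝ → ℂ)
    (hF : ∀ s : ℝ, syn w (η + s • f) = F s) (h : HasDerivAt F c 0) : syn (dd f w) η = c := by
  have h1 := hasDerivAt_syn hw f η 0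
  rw [zero_smul, add_zero] at h1
  have h2 : (fun s : ℝ => syn w (η + s • f)) = F := funext hF
  rw [h2] at h1
  exact h1.unique h

theorem syn_dd1 {ρ : ℝ} (hρ : 0 < ρ) (e η : ℂ) :
    syn (dd e (g ρ)) η = ((-(ρ ^ 2 * ip e η) : ℝ) : ℂ) * E ρ η := by
  refine syn_dd_eq (wt_g hρ) e η (fun s => ((1 : ℝ) : ℂ) * E ρ (η + s • e))
    (fun s => by rw [syn_g hρ]; simp) ?_
  refine (hasDerivAt_pE ρ η e (fun _ => 1) 0 (hasDerivAt_const _ _)).congr_deriv ?_
  congr 2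
  ring

theorem syn_dd2 {ρ : ℝ} (hρ : 0 < ρ) (e f η : ℂ) :
    syn (dd f (dd e (g ρ))) η =
      ((-(ρ ^ 2 * ip e f) + ρ ^ 4 * ip e η * ip f η : ℝ) : ℂ) * E ρ η := by
  refine syn_dd_eq (wt_dd (wt_g hρ) e) f η
    (fun s => ((-(ρ ^ 2 * (ip e η + s * ip e f)) : ℝ) : ℂ) * E ρ (η + s • f))
    (fun s => by rw [syn_dd1 hρ, ip_line]) ?_
  have hp : HasDerivAt (fun s : ℝ => -(ρ ^ 2 * (ip e η + s * ip e f))) (-(ρ ^ 2 * (1 * ip e f))) 0 :=
    ((((hasDerivAt_id (0 : ℝ)).mul_const _).const_add _).const_mul _).neg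
  refine (hasDerivAt_pE ρ η f _ _ hp).congr_deriv ?_
  congr 2
  ring

theorem syn_dd3 {ρ : ℝ} (hρ : 0 < ρ) (e η : ℂ) (he : ‖e‖ = 1) :
    syn (dd e (dd e (dd e (g ρ)))) η =
      ((3 * ρ ^ 4 * ip e η - ρ ^ 6 * ip e η ^ 3 : ℝ) : ℂ) * E ρ η := by
  have hee : ip e e = 1 := by rw [ip_self, he]; norm_num
  refine syn_dd_eq (wt_dd (wt_dd (wt_g hρ) e) e) e η
    (fun s => ((-(ρ ^ 2 * 1) + ρ ^ 4 * (ip e η + s * 1) * (ip e η + s * 1) : ℝ) : ℂ) *
      E ρ (η + s • e))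
    (fun s => by rw [syn_dd2 hρ, ip_line, hee]) ?_
  have hq : HasDerivAt (fun s : ℝ => ip e η + s * 1) (1 * 1) 0 :=
    ((hasDerivAt_id (0 : ℝ)).mul_const _).const_add _
  have hp := ((hq.const_mul (ρ ^ 4)).mul hq).const_add (-(ρ ^ 2 * 1))
  refine (hasDerivAt_pE ρ η e _ _ hp).congr_deriv ?_
  congr 2
  simp only [Pi.mul_apply]
  ring

theorem syn_dd4 {ρ : ℝ} (hρ : 0 < ρ) (e : ℂ) (he : ‖e‖ = 1) :
    syn (dd e (dd e (dd e (dd e (g ρ))))) 0 = ((3 * ρ ^ 4 : ℝ) : ℂ) := by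
  have hee : ip e e = 1 := by rw [ip_self, he]; norm_num
  have h0 : ip e 0 = 0 := by simp [ip]
  refine syn_dd_eq (wt_dd (wt_dd (wt_dd (wt_g hρ) e) e) e) e 0
    (fun s => ((3 * ρ ^ 4 * (0 + s * 1) - ρ ^ 6 * (0 + s * 1) ^ 3 : ℝ) : ℂ) *
      E ρ (0 + s • e))
    (fun s => by rw [syn_dd3 hρ e _ he, ip_line, hee, h0]) ?_
  have hq : HasDerivAt (fun s : ℝ => (0 : ℝ) + s * 1) (1 * 1) 0 :=
    ((hasDerivAt_id (0 : ℝ)).mul_const _).const_add _
  have hp := (hq.const_mul (3 * ρ ^ 4)).sub ((hq.pow 3).const_mul (ρ ^ 6))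
  refine (hasDerivAt_pE ρ 0 e _ _ hp).congr_deriv ?_
  rw [h0]
  have hE : E ρ 0 = 1 := by simp [E]
  rw [hE, mul_one]
  congr 1
  push_cast
  ring

/-! ### Moments -/

theorem dd_g (ρ : ℝ) (e n : ℂ) : dd e (g ρ) n = Complex.I * ((ip e n * gam ρ n : ℝ) : ℂ) := by
  rw [dd, g]
  push_cast
  ring

theorem dd_dd_g (ρ : ℝ) (e f n : ℂ) :
    dd f (dd e (g ρ)) n = -((ip e n * ip f n * gam ρ n : ℝ) : ℂ) := by
  rw [dd, dd, g]
  push_cast
  linear_combination ((ip f n : ℝ) : ℂ) * ((ip e n : ℝ) : ℂ) * ((gam ρ n : ℝ) : ℂ) * Complex.I_sq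

theorem dd4_g (ρ : ℝ) (e n : ℂ) :
    dd e (dd e (dd e (dd e (g ρ)))) n = ((ip e n ^ 4 * gam ρ n : ℝ) : ℂ) := by
  have h4 : Complex.I ^ 4 = 1 := Complex.I_pow_four
  rw [dd, dd, dd, dd, g]
  push_cast
  linear_combination (((ip e n : ℝ) : ℂ) ^ 4 * ((gam ρ n : ℝ) : ℂ)) * h4

theorem syn_zero (w : ℂ → ℂ) : syn w 0 = ∫ n, w n := by
  rw [syn]
  refine integral_congr_ae (Filter.Eventually.of_forall fun n => ?_)
  simp [ch, ip]

theorem integrable_ip_sq {ρ : ℝ} (hρ : 0 < ρ) (e : ℂ) :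
    Integrable (fun n => ip e n ^ 2 * gam ρ n) := by
  have h := (wt_integrable (wt_dd (wt_dd (wt_g hρ) e) e)).norm
  refine h.congr (Filter.Eventually.of_forall fun n => ?_)
  simp only [dd_dd_g, norm_neg, Complex.norm_real]
  rw [Real.norm_of_nonneg (mul_nonneg (mul_self_nonneg _) (gam_nonneg ρ n))]
  ring

theorem integrable_ip_four {ρ : ℝ} (hρ : 0 < ρ) (e : ℂ) :
    Integrable (fun n => ip e n ^ 4 * gam ρ n) := by
  have h := (wt_integrable (wt_dd (wt_dd (wt_dd (wt_dd (wt_g hρ) e) e) e) e)).norm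
  refine h.congr (Filter.Eventually.of_forall fun n => ?_)
  simp only [dd4_g, Complex.norm_real]
  rw [Real.norm_of_nonneg (mul_nonneg (by positivity) (gam_nonneg ρ n))]

theorem integral_ip_sq {ρ : ℝ} (hρ : 0 < ρ) (e : ℂ) :
    ∫ n, ip e n ^ 2 * gam ρ n = ‖e‖ ^ 2 * ρ ^ 2 := by
  have h := syn_dd2 hρ e e 0
  have h0 : ip e 0 = 0 := by simp [ip]
  have hE : E ρ 0 = 1 := by simp [E]
  rw [syn_zero, h0, hE, ip_self, mul_one] at h
  simp_rw [dd_dd_g] at h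
  rw [integral_neg, integral_complex_ofReal, ← Complex.ofReal_neg] at h
  have h1 := Complex.ofReal_injective h
  have h2 : (∫ n, ip e n ^ 2 * gam ρ n) = ∫ n, ip e n * ip e n * gam ρ n :=
    integral_congr_ae (Filter.Eventually.of_forall fun n => by simp only; ring)
  rw [h2]
  linarith

theorem integral_ip_four {ρ : ℝ} (hρ : 0 < ρ) (e : ℂ) (he : ‖e‖ = 1) :
    ∫ n, ip e n ^ 4 * gam ρ n = 3 * ρ ^ 4 := by
  have h := syn_dd4 hρ e he
  rw [syn_zero] at h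
  simp_rw [dd4_g] at h
  rw [integral_complex_ofReal] at h
  exact Complex.ofReal_injective h

/-! ### The convolution estimate -/

theorem norm_syn_le_of_conv {a q : ℂ → ℂ} (ha : Integrable a) (hq : Integrable q) {U : ℝ}
    (hU : ∀ z, ‖syn a z‖ ≤ U) (Q : ℂ → ℂ) (hQ : ∀ ξ, syn q ξ = Q ξ) (z : ℂ) :
    ‖syn (fun ξ => Q ξ * a ξ) z‖ ≤ U * ∫ n, ‖q n‖ := by
  have hint : Integrable (fun p : ℂ × ℂ => q p.1 * (a p.2 * ch p.2 (z + p.1)))
      (volume.prod volume) := by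
    have h1 : Integrable (fun p : ℂ × ℂ => q p.1 * a p.2) (volume.prod volume) := hq.mul_prod ha
    have h2 : Continuous fun p : ℂ × ℂ => ch p.2 (z + p.1) :=
      continuous_ch.comp (by fun_prop : Continuous fun p : ℂ × ℂ => (p.2, z + p.1))
    have h3 : Integrable (fun p : ℂ × ℂ => (q p.1 * a p.2) * ch p.2 (z + p.1))
        (volume.prod volume) := by
      refine h1.mono (h1.aestronglyMeasurable.mul h2.aestronglyMeasurable) ?_
      refine Filter.Eventually.of_forall fun p => ?_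
      rw [norm_mul, norm_ch, mul_one]
    refine h3.congr (Filter.Eventually.of_forall fun p => ?_)
    simp only
    ring
  have h1 : syn (fun ξ => Q ξ * a ξ) z = ∫ n : ℂ, q n * syn a (z + n) := by
    have h1 : ∀ n : ℂ, q n * syn a (z + n) = ∫ ξ : ℂ, q n * (a ξ * ch ξ (z + n)) := by
      intro n
      rw [syn, integral_const_mul]
    simp_rw [h1]
    rw [integral_integral_swap hint, syn]
    refine integral_congr_ae (Filter.Eventually.of_forall fun ξ => ?_)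
    have h2 : ∀ n : ℂ, q n * (a ξ * ch ξ (z + n)) = (a ξ * ch ξ z) * (q n * ch n ξ) := by
      intro n
      rw [ch_add_right, ch_comm n ξ]
      ring
    have h3 : (∫ n : ℂ, q n * ch n ξ) = Q ξ := hQ ξ
    simp only [h2]
    rw [integral_const_mul, h3]
    ring
  rw [h1, ← integral_const_mul]
  refine norm_integral_le_of_norm_le (hq.norm.const_mul U) ?_
  refine Filter.Eventually.of_forall fun n => ?_
  rw [norm_mul, mul_comm U]
  exact mul_le_mul_of_nonneg_left (hU _) (norm_nonneg _)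

theorem gm_eq (ρ : ℝ) (a : ℂ → ℂ) (ξ : ℂ) : gm ρ a ξ = E ρ ξ * a ξ := rfl

theorem U_nonneg {a : ℂ → ℂ} {U : ℝ} (hU : ∀ z, ‖syn a z‖ ≤ U) : 0 ≤ U :=
  (norm_nonneg _).trans (hU 0)

theorem der0 {a : ℂ → ℂ} (ha : Wt a) {U ρ : ℝ} (hρ : 0 < ρ) (hU : ∀ z, ‖syn a z‖ ≤ U) (z : ℂ) :
    ‖syn (gm ρ a) z‖ ≤ U := by
  have h := norm_syn_le_of_conv (wt_integrable ha) (wt_integrable (wt_g hρ)) hU _ (syn_g hρ) z
  simp_rw [norm_g] at h
  rw [integral_gam hρ, mul_one] at h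
  exact h

theorem der1 {a : ℂ → ℂ} (ha : Wt a) {U ρ : ℝ} (hρ : 0 < ρ) (hU : ∀ z, ‖syn a z‖ ≤ U) (e z : ℂ) :
    ‖syn (fun ξ => (ip e ξ : ℂ) * gm ρ a ξ) z‖ ≤ ‖e‖ * U / ρ := by
  have hq : Integrable (fun n => -((ρ ^ 2 : ℝ) : ℂ)⁻¹ * dd e (g ρ) n) :=
    (wt_integrable (wt_dd (wt_g hρ) e)).const_mul _
  have hρ2 : ((ρ ^ 2 : ℝ) : ℂ) ≠ 0 := by
    have : ρ ^ 2 ≠ 0 := by positivity
    exact_mod_cast this
  have h := norm_syn_le_of_conv (wt_integrable ha) hq hU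
    (fun ξ => (ip e ξ : ℂ) * E ρ ξ) (fun ξ => by
      have h1 : syn (fun n => -((ρ ^ 2 : ℝ) : ℂ)⁻¹ * dd e (g ρ) n) ξ =
          -((ρ ^ 2 : ℝ) : ℂ)⁻¹ * syn (dd e (g ρ)) ξ := by
        rw [syn, syn, ← integral_const_mul]
        refine integral_congr_ae (Filter.Eventually.of_forall fun n => ?_)
        simp only
        ring
      rw [h1, syn_dd1 hρ]
      have h2 : ((-(ρ ^ 2 * ip e ξ) : ℝ) : ℂ) = -(((ρ ^ 2 : ℝ) : ℂ) * (ip e ξ : ℂ)) := by
        push_cast; ring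
      rw [h2]
      field_simp) z
  have h3 : (fun ξ => (ip e ξ : ℂ) * E ρ ξ * a ξ) = fun ξ => (ip e ξ : ℂ) * gm ρ a ξ := by
    funext ξ
    rw [gm_eq]; ring
  rw [h3] at h
  refine h.trans ?_
  have h4 : (∫ n, ‖-((ρ ^ 2 : ℝ) : ℂ)⁻¹ * dd e (g ρ) n‖) ≤ ‖e‖ / ρ := by
    rcases (norm_nonneg e).eq_or_lt with he | he
    · have he0 : e = 0 := norm_eq_zero.1 he.symm
      subst he0
      simp [dd, ip]
    · have h5 : ∀ n, ‖-((ρ ^ 2 : ℝ) : ℂ)⁻¹ * dd e (g ρ) n‖ ≤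
          (ρ ^ 2)⁻¹ * (ip e n ^ 2 * gam ρ n / (‖e‖ * ρ) + ‖e‖ * ρ * gam ρ n) / 2 := by
        intro n
        rw [norm_mul, norm_neg, norm_inv, Complex.norm_real,
          Real.norm_of_nonneg (by positivity : (0 : ℝ) ≤ ρ ^ 2), dd_g, norm_mul, Complex.norm_I,
          one_mul, Complex.norm_real, Real.norm_eq_abs, abs_mul, abs_of_nonneg (gam_nonneg ρ n)]
        have hc : 0 < ‖e‖ * ρ := by positivity
        have h6 : |ip e n| ≤ (ip e n ^ 2 / (‖e‖ * ρ) + ‖e‖ * ρ) / 2 := by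
          rw [div_add' _ _ _ hc.ne', div_div, le_div_iff₀ (by positivity)]
          nlinarith [sq_nonneg (|ip e n| - ‖e‖ * ρ), sq_abs (ip e n)]
        have h7 := mul_le_mul_of_nonneg_right h6 (gam_nonneg ρ n)
        have h8 := mul_le_mul_of_nonneg_left h7 (by positivity : (0 : ℝ) ≤ (ρ ^ 2)⁻¹)
        refine h8.trans (le_of_eq ?_)
        ring
      refine (integral_mono_of_nonneg (Filter.Eventually.of_forall fun n => norm_nonneg _)
        ?_ (Filter.Eventually.of_forall h5)).trans (le_of_eq ?_)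
      · exact ((((integrable_ip_sq hρ e).div_const _).add
          ((integrable_gam hρ).const_mul _)).const_mul _).div_const _
      · rw [integral_div, integral_const_mul, integral_add ((integrable_ip_sq hρ e).div_const _)
          ((integrable_gam hρ).const_mul _), integral_div, integral_ip_sq hρ, integral_const_mul,
          integral_gam hρ]
        field_simp
        ring
  have h5 := mul_le_mul_of_nonneg_left h4 (U_nonneg hU)
  refine h5.trans (le_of_eq ?_)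
  ring

theorem der2 {a : ℂ → ℂ} (ha : Wt a) {U ρ : ℝ} (hρ : 0 < ρ) (hU : ∀ z, ‖syn a z‖ ≤ U) (e z : ℂ)
    (he : ‖e‖ = 1) :
    ‖syn (fun ξ => (ip e ξ : ℂ) ^ 2 * gm ρ a ξ) z‖ ≤ 3 / 2 * U / ρ ^ 2 := by
  have hρ2 : ((ρ ^ 2 : ℝ) : ℂ) ≠ 0 := by
    have : ρ ^ 2 ≠ 0 := by positivity
    exact_mod_cast this
  have hq1 := (wt_integrable (wt_dd (wt_dd (wt_g hρ) e) e)).const_mul (((ρ ^ 2 : ℝ) : ℂ) ^ 2)⁻¹
  have hq2 := (wt_integrable (wt_g hρ)).const_mul (((ρ ^ 2 : ℝ) : ℂ))⁻¹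
  have hee : ip e e = 1 := by rw [ip_self, he]; norm_num
  have h := norm_syn_le_of_conv (wt_integrable ha) (hq1.add hq2) hU
    (fun ξ => (ip e ξ : ℂ) ^ 2 * E ρ ξ) (fun ξ => by
      have h1 : syn ((fun n => (((ρ ^ 2 : ℝ) : ℂ) ^ 2)⁻¹ * dd e (dd e (g ρ)) n) +
          fun n => (((ρ ^ 2 : ℝ) : ℂ))⁻¹ * g ρ n) ξ =
          (((ρ ^ 2 : ℝ) : ℂ) ^ 2)⁻¹ * syn (dd e (dd e (g ρ))) ξ +
            (((ρ ^ 2 : ℝ) : ℂ))⁻¹ * syn (g ρ) ξ := by
        rw [syn, syn, syn, ← integral_const_mul, ← integral_const_mul, ← integral_add]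
        · refine integral_congr_ae (Filter.Eventually.of_forall fun n => ?_)
          simp only [Pi.add_apply]
          ring
        · exact (integrable_mul_ch (wt_integrable (wt_dd (wt_dd (wt_g hρ) e) e)) ξ).const_mul _
        · exact (integrable_mul_ch (wt_integrable (wt_g hρ)) ξ).const_mul _
      rw [h1, syn_dd2 hρ, syn_g hρ, hee]
      have h2 : ((-(ρ ^ 2 * 1) + ρ ^ 4 * ip e ξ * ip e ξ : ℝ) : ℂ) =
          -((ρ ^ 2 : ℝ) : ℂ) + ((ρ ^ 2 : ℝ) : ℂ) ^ 2 * (ip e ξ : ℂ) ^ 2 := by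
        push_cast; ring
      rw [h2]
      field_simp
      ring) z
  have h3 : (fun ξ => (ip e ξ : ℂ) ^ 2 * E ρ ξ * a ξ) = fun ξ => (ip e ξ : ℂ) ^ 2 * gm ρ a ξ := by
    funext ξ
    rw [gm_eq]; ring
  rw [h3] at h
  refine h.trans ?_
  have h4 : (∫ n, ‖((fun n => (((ρ ^ 2 : ℝ) : ℂ) ^ 2)⁻¹ * dd e (dd e (g ρ)) n) +
      fun n => (((ρ ^ 2 : ℝ) : ℂ))⁻¹ * g ρ n) n‖) ≤ 3 / 2 / ρ ^ 2 := by
    have h5 : ∀ n, ‖((fun n => (((ρ ^ 2 : ℝ) : ℂ) ^ 2)⁻¹ * dd e (dd e (g ρ)) n) +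
        fun n => (((ρ ^ 2 : ℝ) : ℂ))⁻¹ * g ρ n) n‖ ≤
        (ρ ^ 2)⁻¹ * ((13 / 12) * gam ρ n - (2 / 3) / ρ ^ 2 * (ip e n ^ 2 * gam ρ n) +
          (1 / 3) / ρ ^ 4 * (ip e n ^ 4 * gam ρ n)) := by
      intro n
      have h6 : ((fun n => (((ρ ^ 2 : ℝ) : ℂ) ^ 2)⁻¹ * dd e (dd e (g ρ)) n) +
          fun n => (((ρ ^ 2 : ℝ) : ℂ))⁻¹ * g ρ n) n =
          (((ρ ^ 2)⁻¹ * ((1 - ip e n ^ 2 / ρ ^ 2) * gam ρ n) : ℝ) : ℂ) := by
        simp only [Pi.add_apply]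
        rw [dd_dd_g, g]
        have : (ρ : ℂ) ≠ 0 := by exact_mod_cast hρ.ne'
        push_cast
        field_simp
        ring
      rw [h6, Complex.norm_real, Real.norm_eq_abs, abs_mul, abs_mul,
        abs_of_nonneg (gam_nonneg ρ n), abs_of_pos (by positivity : (0 : ℝ) < (ρ ^ 2)⁻¹)]
      refine mul_le_mul_of_nonneg_left ?_ (by positivity)
      set x : ℝ := ip e n ^ 2 / ρ ^ 2 with hx
      have h7 : |1 - x| ≤ 13 / 12 - 2 / 3 * x + 1 / 3 * x ^ 2 := by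
        rw [abs_le]
        constructor <;> nlinarith [sq_nonneg (x - 5 / 2), sq_nonneg (x + 1 / 2)]
      have h8 := mul_le_mul_of_nonneg_right h7 (gam_nonneg ρ n)
      refine h8.trans (le_of_eq ?_)
      rw [hx]
      field_simp
    refine (integral_mono_of_nonneg (Filter.Eventually.of_forall fun n => norm_nonneg _)
      ?_ (Filter.Eventually.of_forall h5)).trans ?_
    · exact (((((integrable_gam hρ).const_mul _).sub ((integrable_ip_sq hρ e).const_mul _)).add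
        ((integrable_ip_four hρ e).const_mul _)).const_mul _)
    · have i1 : Integrable (fun n => 13 / 12 * gam ρ n - 2 / 3 / ρ ^ 2 * (ip e n ^ 2 * gam ρ n)) :=
        ((integrable_gam hρ).const_mul _).sub ((integrable_ip_sq hρ e).const_mul _)
      rw [integral_const_mul, integral_add i1 ((integrable_ip_four hρ e).const_mul _),
        integral_sub ((integrable_gam hρ).const_mul _) ((integrable_ip_sq hρ e).const_mul _),
        integral_const_mul, integral_const_mul, integral_const_mul, integral_gam hρ,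
        integral_ip_sq hρ, integral_ip_four hρ e he, he]
      rw [inv_mul_eq_div]
      refine div_le_div_of_nonneg_right ?_ (by positivity)
      have : (13 / 12 : ℝ) * 1 - 2 / 3 / ρ ^ 2 * (1 ^ 2 * ρ ^ 2) + 1 / 3 / ρ ^ 4 * (3 * ρ ^ 4) =
          17 / 12 := by
        field_simp
        norm_num
      rw [this]
      norm_num
  have h5 := mul_le_mul_of_nonneg_left h4 (U_nonneg hU)
  refine h5.trans (le_of_eq ?_)
  ring

theorem der11 {a : ℂ → ℂ} (ha : Wt a) {U ρ : ℝ} (hρ : 0 < ρ) (hU : ∀ z, ‖syn a z‖ ≤ U) (z : ℂ) :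
    ‖syn (fun ξ => (ip 1 ξ : ℂ) * (ip Complex.I ξ : ℂ) * gm ρ a ξ) z‖ ≤ 3 / 2 * U / ρ ^ 2 := by
  have hρ2 : ((ρ ^ 2 : ℝ) : ℂ) ≠ 0 := by
    have : ρ ^ 2 ≠ 0 := by positivity
    exact_mod_cast this
  have hq := (wt_integrable (wt_dd (wt_dd (wt_g hρ) 1) Complex.I)).const_mul
    (((ρ ^ 2 : ℝ) : ℂ) ^ 2)⁻¹
  have hee : ip 1 Complex.I = 0 := by simp [ip]
  have h := norm_syn_le_of_conv (wt_integrable ha) hq hU
    (fun ξ => (ip 1 ξ : ℂ) * (ip Complex.I ξ : ℂ) * E ρ ξ) (fun ξ => by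
      have h1 : syn (fun n => (((ρ ^ 2 : ℝ) : ℂ) ^ 2)⁻¹ * dd Complex.I (dd 1 (g ρ)) n) ξ =
          (((ρ ^ 2 : ℝ) : ℂ) ^ 2)⁻¹ * syn (dd Complex.I (dd 1 (g ρ))) ξ := by
        rw [syn, syn, ← integral_const_mul]
        refine integral_congr_ae (Filter.Eventually.of_forall fun n => ?_)
        simp only
        ring
      rw [h1, syn_dd2 hρ, hee]
      have h2 : ((-(ρ ^ 2 * 0) + ρ ^ 4 * ip 1 ξ * ip Complex.I ξ : ℝ) : ℂ) =
          ((ρ ^ 2 : ℝ) : ℂ) ^ 2 * ((ip 1 ξ : ℂ) * (ip Complex.I ξ : ℂ)) := by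
        push_cast; ring
      rw [h2]
      field_simp) z
  have h3 : (fun ξ => (ip 1 ξ : ℂ) * (ip Complex.I ξ : ℂ) * E ρ ξ * a ξ) =
      fun ξ => (ip 1 ξ : ℂ) * (ip Complex.I ξ : ℂ) * gm ρ a ξ := by
    funext ξ
    rw [gm_eq]; ring
  rw [h3] at h
  refine h.trans ?_
  have h4 : (∫ n, ‖(((ρ ^ 2 : ℝ) : ℂ) ^ 2)⁻¹ * dd Complex.I (dd 1 (g ρ)) n‖) ≤ 3 / 2 / ρ ^ 2 := by
    have h5 : ∀ n, ‖(((ρ ^ 2 : ℝ) : ℂ) ^ 2)⁻¹ * dd Complex.I (dd 1 (g ρ)) n‖ ≤
        ((ρ ^ 2) ^ 2)⁻¹ * (ip 1 n ^ 2 * gam ρ n + ip Complex.I n ^ 2 * gam ρ n) / 2 := by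
      intro n
      rw [norm_mul, norm_inv, norm_pow, Complex.norm_real,
        Real.norm_of_nonneg (by positivity : (0 : ℝ) ≤ ρ ^ 2), dd_dd_g, norm_neg,
        Complex.norm_real, Real.norm_eq_abs, abs_mul, abs_of_nonneg (gam_nonneg ρ n), mul_div_assoc]
      refine mul_le_mul_of_nonneg_left ?_ (by positivity)
      have h6 : |ip 1 n * ip Complex.I n| ≤ (ip 1 n ^ 2 + ip Complex.I n ^ 2) / 2 := by
        rw [abs_le]
        constructor <;> nlinarith [sq_nonneg (ip 1 n - ip Complex.I n),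
          sq_nonneg (ip 1 n + ip Complex.I n)]
      have h7 := mul_le_mul_of_nonneg_right h6 (gam_nonneg ρ n)
      refine h7.trans (le_of_eq ?_)
      ring
    refine (integral_mono_of_nonneg (Filter.Eventually.of_forall fun n => norm_nonneg _)
      ?_ (Filter.Eventually.of_forall h5)).trans ?_
    · exact (((integrable_ip_sq hρ 1).add (integrable_ip_sq hρ Complex.I)).const_mul _).div_const _
    · rw [integral_div, integral_const_mul, integral_add (integrable_ip_sq hρ 1)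
        (integrable_ip_sq hρ Complex.I), integral_ip_sq hρ, integral_ip_sq hρ, norm_one,
        Complex.norm_I]
      have h6 : ((ρ ^ 2) ^ 2)⁻¹ * (1 ^ 2 * ρ ^ 2 + 1 ^ 2 * ρ ^ 2) / 2 = 1 / ρ ^ 2 := by
        field_simp
        norm_num
      rw [h6]
      exact div_le_div_of_nonneg_right (by norm_num) (by positivity)
  have h5 := mul_le_mul_of_nonneg_left h4 (U_nonneg hU)
  refine h5.trans (le_of_eq ?_)
  ring

end Pool.Bes.DERB

namespace Pool.Bes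

open Pool.Bes.WTB Pool.Bes.DERB

theorem blk_DER : Stmt_Wt → Stmt_Der := by
  intro _ a ha U ρ hρ hU
  have h1 : ∀ ξ : ℂ, ip 1 ξ = ξ.re := fun ξ => by simp [ip]
  have h2 : ∀ ξ : ℂ, ip Complex.I ξ = ξ.im := fun ξ => by simp [ip]
  refine ⟨der0 ha hρ hU, der1 ha hρ hU, fun z => ?_, fun z => ?_, fun z => ?_⟩
  · have h := der2 ha hρ hU 1 z (by simp)
    simp_rw [h1] at h
    exact h
  · have h := der2 ha hρ hU Complex.I z (by simp)
    simp_rw [h2] at h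
    exact h
  · have h := der11 ha hρ hU z
    simp_rw [h1, h2] at h
    exact h

end Pool.Bes
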