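import Pool.Agent.Work.Bes.AV
import Mathlib.Analysis.Calculus.LineDeriv.IntegrationByParts

/-!
# Block DU: Duhamel
-/

open MeasureTheory Complex
open scoped ComplexOrder InnerProductSpace ComplexConjugate

set_option autoImplicit false
set_option linter.unusedSectionVars false

universe v

namespace Pool.Bes

namespace DUAux

open ALGAux AVAux

section Gauss

theorem hasLineDerivAt_gam (r : ℝ) (s e : ℂ) :
    HasLineDerivAt ℝ (gam r) (-(ip e s / r ^ 2 * gam r s)) s e := by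
  unfold HasLineDerivAt
  have h1 : ∀ t : ℝ, gam r (s + t • e) = 1 / (2 * Real.pi * r ^ 2) *
      Real.exp (-((‖s‖ ^ 2 + 2 * t * ip e s + t ^ 2 * ‖e‖ ^ 2) / (2 * r ^ 2))) := by
    intro t
    unfold gam
    congr 4
    rw [← Complex.normSq_eq_norm_sq, ← Complex.normSq_eq_norm_sq, ← Complex.normSq_eq_norm_sq]
    simp only [Complex.normSq_apply, Complex.add_re, Complex.add_im, Complex.real_smul,
      Complex.mul_re, Complex.mul_im, Complex.ofReal_re, Complex.ofReal_im, zero_mul, sub_zero,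
      add_zero, ip]
    ring
  have h2 : HasDerivAt (fun t : ℝ => -((‖s‖ ^ 2 + 2 * t * ip e s + t ^ 2 * ‖e‖ ^ 2) / (2 * r ^ 2)))
      (-((0 + 2 * 1 * ip e s + 2 * 0 * ‖e‖ ^ 2) / (2 * r ^ 2))) 0 := by
    have := ((((hasDerivAt_const (0 : ℝ) (‖s‖ ^ 2)).fun_add
      (((hasDerivAt_id (0 : ℝ)).const_mul 2).mul_const (ip e s))).fun_add
      ((hasDerivAt_pow 2 (0 : ℝ)).mul_const (‖e‖ ^ 2))).div_const (2 * r ^ 2)).fun_neg
    refine this.congr_deriv ?_
    simp
  have h3 := (h2.exp).const_mul (1 / (2 * Real.pi * r ^ 2))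
  simp only [h1]
  refine h3.congr_deriv ?_
  unfold gam
  rcases eq_or_ne r 0 with hr | hr
  · simp [hr]
  · simp only [mul_zero, zero_mul, add_zero]
    field_simp
    ring_nf

theorem sq_gam_le {r : ℝ} (hr : 0 < r) (s : ℂ) :
    ‖s‖ ^ 2 * gam r s ≤ 8 * r ^ 2 * gam (Real.sqrt 2 * r) s := by
  have hpi := Real.pi_pos
  unfold gam
  rw [mul_pow, Real.sq_sqrt (by norm_num : (0 : ℝ) ≤ 2)]
  have h1 : ‖s‖ ^ 2 / (4 * r ^ 2) ≤ Real.exp (‖s‖ ^ 2 / (4 * r ^ 2)) := by
    have := Real.add_one_le_exp (‖s‖ ^ 2 / (4 * r ^ 2))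
    linarith
  have h2 : Real.exp (-(‖s‖ ^ 2 / (2 * (2 * r ^ 2)))) =
      Real.exp (‖s‖ ^ 2 / (4 * r ^ 2)) * Real.exp (-(‖s‖ ^ 2 / (2 * r ^ 2))) := by
    rw [← Real.exp_add]
    congr 1
    field_simp
    ring
  rw [h2]
  have h3 : ‖s‖ ^ 2 ≤ 4 * r ^ 2 * Real.exp (‖s‖ ^ 2 / (4 * r ^ 2)) := by
    rw [div_le_iff₀ (by positivity)] at h1
    linarith
  calc ‖s‖ ^ 2 * (1 / (2 * Real.pi * r ^ 2) * Real.exp (-(‖s‖ ^ 2 / (2 * r ^ 2))))
      ≤ (4 * r ^ 2 * Real.exp (‖s‖ ^ 2 / (4 * r ^ 2))) *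
        (1 / (2 * Real.pi * r ^ 2) * Real.exp (-(‖s‖ ^ 2 / (2 * r ^ 2)))) := by
        gcongr
    _ = _ := by field_simp; ring

theorem integrable_sq_gam {r : ℝ} (hr : 0 < r) : Integrable fun s : ℂ => ‖s‖ ^ 2 * gam r s := by
  have h2 : 0 < Real.sqrt 2 * r := by positivity
  refine ((WTB.integrable_gam h2).const_mul (8 * r ^ 2)).mono'
    ((continuous_norm.pow 2).mul (WTB.continuous_gam r)).aestronglyMeasurable
    (ae_of_all _ fun s => ?_)
  rw [Real.norm_of_nonneg (mul_nonneg (by positivity) (WTB.gam_nonneg r s))]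
  exact sq_gam_le hr s

theorem continuous_ip_right (e : ℂ) : Continuous fun s : ℂ => ip e s :=
  WTB.continuous_ip.comp (Continuous.prodMk_right e)

theorem integrable_ip_gam {r : ℝ} (hr : 0 < r) (e : ℂ) :
    Integrable fun s : ℂ => ip e s * gam r s := by
  refine (((integrable_sq_gam hr).add (WTB.integrable_gam hr)).const_mul ‖e‖).mono'
    ((continuous_ip_right e).mul (WTB.continuous_gam r)).aestronglyMeasurable
    (ae_of_all _ fun s => ?_)
  have hg := WTB.gam_nonneg r s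
  rw [norm_mul, Real.norm_of_nonneg hg, Real.norm_eq_abs]
  change _ ≤ ‖e‖ * (‖s‖ ^ 2 * gam r s + gam r s)
  calc |ip e s| * gam r s ≤ (‖e‖ * ‖s‖) * gam r s := by gcongr; exact WTB.abs_ip_le e s
    _ ≤ (‖e‖ * (‖s‖ ^ 2 + 1)) * gam r s := by
        gcongr
        nlinarith [sq_nonneg (‖s‖ - 1), norm_nonneg s]
    _ = _ := by ring

theorem integrable_ip_sq_gam {r : ℝ} (hr : 0 < r) (e : ℂ) :
    Integrable fun s : ℂ => ip e s ^ 2 * gam r s := by
  refine ((integrable_sq_gam hr).const_mul (‖e‖ ^ 2)).mono'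
    (((continuous_ip_right e).pow 2).mul (WTB.continuous_gam r)).aestronglyMeasurable
    (ae_of_all _ fun s => ?_)
  have hg := WTB.gam_nonneg r s
  rw [norm_mul, Real.norm_of_nonneg hg, norm_pow, Real.norm_eq_abs]
  calc |ip e s| ^ 2 * gam r s ≤ (‖e‖ * ‖s‖) ^ 2 * gam r s := by
        gcongr; exact WTB.abs_ip_le e s
    _ = _ := by ring

theorem integral_ip_sq_gam {r : ℝ} (hr : 0 < r) (e : ℂ) :
    ∫ s : ℂ, ip e s ^ 2 * gam r s = ‖e‖ ^ 2 * r ^ 2 := by
  have hr0 : r ≠ 0 := hr.ne'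
  have h := integral_bilinear_hasLineDerivAt_right_eq_neg_left_of_integrable
    (μ := (volume : Measure ℂ)) (f := gam r) (f' := fun s => -(ip e s / r ^ 2 * gam r s))
    (g := fun s => ip e s) (g' := fun _ => ‖e‖ ^ 2) (v := e)
    (B := ContinuousLinearMap.mul ℝ ℝ) ?_ ?_ ?_ ?_ ?_
  · simp only [ContinuousLinearMap.mul_apply'] at h
    rw [integral_mul_const, WTB.integral_gam hr, one_mul] at h
    have h2 : ∫ s : ℂ, -(ip e s / r ^ 2 * gam r s) * ip e s =
        -(1 / r ^ 2) * ∫ s : ℂ, ip e s ^ 2 * gam r s := by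
      rw [← integral_const_mul]
      refine integral_congr_ae (ae_of_all _ fun s => ?_)
      change -(ip e s / r ^ 2 * gam r s) * ip e s = -(1 / r ^ 2) * (ip e s ^ 2 * gam r s)
      ring
    rw [h2] at h
    field_simp at h
    linarith
  · have := (integrable_ip_sq_gam hr e).const_mul (-(1 / r ^ 2))
    refine this.congr (ae_of_all _ fun s => ?_)
    change -(1 / r ^ 2) * (ip e s ^ 2 * gam r s) = -(ip e s / r ^ 2 * gam r s) * ip e s
    ring
  · exact (WTB.integrable_gam hr).mul_const _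
  · refine (integrable_ip_gam hr e).congr (ae_of_all _ fun s => ?_)
    change ip e s * gam r s = gam r s * ip e s
    ring
  · exact fun s _ => hasLineDerivAt_gam r s e
  · intro s _
    unfold HasLineDerivAt
    have h1 : ∀ t : ℝ, ip e (s + t • e) = ip e s + t * ‖e‖ ^ 2 := by
      intro t
      rw [← Complex.normSq_eq_norm_sq]
      simp only [Complex.normSq_apply, Complex.add_re, Complex.add_im, Complex.real_smul,
        Complex.mul_re, Complex.mul_im, Complex.ofReal_re, Complex.ofReal_im, zero_mul, sub_zero,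
        add_zero, ip]
      ring
    simp only [h1]
    have := ((hasDerivAt_id (0 : ℝ)).mul_const (‖e‖ ^ 2)).const_add (ip e s)
    simpa using this

theorem integral_abs_ip_gam {r : ℝ} (hr : 0 < r) (e : ℂ) :
    ∫ s : ℂ, |ip e s| * gam r s ≤ ‖e‖ * r := by
  rcases eq_or_ne e 0 with he | he
  · subst he
    simp [ip]
  · have he0 : 0 < ‖e‖ := norm_pos_iff.2 he
    have h1 : ∀ s : ℂ, |ip e s| * gam r s ≤
        ‖e‖ * r / 2 * gam r s + 1 / (2 * (‖e‖ * r)) * (ip e s ^ 2 * gam r s) := by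
      intro s
      have hg := WTB.gam_nonneg r s
      have : |ip e s| ≤ ‖e‖ * r / 2 + 1 / (2 * (‖e‖ * r)) * ip e s ^ 2 := by
        have h0 : 0 < ‖e‖ * r := by positivity
        rw [← sq_abs (ip e s)]
        rw [← sub_nonneg]
        have : ‖e‖ * r / 2 + 1 / (2 * (‖e‖ * r)) * |ip e s| ^ 2 - |ip e s| =
            (‖e‖ * r - |ip e s|) ^ 2 / (2 * (‖e‖ * r)) := by
          field_simp
          ring
        rw [this]
        positivity
      calc |ip e s| * gam r s ≤ (‖e‖ * r / 2 + 1 / (2 * (‖e‖ * r)) * ip e s ^ 2) * gam r s := by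
            gcongr
        _ = _ := by ring
    have hi1 := (WTB.integrable_gam hr).const_mul (‖e‖ * r / 2)
    have hi2 := (integrable_ip_sq_gam hr e).const_mul (1 / (2 * (‖e‖ * r)))
    have hi3 : Integrable fun s : ℂ => |ip e s| * gam r s := by
      refine (integrable_ip_gam hr e).norm.congr (ae_of_all _ fun s => ?_)
      change ‖ip e s * gam r s‖ = _
      rw [norm_mul, Real.norm_of_nonneg (WTB.gam_nonneg r s), Real.norm_eq_abs]
    refine (integral_mono hi3 (hi1.add hi2) h1).trans ?_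
    change ∫ s : ℂ, (‖e‖ * r / 2 * gam r s + 1 / (2 * (‖e‖ * r)) * (ip e s ^ 2 * gam r s)) ≤ _
    rw [integral_add hi1 hi2, integral_const_mul, integral_const_mul, WTB.integral_gam hr,
      integral_ip_sq_gam hr]
    apply le_of_eq
    field_simp
    ring

end Gauss

section Dt

variable {H : Type v} [NormedAddCommGroup H] [InnerProductSpace ℂ H] [CompleteSpace H]

theorem dt_eq (ξ : ℂ) (N : H →L[ℂ] H) :
    dt ξ N = (ξ.re : ℂ) • dt 1 N + (ξ.im : ℂ) • dt Complex.I N := by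
  have h1 : conj ξ = (ξ.re : ℂ) - ξ.im * Complex.I := by
    apply Complex.ext <;> simp
  have h2 : ξ = (ξ.re : ℂ) + ξ.im * Complex.I := (Complex.re_add_im ξ).symm
  simp only [dt, map_one, Complex.conj_I]
  rw [h1]
  conv_lhs => rw [h2]
  simp only [Complex.add_re, Complex.ofReal_re, Complex.mul_re, Complex.ofReal_im, Complex.I_re,
    Complex.I_im, Complex.add_im, Complex.mul_im]
  module

theorem dt_sub (ξ : ℂ) (N M : H →L[ℂ] H) : dt ξ N - dt ξ M = dt ξ (N - M) := by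
  simp only [dt, star_sub]
  module

theorem norm_dt_le (ξ : ℂ) (N : H →L[ℂ] H) : ‖dt ξ N‖ ≤ ‖ξ‖ * ‖N‖ := by
  unfold dt
  rw [norm_smul]
  have h1 : ‖(1 / 2 : ℂ)‖ = 1 / 2 := by norm_num
  have h2 : ‖conj ξ • N + ξ • star N‖ ≤ 2 * (‖ξ‖ * ‖N‖) := by
    refine (norm_add_le _ _).trans ?_
    rw [norm_smul, norm_smul, norm_star, RCLike.norm_conj]
    linarith
  rw [h1]
  linarith

end Dt

section Du

variable {H : Type v} [NormedAddCommGroup H] [InnerProductSpace ℂ H] [CompleteSpace H]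

/-- the properties of the groups, with derivatives -/
structure Grp' (P : Pair H) : Prop extends Grp P where
  Acm : ∀ s ξ : ℂ, Commute (dt ξ P.A) (ex P.A s)
  Ad : ∀ (ξ : ℂ) (c : ℝ), HasDerivAt (fun c : ℝ => ex P.A (c * ξ))
      (Complex.I • (dt ξ P.A * ex P.A (c * ξ))) c
  Bd : ∀ (ξ : ℂ) (c : ℝ), HasDerivAt (fun c : ℝ => ex P.B (c * ξ))
      (Complex.I • (dt ξ P.B * ex P.B (c * ξ))) c

theorem grp_of_ex' (hE : Stmt_Ex.{v}) (P : Pair H) : Grp' P := by
  obtain ⟨-, -, -, -, -, a6, -, a8⟩ := hE H P.A P.hA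
  obtain ⟨-, -, -, -, -, -, -, b8⟩ := hE H P.B P.hB
  exact { grp_of_ex hE P with Acm := a6, Ad := a8, Bd := b8 }

theorem op_D (P : Pair H) (ξ : ℂ) : op (P.D ξ) = dt ξ P.A - dt ξ P.B := by
  rw [Pair.D, map_add, map_smul, map_smul, P.hD1, P.hD2, dt_eq ξ P.A, dt_eq ξ P.B]
  module

theorem norm_D_le (P : Pair H) (ξ : ℂ) : ‖P.D ξ‖ ≤ ‖ξ‖ * P.d := P.hd ξ

theorem D_real_mul (P : Pair H) (c : ℝ) (ξ : ℂ) : P.D (c * ξ) = (c : ℂ) • P.D ξ := by
  simp only [Pair.D, Complex.mul_re, Complex.mul_im, Complex.ofReal_re, Complex.ofReal_im,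
    zero_mul, sub_zero, add_zero, ofReal_mul]
  module

theorem continuous_D (P : Pair H) : Continuous P.D := by
  unfold Pair.D
  exact ((continuous_ofReal.comp Complex.continuous_re).smul continuous_const).add
    ((continuous_ofReal.comp Complex.continuous_im).smul continuous_const)

variable {P : Pair H} (h : Grp' P)
include h

theorem continuous_integrand (X : ℂ → S1 H) (hX : Continuous X) :
    Continuous fun p : ℂ × ℝ => sw (ex P.A (p.2 * p.1)) (ex P.B ((1 - p.2) * p.1)) (X p.1) := by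
  refine continuous_sw (h.Ac.comp ?_) (h.Bc.comp ?_) (hX.comp continuous_fst)
  · exact (continuous_ofReal.comp continuous_snd).mul continuous_fst
  · exact (continuous_const.sub (continuous_ofReal.comp continuous_snd)).mul continuous_fst

theorem intervalIntegrable_Ed (ξ : ℂ) (X : S1 H) : IntervalIntegrable (fun c : ℝ =>
    sw (ex P.A (c * ξ)) (ex P.B ((1 - c) * ξ)) X) volume 0 1 :=
  ((continuous_integrand h (fun _ => X) continuous_const).comp
    (Continuous.prodMk_right ξ)).intervalIntegrable _ _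

theorem op_Ed (ξ : ℂ) : op (Ed P ξ) = ex P.A ξ - ex P.B ξ := by
  rw [Ed, map_smul, ← ContinuousLinearMap.intervalIntegral_comp_comm _
    (intervalIntegrable_Ed h ξ _)]
  simp only [op_sw, op_D]
  have hd : ∀ c : ℝ, HasDerivAt (fun c : ℝ => ex P.A (c * ξ) * ex P.B ((1 - c) * ξ))
      (Complex.I • (ex P.A (c * ξ) * (dt ξ P.A - dt ξ P.B) * ex P.B ((1 - c) * ξ))) c := by
    intro c
    have h1 := h.Ad ξ c
    have h2 : HasDerivAt (fun c : ℝ => ex P.B (((1 - c : ℝ) : ℂ) * ξ))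
        ((-1 : ℝ) • (Complex.I • (dt ξ P.B * ex P.B (((1 - c : ℝ) : ℂ) * ξ)))) c := by
      have h3 := h.Bd ξ (1 - c)
      have h4 : HasDerivAt (fun c : ℝ => 1 - c) (-1) c := by
        simpa using (hasDerivAt_id c).const_sub 1
      exact HasDerivAt.scomp c h3 h4
    have h5 := h1.fun_mul h2
    have e : ∀ c : ℝ, (((1 - c : ℝ) : ℂ) * ξ) = (1 - (c : ℂ)) * ξ := by
      intro c; push_cast; ring
    simp only [e] at h5
    refine h5.congr_deriv ?_
    rw [(h.Acm (c * ξ) ξ).eq]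
    simp only [neg_smul, one_smul, mul_sub, sub_mul, smul_sub, mul_neg, smul_mul_assoc,
      mul_smul_comm, mul_assoc]
    abel
  rw [← intervalIntegral.integral_smul]
  rw [intervalIntegral.integral_eq_sub_of_hasDerivAt (fun c _ => hd c)]
  · simp only [ofReal_one, one_mul, sub_self, zero_mul, ofReal_zero, sub_zero, h.A0, h.B0, mul_one]
  · refine Continuous.intervalIntegrable ?_ _ _
    refine Continuous.fun_const_smul ?_ _
    refine ((h.Ac.comp ?_).mul continuous_const).mul (h.Bc.comp ?_)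
    · exact continuous_ofReal.mul continuous_const
    · exact (continuous_const.sub continuous_ofReal).mul continuous_const

theorem norm_sw_ex_le (s t : ℂ) (X : S1 H) : ‖sw (ex P.A s) (ex P.B t) X‖ ≤ ‖X‖ := by
  refine (norm_sw_le _ _ _).trans ?_
  have h1 := h.An s
  have h2 := h.Bn t
  calc ‖ex P.A s‖ * ‖ex P.B t‖ * ‖X‖ ≤ 1 * 1 * ‖X‖ := by gcongr
    _ = ‖X‖ := by ring

theorem norm_Ed_le (ξ : ℂ) : ‖Ed P ξ‖ ≤ ‖ξ‖ * P.d := by
  rw [Ed, norm_smul, Complex.norm_I, one_mul]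
  refine (intervalIntegral.norm_integral_le_of_norm_le_const (C := ‖ξ‖ * P.d) fun c _ => ?_).trans
    (by simp)
  exact (norm_sw_ex_le h _ _ _).trans (norm_D_le P ξ)

theorem continuous_Ed : Continuous (Ed P) := by
  unfold Ed
  refine Continuous.fun_const_smul ?_ _
  exact intervalIntegral.continuous_parametric_intervalIntegral_of_continuous'
    (f := fun (ξ : ℂ) (c : ℝ) => sw (ex P.A (c * ξ)) (ex P.B ((1 - c) * ξ)) (P.D ξ))
    (continuous_integrand h P.D (continuous_D P)) 0 1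

theorem op_U (ζ : ℂ) : op (U P ζ) = ex P.A ζ * ex P.B (-ζ) - 1 := by
  rw [U, op_rm, op_Ed h, sub_mul, ← h.Badd, add_neg_cancel, h.B0]

theorem norm_U_le (ζ : ℂ) : ‖U P ζ‖ ≤ ‖ζ‖ * P.d := by
  refine (norm_rm_le _ _).trans ?_
  have h1 := h.Bn (-ζ)
  calc ‖ex P.B (-ζ)‖ * ‖Ed P ζ‖ ≤ 1 * ‖Ed P ζ‖ := by gcongr
    _ ≤ _ := by rw [one_mul]; exact norm_Ed_le h ζ

theorem norm_exA_exB_le (s t : ℂ) : ‖ex P.A s * ex P.B t‖ ≤ 1 := by
  have h1 := h.An s
  have h2 := h.Bn t
  calc ‖ex P.A s * ex P.B t‖ ≤ ‖ex P.A s‖ * ‖ex P.B t‖ := norm_mul_le _ _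
    _ ≤ 1 * 1 := by gcongr
    _ = 1 := one_mul _

theorem norm_op_U_le_two (ζ : ℂ) : ‖op (U P ζ)‖ ≤ 2 := by
  rw [op_U h]
  have h1 := norm_exA_exB_le h ζ (-ζ)
  have h2 : ‖(1 : H →L[ℂ] H)‖ ≤ 1 := ContinuousLinearMap.norm_id_le
  linarith [norm_sub_le (ex P.A ζ * ex P.B (-ζ)) 1]

theorem norm_op_Ed_le (ζ : ℂ) : ‖op (Ed P ζ)‖ ≤ ‖ζ‖ * ‖P.A - P.B‖ := by
  rw [Ed, map_smul, ← ContinuousLinearMap.intervalIntegral_comp_comm _
    (intervalIntegrable_Ed h ζ _), norm_smul, Complex.norm_I, one_mul]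
  refine (intervalIntegral.norm_integral_le_of_norm_le_const (C := ‖ζ‖ * ‖P.A - P.B‖)
    fun c _ => ?_).trans (by simp)
  rw [op_sw, op_D, dt_sub]
  have h1 := h.An (c * ζ)
  have h2 := h.Bn ((1 - c) * ζ)
  have h3 := norm_dt_le ζ (P.A - P.B)
  calc ‖ex P.A (c * ζ) * dt ζ (P.A - P.B) * ex P.B ((1 - c) * ζ)‖
      ≤ ‖ex P.A (c * ζ) * dt ζ (P.A - P.B)‖ * ‖ex P.B ((1 - c) * ζ)‖ := norm_mul_le _ _
    _ ≤ (‖ex P.A (c * ζ)‖ * ‖dt ζ (P.A - P.B)‖) * ‖ex P.B ((1 - c) * ζ)‖ := by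
        gcongr; exact norm_mul_le _ _
    _ ≤ (1 * (‖ζ‖ * ‖P.A - P.B‖)) * 1 := by gcongr
    _ = _ := by ring

theorem norm_op_U_le (ζ : ℂ) : ‖op (U P ζ)‖ ≤ ‖ζ‖ * ‖P.A - P.B‖ := by
  rw [U, op_rm]
  have h1 := h.Bn (-ζ)
  calc ‖op (Ed P ζ) * ex P.B (-ζ)‖ ≤ ‖op (Ed P ζ)‖ * ‖ex P.B (-ζ)‖ := norm_mul_le _ _
    _ ≤ ‖op (Ed P ζ)‖ * 1 := by gcongr
    _ ≤ _ := by rw [mul_one]; exact norm_op_Ed_le h ζ

theorem U_add (s t : ℂ) : U P (s + t) = U P s + tD P s (U P t) := by
  apply op_inj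
  rw [map_add, op_tD h.toGrp, op_U h, op_U h, op_U h, tO, h.Aadd, show -(s + t) = -t + -s by ring,
    h.Badd]
  noncomm_ring

theorem continuous_U : Continuous (U P) :=
  continuous_rm (h.Bc.comp continuous_neg) (continuous_Ed h)

theorem U_real_mul (c : ℝ) (e : ℂ) : U P (c * e) = (c : ℂ) • rm (ex P.B (-(c * e)))
    (Complex.I • ∫ c' in (0 : ℝ)..1, sw (ex P.A (c' * (c * e))) (ex P.B ((1 - c') * (c * e)))
      (P.D e)) := by
  rw [U, Ed, D_real_mul, ← map_smul]
  congr 1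
  rw [smul_comm]
  congr 1
  rw [← intervalIntegral.integral_smul]
  refine intervalIntegral.integral_congr fun c' _ => ?_
  exact map_smul _ _ _

theorem hasDerivAt_U (s e : ℂ) : HasDerivAt (fun c : ℝ => U P (s + c * e))
    (Complex.I • tD P s (P.D e)) 0 := by
  rw [hasDerivAt_iff_tendsto_slope_zero]
  set Φ : ℝ → S1 H := fun c => tD P s (rm (ex P.B (-(c * e)))
    (Complex.I • ∫ c' in (0 : ℝ)..1, sw (ex P.A (c' * (c * e))) (ex P.B ((1 - c') * (c * e)))
      (P.D e))) with hΦ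
  have hc : Continuous Φ := by
    refine (tD P s).continuous.comp ?_
    refine continuous_rm (h.Bc.comp (continuous_ofReal.mul continuous_const).neg) ?_
    refine Continuous.fun_const_smul ?_ _
    have h1 := intervalIntegral.continuous_parametric_intervalIntegral_of_continuous'
      (f := fun (ξ : ℂ) (c : ℝ) => sw (ex P.A (c * ξ)) (ex P.B ((1 - c) * ξ)) (P.D e))
      (μ := (volume : Measure ℝ)) (continuous_integrand h (fun _ => P.D e) continuous_const) 0 1
    exact h1.comp (continuous_ofReal.mul continuous_const)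
  have h0 : Φ 0 = Complex.I • tD P s (P.D e) := by
    simp only [hΦ, ofReal_zero, zero_mul, mul_zero, neg_zero, h.A0, h.B0]
    have h1 : ∀ X : S1 H, rm 1 X = X := fun X => ext_pr fun Y => by rw [pr_rm, one_mul]
    have h2 : ∀ X : S1 H, sw 1 1 X = X := fun X => op_inj (by rw [op_sw, one_mul, mul_one])
    rw [h1]
    simp only [h2]
    rw [intervalIntegral.integral_const, sub_zero, one_smul, map_smul]
  rw [← h0]
  have h3 : Filter.Tendsto Φ (nhdsWithin 0 {0}ᶜ) (nhds (Φ 0)) :=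
    (hc.tendsto 0).mono_left nhdsWithin_le_nhds
  refine h3.congr' ?_
  filter_upwards [self_mem_nhdsWithin] with t ht
  have ht0 : (t : ℝ) ≠ 0 := ht
  have h4 : U P (s + ((0 + t : ℝ) : ℂ) * e) - U P (s + ((0 : ℝ) : ℂ) * e) = (t : ℂ) • Φ t := by
    rw [zero_add, ofReal_zero, zero_mul, add_zero, U_add h, add_sub_cancel_left, U_real_mul h,
      map_smul]
  rw [h4]
  rw [show (t : ℂ) • Φ t = t • Φ t from rfl, smul_smul, inv_mul_cancel₀ ht0, one_smul]

theorem norm_op_G_D_le (e : ℂ) {r : ℝ} (hr : 0 < r) : ‖op (G P r (P.D e))‖ ≤ ‖e‖ / r := by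
  rw [G, op_av h.toGrp _ (integrable_gamC hr)]
  set u : ℂ → H →L[ℂ] H := fun s => ex P.A s * ex P.B (-s) with hu
  have huc : Continuous u := h.Ac.mul (h.Bc.comp continuous_neg)
  have hun : ∀ s, ‖u s‖ ≤ 1 := fun s => norm_exA_exB_le h s (-s)
  have hline : ∀ s : ℂ, HasLineDerivAt ℝ u (Complex.I • tO P s (op (P.D e))) s e := by
    intro s
    unfold HasLineDerivAt
    have h1 := hasDerivAt_U h s e
    have h2 : HasDerivAt (fun c : ℝ => op (U P (s + c * e)))
        (op (Complex.I • tD P s (P.D e))) 0 :=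
      ((op (H := H)).restrictScalars ℝ).hasFDerivAt.comp_hasDerivAt (0 : ℝ) h1
    rw [map_smul, op_tD h.toGrp] at h2
    have h3 := h2.add_const (1 : H →L[ℂ] H)
    refine h3.congr_of_eventuallyEq (Filter.Eventually.of_forall fun c => ?_)
    change u (s + c • e) = op (U P (s + c * e)) + 1
    rw [op_U h, sub_add_cancel]
    rfl
  have hparts := integral_bilinear_hasLineDerivAt_right_eq_neg_left_of_integrable
    (μ := (volume : Measure ℂ)) (f := gam r) (f' := fun s => -(ip e s / r ^ 2 * gam r s))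
    (g := u) (g' := fun s => Complex.I • tO P s (op (P.D e))) (v := e)
    (B := ContinuousLinearMap.lsmul ℝ ℝ) ?_ ?_ ?_ ?_ ?_
  · simp only [ContinuousLinearMap.lsmul_apply] at hparts
    have e1 : ∫ s : ℂ, gam r s • (Complex.I • tO P s (op (P.D e))) =
        Complex.I • avO P (fun s => (gam r s : ℂ)) (op (P.D e)) := by
      rw [avO, ← integral_smul]
      refine integral_congr_ae (ae_of_all _ fun s => ?_)
      change gam r s • (Complex.I • tO P s (op (P.D e))) =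
        Complex.I • ((gam r s : ℂ) • tO P s (op (P.D e)))
      rw [smul_comm]
      rfl
    have e2 : ‖avO P (fun s => (gam r s : ℂ)) (op (P.D e))‖ =
        ‖∫ s : ℂ, -(ip e s / r ^ 2 * gam r s) • u s‖ := by
      have : ‖Complex.I • avO P (fun s => (gam r s : ℂ)) (op (P.D e))‖ =
          ‖∫ s : ℂ, -(ip e s / r ^ 2 * gam r s) • u s‖ := by
        rw [← e1, hparts, norm_neg]
      rwa [norm_smul, Complex.norm_I, one_mul] at this
    rw [e2]
    have hi : Integrable fun s : ℂ => 1 / r ^ 2 * (|ip e s| * gam r s) := by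
      refine Integrable.const_mul ?_ _
      refine (integrable_ip_gam hr e).norm.congr (ae_of_all _ fun s => ?_)
      change ‖ip e s * gam r s‖ = _
      rw [norm_mul, Real.norm_of_nonneg (WTB.gam_nonneg r s), Real.norm_eq_abs]
    refine (norm_integral_le_of_norm_le hi (ae_of_all _ fun s => ?_)).trans ?_
    · rw [norm_smul, norm_neg, norm_mul, norm_div, Real.norm_of_nonneg (WTB.gam_nonneg r s),
        Real.norm_eq_abs, Real.norm_of_nonneg (by positivity : 0 ≤ r ^ 2)]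
      calc |ip e s| / r ^ 2 * gam r s * ‖u s‖ ≤ |ip e s| / r ^ 2 * gam r s * 1 := by
            have := WTB.gam_nonneg r s
            gcongr
            exact hun s
        _ = _ := by ring
    · rw [integral_const_mul]
      calc 1 / r ^ 2 * ∫ s : ℂ, |ip e s| * gam r s ≤ 1 / r ^ 2 * (‖e‖ * r) := by
            gcongr
            exact integral_abs_ip_gam hr e
        _ = ‖e‖ / r := by field_simp
  · simp only [ContinuousLinearMap.lsmul_apply]
    have h1 : Integrable fun s : ℂ => -(ip e s / r ^ 2 * gam r s) := by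
      refine ((integrable_ip_gam hr e).const_mul (-(1 / r ^ 2))).congr (ae_of_all _ fun s => ?_)
      change -(1 / r ^ 2) * (ip e s * gam r s) = -(ip e s / r ^ 2 * gam r s)
      ring
    refine h1.norm.mono' (h1.aestronglyMeasurable.smul huc.aestronglyMeasurable)
      (ae_of_all _ fun s => ?_)
    rw [norm_smul]
    calc _ ≤ ‖-(ip e s / r ^ 2 * gam r s)‖ * 1 := by gcongr; exact hun s
      _ = _ := mul_one _
  · simp only [ContinuousLinearMap.lsmul_apply]
    refine ((WTB.integrable_gam hr).mul_const ‖op (P.D e)‖).mono'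
      ((WTB.continuous_gam r).fun_smul
        ((continuous_tO h.toGrp (op (P.D e))).fun_const_smul Complex.I)).aestronglyMeasurable
      (ae_of_all _ fun s => ?_)
    rw [norm_smul, norm_smul, Complex.norm_I, one_mul, Real.norm_of_nonneg (WTB.gam_nonneg r s)]
    have := WTB.gam_nonneg r s
    gcongr
    exact norm_tO_le h.toGrp _ _
  · simp only [ContinuousLinearMap.lsmul_apply]
    refine (WTB.integrable_gam hr).mono'
      ((WTB.continuous_gam r).fun_smul huc).aestronglyMeasurable (ae_of_all _ fun s => ?_)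
    rw [norm_smul, Real.norm_of_nonneg (WTB.gam_nonneg r s)]
    have := WTB.gam_nonneg r s
    calc gam r s * ‖u s‖ ≤ gam r s * 1 := by gcongr; exact hun s
      _ = _ := mul_one _
  · exact fun s _ => hasLineDerivAt_gam r s e
  · exact fun s _ => hline s

theorem integrable_smul_Ed {a : ℂ → ℂ} (ha : Wt a) : Integrable fun ξ => a ξ • Ed P ξ := by
  refine ((ha.2 1).mul_const P.d).mono' (ha.1.smul (continuous_Ed h).aestronglyMeasurable)
    (ae_of_all _ fun ξ => ?_)
  rw [norm_smul, pow_one]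
  calc ‖a ξ‖ * ‖Ed P ξ‖ ≤ ‖a ξ‖ * (‖ξ‖ * P.d) := by gcongr; exact norm_Ed_le h ξ
    _ = _ := by ring

theorem op_Fd (hF : Stmt_Fn.{v}) {a : ℂ → ℂ} (ha : Wt a) :
    op (Fd P a) = fn (syn a) P.A - fn (syn a) P.B := by
  rw [Fd, ← ContinuousLinearMap.integral_comp_comm _ (integrable_smul_Ed h ha)]
  obtain ⟨-, h1, -, -, h2⟩ := hF H P.A P.hA a (WTB.wt_integrable ha)
  obtain ⟨-, h3, -, -, h4⟩ := hF H P.B P.hB a (WTB.wt_integrable ha)
  rw [h1, h3, ← integral_sub h2 h4]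
  refine integral_congr_ae (ae_of_all _ fun ξ => ?_)
  change op (a ξ • Ed P ξ) = a ξ • ex P.A ξ - a ξ • ex P.B ξ
  rw [map_smul, op_Ed h, smul_sub]

theorem T_eq {a : ℂ → ℂ} (ha : Wt a) : T P a = ∫ ξ, a ξ * tr (Ed P ξ) := by
  rw [T, Fd, tr]
  have := (ContinuousLinearMap.integral_comp_comm (prL (1 : H →L[ℂ] H))
    (integrable_smul_Ed h ha)).symm
  rw [prL_apply] at this
  rw [this]
  refine integral_congr_ae (ae_of_all _ fun ξ => ?_)
  change prL 1 (a ξ • Ed P ξ) = a ξ * tr (Ed P ξ)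
  rw [map_smul, prL_apply]
  rfl

end Du

end DUAux

open ALGAux AVAux DUAux in
/-- Block DU. -/
theorem blk_DU : Stmt_Alg.{v} → Stmt_Ex.{v} → Stmt_Fn.{v} → Stmt_Av.{v} → Stmt_Du.{v} := by
  intro _ hE hF _ H _ _ _ P
  have h := grp_of_ex' hE P
  refine ⟨op_D P, norm_D_le P, op_Ed h, norm_Ed_le h, continuous_Ed h, op_U h, norm_U_le h,
    norm_op_U_le_two h, norm_op_U_le h, U_add h, continuous_U h, hasDerivAt_U h,
    fun e r hr => norm_op_G_D_le h e hr, fun a ha => ⟨integrable_smul_Ed h ha, op_Fd h hF ha,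
    T_eq h ha⟩⟩

end Pool.Bes
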