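import Pool.Agent.Work.Bes.Interface

/-!
# Block EN: telescoping of the energies
-/

open MeasureTheory Complex
open scoped ComplexOrder InnerProductSpace ComplexConjugate

set_option autoImplicit false

universe v

namespace Pool.Bes

theorem blk_EN (hAlg : Stmt_Alg.{v}) (hPol : Stmt_Pol.{v}) (hPos : Stmt_Pos.{v})
    (hAL : Stmt_AL.{v}) (hMT : Stmt_MT.{v}) (hEx : Stmt_Ex.{v}) (hAv : Stmt_Av.{v})
    (hDu : Stmt_Du.{v}) : Stmt_EN.{v} := by
  intro H _ _ _ P ζ
  obtain ⟨al1, al2, al3, al4, al5, al6, al7, al8, al9⟩ := hAlg H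
  obtain ⟨-, av2, -, -, av5, -⟩ := hAv H P
  obtain ⟨-, -, -, -, -, -, du7, du8, -, du10, -⟩ := hDu H P
  set a := U P ζ with ha
  set b := tD P ζ a with hb
  have hX : U P (2 * ζ) = a + b := by
    rw [two_mul, du10]
  have hnb : ‖b‖ = ‖a‖ := av2 ζ a
  have hsadd : hs (a + b) (a + b) = hs a a + hs b b + (hs a b + hs b a) := by
    simp only [hs, pr, map_add, star_add]
    rw [_root_.add_apply, _root_.add_apply]
    ring
  have hconj : hs b a = conj (hs a b) := al8 a b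
  have hbb : hs b b = hs a a := by
    rw [hb]
    simp only [hs]
    rw [av5]
    have eA := hEx H P.A P.hA
    have eB := hEx H P.B P.hB
    have hA1 : star (ex P.A ζ) * ex P.A ζ = 1 := by
      rw [eA.2.2.1, ← eA.2.1, neg_add_cancel, eA.1]
    have hB1 : ex P.B (-ζ) * star (ex P.B (-ζ)) = 1 := by
      rw [eB.2.2.1, ← eB.2.1, neg_neg, neg_add_cancel, eB.1]
    change pr a (ex P.B (-ζ) * (star (ex P.A ζ * op a * ex P.B (-ζ)) * ex P.A ζ)) = pr a (star (op a))
    congr 1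
    rw [star_mul, star_mul]
    calc ex P.B (-ζ) * (star (ex P.B (-ζ)) * (star (op a) * star (ex P.A ζ)) * ex P.A ζ)
        = (ex P.B (-ζ) * star (ex P.B (-ζ))) * star (op a) * (star (ex P.A ζ) * ex P.A ζ) := by
          noncomm_ring
      _ = star (op a) := by rw [hA1, hB1, one_mul, mul_one]
  have hre : (hs (a + b) (a + b)).re = 2 * (hs a a).re + 2 * (hs a b).re := by
    rw [hsadd, hconj, hbb]
    simp only [Complex.add_re, Complex.conj_re]
    ring
  have hop : ‖op a‖ ≤ 2 := du8 ζ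
  have hopb : ‖op b‖ ≤ 2 := by
    rw [hb, av5, tO]
    have eA := (hEx H P.A P.hA).2.2.2.1 ζ
    have eB := (hEx H P.B P.hB).2.2.2.1 (-ζ)
    calc ‖ex P.A ζ * op a * ex P.B (-ζ)‖ ≤ ‖ex P.A ζ‖ * ‖op a‖ * ‖ex P.B (-ζ)‖ :=
          (norm_mul_le _ _).trans (mul_le_mul_of_nonneg_right (norm_mul_le _ _) (norm_nonneg _))
      _ ≤ 1 * 2 * 1 := by gcongr
      _ = 2 := by norm_num
  -- `hs a a ≥ 0`
  have hpos : 0 ≤ (hs a a).re := by
    obtain ⟨W, ω, hW⟩ := hPol H a
    obtain ⟨h1, h2, h3, h4⟩ := hW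
    have hp := (hPos H ω h2).2.1
    have h5 := hAL H a W ω ⟨h1, h2, h3, h4⟩
    have e1 : hs a a = pr ω (op ω) := by
      have : op a = W * op ω := h5.2.2.2.2.2.2.1
      have h6 : op ω = star W * op a := h5.2.2.2.2.2.1
      have hsa : star (op ω) = op ω := hp.isSelfAdjoint
      rw [hs]
      have h7 : pr a (star (op a)) = pr ω (star (op a) * W) := by
        conv_lhs => rw [h3]
        rw [pr_lm, ← h3]
      rw [h7]
      have h8 : star (op a) * W = star (star W * op a) := by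
        rw [star_mul, star_star]
      rw [h8, ← h6, hsa]
    rw [e1]
    exact (Complex.nonneg_iff.1 ((hPos H ω h2).1 _ hp)).1
  have hub : (hs a a).re ≤ 2 * ‖a‖ := by
    refine (Complex.re_le_norm _).trans ?_
    refine (al7 a (star (op a))).trans ?_
    rw [norm_star, mul_comm]
    exact mul_le_mul_of_nonneg_right hop (norm_nonneg _)
  have hmt := hMT H a b 2 hop hopb
  have hδ : ‖a + b‖ ≤ ‖a‖ + ‖b‖ := norm_add_le _ _
  refine ⟨?_, ?_, ?_, ?_⟩
  · rw [EN, SS, SS, hX, hre]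
    ring
  · rw [EN, hX]
    have h1 : 0 ≤ |(hs a b).im| := abs_nonneg _
    have : 3 * (hs a b).re + 16 * (2 * ‖a‖ - ‖a + b‖) =
        3 * ((hs a b).re + 2 * 2 * (‖a‖ + ‖b‖ - ‖a + b‖)) + 4 * (‖a‖ + ‖b‖ - ‖a + b‖) := by
      rw [hnb]
      ring
    have goal : 0 ≤ 3 * (hs a b).re + 16 * (2 * ‖a‖ - ‖a + b‖) := by
      rw [this]
      linarith
    exact goal
  · rw [SS]
    have := norm_nonneg a
    linarith
  · rw [SS]
    have h1 := du7 ζ
    have h2 : 16 * ‖U P ζ‖ ≤ 16 * ‖ζ‖ * P.d := by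
      rw [mul_assoc]
      exact mul_le_mul_of_nonneg_left h1 (by norm_num)
    have h3 : 0 ≤ (hs (U P ζ) (U P ζ)).re := hpos
    linarith

end Pool.Bes
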