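import Pool.Agent.Work.Bes.Interface

/-! # Block EX: the groups `exp (i s · N)` -/

open MeasureTheory Complex
open scoped ComplexOrder InnerProductSpace ComplexConjugate

set_option autoImplicit false
set_option linter.unusedSectionVars false

universe v

namespace Pool.Bes

namespace EXB

theorem norm_ip_le (s z : ℂ) : |ip s z| ≤ ‖s‖ * ‖z‖ := by
  have h : ip s z = (conj s * z).re := by
    simp [ip, Complex.mul_re]
  rw [h]
  refine (Complex.abs_re_le_norm _).trans ?_
  rw [norm_mul, Complex.norm_conj]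

theorem ip_add_left (s t z : ℂ) : ip (s + t) z = ip s z + ip t z := by
  simp only [ip, Complex.add_re, Complex.add_im]; ring

theorem ip_sub_left (s t z : ℂ) : ip (s - t) z = ip s z - ip t z := by
  simp only [ip, Complex.sub_re, Complex.sub_im]; ring

theorem ip_smul_left (c : ℝ) (s z : ℂ) : ip (c * s) z = c * ip s z := by
  simp only [ip, Complex.re_ofReal_mul, Complex.im_ofReal_mul]; ring

theorem continuous_ip : Continuous fun p : ℂ × ℂ => ip p.1 p.2 := by
  unfold ip
  fun_prop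

theorem continuous_ch₂ : Continuous fun p : ℂ × ℂ => ch p.1 p.2 := by
  unfold ch
  exact Complex.continuous_exp.comp (continuous_const.mul
    (Complex.continuous_ofReal.comp continuous_ip))

theorem continuous_ch (s : ℂ) : Continuous (ch s) :=
  continuous_ch₂.comp (Continuous.prodMk_right s)

theorem ch_add_left (s t z : ℂ) : ch (s + t) z = ch s z * ch t z := by
  rw [ch, ch, ch, ← Complex.exp_add, ip_add_left]
  congr 1
  push_cast
  ring

theorem ip_add_right (s z w : ℂ) : ip s (z + w) = ip s z + ip s w := by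
  simp only [ip, Complex.add_re, Complex.add_im]; ring

theorem ch_add_right (s z w : ℂ) : ch s (z + w) = ch s z * ch s w := by
  rw [ch, ch, ch, ← Complex.exp_add, ip_add_right]
  congr 1
  push_cast
  ring

theorem ch_zero_left (z : ℂ) : ch 0 z = 1 := by
  simp [ch, ip]

theorem norm_ch (s z : ℂ) : ‖ch s z‖ = 1 := by
  rw [ch, mul_comm, Complex.norm_exp_ofReal_mul_I]

theorem star_ch (s z : ℂ) : star (ch s z) = ch (-s) z := by
  change (starRingEnd ℂ) (ch s z) = _
  rw [ch, ch, ← Complex.exp_conj, map_mul, Complex.conj_I, Complex.conj_ofReal]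
  congr 1
  have : ip (-s) z = - ip s z := by simp only [ip, Complex.neg_re, Complex.neg_im]; ring
  rw [this]
  push_cast
  ring

theorem norm_ch_sub_le (s t z : ℂ) : ‖ch s z - ch t z‖ ≤ ‖s - t‖ * ‖z‖ := by
  have h1 : ch s z = ch t z * ch (s - t) z := by
    rw [← ch_add_left]; congr 1; ring
  rw [h1, show ch t z * ch (s - t) z - ch t z = ch t z * (ch (s - t) z - 1) by ring, norm_mul,
    norm_ch, one_mul, ch]
  refine (Real.norm_exp_I_mul_ofReal_sub_one_le).trans ?_
  rw [Real.norm_eq_abs]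
  exact norm_ip_le _ _

section

variable {H : Type v} [NormedAddCommGroup H] [InnerProductSpace ℂ H] [CompleteSpace H]

theorem dt_eq_cfc (N : H →L[ℂ] H) (hN : IsStarNormal N) (ξ : ℂ) :
    dt ξ N = cfc (fun z : ℂ => (ip ξ z : ℂ)) N := by
  have h1 : (fun z : ℂ => (ip ξ z : ℂ)) =
      fun z => (1 / 2 : ℂ) * (conj ξ * z + ξ * star z) := by
    funext z
    apply Complex.ext
    · simp [ip, Complex.mul_re, Complex.mul_im]
      ring
    · simp [Complex.mul_re, Complex.mul_im]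
      ring
  rw [h1, cfc_const_mul (1 / 2 : ℂ) _ N (by fun_prop),
    cfc_add (a := N) (fun z : ℂ => conj ξ * z) (fun z : ℂ => ξ * star z) (by fun_prop)
      (by fun_prop), cfc_const_mul (conj ξ) _ N (by fun_prop), cfc_const_mul ξ _ N (by fun_prop),
    cfc_star_id (R := ℂ) N, cfc_id' ℂ N, dt]

theorem ex_add (N : H →L[ℂ] H) (s t : ℂ) : ex N (s + t) = ex N s * ex N t := by
  rw [ex, ex, ex, ← cfc_mul (ch s) (ch t) N (continuous_ch s).continuousOn
    (continuous_ch t).continuousOn]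
  congr 1
  funext z
  exact ch_add_left s t z

theorem ex_zero (N : H →L[ℂ] H) (hN : IsStarNormal N) : ex N 0 = 1 := by
  have : ch 0 = fun _ => (1 : ℂ) := by funext z; exact ch_zero_left z
  rw [ex, this, cfc_const_one ℂ N]

theorem star_ex (N : H →L[ℂ] H) (s : ℂ) : star (ex N s) = ex N (-s) := by
  rw [ex, ex, ← cfc_star (ch s) N]
  congr 1
  funext z
  exact star_ch s z

theorem norm_ex_le (N : H →L[ℂ] H) (s : ℂ) : ‖ex N s‖ ≤ 1 :=
  norm_cfc_le zero_le_one fun z _ => (norm_ch s z).le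

theorem norm_ex_sub_le (N : H →L[ℂ] H) (s t : ℂ) :
    ‖ex N s - ex N t‖ ≤ (‖N‖ * ‖(1 : H →L[ℂ] H)‖) * ‖s - t‖ := by
  rw [ex, ex, ← cfc_sub (ch s) (ch t) N (continuous_ch s).continuousOn
    (continuous_ch t).continuousOn]
  refine norm_cfc_le (by positivity) fun z hz => ?_
  refine (norm_ch_sub_le s t z).trans ?_
  rw [mul_comm]
  exact mul_le_mul_of_nonneg_right (spectrum.norm_le_norm_mul_of_mem hz) (norm_nonneg _)

theorem continuous_ex (N : H →L[ℂ] H) : Continuous (ex N) := by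
  refine LipschitzWith.continuous (K := ⟨‖N‖ * ‖(1 : H →L[ℂ] H)‖, by positivity⟩) ?_
  refine LipschitzWith.of_dist_le_mul fun s t => ?_
  rw [dist_eq_norm, dist_eq_norm]
  exact norm_ex_sub_le N s t

theorem commute_dt_ex (N : H →L[ℂ] H) (hN : IsStarNormal N) (s ξ : ℂ) :
    Commute (dt ξ N) (ex N s) := by
  rw [dt_eq_cfc N hN, ex]
  exact cfc_commute_cfc _ _ N

theorem commute_fn_ex (N : H →L[ℂ] H) (f : ℂ → ℂ) (s : ℂ) :
    Commute (fn f N) (ex N s) := cfc_commute_cfc _ _ N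

theorem hasDerivAt_ex (N : H →L[ℂ] H) (hN : IsStarNormal N) (ξ : ℂ) (c : ℝ) :
    HasDerivAt (fun c : ℝ => ex N (c * ξ)) (Complex.I • (dt ξ N * ex N (c * ξ))) c := by
  rw [hasDerivAt_iff_isLittleO_nhds_zero]
  set M : ℝ := ‖ξ‖ * (‖N‖ * ‖(1 : H →L[ℂ] H)‖) with hM
  have hM0 : 0 ≤ M := by positivity
  have hcip : Continuous fun z : ℂ => (ip ξ z : ℂ) :=
    Complex.continuous_ofReal.comp (continuous_ip.comp (Continuous.prodMk_right ξ))
  have hcm : Continuous fun z : ℂ => (ip ξ z : ℂ) * ch (c * ξ) z := hcip.mul (continuous_ch _)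
  have key : ∀ h : ℝ, |h| * M ≤ 1 →
      ‖ex N (((c + h : ℝ) : ℂ) * ξ) - ex N (c * ξ) -
        h • (Complex.I • (dt ξ N * ex N (c * ξ)))‖ ≤ M ^ 2 * ‖h ^ 2‖ := by
    intro h hh
    have e1 : h • (Complex.I • (dt ξ N * ex N (c * ξ))) =
        cfc (fun z : ℂ => ((h : ℂ) * Complex.I) * ((ip ξ z : ℂ) * ch (c * ξ) z)) N := by
      rw [cfc_const_mul ((h : ℂ) * Complex.I) (fun z : ℂ => (ip ξ z : ℂ) * ch (c * ξ) z) N
        hcm.continuousOn,
        cfc_mul (fun z : ℂ => (ip ξ z : ℂ)) (ch (c * ξ)) N hcip.continuousOn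
          (continuous_ch _).continuousOn, ← dt_eq_cfc N hN, ← ex, mul_smul]
      rfl
    rw [e1, ex, ex, ← cfc_sub (ch (((c + h : ℝ) : ℂ) * ξ)) (ch (c * ξ)) N
      (continuous_ch _).continuousOn (continuous_ch _).continuousOn,
      ← cfc_sub (fun z => ch (((c + h : ℝ) : ℂ) * ξ) z - ch (c * ξ) z)
        (fun z => ((h : ℂ) * Complex.I) * ((ip ξ z : ℂ) * ch (c * ξ) z)) N
      (((continuous_ch _).sub (continuous_ch _)).continuousOn)
      ((continuous_const.mul hcm).continuousOn)]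
    refine norm_cfc_le (by positivity) fun z hz => ?_
    have hz1 : ‖z‖ ≤ ‖N‖ * ‖(1 : H →L[ℂ] H)‖ := spectrum.norm_le_norm_mul_of_mem hz
    have hx : |ip ξ z| ≤ M := (norm_ip_le ξ z).trans
      (mul_le_mul_of_nonneg_left hz1 (norm_nonneg _))
    have e2 : ch (((c + h : ℝ) : ℂ) * ξ) z = ch (c * ξ) z * Complex.exp (Complex.I * ((h * ip ξ z : ℝ) : ℂ)) := by
      have : (((c + h : ℝ) : ℂ) * ξ) = c * ξ + h * ξ := by push_cast; ring
      rw [this, ch_add_left]
      congr 1
      rw [ch, ip_smul_left]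
    have e3 : ch (((c + h : ℝ) : ℂ) * ξ) z - ch (c * ξ) z -
        ((h : ℂ) * Complex.I) * ((ip ξ z : ℂ) * ch (c * ξ) z) =
        ch (c * ξ) z * (Complex.exp (Complex.I * ((h * ip ξ z : ℝ) : ℂ)) - 1 -
          Complex.I * ((h * ip ξ z : ℝ) : ℂ)) := by
      rw [e2]; push_cast; ring
    rw [e3, norm_mul, norm_ch, one_mul]
    have hy : ‖Complex.I * ((h * ip ξ z : ℝ) : ℂ)‖ = |h| * |ip ξ z| := by
      rw [norm_mul, Complex.norm_I, one_mul, Complex.norm_real, Real.norm_eq_abs, abs_mul]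
    have hle : |h| * |ip ξ z| ≤ |h| * M := mul_le_mul_of_nonneg_left hx (abs_nonneg _)
    refine (Complex.norm_exp_sub_one_sub_id_le (by rw [hy]; linarith)).trans ?_
    rw [hy, Real.norm_eq_abs, abs_pow, sq_abs]
    calc (|h| * |ip ξ z|) ^ 2 ≤ (|h| * M) ^ 2 := by
          exact pow_le_pow_left₀ (by positivity) hle 2
      _ = M ^ 2 * h ^ 2 := by rw [mul_pow, sq_abs]; ring
  have hO : (fun h : ℝ => ex N (((c + h : ℝ) : ℂ) * ξ) - ex N (c * ξ) -
      h • (Complex.I • (dt ξ N * ex N (c * ξ)))) =O[nhds 0] fun h : ℝ => h ^ 2 := by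
    refine Asymptotics.IsBigO.of_bound (M ^ 2) ?_
    have hev : ∀ᶠ h : ℝ in nhds 0, |h| * M < 1 := by
      have : Filter.Tendsto (fun h : ℝ => |h| * M) (nhds 0) (nhds (|(0 : ℝ)| * M)) :=
        ((continuous_abs.mul continuous_const).tendsto 0)
      rw [abs_zero, zero_mul] at this
      exact this.eventually (gt_mem_nhds zero_lt_one)
    filter_upwards [hev] with h hh
    exact key h hh.le
  refine hO.trans_isLittleO ?_
  exact Asymptotics.isLittleO_pow_id one_lt_two

end

end EXB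

open EXB in
theorem blk_Ex : Stmt_Ex.{v} := by
  intro H _ _ _ N hN
  exact ⟨ex_zero N hN, fun s t => ex_add N s t, fun s => star_ex N s, fun s => norm_ex_le N s,
    continuous_ex N, fun s ξ => commute_dt_ex N hN s ξ, fun f s _ => commute_fn_ex N f s,
    fun ξ c => hasDerivAt_ex N hN ξ c⟩

end Pool.Bes
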