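import Pool.Agent.Work.Bes.Interface

/-! # Block FARB: the bound of the far part -/

open MeasureTheory Complex
open scoped ComplexOrder InnerProductSpace ComplexConjugate

set_option autoImplicit false
set_option linter.unusedSectionVars false

universe v

namespace Pool.Bes

namespace Farb

theorem ex_zero {H : Type v} [NormedAddCommGroup H] [InnerProductSpace ℂ H] [CompleteSpace H]
    (N : H →L[ℂ] H) (hN : IsStarNormal N) : ex N 0 = 1 := by
  have h : ch 0 = fun _ : ℂ => (1 : ℂ) := by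
    funext z
    simp [ch, ip]
  rw [ex, h]
  exact cfc_const_one ℂ N

theorem rad_pos (t : ℝ) (ht : 0 < t) (r : ℝ) : 0 < Real.sqrt (r ^ 2 + 64 * t ^ 2) :=
  Real.sqrt_pos.2 (by positivity)

theorem rad_le (t r : ℝ) : r ≤ Real.sqrt (r ^ 2 + 64 * t ^ 2) := by
  refine Real.le_sqrt_of_sq_le ?_
  nlinarith [sq_nonneg t]

theorem ii (v : ℝ → ℝ) (d t : ℝ) (hv : AntitoneOn v (Set.Ioi 0))
    (hb : ∀ r, 0 < r → 0 ≤ v r ∧ v r ≤ d) (ht : 0 < t) :
    IntervalIntegrable (fun r => Real.sqrt (v r - v (Real.sqrt (r ^ 2 + 64 * t ^ 2))))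
      volume 0 t := by
  rw [intervalIntegrable_iff_integrableOn_Ioc_of_le ht.le]
  have hsub : Set.Ioc (0 : ℝ) t ⊆ Set.Ioi 0 := fun x hx => hx.1
  have hw : AntitoneOn (fun r => v (Real.sqrt (r ^ 2 + 64 * t ^ 2))) (Set.Ioi 0) := by
    intro r hr s hs hrs
    refine hv (rad_pos t ht r) (rad_pos t ht s) (Real.sqrt_le_sqrt ?_)
    have hr' : (0 : ℝ) < r := hr
    nlinarith
  have m1 : AEMeasurable v (volume.restrict (Set.Ioc 0 t)) :=
    aemeasurable_restrict_of_antitoneOn measurableSet_Ioc (hv.mono hsub)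
  have m2 : AEMeasurable (fun r => v (Real.sqrt (r ^ 2 + 64 * t ^ 2)))
      (volume.restrict (Set.Ioc 0 t)) :=
    aemeasurable_restrict_of_antitoneOn measurableSet_Ioc (hw.mono hsub)
  have m3 : AEStronglyMeasurable
      (fun r => Real.sqrt (v r - v (Real.sqrt (r ^ 2 + 64 * t ^ 2))))
      (volume.restrict (Set.Ioc 0 t)) :=
    (Real.continuous_sqrt.measurable.comp_aemeasurable (m1.sub m2)).aestronglyMeasurable
  refine Integrable.mono' (g := fun _ => Real.sqrt d) ?_ m3 ?_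
  · exact integrable_const _
  · refine (ae_restrict_iff' measurableSet_Ioc).2 (Filter.Eventually.of_forall fun r hr => ?_)
    rw [Real.norm_of_nonneg (Real.sqrt_nonneg _)]
    refine Real.sqrt_le_sqrt ?_
    have h1 := (hb r hr.1).2
    have h2 := (hb _ (rad_pos t ht r)).1
    linarith

end Farb

/-- BLOCK FARB -/
theorem blk_FARB : Stmt_FarI.{v} → Stmt_GG.{v} → Stmt_Du.{v} → Stmt_Av.{v} → Stmt_Wt →
    Stmt_FarB.{v} := by
  intro hFarI hGG hDu hAv hWt H _ _ _ P a ha U hU t ht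
  obtain ⟨-, -, -, -, -, -, -, -, -, hGGc, -, hanti, hvd⟩ := hAv H P
  obtain ⟨-, -, -, -, -, -, -, -, -, -, -, -, hop, -⟩ := hDu H P
  have hU0 : 0 ≤ U := (norm_nonneg _).trans (hU 0)
  have hd0 : 0 ≤ P.d := by
    have h1 := hvd 1 1 one_pos
    have h2 : 0 ≤ vv P 1 1 := norm_nonneg _
    rw [norm_one, one_mul] at h1
    linarith
  have hb : ∀ e : ℂ, ‖e‖ = 1 → ∀ r, 0 < r → 0 ≤ vv P e r ∧ vv P e r ≤ P.d := by
    intro e he r hr
    refine ⟨norm_nonneg _, ?_⟩
    have := hvd e r hr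
    rwa [he, one_mul] at this
  have key : ∀ e : ℂ, ‖e‖ = 1 → ∀ r, 0 < r →
      ‖fm (G P r (P.D e)) (fn (syn (gm (1 / (2 * t)) a)) P.A) 1 -
        fm (G P r (P.D e)) 1 (fn (syn (gm (1 / (2 * t)) a)) P.B)‖ ≤
      40 * U * (1 / r) * (Real.sqrt P.d *
        Real.sqrt (vv P e r - vv P e (Real.sqrt (r ^ 2 + 64 * t ^ 2)))) := by
    intro e he r hr
    have h := hGG H P (G P r (P.D e)) a (hWt.1 a ha) U hU (1 / (2 * t)) (by positivity) 0 0
    rw [neg_zero, Farb.ex_zero P.A P.hA, Farb.ex_zero P.B P.hB, mul_one, mul_one, norm_zero] at h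
    have h1 : (1 / (2 * t)) ^ 2 * ((0 : ℝ) ^ 2 + 0 ^ 2) / 56 = 0 := by ring
    rw [h1, Real.exp_zero, mul_one] at h
    have h2 : 4 / (1 / (2 * t)) = 8 * t := by field_simp; norm_num
    rw [h2, hGGc (8 * t) r _ (by positivity) hr] at h
    have h3 : (8 * t) ^ 2 + r ^ 2 = r ^ 2 + 64 * t ^ 2 := by ring
    rw [h3] at h
    refine h.trans ?_
    have h4 : ‖op (G P r (P.D e))‖ ≤ 1 / r := by
      have := hop e r hr
      rwa [he] at this
    have h5 : vv P e (Real.sqrt (r ^ 2 + 64 * t ^ 2)) ≤ vv P e r :=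
      hanti e hr (Farb.rad_pos t ht r) (Farb.rad_le t r)
    have h6 : Real.sqrt (‖G P r (P.D e)‖ * (‖G P r (P.D e)‖ -
        ‖G P (Real.sqrt (r ^ 2 + 64 * t ^ 2)) (P.D e)‖)) ≤ Real.sqrt P.d *
        Real.sqrt (vv P e r - vv P e (Real.sqrt (r ^ 2 + 64 * t ^ 2))) := by
      rw [← Real.sqrt_mul hd0]
      refine Real.sqrt_le_sqrt ?_
      exact mul_le_mul_of_nonneg_right (hb e he r hr).2 (sub_nonneg.2 h5)
    gcongr
  have hvv1 := Farb.ii (vv P 1) P.d t (hanti 1) (hb 1 (by simp)) ht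
  have hvvI := Farb.ii (vv P Complex.I) P.d t (hanti Complex.I) (hb Complex.I (by simp)) ht
  rw [hFarI H P _ (hWt.2.1 a (1 / (2 * t)) ha) t ht]
  rw [← intervalIntegral.integral_add hvv1 hvvI, ← intervalIntegral.integral_const_mul]
  refine intervalIntegral.norm_integral_le_of_norm_le ht.le
    (Filter.Eventually.of_forall fun r hr => ?_) ((hvv1.add hvvI).const_mul _)
  have k1 := key 1 (by simp) r hr.1
  have k2 := key Complex.I (by simp) r hr.1
  have hr0 := hr.1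
  rw [norm_mul]
  have h7 : ‖(2 * r : ℂ)‖ = 2 * r := by
    rw [norm_mul, Complex.norm_real, Real.norm_of_nonneg hr.1.le]
    norm_num
  rw [h7]
  refine (mul_le_mul_of_nonneg_left ((norm_add_le _ _).trans (add_le_add k1 k2))
    (by positivity)).trans (le_of_eq ?_)
  field_simp
  ring

end Pool.Bes
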