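import Pool.Agent.Work.Bes.Interface
import Pool.Agent.Work.Bes_h36.Common

/-!
Block FARI: the flow of the Gaussian cut-off.
-/

open MeasureTheory Complex
open scoped ComplexOrder InnerProductSpace ComplexConjugate

set_option autoImplicit false
set_option linter.unusedSectionVars false

universe v

namespace Pool.Bes

open Pool.Bes.h36

section

variable {H : Type v} [NormedAddCommGroup H] [InnerProductSpace ℂ H] [CompleteSpace H]

theorem ext_pr {X Z : S1 H} (h : ∀ Y : H →L[ℂ] H, pr X Y = pr Z Y) : X = Z := by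
  apply S1.toDual_injective
  ext Y
  exact h Y

theorem gam_scale {R : ℝ} (hR : 0 < R) (x : ℂ) : gam R ((R : ℂ) * x) = gam 1 x / R ^ 2 := by
  unfold gam
  have : ‖(R : ℂ) * x‖ ^ 2 / (2 * R ^ 2) = ‖x‖ ^ 2 / (2 * 1 ^ 2) := by
    rw [norm_mul, Complex.norm_real, Real.norm_of_nonneg hR.le]
    have := hR.ne'
    field_simp
  rw [this]
  have := hR.ne'
  field_simp

theorem scale {R : ℝ} (hR : 0 < R) (F : ℂ → ℂ) :
    ∫ q : ℂ, (gam R q : ℂ) * F q = ∫ x : ℂ, (gam 1 x : ℂ) * F ((R : ℂ) * x) := by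
  have hcs := MeasureTheory.Measure.integral_comp_smul (volume : Measure ℂ)
    (fun q => (gam R q : ℂ) * F q) R
  rw [Complex.finrank_real_complex] at hcs
  have h1 : ∀ x : ℂ, (gam R (R • x) : ℂ) * F (R • x) =
      (1 / (R : ℂ) ^ 2) * ((gam 1 x : ℂ) * F ((R : ℂ) * x)) := by
    intro x
    rw [Complex.real_smul, gam_scale hR]
    push_cast
    ring
  simp only [h1] at hcs
  rw [integral_const_mul, abs_of_pos (by positivity), Complex.real_smul] at hcs
  have hR0 : (R : ℂ) ≠ 0 := by exact_mod_cast hR.ne'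
  push_cast at hcs
  rw [one_div] at hcs
  have := mul_left_cancel₀ (inv_ne_zero (pow_ne_zero 2 hR0)) hcs
  exact this.symm

theorem pr_G_sym (hAlg : Stmt_Alg.{v}) (hEx : Stmt_Ex.{v}) (hAv : Stmt_Av.{v}) (P : Pair H) {r : ℝ}
    (hr : 0 < r) (X Z : S1 H) :
    pr Z (star (op (G P r X))) = pr (G P r Z) (star (op X)) := by
  obtain ⟨-, -, -, -, -, -, -, aC, -⟩ := hAlg H
  obtain ⟨-, -, Astar, -⟩ := hEx H P.A P.hA
  obtain ⟨-, -, Bstar, -⟩ := hEx H P.B P.hB
  obtain ⟨-, -, -, -, hop, -⟩ := hAv H P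
  rw [aC, pr_G hAv P hr, pr_G hAv P hr, ← integral_conj]
  rw [← integral_neg_eq_self (fun s : ℂ => (gam r s : ℂ) * pr (tD P s Z) (star (op X)))]
  congr 1
  funext s
  rw [map_mul, Complex.conj_ofReal, ← aC, gam_neg, hop, pr_tD]
  congr 2
  unfold tO
  rw [star_mul, star_mul, Astar, Bstar, neg_neg]

/-- `Commute (fn f N) (dt e N)` -/
theorem comm_fn_dt {N : H →L[ℂ] H} (hN : IsStarNormal N) (f : ℂ → ℂ) (e : ℂ) :
    Commute (fn f N) (dt e N) := by
  unfold fn dt
  have h1 : Commute (cfc f N) N := by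
    have := cfc_commute_cfc f (id : ℂ → ℂ) N
    rwa [cfc_id ℂ N] at this
  have h2 : Commute (cfc f N) (star N) := by
    have := cfc_commute_cfc f (fun z : ℂ => star z) N
    rwa [cfc_star_id N] at this
  exact ((h1.smul_right _).add_right (h2.smul_right _)).smul_right _

/-- the derivative of `tr τ_q X` -/
theorem deriv_y (hAlg : Stmt_Alg.{v}) (hEx : Stmt_Ex.{v}) (hAv : Stmt_Av.{v}) (hDu : Stmt_Du.{v})
    (P : Pair H) (X : S1 H) (q e : ℂ) :
    HasDerivAt (fun c : ℝ => pr (tD P (q + c * e) X) 1)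
      (Complex.I * pr (P.D e) (tO P q (op X))) 0 := by
  obtain ⟨-, -, aS, -⟩ := hAlg H
  obtain ⟨-, -, -, -, -, Bcomm, -⟩ := hEx H P.B P.hB
  obtain ⟨hopD, -⟩ := hDu H P
  obtain ⟨-, -, -, -, hop, -⟩ := hAv H P
  have dA := ex_comp hEx P.hA q e
  have dB := ex_comp_neg hEx P.hB q e
  have d1 := dB.mul dA
  have d2 : HasDerivAt (fun c : ℝ => X.toDual (ex P.B (-(q + c * e)) * ex P.A (q + c * e))) _ 0 :=
    (X.toDual.restrictScalars ℝ).hasFDerivAt.comp_hasDerivAt 0 d1
  have e1 : (fun c : ℝ => pr (tD P (q + c * e) X) 1) =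
      fun c : ℝ => X.toDual (ex P.B (-(q + c * e)) * ex P.A (q + c * e)) := by
    funext c
    rw [pr_tD, one_mul]
    rfl
  rw [e1]
  refine d2.congr_deriv ?_
  rw [← hop, ← aS, hopD, pr_tD]
  change pr X _ = _
  simp only [Complex.ofReal_zero, zero_mul, add_zero]
  rw [← pr_smul_right]
  congr 1
  rw [neg_mul, smul_mul_assoc, mul_smul_comm, sub_mul, mul_sub, smul_sub, neg_add_eq_sub,
    (Bcomm (-q) e).eq, mul_assoc]

/-- the derivative of `tO` -/
theorem deriv_tO (hEx : Stmt_Ex.{v}) (P : Pair H) (Z : S1 H) (Y : H →L[ℂ] H) (q e : ℂ) :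
    HasDerivAt (fun c : ℝ => pr Z (tO P (q + c * e) Y))
      (Complex.I * pr Z (tO P q (dt e P.A * Y - Y * dt e P.B))) 0 := by
  obtain ⟨-, -, -, -, -, Acomm, -⟩ := hEx H P.A P.hA
  have dA := ex_comp hEx P.hA q e
  have dB := ex_comp_neg hEx P.hB q e
  have d1 := (dA.mul_const Y).mul dB
  have d2 : HasDerivAt (fun c : ℝ => Z.toDual (ex P.A (q + c * e) * Y * ex P.B (-(q + c * e)))) _ 0 :=
    (Z.toDual.restrictScalars ℝ).hasFDerivAt.comp_hasDerivAt 0 d1
  refine d2.congr_deriv ?_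
  change pr Z _ = _
  simp only [Complex.ofReal_zero, zero_mul, add_zero]
  rw [← pr_smul_right]
  congr 1
  unfold tO
  rw [(Acomm q e).eq]
  simp only [mul_neg, smul_mul_assoc, mul_smul_comm, mul_sub, sub_mul, smul_sub, mul_assoc]
  abel

/-- first order: integration by parts for the real Gaussian of width one -/
theorem ibp_gam (hAv : Stmt_Av.{v}) (P : Pair H) (v w : ℂ → ℂ) (l : ℂ) (V : ℝ)
    (hv : Continuous v) (hw : Continuous w) (hvb : ∀ x, ‖v x‖ ≤ V) (hwb : ∀ x, ‖w x‖ ≤ V)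
    (hd : ∀ x, HasDerivAt (fun c : ℝ => v (x + c * l)) (w x) 0) :
    Integrable (fun x : ℂ => ((ip l x * gam 1 x : ℝ) : ℂ) * v x) ∧
    ∫ x : ℂ, ((ip l x * gam 1 x : ℝ) : ℂ) * v x = ∫ x : ℂ, (gam 1 x : ℂ) * w x := by
  obtain ⟨-, -, -, -, -, -, -, hg, -⟩ := hAv H P
  have ig := (hg 1 one_pos).2.1
  have i1 : Integrable (fun x : ℂ => ((ip l x * gam 1 x : ℝ) : ℂ) * v x) := by
    refine Integrable.mono' ((int_norm_gam hAv P one_pos).const_mul (‖l‖ * V)) ?_
      (Filter.Eventually.of_forall fun s => ?_)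
    · exact ((Complex.continuous_ofReal.comp ((ip_cont l).mul (gam_cont 1))).mul hv).aestronglyMeasurable
    · rw [norm_mul, Complex.norm_real, Real.norm_eq_abs, abs_mul, abs_of_nonneg (gam_nonneg 1 s)]
      calc |ip l s| * gam 1 s * ‖v s‖ ≤ (‖l‖ * ‖s‖) * gam 1 s * V :=
            mul_le_mul (mul_le_mul_of_nonneg_right (abs_ip_le l s) (gam_nonneg 1 s)) (hvb s)
              (norm_nonneg _) (mul_nonneg (by positivity) (gam_nonneg 1 s))
        _ = ‖l‖ * V * (‖s‖ * gam 1 s) := by ring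
  have i2 : ∀ u : ℂ → ℂ, Continuous u → (∀ x, ‖u x‖ ≤ V) → Integrable (fun x : ℂ => gam 1 x • u x) := by
    intro u hu hub
    refine Integrable.mono' (ig.mul_const V) ?_ (Filter.Eventually.of_forall fun s => ?_)
    · exact ((gam_cont 1).smul hu).aestronglyMeasurable
    · rw [norm_smul, Real.norm_of_nonneg (gam_nonneg 1 s)]
      exact mul_le_mul_of_nonneg_left (hub s) (gam_nonneg 1 s)
  refine ⟨i1, ?_⟩
  have key := integral_bilinear_hasLineDerivAt_right_eq_neg_left_of_integrable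
    (μ := (volume : Measure ℂ)) (f := gam 1) (f' := fun s => -(ip l s / 1 ^ 2) * gam 1 s)
    (g := v) (g' := w) (v := l)
    (B := ContinuousLinearMap.lsmul ℝ ℝ) ?_ ?_ ?_ ?_ ?_
  · simp only [ContinuousLinearMap.lsmul_apply] at key
    have e1 : ∀ s, (gam 1 s : ℂ) * w s = gam 1 s • w s := fun s => (Complex.real_smul).symm
    have e2 : ∀ s, (-(ip l s / 1 ^ 2) * gam 1 s) • v s = -(((ip l s * gam 1 s : ℝ) : ℂ) * v s) := by
      intro s
      rw [Complex.real_smul]
      push_cast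
      ring
    simp only [e2] at key
    rw [integral_neg, neg_neg] at key
    simp only [e1]
    exact key.symm
  · simp only [ContinuousLinearMap.lsmul_apply]
    refine i1.neg.congr (Filter.Eventually.of_forall fun s => ?_)
    simp only [Pi.neg_apply, Complex.real_smul]
    push_cast
    ring
  · simpa only [ContinuousLinearMap.lsmul_apply] using i2 w hw hwb
  · simpa only [ContinuousLinearMap.lsmul_apply] using i2 v hv hvb
  · intro s _
    exact gam_lineDeriv one_pos s l
  · intro s _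
    have := hd s
    unfold HasLineDerivAt
    simpa only [Complex.real_smul] using this

end

theorem blk_FARI (hAlg : Stmt_Alg.{v}) (hEx : Stmt_Ex.{v}) (hAv : Stmt_Av.{v}) (hDu : Stmt_Du.{v})
    (hFn : Stmt_Fn.{v}) (hWt : Stmt_Wt) : Stmt_FarI.{v} := by
  intro H _ _ _ P a ha t ht
  have ialg := hAlg H
  obtain ⟨aL, aR, aS, aI, -, -, aN, aC, -⟩ := ialg
  have iex := hEx H P.A P.hA
  obtain ⟨A0, Aadd, Astar, -, -, -, Acomm, -⟩ := iex
  have iexB := hEx H P.B P.hB
  obtain ⟨B0, Badd, Bstar, -, -, -, Bcomm, -⟩ := iexB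
  have iav := hAv H P
  obtain ⟨-, hnorm, hcont, hcontO, hop, -, -, hg, -, hsemi, -⟩ := iav
  have idu := hDu H P
  obtain ⟨hopD, hnD, -, -, -, -, -, -, -, -, -, -, -, hFd⟩ := idu
  have hd0 := d_nonneg hDu P
  have hai : Integrable a := hWt.1 a ha
  have hcs : Continuous (syn a) := (hFn H P.A P.hA a hai).1
  set X0 := Fd P a with hX0
  set fA := fn (syn a) P.A with hfA
  set fB := fn (syn a) P.B with hfB
  have hop0 : op X0 = fA - fB := (hFd a ha).2.1
  set Δ := op X0 with hΔ
  set Z : ℂ → S1 H := fun e => lm fA (P.D e) - rm fB (P.D e) with hZ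
  have hopZ : ∀ e, op (Z e) = dt e P.A * Δ - Δ * dt e P.B := by
    intro e
    simp only [hZ]
    rw [map_sub, aL, aR, hopD, hop0, mul_sub, sub_mul, mul_sub, sub_mul]
    rw [(comm_fn_dt P.hA (syn a) e).eq, (comm_fn_dt P.hB (syn a) e).eq]
    abel
  -- the functions
  set y : ℂ → ℂ := fun q => pr (tD P q X0) 1 with hy
  set vv1 : ℂ → ℂ → ℂ := fun e q => pr (P.D e) (tO P q Δ) with hvv1
  set w : ℂ → ℂ → ℂ := fun e q => pr (tD P q (Z e)) (op (P.D e)) with hw
  have hw' : ∀ e q, w e q = pr (P.D e) (tO P q (dt e P.A * Δ - Δ * dt e P.B)) := by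
    intro e q
    simp only [hw]
    rw [aS, hop, hopZ]
  have hycont : Continuous y := by
    simp only [hy]
    exact (prL (1 : H →L[ℂ] H)).continuous.comp (hcont X0)
  have hvcont : ∀ e, Continuous (vv1 e) := by
    intro e
    simp only [hvv1]
    exact (P.D e).toDual.continuous.comp (hcontO Δ)
  have hwcont : ∀ e, Continuous (w e) := by
    intro e
    simp only [hw]
    exact (prL (op (P.D e))).continuous.comp (hcont (Z e))
  have hyb : ∀ q, ‖y q‖ ≤ ‖X0‖ := by
    intro q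
    refine (aN _ _).trans ?_
    rw [hnorm]
    calc ‖X0‖ * ‖(1 : H →L[ℂ] H)‖ ≤ ‖X0‖ * 1 :=
          mul_le_mul_of_nonneg_left (ContinuousLinearMap.norm_id_le) (norm_nonneg _)
      _ = ‖X0‖ := mul_one _
  have hvb : ∀ e q, ‖vv1 e q‖ ≤ ‖X0‖ * ‖P.D e‖ := by
    intro e q
    simp only [hvv1]
    rw [← hop, ← aS]
    refine (aN _ _).trans ?_
    rw [hnorm]
    exact mul_le_mul_of_nonneg_left (norm_op_le _) (norm_nonneg _)
  have hwb : ∀ e q, ‖w e q‖ ≤ ‖Z e‖ * ‖P.D e‖ := by
    intro e q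
    simp only [hw]
    refine (aN _ _).trans ?_
    rw [hnorm]
    exact mul_le_mul_of_nonneg_left (norm_op_le _) (norm_nonneg _)
  have dy : ∀ q e, HasDerivAt (fun c : ℝ => y (q + c * e)) (Complex.I * vv1 e q) 0 := fun q e =>
    deriv_y hAlg hEx hAv hDu P X0 q e
  have dv : ∀ q e, HasDerivAt (fun c : ℝ => vv1 e (q + c * e)) (Complex.I * w e q) 0 := by
    intro q e
    rw [hw']
    exact deriv_tO hEx P (P.D e) Δ q e
  have vlin : ∀ (x q : ℂ), vv1 x q = (x.re : ℂ) * vv1 1 q + (x.im : ℂ) * vv1 Complex.I q := by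
    intro x q
    simp only [hvv1]
    rw [D_eq P x, pr_add, pr_smul, pr_smul]
  have hs2 : 0 < Real.sqrt 2 := by positivity
  set s2 : ℝ := Real.sqrt 2 with hs2def
  have hs22 : s2 * s2 = 2 := Real.mul_self_sqrt (by norm_num)
  set g : ℝ → ℂ := fun r => ∫ x : ℂ, (gam 1 x : ℂ) * y (((s2 * r : ℝ) : ℂ) * x) with hgdef
  set J : ℝ → ℂ := fun r => (2 * r : ℂ) * ((∫ x : ℂ, (gam 1 x : ℂ) * w 1 (((s2 * r : ℝ) : ℂ) * x)) +
    ∫ x : ℂ, (gam 1 x : ℂ) * w Complex.I (((s2 * r : ℝ) : ℂ) * x)) with hJ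
  have ig := (hg 1 one_pos).2.1
  -- derivative of `g`
  have dg : ∀ r : ℝ, HasDerivAt g (-J r) r := by
    intro r
    have hd1 : ∀ x : ℂ, ∀ r : ℝ, HasDerivAt (fun r' : ℝ => (gam 1 x : ℂ) * y (((s2 * r' : ℝ) : ℂ) * x))
        ((gam 1 x : ℂ) * (Complex.I * vv1 ((s2 : ℂ) * x) (((s2 * r : ℝ) : ℂ) * x))) r := by
      intro x r
      have h1 := dy (((s2 * r : ℝ) : ℂ) * x) ((s2 : ℂ) * x)
      have h2 : HasDerivAt (fun c : ℝ => y (((s2 * r : ℝ) : ℂ) * x + c * ((s2 : ℂ) * x)))
          (Complex.I * vv1 ((s2 : ℂ) * x) (((s2 * r : ℝ) : ℂ) * x)) (r - r) := by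
        rw [sub_self]; exact h1
      have h3 := (h2.comp_sub_const r r).const_mul (gam 1 x : ℂ)
      have e1 : (fun r' : ℝ => (gam 1 x : ℂ) *
          y (((s2 * r : ℝ) : ℂ) * x + ((r' - r : ℝ) : ℂ) * ((s2 : ℂ) * x))) =
          fun r' : ℝ => (gam 1 x : ℂ) * y (((s2 * r' : ℝ) : ℂ) * x) := by
        funext r'
        congr 2
        push_cast
        ring
      rw [e1] at h3
      exact h3
    have h := (hasDerivAt_integral_of_dominated_loc_of_deriv_le
      (F := fun (r : ℝ) (x : ℂ) => (gam 1 x : ℂ) * y (((s2 * r : ℝ) : ℂ) * x))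
      (F' := fun (r : ℝ) (x : ℂ) =>
        (gam 1 x : ℂ) * (Complex.I * vv1 ((s2 : ℂ) * x) (((s2 * r : ℝ) : ℂ) * x)))
      (bound := fun x : ℂ => (‖X0‖ * s2 * P.d) * (‖x‖ * gam 1 x)) (μ := (volume : Measure ℂ))
      (x₀ := r) (s := Set.univ) Filter.univ_mem ?_ ?_ ?_ ?_ ?_ ?_).2
    · refine h.congr_deriv ?_
      -- integrate by parts
      have hc : ∀ x : ℂ, Continuous fun x : ℂ => ((s2 * r : ℝ) : ℂ) * x := fun _ => by fun_prop
      have ibp : ∀ l : ℂ, _ := fun l => ibp_gam hAv P (fun x => vv1 l (((s2 * r : ℝ) : ℂ) * x))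
        (fun x => ((s2 * r : ℝ) : ℂ) * (Complex.I * w l (((s2 * r : ℝ) : ℂ) * x))) l
        (max (‖X0‖ * ‖P.D l‖) (|s2 * r| * (‖Z l‖ * ‖P.D l‖)))
        ((hvcont l).comp (by fun_prop)) (by
          have := (hwcont l).comp (hc 0)
          fun_prop)
        (fun x => (hvb l _).trans (le_max_left _ _))
        (fun x => by
          refine le_trans ?_ (le_max_right _ _)
          rw [norm_mul, norm_mul, Complex.norm_I, one_mul, Complex.norm_real, Real.norm_eq_abs]
          exact mul_le_mul_of_nonneg_left (hwb l _) (abs_nonneg _))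
        (fun x => by
          have h1 := dv (((s2 * r : ℝ) : ℂ) * x) l
          have h2 : HasDerivAt (fun c : ℝ => s2 * r * c) (s2 * r) 0 := by
            simpa using (hasDerivAt_id (0 : ℝ)).const_mul (s2 * r)
          have h1' : HasDerivAt (fun c : ℝ => vv1 l (((s2 * r : ℝ) : ℂ) * x + c * l))
              (Complex.I * w l (((s2 * r : ℝ) : ℂ) * x)) ((fun c : ℝ => s2 * r * c) 0) := by
            simpa using h1
          have h3 := h1'.scomp (0 : ℝ) h2
          rw [Complex.real_smul] at h3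
          have e1 : ((fun c : ℝ => vv1 l (((s2 * r : ℝ) : ℂ) * x + c * l)) ∘ fun c : ℝ => s2 * r * c) =
              fun c : ℝ => vv1 l (((s2 * r : ℝ) : ℂ) * (x + c * l)) := by
            funext c
            simp only [Function.comp]
            congr 1
            push_cast
            ring
          rw [e1] at h3
          exact h3)
      obtain ⟨j1, k1⟩ := ibp 1
      obtain ⟨j2, k2⟩ := ibp Complex.I
      have e1 : ∀ x : ℂ, ip 1 x = x.re := fun x => by unfold ip; simp
      have e2 : ∀ x : ℂ, ip Complex.I x = x.im := fun x => by unfold ip; simp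
      have e3 : ∀ x : ℂ, (gam 1 x : ℂ) * (Complex.I * vv1 ((s2 : ℂ) * x) (((s2 * r : ℝ) : ℂ) * x)) =
          (Complex.I * s2) * (((ip 1 x * gam 1 x : ℝ) : ℂ) * vv1 1 (((s2 * r : ℝ) : ℂ) * x)) +
          (Complex.I * s2) * (((ip Complex.I x * gam 1 x : ℝ) : ℂ) *
            vv1 Complex.I (((s2 * r : ℝ) : ℂ) * x)) := by
        intro x
        rw [vlin, e1, e2]
        simp only [Complex.mul_re, Complex.mul_im, Complex.ofReal_re, Complex.ofReal_im, zero_mul,
          sub_zero, add_zero]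
        push_cast
        ring
      have e4 : ∀ (l : ℂ), ∫ x : ℂ, (gam 1 x : ℂ) *
          (((s2 * r : ℝ) : ℂ) * (Complex.I * w l (((s2 * r : ℝ) : ℂ) * x))) =
          ((s2 * r : ℝ) : ℂ) * Complex.I * ∫ x : ℂ, (gam 1 x : ℂ) * w l (((s2 * r : ℝ) : ℂ) * x) := by
        intro l
        rw [← integral_const_mul]
        congr 1
        funext x
        ring
      simp only [e3]
      rw [integral_add (j1.const_mul _) (j2.const_mul _), integral_const_mul, integral_const_mul, k1, k2,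
        e4, e4]
      simp only [hJ]
      have e5 : (s2 : ℂ) * s2 = 2 := by exact_mod_cast hs22
      push_cast
      linear_combination (-(r : ℂ) * ((∫ x : ℂ, (gam 1 x : ℂ) * w 1 ((s2 : ℂ) * r * x)) +
        ∫ x : ℂ, (gam 1 x : ℂ) * w Complex.I ((s2 : ℂ) * r * x))) * e5 +
        (r : ℂ) * s2 * s2 * ((∫ x : ℂ, (gam 1 x : ℂ) * w 1 ((s2 : ℂ) * r * x)) +
        ∫ x : ℂ, (gam 1 x : ℂ) * w Complex.I ((s2 : ℂ) * r * x)) * Complex.I_mul_I
    · refine Filter.Eventually.of_forall fun r => ?_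
      exact ((Complex.continuous_ofReal.comp (gam_cont 1)).mul
        (hycont.comp (by fun_prop))).aestronglyMeasurable
    · refine Integrable.mono' (ig.mul_const ‖X0‖) ?_ (Filter.Eventually.of_forall fun x => ?_)
      · exact ((Complex.continuous_ofReal.comp (gam_cont 1)).mul
          (hycont.comp (by fun_prop))).aestronglyMeasurable
      · rw [norm_mul, Complex.norm_real, Real.norm_of_nonneg (gam_nonneg 1 x)]
        exact mul_le_mul_of_nonneg_left (hyb _) (gam_nonneg 1 x)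
    · have hvc : Continuous fun x : ℂ => vv1 ((s2 : ℂ) * x) (((s2 * r : ℝ) : ℂ) * x) := by
        have h1 := (hvcont 1).comp (show Continuous fun x : ℂ => ((s2 * r : ℝ) : ℂ) * x by fun_prop)
        have h2 := (hvcont Complex.I).comp (show Continuous fun x : ℂ => ((s2 * r : ℝ) : ℂ) * x by fun_prop)
        simp only [Function.comp_def] at h1 h2
        have e : (fun x : ℂ => vv1 ((s2 : ℂ) * x) (((s2 * r : ℝ) : ℂ) * x)) = fun x : ℂ =>
            ((((s2 : ℂ) * x).re : ℝ) : ℂ) * vv1 1 (((s2 * r : ℝ) : ℂ) * x) +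
            ((((s2 : ℂ) * x).im : ℝ) : ℂ) * vv1 Complex.I (((s2 * r : ℝ) : ℂ) * x) := by
          funext x
          exact vlin _ _
        rw [e]
        fun_prop
      exact ((Complex.continuous_ofReal.comp (gam_cont 1)).mul (continuous_const.mul hvc)).aestronglyMeasurable
    · refine Filter.Eventually.of_forall fun x r _ => ?_
      rw [norm_mul, norm_mul, Complex.norm_I, one_mul, Complex.norm_real, Real.norm_of_nonneg (gam_nonneg 1 x)]
      have h1 : ‖P.D ((s2 : ℂ) * x)‖ ≤ s2 * ‖x‖ * P.d := by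
        refine (hnD _).trans (le_of_eq ?_)
        rw [norm_mul, Complex.norm_real, Real.norm_of_nonneg hs2.le]
      calc gam 1 x * ‖vv1 ((s2 : ℂ) * x) (((s2 * r : ℝ) : ℂ) * x)‖
          ≤ gam 1 x * (‖X0‖ * (s2 * ‖x‖ * P.d)) := by
            apply mul_le_mul_of_nonneg_left _ (gam_nonneg 1 x)
            exact (hvb _ _).trans (mul_le_mul_of_nonneg_left h1 (norm_nonneg _))
        _ = (‖X0‖ * s2 * P.d) * (‖x‖ * gam 1 x) := by ring
    · exact (int_norm_gam hAv P one_pos).const_mul _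
    · exact Filter.Eventually.of_forall fun x r _ => hd1 x r
  -- continuity of `J`
  have hJc : Continuous J := by
    have h1 : ∀ l : ℂ, Continuous fun r : ℝ => ∫ x : ℂ, (gam 1 x : ℂ) * w l (((s2 * r : ℝ) : ℂ) * x) := by
      intro l
      refine continuous_of_dominated (bound := fun x => gam 1 x * (‖Z l‖ * ‖P.D l‖)) ?_ ?_
        (ig.mul_const _) ?_
      · intro r
        exact ((Complex.continuous_ofReal.comp (gam_cont 1)).mul
          ((hwcont l).comp (by fun_prop))).aestronglyMeasurable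
      · intro r
        refine Filter.Eventually.of_forall fun x => ?_
        rw [norm_mul, Complex.norm_real, Real.norm_of_nonneg (gam_nonneg 1 x)]
        exact mul_le_mul_of_nonneg_left (hwb l _) (gam_nonneg 1 x)
      · refine Filter.Eventually.of_forall fun x => ?_
        exact continuous_const.mul ((hwcont l).comp (by fun_prop))
    simp only [hJ]
    exact (continuous_const.mul Complex.continuous_ofReal).mul ((h1 1).add (h1 Complex.I))
  have hFTC : ∫ r in (0 : ℝ)..t, J r = g 0 - g t := by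
    have h1 := intervalIntegral.integral_eq_sub_of_hasDerivAt (a := 0) (b := t) (f := g)
      (f' := fun r => -J r) (fun r _ => dg r) (hJc.neg.intervalIntegrable 0 t)
    rw [intervalIntegral.integral_neg] at h1
    rw [← neg_neg (∫ r in (0 : ℝ)..t, J r), h1]
    ring
  -- the boundary terms
  have hg0 : g 0 = T P a := by
    simp only [hgdef, mul_zero, Complex.ofReal_zero, zero_mul]
    rw [integral_mul_const, integral_complex_ofReal, (hg 1 one_pos).1]
    simp only [hy, pr_tD, neg_zero, A0, B0, one_mul, Complex.ofReal_one]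
    rfl
  have hgt : g t = Nt P t a := by
    have hR : 0 < s2 * t := by positivity
    unfold Nt tr
    rw [pr_G hAv P hR, scale hR]
  -- the integrand
  have hfm : ∀ (e : ℂ) (r : ℝ), 0 < r → fm (G P r (P.D e)) fA 1 - fm (G P r (P.D e)) 1 fB =
      ∫ x : ℂ, (gam 1 x : ℂ) * w e (((s2 * r : ℝ) : ℂ) * x) := by
    intro e r hr
    have hR : 0 < s2 * r := by positivity
    have hDs : star (op (P.D e)) = op (P.D e) := by
      rw [hopD, star_sub, star_dt, star_dt]
    have c1 : lm fA (G P r (P.D e)) = G P r (lm fA (P.D e)) := by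
      refine G_clm hAv P hr (lm fA) (fun s X => ?_) (P.D e)
      apply ext_pr
      intro Y
      rw [pr_lm, pr_tD, pr_tD, pr_lm]
      congr 1
      have := (Acomm (syn a) s hcs).eq
      rw [← hfA] at this
      simp only [mul_assoc, this]
    have c2 : rm fB (G P r (P.D e)) = G P r (rm fB (P.D e)) := by
      refine G_clm hAv P hr (rm fB) (fun s X => ?_) (P.D e)
      apply ext_pr
      intro Y
      rw [pr_rm, pr_tD, pr_tD, pr_rm]
      congr 1
      have := (Bcomm (syn a) (-s) hcs).eq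
      rw [← hfB] at this
      simp only [← mul_assoc, this]
    have c3 : lm fA (G P r (P.D e)) - rm fB (G P r (P.D e)) = G P r (Z e) := by
      rw [c1, c2]
      simp only [hZ]
      have : lm fA (P.D e) - rm fB (P.D e) = lm fA (P.D e) + (-1 : ℂ) • rm fB (P.D e) := by
        rw [neg_one_smul, sub_eq_add_neg]
      rw [this, G_add hAv P hr, G_smul, neg_one_smul, sub_eq_add_neg]
    have c4 : fm (G P r (P.D e)) fA 1 - fm (G P r (P.D e)) 1 fB =
        pr (lm fA (G P r (P.D e)) - rm fB (G P r (P.D e))) (star (op (G P r (P.D e)))) := by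
      unfold fm
      rw [pr_sub, pr_lm, pr_rm, one_mul, mul_one]
    rw [c4, c3, pr_G_sym hAlg hEx hAv P hr, hDs, hsemi r r _ hr hr]
    have e1 : Real.sqrt (r ^ 2 + r ^ 2) = s2 * r := by
      rw [show r ^ 2 + r ^ 2 = 2 * r ^ 2 by ring, Real.sqrt_mul (by norm_num), Real.sqrt_sq hr.le]
    rw [e1, pr_G hAv P hR, scale hR]
  rw [← hg0, ← hgt, ← hFTC]
  refine intervalIntegral.integral_congr fun r hr => ?_
  rw [Set.uIcc_of_le ht.le] at hr
  rcases hr.1.eq_or_lt with h0 | h0
  · rw [← h0]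
    simp [hJ]
  · simp only [hJ]
    rw [hfm 1 r h0, hfm Complex.I r h0]

end Pool.Bes
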