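import Pool.Agent.Work.Bes.Interface

/-!
# Block FINAL: the theorem for functions
-/

open MeasureTheory Complex Finset
open scoped ComplexOrder InnerProductSpace ComplexConjugate

set_option autoImplicit false
set_option linter.unusedSectionVars false

universe v

namespace Pool.Bes

namespace FIN

theorem doubling (f : ℂ → ℂ) (r V : ℝ)
    (h : ∀ z h : ℂ, ‖h‖ ≤ r → ‖f (z + h) + f (z - h) - 2 * f z‖ ≤ V) (z k : ℂ)
    (hk : ‖k‖ ≤ 2 * r) : ‖f (z + k) + f (z - k) - 2 * f z‖ ≤ 4 * V := by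
  have h1 : ‖k / 2‖ ≤ r := by
    rw [norm_div, Complex.norm_ofNat]
    linarith
  have e : f (z + k) + f (z - k) - 2 * f z =
      (f ((z + k / 2) + k / 2) + f ((z + k / 2) - k / 2) - 2 * f (z + k / 2)) +
      2 * (f (z + k / 2) + f (z - k / 2) - 2 * f z) +
      (f ((z - k / 2) + k / 2) + f ((z - k / 2) - k / 2) - 2 * f (z - k / 2)) := by
    have a1 : z + k / 2 + k / 2 = z + k := by ring
    have a2 : z + k / 2 - k / 2 = z := by ring
    have a3 : z - k / 2 + k / 2 = z := by ring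
    have a4 : z - k / 2 - k / 2 = z - k := by ring
    rw [a1, a2, a3, a4]
    ring
  rw [e]
  have b1 := h (z + k / 2) (k / 2) h1
  have b2 := h z (k / 2) h1
  have b3 := h (z - k / 2) (k / 2) h1
  have c1 := norm_add₃_le (a := f ((z + k / 2) + k / 2) + f ((z + k / 2) - k / 2) - 2 * f (z + k / 2))
    (b := 2 * (f (z + k / 2) + f (z - k / 2) - 2 * f z))
    (c := f ((z - k / 2) + k / 2) + f ((z - k / 2) - k / 2) - 2 * f (z - k / 2))
  have c2 : ‖2 * (f (z + k / 2) + f (z - k / 2) - 2 * f z)‖ ≤ 2 * V := by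
    rw [norm_mul, Complex.norm_ofNat]
    linarith
  linarith

theorem hasTrace_add {H : Type v} [NormedAddCommGroup H] [InnerProductSpace ℂ H] [CompleteSpace H]
    {T S : H →L[ℂ] H} {c d : ℂ} (h1 : HasTrace T c) (h2 : HasTrace S d) :
    HasTrace (T + S) (c + d) := by
  intro ι _ e
  have := (h1 ι e).add (h2 ι e)
  simpa only [_root_.add_apply, inner_add_right] using this

theorem hasTrace_smul {H : Type v} [NormedAddCommGroup H] [InnerProductSpace ℂ H]
    [CompleteSpace H] {T : H →L[ℂ] H} {c : ℂ} (k : ℂ) (h1 : HasTrace T c) :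
    HasTrace (k • T) (k * c) := by
  intro ι _ e
  have := (h1 ι e).mul_left k
  simpa only [_root_.smul_apply, inner_smul_right] using this

/-- the real case -/
theorem real_case (hMid : Stmt_Mid.{v}) (hFour : Stmt_Four) (hLPS : Stmt_LPS) (hTN : Stmt_TN.{v})
    (hHT : Stmt_HT.{v}) (hAlg : Stmt_Alg.{v}) (hDu : Stmt_Du.{v}) :
    ∃ C : ℝ, 0 ≤ C ∧ ∀ (H : Type v) [NormedAddCommGroup H]
    [InnerProductSpace ℂ H] [CompleteSpace H] (N₁ N₂ : H →L[ℂ] H), IsStarNormal N₁ →
    IsStarNormal N₂ → ∀ M : ℝ, TraceNormLE (N₂ - N₁) M → ∀ R : ℝ, 0 < R → ‖N₂ - N₁‖ ≤ R →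
    ∀ f : ℂ → ℂ, ContDiff ℝ (⊤ : ℕ∞) f → HasCompactSupport f → (∀ z, (f z).im = 0) →
    ∀ (L : ℝ) (w : ℕ → ℝ),
    (∀ z : ℂ, ‖fderiv ℝ f z‖ ≤ L) → Summable (fun j => w j ^ 2) →
    (∀ (j : ℕ) (z h : ℂ), ‖h‖ ≤ R / 2 ^ j → ‖f (z + h) + f (z - h) - 2 * f z‖ ≤ w j * (R / 2 ^ j)) →
    ∃ c : ℂ, HasTrace (cfc f N₂ - cfc f N₁) c ∧
      ‖c‖ ≤ C * M * (L + Real.sqrt (∑' j, w j ^ 2)) := by
  obtain ⟨C, hC0, hC⟩ := hMid
  refine ⟨88 * C, by positivity, ?_⟩
  intro H _ _ _ N₁ N₂ h₁ h₂ M hM R hR hNR f hf hfc hre L w hL hw hdiff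
  obtain ⟨P, hPA, hPB, hPd⟩ := hTN H N₁ N₂ h₁ h₂ M hM
  obtain ⟨a, ha, hsyn, hder⟩ := hFour f hf hfc
  have hL0 : 0 ≤ L := (norm_nonneg _).trans (hL 0)
  have hd : 0 ≤ M := by
    have h := P.hd 1
    rw [norm_one, one_mul, hPd] at h
    exact (norm_nonneg _).trans h
  set S := Real.sqrt (∑' j, w j ^ 2) with hS
  have hS0 : 0 ≤ S := Real.sqrt_nonneg _
  have hSS : S ^ 2 = ∑' j, w j ^ 2 := Real.sq_sqrt (tsum_nonneg fun _ => sq_nonneg _)
  -- Littlewood-Paley data
  let D : LP :=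
    { a := a
      ha := ha
      l := 4 * R
      hl := by positivity
      L := L
      hL := by
        intro e z
        rw [hder e z]
        refine ((fderiv ℝ f z).le_opNorm e).trans ?_
        rw [mul_comm]
        exact mul_le_mul_of_nonneg_left (hL z) (norm_nonneg _)
      m := fun i => if i = 0 then L else 88 * w i
      m0 := by simp
      hm := by
        intro i hi z
        have hi0 : i ≠ 0 := by omega
        rw [if_neg hi0]
        have hρ : 0 < 4 * R / 2 ^ i := by positivity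
        have h1 : ∀ h z : ℂ, ‖h‖ ≤ 4 * R / 2 ^ i →
            ‖syn a (z + h) + syn a (z - h) - 2 * syn a z‖ ≤ 4 * (4 * (w i * (R / 2 ^ i))) := by
          intro h z hh
          rw [hsyn, hsyn, hsyn]
          refine doubling f (2 * (R / 2 ^ i)) _ ?_ z h (hh.trans (le_of_eq (by ring)))
          intro z h hh
          exact doubling f (R / 2 ^ i) _ (fun z h => hdiff i z h) z h hh
        have h2 := hLPS a ha (4 * R / 2 ^ i) _ hρ h1 z
        refine h2.trans (le_of_eq ?_)
        ring }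
  have hreal : ∀ z, (syn D.a z).im = 0 := fun z => by
    change (syn a z).im = 0
    rw [hsyn]
    exact hre z
  have hAB : 3 * ‖P.A - P.B‖ ≤ D.l := by
    rw [hPA, hPB]
    change 3 * ‖N₂ - N₁‖ ≤ 4 * R
    linarith
  have hsum : ∀ K, ∑ i ∈ range K, D.m i ^ 2 ≤ (88 * (L + S)) ^ 2 := by
    intro K
    have h1 : ∀ i, D.m i ^ 2 ≤ (if i = 0 then L ^ 2 else 0) + 88 ^ 2 * w i ^ 2 := by
      intro i
      change (if i = 0 then L else 88 * w i) ^ 2 ≤ _
      by_cases hi : i = 0
      · rw [if_pos hi, if_pos hi]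
        have := sq_nonneg (w i)
        linarith
      · rw [if_neg hi, if_neg hi]
        linarith
    have h2 : ∑ i ∈ range K, D.m i ^ 2 ≤ L ^ 2 + 88 ^ 2 * S ^ 2 := by
      refine (sum_le_sum fun i _ => h1 i).trans ?_
      rw [sum_add_distrib, ← mul_sum]
      refine add_le_add ?_ (mul_le_mul_of_nonneg_left ?_ (by norm_num))
      · rw [sum_ite_eq' (range K) 0 (fun _ => L ^ 2)]
        split_ifs
        · exact le_rfl
        · positivity
      · rw [hSS]
        exact hw.sum_le_tsum _ fun _ _ => sq_nonneg _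
    refine h2.trans ?_
    nlinarith [mul_nonneg hL0 hS0, sq_nonneg L, sq_nonneg S]
  have key := hC H P D hreal hAB (88 * (L + S)) hsum (by positivity)
  have hDu' := ((hDu H P).2.2.2.2.2.2.2.2.2.2.2.2.2 a ha).2.1
  have hsa : syn a = f := funext hsyn
  rw [hsa, hPA, hPB] at hDu'
  have hstar : ∀ N : H →L[ℂ] H, IsStarNormal N → star (fn f N) = fn f N := by
    intro N hN
    rw [fn, ← cfc_star]
    refine cfc_congr fun z _ => ?_
    exact Complex.conj_eq_iff_im.2 (hre z)
  have hself : star (op (Fd P a)) = op (Fd P a) := by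
    rw [hDu', star_sub, hstar N₂ h₂, hstar N₁ h₁]
  have hT : (T P a).im = 0 := by
    have h := (hAlg H).2.2.2.2.2.2.2.2 (Fd P a) hself 1
    rw [star_one] at h
    exact Complex.conj_eq_iff_im.1 h.symm
  refine ⟨T P a, ?_, ?_⟩
  · have := hHT H (Fd P a)
    rw [hDu'] at this
    exact this
  · have h1 : ‖T P a‖ = |(T P a).re| := by
      have : T P a = ((T P a).re : ℂ) := by
        apply Complex.ext
        · simp
        · simp [hT]
      rw [this, Complex.norm_real, Complex.ofReal_re]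
      rfl
    rw [h1]
    rw [hPd] at key
    refine key.trans (le_of_eq ?_)
    ring

end FIN

open FIN

theorem blk_FINAL (hMid : Stmt_Mid.{v}) (hFour : Stmt_Four) (hLPS : Stmt_LPS) (hTN : Stmt_TN.{v})
    (hHT : Stmt_HT.{v}) (hAlg : Stmt_Alg.{v}) (hDu : Stmt_Du.{v}) : Stmt_Final.{v} := by
  obtain ⟨C, hC0, hC⟩ := real_case hMid hFour hLPS hTN hHT hAlg hDu
  refine ⟨2 * C, by positivity, ?_⟩
  intro H _ _ _ N₁ N₂ h₁ h₂ M hM R hR hNR f hf hfc L w hL hw hdiff
  have main : ∀ Λ : ℂ →L[ℝ] ℂ, ‖Λ‖ ≤ 1 → (∀ z, (Λ z).im = 0) → ∃ c : ℂ,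
      HasTrace (cfc (fun z => Λ (f z)) N₂ - cfc (fun z => Λ (f z)) N₁) c ∧
      ‖c‖ ≤ C * M * (L + Real.sqrt (∑' j, w j ^ 2)) := by
    intro Λ hΛ him
    refine hC H N₁ N₂ h₁ h₂ M hM R hR hNR (fun z => Λ (f z)) (Λ.contDiff.comp hf) ?_
      (fun z => him _) L w ?_ hw ?_
    · exact hfc.comp_left (map_zero Λ)
    · intro z
      have h1 : fderiv ℝ (fun z => Λ (f z)) z = Λ.comp (fderiv ℝ f z) :=
        ((Λ.hasFDerivAt (x := f z)).comp z
          ((hf.differentiable (by simp)) z).hasFDerivAt).fderiv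
      rw [h1]
      refine (Λ.opNorm_comp_le _).trans ?_
      calc _ ≤ 1 * ‖fderiv ℝ f z‖ := mul_le_mul_of_nonneg_right hΛ (norm_nonneg _)
        _ ≤ L := by rw [one_mul]; exact hL z
    · intro j z h hh
      have h1 : Λ (f (z + h)) + Λ (f (z - h)) - 2 * Λ (f z) =
          Λ (f (z + h) + f (z - h) - 2 * f z) := by
        have h2 : (2 : ℂ) * f z = (2 : ℝ) • f z := by
          rw [Complex.real_smul]
          norm_num
        have h3 : (2 : ℂ) * Λ (f z) = (2 : ℝ) • Λ (f z) := by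
          rw [Complex.real_smul]
          norm_num
        rw [h2, h3, map_sub, map_add, map_smul]
      rw [h1]
      refine (Λ.le_opNorm _).trans ?_
      calc _ ≤ 1 * ‖f (z + h) + f (z - h) - 2 * f z‖ :=
            mul_le_mul_of_nonneg_right hΛ (norm_nonneg _)
        _ ≤ w j * (R / 2 ^ j) := by rw [one_mul]; exact hdiff j z h hh
  obtain ⟨c₁, t₁, n₁⟩ := main (Complex.ofRealCLM.comp Complex.reCLM)
    ((ContinuousLinearMap.opNorm_comp_le _ _).trans (by simp)) (fun z => by simp)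
  obtain ⟨c₂, t₂, n₂⟩ := main (Complex.ofRealCLM.comp Complex.imCLM)
    ((ContinuousLinearMap.opNorm_comp_le _ _).trans (by simp)) (fun z => by simp)
  refine ⟨c₁ + Complex.I * c₂, ?_, ?_⟩
  · have h1 := hasTrace_add t₁ (hasTrace_smul Complex.I t₂)
    have h2 : ∀ N : H →L[ℂ] H, IsStarNormal N → cfc f N =
        cfc (fun z => (Complex.ofRealCLM.comp Complex.reCLM) (f z)) N +
          Complex.I • cfc (fun z => (Complex.ofRealCLM.comp Complex.imCLM) (f z)) N := by
      intro N hN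
      have c1 : ContinuousOn (fun z => (Complex.ofRealCLM.comp Complex.reCLM) (f z))
          (spectrum ℂ N) :=
        ((Complex.ofRealCLM.comp Complex.reCLM).continuous.comp hf.continuous).continuousOn
      have c2 : ContinuousOn (fun z => (Complex.ofRealCLM.comp Complex.imCLM) (f z))
          (spectrum ℂ N) :=
        ((Complex.ofRealCLM.comp Complex.imCLM).continuous.comp hf.continuous).continuousOn
      rw [← cfc_const_mul Complex.I _ N c2, ← cfc_add N _ _ c1 (c2.const_mul _)]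
      refine cfc_congr fun z _ => ?_
      simp only [ContinuousLinearMap.comp_apply, Complex.reCLM_apply, Complex.imCLM_apply,
        Complex.ofRealCLM_apply]
      rw [mul_comm]
      exact (Complex.re_add_im (f z)).symm
    rw [h2 N₂ h₂, h2 N₁ h₁]
    have h3 : ∀ a b c d : H →L[ℂ] H, a + Complex.I • b - (c + Complex.I • d) =
        (a - c) + Complex.I • (b - d) := by
      intro a b c d
      rw [smul_sub]
      abel
    rw [h3]
    exact h1
  · refine (norm_add_le _ _).trans ?_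
    rw [norm_mul, Complex.norm_I, one_mul]
    linarith

end Pool.Bes
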