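import Pool.Agent.Work.Bes.EX

/-! # Block FN: functions with an integrable Fourier density -/

open MeasureTheory Complex
open scoped ComplexOrder InnerProductSpace ComplexConjugate

set_option autoImplicit false
set_option linter.unusedSectionVars false

universe v

namespace Pool.Bes

namespace FNB

open EXB

theorem integrable_mul_ch (a : ℂ → ℂ) (ha : Integrable a) (z : ℂ) :
    Integrable fun ξ => a ξ * ch ξ z := by
  refine ha.mul_bdd (c := 1) ?_ ?_
  · exact (continuous_ch₂.comp (Continuous.prodMk_left z)).aestronglyMeasurable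
  · exact Filter.Eventually.of_forall fun ξ => (norm_ch ξ z).le

theorem continuous_syn (a : ℂ → ℂ) (ha : Integrable a) : Continuous (syn a) := by
  refine MeasureTheory.continuous_of_dominated (F := fun z ξ => a ξ * ch ξ z)
    (bound := fun ξ => ‖a ξ‖) ?_ ?_ ha.norm ?_
  · exact fun z => (integrable_mul_ch a ha z).aestronglyMeasurable
  · refine fun z => Filter.Eventually.of_forall fun ξ => ?_
    rw [norm_mul, norm_ch, mul_one]
  · exact Filter.Eventually.of_forall fun ξ => continuous_const.mul (continuous_ch ξ)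

theorem syn_ch_mul (a : ℂ → ℂ) (n z : ℂ) : syn (fun ξ => ch ξ n * a ξ) z = syn a (z + n) := by
  rw [syn, syn]
  congr 1
  funext ξ
  rw [ch_add_right]
  ring

theorem norm_syn_le (a : ℂ → ℂ) (z : ℂ) : ‖syn a z‖ ≤ ∫ ξ, ‖a ξ‖ := by
  refine (norm_integral_le_integral_norm _).trans (le_of_eq ?_)
  congr 1
  funext ξ
  rw [norm_mul, norm_ch, mul_one]

section

variable {H : Type v} [NormedAddCommGroup H] [InnerProductSpace ℂ H] [CompleteSpace H]

theorem integrable_smul_ex (N : H →L[ℂ] H) (a : ℂ → ℂ) (ha : Integrable a) :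
    Integrable fun ξ => a ξ • ex N ξ := by
  refine Integrable.mono' ha.norm ?_ ?_
  · exact ha.aestronglyMeasurable.smul (continuous_ex N).aestronglyMeasurable
  · refine Filter.Eventually.of_forall fun ξ => ?_
    rw [norm_smul]
    exact mul_le_of_le_one_right (norm_nonneg _) (norm_ex_le N ξ)

theorem fn_syn (N : H →L[ℂ] H) (hN : IsStarNormal N) (a : ℂ → ℂ) (ha : Integrable a) :
    fn (syn a) N = ∫ ξ, a ξ • ex N ξ := by
  let K : ℂ → C(spectrum ℂ N, ℂ) := fun ξ => ⟨fun z => ch ξ z,
    (continuous_ch ξ).comp continuous_subtype_val⟩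
  have hK : Continuous K := by
    let G : C(ℂ × spectrum ℂ N, ℂ) := ⟨fun p => ch p.1 p.2,
      continuous_ch₂.comp (continuous_fst.prodMk (continuous_subtype_val.comp continuous_snd))⟩
    exact G.curry.continuous
  have hK1 : ∀ ξ, ‖K ξ‖ ≤ 1 := fun ξ =>
    (ContinuousMap.norm_le _ zero_le_one).2 fun z => (norm_ch ξ z).le
  have hint : Integrable fun ξ => a ξ • K ξ := by
    refine Integrable.mono' ha.norm (ha.aestronglyMeasurable.smul hK.aestronglyMeasurable) ?_
    refine Filter.Eventually.of_forall fun ξ => ?_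
    rw [norm_smul]
    exact mul_le_of_le_one_right (norm_nonneg _) (hK1 ξ)
  have e1 : ∀ ξ, a ξ • ex N ξ = cfcHom (R := ℂ) hN (a ξ • K ξ) := by
    intro ξ
    rw [ex, cfc_apply (ch ξ) N hN (continuous_ch ξ).continuousOn, map_smul]
    rfl
  simp_rw [e1]
  rw [cfcHom_integral N (fun ξ => a ξ • K ξ) hint hN, fn,
    cfc_apply (syn a) N hN (continuous_syn a ha).continuousOn]
  congr 1
  ext z
  rw [ContinuousMap.integral_apply hint]
  rfl

theorem norm_fn_syn_le (N : H →L[ℂ] H) (a : ℂ → ℂ) (U : ℝ) (hU : ∀ z, ‖syn a z‖ ≤ U) :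
    ‖fn (syn a) N‖ ≤ U :=
  norm_cfc_le ((norm_nonneg _).trans (hU 0)) fun z _ => hU z

end

end FNB

open FNB in
theorem blk_Fn : Stmt_Fn.{v} := by
  intro H _ _ _ N hN a ha
  exact ⟨continuous_syn a ha, fn_syn N hN a ha, fun U hU => norm_fn_syn_le N a U hU,
    fun n z => syn_ch_mul a n z, integrable_smul_ex N a ha⟩

end Pool.Bes
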