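import Pool.Agent.Work.Bes.Interface
import Pool.Agent.Work.Bes.WT

/-!
# Block FOUR: smooth functions with compact support have Fourier densities in `Wt` (helper31)
-/

open MeasureTheory Complex
open scoped ComplexOrder InnerProductSpace ComplexConjugate FourierTransform SchwartzMap LineDeriv

set_option autoImplicit false

namespace Pool.Bes.FOURB

open Pool.Bes.WTB

/-- the scaling factor `1 / (2 π)` -/
noncomputable def R : ℝ := 1 / (2 * Real.pi)

theorem R_pos : 0 < R := by unfold R; positivity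

/-- the Fourier density of a Schwartz function -/
noncomputable def den (F : 𝓢(ℂ, ℂ)) (ξ : ℂ) : ℂ := ((R ^ 2 : ℝ) : ℂ) * (𝓕 F) (R • ξ)

theorem wt_den (F : 𝓢(ℂ, ℂ)) : Wt (den F) := by
  refine ⟨?_, fun k => ?_⟩
  · refine Continuous.aestronglyMeasurable ?_
    unfold den
    exact continuous_const.mul ((𝓕 F).continuous.comp (continuous_const_smul R))
  · have h1 : Integrable (fun w : ℂ => ‖w‖ ^ k * ‖(𝓕 F) w‖) := (𝓕 F).integrable_pow_mul volume k
    have h2 := h1.comp_smul R_pos.ne'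
    have h3 := h2.const_mul (R ^ 2 * (R ^ k)⁻¹)
    refine h3.congr (Filter.Eventually.of_forall fun ξ => ?_)
    have hR := R_pos
    have hRk : R ^ k ≠ 0 := by positivity
    simp only [den, norm_mul, norm_smul, Complex.norm_real, Real.norm_of_nonneg hR.le,
      Real.norm_of_nonneg (by positivity : (0 : ℝ) ≤ R ^ 2), mul_pow]
    field_simp

theorem syn_den (F : 𝓢(ℂ, ℂ)) (z : ℂ) : syn (den F) z = F z := by
  have h0 : F = 𝓕⁻ (𝓕 F) := (FourierTransform.fourierInv_fourier_eq F).symm
  have h1 : F z = ∫ w : ℂ, Complex.exp (2 * Real.pi * (⟪w, z⟫_ℝ : ℝ) * Complex.I) • (𝓕 F) w := by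
    conv_lhs => rw [h0, SchwartzMap.fourierInv_coe]
    rw [Real.fourierInv_eq']
    simp
  set h : ℂ → ℂ := fun w : ℂ => Complex.exp (2 * Real.pi * (⟪w, z⟫_ℝ : ℝ) * Complex.I) • (𝓕 F) w
    with hh
  have h2 := Measure.integral_comp_smul (volume : Measure ℂ) h R
  rw [Complex.finrank_real_complex] at h2
  have h3 : (∫ w, h w) = ((R ^ 2 : ℝ) : ℂ) * ∫ ξ, h (R • ξ) := by
    rw [h2, abs_of_pos (by have := R_pos; positivity), Complex.real_smul, ← mul_assoc,
      ← Complex.ofReal_mul, mul_inv_cancel₀ (by have := R_pos; positivity), Complex.ofReal_one,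
      one_mul]
  rw [h1, h3, ← integral_const_mul, syn]
  refine integral_congr_ae (Filter.Eventually.of_forall fun ξ => ?_)
  have h4 : (2 * Real.pi * ((⟪R • ξ, z⟫_ℝ : ℝ) : ℂ) * Complex.I) = Complex.I * (ip ξ z : ℝ) := by
    rw [real_inner_smul_left, ip_eq_inner, R]
    have hπ : (Real.pi : ℂ) ≠ 0 := by exact_mod_cast Real.pi_ne_zero
    push_cast
    field_simp
  simp only [hh, den, h4, ch, smul_eq_mul]
  ring

end Pool.Bes.FOURB

namespace Pool.Bes

open Pool.Bes.WTB Pool.Bes.FOURB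

theorem blk_FOUR : Stmt_Four := by
  intro f hf hc
  set F : 𝓢(ℂ, ℂ) := hc.toSchwartzMap hf with hF
  have hFf : ∀ z, F z = f z := fun z => rfl
  refine ⟨den F, wt_den F, fun z => by rw [syn_den, hFf], fun e z => ?_⟩
  have h1 : dd e (den F) = den (∂_{e} F) := by
    funext ξ
    have h2 := congrArg (fun g : 𝓢(ℂ, ℂ) => g (R • ξ)) (SchwartzMap.fourier_lineDerivOp_eq F e)
    have h3 : (inner ℝ · e : ℂ → ℝ).HasTemperateGrowth := by fun_prop
    simp only [_root_.smul_apply, SchwartzMap.smulLeftCLM_apply_apply h3] at h2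
    rw [dd, den, den, h2, real_inner_smul_left, ip_comm, ip_eq_inner, R]
    have hπ : (Real.pi : ℂ) ≠ 0 := by exact_mod_cast Real.pi_ne_zero
    simp only [smul_eq_mul, Complex.real_smul]
    push_cast
    field_simp
  rw [h1, syn_den, SchwartzMap.lineDerivOp_apply_eq_fderiv]
  rfl

end Pool.Bes
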