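import Pool.Agent.Work.Bes.ALG

/-!
# Block HT: the trace is the sum over every Hilbert basis (helper68)
-/

open MeasureTheory Complex Filter Topology
open scoped ComplexOrder InnerProductSpace ComplexConjugate

set_option autoImplicit false
set_option linter.unusedSectionVars false

universe v

namespace Pool.Bes

namespace HTBlock

open ALGAux

variable {H : Type v} [NormedAddCommGroup H] [InnerProductSpace ℂ H] [CompleteSpace H]

/-- the projection onto the span of the `e i`, `i ∈ F` -/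
noncomputable def PF {ι : Type} (e : ι → H) (F : Finset ι) : H →L[ℂ] H := ∑ i ∈ F, r1 (e i) (e i)

theorem PF_apply {ι : Type} (e : ι → H) (F : Finset ι) (x : H) :
    PF e F x = ∑ i ∈ F, ⟪e i, x⟫_ℂ • e i := by
  unfold PF
  rw [_root_.sum_apply]
  rfl

theorem norm_PF {ι : Type} (e : ι → H) (he : Orthonormal ℂ e) (F : Finset ι) : ‖PF e F‖ ≤ 1 := by
  refine ContinuousLinearMap.opNorm_le_bound _ zero_le_one fun x => ?_
  rw [one_mul, PF_apply]
  have h1 : ‖∑ i ∈ F, ⟪e i, x⟫_ℂ • e i‖ ^ 2 = ∑ i ∈ F, ‖⟪e i, x⟫_ℂ‖ ^ 2 := by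
    have h2 := he.inner_sum (fun i => ⟪e i, x⟫_ℂ) (fun i => ⟪e i, x⟫_ℂ) F
    have h3 : ((‖∑ i ∈ F, ⟪e i, x⟫_ℂ • e i‖ ^ 2 : ℝ) : ℂ) = ((∑ i ∈ F, ‖⟪e i, x⟫_ℂ‖ ^ 2 : ℝ) : ℂ) := by
      have h4 := inner_self_eq_norm_sq_to_K (𝕜 := ℂ) (∑ i ∈ F, ⟪e i, x⟫_ℂ • e i)
      push_cast
      have h5 : ((‖∑ i ∈ F, ⟪e i, x⟫_ℂ • e i‖ : ℂ)) ^ 2 =
          ⟪∑ i ∈ F, ⟪e i, x⟫_ℂ • e i, ∑ i ∈ F, ⟪e i, x⟫_ℂ • e i⟫_ℂ := h4.symm
      rw [h5, h2]
      refine Finset.sum_congr rfl fun i _ => ?_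
      have := Complex.normSq_eq_conj_mul_self (z := ⟪e i, x⟫_ℂ)
      rw [← this, Complex.normSq_eq_norm_sq]
      push_cast
      rfl
    exact_mod_cast h3
  have h2 : ‖∑ i ∈ F, ⟪e i, x⟫_ℂ • e i‖ ^ 2 ≤ ‖x‖ ^ 2 := by
    rw [h1]
    exact he.sum_inner_products_le x
  exact (pow_le_pow_iff_left₀ (norm_nonneg _) (norm_nonneg _) two_ne_zero).1 h2

theorem sum_eq {ι : Type} (e : ι → H) (X : S1 H) (F : Finset ι) :
    ∑ i ∈ F, ⟪e i, op X (e i)⟫_ℂ = pr X (PF e F) := by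
  unfold PF
  have : pr X (∑ i ∈ F, r1 (e i) (e i)) = ∑ i ∈ F, pr X (r1 (e i) (e i)) :=
    map_sum X.toDual _ _
  rw [this]
  exact Finset.sum_congr rfl fun i _ => inner_op X (e i) (e i)

theorem tends {ι : Type} (e : HilbertBasis ι ℂ H) (X : S1 H) :
    Tendsto (fun F : Finset ι => pr X (PF (fun i => e i) F)) atTop (𝓝 (pr X 1)) := by
  refine S1_ind (p := fun X => Tendsto (fun F : Finset ι => pr X (PF (fun i => e i) F)) atTop
    (𝓝 (pr X 1))) ?_ ?_ ?_ ?_ ?_ X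
  · -- closed
    rw [← isSeqClosed_iff_isClosed]
    intro Xn X0 hXn hlim
    show Tendsto _ _ _
    rw [Metric.tendsto_nhds]
    intro ε hε
    rw [Metric.tendsto_atTop] at hlim
    obtain ⟨N, hN⟩ := hlim (ε / 3) (by positivity)
    have hN' := hN N le_rfl
    rw [dist_eq_norm] at hN'
    have h1 := hXn N
    have h1' : Tendsto (fun F : Finset ι => pr (Xn N) (PF (fun i => e i) F)) atTop
      (𝓝 (pr (Xn N) 1)) := h1
    rw [Metric.tendsto_nhds] at h1'
    filter_upwards [h1' (ε / 3) (by positivity)] with F h2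
    rw [dist_eq_norm] at h2 ⊢
    have h3 : pr X0 (PF (fun i => e i) F) - pr X0 1 =
        (pr (Xn N) (PF (fun i => e i) F) - pr (Xn N) 1) -
          (pr (Xn N - X0) (PF (fun i => e i) F) - pr (Xn N - X0) 1) := by
      rw [pr_sub_left, pr_sub_left]
      ring
    have h4 : ‖pr (Xn N - X0) (PF (fun i => e i) F)‖ ≤ ‖Xn N - X0‖ := by
      have := norm_pr_le (Xn N - X0) (PF (fun i => e i) F)
      have h5 := norm_PF (fun i => e i) e.orthonormal F
      have h6 := mul_le_mul_of_nonneg_left h5 (norm_nonneg (Xn N - X0))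
      linarith
    have h5 : ‖pr (Xn N - X0) 1‖ ≤ ‖Xn N - X0‖ := by
      have := norm_pr_le (Xn N - X0) 1
      have h5 : ‖(1 : H →L[ℂ] H)‖ ≤ 1 := ContinuousLinearMap.norm_id_le
      have h6 := mul_le_mul_of_nonneg_left h5 (norm_nonneg (Xn N - X0))
      linarith
    rw [h3]
    have h6 := norm_sub_le (pr (Xn N) (PF (fun i => e i) F) - pr (Xn N) 1)
      (pr (Xn N - X0) (PF (fun i => e i) F) - pr (Xn N - X0) 1)
    have h7 := norm_sub_le (pr (Xn N - X0) (PF (fun i => e i) F)) (pr (Xn N - X0) 1)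
    linarith
  · simp only [pr_zero_left]
    exact tendsto_const_nhds
  · intro X Y hX hY
    simp only [pr_add_left]
    exact hX.add hY
  · intro c X hX
    simp only [pr_smul_left]
    exact hX.const_mul c
  · intro x y
    have h1 : Tendsto (fun F : Finset ι => PF (fun i => e i) F x) atTop (𝓝 x) := by
      have h2 := e.hasSum_repr x
      refine h2.congr fun F => ?_
      rw [PF_apply]
      refine Finset.sum_congr rfl fun i _ => ?_
      exact congrArg (fun c : ℂ => c • e i) (e.repr_apply_apply x i)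
    have h2 : Tendsto (fun F : Finset ι => ⟪y, PF (fun i => e i) F x⟫_ℂ) atTop (𝓝 ⟪y, x⟫_ℂ) :=
      (innerSL ℂ y).continuous.continuousAt.tendsto.comp h1
    exact h2

end HTBlock

open HTBlock in
/-- BLOCK HT -/
theorem blk_HT : Stmt_HT.{v} := by
  intro H _ _ _ X ι _ e
  show Tendsto (fun F : Finset ι => ∑ i ∈ F, inner ℂ (e i) (op X (e i))) atTop (𝓝 (tr X))
  have h := tends e X
  refine h.congr fun F => ?_
  exact (sum_eq (fun i => e i) X F).symm

end Pool.Bes
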