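import Pool.Agent.Work.Bes.WT

/-!
# Block KI: the kernel identity (helper79)
-/

open MeasureTheory Complex
open scoped ComplexOrder InnerProductSpace ComplexConjugate

set_option autoImplicit false

universe v

namespace Pool.Bes.KIB

open Pool.Bes.WTB

/-- the two Gaussian exponents -/
theorem exponent (ρ : ℝ) (ξ r : ℂ) :
    ρ ^ 2 * ‖r‖ ^ 2 / 4 + ρ ^ 2 * ‖ξ - (1 / 2 : ℝ) • r‖ ^ 2 =
      ρ ^ 2 * ‖ξ‖ ^ 2 / 2 + ρ ^ 2 * ‖r - ξ‖ ^ 2 / 2 := by
  rw [Complex.sq_norm, Complex.sq_norm, Complex.sq_norm, Complex.sq_norm, normSq_apply,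
    normSq_apply, normSq_apply, normSq_apply]
  simp only [sub_re, sub_im, Complex.real_smul, Complex.mul_re, Complex.mul_im,
    Complex.ofReal_re, Complex.ofReal_im]
  ring

/-- the Fourier transform of the kernel `Λ` in `n` -/
theorem integral_ch_Lam {ρ : ℝ} (hρ : 0 < ρ) (ξ r : ℂ) :
    ∫ n : ℂ, ch ξ n * Lam ρ n r =
      ((Real.exp (-(ρ ^ 2 * ‖ξ‖ ^ 2 / 2)) : ℝ) : ℂ) * (gam (1 / ρ) (r - ξ) : ℂ) := by
  have hb : 0 < (((1 / (4 * ρ ^ 2) : ℝ) : ℂ)).re := by
    rw [Complex.ofReal_re]; positivity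
  have h1 := GaussianFourier.integral_cexp_neg_mul_sq_norm_add (V := ℂ) hb Complex.I
    (ξ - (1 / 2 : ℝ) • r)
  have hρ0 : (ρ : ℂ) ≠ 0 := by exact_mod_cast hρ.ne'
  have hρ1 : ρ ≠ 0 := hρ.ne'
  have hπ : (Real.pi : ℂ) ≠ 0 := by exact_mod_cast Real.pi_ne_zero
  have h2 : (fun n : ℂ => ch ξ n * Lam ρ n r) = fun n : ℂ =>
      (1 / (8 * (Real.pi : ℂ) ^ 2) * Complex.exp (((-(ρ ^ 2 * ‖r‖ ^ 2 / 4) : ℝ)) : ℂ)) *
        Complex.exp (-((1 / (4 * ρ ^ 2) : ℝ) : ℂ) * (‖n‖ : ℂ) ^ 2 +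
          Complex.I * (⟪ξ - (1 / 2 : ℝ) • r, n⟫_ℝ : ℝ)) := by
    funext n
    rw [ch, Lam, mul_comm (Complex.exp _), mul_assoc, mul_assoc, ← Complex.exp_add,
      ← Complex.exp_add]
    congr 2
    rw [← ip_eq_inner]
    simp only [ip, sub_re, sub_im, Complex.real_smul, Complex.mul_re, Complex.mul_im,
      Complex.ofReal_re, Complex.ofReal_im]
    push_cast
    ring
  rw [h2, integral_const_mul, h1, Complex.finrank_real_complex]
  have h3 : ((2 : ℕ) : ℂ) / 2 = 1 := by norm_num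
  rw [h3, Complex.cpow_one, gam, Complex.ofReal_mul, ← Complex.ofReal_exp]
  have h4 : Complex.exp (Complex.I ^ 2 * ((‖ξ - (1 / 2 : ℝ) • r‖ : ℝ) : ℂ) ^ 2 /
      (4 * ((1 / (4 * ρ ^ 2) : ℝ) : ℂ))) =
      ((Real.exp (-(ρ ^ 2 * ‖ξ - (1 / 2 : ℝ) • r‖ ^ 2)) : ℝ) : ℂ) := by
    rw [Complex.ofReal_exp]
    congr 1
    rw [Complex.I_sq]
    push_cast
    field_simp
  rw [h4]
  have h5 : Real.exp (-(ρ ^ 2 * ‖r‖ ^ 2 / 4)) * Real.exp (-(ρ ^ 2 * ‖ξ - (1 / 2 : ℝ) • r‖ ^ 2)) =
      Real.exp (-(ρ ^ 2 * ‖ξ‖ ^ 2 / 2)) * Real.exp (-(‖r - ξ‖ ^ 2 / (2 * (1 / ρ) ^ 2))) := by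
    rw [← Real.exp_add, ← Real.exp_add]
    congr 1
    have h6 := exponent ρ ξ r
    have h7 : ‖r - ξ‖ ^ 2 / (2 * (1 / ρ) ^ 2) = ρ ^ 2 * ‖r - ξ‖ ^ 2 / 2 := by
      field_simp
    rw [h7]
    linarith
  have h8 : (((Real.exp (-(ρ ^ 2 * ‖r‖ ^ 2 / 4)) * Real.exp (-(ρ ^ 2 *
      ‖ξ - (1 / 2 : ℝ) • r‖ ^ 2)) : ℝ)) : ℂ) = ((Real.exp (-(ρ ^ 2 * ‖ξ‖ ^ 2 / 2)) *
      Real.exp (-(‖r - ξ‖ ^ 2 / (2 * (1 / ρ) ^ 2))) : ℝ) : ℂ) := by rw [h5]
  rw [Complex.ofReal_mul, Complex.ofReal_mul] at h8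
  have h9 : (1 / (8 * (Real.pi : ℂ) ^ 2)) * ((Real.pi : ℂ) / ((1 / (4 * ρ ^ 2) : ℝ) : ℂ)) =
      ((1 / (2 * Real.pi * (1 / ρ) ^ 2) : ℝ) : ℂ) := by
    push_cast
    field_simp
    norm_num
  calc (1 / (8 * (Real.pi : ℂ) ^ 2) * ((Real.exp (-(ρ ^ 2 * ‖r‖ ^ 2 / 4)) : ℝ) : ℂ)) *
        ((Real.pi : ℂ) / ((1 / (4 * ρ ^ 2) : ℝ) : ℂ) *
          ((Real.exp (-(ρ ^ 2 * ‖ξ - (1 / 2 : ℝ) • r‖ ^ 2)) : ℝ) : ℂ))
      = (1 / (8 * (Real.pi : ℂ) ^ 2)) * ((Real.pi : ℂ) / ((1 / (4 * ρ ^ 2) : ℝ) : ℂ)) *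
        (((Real.exp (-(ρ ^ 2 * ‖r‖ ^ 2 / 4)) : ℝ) : ℂ) *
          ((Real.exp (-(ρ ^ 2 * ‖ξ - (1 / 2 : ℝ) • r‖ ^ 2)) : ℝ) : ℂ)) := by ring
    _ = _ := by
        rw [h9, h8]
        ring

theorem norm_Lam (ρ : ℝ) (n r : ℂ) : ‖Lam ρ n r‖ =
    1 / (8 * Real.pi ^ 2) * (Real.exp (-(‖n‖ ^ 2 / (4 * ρ ^ 2))) *
      Real.exp (-(ρ ^ 2 * ‖r‖ ^ 2 / 4))) := by
  rw [Lam, norm_mul, Complex.norm_exp]
  have h1 : ‖(1 / (8 * (Real.pi : ℂ) ^ 2))‖ = 1 / (8 * Real.pi ^ 2) := by
    rw [norm_div, norm_mul, norm_pow, Complex.norm_real, Real.norm_of_nonneg Real.pi_pos.le]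
    norm_num
  rw [h1]
  congr 1
  rw [← Real.exp_add]
  congr 1
  simp only [sub_re, neg_re, Complex.ofReal_re, Complex.mul_re, Complex.I_re, Complex.I_im,
    Complex.ofReal_im]
  ring

theorem continuous_Lam (ρ : ℝ) : Continuous fun p : ℂ × ℂ => Lam ρ p.1 p.2 := by
  unfold Lam
  refine continuous_const.mul (Complex.continuous_exp.comp ?_)
  refine Continuous.sub (Complex.continuous_ofReal.comp (by fun_prop)).neg ?_
  refine continuous_const.mul (Complex.continuous_ofReal.comp ?_)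
  exact continuous_ip.div_const 2

theorem integrable_gauss {b : ℝ} (hb : 0 < b) :
    Integrable fun s : ℂ => Real.exp (-(b * ‖s‖ ^ 2)) := by
  have hρ : 0 < Real.sqrt (1 / (2 * b)) := Real.sqrt_pos.mpr (by positivity)
  have h1 := (integrable_gam hρ).const_mul (2 * Real.pi * (Real.sqrt (1 / (2 * b))) ^ 2)
  refine h1.congr (Filter.Eventually.of_forall fun s => ?_)
  have hb0 := hb.ne'
  have hπ := Real.pi_ne_zero
  have h2 : 2 * Real.pi * (1 / (2 * b)) * (1 / (2 * Real.pi * (1 / (2 * b)))) = 1 := by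
    field_simp
  have h3 : Real.sqrt (1 / (2 * b)) ^ 2 = 1 / (2 * b) := Real.sq_sqrt (by positivity)
  simp only [gam, h3]
  rw [← mul_assoc, h2, one_mul]
  congr 2
  field_simp

theorem integrable_Lam {ρ : ℝ} (hρ : 0 < ρ) (η : ℂ) :
    Integrable (fun p : ℂ × ℂ => Lam ρ p.1 (p.2 - η)) (volume.prod volume) := by
  have h1 : Integrable (fun n : ℂ => Real.exp (-(1 / (4 * ρ ^ 2) * ‖n‖ ^ 2))) :=
    integrable_gauss (by positivity)
  have h2 : Integrable (fun r : ℂ => Real.exp (-(ρ ^ 2 / 4 * ‖r‖ ^ 2))) :=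
    integrable_gauss (by positivity)
  have h3 := (h1.mul_prod (h2.comp_sub_right η)).const_mul (1 / (8 * Real.pi ^ 2))
  refine h3.mono' ?_ (Filter.Eventually.of_forall fun p => le_of_eq ?_)
  · exact ((continuous_Lam ρ).comp
      (by fun_prop : Continuous fun p : ℂ × ℂ => (p.1, p.2 - η))).aestronglyMeasurable
  · rw [norm_Lam]
    congr 3
    · congr 1
      ring
    · congr 1
      ring

section op
variable {H : Type v} [NormedAddCommGroup H] [InnerProductSpace ℂ H] [CompleteSpace H]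

/-- the data of the group `ex N` -/
structure Grp (E : ℂ → H →L[ℂ] H) : Prop where
  add : ∀ s t : ℂ, E (s + t) = E s * E t
  nrm : ∀ s : ℂ, ‖E s‖ ≤ 1
  cnt : Continuous E

/-- `E (-r) Z F r` -/
noncomputable def tt (E F : ℂ → H →L[ℂ] H) (Z : H →L[ℂ] H) (r : ℂ) : H →L[ℂ] H := E (-r) * Z * F r

variable {E F : ℂ → H →L[ℂ] H} (hE : Grp E) (hF : Grp F) (Z : H →L[ℂ] H)

include hE hF

theorem tt_norm (r : ℂ) : ‖tt E F Z r‖ ≤ ‖Z‖ := by
  rw [tt]
  calc ‖E (-r) * Z * F r‖ ≤ ‖E (-r)‖ * ‖Z‖ * ‖F r‖ :=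
        (norm_mul_le _ _).trans (mul_le_mul_of_nonneg_right (norm_mul_le _ _) (norm_nonneg _))
    _ ≤ 1 * ‖Z‖ * 1 := by
        refine mul_le_mul ?_ (hF.nrm r) (norm_nonneg _) (by positivity)
        exact mul_le_mul_of_nonneg_right (hE.nrm _) (norm_nonneg _)
    _ = ‖Z‖ := by ring

theorem tt_cont : Continuous (tt E F Z) := by
  unfold tt
  exact ((hE.cnt.comp continuous_neg).mul continuous_const).mul hF.cnt

theorem tt_int {w : ℂ → ℂ} (hw : Integrable w) : Integrable fun r => w r • tt E F Z r := by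
  have h1 : Integrable (fun r => ‖w r‖ * ‖Z‖) := hw.norm.mul_const _
  refine h1.mono' (hw.aestronglyMeasurable.smul (tt_cont hE hF Z).aestronglyMeasurable)
    (Filter.Eventually.of_forall fun r => ?_)
  rw [norm_smul]
  exact mul_le_mul_of_nonneg_left (tt_norm hE hF Z r) (norm_nonneg _)

/-- the shift -/
theorem tt_shift (w : ℂ → ℂ) (hw : Integrable w) (s : ℂ) :
    E s * ∫ r, w (r - s) • tt E F Z r = (∫ r, w r • tt E F Z r) * F s := by
  have h1 : E s * ∫ r, w (r - s) • tt E F Z r = ∫ r, w (r - s) • (E s * tt E F Z r) := by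
    have h2 := ((ContinuousLinearMap.mul ℂ (H →L[ℂ] H)) (E s)).integral_comp_comm
      (tt_int hE hF Z (hw.comp_sub_right s))
    rw [ContinuousLinearMap.mul_apply'] at h2
    rw [← h2]
    refine integral_congr_ae (Filter.Eventually.of_forall fun r => ?_)
    simp only [ContinuousLinearMap.mul_apply', mul_smul_comm]
  have h3 : (∫ r, w r • tt E F Z r) * F s = ∫ r, w r • (tt E F Z r * F s) := by
    have h2 := ((ContinuousLinearMap.mul ℂ (H →L[ℂ] H)).flip (F s)).integral_comp_comm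
      (tt_int hE hF Z hw)
    rw [ContinuousLinearMap.flip_apply, ContinuousLinearMap.mul_apply'] at h2
    rw [← h2]
    refine integral_congr_ae (Filter.Eventually.of_forall fun r => ?_)
    simp only [ContinuousLinearMap.flip_apply, ContinuousLinearMap.mul_apply', smul_mul_assoc]
  rw [h1, h3]
  rw [← integral_sub_right_eq_self (fun r => w r • (tt E F Z r * F s)) s]
  refine integral_congr_ae (Filter.Eventually.of_forall fun r => ?_)
  simp only
  congr 1
  rw [tt, tt]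
  have h4 : E s * (E (-r) * Z * F r) = E (-(r - s)) * Z * F r := by
    rw [← mul_assoc, ← mul_assoc, ← hE.add]
    congr 3
    ring
  have h5 : E (-(r - s)) * Z * F (r - s) * F s = E (-(r - s)) * Z * F r := by
    rw [mul_assoc, ← hF.add]
    congr 2
    ring
  rw [h4, h5]

/-- the kernel identity for the groups `E`, `F` -/
theorem main {a : ℂ → ℂ} (ha : Integrable a) {ρ : ℝ} (hρ : 0 < ρ) (η : ℂ) :
    (∫ ξ, gm ρ a ξ • E ξ) * E η * (∫ r, (gam (1 / ρ) r : ℂ) • tt E F Z r) -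
      (∫ r, (gam (1 / ρ) r : ℂ) • tt E F Z r) * ((∫ ξ, gm ρ a ξ • F ξ) * F η) =
    ∫ n : ℂ, (∫ ξ, (ch ξ n * a ξ) • E ξ) * E η *
      ∫ r : ℂ, ((gam ρ n : ℂ) * gam (1 / ρ) r - Lam ρ n (r - η)) • tt E F Z r := by
  have hρ' : 0 < 1 / ρ := by positivity
  have hg : Integrable (fun r : ℂ => (gam ρ r : ℂ)) := (integrable_gam hρ).ofReal
  have hg1 : Integrable (fun r : ℂ => (gam (1 / ρ) r : ℂ)) := (integrable_gam hρ').ofReal
  set Y : H →L[ℂ] H := ∫ r, (gam (1 / ρ) r : ℂ) • tt E F Z r with hY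
  -- the second part of the kernel
  have hJ : Integrable (fun p : ℂ × ℂ => Lam ρ p.1 (p.2 - η) • tt E F Z p.2)
      (volume.prod volume) := by
    have h1 := (integrable_Lam hρ η).norm.mul_const ‖Z‖
    refine h1.mono' ?_ (Filter.Eventually.of_forall fun p => ?_)
    · exact (integrable_Lam hρ η).aestronglyMeasurable.smul
        ((tt_cont hE hF Z).comp continuous_snd).aestronglyMeasurable
    · rw [norm_smul]
      exact mul_le_mul_of_nonneg_left (tt_norm hE hF Z _) (norm_nonneg _)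
  set Y2 : ℂ → H →L[ℂ] H := fun n => ∫ r, Lam ρ n (r - η) • tt E F Z r with hY2
  have hY2i : Integrable Y2 := hJ.integral_prod_left
  have hLi : ∀ n : ℂ, Integrable (fun r : ℂ => Lam ρ n (r - η)) := by
    intro n
    have h2 : Integrable (fun r : ℂ => Real.exp (-(ρ ^ 2 / 4 * ‖r‖ ^ 2))) :=
      integrable_gauss (by positivity)
    have h3 := (h2.comp_sub_right η).const_mul
      (1 / (8 * Real.pi ^ 2) * Real.exp (-(‖n‖ ^ 2 / (4 * ρ ^ 2))))
    refine h3.mono' ?_ (Filter.Eventually.of_forall fun p => le_of_eq ?_)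
    · exact ((continuous_Lam ρ).comp
        (by fun_prop : Continuous fun p : ℂ => (n, p - η))).aestronglyMeasurable
    · rw [norm_Lam, ← mul_assoc]
      congr 3
      ring
  set K : ℂ → H →L[ℂ] H := fun n => (gam ρ n : ℂ) • Y - Y2 n with hK
  have hKi : Integrable K := (hg.smul_const Y).sub hY2i
  have hKn : ∀ n : ℂ, ∫ r : ℂ, ((gam ρ n : ℂ) * gam (1 / ρ) r - Lam ρ n (r - η)) • tt E F Z r =
      K n := by
    intro n
    have h1 : ∀ r : ℂ, ((gam ρ n : ℂ) * gam (1 / ρ) r - Lam ρ n (r - η)) • tt E F Z r =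
        (gam ρ n : ℂ) • ((gam (1 / ρ) r : ℂ) • tt E F Z r) - Lam ρ n (r - η) • tt E F Z r := by
      intro r
      rw [sub_smul, mul_smul]
    have hi1 : Integrable fun r : ℂ => (gam ρ n : ℂ) • ((gam (1 / ρ) r : ℂ) • tt E F Z r) :=
      (tt_int hE hF Z hg1).fun_smul _
    simp_rw [h1]
    rw [integral_sub hi1 (tt_int hE hF Z (hLi n)), integral_smul]
  simp_rw [hKn]
  -- integrability of `a ξ • E ξ`
  have hEi : ∀ (b : ℂ → ℂ), Integrable b → Integrable fun ξ => b ξ • E ξ := by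
    intro b hb
    refine hb.norm.mono' (hb.aestronglyMeasurable.smul hE.cnt.aestronglyMeasurable)
      (Filter.Eventually.of_forall fun ξ => ?_)
    rw [norm_smul]
    exact mul_le_of_le_one_right (norm_nonneg _) (hE.nrm ξ)
  have hFi : ∀ (b : ℂ → ℂ), Integrable b → Integrable fun ξ => b ξ • F ξ := by
    intro b hb
    refine hb.norm.mono' (hb.aestronglyMeasurable.smul hF.cnt.aestronglyMeasurable)
      (Filter.Eventually.of_forall fun ξ => ?_)
    rw [norm_smul]
    exact mul_le_of_le_one_right (norm_nonneg _) (hF.nrm ξ)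
  have hcha : ∀ n : ℂ, Integrable (fun ξ => ch ξ n * a ξ) := by
    intro n
    refine ha.norm.mono' ?_ (Filter.Eventually.of_forall fun ξ => ?_)
    · exact (continuous_ch.comp
        (by fun_prop : Continuous fun ξ : ℂ => (ξ, n))).aestronglyMeasurable.mul
          ha.aestronglyMeasurable
    · rw [norm_mul, norm_ch, one_mul]
  have hgma : Integrable (gm ρ a) := by
    refine ha.norm.mono' ?_ (Filter.Eventually.of_forall fun ξ => ?_)
    · unfold gm
      exact (Complex.continuous_ofReal.comp (by fun_prop)).aestronglyMeasurable.mul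
        ha.aestronglyMeasurable
    · rw [gm, norm_mul, Complex.norm_real, Real.norm_of_nonneg (Real.exp_nonneg _)]
      refine mul_le_of_le_one_left (norm_nonneg _) (Real.exp_le_one_iff.mpr ?_)
      have : 0 ≤ ρ ^ 2 * ‖ξ‖ ^ 2 / 2 := by positivity
      linarith
  -- left factor into the integral
  have hleft : ∀ (b : ℂ → ℂ), Integrable b → ∀ X : H →L[ℂ] H,
      (∫ ξ, b ξ • E ξ) * E η * X = ∫ ξ, b ξ • (E (ξ + η) * X) := by
    intro b hb X
    have h2 := ((ContinuousLinearMap.mul ℂ (H →L[ℂ] H)).flip (E η * X)).integral_comp_comm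
      (hEi b hb)
    rw [ContinuousLinearMap.flip_apply, ContinuousLinearMap.mul_apply'] at h2
    rw [mul_assoc, ← h2]
    refine integral_congr_ae (Filter.Eventually.of_forall fun ξ => ?_)
    simp only [ContinuousLinearMap.flip_apply, ContinuousLinearMap.mul_apply', smul_mul_assoc]
    rw [hE.add, mul_assoc]
  have hright : ∀ (b : ℂ → ℂ), Integrable b → ∀ X : H →L[ℂ] H,
      X * ((∫ ξ, b ξ • F ξ) * F η) = ∫ ξ, b ξ • (X * F (ξ + η)) := by
    intro b hb X
    have h2 := ((ContinuousLinearMap.mul ℂ (H →L[ℂ] H)).flip (F η)).integral_comp_comm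
      (hFi b hb)
    rw [ContinuousLinearMap.flip_apply, ContinuousLinearMap.mul_apply'] at h2
    have hi : Integrable fun ξ => ((ContinuousLinearMap.mul ℂ (H →L[ℂ] H)).flip (F η))
        (b ξ • F ξ) := ContinuousLinearMap.integrable_comp _ (hFi b hb)
    have h3 := ((ContinuousLinearMap.mul ℂ (H →L[ℂ] H)) X).integral_comp_comm hi
    rw [ContinuousLinearMap.mul_apply', h2] at h3
    rw [← h3]
    refine integral_congr_ae (Filter.Eventually.of_forall fun ξ => ?_)
    simp only [ContinuousLinearMap.flip_apply, ContinuousLinearMap.mul_apply', smul_mul_assoc,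
      mul_smul_comm]
    rw [hF.add]
  -- the double integral
  have hdbl : Integrable (fun p : ℂ × ℂ => (ch p.2 p.1 * a p.2) • (E (p.2 + η) * K p.1))
      (volume.prod volume) := by
    have h1 : Integrable (fun p : ℂ × ℂ => ‖K p.1‖ * ‖a p.2‖) (volume.prod volume) :=
      hKi.norm.mul_prod ha.norm
    have h2 : AEStronglyMeasurable (fun p : ℂ × ℂ => K p.1) (volume.prod volume) :=
      hKi.aestronglyMeasurable.comp_fst
    have h3 : AEStronglyMeasurable (fun p : ℂ × ℂ => a p.2) (volume.prod volume) :=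
      ha.aestronglyMeasurable.comp_snd
    refine h1.mono' ?_ (Filter.Eventually.of_forall fun p => ?_)
    · refine AEStronglyMeasurable.smul (AEStronglyMeasurable.mul ?_ h3)
        (AEStronglyMeasurable.mul ?_ h2)
      · exact (continuous_ch.comp
          (by fun_prop : Continuous fun p : ℂ × ℂ => (p.2, p.1))).aestronglyMeasurable
      · exact (hE.cnt.comp (by fun_prop : Continuous fun p : ℂ × ℂ => p.2 + η)).aestronglyMeasurable
    · rw [norm_smul, norm_mul, norm_ch, one_mul, mul_comm]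
      refine mul_le_mul_of_nonneg_right ?_ (norm_nonneg _)
      refine (norm_mul_le _ _).trans ?_
      exact mul_le_of_le_one_left (norm_nonneg _) (hE.nrm _)
  have hR : ∫ n : ℂ, (∫ ξ, (ch ξ n * a ξ) • E ξ) * E η * K n =
      ∫ ξ : ℂ, a ξ • (E (ξ + η) * ∫ n : ℂ, ch ξ n • K n) := by
    have h1 : ∀ n : ℂ, (∫ ξ, (ch ξ n * a ξ) • E ξ) * E η * K n =
        ∫ ξ, (ch ξ n * a ξ) • (E (ξ + η) * K n) := fun n => hleft _ (hcha n) (K n)
    simp_rw [h1]
    rw [integral_integral_swap hdbl]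
    refine integral_congr_ae (Filter.Eventually.of_forall fun ξ => ?_)
    simp only
    have h2 : Integrable fun n : ℂ => ch ξ n • K n := by
      refine hKi.norm.mono' ?_ (Filter.Eventually.of_forall fun n => ?_)
      · exact (continuous_ch.comp
          (by fun_prop : Continuous fun n : ℂ => (ξ, n))).aestronglyMeasurable.smul
            hKi.aestronglyMeasurable
      · rw [norm_smul, norm_ch, one_mul]
    have h3 := ((ContinuousLinearMap.mul ℂ (H →L[ℂ] H)) (E (ξ + η))).integral_comp_comm h2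
    rw [ContinuousLinearMap.mul_apply'] at h3
    rw [← h3, ← integral_smul]
    refine integral_congr_ae (Filter.Eventually.of_forall fun n => ?_)
    simp only [ContinuousLinearMap.mul_apply', mul_smul_comm]
    rw [smul_smul, mul_comm]
  -- the integral over `n`
  have hn : ∀ ξ : ℂ, ∫ n : ℂ, ch ξ n • K n =
      ((Real.exp (-(ρ ^ 2 * ‖ξ‖ ^ 2 / 2)) : ℝ) : ℂ) • (Y -
        ∫ r : ℂ, (gam (1 / ρ) (r - η - ξ) : ℂ) • tt E F Z r) := by
    intro ξ
    have hc : Continuous fun n : ℂ => ch ξ n :=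
      continuous_ch.comp (by fun_prop : Continuous fun n : ℂ => (ξ, n))
    have h1 : ∀ n : ℂ, ch ξ n • K n = ((gam ρ n : ℂ) * ch ξ n) • Y - ch ξ n • Y2 n := by
      intro n
      rw [hK]
      simp only
      rw [smul_sub, smul_smul, mul_comm]
    have hi1 : Integrable fun n : ℂ => ((gam ρ n : ℂ) * ch ξ n) • Y := by
      refine Integrable.smul_const ?_ Y
      refine hg.norm.mono' (hg.aestronglyMeasurable.mul hc.aestronglyMeasurable)
        (Filter.Eventually.of_forall fun n => ?_)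
      rw [norm_mul, norm_ch, mul_one]
    have hi2 : Integrable fun n : ℂ => ch ξ n • Y2 n := by
      refine hY2i.norm.mono' (hc.aestronglyMeasurable.smul hY2i.aestronglyMeasurable)
        (Filter.Eventually.of_forall fun n => ?_)
      rw [norm_smul, norm_ch, one_mul]
    simp_rw [h1]
    rw [integral_sub hi1 hi2, integral_smul_const, integral_gam_ch hρ, smul_sub]
    congr 1
    -- Fubini for the second part
    have h2 : ∀ n : ℂ, ch ξ n • Y2 n = ∫ r : ℂ, (ch ξ n * Lam ρ n (r - η)) • tt E F Z r := by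
      intro n
      rw [hY2]
      simp only
      rw [← integral_smul]
      refine integral_congr_ae (Filter.Eventually.of_forall fun r => ?_)
      simp only
      rw [smul_smul]
    have h3 : Integrable (fun p : ℂ × ℂ => (ch ξ p.1 * Lam ρ p.1 (p.2 - η)) • tt E F Z p.2)
        (volume.prod volume) := by
      refine hJ.norm.mono' ?_ (Filter.Eventually.of_forall fun p => ?_)
      · exact ((hc.comp continuous_fst).aestronglyMeasurable.mul
          (integrable_Lam hρ η).aestronglyMeasurable).smul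
            ((tt_cont hE hF Z).comp continuous_snd).aestronglyMeasurable
      · rw [norm_smul, norm_mul, norm_ch, one_mul, norm_smul]
    simp_rw [h2]
    rw [integral_integral_swap h3, ← integral_smul]
    refine integral_congr_ae (Filter.Eventually.of_forall fun r => ?_)
    simp only
    rw [integral_smul_const, integral_ch_Lam hρ, smul_smul]
  rw [hR, hleft _ hgma Y, hright _ hgma Y]
  rw [← integral_sub]
  · refine integral_congr_ae (Filter.Eventually.of_forall fun ξ => ?_)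
    simp only
    rw [hn ξ, mul_smul_comm, smul_smul, mul_sub]
    have h1 := tt_shift hE hF Z (fun r => (gam (1 / ρ) r : ℂ)) hg1 (ξ + η)
    have h2 : ∀ r : ℂ, r - η - ξ = r - (ξ + η) := by
      intro r
      ring
    simp_rw [h2]
    rw [h1, ← smul_sub, gm, mul_comm (a ξ)]
  · refine (hgma.norm.mul_const ‖Y‖).mono' ?_ (Filter.Eventually.of_forall fun ξ => ?_)
    · exact hgma.aestronglyMeasurable.smul
        ((hE.cnt.comp (by fun_prop : Continuous fun ξ : ℂ => ξ + η)).mul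
          continuous_const).aestronglyMeasurable
    · rw [norm_smul]
      refine mul_le_mul_of_nonneg_left ?_ (norm_nonneg _)
      exact (norm_mul_le _ _).trans (mul_le_of_le_one_left (norm_nonneg _) (hE.nrm _))
  · refine (hgma.norm.mul_const ‖Y‖).mono' ?_ (Filter.Eventually.of_forall fun ξ => ?_)
    · exact hgma.aestronglyMeasurable.smul
        (continuous_const.mul (hF.cnt.comp
          (by fun_prop : Continuous fun ξ : ℂ => ξ + η))).aestronglyMeasurable
    · rw [norm_smul]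
      refine mul_le_mul_of_nonneg_left ?_ (norm_nonneg _)
      exact (norm_mul_le _ _).trans (mul_le_of_le_one_right (norm_nonneg _) (hF.nrm _))

end op

end Pool.Bes.KIB

namespace Pool.Bes

open Pool.Bes.KIB

theorem blk_KI : Stmt_Fn.{v} → Stmt_Ex.{v} → Stmt_KI.{v} := by
  intro hFn hEx H _ _ _ P Z a ha ρ hρ η
  obtain ⟨_, eA1, _, eA3, eA4, _⟩ := hEx H P.A P.hA
  obtain ⟨_, eB1, _, eB3, eB4, _⟩ := hEx H P.B P.hB
  have hE : Grp (ex P.A) := ⟨eA1, eA3, eA4⟩
  have hF : Grp (ex P.B) := ⟨eB1, eB3, eB4⟩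
  have hgma : Integrable (gm ρ a) := by
    refine ha.norm.mono' ?_ (Filter.Eventually.of_forall fun ξ => ?_)
    · unfold gm
      exact (Complex.continuous_ofReal.comp (by fun_prop)).aestronglyMeasurable.mul
        ha.aestronglyMeasurable
    · rw [gm, norm_mul, Complex.norm_real, Real.norm_of_nonneg (Real.exp_nonneg _)]
      refine mul_le_of_le_one_left (norm_nonneg _) (Real.exp_le_one_iff.mpr ?_)
      have : 0 ≤ ρ ^ 2 * ‖ξ‖ ^ 2 / 2 := by positivity
      linarith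
  have hcha : ∀ n : ℂ, Integrable (fun ξ => ch ξ n * a ξ) := by
    intro n
    refine ha.norm.mono' ?_ (Filter.Eventually.of_forall fun ξ => ?_)
    · exact (WTB.continuous_ch.comp
        (by fun_prop : Continuous fun ξ : ℂ => (ξ, n))).aestronglyMeasurable.mul
          ha.aestronglyMeasurable
    · rw [norm_mul, WTB.norm_ch, one_mul]
  have h1 : ∀ r : ℂ, tO P (-r) Z = tt (ex P.A) (ex P.B) Z r := by
    intro r
    rw [tO, tt, neg_neg]
  have h2 := main hE hF Z ha hρ η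
  simp_rw [h1]
  rw [(hFn H P.A P.hA _ hgma).2.1, (hFn H P.B P.hB _ hgma).2.1, h2]
  refine integral_congr_ae (Filter.Eventually.of_forall fun n => ?_)
  simp only
  rw [(hFn H P.A P.hA _ (hcha n)).2.1]

end Pool.Bes
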