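import Pool.Agent.Work.Bes.Interface

/-!
# Block KN: the norm of the kernel identity (helper98)
-/

open MeasureTheory Complex
open scoped ComplexOrder InnerProductSpace ComplexConjugate

set_option autoImplicit false
set_option linter.unusedSectionVars false

universe v

namespace Pool.Bes.KNB

/-! ### Gaussian integrals on `ℂ` -/

theorem ip_eq_inner (w v : ℂ) : ip w v = ⟪w, v⟫_ℝ := by
  rw [ip]
  change _ = (v * conj w).re
  simp
  ring

theorem int_gauss (b : ℝ) (hb : 0 < b) (c w : ℂ) :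
    ∫ v : ℂ, cexp (-(b : ℂ) * (‖v‖ : ℂ) ^ 2 + c * ((ip w v : ℝ) : ℂ)) =
      (Real.pi / b : ℂ) * cexp (c ^ 2 * (‖w‖ : ℂ) ^ 2 / (4 * b)) := by
  have h := GaussianFourier.integral_cexp_neg_mul_sq_norm_add (V := ℂ)
    (show 0 < ((b : ℂ)).re by simpa using hb) c w
  rw [Complex.finrank_real_complex] at h
  simp_rw [ip_eq_inner]
  rw [h]
  norm_num

theorem integrable_gauss (b : ℝ) (hb : 0 < b) (c w : ℂ) :
    Integrable fun v : ℂ => cexp (-(b : ℂ) * (‖v‖ : ℂ) ^ 2 + c * ((ip w v : ℝ) : ℂ)) := by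
  have h := GaussianFourier.integrable_cexp_neg_mul_sq_norm_add (V := ℂ)
    (show 0 < ((b : ℂ)).re by simpa using hb) c w
  simp_rw [ip_eq_inner]
  exact h

theorem int_rgauss (b : ℝ) (hb : 0 < b) :
    ∫ v : ℂ, Real.exp (-(b * ‖v‖ ^ 2)) = Real.pi / b := by
  have h := GaussianFourier.integral_rexp_neg_mul_sq_norm (V := ℂ) hb
  rw [Complex.finrank_real_complex] at h
  simp_rw [neg_mul] at h
  rw [h]
  norm_num

theorem integrable_rgauss (b : ℝ) (hb : 0 < b) :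
    Integrable fun v : ℂ => Real.exp (-(b * ‖v‖ ^ 2)) := by
  have h := (integrable_gauss b hb 0 0).re
  refine h.congr (Filter.Eventually.of_forall fun v => ?_)
  have e : -(b : ℂ) * (‖v‖ : ℂ) ^ 2 + 0 * ((ip 0 v : ℝ) : ℂ) = ((-(b * ‖v‖ ^ 2) : ℝ) : ℂ) := by
    push_cast; ring
  change (cexp (-(b : ℂ) * (‖v‖ : ℂ) ^ 2 + 0 * ((ip 0 v : ℝ) : ℂ))).re = _
  rw [e, ← Complex.ofReal_exp, Complex.ofReal_re]

/-! ### The kernel `Λ` -/

theorem Lam_eq (ρ : ℝ) (n r : ℂ) :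
    Lam ρ n r = (1 / (8 * (Real.pi : ℂ) ^ 2) * cexp (-((‖n‖ ^ 2 / (4 * ρ ^ 2) : ℝ) : ℂ))) *
      cexp (-((ρ ^ 2 / 4 : ℝ) : ℂ) * (‖r‖ : ℂ) ^ 2 + (-(I / 2)) * ((ip n r : ℝ) : ℂ)) := by
  rw [Lam, mul_assoc, ← Complex.exp_add]
  congr 2
  push_cast
  ring

theorem integrable_Lam (ρ : ℝ) (hρ : 0 < ρ) (n : ℂ) : Integrable (Lam ρ n) := by
  have h := (integrable_gauss (ρ ^ 2 / 4) (by positivity) (-(I / 2)) n).const_mul
    (1 / (8 * (Real.pi : ℂ) ^ 2) * cexp (-((‖n‖ ^ 2 / (4 * ρ ^ 2) : ℝ) : ℂ)))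
  refine h.congr (Filter.Eventually.of_forall fun r => ?_)
  exact (Lam_eq ρ n r).symm

theorem int_Lam (ρ : ℝ) (hρ : 0 < ρ) (n : ℂ) : ∫ r, Lam ρ n r = (gam ρ n : ℂ) := by
  have h1 : (Lam ρ n) = fun r =>
      (1 / (8 * (Real.pi : ℂ) ^ 2) * cexp (-((‖n‖ ^ 2 / (4 * ρ ^ 2) : ℝ) : ℂ))) *
      cexp (-((ρ ^ 2 / 4 : ℝ) : ℂ) * (‖r‖ : ℂ) ^ 2 + (-(I / 2)) * ((ip n r : ℝ) : ℂ)) := by
    funext r
    exact Lam_eq ρ n r
  rw [h1, integral_const_mul, int_gauss _ (by positivity)]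
  rw [gam]
  have hI : (-(I / 2)) ^ 2 = (-(1 / 4) : ℂ) := by
    rw [neg_sq, div_pow, I_sq]; norm_num
  rw [hI]
  have h2 : cexp (-((‖n‖ ^ 2 / (4 * ρ ^ 2) : ℝ) : ℂ)) *
      cexp (-(1 / 4) * (‖n‖ : ℂ) ^ 2 / (4 * ((ρ ^ 2 / 4 : ℝ) : ℂ))) =
      ((Real.exp (-(‖n‖ ^ 2 / (2 * ρ ^ 2))) : ℝ) : ℂ) := by
    rw [← Complex.exp_add, Complex.ofReal_exp]
    congr 1
    have : (ρ : ℂ) ≠ 0 := by exact_mod_cast hρ.ne'
    push_cast
    field_simp
    ring
  have h3 : (1 / (8 * (Real.pi : ℂ) ^ 2) * cexp (-((‖n‖ ^ 2 / (4 * ρ ^ 2) : ℝ) : ℂ))) *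
      ((Real.pi / ((ρ ^ 2 / 4 : ℝ) : ℂ) : ℂ) *
        cexp (-(1 / 4) * (‖n‖ : ℂ) ^ 2 / (4 * ((ρ ^ 2 / 4 : ℝ) : ℂ)))) =
      (1 / (8 * (Real.pi : ℂ) ^ 2)) * (Real.pi / ((ρ ^ 2 / 4 : ℝ) : ℂ)) *
      (cexp (-((‖n‖ ^ 2 / (4 * ρ ^ 2) : ℝ) : ℂ)) *
      cexp (-(1 / 4) * (‖n‖ : ℂ) ^ 2 / (4 * ((ρ ^ 2 / 4 : ℝ) : ℂ)))) := by ring
  rw [h3, h2]
  have hr : (ρ : ℂ) ≠ 0 := by exact_mod_cast hρ.ne'
  have hp : (Real.pi : ℂ) ≠ 0 := by exact_mod_cast Real.pi_ne_zero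
  push_cast
  field_simp
  norm_num

theorem norm_Lam (ρ : ℝ) (n r : ℂ) :
    ‖Lam ρ n r‖ = 1 / (8 * Real.pi ^ 2) * Real.exp (-(‖n‖ ^ 2 / (4 * ρ ^ 2))) *
      Real.exp (-(ρ ^ 2 / 4 * ‖r‖ ^ 2)) := by
  rw [Lam, norm_mul, Complex.norm_exp, mul_assoc, ← Real.exp_add]
  congr 1
  · rw [show (1 / (8 * (Real.pi : ℂ) ^ 2)) = ((1 / (8 * Real.pi ^ 2) : ℝ) : ℂ) by push_cast; ring,
      Complex.norm_real, Real.norm_of_nonneg (by positivity)]
  · congr 1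
    simp only [Complex.sub_re, Complex.neg_re, Complex.ofReal_re, Complex.mul_re, Complex.I_re,
      Complex.I_im, Complex.ofReal_im]
    ring

theorem int_norm_Lam (ρ : ℝ) (hρ : 0 < ρ) (n η : ℂ) :
    ∫ r, ‖Lam ρ n (r - η)‖ = Real.exp (-(‖n‖ ^ 2 / (4 * ρ ^ 2))) / (2 * Real.pi * ρ ^ 2) := by
  rw [integral_sub_right_eq_self (fun r => ‖Lam ρ n r‖) η]
  simp_rw [norm_Lam ρ n]
  rw [integral_const_mul, int_rgauss _ (by positivity)]
  have := Real.pi_pos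
  field_simp
  norm_num

/-! ### Cauchy-Schwarz -/

theorem cs (ψ g df : ℂ → ℝ) (C M B δ : ℝ) (hψ : Integrable ψ) (hψ0 : ∀ r, 0 ≤ ψ r)
    (hM : ∫ r, ψ r = M) (hg : Integrable g) (hC : ∀ r, ψ r ≤ C * g r) (hdf : Continuous df)
    (hdf0 : ∀ r, 0 ≤ df r) (hB : ∀ r, df r ≤ B) (hδ : ∫ r, g r * df r = δ) :
    ∫ r, ψ r * Real.sqrt (2 * df r) ≤ Real.sqrt (2 * C * M * δ) ∧
      Integrable (fun r => ψ r * Real.sqrt (2 * df r)) := by
  have hφc : Continuous fun r => Real.sqrt (2 * df r) := (continuous_const.mul hdf).sqrt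
  have hφb : ∀ r, ‖Real.sqrt (2 * df r)‖ ≤ Real.sqrt (2 * B) := fun r => by
    rw [Real.norm_of_nonneg (Real.sqrt_nonneg _)]
    exact Real.sqrt_le_sqrt (by linarith [hB r])
  have hI : Integrable (fun r => ψ r * Real.sqrt (2 * df r)) :=
    hψ.mul_bdd hφc.aestronglyMeasurable (Filter.Eventually.of_forall hφb)
  have hdfb : ∀ r, ‖df r‖ ≤ B := fun r => by
    rw [Real.norm_of_nonneg (hdf0 r)]; exact hB r
  have hI2 : Integrable (fun r => ψ r * df r) :=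
    hψ.mul_bdd hdf.aestronglyMeasurable (Filter.Eventually.of_forall hdfb)
  have hI3 : Integrable (fun r => g r * df r) :=
    hg.mul_bdd hdf.aestronglyMeasurable (Filter.Eventually.of_forall hdfb)
  refine ⟨?_, hI⟩
  have h1 : ∫ r, ψ r * df r ≤ C * δ := by
    rw [← hδ, ← integral_const_mul]
    refine integral_mono hI2 (hI3.const_mul C) fun r => ?_
    have := mul_le_mul_of_nonneg_right (hC r) (hdf0 r)
    simp only
    linarith
  apply Real.le_sqrt_of_sq_le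
  have h2 : ∀ x : ℝ, 0 ≤ M * (x * x) + (-2 * ∫ r, ψ r * Real.sqrt (2 * df r)) * x +
      2 * C * δ := by
    intro x
    have e : (fun r => ψ r * (x - Real.sqrt (2 * df r)) ^ 2) = fun r =>
        (x * x) * ψ r - (2 * x) * (ψ r * Real.sqrt (2 * df r)) + 2 * (ψ r * df r) := by
      funext r
      have := Real.sq_sqrt (show 0 ≤ 2 * df r by linarith [hdf0 r])
      linear_combination (ψ r) * this
    have h3 : 0 ≤ ∫ r, ψ r * (x - Real.sqrt (2 * df r)) ^ 2 :=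
      integral_nonneg fun r => mul_nonneg (hψ0 r) (sq_nonneg _)
    have h5 : ∫ r, ((x * x) * ψ r - (2 * x) * (ψ r * Real.sqrt (2 * df r)) + 2 * (ψ r * df r)) =
        (x * x) * M - (2 * x) * (∫ r, ψ r * Real.sqrt (2 * df r)) + 2 * ∫ r, ψ r * df r := by
      have a1 : Integrable (fun r => (x * x) * ψ r) := hψ.const_mul _
      have a2 : Integrable (fun r => (2 * x) * (ψ r * Real.sqrt (2 * df r))) := hI.const_mul _
      have a3 : Integrable (fun r => 2 * (ψ r * df r)) := hI2.const_mul _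
      have a4 : Integrable (fun r => (x * x) * ψ r - (2 * x) * (ψ r * Real.sqrt (2 * df r))) :=
        a1.sub a2
      rw [integral_add a4 a3, integral_sub a1 a2, integral_const_mul, integral_const_mul,
        integral_const_mul, hM]
    rw [e, h5] at h3
    linarith
  have h4 := discrim_le_zero h2
  rw [discrim] at h4
  nlinarith

/-! ### Kernels against the Gaussian of width `4/ρ` -/

theorem gam_le (ρ : ℝ) (hρ : 0 < ρ) (s r : ℂ) :
    gam (1 / ρ) (r + s) ≤ 16 * Real.exp (ρ ^ 2 * ‖s‖ ^ 2 / 28) * gam (4 / ρ) r := by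
  rw [gam, gam]
  have h1 : -(‖r + s‖ ^ 2 / (2 * (1 / ρ) ^ 2)) ≤ ρ ^ 2 * ‖s‖ ^ 2 / 28 +
      -(‖r‖ ^ 2 / (2 * (4 / ρ) ^ 2)) := by
    have e1 : ‖r + s‖ ^ 2 / (2 * (1 / ρ) ^ 2) = ρ ^ 2 * (‖r + s‖ ^ 2 / 2) := by field_simp
    have e2 : ‖r‖ ^ 2 / (2 * (4 / ρ) ^ 2) = ρ ^ 2 * (‖r‖ ^ 2 / 32) := by field_simp; ring
    have h3 : ‖r‖ ≤ ‖r + s‖ + ‖s‖ := by
      calc ‖r‖ = ‖(r + s) - s‖ := by ring_nf
        _ ≤ _ := norm_sub_le _ _
    have h4 : ‖r‖ ^ 2 / 32 ≤ ‖s‖ ^ 2 / 28 + ‖r + s‖ ^ 2 / 2 := by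
      nlinarith [norm_nonneg r, norm_nonneg s, norm_nonneg (r + s),
        sq_nonneg (‖s‖ - 7 * ‖r + s‖), sq_nonneg (‖s‖ - ‖r + s‖)]
    rw [e1, e2]
    nlinarith [sq_nonneg ρ, mul_le_mul_of_nonneg_left h4 (sq_nonneg ρ)]
  have h2 := Real.exp_le_exp.mpr h1
  rw [Real.exp_add] at h2
  have h5 : 1 / (2 * Real.pi * (1 / ρ) ^ 2) = 16 * (1 / (2 * Real.pi * (4 / ρ) ^ 2)) := by
    have := Real.pi_pos
    field_simp
    norm_num
  rw [h5]
  have h6 : 0 ≤ 16 * (1 / (2 * Real.pi * (4 / ρ) ^ 2)) := by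
    have := Real.pi_pos
    positivity
  calc _ ≤ 16 * (1 / (2 * Real.pi * (4 / ρ) ^ 2)) * (Real.exp (ρ ^ 2 * ‖s‖ ^ 2 / 28) *
        Real.exp (-(‖r‖ ^ 2 / (2 * (4 / ρ) ^ 2)))) := mul_le_mul_of_nonneg_left h2 h6
    _ = _ := by ring

theorem Lam_le (ρ : ℝ) (hρ : 0 < ρ) (n η r : ℂ) :
    ‖Lam ρ n (r - η)‖ ≤ (4 / (Real.pi * ρ ^ 2) * Real.exp (-(‖n‖ ^ 2 / (4 * ρ ^ 2))) *
      Real.exp (ρ ^ 2 * ‖η‖ ^ 2 / 28)) * gam (4 / ρ) r := by
  rw [norm_Lam, gam]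
  have h1 : -(ρ ^ 2 / 4 * ‖r - η‖ ^ 2) ≤ ρ ^ 2 * ‖η‖ ^ 2 / 28 +
      -(‖r‖ ^ 2 / (2 * (4 / ρ) ^ 2)) := by
    have e2 : ‖r‖ ^ 2 / (2 * (4 / ρ) ^ 2) = ρ ^ 2 * (‖r‖ ^ 2 / 32) := by field_simp; ring
    have h3 : ‖r‖ ≤ ‖r - η‖ + ‖η‖ := by
      calc ‖r‖ = ‖(r - η) + η‖ := by ring_nf
        _ ≤ _ := norm_add_le _ _
    have h4 : ‖r‖ ^ 2 / 32 ≤ ‖η‖ ^ 2 / 28 + ‖r - η‖ ^ 2 / 4 := by
      nlinarith [norm_nonneg r, norm_nonneg η, norm_nonneg (r - η),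
        sq_nonneg (‖η‖ - 7 * ‖r - η‖)]
    rw [e2]
    nlinarith [sq_nonneg ρ, mul_le_mul_of_nonneg_left h4 (sq_nonneg ρ)]
  have h2 := Real.exp_le_exp.mpr h1
  rw [Real.exp_add] at h2
  have hpi := Real.pi_pos
  have h5 : 4 / (Real.pi * ρ ^ 2) * (1 / (2 * Real.pi * (4 / ρ) ^ 2)) = 1 / (8 * Real.pi ^ 2) := by
    field_simp
    norm_num
  have h6 : 0 ≤ 1 / (8 * Real.pi ^ 2) * Real.exp (-(‖n‖ ^ 2 / (4 * ρ ^ 2))) := by positivity
  calc _ ≤ 1 / (8 * Real.pi ^ 2) * Real.exp (-(‖n‖ ^ 2 / (4 * ρ ^ 2))) *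
        (Real.exp (ρ ^ 2 * ‖η‖ ^ 2 / 28) * Real.exp (-(‖r‖ ^ 2 / (2 * (4 / ρ) ^ 2)))) :=
        mul_le_mul_of_nonneg_left h2 h6
    _ = _ := by rw [← h5]; ring

/-! ### The windows -/

section

variable {H : Type v} [NormedAddCommGroup H] [InnerProductSpace ℂ H] [CompleteSpace H]

/-- evaluation at `Y` as a continuous linear map -/
noncomputable def prL (Y : H →L[ℂ] H) : S1 H →L[ℂ] ℂ :=
  (ContinuousLinearMap.apply ℂ ℂ Y).comp S1.toDual

theorem prL_apply (X : S1 H) (Y : H →L[ℂ] H) : prL Y X = pr X Y := rfl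

theorem pr_norm_le (X : S1 H) (Y : H →L[ℂ] H) : ‖pr X Y‖ ≤ ‖X‖ * ‖Y‖ := by
  rw [← S1.norm_toDual X]
  exact X.toDual.le_opNorm Y

theorem pr_continuous (X : S1 H) : Continuous fun Y : H →L[ℂ] H => pr X Y := X.toDual.continuous

theorem sn_smul_le (ω : S1 H)
    (h : ∀ S Y : H →L[ℂ] H, sn ω (S * Y) ≤ ‖S‖ * sn ω Y) (c : ℂ) (Y : H →L[ℂ] H) :
    sn ω (c • Y) ≤ ‖c‖ * sn ω Y := by
  have h1 := h (c • (1 : H →L[ℂ] H)) Y
  rw [smul_mul_assoc, one_mul] at h1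
  refine h1.trans (mul_le_mul_of_nonneg_right ?_ (Real.sqrt_nonneg _))
  rw [norm_smul]
  exact mul_le_of_le_one_right (norm_nonneg _) ContinuousLinearMap.norm_id_le

theorem star_integral (f : ℂ → H →L[ℂ] H) : star (∫ r, f r) = ∫ r, star (f r) := by
  have h := ContinuousLinearEquiv.integral_comp_comm (𝕜 := ℝ) (μ := (volume : Measure ℂ))
    (starL' ℝ : (H →L[ℂ] H) ≃L[ℝ] (H →L[ℂ] H)) f
  simpa using h.symm

theorem pr_tD (P : Pair H) (hA : ∀ s, star (ex P.A s) = ex P.A (-s))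
    (hB : ∀ s, star (ex P.B s) = ex P.B (-s)) (s : ℂ) (X : S1 H) (Z : H →L[ℂ] H) :
    pr (tD P s X) (star Z) = pr X (star (tO P (-s) Z)) := by
  have h1 : pr (tD P s X) (star Z) = pr X (ex P.B (-s) * (star Z * ex P.A s)) := rfl
  rw [h1, tO, star_mul, star_mul, hA, hB, neg_neg, neg_neg]

end

section

variable {H : Type v} [NormedAddCommGroup H] [InnerProductSpace ℂ H] [CompleteSpace H]

/-- averages of the translates against a kernel -/
theorem kern (ω : S1 H) (T : (H →L[ℂ] H) → (H →L[ℂ] H)) (q : ℂ → H →L[ℂ] H) (W : H →L[ℂ] H)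
    (g df : ℂ → ℝ) (B δ : ℝ) (hg : Integrable g) (hdf : Continuous df) (hdf0 : ∀ r, 0 ≤ df r)
    (hB : ∀ r, df r ≤ B) (hδ : ∫ r, g r * df r = δ) (hq : Continuous q) (hq1 : ∀ r, ‖q r‖ ≤ 1)
    (hT : ∀ f : ℂ → H →L[ℂ] H, T (∫ r, f r) = ∫ r, T (f r))
    (hTi : ∀ f : ℂ → H →L[ℂ] H, Integrable f → Integrable fun r => T (f r))
    (hTs : ∀ (c : ℂ) (Y : H →L[ℂ] H), sn ω (T (c • Y)) ≤ ‖c‖ * sn ω (T Y))
    (hint : ∀ V : ℂ → H →L[ℂ] H, Integrable V → sn ω (∫ r, V r) ≤ ∫ r, sn ω (V r))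
    (hal : ∀ r, sn ω (T (q r - W)) ^ 2 ≤ 2 * df r)
    (ψ : ℂ → ℂ) (C M : ℝ) (hψ : Integrable ψ) (hC : ∀ r, ‖ψ r‖ ≤ C * g r)
    (hM : ∫ r, ‖ψ r‖ = M) :
    sn ω (T (∫ r, ψ r • (q r - W))) ≤ Real.sqrt (2 * C * M * δ) := by
  have h1 : Integrable fun r => ψ r • (q r - W) := by
    refine Integrable.smul_bdd hψ (1 + ‖W‖) (hq.sub continuous_const).aestronglyMeasurable
      (Filter.Eventually.of_forall fun r => ?_)
    exact (norm_sub_le _ _).trans (add_le_add (hq1 r) le_rfl)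
  rw [hT]
  refine (hint _ (hTi _ h1)).trans ?_
  obtain ⟨h2, h3⟩ := cs (fun r => ‖ψ r‖) g df C M B δ hψ.norm (fun _ => norm_nonneg _) hM hg hC
    hdf hdf0 hB hδ
  refine le_trans (integral_mono_of_nonneg (Filter.Eventually.of_forall fun r => Real.sqrt_nonneg _)
    h3 (Filter.Eventually.of_forall fun r => ?_)) h2
  refine (hTs _ _).trans (mul_le_mul_of_nonneg_left ?_ (norm_nonneg _))
  exact Real.le_sqrt_of_sq_le (hal r)

end

theorem norm_gam (t : ℝ) (ht : 0 < t) (s : ℂ) : ‖((gam t s : ℝ) : ℂ)‖ = gam t s := by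
  rw [Complex.norm_real, Real.norm_of_nonneg]
  rw [gam]
  have := Real.pi_pos
  positivity

end Pool.Bes.KNB

namespace Pool.Bes

open KNB

/-- Block KN. -/
theorem blk_KN : Stmt_Alg.{v} → Stmt_Pos.{v} → Stmt_AL.{v} → Stmt_Fn.{v} → Stmt_Av.{v} →
    Stmt_Ex.{v} → Stmt_KI.{v} → Stmt_KN.{v} := by
  intro hAlg hPos hAL hFn hAv hEx hKI H _ _ _ P X W ω Z ρ hρ hpol hZ hG
  obtain ⟨-, -, -, -, htri, hmul, -, hint, -⟩ := hPos H ω hpol.2.1
  obtain ⟨-, -, hP', -, -, -, -, hal⟩ := hAL H X W ω hpol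
  obtain ⟨-, -, -, -, -, hmul', -, hint', -⟩ := hPos H _ hP'
  obtain ⟨hA0, hAadd, hAstar, hAn, hAc, -, -, -⟩ := hEx H P.A P.hA
  obtain ⟨hB0, hBadd, hBstar, hBn, hBc, -, -, -⟩ := hEx H P.B P.hB
  obtain ⟨-, htDn, htDc, htOc, -, -, -, hgam, -⟩ := hAv H P
  have hρ1 : 0 < 1 / ρ := by positivity
  have hρ4 : 0 < 4 / ρ := by positivity
  obtain ⟨hg41, hg4i, hg4p⟩ := hgam (4 / ρ) hρ4
  obtain ⟨hg11, hg1i, hg1p⟩ := hgam (1 / ρ) hρ1
  obtain ⟨hgρ1, hgρi, hgρp⟩ := hgam ρ hρ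
  -- the translates
  set q : ℂ → H →L[ℂ] H := fun r => tO P (-r) Z with hqdef
  have hqc : Continuous q := (htOc Z).comp continuous_neg
  have hq1 : ∀ r, ‖q r‖ ≤ 1 := by
    intro r
    simp only [hqdef, tO]
    calc ‖ex P.A (-r) * Z * ex P.B (- -r)‖ ≤ ‖ex P.A (-r)‖ * ‖Z‖ * ‖ex P.B (- -r)‖ :=
          (norm_mul_le _ _).trans (mul_le_mul_of_nonneg_right (norm_mul_le _ _) (norm_nonneg _))
      _ ≤ 1 * 1 * 1 := by
          refine mul_le_mul (mul_le_mul (hAn _) hZ (norm_nonneg _) zero_le_one) (hBn _)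
            (norm_nonneg _) (by norm_num)
      _ = 1 := by norm_num
  set df : ℂ → ℝ := fun r => ‖X‖ - (pr X (star (q r))).re with hdfdef
  have hprn : ∀ r, |(pr X (star (q r))).re| ≤ ‖X‖ := by
    intro r
    refine (Complex.abs_re_le_norm _).trans ((pr_norm_le _ _).trans ?_)
    rw [norm_star]
    exact mul_le_of_le_one_right (norm_nonneg _) (hq1 r)
  have hdfc : Continuous df := by
    have h1 : Continuous fun r => pr X (star (q r)) := (pr_continuous X).comp hqc.star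
    exact continuous_const.sub (Complex.continuous_re.comp h1)
  have hdf0 : ∀ r, 0 ≤ df r := fun r => by
    have := (abs_le.mp (hprn r)).2
    simp only [hdfdef]
    linarith
  have hdfB : ∀ r, df r ≤ 2 * ‖X‖ := fun r => by
    have := (abs_le.mp (hprn r)).1
    simp only [hdfdef]
    linarith
  set δ : ℝ := ‖X‖ - ‖G P (4 / ρ) X‖ with hδdef
  have hδ : ∫ r, gam (4 / ρ) r * df r = δ := by
    have h1 : (∫ r, (gam (4 / ρ) r : ℂ) * pr X (star (q r))) = (‖G P (4 / ρ) X‖ : ℂ) := by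
      rw [← hG]
      have h2 : G P (4 / ρ) X = ∫ s : ℂ, (gam (4 / ρ) s : ℂ) • tD P s X := rfl
      rw [h2, ← prL_apply, ← ContinuousLinearMap.integral_comp_comm]
      · refine integral_congr_ae (Filter.Eventually.of_forall fun r => ?_)
        simp only [map_smul, prL_apply, smul_eq_mul]
        rw [pr_tD P hAstar hBstar]
      · have hg4c : AEStronglyMeasurable (fun s : ℂ => (gam (4 / ρ) s : ℂ)) volume :=
          (Complex.continuous_ofReal.comp_aestronglyMeasurable hg4i.aestronglyMeasurable)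
        refine Integrable.mono' (hg4i.mul_const ‖X‖)
          (hg4c.smul (htDc X).aestronglyMeasurable) (Filter.Eventually.of_forall fun r => ?_)
        rw [norm_smul, htDn, norm_gam _ hρ4]
    have h3 : Integrable fun r => (gam (4 / ρ) r : ℂ) * pr X (star (q r)) := by
      refine Integrable.mul_bdd (c := ‖X‖) hg4i.ofReal
        ((pr_continuous X).comp hqc.star).aestronglyMeasurable
        (Filter.Eventually.of_forall fun r => ?_)
      refine (pr_norm_le _ _).trans ?_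
      rw [norm_star]
      exact mul_le_of_le_one_right (norm_nonneg _) (hq1 r)
    have h4 : ∫ r, gam (4 / ρ) r * (pr X (star (q r))).re = ‖G P (4 / ρ) X‖ := by
      have h5 := congrArg Complex.re h1
      rw [Complex.ofReal_re] at h5
      rw [← h5]
      have h6 := integral_re (𝕜 := ℂ) h3
      simp only [RCLike.re_eq_complex_re] at h6
      rw [← h6]
      refine integral_congr_ae (Filter.Eventually.of_forall fun r => ?_)
      simp
    have h7 : Integrable fun r => gam (4 / ρ) r * (pr X (star (q r))).re := by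
      refine h3.re.congr (Filter.Eventually.of_forall fun r => ?_)
      simp
    have h8 : (fun r => gam (4 / ρ) r * df r) = fun r =>
        ‖X‖ * gam (4 / ρ) r - gam (4 / ρ) r * (pr X (star (q r))).re := by
      funext r
      simp only [hdfdef]
      ring
    rw [h8, integral_sub (hg4i.const_mul _) h7, integral_const_mul, hg41, h4, mul_one]
  have hδ0 : 0 ≤ δ := by
    rw [← hδ]
    exact integral_nonneg fun r => mul_nonneg (hg4p r).le (hdf0 r)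
  have hal1 : ∀ r, sn ω (q r - W) ^ 2 ≤ 2 * df r := fun r => (hal (q r) (hq1 r)).1
  have hal2 : ∀ r, sn (rm (star W) X) (star (q r - W)) ^ 2 ≤ 2 * df r :=
    fun r => (hal (q r) (hq1 r)).2
  have K1 := kern ω id q W (gam (4 / ρ)) df (2 * ‖X‖) δ hg4i hdfc hdf0 hdfB hδ hqc hq1
    (fun f => rfl) (fun f hf => hf) (fun c Y => sn_smul_le ω hmul c Y) hint hal1
  have K2 := kern (rm (star W) X) star q W (gam (4 / ρ)) df (2 * ‖X‖) δ hg4i hdfc hdf0 hdfB hδ hqc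
    hq1 star_integral (fun f hf => by
      have := ((starL' ℝ : (H →L[ℂ] H) ≃L[ℝ] (H →L[ℂ] H)) :
        (H →L[ℂ] H) →L[ℝ] (H →L[ℂ] H)).integrable_comp hf
      exact this)
    (fun c Y => by
      rw [star_smul]
      refine (sn_smul_le _ hmul' _ _).trans ?_
      rw [norm_star]) hint' hal2
  have hqi : ∀ ψ : ℂ → ℂ, Integrable ψ → Integrable fun r => ψ r • q r := fun ψ hψ =>
    Integrable.smul_bdd hψ 1 hqc.aestronglyMeasurable (Filter.Eventually.of_forall hq1)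
  have hsub : ∀ ψ : ℂ → ℂ, Integrable ψ → ∫ r, ψ r • (q r - W) =
      (∫ r, ψ r • q r) - (∫ r, ψ r) • W := by
    intro ψ hψ
    have e : (fun r => ψ r • (q r - W)) = fun r => ψ r • q r - ψ r • W := by
      funext r
      rw [smul_sub]
    rw [e, integral_sub (hqi ψ hψ) (hψ.smul_const W), integral_smul_const]
  -- the shifted Gaussian
  have hsh : ∀ s : ℂ, Integrable (fun r => ((gam (1 / ρ) (r + s) : ℝ) : ℂ)) ∧
      ∫ r, ((gam (1 / ρ) (r + s) : ℝ) : ℂ) = 1 ∧ ∫ r, ‖((gam (1 / ρ) (r + s) : ℝ) : ℂ)‖ = 1 := by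
    intro s
    refine ⟨(hg1i.comp_add_right s).ofReal, ?_, ?_⟩
    · rw [integral_add_right_eq_self (fun r => ((gam (1 / ρ) r : ℝ) : ℂ)) s, integral_complex_ofReal,
        hg11, Complex.ofReal_one]
    · simp_rw [norm_gam _ hρ1]
      rw [integral_add_right_eq_self (fun r => gam (1 / ρ) r) s, hg11]
  have hY : ∀ s : ℂ, tO P s (∫ r, (gam (1 / ρ) r : ℂ) • tO P (-r) Z) =
      ∫ r, ((gam (1 / ρ) (r + s) : ℝ) : ℂ) • q r := by
    intro s
    have h1 := ContinuousLinearMap.integral_comp_comm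
      (ContinuousLinearMap.mulLeftRight ℂ (H →L[ℂ] H) (ex P.A s) (ex P.B (-s)))
      (hqi (fun r => (gam (1 / ρ) r : ℂ)) hg1i.ofReal)
    simp only [ContinuousLinearMap.mulLeftRight_apply] at h1
    rw [tO, ← h1]
    have h2 := integral_add_right_eq_self (μ := (volume : Measure ℂ))
      (fun r => ((gam (1 / ρ) r : ℝ) : ℂ) • q (r - s)) s
    simp only [add_sub_cancel_right] at h2
    rw [h2]
    refine integral_congr_ae (Filter.Eventually.of_forall fun r => ?_)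
    simp only [hqdef, tO]
    rw [mul_smul_comm, smul_mul_assoc]
    congr 1
    rw [show -(r - s) = s + -r by ring, hAadd, show - (s + -r) = - -r + -s by ring, hBadd]
    simp only [mul_assoc]
  have hY0 : (∫ r, (gam (1 / ρ) r : ℂ) • tO P (-r) Z) = ∫ r, ((gam (1 / ρ) r : ℝ) : ℂ) • q r := rfl
  have hYW : ∀ s : ℂ, tO P s (∫ r, (gam (1 / ρ) r : ℂ) • tO P (-r) Z) - W =
      ∫ r, ((gam (1 / ρ) (r + s) : ℝ) : ℂ) • (q r - W) := by
    intro s
    rw [hY s, hsub _ (hsh s).1, (hsh s).2.1, one_smul]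
  have hCs : ∀ s r : ℂ, ‖((gam (1 / ρ) (r + s) : ℝ) : ℂ)‖ ≤
      (16 * Real.exp (ρ ^ 2 * ‖s‖ ^ 2 / 28)) * gam (4 / ρ) r := by
    intro s r
    rw [norm_gam _ hρ1]
    exact gam_le ρ hρ s r
  have hsq : ∀ x : ℂ, Real.sqrt (Real.exp (ρ ^ 2 * ‖x‖ ^ 2 / 28)) =
      Real.exp (ρ ^ 2 * ‖x‖ ^ 2 / 56) := by
    intro x
    rw [← Real.exp_half]
    congr 1
    ring
  have hg1I : Integrable (fun r : ℂ => ((gam (1 / ρ) r : ℝ) : ℂ)) := hg1i.ofReal
  have hg1J : ∫ r : ℂ, ((gam (1 / ρ) r : ℝ) : ℂ) = 1 := by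
    rw [integral_complex_ofReal, hg11, Complex.ofReal_one]
  have hW0 : ∫ r, ((gam (1 / ρ) r : ℝ) : ℂ) • (q r - W) =
      (∫ r, ((gam (1 / ρ) r : ℝ) : ℂ) • q r) - W := by
    rw [hsub _ hg1I, hg1J, one_smul]
  have part1 : sn ω ((∫ r, (gam (1 / ρ) r : ℂ) • tO P (-r) Z) - W) ≤ Real.sqrt (32 * δ) := by
    have h1 : (∫ r, (gam (1 / ρ) r : ℂ) • tO P (-r) Z) - W =
        ∫ r, ((gam (1 / ρ) (r + 0) : ℝ) : ℂ) • (q r - W) := by
      simp only [add_zero]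
      rw [hW0]
    rw [h1]
    have h2 := K1 _ _ 1 (hsh 0).1 (hCs 0) (hsh 0).2.2
    simp only [id] at h2
    refine h2.trans (Real.sqrt_le_sqrt (le_of_eq ?_))
    have e0 : Real.exp (ρ ^ 2 * ‖(0 : ℂ)‖ ^ 2 / 28) = 1 := by simp
    rw [e0]
    ring
  refine ⟨part1, ?_, ?_⟩
  · intro s
    rw [hYW s]
    have h2 := K2 _ _ 1 (hsh s).1 (hCs s) (hsh s).2.2
    refine h2.trans (le_of_eq ?_)
    rw [show 2 * (16 * Real.exp (ρ ^ 2 * ‖s‖ ^ 2 / 28)) * 1 * δ =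
      Real.exp (ρ ^ 2 * ‖s‖ ^ 2 / 28) * (32 * δ) by ring, Real.sqrt_mul (Real.exp_pos _).le, hsq]
  · intro a ha U hU η
    have hU0 : 0 ≤ U := (norm_nonneg _).trans (hU 0)
    rw [hKI H P Z a ha ρ hρ η]
    set E : ℝ := Real.exp (ρ ^ 2 * ‖η‖ ^ 2 / 56) with hE
    have hE1 : 1 ≤ E := Real.one_le_exp (by positivity)
    have hpi := Real.pi_pos
    have hrhs : 0 ≤ 14 * U * E * Real.sqrt δ := by positivity
    by_cases hVi : Integrable fun n : ℂ => fn (syn fun ξ => ch ξ n * a ξ) P.A * ex P.A η *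
      ∫ r : ℂ, ((gam ρ n : ℂ) * gam (1 / ρ) r - Lam ρ n (r - η)) • tO P (-r) Z
    swap
    · rw [integral_undef hVi]
      have : sn ω (0 : H →L[ℂ] H) = 0 := by
        rw [sn]
        simp [pr]
      rw [this]
      exact hrhs
    refine (hint _ hVi).trans ?_
    have hSn : ∀ n : ℂ, ‖fn (syn fun ξ => ch ξ n * a ξ) P.A * ex P.A η‖ ≤ U := by
      intro n
      have hch : ∀ ξ : ℂ, ‖ch ξ n‖ = 1 := fun ξ => by
        rw [ch, Complex.norm_exp]
        simp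
      have hchc : Continuous fun ξ : ℂ => ch ξ n := by
        unfold ch ip
        fun_prop
      have hai : Integrable fun ξ => ch ξ n * a ξ :=
        ha.bdd_mul (c := 1) hchc.aestronglyMeasurable
          (Filter.Eventually.of_forall fun ξ => (hch ξ).le)
      obtain ⟨-, -, h3, -, -⟩ := hFn H P.A P.hA _ hai
      obtain ⟨-, -, -, h4, -⟩ := hFn H P.A P.hA a ha
      have h5 : ‖fn (syn fun ξ => ch ξ n * a ξ) P.A‖ ≤ U := by
        refine h3 U fun z => ?_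
        rw [h4 n z]
        exact hU _
      calc _ ≤ ‖fn (syn fun ξ => ch ξ n * a ξ) P.A‖ * ‖ex P.A η‖ := norm_mul_le _ _
        _ ≤ U * 1 := mul_le_mul h5 (hAn _) (norm_nonneg _) hU0
        _ = U := mul_one _
    have hLi : ∀ n : ℂ, Integrable fun r => Lam ρ n (r - η) := fun n =>
      (integrable_Lam ρ hρ n).comp_sub_right η
    have hin : ∀ n : ℂ, sn ω (∫ r : ℂ, ((gam ρ n : ℂ) * gam (1 / ρ) r - Lam ρ n (r - η)) •
        tO P (-r) Z) ≤ gam ρ n * Real.sqrt (32 * δ) +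
        2 / (Real.pi * ρ ^ 2) * Real.exp (-(‖n‖ ^ 2 / (4 * ρ ^ 2))) * E * Real.sqrt δ := by
      intro n
      have h1 : (∫ r : ℂ, ((gam ρ n : ℂ) * gam (1 / ρ) r - Lam ρ n (r - η)) • tO P (-r) Z) =
          (gam ρ n : ℂ) • (∫ r, ((gam (1 / ρ) r : ℝ) : ℂ) • (q r - W)) +
          (-1 : ℂ) • ∫ r, Lam ρ n (r - η) • (q r - W) := by
        rw [hW0, hsub _ (hLi n), integral_sub_right_eq_self (fun r => Lam ρ n r) η,
          int_Lam ρ hρ n]
        have e : (fun r : ℂ => ((gam ρ n : ℂ) * gam (1 / ρ) r - Lam ρ n (r - η)) • tO P (-r) Z) =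
            fun r => (gam ρ n : ℂ) • (((gam (1 / ρ) r : ℝ) : ℂ) • q r) - Lam ρ n (r - η) • q r := by
          funext r
          rw [sub_smul, mul_smul]
        have hqg : Integrable fun r : ℂ => (gam ρ n : ℂ) • (((gam (1 / ρ) r : ℝ) : ℂ) • q r) :=
          (hqi _ hg1I).smul (gam ρ n : ℂ)
        rw [e, integral_sub hqg (hqi _ (hLi n)), integral_smul]
        module
      rw [h1]
      refine (htri _ _).trans (add_le_add ?_ ?_)
      · refine (sn_smul_le ω hmul _ _).trans ?_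
        rw [norm_gam _ hρ]
        refine mul_le_mul_of_nonneg_left ?_ (hgρp n).le
        have h2 := part1
        rw [hY0] at h2
        rw [hW0]
        exact h2
      · refine (sn_smul_le ω hmul _ _).trans ?_
        rw [norm_neg, norm_one, one_mul]
        have h2 := K1 (fun r => Lam ρ n (r - η)) _ _ (hLi n) (Lam_le ρ hρ n η)
          (int_norm_Lam ρ hρ n η)
        simp only [id] at h2
        refine h2.trans (le_of_eq ?_)
        rw [show 2 * (4 / (Real.pi * ρ ^ 2) * Real.exp (-(‖n‖ ^ 2 / (4 * ρ ^ 2))) *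
          Real.exp (ρ ^ 2 * ‖η‖ ^ 2 / 28)) *
          (Real.exp (-(‖n‖ ^ 2 / (4 * ρ ^ 2))) / (2 * Real.pi * ρ ^ 2)) * δ =
          (2 / (Real.pi * ρ ^ 2) * Real.exp (-(‖n‖ ^ 2 / (4 * ρ ^ 2)))) ^ 2 *
          (Real.exp (ρ ^ 2 * ‖η‖ ^ 2 / 28) * δ) by field_simp; ring]
        rw [Real.sqrt_mul (sq_nonneg _), Real.sqrt_sq (by positivity),
          Real.sqrt_mul (Real.exp_pos _).le, hsq, ← hE]
        ring
    have hbi : Integrable fun n : ℂ => U * (gam ρ n * Real.sqrt (32 * δ) +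
        2 / (Real.pi * ρ ^ 2) * Real.exp (-(‖n‖ ^ 2 / (4 * ρ ^ 2))) * E * Real.sqrt δ) := by
      refine Integrable.const_mul (Integrable.add (hgρi.mul_const _) ?_) U
      have h1 := (integrable_rgauss (1 / (4 * ρ ^ 2)) (by positivity)).const_mul
        (2 / (Real.pi * ρ ^ 2) * E * Real.sqrt δ)
      refine h1.congr (Filter.Eventually.of_forall fun n => ?_)
      simp only
      rw [show 1 / (4 * ρ ^ 2) * ‖n‖ ^ 2 = ‖n‖ ^ 2 / (4 * ρ ^ 2) by ring]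
      ring
    refine (integral_mono_of_nonneg (Filter.Eventually.of_forall fun n => Real.sqrt_nonneg _) hbi
      (Filter.Eventually.of_forall fun n => ?_)).trans ?_
    · refine (hmul _ _).trans ?_
      exact mul_le_mul (hSn n) (hin n) (Real.sqrt_nonneg _) hU0
    · have h2 : Integrable fun n : ℂ =>
          2 / (Real.pi * ρ ^ 2) * Real.exp (-(‖n‖ ^ 2 / (4 * ρ ^ 2))) * E * Real.sqrt δ := by
        have h1 := (integrable_rgauss (1 / (4 * ρ ^ 2)) (by positivity)).const_mul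
          (2 / (Real.pi * ρ ^ 2) * E * Real.sqrt δ)
        refine h1.congr (Filter.Eventually.of_forall fun n => ?_)
        simp only
        rw [show 1 / (4 * ρ ^ 2) * ‖n‖ ^ 2 = ‖n‖ ^ 2 / (4 * ρ ^ 2) by ring]
        ring
      have h3 : ∫ n : ℂ, 2 / (Real.pi * ρ ^ 2) * Real.exp (-(‖n‖ ^ 2 / (4 * ρ ^ 2))) * E *
          Real.sqrt δ = 8 * E * Real.sqrt δ := by
        have e : (fun n : ℂ => 2 / (Real.pi * ρ ^ 2) * Real.exp (-(‖n‖ ^ 2 / (4 * ρ ^ 2))) * E *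
            Real.sqrt δ) = fun n => (2 / (Real.pi * ρ ^ 2) * E * Real.sqrt δ) *
            Real.exp (-(1 / (4 * ρ ^ 2) * ‖n‖ ^ 2)) := by
          funext n
          rw [show 1 / (4 * ρ ^ 2) * ‖n‖ ^ 2 = ‖n‖ ^ 2 / (4 * ρ ^ 2) by ring]
          ring
        rw [e, integral_const_mul, int_rgauss _ (by positivity)]
        field_simp
        ring
      rw [integral_const_mul, integral_add (hgρi.mul_const _) h2, integral_mul_const, hgρ1, h3]
      have h4 : Real.sqrt (32 * δ) ≤ 6 * Real.sqrt δ := by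
        rw [show (6 : ℝ) * Real.sqrt δ = Real.sqrt (36 * δ) by
          rw [Real.sqrt_mul (by norm_num), show (36 : ℝ) = 6 ^ 2 by norm_num,
            Real.sqrt_sq (by norm_num)]]
        exact Real.sqrt_le_sqrt (by linarith)
      have h5 : (0 : ℝ) ≤ Real.sqrt δ := Real.sqrt_nonneg _
      have h6 : Real.sqrt δ ≤ E * Real.sqrt δ := le_mul_of_one_le_left h5 hE1
      have h7 : 1 * Real.sqrt (32 * δ) + 8 * E * Real.sqrt δ ≤ 14 * E * Real.sqrt δ := by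
        nlinarith
      calc U * (1 * Real.sqrt (32 * δ) + 8 * E * Real.sqrt δ) ≤ U * (14 * E * Real.sqrt δ) :=
            mul_le_mul_of_nonneg_left h7 hU0
        _ = _ := by ring

end Pool.Bes
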