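import Pool.Agent.Work.Bes.Interface

/-!
# Block LIM: `T (k_r * f) → T f`
-/

open MeasureTheory Complex
open scoped ComplexOrder InnerProductSpace ComplexConjugate

set_option autoImplicit false
set_option linter.unusedSectionVars false

universe v

namespace Pool.Bes

namespace LimBlock

variable {H : Type v} [NormedAddCommGroup H] [InnerProductSpace ℂ H] [CompleteSpace H]

theorem norm_tr_le (X : S1 H) : ‖tr X‖ ≤ ‖X‖ := by
  have h := X.toDual.le_opNorm (1 : H →L[ℂ] H)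
  rw [S1.norm_toDual] at h
  have h1 : ‖(1 : H →L[ℂ] H)‖ ≤ 1 := ContinuousLinearMap.norm_id_le
  refine h.trans ?_
  exact mul_le_of_le_one_right (norm_nonneg _) h1

theorem continuous_tr : Continuous (tr : S1 H → ℂ) :=
  ((ContinuousLinearMap.apply ℂ ℂ (1 : H →L[ℂ] H)).comp S1.toDual).continuous

end LimBlock

open LimBlock

theorem blk_LIM (hDu : Stmt_Du.{v}) (hW : Stmt_Wt) : Stmt_Lim.{v} := by
  intro H _ _ _ P a ha l
  obtain ⟨-, -, -, hEd, hEc, -, -, -, -, -, -, -, -, hT⟩ := hDu H P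
  rw [(hT a ha).2.2]
  have h1 : (fun K : ℕ => T P (gm (l / 2 ^ K) a)) =
      fun K : ℕ => ∫ ξ, gm (l / 2 ^ K) a ξ * tr (Ed P ξ) := by
    funext K
    exact (hT _ (hW.2.1 a (l / 2 ^ K) ha)).2.2
  rw [h1]
  refine tendsto_integral_of_dominated_convergence (fun ξ => (‖ξ‖ ^ 1 * ‖a ξ‖) * P.d) ?_ ?_ ?_ ?_
  · intro K
    exact (hW.2.1 a (l / 2 ^ K) ha).1.mul (continuous_tr.comp hEc).aestronglyMeasurable
  · exact (ha.2 1).mul_const _
  · intro K
    refine Filter.Eventually.of_forall fun ξ => ?_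
    rw [norm_mul, gm, norm_mul, Complex.norm_real, Real.norm_of_nonneg (Real.exp_pos _).le]
    have h2 : Real.exp (-((l / 2 ^ K) ^ 2 * ‖ξ‖ ^ 2 / 2)) ≤ 1 := by
      rw [Real.exp_le_one_iff]
      have : 0 ≤ (l / 2 ^ K) ^ 2 * ‖ξ‖ ^ 2 / 2 := by positivity
      linarith
    have h3 : ‖tr (Ed P ξ)‖ ≤ ‖ξ‖ * P.d := (norm_tr_le _).trans (hEd ξ)
    calc Real.exp (-((l / 2 ^ K) ^ 2 * ‖ξ‖ ^ 2 / 2)) * ‖a ξ‖ * ‖tr (Ed P ξ)‖
        ≤ 1 * ‖a ξ‖ * (‖ξ‖ * P.d) := by gcongr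
      _ = (‖ξ‖ ^ 1 * ‖a ξ‖) * P.d := by ring
  · refine Filter.Eventually.of_forall fun ξ => ?_
    have h2 : Filter.Tendsto (fun K : ℕ => l / 2 ^ K) Filter.atTop (nhds 0) := by
      have h3 : Filter.Tendsto (fun K : ℕ => l * (1 / 2 : ℝ) ^ K) Filter.atTop (nhds (l * 0)) :=
        (tendsto_pow_atTop_nhds_zero_of_lt_one (by norm_num) (by norm_num)).const_mul l
      rw [mul_zero] at h3
      refine h3.congr fun K => ?_
      rw [one_div, inv_pow]
      rfl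
    have h4 : Continuous (fun r : ℝ => gm r a ξ * tr (Ed P ξ)) := by
      unfold gm
      fun_prop
    have h5 := (h4.tendsto 0).comp h2
    have h6 : gm 0 a ξ * tr (Ed P ξ) = a ξ * tr (Ed P ξ) := by
      simp [gm]
    rw [h6] at h5
    exact h5

end Pool.Bes
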