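import Pool.Agent.Work.Bes.Interface

/-!
# Block LMT: from `sin (θ Q)` to `Q`
-/

open MeasureTheory Complex Finset
open scoped ComplexOrder InnerProductSpace ComplexConjugate

set_option autoImplicit false

universe v

namespace Pool.Bes

section

variable {H : Type v} [NormedAddCommGroup H] [InnerProductSpace ℂ H] [CompleteSpace H]

theorem pr_add_right (X : S1 H) (Y Z : H →L[ℂ] H) : pr X (Y + Z) = pr X Y + pr X Z := by
  rw [pr, pr, pr, map_add]

theorem pr_smul_right (X : S1 H) (c : ℂ) (Y : H →L[ℂ] H) : pr X (c • Y) = c * pr X Y := by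
  rw [pr, pr, map_smul, smul_eq_mul]

theorem II_add (P : Pair H) (ζ : ℂ) {f g : ℂ → ℂ} (hf : Continuous f) (hg : Continuous g) :
    II P ζ (fun z => f z + g z) = II P ζ f + II P ζ g := by
  rw [II, II, II, fn, fn, fn, fn, fn, fn, cfc_add P.A f g hf.continuousOn hg.continuousOn,
    cfc_add P.B f g hf.continuousOn hg.continuousOn, mul_add, add_mul, pr_add_right, pr_add_right]
  ring

theorem II_const_mul (P : Pair H) (ζ : ℂ) (c : ℂ) {f : ℂ → ℂ} (hf : Continuous f) :
    II P ζ (fun z => c * f z) = c * II P ζ f := by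
  rw [II, II, fn, fn, fn, fn, cfc_const_mul c f P.A hf.continuousOn,
    cfc_const_mul c f P.B hf.continuousOn, mul_smul_comm, smul_mul_assoc, pr_smul_right,
    pr_smul_right]
  ring

theorem II_zero (P : Pair H) (ζ : ℂ) : II P ζ (fun _ => 0) = 0 := by
  have h := II_const_mul P ζ 0 (f := fun _ => 0) continuous_const
  simpa using h

theorem II_sum (P : Pair H) (ζ : ℂ) (α : ℕ → ℝ) (g : ℕ → ℂ → ℝ) (hg : ∀ n, Continuous (g n))
    (N : ℕ) : II P ζ (fun z => ((∑ n ∈ range N, α n * g n z : ℝ) : ℂ)) =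
      ∑ n ∈ range N, (α n : ℂ) * II P ζ (fun z => (g n z : ℂ)) := by
  induction N with
  | zero => simpa using II_zero P ζ
  | succ N ih =>
    have c1 : Continuous fun z => (g N z : ℂ) := Complex.continuous_ofReal.comp (hg N)
    have c2 : Continuous fun z => ((∑ n ∈ range N, α n * g n z : ℝ) : ℂ) :=
      Complex.continuous_ofReal.comp (continuous_finsetSum _ fun n _ => continuous_const.mul (hg n))
    have c3 : Continuous fun z => (α N : ℂ) * (g N z : ℂ) := continuous_const.mul c1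
    rw [sum_range_succ, ← ih, ← II_const_mul P ζ (α N : ℂ) c1, ← II_add P ζ c2 c3]
    congr 1
    funext z
    rw [sum_range_succ]
    push_cast
    rfl

theorem norm_II_le (hAlg : Stmt_Alg.{v}) (hDu : Stmt_Du.{v}) (P : Pair H) (ζ : ℂ) {f : ℂ → ℂ}
    {S : ℝ} (hS : 0 ≤ S) (hf : ∀ z, ‖f z‖ ≤ S) :
    ‖II P ζ f‖ ≤ 4 * ‖tD P ζ (U P ζ)‖ * S := by
  obtain ⟨-, -, -, -, -, -, al7, -⟩ := hAlg H
  obtain ⟨-, -, -, -, -, -, -, du8, -⟩ := hDu H P
  have h1 : ∀ N : H →L[ℂ] H, ‖fn f N‖ ≤ S := fun N => norm_cfc_le hS fun z _ => hf z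
  have h2 := du8 ζ
  have h3 : ‖star (op (U P ζ)) * fn f P.A‖ ≤ 2 * S := by
    refine (norm_mul_le _ _).trans ?_
    rw [norm_star]
    exact mul_le_mul h2 (h1 _) (norm_nonneg _) (by norm_num)
  have h4 : ‖fn f P.B * star (op (U P ζ))‖ ≤ 2 * S := by
    refine (norm_mul_le _ _).trans ?_
    rw [norm_star, mul_comm]
    exact mul_le_mul h2 (h1 _) (norm_nonneg _) (by norm_num)
  rw [II]
  refine (norm_add_le _ _).trans ?_
  have h5 := (al7 (tD P ζ (U P ζ)) (star (op (U P ζ)) * fn f P.A)).trans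
    (mul_le_mul_of_nonneg_left h3 (norm_nonneg _))
  have h6 := (al7 (tD P ζ (U P ζ)) (fn f P.B * star (op (U P ζ)))).trans
    (mul_le_mul_of_nonneg_left h4 (norm_nonneg _))
  linarith

end

theorem blk_LMT (hAlg : Stmt_Alg.{v}) (hDu : Stmt_Du.{v}) (hL0 : Stmt_LMT0.{v}) (hSin : Stmt_Sin)
    (hEN : Stmt_EN.{v}) : Stmt_LMT.{v} := by
  obtain ⟨α, θ, s1, s2, hsum⟩ := hSin
  set A1 := ∑' n, |α n| with hA1
  set A2 := ∑' n, |α n| * θ n ^ 2 with hA2
  have hA1' : 0 ≤ A1 := tsum_nonneg fun _ => abs_nonneg _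
  have hA2' : 0 ≤ A2 := tsum_nonneg fun _ => mul_nonneg (abs_nonneg _) (sq_nonneg _)
  refine ⟨A1 + 6 * A2, by positivity, ?_⟩
  intro H _ _ _ P Q hQ hQ1 q hq ζ
  have hEN0 : 0 ≤ EN P ζ := (hEN H P ζ).2.1
  set D := ‖cm P (fun z => (Q z : ℂ)) q‖ with hD
  have hD0 : 0 ≤ D := norm_nonneg _
  set K := 4 * ‖tD P ζ (U P ζ)‖ with hK
  have hg : ∀ n, Continuous fun z => Real.sin (θ n * Q z) := fun n =>
    Real.continuous_sin.comp (continuous_const.mul hQ)
  -- tails
  have tail : ∀ N : ℕ, ∀ z : ℂ, |Q z - ∑ n ∈ range N, α n * Real.sin (θ n * Q z)| ≤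
      ∑' n, |α (n + N)| := by
    intro N z
    have h1 := hsum (Q z) (hQ1 z)
    have h2 : HasSum (fun n => α (n + N) * Real.sin (θ (n + N) * Q z))
        (Q z - ∑ n ∈ range N, α n * Real.sin (θ n * Q z)) := (hasSum_nat_add_iff' N).2 h1
    have h3 : Summable fun n => |α (n + N)| := (summable_nat_add_iff N).2 s1
    rw [← h2.tsum_eq, ← Real.norm_eq_abs]
    refine tsum_of_norm_bounded h3.hasSum fun n => ?_
    rw [Real.norm_eq_abs, abs_mul]
    calc |α (n + N)| * |Real.sin (θ (n + N) * Q z)| ≤ |α (n + N)| * 1 :=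
          mul_le_mul_of_nonneg_left (Real.abs_sin_le_one _) (abs_nonneg _)
      _ = |α (n + N)| := mul_one _
  have bound : ∀ N : ℕ, |(II P ζ (fun z => (Q z : ℂ))).im| ≤
      (A1 + 6 * A2) * (EN P ζ + D) + K * ∑' n, |α (n + N)| := by
    intro N
    set S : ℂ → ℝ := fun z => ∑ n ∈ range N, α n * Real.sin (θ n * Q z) with hS
    have hSc : Continuous S :=
      continuous_finsetSum _ fun n _ => continuous_const.mul (hg n)
    have c1 : Continuous fun z => (S z : ℂ) := Complex.continuous_ofReal.comp hSc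
    have c2 : Continuous fun z => ((Q z - S z : ℝ) : ℂ) :=
      Complex.continuous_ofReal.comp (hQ.sub hSc)
    have e1 : II P ζ (fun z => (Q z : ℂ)) = II P ζ (fun z => (S z : ℂ)) +
        II P ζ (fun z => ((Q z - S z : ℝ) : ℂ)) := by
      rw [← II_add P ζ c1 c2]
      congr 1
      funext z
      push_cast
      ring
    have e2 := II_sum P ζ α (fun n z => Real.sin (θ n * Q z)) hg N
    have h1 : |(II P ζ (fun z => (S z : ℂ))).im| ≤ (A1 + 6 * A2) * (EN P ζ + D) := by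
      have e3 : II P ζ (fun z => (S z : ℂ)) =
          ∑ n ∈ range N, (α n : ℂ) * II P ζ (fun z => (Real.sin (θ n * Q z) : ℂ)) := e2
      rw [e3, Complex.im_sum]
      refine (abs_sum_le_sum_abs _ _).trans ?_
      have h2 : ∀ n ∈ range N, |((α n : ℂ) * II P ζ (fun z => (Real.sin (θ n * Q z) : ℂ))).im| ≤
          |α n| * EN P ζ + 6 * (|α n| * θ n ^ 2) * D := by
        intro n _
        rw [Complex.im_ofReal_mul, abs_mul]
        have h3 := hL0 H P Q hQ q hq (θ n) ζ
        calc |α n| * |(II P ζ (fun z => (Real.sin (θ n * Q z) : ℂ))).im|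
            ≤ |α n| * (EN P ζ + 6 * θ n ^ 2 * D) := mul_le_mul_of_nonneg_left h3 (abs_nonneg _)
          _ = |α n| * EN P ζ + 6 * (|α n| * θ n ^ 2) * D := by ring
      refine (sum_le_sum h2).trans ?_
      rw [sum_add_distrib, ← sum_mul, ← sum_mul, ← mul_sum]
      have h4 : ∑ n ∈ range N, |α n| ≤ A1 := s1.sum_le_tsum _ fun _ _ => abs_nonneg _
      have h5 : ∑ n ∈ range N, |α n| * θ n ^ 2 ≤ A2 :=
        s2.sum_le_tsum _ fun _ _ => mul_nonneg (abs_nonneg _) (sq_nonneg _)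
      have h6 := mul_le_mul_of_nonneg_right h4 hEN0
      have h7 := mul_le_mul_of_nonneg_right h5 hD0
      nlinarith [mul_nonneg hA1' hD0, mul_nonneg hA2' hEN0]
    have h2 : ‖II P ζ (fun z => ((Q z - S z : ℝ) : ℂ))‖ ≤ K * ∑' n, |α (n + N)| := by
      refine norm_II_le hAlg hDu P ζ (tsum_nonneg fun _ => abs_nonneg _) fun z => ?_
      rw [Complex.norm_real, Real.norm_eq_abs]
      exact tail N z
    rw [e1, Complex.add_im]
    refine (abs_add_le _ _).trans (add_le_add h1 ?_)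
    exact (Complex.abs_im_le_norm _).trans h2
  have hlim : Filter.Tendsto (fun N : ℕ => (A1 + 6 * A2) * (EN P ζ + D) +
      K * ∑' n, |α (n + N)|) Filter.atTop (nhds ((A1 + 6 * A2) * (EN P ζ + D) + K * 0)) :=
    (tendsto_const_nhds).add ((tendsto_sum_nat_add fun n => |α n|).const_mul K)
  rw [mul_zero, add_zero] at hlim
  exact ge_of_tendsto hlim (Filter.Eventually.of_forall bound)

end Pool.Bes
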