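import Pool.Agent.Work.Bes.Interface

/-!
Block LMT0: the localised inequality for two aligned windows, for `sin (θ Q)`.
-/

open MeasureTheory Complex
open scoped ComplexOrder InnerProductSpace ComplexConjugate

set_option autoImplicit false

universe v

namespace Pool.Bes

namespace LMT0

variable {H : Type v} [NormedAddCommGroup H] [InnerProductSpace ℂ H] [CompleteSpace H]

/-- `g (Q (N))` -/
noncomputable def F (Q : ℂ → ℝ) (N : H →L[ℂ] H) (g : ℝ → ℝ) : H →L[ℂ] H :=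
  fn (fun z => ((g (Q z) : ℝ) : ℂ)) N

theorem cont {Q : ℂ → ℝ} (hQ : Continuous Q) {g : ℝ → ℝ} (hg : Continuous g) :
    Continuous (fun z => ((g (Q z) : ℝ) : ℂ)) := by
  fun_prop

theorem F_mul {Q : ℂ → ℝ} (hQ : Continuous Q) (N : H →L[ℂ] H) {g k : ℝ → ℝ}
    (hg : Continuous g) (hk : Continuous k) :
    F Q N g * F Q N k = F Q N (fun x => g x * k x) := by
  unfold F fn
  rw [← cfc_mul (fun z => ((g (Q z) : ℝ) : ℂ)) (fun z => ((k (Q z) : ℝ) : ℂ)) N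
    (cont hQ hg).continuousOn (cont hQ hk).continuousOn]
  congr 1
  funext z
  push_cast
  rfl

theorem F_add {Q : ℂ → ℝ} (hQ : Continuous Q) (N : H →L[ℂ] H) {g k : ℝ → ℝ}
    (hg : Continuous g) (hk : Continuous k) :
    F Q N g + F Q N k = F Q N (fun x => g x + k x) := by
  unfold F fn
  rw [← cfc_add N (fun z => ((g (Q z) : ℝ) : ℂ)) (fun z => ((k (Q z) : ℝ) : ℂ))
    (cont hQ hg).continuousOn (cont hQ hk).continuousOn]
  congr 1
  funext z
  push_cast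
  rfl

theorem F_smul {Q : ℂ → ℝ} (hQ : Continuous Q) (N : H →L[ℂ] H) {g : ℝ → ℝ}
    (hg : Continuous g) (c : ℝ) :
    (c : ℂ) • F Q N g = F Q N (fun x => c * g x) := by
  unfold F fn
  rw [← cfc_smul (c : ℂ) (fun z => ((g (Q z) : ℝ) : ℂ)) N (cont hQ hg).continuousOn]
  congr 1
  funext z
  push_cast
  rfl

theorem F_one {Q : ℂ → ℝ} (N : H →L[ℂ] H) (hN : IsStarNormal N) :
    F Q N (fun _ => 1) = 1 := by
  unfold F fn
  simpa using cfc_const_one ℂ N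

theorem F_star (Q : ℂ → ℝ) (N : H →L[ℂ] H) (g : ℝ → ℝ) :
    star (F Q N g) = F Q N g := by
  unfold F fn
  rw [← cfc_star]
  congr 1
  funext z
  simp

theorem F_norm {Q : ℂ → ℝ} (N : H →L[ℂ] H) {g : ℝ → ℝ} {c : ℝ} (hc : 0 ≤ c)
    (h : ∀ x, |g x| ≤ c) : ‖F Q N g‖ ≤ c := by
  unfold F fn
  refine norm_cfc_le hc fun z _ => ?_
  rw [Complex.norm_real]
  exact h _

theorem eQ_eq {Q : ℂ → ℝ} (hQ : Continuous Q) (N : H →L[ℂ] H) (θ : ℝ) :
    fn (eQ θ Q) N = F Q N (fun x => Real.cos (θ * x)) +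
      Complex.I • F Q N (fun x => Real.sin (θ * x)) := by
  unfold F fn
  have h1 : Continuous fun x : ℝ => Real.cos (θ * x) := by fun_prop
  have h2 : Continuous fun x : ℝ => Real.sin (θ * x) := by fun_prop
  have h3 := cont hQ h1
  have h4 := cont hQ h2
  have h5 : Continuous fun z : ℂ => Complex.I • ((Real.sin (θ * Q z) : ℝ) : ℂ) := by fun_prop
  rw [← cfc_smul Complex.I (fun z => ((Real.sin (θ * Q z) : ℝ) : ℂ)) N (cont hQ h2).continuousOn,
    ← cfc_add N (fun z => ((Real.cos (θ * Q z) : ℝ) : ℂ))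
      (fun z => Complex.I • ((Real.sin (θ * Q z) : ℝ) : ℂ)) (cont hQ h1).continuousOn
      h5.continuousOn]
  congr 1
  funext z
  rw [eQ, mul_comm, Complex.exp_mul_I]
  push_cast
  simp [mul_comm]

/-- the four cut-offs -/
noncomputable def r (θ : ℝ) (i : Fin 4) (x : ℝ) : ℝ :=
  match i with
  | 0 => (Real.cos (θ / 2 * x) + Real.sin (θ / 2 * x)) / 2
  | 1 => (Real.cos (θ / 2 * x) - Real.sin (θ / 2 * x)) / 2
  | 2 => Real.cos (θ / 2 * x) / Real.sqrt 2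
  | 3 => Real.sin (θ / 2 * x) / Real.sqrt 2

theorem r_cont (θ : ℝ) (i : Fin 4) : Continuous (r θ i) := by
  fin_cases i
  · change Continuous fun x => (Real.cos (θ / 2 * x) + Real.sin (θ / 2 * x)) / 2
    fun_prop
  · change Continuous fun x => (Real.cos (θ / 2 * x) - Real.sin (θ / 2 * x)) / 2
    fun_prop
  · change Continuous fun x => Real.cos (θ / 2 * x) / Real.sqrt 2
    fun_prop
  · change Continuous fun x => Real.sin (θ / 2 * x) / Real.sqrt 2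
    fun_prop

theorem r_sq (θ x : ℝ) : (r θ 0 x * r θ 0 x = (1 + Real.sin (θ * x)) / 4) ∧
    (r θ 1 x * r θ 1 x = (1 - Real.sin (θ * x)) / 4) ∧
    (r θ 2 x * r θ 2 x = (1 + Real.cos (θ * x)) / 4) ∧
    (r θ 3 x * r θ 3 x = (1 - Real.cos (θ * x)) / 4) := by
  have h1 : Real.sin (θ * x) = 2 * Real.sin (θ / 2 * x) * Real.cos (θ / 2 * x) := by
    rw [← Real.sin_two_mul]
    congr 1
    ring
  have h2 : Real.cos (θ * x) = 2 * Real.cos (θ / 2 * x) ^ 2 - 1 := by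
    rw [← Real.cos_two_mul]
    congr 1
    ring
  have h3 := Real.sin_sq_add_cos_sq (θ / 2 * x)
  have h4 : Real.sqrt 2 * Real.sqrt 2 = 2 := Real.mul_self_sqrt (by norm_num)
  refine ⟨?_, ?_, ?_, ?_⟩
  · change (Real.cos (θ / 2 * x) + Real.sin (θ / 2 * x)) / 2 *
      ((Real.cos (θ / 2 * x) + Real.sin (θ / 2 * x)) / 2) = _
    rw [h1]
    linear_combination (1 / 4 : ℝ) * h3
  · change (Real.cos (θ / 2 * x) - Real.sin (θ / 2 * x)) / 2 *
      ((Real.cos (θ / 2 * x) - Real.sin (θ / 2 * x)) / 2) = _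
    rw [h1]
    linear_combination (1 / 4 : ℝ) * h3
  · change Real.cos (θ / 2 * x) / Real.sqrt 2 * (Real.cos (θ / 2 * x) / Real.sqrt 2) = _
    rw [h2, div_mul_div_comm, h4]
    ring
  · change Real.sin (θ / 2 * x) / Real.sqrt 2 * (Real.sin (θ / 2 * x) / Real.sqrt 2) = _
    rw [h2, div_mul_div_comm, h4]
    linear_combination (1 / 2 : ℝ) * h3

theorem r_abs (θ : ℝ) (i : Fin 4) (x : ℝ) : |r θ i x| ≤ 1 / Real.sqrt 2 := by
  have h4 : Real.sqrt 2 * Real.sqrt 2 = 2 := Real.mul_self_sqrt (by norm_num)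
  have h5 : 0 < Real.sqrt 2 := by positivity
  obtain ⟨h0, h1, h2, h3⟩ := r_sq θ x
  have hs := Real.neg_one_le_sin (θ * x)
  have hs' := Real.sin_le_one (θ * x)
  have hc := Real.neg_one_le_cos (θ * x)
  have hc' := Real.cos_le_one (θ * x)
  have key : r θ i x * r θ i x ≤ 1 / 2 := by
    fin_cases i
    · change r θ 0 x * r θ 0 x ≤ _
      rw [h0]; linarith
    · change r θ 1 x * r θ 1 x ≤ _
      rw [h1]; linarith
    · change r θ 2 x * r θ 2 x ≤ _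
      rw [h2]; linarith
    · change r θ 3 x * r θ 3 x ≤ _
      rw [h3]; linarith
  refine abs_le_of_sq_le_sq ?_ (by positivity)
  rw [div_pow, one_pow, sq (Real.sqrt 2), h4, sq]
  exact key

/-- the cut-offs of `N` -/
noncomputable def C (Q : ℂ → ℝ) (θ : ℝ) (N : H →L[ℂ] H) (i : Fin 4) : H →L[ℂ] H :=
  F Q N (r θ i)

theorem C_star (Q : ℂ → ℝ) (θ : ℝ) (N : H →L[ℂ] H) (i : Fin 4) :
    star (C Q θ N i) = C Q θ N i := F_star _ _ _

theorem C_norm (Q : ℂ → ℝ) (θ : ℝ) (N : H →L[ℂ] H) (i : Fin 4) :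
    ‖C Q θ N i‖ ≤ 1 / Real.sqrt 2 := F_norm N (by positivity) (r_abs θ i)

theorem C_sq {Q : ℂ → ℝ} (hQ : Continuous Q) (θ : ℝ) (N : H →L[ℂ] H) (hN : IsStarNormal N) :
    (C Q θ N 0 * C Q θ N 0 = (1 / 4 : ℂ) • (1 + F Q N (fun x => Real.sin (θ * x)))) ∧
    (C Q θ N 1 * C Q θ N 1 = (1 / 4 : ℂ) • (1 - F Q N (fun x => Real.sin (θ * x)))) ∧
    (C Q θ N 2 * C Q θ N 2 = (1 / 4 : ℂ) • (1 + F Q N (fun x => Real.cos (θ * x)))) ∧
    (C Q θ N 3 * C Q θ N 3 = (1 / 4 : ℂ) • (1 - F Q N (fun x => Real.cos (θ * x)))) := by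
  have hs : Continuous fun x : ℝ => Real.sin (θ * x) := by fun_prop
  have hc : Continuous fun x : ℝ => Real.cos (θ * x) := by fun_prop
  have h1 : Continuous fun _ : ℝ => (1 : ℝ) := continuous_const
  have e4 : (1 / 4 : ℂ) = ((1 / 4 : ℝ) : ℂ) := by push_cast; rfl
  have em : (-1 : ℂ) = ((-1 : ℝ) : ℂ) := by push_cast; rfl
  refine ⟨?_, ?_, ?_, ?_⟩
  · rw [C, F_mul hQ N (r_cont θ 0) (r_cont θ 0), ← F_one (Q := Q) N hN, F_add hQ N h1 hs, e4,
      F_smul hQ N (g := fun x => 1 + Real.sin (θ * x)) (by fun_prop)]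
    congr 1
    funext x
    rw [(r_sq θ x).1]
    ring
  · rw [C, F_mul hQ N (r_cont θ 1) (r_cont θ 1), ← F_one (Q := Q) N hN, sub_eq_add_neg,
      ← neg_one_smul ℂ, em, F_smul hQ N hs, F_add hQ N h1 (k := fun x => -1 * Real.sin (θ * x))
        (by fun_prop), e4, F_smul hQ N (g := fun x => 1 + -1 * Real.sin (θ * x)) (by fun_prop)]
    congr 1
    funext x
    rw [(r_sq θ x).2.1]
    ring
  · rw [C, F_mul hQ N (r_cont θ 2) (r_cont θ 2), ← F_one (Q := Q) N hN, F_add hQ N h1 hc, e4,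
      F_smul hQ N (g := fun x => 1 + Real.cos (θ * x)) (by fun_prop)]
    congr 1
    funext x
    rw [(r_sq θ x).2.2.1]
    ring
  · rw [C, F_mul hQ N (r_cont θ 3) (r_cont θ 3), ← F_one (Q := Q) N hN, sub_eq_add_neg,
      ← neg_one_smul ℂ, em, F_smul hQ N hc, F_add hQ N h1 (k := fun x => -1 * Real.cos (θ * x))
        (by fun_prop), e4, F_smul hQ N (g := fun x => 1 + -1 * Real.cos (θ * x)) (by fun_prop)]
    congr 1
    funext x
    rw [(r_sq θ x).2.2.2]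
    ring

theorem C_sum_sq {Q : ℂ → ℝ} (hQ : Continuous Q) (θ : ℝ) (N : H →L[ℂ] H) (hN : IsStarNormal N) :
    ∑ i, C Q θ N i * C Q θ N i = 1 := by
  obtain ⟨h0, h1, h2, h3⟩ := C_sq hQ θ N hN
  rw [Fin.sum_univ_four, h0, h1, h2, h3]
  module

theorem C_sum_norm {Q : ℂ → ℝ} (hQ : Continuous Q) (θ : ℝ) (N : H →L[ℂ] H) (hN : IsStarNormal N)
    (x : H) : ∑ i, ‖C Q θ N i x‖ ^ 2 ≤ ‖x‖ ^ 2 := by
  have h1 : ∀ i, ((‖C Q θ N i x‖ ^ 2 : ℝ) : ℂ) = ⟪x, (C Q θ N i * C Q θ N i) x⟫_ℂ := by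
    intro i
    have : ⟪x, (C Q θ N i * C Q θ N i) x⟫_ℂ = ⟪C Q θ N i x, C Q θ N i x⟫_ℂ := by
      conv_rhs => rw [← C_star Q θ N i]
      rw [ContinuousLinearMap.star_eq_adjoint, ContinuousLinearMap.adjoint_inner_left,
        ← ContinuousLinearMap.star_eq_adjoint, C_star]
      rfl
    rw [this, inner_self_eq_norm_sq_to_K]
    norm_cast
  have h2 : ((∑ i, ‖C Q θ N i x‖ ^ 2 : ℝ) : ℂ) = ((‖x‖ ^ 2 : ℝ) : ℂ) := by
    push_cast
    have : ∀ i, ((‖C Q θ N i x‖ : ℂ)) ^ 2 = ⟪x, (C Q θ N i * C Q θ N i) x⟫_ℂ := by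
      intro i
      rw [← h1]
      push_cast
      rfl
    simp_rw [this]
    rw [← inner_sum, ← _root_.sum_apply, C_sum_sq hQ θ N hN]
    change ⟪x, x⟫_ℂ = _
    rw [inner_self_eq_norm_sq_to_K]
    norm_cast
  exact le_of_eq (by exact_mod_cast h2)

theorem C_eq {Q : ℂ → ℝ} (hQ : Continuous Q) (θ : ℝ) (N : H →L[ℂ] H) :
    (C Q θ N 0 = (1 / 2 : ℂ) • (F Q N (fun x => Real.cos (θ / 2 * x)) +
      F Q N (fun x => Real.sin (θ / 2 * x)))) ∧
    (C Q θ N 1 = (1 / 2 : ℂ) • (F Q N (fun x => Real.cos (θ / 2 * x)) -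
      F Q N (fun x => Real.sin (θ / 2 * x)))) ∧
    (C Q θ N 2 = ((1 / Real.sqrt 2 : ℝ) : ℂ) • F Q N (fun x => Real.cos (θ / 2 * x))) ∧
    (C Q θ N 3 = ((1 / Real.sqrt 2 : ℝ) : ℂ) • F Q N (fun x => Real.sin (θ / 2 * x))) := by
  have hs : Continuous fun x : ℝ => Real.sin (θ / 2 * x) := by fun_prop
  have hc : Continuous fun x : ℝ => Real.cos (θ / 2 * x) := by fun_prop
  have e2 : (1 / 2 : ℂ) = ((1 / 2 : ℝ) : ℂ) := by push_cast; rfl
  have em : (-1 : ℂ) = ((-1 : ℝ) : ℂ) := by push_cast; rfl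
  refine ⟨?_, ?_, ?_, ?_⟩
  · rw [F_add hQ N hc hs, e2, F_smul hQ N
      (g := fun x => Real.cos (θ / 2 * x) + Real.sin (θ / 2 * x)) (by fun_prop)]
    rw [C]
    congr 1
    funext x
    change (Real.cos (θ / 2 * x) + Real.sin (θ / 2 * x)) / 2 = _
    ring
  · rw [sub_eq_add_neg, ← neg_one_smul ℂ (F Q N fun x => Real.sin (θ / 2 * x)), em,
      F_smul hQ N hs, F_add hQ N hc (k := fun x => -1 * Real.sin (θ / 2 * x)) (by fun_prop), e2,
      F_smul hQ N (g := fun x => Real.cos (θ / 2 * x) + -1 * Real.sin (θ / 2 * x)) (by fun_prop)]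
    rw [C]
    congr 1
    funext x
    change (Real.cos (θ / 2 * x) - Real.sin (θ / 2 * x)) / 2 = _
    ring
  · rw [F_smul hQ N hc, C]
    congr 1
    funext x
    change Real.cos (θ / 2 * x) / Real.sqrt 2 = _
    ring
  · rw [F_smul hQ N hs, C]
    congr 1
    funext x
    change Real.sin (θ / 2 * x) / Real.sqrt 2 = _
    ring

theorem eQ_neg {Q : ℂ → ℝ} (hQ : Continuous Q) (N : H →L[ℂ] H) (θ : ℝ) :
    fn (eQ (-θ) Q) N = F Q N (fun x => Real.cos (θ * x)) -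
      Complex.I • F Q N (fun x => Real.sin (θ * x)) := by
  have hs : Continuous fun x : ℝ => Real.sin (θ * x) := by fun_prop
  have em : (-1 : ℂ) = ((-1 : ℝ) : ℂ) := by push_cast; rfl
  rw [eQ_eq hQ]
  have h1 : (F Q N fun x => Real.cos (-θ * x)) = F Q N fun x => Real.cos (θ * x) := by
    congr 1
    funext x
    rw [neg_mul, Real.cos_neg]
  have h2 : (F Q N fun x => Real.sin (-θ * x)) = -F Q N fun x => Real.sin (θ * x) := by
    rw [← neg_one_smul ℂ (F Q N fun x => Real.sin (θ * x)), em, F_smul hQ N hs]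
    congr 1
    funext x
    rw [neg_mul, Real.sin_neg]
    ring
  rw [h1, h2, smul_neg, sub_eq_add_neg]

/-! ### the space `S1` -/

theorem ext_pr {X X' : S1 H} (h : ∀ Y, pr X Y = pr X' Y) : X = X' :=
  S1.toDual_injective (ContinuousLinearMap.ext h)

theorem pr_add (X X' : S1 H) (Y : H →L[ℂ] H) : pr (X + X') Y = pr X Y + pr X' Y := by
  unfold pr
  rw [map_add]
  rfl

theorem pr_sub (X X' : S1 H) (Y : H →L[ℂ] H) : pr (X - X') Y = pr X Y - pr X' Y := by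
  unfold pr
  rw [map_sub]
  rfl

theorem pr_smul (c : ℂ) (X : S1 H) (Y : H →L[ℂ] H) : pr (c • X) Y = c * pr X Y := by
  unfold pr
  rw [map_smul]
  rfl

theorem pr_add_right (X : S1 H) (Y Y' : H →L[ℂ] H) : pr X (Y + Y') = pr X Y + pr X Y' :=
  map_add X.toDual Y Y'

theorem pr_smul_right (X : S1 H) (c : ℂ) (Y : H →L[ℂ] H) : pr X (c • Y) = c * pr X Y := by
  unfold pr
  rw [map_smul, smul_eq_mul]

theorem pr_sw (S T : H →L[ℂ] H) (X : S1 H) (Y : H →L[ℂ] H) :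
    pr (sw S T X) Y = pr X (T * (Y * S)) := rfl

theorem pr_cs {Q : ℂ → ℝ} (hQ : Continuous Q) (P : Pair H) (θ : ℝ) (X : S1 H) (Y : H →L[ℂ] H) :
    pr (cs P θ Q X) Y = pr X (F Q P.B (fun x => Real.cos (θ * x)) * Y *
      F Q P.A (fun x => Real.cos (θ * x)) + F Q P.B (fun x => Real.sin (θ * x)) * Y *
      F Q P.A (fun x => Real.sin (θ * x))) := by
  rw [cs, pr_smul, pr_add, pr_sw, pr_sw, ← pr_add_right, ← pr_smul_right]
  congr 1
  rw [eQ_neg hQ P.A θ, eQ_neg hQ P.B θ, eQ_eq hQ P.A θ, eQ_eq hQ P.B θ]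
  generalize F Q P.B (fun x => Real.cos (θ * x)) = cB
  generalize F Q P.B (fun x => Real.sin (θ * x)) = sB
  generalize F Q P.A (fun x => Real.cos (θ * x)) = cA
  generalize F Q P.A (fun x => Real.sin (θ * x)) = sA
  simp only [mul_add, mul_sub, add_mul, sub_mul, mul_smul_comm, smul_mul_assoc, smul_smul,
    smul_add, smul_sub, mul_assoc]
  have hI : Complex.I * Complex.I = -1 := Complex.I_mul_I
  simp only [hI, mul_neg, mul_one]
  module

theorem sum_sw {Q : ℂ → ℝ} (hQ : Continuous Q) (P : Pair H) (θ : ℝ) (X : S1 H) :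
    ∑ i, sw (C Q θ P.A i) (C Q θ P.B i) X = cs P (θ / 2) Q X := by
  refine ext_pr fun Y => ?_
  rw [pr_cs hQ, Fin.sum_univ_four, pr_add, pr_add, pr_add, pr_sw, pr_sw, pr_sw, pr_sw,
    ← pr_add_right, ← pr_add_right, ← pr_add_right]
  congr 1
  obtain ⟨h0, h1, h2, h3⟩ := C_eq hQ θ P.A
  obtain ⟨k0, k1, k2, k3⟩ := C_eq hQ θ P.B
  rw [h0, h1, h2, h3, k0, k1, k2, k3]
  generalize F Q P.B (fun x => Real.cos (θ / 2 * x)) = cB
  generalize F Q P.B (fun x => Real.sin (θ / 2 * x)) = sB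
  generalize F Q P.A (fun x => Real.cos (θ / 2 * x)) = cA
  generalize F Q P.A (fun x => Real.sin (θ / 2 * x)) = sA
  have h4 : ((1 / Real.sqrt 2 : ℝ) : ℂ) * ((1 / Real.sqrt 2 : ℝ) : ℂ) = 1 / 2 := by
    rw [← Complex.ofReal_mul, div_mul_div_comm, Real.mul_self_sqrt (by norm_num)]
    push_cast
    norm_num
  simp only [mul_add, mul_sub, add_mul, sub_mul, mul_smul_comm, smul_mul_assoc, smul_smul,
    smul_add, smul_sub, mul_assoc, h4]
  module

theorem norm_ex_le (N : H →L[ℂ] H) (s : ℂ) : ‖ex N s‖ ≤ 1 := by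
  unfold ex
  refine norm_cfc_le zero_le_one fun z _ => ?_
  rw [ch, Complex.norm_exp]
  simp

theorem comm_ex (f : ℂ → ℂ) (N : H →L[ℂ] H) (s : ℂ) : fn f N * ex N s = ex N s * fn f N :=
  (cfc_commute_cfc f (ch s) N).eq

/-- the functional `Y ↦ tr (n_i(B) α n_i(A) b)`, summed as in the proof -/
theorem key {Q : ℂ → ℝ} (hQ : Continuous Q) (P : Pair H) (θ : ℝ) (b : S1 H) (α : H →L[ℂ] H)
    (h : Fin 4 → ℂ) (hh : ∀ i, h i = pr b (C Q θ P.B i * (C Q θ P.B i * α * C Q θ P.A i *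
      C Q θ P.A i))) :
    8 * (h 0 - h 1) = pr b (α * F Q P.A (fun x => Real.sin (θ * x))) +
      pr b (F Q P.B (fun x => Real.sin (θ * x)) * α) ∧
    8 * ∑ i, h i = 2 * pr b α + pr (cs P θ Q b) α := by
  have e : ∀ i, h i = pr b ((C Q θ P.B i * C Q θ P.B i) * α * (C Q θ P.A i * C Q θ P.A i)) := by
    intro i
    rw [hh]
    congr 1
  obtain ⟨a0, a1, a2, a3⟩ := C_sq hQ θ P.A P.hA
  obtain ⟨b0, b1, b2, b3⟩ := C_sq hQ θ P.B P.hB
  have e8 : ∀ z : ℂ, 8 * z = (8 : ℂ) * z := fun _ => rfl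
  refine ⟨?_, ?_⟩
  · rw [e 0, e 1, a0, a1, b0, b1, mul_sub, ← pr_smul_right, ← pr_smul_right, ← pr_add_right]
    rw [show ∀ x y : ℂ, x - y = x + (-1) * y from fun x y => by ring, ← pr_smul_right,
      ← pr_add_right]
    congr 1
    generalize F Q P.B (fun x => Real.sin (θ * x)) = sB
    generalize F Q P.A (fun x => Real.sin (θ * x)) = sA
    simp only [mul_add, mul_sub, add_mul, sub_mul, mul_smul_comm, smul_mul_assoc, smul_smul,
      smul_add, smul_sub, mul_assoc, one_mul, mul_one]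
    module
  · rw [pr_cs hQ, Fin.sum_univ_four, e 0, e 1, e 2, e 3, a0, a1, b0, b1, a2, b2, a3, b3,
      ← pr_smul_right, ← pr_add_right, ← pr_add_right, ← pr_add_right, ← pr_add_right,
      ← pr_smul_right]
    congr 1
    generalize F Q P.B (fun x => Real.sin (θ * x)) = sB
    generalize F Q P.A (fun x => Real.sin (θ * x)) = sA
    generalize F Q P.B (fun x => Real.cos (θ * x)) = cB
    generalize F Q P.A (fun x => Real.cos (θ * x)) = cA
    simp only [mul_add, mul_sub, add_mul, sub_mul, mul_smul_comm, smul_mul_assoc, smul_smul,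
      smul_add, smul_sub, mul_assoc, one_mul, mul_one]
    module

theorem cm_sub (P : Pair H) (Q : ℂ → ℂ) (X Y : S1 H) :
    cm P Q (X - Y) = cm P Q X - cm P Q Y := by
  simp only [cm, map_sub]
  abel

end LMT0

open LMT0 in
theorem blk_LMT0 (hAlg : Stmt_Alg.{v}) (_ : Stmt_Pol.{v}) (_ : Stmt_Pos.{v}) (_ : Stmt_AL.{v})
    (hMT : Stmt_MT.{v}) (hPin : Stmt_Pin.{v}) (hCos : Stmt_Cos.{v}) (hDu : Stmt_Du.{v})
    (hAv : Stmt_Av.{v}) : Stmt_LMT0.{v} := by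
  intro H _ _ _ P Q hQ q hq θ ζ
  obtain ⟨opL, opR, _, inj, _, _, prle, _, _⟩ := hAlg H
  obtain ⟨_, _, _, _, _, opU, _, opU2, _, Uadd, _⟩ := hDu H P
  obtain ⟨tadd, tnorm, _, _, opt, _⟩ := hAv H P
  set Q' : ℂ → ℂ := fun z => (Q z : ℂ) with hQ'
  set a : S1 H := U P ζ with ha
  set b : S1 H := tD P ζ a with hb
  set q2 : S1 H := cm P Q' q with hq2
  have opcm : ∀ X : S1 H, op (cm P Q' X) = fn Q' P.A * op X - op X * fn Q' P.B := by
    intro X
    rw [cm, map_sub, opL, opR]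
  have ext_op : ∀ X Y : S1 H, op X = op Y → X = Y := by
    intro X Y h
    have := inj (X - Y) (by rw [map_sub, h, sub_self])
    exact sub_eq_zero.1 this
  -- the commutators
  have cmt : ∀ (s : ℂ) (X : S1 H), cm P Q' (tD P s X) = tD P s (cm P Q' X) := by
    intro s X
    apply ext_op
    rw [opcm, opt, opt, opcm, tO, tO]
    have h1 := comm_ex Q' P.A s
    have h2 := comm_ex Q' P.B (-s)
    calc fn Q' P.A * (ex P.A s * op X * ex P.B (-s)) - ex P.A s * op X * ex P.B (-s) * fn Q' P.B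
        = (fn Q' P.A * ex P.A s) * op X * ex P.B (-s) -
          ex P.A s * op X * (ex P.B (-s) * fn Q' P.B) := by simp only [mul_assoc]
      _ = _ := by
          rw [h1, ← h2]
          simp only [mul_assoc, mul_sub, sub_mul]
  have cmU : ∀ s : ℂ, cm P Q' (U P s) = tD P s q - q := by
    intro s
    apply ext_op
    rw [opcm, opU, map_sub, opt, hq, tO]
    have h1 := comm_ex Q' P.A s
    have h2 := comm_ex Q' P.B (-s)
    calc fn Q' P.A * (ex P.A s * ex P.B (-s) - 1) - (ex P.A s * ex P.B (-s) - 1) * fn Q' P.B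
        = (fn Q' P.A * ex P.A s) * ex P.B (-s) - ex P.A s * (ex P.B (-s) * fn Q' P.B) -
          (fn Q' P.A - fn Q' P.B) := by
          simp only [mul_assoc, mul_sub, sub_mul, mul_one, one_mul]
          abel
      _ = _ := by
          rw [h1, ← h2]
          simp only [mul_assoc, mul_sub, sub_mul]
  have cmcmU : ∀ s : ℂ, cm P Q' (cm P Q' (U P s)) = tD P s q2 - q2 := by
    intro s
    rw [cmU, cm_sub, cmt]
  have nU : ∀ s : ℂ, ‖cm P Q' (cm P Q' (U P s))‖ ≤ 2 * ‖q2‖ := by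
    intro s
    rw [cmcmU]
    refine (norm_sub_le _ _).trans ?_
    rw [tnorm]
    linarith
  have nb : ‖cm P Q' (cm P Q' b)‖ ≤ 2 * ‖q2‖ := by
    rw [hb, cmt, cmt, tnorm]
    exact nU ζ
  have hab : a + b = U P (2 * ζ) := by
    rw [two_mul, Uadd]
  -- norms
  have na : ‖op a‖ ≤ 2 := opU2 ζ
  have nb2 : ‖op b‖ ≤ 2 := by
    rw [hb, opt, tO]
    calc ‖ex P.A ζ * op a * ex P.B (-ζ)‖ ≤ ‖ex P.A ζ‖ * ‖op a‖ * ‖ex P.B (-ζ)‖ :=
          (norm_mul_le _ _).trans (by gcongr; exact norm_mul_le _ _)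
      _ ≤ 1 * 2 * 1 := by
          gcongr
          · exact norm_ex_le _ _
          · exact norm_ex_le _ _
      _ = 2 := by norm_num
  have hopsw : ∀ (S T : H →L[ℂ] H) (X : S1 H), op (sw S T X) = S * (op X * T) := by
    intro S T X
    change op (lm S (rm T X)) = _
    rw [opL, opR]
  have nsw : ∀ (i : Fin 4) (X : S1 H), ‖op X‖ ≤ 2 →
      ‖op (sw (C Q θ P.A i) (C Q θ P.B i) X)‖ ≤ 1 := by
    intro i X hX
    rw [hopsw]
    have h4 : 1 / Real.sqrt 2 * (2 * (1 / Real.sqrt 2)) = 1 := by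
      have h5 : Real.sqrt 2 * Real.sqrt 2 = 2 := Real.mul_self_sqrt (by norm_num)
      field_simp
      linarith
    calc ‖C Q θ P.A i * (op X * C Q θ P.B i)‖ ≤ ‖C Q θ P.A i‖ * (‖op X‖ * ‖C Q θ P.B i‖) :=
          (norm_mul_le _ _).trans (by gcongr; exact norm_mul_le _ _)
      _ ≤ 1 / Real.sqrt 2 * (2 * (1 / Real.sqrt 2)) := by
          gcongr
          · exact C_norm _ _ _ _
          · exact C_norm _ _ _ _
      _ = 1 := h4
  set A' : Fin 4 → S1 H := fun i => sw (C Q θ P.A i) (C Q θ P.B i) a with hA'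
  set B' : Fin 4 → S1 H := fun i => sw (C Q θ P.A i) (C Q θ P.B i) b with hB'
  have mt : ∀ i, |(hs (A' i) (B' i)).im| ≤ (hs (A' i) (B' i)).re +
      2 * 1 * (‖A' i‖ + ‖B' i‖ - ‖A' i + B' i‖) := fun i =>
    hMT H (A' i) (B' i) 1 (nsw i a na) (nsw i b nb2)
  set α : H →L[ℂ] H := star (op a) with hα
  have hh : ∀ i, hs (A' i) (B' i) = pr b (C Q θ P.B i * (C Q θ P.B i * α * C Q θ P.A i *
      C Q θ P.A i)) := by
    intro i
    rw [hs, hA', hB']
    simp only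
    rw [hopsw, pr_sw, star_mul, star_mul, C_star, C_star]
  obtain ⟨k1, k2⟩ := key hQ P θ b α (fun i => hs (A' i) (B' i)) hh
  have hII : II P ζ (fun z => (Real.sin (θ * Q z) : ℂ)) =
      8 * (hs (A' 0) (B' 0) - hs (A' 1) (B' 1)) := by
    rw [k1]
    rfl
  -- pinching
  have pin : ∀ X : S1 H, ∑ i, ‖sw (C Q θ P.A i) (C Q θ P.B i) X‖ ≤ ‖X‖ := by
    intro X
    refine hPin H X 4 (C Q θ P.A) (C Q θ P.B) (C_sum_norm hQ θ P.A P.hA) fun x => ?_
    simp only [C_star]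
    exact C_sum_norm hQ θ P.B P.hB x
  have low : ‖a + b‖ - (θ / 2) ^ 2 / 2 * (2 * ‖q2‖) ≤ ∑ i, ‖A' i + B' i‖ := by
    have h1 : ∑ i, (A' i + B' i) = cs P (θ / 2) Q (a + b) := by
      rw [← sum_sw hQ]
      refine Finset.sum_congr rfl fun i _ => ?_
      rw [hA', hB', map_add]
    have h2 := hCos H P Q hQ (θ / 2) (a + b)
    have h3 : ‖cm P Q' (cm P Q' (a + b))‖ ≤ 2 * ‖q2‖ := by
      rw [hab]
      exact nU _
    have h4 : ‖a + b‖ ≤ ‖a + b - cs P (θ / 2) Q (a + b)‖ + ‖cs P (θ / 2) Q (a + b)‖ := by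
      refine le_trans (le_of_eq ?_) (norm_add_le _ _)
      rw [sub_add_cancel]
    have h5 : ‖cs P (θ / 2) Q (a + b)‖ ≤ ∑ i, ‖A' i + B' i‖ := by
      rw [← h1]
      exact norm_sum_le _ _
    have h6 : (θ / 2) ^ 2 / 2 * ‖cm P Q' (cm P Q' (a + b))‖ ≤ (θ / 2) ^ 2 / 2 * (2 * ‖q2‖) := by
      gcongr
    linarith
  have hcs : ‖pr (b - cs P θ Q b) α‖ ≤ 2 * (θ ^ 2 / 2 * (2 * ‖q2‖)) := by
    have h1 := hCos H P Q hQ θ b
    have h2 := prle (b - cs P θ Q b) α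
    have h3 : ‖α‖ ≤ 2 := by rw [hα, norm_star]; exact na
    have h4 : ‖b - cs P θ Q b‖ ≤ θ ^ 2 / 2 * (2 * ‖q2‖) := h1.trans (by gcongr)
    calc ‖pr (b - cs P θ Q b) α‖ ≤ ‖b - cs P θ Q b‖ * ‖α‖ := h2
      _ ≤ (θ ^ 2 / 2 * (2 * ‖q2‖)) * 2 := by gcongr
      _ = _ := by ring
  -- the sum
  have hsum : 8 * ∑ i, (hs (A' i) (B' i)).re = 3 * (hs a b).re - (pr (b - cs P θ Q b) α).re := by
    have h1 : (8 * ∑ i, hs (A' i) (B' i)).re = 8 * ∑ i, (hs (A' i) (B' i)).re := by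
      rw [← Complex.re_sum]
      simp [Complex.mul_re]
    rw [← h1, k2, pr_sub, hs]
    simp only [Complex.add_re, Complex.sub_re, Complex.mul_re]
    norm_num
    ring
  have hre : |(pr (b - cs P θ Q b) α).re| ≤ 2 * (θ ^ 2 / 2 * (2 * ‖q2‖)) :=
    (Complex.abs_re_le_norm _).trans hcs
  have pa := pin a
  have pb := pin b
  rw [hII]
  have him : (8 * (hs (A' 0) (B' 0) - hs (A' 1) (B' 1))).im =
      8 * ((hs (A' 0) (B' 0)).im - (hs (A' 1) (B' 1)).im) := by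
    simp [Complex.mul_im]
  rw [him, abs_mul, abs_of_pos (by norm_num : (0 : ℝ) < 8)]
  have h8 : |(hs (A' 0) (B' 0)).im - (hs (A' 1) (B' 1)).im| ≤
      ∑ i, ((hs (A' i) (B' i)).re + 2 * 1 * (‖A' i‖ + ‖B' i‖ - ‖A' i + B' i‖)) := by
    rw [Fin.sum_univ_four]
    have m0 := mt 0
    have m1 := mt 1
    have m2 := (abs_nonneg _).trans (mt 2)
    have m3 := (abs_nonneg _).trans (mt 3)
    have := abs_sub (hs (A' 0) (B' 0)).im (hs (A' 1) (B' 1)).im
    linarith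
  have h9 : ∑ i, ((hs (A' i) (B' i)).re + 2 * 1 * (‖A' i‖ + ‖B' i‖ - ‖A' i + B' i‖)) =
      ∑ i, (hs (A' i) (B' i)).re + 2 * (∑ i, ‖A' i‖ + ∑ i, ‖B' i‖ - ∑ i, ‖A' i + B' i‖) := by
    rw [Finset.sum_add_distrib, ← Finset.mul_sum, Finset.sum_sub_distrib, Finset.sum_add_distrib]
    ring
  have hEN : EN P ζ = 3 * (hs a b).re + 16 * (2 * ‖a‖ - ‖a + b‖) := by
    rw [hab]
    rfl
  have hnb : ‖b‖ = ‖a‖ := tnorm ζ a
  rw [hEN]
  rw [h9] at h8
  have hre' := abs_le.1 hre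
  have pa' : ∑ i, ‖A' i‖ ≤ ‖a‖ := pa
  have pb' : ∑ i, ‖B' i‖ ≤ ‖b‖ := pb
  nlinarith [hre'.1, hre'.2, h8, hsum, pa', pb', low, hnb]

end Pool.Bes
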