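import Pool.Agent.Work.Bes.Interface

open MeasureTheory Complex
open scoped ComplexOrder InnerProductSpace ComplexConjugate

set_option autoImplicit false

universe v

namespace Pool.Bes

theorem blk_LPI (hW : Stmt_Wt) : Stmt_LPI := by
  intro f i hi
  obtain ⟨j, rfl⟩ : ∃ j, i = j + 1 := ⟨i - 1, by omega⟩
  have hw : 0 < f.w (j + 1) := div_pos f.hl (by positivity)
  have hw2 : f.w j = 2 * f.w (j + 1) := by
    rw [LP.w, LP.w, pow_succ]
    field_simp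
  have h8 := hW.2.2.2.2.2.2.2.1
  set w := f.w (j + 1) with hwd
  have h3 : Real.sqrt 3 ^ 2 = 3 := Real.sq_sqrt (by norm_num)
  have h15 : Real.sqrt 15 ^ 2 = 15 := Real.sq_sqrt (by norm_num)
  have e1 : Real.sqrt ((w / 2) ^ 2 + (Real.sqrt 3 * (w / 2)) ^ 2) = w := by
    rw [mul_pow, h3, show (w / 2) ^ 2 + 3 * (w / 2) ^ 2 = w ^ 2 by ring]
    exact Real.sqrt_sq hw.le
  have e2 : Real.sqrt ((w / 2) ^ 2 + (Real.sqrt 15 * (w / 2)) ^ 2) = 2 * w := by
    rw [mul_pow, h15, show (w / 2) ^ 2 + 15 * (w / 2) ^ 2 = (2 * w) ^ 2 by ring]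
    exact Real.sqrt_sq (by positivity)
  have a1 := h8 f.a (w / 2) (Real.sqrt 3 * (w / 2))
  have a2 := h8 f.a (w / 2) (Real.sqrt 15 * (w / 2))
  rw [e1] at a1
  rw [e2] at a2
  funext ξ
  have b1 := congrFun a1 ξ
  have b2 := congrFun a2 ξ
  rw [Nat.add_sub_cancel, LP.F, LP.F, ← hwd, hw2, ← b1, ← b2]
  simp only [gm]
  ring

end Pool.Bes
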