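import Pool.Agent.Work.Bes.DER

/-!
# Block LPS: sup norm of the Littlewood-Paley pieces by second differences (helper31)
-/

open MeasureTheory Complex
open scoped ComplexOrder InnerProductSpace ComplexConjugate

set_option autoImplicit false

namespace Pool.Bes.LPSB

open Pool.Bes.WTB Pool.Bes.DERB

theorem continuous_syn {a : ℂ → ℂ} (ha : Integrable a) : Continuous (syn a) := by
  unfold syn
  refine continuous_of_dominated (bound := fun ξ => ‖a ξ‖)
    (fun z => (integrable_mul_ch ha z).aestronglyMeasurable) (fun z => ?_) ha.norm ?_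
  · refine Filter.Eventually.of_forall fun ξ => ?_
    rw [norm_mul, norm_ch, mul_one]
  · refine Filter.Eventually.of_forall fun ξ => ?_
    exact continuous_const.mul (continuous_ch.comp (by fun_prop : Continuous fun z : ℂ => (ξ, z)))

theorem norm_syn_le {a : ℂ → ℂ} (ha : Integrable a) (z : ℂ) : ‖syn a z‖ ≤ ∫ ξ, ‖a ξ‖ := by
  unfold syn
  refine norm_integral_le_of_norm_le ha.norm (Filter.Eventually.of_forall fun ξ => ?_)
  rw [norm_mul, norm_ch, mul_one]

/-- second differences with long steps -/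
theorem second_diff (u : ℂ → ℂ) {ρ V : ℝ}
    (h : ∀ h z : ℂ, ‖h‖ ≤ ρ → ‖u (z + h) + u (z - h) - 2 * u z‖ ≤ V) (k : ℕ) :
    ∀ h z : ℂ, ‖h‖ ≤ 2 ^ k * ρ → ‖u (z + h) + u (z - h) - 2 * u z‖ ≤ 4 ^ k * V := by
  induction k with
  | zero => intro h' z hh; simpa using h h' z (by simpa using hh)
  | succ k ih =>
    intro h' z hh
    have h1 : ‖h' / 2‖ ≤ 2 ^ k * ρ := by
      rw [norm_div, Complex.norm_ofNat, div_le_iff₀ (by norm_num)]
      calc ‖h'‖ ≤ 2 ^ (k + 1) * ρ := hh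
        _ = 2 ^ k * ρ * 2 := by ring
    have e : u (z + h') + u (z - h') - 2 * u z =
        (u (z + h' / 2 + h' / 2) + u (z + h' / 2 - h' / 2) - 2 * u (z + h' / 2)) +
        2 * (u (z + h' / 2) + u (z - h' / 2) - 2 * u z) +
        (u (z - h' / 2 + h' / 2) + u (z - h' / 2 - h' / 2) - 2 * u (z - h' / 2)) := by
      have e1 : z + h' / 2 + h' / 2 = z + h' := by ring
      have e2 : z + h' / 2 - h' / 2 = z := by ring
      have e3 : z - h' / 2 + h' / 2 = z := by ring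
      have e4 : z - h' / 2 - h' / 2 = z - h' := by ring
      rw [e1, e2, e3, e4]
      ring
    rw [e]
    have a1 := ih (h' / 2) (z + h' / 2) h1
    have a2 := ih (h' / 2) z h1
    have a3 := ih (h' / 2) (z - h' / 2) h1
    refine (norm_add_le _ _).trans ?_
    refine (add_le_add_left (norm_add_le _ _) _).trans ?_
    rw [norm_mul, Complex.norm_ofNat]
    calc _ ≤ 4 ^ k * V + 2 * (4 ^ k * V) + 4 ^ k * V := by gcongr
      _ = 4 ^ (k + 1) * V := by ring

theorem second_diff_le (u : ℂ → ℂ) {ρ V : ℝ} (hρ : 0 < ρ)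
    (h : ∀ h z : ℂ, ‖h‖ ≤ ρ → ‖u (z + h) + u (z - h) - 2 * u z‖ ≤ V) (n z : ℂ) :
    ‖u (z + n) + u (z - n) - 2 * u z‖ ≤ (1 + 4 * ‖n‖ ^ 2 / ρ ^ 2) * V := by
  have hV : 0 ≤ V := (norm_nonneg _).trans (h 0 0 (by simpa using hρ.le))
  by_cases hn : ‖n‖ ≤ ρ
  · refine (h n z hn).trans ?_
    have : 0 ≤ 4 * ‖n‖ ^ 2 / ρ ^ 2 := by positivity
    nlinarith
  · push Not at hn
    have hex : ∃ k : ℕ, ‖n‖ ≤ 2 ^ k * ρ := by
      obtain ⟨k, hk⟩ := pow_unbounded_of_one_lt (‖n‖ / ρ) (by norm_num : (1 : ℝ) < 2)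
      exact ⟨k, by rw [div_lt_iff₀ hρ] at hk; exact hk.le⟩
    classical
    obtain ⟨k, hk, hmin⟩ : ∃ k : ℕ, ‖n‖ ≤ 2 ^ k * ρ ∧ ∀ j < k, ¬ ‖n‖ ≤ 2 ^ j * ρ :=
      ⟨Nat.find hex, Nat.find_spec hex, fun j hj => Nat.find_min hex hj⟩
    have hk0 : k ≠ 0 := by
      rintro rfl
      rw [pow_zero, one_mul] at hk
      linarith
    obtain ⟨j, rfl⟩ := Nat.exists_eq_succ_of_ne_zero hk0
    have hj := hmin j (Nat.lt_succ_self j)
    push Not at hj
    refine (second_diff u h (j + 1) n z hk).trans ?_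
    refine mul_le_mul_of_nonneg_right ?_ hV
    have h1 : (4 : ℝ) ^ (j + 1) * ρ ^ 2 ≤ 4 * ‖n‖ ^ 2 := by
      have h2 : (2 ^ j * ρ) ^ 2 ≤ ‖n‖ ^ 2 := by
        have : 0 ≤ 2 ^ j * ρ := by positivity
        exact pow_le_pow_left₀ this hj.le 2
      have h3 : (2 ^ j * ρ) ^ 2 = 4 ^ j * ρ ^ 2 := by
        rw [mul_pow, ← pow_mul, mul_comm j 2, pow_mul]; norm_num
      rw [h3] at h2
      rw [pow_succ]
      linarith
    have h4 : (4 : ℝ) ^ (j + 1) ≤ 4 * ‖n‖ ^ 2 / ρ ^ 2 := by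
      rw [le_div_iff₀ (by positivity)]
      exact h1
    linarith

theorem gam_neg (r : ℝ) (n : ℂ) : gam r (-n) = gam r n := by
  rw [gam, gam, norm_neg]

theorem integral_norm_sq_gam {r : ℝ} (hr : 0 < r) :
    Integrable (fun n : ℂ => ‖n‖ ^ 2 * gam r n) ∧ ∫ n : ℂ, ‖n‖ ^ 2 * gam r n = 2 * r ^ 2 := by
  have h1 : ∀ n : ℂ, ‖n‖ ^ 2 * gam r n = ip 1 n ^ 2 * gam r n + ip Complex.I n ^ 2 * gam r n := by
    intro n
    rw [← add_mul, ← Complex.normSq_eq_norm_sq, Complex.normSq_apply]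
    have e1 : ip 1 n = n.re := by simp [ip]
    have e2 : ip Complex.I n = n.im := by simp [ip]
    rw [e1, e2]
    ring
  simp_rw [h1]
  refine ⟨(integrable_ip_sq hr 1).add (integrable_ip_sq hr Complex.I), ?_⟩
  rw [integral_add (integrable_ip_sq hr 1) (integrable_ip_sq hr Complex.I), integral_ip_sq hr,
    integral_ip_sq hr, norm_one, Complex.norm_I]
  ring

theorem norm_syn_gm_sub_le {a : ℂ → ℂ} (ha : Integrable a) {ρ V r : ℝ} (hρ : 0 < ρ) (hr : 0 < r)
    (h : ∀ h z : ℂ, ‖h‖ ≤ ρ → ‖syn a (z + h) + syn a (z - h) - 2 * syn a z‖ ≤ V) (z : ℂ) :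
    ‖syn (gm r a) z - syn a z‖ ≤ (1 + 8 * r ^ 2 / ρ ^ 2) * V / 2 := by
  have hu := continuous_syn ha
  have hI : ∀ f : ℂ → ℂ, Continuous f → (∀ n, ‖f n‖ ≤ ∫ ξ, ‖a ξ‖) →
      Integrable (fun n => (gam r n : ℂ) * f n) := by
    intro f hf hb
    have h1 : Integrable (fun n : ℂ => gam r n * ∫ ξ, ‖a ξ‖) := (integrable_gam hr).mul_const _
    refine h1.mono' ?_ (Filter.Eventually.of_forall fun n => ?_)
    · exact ((Complex.continuous_ofReal.comp (continuous_gam r)).mul hf).aestronglyMeasurable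
    · rw [norm_mul, Complex.norm_real, Real.norm_of_nonneg (gam_nonneg r n)]
      exact mul_le_mul_of_nonneg_left (hb n) (gam_nonneg r n)
  have i1 := hI (fun n => syn a (z + n)) (hu.comp (by fun_prop)) fun n => norm_syn_le ha _
  have i2 := hI (fun n => syn a (z - n)) (hu.comp (by fun_prop)) fun n => norm_syn_le ha _
  have i3 := hI (fun _ => syn a z) continuous_const fun n => norm_syn_le ha _
  have h1 : syn (gm r a) z = ∫ n : ℂ, (gam r n : ℂ) * syn a (z + n) := syn_gm ha hr z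
  have h2 : syn (gm r a) z = ∫ n : ℂ, (gam r n : ℂ) * syn a (z - n) := by
    rw [h1, ← integral_neg_eq_self]
    refine integral_congr_ae (Filter.Eventually.of_forall fun n => ?_)
    simp only [gam_neg, ← sub_eq_add_neg]
  have h3 : syn a z = ∫ n : ℂ, (gam r n : ℂ) * syn a z := by
    rw [integral_mul_const, integral_complex_ofReal, integral_gam hr, Complex.ofReal_one, one_mul]
  have h4 : 2 * (syn (gm r a) z - syn a z) =
      ∫ n : ℂ, (gam r n : ℂ) * (syn a (z + n) + syn a (z - n) - 2 * syn a z) := by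
    have h5 : (fun n : ℂ => (gam r n : ℂ) * (syn a (z + n) + syn a (z - n) - 2 * syn a z)) =
        fun n : ℂ => ((gam r n : ℂ) * syn a (z + n) + (gam r n : ℂ) * syn a (z - n)) -
          2 * ((gam r n : ℂ) * syn a z) := by
      funext n; ring
    have i12 : Integrable (fun n : ℂ => (gam r n : ℂ) * syn a (z + n) +
        (gam r n : ℂ) * syn a (z - n)) := i1.add i2
    rw [h5, integral_sub i12 (i3.const_mul 2), integral_add i1 i2, integral_const_mul,
      ← h1, ← h2, ← h3]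
    ring
  have h5 : ‖2 * (syn (gm r a) z - syn a z)‖ ≤ (1 + 8 * r ^ 2 / ρ ^ 2) * V := by
    rw [h4]
    have i4 : Integrable (fun n : ℂ => (gam r n + 4 / ρ ^ 2 * (‖n‖ ^ 2 * gam r n)) * V) :=
      ((integrable_gam hr).add ((integral_norm_sq_gam hr).1.const_mul _)).mul_const V
    refine (norm_integral_le_of_norm_le i4 (Filter.Eventually.of_forall fun n => ?_)).trans ?_
    · rw [norm_mul, Complex.norm_real, Real.norm_of_nonneg (gam_nonneg r n)]
      refine (mul_le_mul_of_nonneg_left (second_diff_le _ hρ h n z) (gam_nonneg r n)).trans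
        (le_of_eq ?_)
      ring
    · rw [integral_mul_const, integral_add (integrable_gam hr)
        ((integral_norm_sq_gam hr).1.const_mul _), integral_const_mul, integral_gam hr,
        (integral_norm_sq_gam hr).2]
      refine le_of_eq ?_
      ring
  rw [norm_mul, Complex.norm_ofNat] at h5
  linarith

end Pool.Bes.LPSB

namespace Pool.Bes

open Pool.Bes.WTB Pool.Bes.DERB Pool.Bes.LPSB

theorem blk_LPS : Stmt_Wt → Stmt_LPS := by
  intro _ a ha ρ V hρ h z
  have hV : 0 ≤ V := (norm_nonneg _).trans (h 0 0 (by simpa using hρ.le))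
  have hai := wt_integrable ha
  set r1 : ℝ := Real.sqrt 3 * (ρ / 2) with hr1
  set r2 : ℝ := Real.sqrt 15 * (ρ / 2) with hr2
  have hr1p : 0 < r1 := by positivity
  have hr2p : 0 < r2 := by positivity
  have b1 := norm_syn_gm_sub_le hai hρ hr1p h z
  have b2 := norm_syn_gm_sub_le hai hρ hr2p h z
  have q1 : r1 ^ 2 = 3 / 4 * ρ ^ 2 := by
    rw [hr1, mul_pow, Real.sq_sqrt (by norm_num : (0 : ℝ) ≤ 3)]; ring
  have q2 : r2 ^ 2 = 15 / 4 * ρ ^ 2 := by
    rw [hr2, mul_pow, Real.sq_sqrt (by norm_num : (0 : ℝ) ≤ 15)]; ring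
  have e1 : 8 * r1 ^ 2 / ρ ^ 2 = 6 := by rw [q1]; field_simp; norm_num
  have e2 : 8 * r2 ^ 2 / ρ ^ 2 = 30 := by rw [q2]; field_simp; norm_num
  rw [e1] at b1
  rw [e2] at b2
  have h1 : syn (fun ξ => gm r1 a ξ - gm r2 a ξ) z = syn (gm r1 a) z - syn (gm r2 a) z := by
    rw [syn, syn, syn, ← integral_sub (integrable_mul_ch (wt_integrable (wt_gm ha r1)) z)
      (integrable_mul_ch (wt_integrable (wt_gm ha r2)) z)]
    refine integral_congr_ae (Filter.Eventually.of_forall fun ξ => ?_)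
    simp only
    ring
  rw [h1]
  have h2 : syn (gm r1 a) z - syn (gm r2 a) z =
      (syn (gm r1 a) z - syn a z) - (syn (gm r2 a) z - syn a z) := by ring
  rw [h2]
  refine (norm_sub_le _ _).trans ?_
  linarith

end Pool.Bes
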