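import Pool.Agent.Work.Bes.Interface

/-!
# Block MID: the inequality for Littlewood-Paley data
-/

open MeasureTheory Complex Finset
open scoped ComplexOrder InnerProductSpace ComplexConjugate

set_option autoImplicit false
set_option linter.unusedSectionVars false

universe v

namespace Pool.Bes

namespace MID

section

variable {H : Type v} [NormedAddCommGroup H] [InnerProductSpace ℂ H] [CompleteSpace H]

theorem abel (g h : ℕ → ℂ) (K : ℕ) (hK : 1 ≤ K) :
    ∑ i ∈ range K, (g (i + 1) - h i) = g K - h 0 + ∑ i ∈ Ico 1 K, (g i - h i) := by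
  induction K, hK using Nat.le_induction with
  | base => simp
  | succ K hK ih =>
    rw [sum_range_succ, ih, sum_Ico_succ_top hK]
    ring

theorem tele (g : ℕ → ℂ) (K : ℕ) : ∑ i ∈ range K, (g (i + 1) - g i) = g K - g 0 :=
  sum_range_sub g K

theorem norm_ep : ‖ep‖ = 1 := by
  rw [ep, norm_div, Complex.norm_real, Real.norm_of_nonneg (Real.sqrt_nonneg 2)]
  have h : ‖(1 + Complex.I : ℂ)‖ = Real.sqrt 2 := by
    rw [Complex.norm_def, Complex.normSq_apply]
    norm_num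
  rw [h, div_self]
  positivity

theorem norm_em : ‖em‖ = 1 := by
  rw [em, norm_div, Complex.norm_real, Real.norm_of_nonneg (Real.sqrt_nonneg 2)]
  have h : ‖(1 - Complex.I : ℂ)‖ = Real.sqrt 2 := by
    rw [Complex.norm_def, Complex.normSq_apply]
    norm_num
  rw [h, div_self]
  positivity

end

end MID

open MID

theorem d_nonneg {H : Type v} [NormedAddCommGroup H] [InnerProductSpace ℂ H] [CompleteSpace H]
    (P : Pair H) : 0 ≤ P.d := by
  have h := P.hd 1
  rw [norm_one, one_mul] at h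
  exact (norm_nonneg _).trans h

theorem LP.w_pos (f : LP) (i : ℕ) : 0 < f.w i := div_pos f.hl (by positivity)

theorem LP.L_nonneg (f : LP) : 0 ≤ f.L := by
  have h := f.hL 1 0
  rw [norm_one, one_mul] at h
  exact (norm_nonneg _).trans h

theorem LP.m_nonneg (f : LP) (i : ℕ) : 0 ≤ f.m i := by
  rcases Nat.eq_zero_or_pos i with rfl | hi
  · rw [f.m0]; exact f.L_nonneg
  · have h := (norm_nonneg _).trans (f.hm i hi 0)
    have h2 : 0 < f.l / 2 ^ i := f.w_pos i
    exact nonneg_of_mul_nonneg_left h h2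

theorem LP.w_succ (f : LP) (i : ℕ) : f.w (i + 1) = f.w i / 2 := by
  rw [LP.w, LP.w, pow_succ]
  field_simp

theorem dd_gm (e : ℂ) (ρ : ℝ) (a : ℂ → ℂ) : dd e (gm ρ a) = gm ρ (dd e a) := by
  funext ξ
  simp only [dd, gm]
  ring

theorem dd_wt (hW : Stmt_Wt) {a : ℂ → ℂ} (ha : Wt a) (e : ℂ) : Wt (dd e a) := by
  obtain ⟨-, -, -, -, h5, h6, -⟩ := hW
  have h := h5 _ Complex.I (h6 a e ha)
  have h2 : (fun ξ => Complex.I * ((ip e ξ : ℂ) * a ξ)) = dd e a := by
    funext ξ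
    simp only [dd]
    ring
  rwa [h2] at h

theorem LP.F_grad (hW : Stmt_Wt) (hD : Stmt_Der) (f : LP) (i : ℕ) (e z : ℂ) :
    ‖syn (dd e (f.F i)) z‖ ≤ ‖e‖ * f.L := by
  rw [LP.F, dd_gm]
  exact (hD (dd e f.a) (dd_wt hW f.ha e) (‖e‖ * f.L) (f.w i) (f.w_pos i) (f.hL e)).1 z

theorem T_sub (hDu : Stmt_Du.{v}) {H : Type v} [NormedAddCommGroup H] [InnerProductSpace ℂ H]
    [CompleteSpace H] (P : Pair H) {a b : ℂ → ℂ} (ha : Wt a) (hb : Wt b) :
    T P (fun ξ => a ξ - b ξ) = T P a - T P b := by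
  have h := (hDu H P).2.2.2.2.2.2.2.2.2.2.2.2.2
  obtain ⟨ia, -, -⟩ := h a ha
  obtain ⟨ib, -, -⟩ := h b hb
  have h1 : Fd P (fun ξ => a ξ - b ξ) = Fd P a - Fd P b := by
    simp only [Fd, sub_smul]
    exact integral_sub ia ib
  rw [T, h1, T, T, tr, tr, tr, pr, pr, pr, map_sub]
  rfl

theorem tD_int (hAv : Stmt_Av.{v}) {H : Type v} [NormedAddCommGroup H] [InnerProductSpace ℂ H]
    [CompleteSpace H] (P : Pair H) {s : ℝ} (hs : 0 < s) (X : S1 H) :
    Integrable (fun r : ℂ => (gam s r : ℂ) • tD P r X) := by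
  obtain ⟨-, h2, h3, -, -, -, -, h8, -⟩ := hAv H P
  obtain ⟨-, hi, hp⟩ := h8 s hs
  have hm : AEStronglyMeasurable (fun r : ℂ => (gam s r : ℂ) • tD P r X) volume :=
    (hi.ofReal (𝕜 := ℂ)).aestronglyMeasurable.smul (h3 X).aestronglyMeasurable
  refine Integrable.mono' (hi.mul_const ‖X‖) hm (Filter.Eventually.of_forall fun r => ?_)
  rw [norm_smul, h2, Complex.norm_real, Real.norm_of_nonneg (hp r).le]

theorem G_lin (hAv : Stmt_Av.{v}) {H : Type v} [NormedAddCommGroup H] [InnerProductSpace ℂ H]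
    [CompleteSpace H] (P : Pair H) {s : ℝ} (hs : 0 < s) (a b : ℂ) (X Y : S1 H) :
    G P s (a • X + b • Y) = a • G P s X + b • G P s Y := by
  rw [G, G, G, av, av, av, ← integral_smul, ← integral_smul, ← integral_add]
  · refine integral_congr_ae (Filter.Eventually.of_forall fun r => ?_)
    simp only [map_add, map_smul, smul_add]
    rw [smul_comm a, smul_comm b]
  · exact (tD_int hAv P hs X).smul a
  · exact (tD_int hAv P hs Y).smul b

theorem pr_add {H : Type v} [NormedAddCommGroup H] [InnerProductSpace ℂ H]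
    [CompleteSpace H] (X Y : S1 H) (Z : H →L[ℂ] H) : pr (X + Y) Z = pr X Z + pr Y Z := by
  rw [pr, pr, pr, map_add]
  rfl

theorem pr_smul {H : Type v} [NormedAddCommGroup H] [InnerProductSpace ℂ H]
    [CompleteSpace H] (c : ℂ) (X : S1 H) (Z : H →L[ℂ] H) : pr (c • X) Z = c * pr X Z := by
  rw [pr, pr, map_smul]
  rfl

theorem Mn_int (hAv : Stmt_Av.{v}) (hAlg : Stmt_Alg.{v}) (hEx : Stmt_Ex.{v}) (hDu : Stmt_Du.{v})
    {H : Type v} [NormedAddCommGroup H] [InnerProductSpace ℂ H]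
    [CompleteSpace H] (P : Pair H) (t : ℝ) (ht : 0 < t) {a : ℂ → ℂ} (ha : Wt a) :
    Integrable (fun ξ : ℂ => a ξ * Complex.I *
      (pr (G P (Real.sqrt 2 * t) (P.D ξ)) (ex P.A ξ) +
        pr (G P (Real.sqrt 2 * t) (P.D ξ)) (ex P.B ξ))) := by
  set s := Real.sqrt 2 * t with hs
  have hs0 : 0 < s := by positivity
  have hc : ∀ N : H →L[ℂ] H, IsStarNormal N → Continuous fun ξ : ℂ => pr (G P s (P.D ξ)) (ex N ξ) := by
    intro N hN
    have h1 : (fun ξ : ℂ => pr (G P s (P.D ξ)) (ex N ξ)) = fun ξ : ℂ =>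
        (ξ.re : ℂ) * pr (G P s P.D1) (ex N ξ) + (ξ.im : ℂ) * pr (G P s P.D2) (ex N ξ) := by
      funext ξ
      rw [Pair.D, G_lin hAv P hs0, pr_add, pr_smul, pr_smul]
    have h2 : Continuous (ex N) := (hEx H N hN).2.2.2.2.1
    have h3 : ∀ X : S1 H, Continuous fun ξ : ℂ => pr X (ex N ξ) := fun X =>
      X.toDual.continuous.comp h2
    rw [h1]
    exact ((Complex.continuous_ofReal.comp Complex.continuous_re).mul (h3 _)).add
      ((Complex.continuous_ofReal.comp Complex.continuous_im).mul (h3 _))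
  have hb : ∀ N : H →L[ℂ] H, IsStarNormal N → ∀ ξ : ℂ,
      ‖pr (G P s (P.D ξ)) (ex N ξ)‖ ≤ ‖ξ‖ * P.d := by
    intro N hN ξ
    have h1 := (hAlg H).2.2.2.2.2.2.1 (G P s (P.D ξ)) (ex N ξ)
    have h2 := (hEx H N hN).2.2.2.1 ξ
    have h3 := (hAv H P).2.2.2.2.2.2.2.2.1 s (P.D ξ) hs0
    have h4 := (hDu H P).2.1 ξ
    calc _ ≤ ‖G P s (P.D ξ)‖ * ‖ex N ξ‖ := h1
      _ ≤ ‖G P s (P.D ξ)‖ * 1 := mul_le_mul_of_nonneg_left h2 (norm_nonneg _)
      _ ≤ ‖ξ‖ * P.d := by rw [mul_one]; exact h3.trans h4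
  have hm : AEStronglyMeasurable (fun ξ : ℂ => a ξ * Complex.I *
      (pr (G P s (P.D ξ)) (ex P.A ξ) + pr (G P s (P.D ξ)) (ex P.B ξ))) volume :=
    (ha.1.mul_const _).mul ((hc P.A P.hA).add (hc P.B P.hB)).aestronglyMeasurable
  refine Integrable.mono' ((ha.2 1).const_mul (2 * P.d)) hm
    (Filter.Eventually.of_forall fun ξ => ?_)
  rw [norm_mul, norm_mul, Complex.norm_I, mul_one, pow_one]
  have h5 := (norm_add_le (pr (G P s (P.D ξ)) (ex P.A ξ)) (pr (G P s (P.D ξ)) (ex P.B ξ))).trans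
    (add_le_add (hb P.A P.hA ξ) (hb P.B P.hB ξ))
  calc _ ≤ ‖a ξ‖ * (‖ξ‖ * P.d + ‖ξ‖ * P.d) := mul_le_mul_of_nonneg_left h5 (norm_nonneg _)
    _ = 2 * P.d * (‖ξ‖ * ‖a ξ‖) := by ring

theorem Mn_sub (hAv : Stmt_Av.{v}) (hAlg : Stmt_Alg.{v}) (hEx : Stmt_Ex.{v}) (hDu : Stmt_Du.{v})
    {H : Type v} [NormedAddCommGroup H] [InnerProductSpace ℂ H]
    [CompleteSpace H] (P : Pair H) (t : ℝ) (ht : 0 < t) {a b : ℂ → ℂ} (ha : Wt a) (hb : Wt b) :
    Mn P t (fun ξ => a ξ - b ξ) = Mn P t a - Mn P t b := by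
  rw [Mn, Mn, Mn, ← mul_sub, ← integral_sub (Mn_int hAv hAlg hEx hDu P t ht ha)
    (Mn_int hAv hAlg hEx hDu P t ht hb)]
  congr 1
  refine integral_congr_ae (Filter.Eventually.of_forall fun ξ => ?_)
  simp only
  ring

/-- far and near part of one piece -/
theorem piece (hFar : Stmt_FarB.{v}) (hNear : Stmt_NearB.{v}) (hW : Stmt_Wt)
    {H : Type v} [NormedAddCommGroup H] [InnerProductSpace ℂ H]
    [CompleteSpace H] (P : Pair H) (f : LP) (i : ℕ) (hi : 1 ≤ i) (u : ℂ → ℂ)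
    (hu : u = fun ξ => gm (Real.sqrt 3 * (f.w i / 2)) f.a ξ - gm (Real.sqrt 15 * (f.w i / 2)) f.a ξ) :
    ‖T P (gm (f.w i / 2) u) - Mn P (1 / f.w i) (gm (f.w i / 2) u)‖ ≤
      80 * Real.sqrt P.d * (f.m i * (1 / (1 / f.w i) * ∫ r in (0 : ℝ)..(1 / f.w i),
        Real.sqrt (vv P 1 r - vv P 1 (Real.sqrt (r ^ 2 + 64 * (1 / f.w i) ^ 2))))) +
      80 * Real.sqrt P.d * (f.m i * (1 / (1 / f.w i) * ∫ r in (0 : ℝ)..(1 / f.w i),
        Real.sqrt (vv P Complex.I r -
          vv P Complex.I (Real.sqrt (r ^ 2 + 64 * (1 / f.w i) ^ 2))))) +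
      (125 * Real.sqrt P.d * (f.m i * Real.sqrt (vv P 1 (1 / f.w i / Real.sqrt 2) -
        vv P 1 (12 * (1 / f.w i)))) +
      125 * Real.sqrt P.d * (f.m i * Real.sqrt (vv P Complex.I (1 / f.w i / Real.sqrt 2) -
        vv P Complex.I (12 * (1 / f.w i)))) +
      125 * Real.sqrt P.d * (f.m i * Real.sqrt (vv P ep (1 / f.w i / Real.sqrt 2) -
        vv P ep (12 * (1 / f.w i)))) +
      125 * Real.sqrt P.d * (f.m i * Real.sqrt (vv P em (1 / f.w i / Real.sqrt 2) -
        vv P em (12 * (1 / f.w i))))) := by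
  have hw := f.w_pos i
  have ht : 0 < 1 / f.w i := by positivity
  have e1 : 1 / (2 * (1 / f.w i)) = f.w i / 2 := by field_simp
  have hgm : ∀ ρ : ℝ, Wt (gm ρ f.a) := fun ρ => hW.2.1 f.a ρ f.ha
  have hWu : Wt u := by
    rw [hu]
    exact hW.2.2.2.1 _ _ (hgm _) (hgm _)
  have hU : ∀ z, ‖syn u z‖ ≤ f.m i * f.w i := by
    intro z
    rw [hu]
    exact f.hm i hi z
  have h1 := hFar H P u hWu (f.m i * f.w i) hU (1 / f.w i) ht
  have h2 := hNear H P u hWu (f.m i * f.w i) hU (1 / f.w i) ht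
  rw [e1] at h1 h2
  have h3 : f.m i * f.w i * (1 / f.w i) = f.m i := by field_simp
  have h4 : 1 / (1 / f.w i) = f.w i := by field_simp
  have e2 : T P (gm (f.w i / 2) u) - Mn P (1 / f.w i) (gm (f.w i / 2) u) =
      (T P (gm (f.w i / 2) u) - Nt P (1 / f.w i) (gm (f.w i / 2) u)) +
      (Nt P (1 / f.w i) (gm (f.w i / 2) u) - Mn P (1 / f.w i) (gm (f.w i / 2) u)) := by ring
  rw [e2, h4]
  refine (norm_add_le _ _).trans ((add_le_add h1 h2).trans (le_of_eq ?_))
  have h5 : 125 * (f.m i * f.w i) * (1 / f.w i) = 125 * f.m i := by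
    rw [mul_assoc, h3]
  rw [h5]
  ring

/-- the sum over the scales, for one direction -/
theorem sumE (hSum : Stmt_Sum) (hAv : Stmt_Av.{v}) {H : Type v} [NormedAddCommGroup H]
    [InnerProductSpace ℂ H] [CompleteSpace H] (P : Pair H) (f : LP) (e : ℂ) (he : ‖e‖ = 1) (M : ℝ)
    (hM0 : 0 ≤ M) (hM : ∀ K, ∑ i ∈ range K, f.m i ^ 2 ≤ M ^ 2) (K : ℕ) :
    ∑ i ∈ range K, f.m (i + 1) * (1 / (1 / f.w (i + 1)) * ∫ r in (0 : ℝ)..(1 / f.w (i + 1)),
        Real.sqrt (vv P e r - vv P e (Real.sqrt (r ^ 2 + 64 * (1 / f.w (i + 1)) ^ 2)))) ≤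
      3 * Real.sqrt P.d * M ∧
    ∑ i ∈ range K, f.m (i + 1) * Real.sqrt (vv P e (1 / f.w (i + 1) / Real.sqrt 2) -
        vv P e (12 * (1 / f.w (i + 1)))) ≤ 3 * Real.sqrt P.d * M := by
  obtain ⟨-, -, -, -, -, -, -, -, -, -, -, h12, h13⟩ := hAv H P
  have hd := d_nonneg P
  have h1 := hSum (vv P e) P.d (2 / f.l) (h12 e) (fun t ht => ⟨norm_nonneg _, by
    have := h13 e t ht
    rwa [he, one_mul] at this⟩) (by have := f.hl; positivity) (fun i => f.m (i + 1)) K
  have h2 : ∀ i : ℕ, 2 ^ i * (2 / f.l) = 1 / f.w (i + 1) := by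
    intro i
    have := f.hl
    rw [LP.w, pow_succ]
    field_simp
  have h3 : Real.sqrt (∑ i ∈ range K, f.m (i + 1) ^ 2) ≤ M := by
    rw [Real.sqrt_le_left hM0]
    refine le_trans ?_ (hM (K + 1))
    rw [sum_range_succ']
    have := sq_nonneg (f.m 0)
    linarith
  simp only [h2, abs_of_nonneg (f.m_nonneg _)] at h1
  have h4 : 3 * Real.sqrt P.d * Real.sqrt (∑ i ∈ range K, f.m (i + 1) ^ 2) ≤
      3 * Real.sqrt P.d * M := mul_le_mul_of_nonneg_left h3 (by positivity)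
  exact ⟨h1.1.trans h4, h1.2.trans h4⟩

theorem blk_MID (hFar : Stmt_FarB.{v}) (hNear : Stmt_NearB.{v}) (hMnB : Stmt_MnB.{v})
    (hMainB : Stmt_MainB.{v}) (hCo : Stmt_Co.{v}) (hLPI : Stmt_LPI) (hSum : Stmt_Sum)
    (hLim : Stmt_Lim.{v}) (hW : Stmt_Wt) (hAv : Stmt_Av.{v}) (hDu : Stmt_Du.{v})
    (hDer : Stmt_Der) (hAlg : Stmt_Alg.{v}) (hEx : Stmt_Ex.{v}) : Stmt_Mid.{v} := by
  obtain ⟨C, hC0, hC⟩ := hMainB
  refine ⟨2010 + C, by positivity, ?_⟩
  intro H _ _ _ P f hreal hAB M hM hM0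
  have hd := d_nonneg P
  have hgm : ∀ ρ : ℝ, Wt (gm ρ f.a) := fun ρ => hW.2.1 f.a ρ f.ha
  have hF : ∀ i, Wt (f.F i) := fun i => hgm _
  have hLM : f.L ≤ M := by
    have h := hM 1
    rw [sum_range_one, f.m0] at h
    exact (abs_le_of_sq_le_sq' h hM0).2
  -- the bound for finite `K`
  have key : ∀ K : ℕ, 1 ≤ K → |(T P (f.F K)).re| ≤ (2010 + C) * P.d * M := by
    intro K hK
    set u : ℕ → ℂ → ℂ := fun i ξ => gm (Real.sqrt 3 * (f.w i / 2)) f.a ξ -
      gm (Real.sqrt 15 * (f.w i / 2)) f.a ξ with hu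
    set E : ℕ → ℂ := fun i => T P (gm (f.w (i + 1) / 2) (u (i + 1))) -
      Mn P (1 / f.w (i + 1)) (gm (f.w (i + 1) / 2) (u (i + 1))) with hE
    set g : ℕ → ℂ := fun i => Mn P (1 / f.w i) (f.F i) with hg
    set h : ℕ → ℂ := fun i => Mn P (2 / f.w i) (f.F i) with hh
    have hpc : ∀ i : ℕ, gm (f.w (i + 1) / 2) (u (i + 1)) =
        fun ξ => f.F (i + 1) ξ - f.F i ξ := by
      intro i
      have := hLPI f (i + 1) (by omega)
      rw [Nat.add_sub_cancel] at this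
      rw [this]
    have ht : ∀ i : ℕ, 1 / f.w (i + 1) = 2 / f.w i := by
      intro i
      have := f.w_pos i
      rw [f.w_succ]
      field_simp
    have hwp : ∀ i : ℕ, 0 < 1 / f.w i := fun i => by have := f.w_pos i; positivity
    have e1 : T P (f.F K) - T P (f.F 0) = ∑ i ∈ range K, (E i + (g (i + 1) - h i)) := by
      rw [← tele (fun i => T P (f.F i)) K]
      refine sum_congr rfl fun i _ => ?_
      have h1 := T_sub hDu P (hF (i + 1)) (hF i)
      have h2 := Mn_sub hAv hAlg hEx hDu P (1 / f.w (i + 1)) (hwp _) (hF (i + 1)) (hF i)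
      simp only [hE, hg, hh]
      rw [hpc, h1, h2, ht i]
      ring
    have e2 : T P (f.F K) = T P (f.F 0) + ∑ i ∈ range K, E i + g K - h 0 +
        ∑ i ∈ Ico 1 K, (g i - h i) := by
      rw [sum_add_distrib, abel g h K hK] at e1
      linear_combination e1
    -- bounds
    have b1 : ‖T P (f.F 0)‖ ≤ 20 * f.L * P.d := by
      have h0 : f.w 0 = f.l := by rw [LP.w, pow_zero, div_one]
      rw [LP.F, h0]
      exact hCo H P f.a f.ha f.L f.hL f.l f.hl hAB
    have b2 : ‖g K‖ ≤ 2 * f.L * P.d :=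
      hMnB H P (f.F K) (hF K) f.L (LP.F_grad hW hDer f K) _ (hwp K)
    have b3 : ‖h 0‖ ≤ 2 * f.L * P.d := by
      have := hMnB H P (f.F 0) (hF 0) f.L (LP.F_grad hW hDer f 0) (2 / f.w 0)
        (by rw [← ht]; exact hwp 1)
      exact this
    have b4 : ‖∑ i ∈ range K, E i‖ ≤ 1980 * P.d * M := by
      have hp : ∀ i ∈ range K, ‖E i‖ ≤ _ := fun i _ =>
        piece hFar hNear hW P f (i + 1) (by omega) (u (i + 1)) rfl
      refine (norm_sum_le_of_le (range K) hp).trans ?_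
      rw [sum_add_distrib, sum_add_distrib, sum_add_distrib, sum_add_distrib, sum_add_distrib,
        ← mul_sum, ← mul_sum, ← mul_sum, ← mul_sum, ← mul_sum, ← mul_sum]
      have s1 := sumE hSum hAv P f 1 norm_one M hM0 hM K
      have s2 := sumE hSum hAv P f Complex.I Complex.norm_I M hM0 hM K
      have s3 := sumE hSum hAv P f ep norm_ep M hM0 hM K
      have s4 := sumE hSum hAv P f em norm_em M hM0 hM K
      have hsd : Real.sqrt P.d * Real.sqrt P.d = P.d := Real.mul_self_sqrt hd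
      have c1 : 80 * Real.sqrt P.d * (3 * Real.sqrt P.d * M) = 240 * P.d * M := by
        linear_combination (240 * M) * hsd
      have c2 : 125 * Real.sqrt P.d * (3 * Real.sqrt P.d * M) = 375 * P.d * M := by
        linear_combination (375 * M) * hsd
      have p1 : 0 ≤ 80 * Real.sqrt P.d := by positivity
      have p2 : 0 ≤ 125 * Real.sqrt P.d := by positivity
      have t1 := mul_le_mul_of_nonneg_left s1.1 p1
      have t2 := mul_le_mul_of_nonneg_left s2.1 p1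
      have t3 := mul_le_mul_of_nonneg_left s1.2 p2
      have t4 := mul_le_mul_of_nonneg_left s2.2 p2
      have t5 := mul_le_mul_of_nonneg_left s3.2 p2
      have t6 := mul_le_mul_of_nonneg_left s4.2 p2
      rw [c1] at t1 t2
      rw [c2] at t3 t4 t5 t6
      linarith
    have b5 : |(∑ i ∈ Ico 1 K, (g i - h i)).re| ≤ C * P.d * M := by
      have h1 := hC H P f hd hreal K
      have h2 : Real.sqrt (∑ i ∈ range K, f.m i ^ 2) ≤ M := by
        rw [Real.sqrt_le_left hM0]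
        exact hM K
      rw [Complex.re_sum]
      refine (abs_sum_le_sum_abs _ _).trans (h1.trans ?_)
      exact mul_le_mul_of_nonneg_left h2 (by positivity)
    have hre : (T P (f.F K)).re = (T P (f.F 0)).re + (∑ i ∈ range K, E i).re + (g K).re -
        (h 0).re + (∑ i ∈ Ico 1 K, (g i - h i)).re := by
      rw [e2]
      simp only [Complex.add_re, Complex.sub_re]
    have r1 := (Complex.abs_re_le_norm (T P (f.F 0))).trans b1
    have r2 := (Complex.abs_re_le_norm (∑ i ∈ range K, E i)).trans b4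
    have r3 := (Complex.abs_re_le_norm (g K)).trans b2
    have r4 := (Complex.abs_re_le_norm (h 0)).trans b3
    have hLd : f.L * P.d ≤ P.d * M := by
      rw [mul_comm]
      exact mul_le_mul_of_nonneg_left hLM hd
    have hdM : 0 ≤ P.d * M := mul_nonneg hd hM0
    rw [hre]
    have ab := abs_le.1 r1
    have ab2 := abs_le.1 r2
    have ab3 := abs_le.1 r3
    have ab4 := abs_le.1 r4
    have ab5 := abs_le.1 b5
    rw [abs_le]
    constructor <;> nlinarith
  have hl := hLim H P f.a f.ha f.l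
  have hl2 : Filter.Tendsto (fun K : ℕ => |(T P (gm (f.l / 2 ^ K) f.a)).re|) Filter.atTop
      (nhds |(T P f.a).re|) :=
    ((Complex.continuous_re.tendsto _).comp hl).abs
  refine le_of_tendsto hl2 ?_
  filter_upwards [Filter.eventually_ge_atTop 1] with K hK
  exact key K hK

end Pool.Bes
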