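import Pool.Agent.Work.Bes.Interface
import Pool.Agent.Work.Bes.MID
import Pool.Agent.Work.Bes.LMT

/-!
# Block MAINB: the main terms
-/

open MeasureTheory Complex Finset
open scoped ComplexOrder InnerProductSpace ComplexConjugate

set_option autoImplicit false
set_option linter.unusedSectionVars false

universe v

namespace Pool.Bes

namespace MAINB

/-! ### Gaussian moments and scaling -/

theorem gam_mom (hg : Integrable (gam (Real.sqrt 2))) :
    Integrable (fun x : ℂ => gam 1 x * ‖x‖ ^ 2) ∧ Integrable (fun x : ℂ => gam 1 x * ‖x‖) := by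
  have hpi : 0 < Real.pi := Real.pi_pos
  have hc : Continuous fun x : ℂ => gam 1 x := by
    unfold gam
    fun_prop
  have h0 : ∀ x : ℂ, 0 ≤ gam 1 x := by
    intro x
    unfold gam
    positivity
  have hb : ∀ x : ℂ, gam 1 x * (1 + ‖x‖ ^ 2) ≤ 10 * gam (Real.sqrt 2) x := by
    intro x
    have h2 : Real.sqrt 2 ^ 2 = 2 := Real.sq_sqrt (by norm_num)
    have e1 : gam 1 x = 1 / (2 * Real.pi) * (Real.exp (-(‖x‖ ^ 2 / 4)) *
        Real.exp (-(‖x‖ ^ 2 / 4))) := by
      rw [gam, ← Real.exp_add]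
      ring_nf
    have e2 : gam (Real.sqrt 2) x = 1 / (4 * Real.pi) * Real.exp (-(‖x‖ ^ 2 / 4)) := by
      rw [gam, h2]
      ring_nf
    have h3 : (1 + ‖x‖ ^ 2) * Real.exp (-(‖x‖ ^ 2 / 4)) ≤ 5 := by
      have h4 : ‖x‖ ^ 2 / 4 ≤ Real.exp (‖x‖ ^ 2 / 4) := by
        have := Real.add_one_le_exp (‖x‖ ^ 2 / 4)
        linarith
      have h5 : 1 ≤ Real.exp (‖x‖ ^ 2 / 4) := Real.one_le_exp (by positivity)
      have h6 : Real.exp (‖x‖ ^ 2 / 4) * Real.exp (-(‖x‖ ^ 2 / 4)) = 1 := by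
        rw [← Real.exp_add]
        simp
      have h7 : 0 < Real.exp (-(‖x‖ ^ 2 / 4)) := Real.exp_pos _
      have h8 : 1 + ‖x‖ ^ 2 ≤ 5 * Real.exp (‖x‖ ^ 2 / 4) := by linarith
      calc (1 + ‖x‖ ^ 2) * Real.exp (-(‖x‖ ^ 2 / 4))
          ≤ 5 * Real.exp (‖x‖ ^ 2 / 4) * Real.exp (-(‖x‖ ^ 2 / 4)) :=
            mul_le_mul_of_nonneg_right h8 h7.le
        _ = 5 := by rw [mul_assoc, h6, mul_one]
    rw [e1, e2]
    have h9 : 0 < Real.exp (-(‖x‖ ^ 2 / 4)) := Real.exp_pos _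
    calc 1 / (2 * Real.pi) * (Real.exp (-(‖x‖ ^ 2 / 4)) * Real.exp (-(‖x‖ ^ 2 / 4))) *
          (1 + ‖x‖ ^ 2)
        = 1 / (2 * Real.pi) * Real.exp (-(‖x‖ ^ 2 / 4)) *
          ((1 + ‖x‖ ^ 2) * Real.exp (-(‖x‖ ^ 2 / 4))) := by ring
      _ ≤ 1 / (2 * Real.pi) * Real.exp (-(‖x‖ ^ 2 / 4)) * 5 :=
          mul_le_mul_of_nonneg_left h3 (by positivity)
      _ = 10 * (1 / (4 * Real.pi) * Real.exp (-(‖x‖ ^ 2 / 4))) := by
          field_simp
          ring
  constructor
  · refine Integrable.mono' (hg.const_mul 10)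
      (hc.mul (continuous_norm.pow 2)).aestronglyMeasurable
      (Filter.Eventually.of_forall fun x => ?_)
    rw [Real.norm_of_nonneg (mul_nonneg (h0 x) (by positivity))]
    refine le_trans (mul_le_mul_of_nonneg_left ?_ (h0 x)) (hb x)
    linarith
  · refine Integrable.mono' (hg.const_mul 10)
      (hc.mul continuous_norm).aestronglyMeasurable
      (Filter.Eventually.of_forall fun x => ?_)
    rw [Real.norm_of_nonneg (mul_nonneg (h0 x) (by positivity))]
    refine le_trans (mul_le_mul_of_nonneg_left ?_ (h0 x)) (hb x)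
    nlinarith [sq_nonneg (‖x‖ - 1), norm_nonneg x]

theorem gam_scale {σ : ℝ} (hσ : 0 < σ) (x : ℂ) : gam σ ((σ : ℂ) * x) = (σ ^ 2)⁻¹ * gam 1 x := by
  have hpi : 0 < Real.pi := Real.pi_pos
  rw [gam, gam, norm_mul, Complex.norm_real, Real.norm_of_nonneg hσ.le]
  have e1 : (σ * ‖x‖) ^ 2 / (2 * σ ^ 2) = ‖x‖ ^ 2 / (2 * 1 ^ 2) := by
    field_simp
  rw [e1]
  field_simp

theorem integral_gam_scale {σ : ℝ} (hσ : 0 < σ) (g : ℂ → ℝ) :
    ∫ ζ : ℂ, gam σ ζ * g ζ = ∫ x : ℂ, gam 1 x * g ((σ : ℂ) * x) := by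
  have h := MeasureTheory.Measure.integral_comp_smul (volume : Measure ℂ)
    (fun ζ : ℂ => gam σ ζ * g ζ) σ
  have h2 : Module.finrank ℝ ℂ = 2 := Complex.finrank_real_complex
  rw [h2, abs_of_pos (by positivity)] at h
  have h3 : (∫ x : ℂ, gam σ (σ • x) * g (σ • x)) =
      (σ ^ 2)⁻¹ * ∫ x : ℂ, gam 1 x * g ((σ : ℂ) * x) := by
    rw [← integral_const_mul]
    refine integral_congr_ae (Filter.Eventually.of_forall fun x => ?_)
    simp only [Complex.real_smul]
    rw [gam_scale hσ]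
    ring
  rw [h3, smul_eq_mul] at h
  have h4 : (σ ^ 2)⁻¹ ≠ 0 := by positivity
  exact (mul_left_cancel₀ h4 h).symm

/-! ### Real-valuedness of the gradient -/

theorem ch_deriv (ξ z e : ℂ) (c : ℝ) :
    HasDerivAt (fun c : ℝ => ch ξ (z + c * e)) (Complex.I * (ip e ξ : ℂ) * ch ξ (z + c * e)) c := by
  have h1 : (fun c : ℝ => ch ξ (z + c * e)) = fun c : ℝ =>
      Complex.exp (Complex.I * ((ip ξ z : ℝ) + (c : ℂ) * (ip e ξ : ℝ))) := by
    funext c
    rw [ch]
    congr 2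
    rw [ip, ip, ip]
    simp only [Complex.add_re, Complex.add_im, Complex.mul_re, Complex.mul_im, Complex.ofReal_re,
      Complex.ofReal_im, zero_mul, sub_zero, add_zero]
    push_cast
    ring
  have h2 := congrFun h1 c
  rw [h1, h2]
  have h3 : HasDerivAt (fun c : ℝ => Complex.I * (((ip ξ z : ℝ) : ℂ) + (c : ℂ) * (ip e ξ : ℝ)))
      (Complex.I * (ip e ξ : ℂ)) c := by
    have h4 : HasDerivAt (fun c : ℝ => (c : ℂ)) 1 c := Complex.ofRealCLM.hasDerivAt
    have h5 := ((h4.mul_const ((ip e ξ : ℝ) : ℂ)).const_add ((ip ξ z : ℝ) : ℂ)).const_mul Complex.I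
    rwa [one_mul] at h5
  have h6 := h3.cexp
  rw [mul_comm]
  exact h6

theorem norm_ch (ξ z : ℂ) : ‖ch ξ z‖ = 1 := by
  rw [ch, mul_comm, Complex.norm_exp_ofReal_mul_I]

theorem abs_ip_le (e ξ : ℂ) : |ip e ξ| ≤ ‖e‖ * ‖ξ‖ := by
  have h1 : (ip e ξ) = (conj e * ξ).re := by
    rw [ip, Complex.mul_re, Complex.conj_re, Complex.conj_im]
    ring
  rw [h1]
  refine (Complex.abs_re_le_norm _).trans (le_of_eq ?_)
  rw [norm_mul, RCLike.norm_conj]

theorem ch_cont (ξ : ℂ) : Continuous (ch ξ) := by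
  unfold ch ip
  fun_prop

theorem ch_cont' (z : ℂ) : Continuous fun ξ => ch ξ z := by
  unfold ch ip
  fun_prop

theorem syn_deriv {a : ℂ → ℂ} (ha : Wt a) (e z : ℂ) :
    HasDerivAt (fun c : ℝ => syn a (z + c * e)) (syn (dd e a) z) 0 := by
  have hi : Integrable a := by
    refine ((ha.2 0).mono' ha.1 (Filter.Eventually.of_forall fun ξ => ?_))
    simp
  have h := hasDerivAt_integral_of_dominated_loc_of_deriv_le (μ := (volume : Measure ℂ))
    (F := fun (c : ℝ) (ξ : ℂ) => a ξ * ch ξ (z + c * e))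
    (F' := fun (c : ℝ) (ξ : ℂ) => a ξ * (Complex.I * (ip e ξ : ℂ) * ch ξ (z + c * e)))
    (x₀ := (0 : ℝ)) (s := Set.univ) (bound := fun ξ => ‖e‖ * (‖ξ‖ ^ 1 * ‖a ξ‖))
    Filter.univ_mem
    (Filter.Eventually.of_forall fun c => (ha.1.mul (ch_cont' _).aestronglyMeasurable))
    (by
      refine hi.norm.mono' (ha.1.mul (ch_cont' _).aestronglyMeasurable)
        (Filter.Eventually.of_forall fun ξ => ?_)
      rw [norm_mul, norm_ch, mul_one])
    (by
      refine ha.1.mul (Continuous.aestronglyMeasurable ?_)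
      have : Continuous fun ξ : ℂ => (ip e ξ : ℂ) := by
        unfold ip
        fun_prop
      exact (continuous_const.mul this).mul (ch_cont' _))
    (Filter.Eventually.of_forall fun ξ c _ => by
      rw [norm_mul, norm_mul, norm_mul, Complex.norm_I, norm_ch, one_mul, mul_one,
        Complex.norm_real, Real.norm_eq_abs]
      have := abs_ip_le e ξ
      calc ‖a ξ‖ * |ip e ξ| ≤ ‖a ξ‖ * (‖e‖ * ‖ξ‖) :=
            mul_le_mul_of_nonneg_left this (norm_nonneg _)
        _ = ‖e‖ * (‖ξ‖ ^ 1 * ‖a ξ‖) := by ring)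
    ((ha.2 1).const_mul ‖e‖)
    (Filter.Eventually.of_forall fun ξ c _ => (ch_deriv ξ z e c).const_mul (a ξ))
  have h2 := h.2
  have e1 : (∫ ξ : ℂ, a ξ * (Complex.I * (ip e ξ : ℂ) * ch ξ (z + ((0 : ℝ) : ℂ) * e))) =
      syn (dd e a) z := by
    rw [syn]
    refine integral_congr_ae (Filter.Eventually.of_forall fun ξ => ?_)
    simp only [dd, Complex.ofReal_zero, zero_mul, add_zero]
    ring
  rw [e1] at h2
  exact h2

theorem syn_dd_real {a : ℂ → ℂ} (ha : Wt a) (hr : ∀ z, (syn a z).im = 0) (e z : ℂ) :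
    (syn (dd e a) z).im = 0 := by
  have h1 := syn_deriv ha e z
  have h2 : HasDerivAt (fun c : ℝ => (syn a (z + c * e)).im) (syn (dd e a) z).im 0 := by
    have := Complex.imCLM.hasFDerivAt.comp_hasDerivAt (0 : ℝ) h1
    exact this
  have h3 : (fun c : ℝ => (syn a (z + c * e)).im) = fun _ => (0 : ℝ) := by
    funext c
    exact hr _
  rw [h3] at h2
  exact h2.unique (hasDerivAt_const (0 : ℝ) (0 : ℝ))

theorem syn_gm_real (hW : Stmt_Wt) {a : ℂ → ℂ} (ha : Wt a) (hr : ∀ z, (syn a z).im = 0) {ρ : ℝ}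
    (hρ : 0 < ρ) (z : ℂ) : (syn (gm ρ a) z).im = 0 := by
  rw [hW.2.2.2.2.2.2.2.2 a ha ρ hρ z]
  have h1 : (∫ n : ℂ, (gam ρ n : ℂ) * syn a (z + n)) =
      ((∫ n : ℂ, gam ρ n * (syn a (z + n)).re : ℝ) : ℂ) := by
    refine (integral_congr_ae (Filter.Eventually.of_forall fun n => ?_)).trans
      (integral_ofReal (𝕜 := ℂ) (f := fun n : ℂ => gam ρ n * (syn a (z + n)).re))
    have h2 : syn a (z + n) = (((syn a (z + n)).re : ℝ) : ℂ) :=
      Complex.ext (by simp) (by simp [hr])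
    change (gam ρ n : ℂ) * syn a (z + n) = ((gam ρ n * (syn a (z + n)).re : ℝ) : ℂ)
    rw [Complex.ofReal_mul, ← h2]
  rw [h1, Complex.ofReal_im]

theorem syn_dd_scale {c : ℝ} {e : ℂ} (a : ℂ → ℂ) (z : ℂ) :
    syn (dd ((c : ℂ) * e) a) z = (c : ℂ) * syn (dd e a) z := by
  rw [syn, syn, ← integral_const_mul]
  refine integral_congr_ae (Filter.Eventually.of_forall fun ξ => ?_)
  have : ip ((c : ℂ) * e) ξ = c * ip e ξ := by
    rw [ip, ip]
    simp only [Complex.mul_re, Complex.mul_im, Complex.ofReal_re, Complex.ofReal_im, zero_mul,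
      sub_zero, add_zero]
    ring
  simp only [dd]
  rw [this, Complex.ofReal_mul]
  ring

/-! ### The sums of the errors -/

/-- `w_i` times the double sum of block DEF -/
noncomputable def Sd (f : LP) (i : ℕ) : ℝ :=
  f.w i * ∑ j ∈ range (i + 1), ∑ k ∈ range (i + 1), f.m j * f.m k / f.w (min j k)

noncomputable def rd (f : LP) (i : ℕ) : ℝ := f.w i * ∑ j ∈ range (i + 1), f.m j / f.w j

theorem rd_succ (f : LP) (i : ℕ) : rd f (i + 1) = f.m (i + 1) + rd f i / 2 := by
  have h := f.w_pos (i + 1)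
  have h0 := f.w_pos i
  rw [rd, sum_range_succ, mul_add, rd, mul_div_cancel₀ _ h.ne', f.w_succ]
  ring

theorem Sd_succ (f : LP) (i : ℕ) :
    Sd f (i + 1) = Sd f i / 2 + f.m (i + 1) * rd f i + f.m (i + 1) ^ 2 := by
  have h := f.w_pos (i + 1)
  have h0 := f.w_pos i
  have e1 : ∑ j ∈ range (i + 1 + 1), ∑ k ∈ range (i + 1 + 1), f.m j * f.m k / f.w (min j k) =
      ∑ j ∈ range (i + 1), ∑ k ∈ range (i + 1), f.m j * f.m k / f.w (min j k) +
      2 * (f.m (i + 1) * ∑ j ∈ range (i + 1), f.m j / f.w j) +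
      f.m (i + 1) * f.m (i + 1) / f.w (i + 1) := by
    rw [sum_range_succ]
    have h1 : ∑ j ∈ range (i + 1), ∑ k ∈ range (i + 1 + 1), f.m j * f.m k / f.w (min j k) =
        ∑ j ∈ range (i + 1), ∑ k ∈ range (i + 1), f.m j * f.m k / f.w (min j k) +
        f.m (i + 1) * ∑ j ∈ range (i + 1), f.m j / f.w j := by
      rw [mul_sum, ← sum_add_distrib]
      refine sum_congr rfl fun j hj => ?_
      rw [sum_range_succ, min_eq_left (by have := mem_range.1 hj; omega : j ≤ i + 1)]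
      ring
    have h2 : ∑ k ∈ range (i + 1 + 1), f.m (i + 1) * f.m k / f.w (min (i + 1) k) =
        f.m (i + 1) * ∑ j ∈ range (i + 1), f.m j / f.w j +
        f.m (i + 1) * f.m (i + 1) / f.w (i + 1) := by
      rw [sum_range_succ, min_self, mul_sum]
      congr 1
      refine sum_congr rfl fun j hj => ?_
      rw [min_eq_right (by have := mem_range.1 hj; omega : j ≤ i + 1)]
      ring
    rw [h1, h2]
    ring
  rw [Sd, e1, Sd, rd, mul_add, mul_add, f.w_succ]
  have h3 : f.w i / 2 * (f.m (i + 1) * f.m (i + 1) / (f.w i / 2)) = f.m (i + 1) ^ 2 := by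
    field_simp
  rw [h3]
  ring

theorem sum_Sd (f : LP) (K : ℕ) : ∑ i ∈ range K, Sd f i ≤ 9 * ∑ i ∈ range K, f.m i ^ 2 := by
  have key : ∀ K : ℕ, ∑ i ∈ range (K + 1), Sd f i + Sd f K + 4 * rd f K ^ 2 ≤
      9 * ∑ i ∈ range (K + 1), f.m i ^ 2 := by
    intro K
    induction K with
    | zero =>
      have h := f.w_pos 0
      have e1 : Sd f 0 = f.m 0 ^ 2 := by
        rw [Sd]
        simp only [zero_add, range_one, sum_singleton, min_self]
        field_simp
      have e2 : rd f 0 = f.m 0 := by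
        rw [rd]
        simp only [zero_add, range_one, sum_singleton]
        field_simp
      simp only [zero_add, range_one, sum_singleton]
      rw [e1, e2]
      nlinarith [sq_nonneg (f.m 0)]
    | succ K ih =>
      rw [sum_range_succ, sum_range_succ (fun i => f.m i ^ 2), Sd_succ, rd_succ]
      nlinarith [sq_nonneg (rd f K - f.m (K + 1))]
  have hS : ∀ i, 0 ≤ Sd f i := by
    intro i
    refine mul_nonneg (f.w_pos i).le (sum_nonneg fun j _ => sum_nonneg fun k _ => ?_)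
    exact div_nonneg (mul_nonneg (f.m_nonneg _) (f.m_nonneg _)) (f.w_pos _).le
  cases K with
  | zero => simp
  | succ K =>
    have h1 := key K
    have h2 := hS K
    have h3 := sq_nonneg (rd f K)
    linarith

theorem Sd_nonneg (f : LP) (i : ℕ) : 0 ≤ Sd f i := by
  refine mul_nonneg (f.w_pos i).le (sum_nonneg fun j _ => sum_nonneg fun k _ => ?_)
  exact div_nonneg (mul_nonneg (f.m_nonneg _) (f.m_nonneg _)) (f.w_pos _).le

/-! ### One value of `ζ` -/

section

variable {H : Type v} [NormedAddCommGroup H] [InnerProductSpace ℂ H] [CompleteSpace H]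

theorem lm_smul (c : ℂ) (S : H →L[ℂ] H) (X : S1 H) : lm (c • S) X = c • lm S X := by
  refine S1.toDual_injective (ContinuousLinearMap.ext fun Z => ?_)
  have h : pr (lm (c • S) X) Z = c * pr (lm S X) Z := by
    rw [pr_lm, pr_lm, mul_smul_comm, pr_smul_right]
  rw [map_smul]
  exact h

theorem rm_smul (c : ℂ) (S : H →L[ℂ] H) (X : S1 H) : rm (c • S) X = c • rm S X := by
  refine S1.toDual_injective (ContinuousLinearMap.ext fun Z => ?_)
  have h : pr (rm (c • S) X) Z = c * pr (rm S X) Z := by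
    rw [pr_rm, pr_rm, smul_mul_assoc, pr_smul_right]
  rw [map_smul]
  exact h

theorem one_zeta (hDu : Stmt_Du.{v}) (hFn : Stmt_Fn.{v}) (hW : Stmt_Wt) (hD : Stmt_Der)
    {C CD : ℝ}
    (hLMT : ∀ (H : Type v) [NormedAddCommGroup H]
      [InnerProductSpace ℂ H] [CompleteSpace H] (P : Pair H) (Q : ℂ → ℝ), Continuous Q →
      (∀ z, |Q z| ≤ 1) → ∀ (q : S1 H),
      op q = fn (fun z => (Q z : ℂ)) P.A - fn (fun z => (Q z : ℂ)) P.B → ∀ (ζ : ℂ),
      |(II P ζ (fun z => (Q z : ℂ))).im| ≤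
        C * (EN P ζ + ‖cm P (fun z => (Q z : ℂ)) q‖)) (hC0 : 0 ≤ C)
    (hDef : ∀ (H : Type v) [NormedAddCommGroup H]
      [InnerProductSpace ℂ H] [CompleteSpace H] (P : Pair H) (f : LP) (i : ℕ) (e : ℂ), ‖e‖ = 1 →
      ‖cm P (syn (dd e (f.F i))) (Fd P (dd e (f.F i)))‖ ≤
        CD * P.d * ∑ j ∈ Finset.range (i + 1), ∑ k ∈ Finset.range (i + 1),
          f.m j * f.m k / f.w (min j k))
    (P : Pair H) (f : LP) (hreal : ∀ z, (syn f.a z).im = 0) (i : ℕ) {L' : ℝ} (hL' : 0 < L')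
    (hLL : f.L ≤ L') (ζ : ℂ) :
    |(II P ζ (syn (dd ζ (f.F i)))).im| ≤
      ‖ζ‖ * L' * C * (EN P ζ + CD * P.d / L' ^ 2 * (Sd f i / f.w i)) := by
  have hFi : Wt (f.F i) := hW.2.1 f.a _ f.ha
  rcases eq_or_ne ζ 0 with rfl | hζ
  · have h1 : syn (dd 0 (f.F i)) = fun _ => 0 := by
      funext z
      have h2 := syn_dd_scale (c := 0) (e := 0) (f.F i) z
      simpa using h2
    rw [h1, II_zero]
    simp
  · set e : ℂ := ζ / ‖ζ‖ with he
    have hζn : (‖ζ‖ : ℂ) ≠ 0 := by
      simpa using hζ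
    have he1 : ‖e‖ = 1 := by
      rw [he, norm_div, Complex.norm_real, norm_norm, div_self]
      simpa using hζ
    have hζe : ζ = (‖ζ‖ : ℂ) * e := by
      rw [he]
      field_simp
    have hreF : ∀ z, (syn (f.F i) z).im = 0 := fun z =>
      syn_gm_real hW f.ha hreal (f.w_pos i) z
    have hreD : ∀ z, (syn (dd e (f.F i)) z).im = 0 := fun z => syn_dd_real hFi hreF e z
    have hWd : Wt (dd e (f.F i)) := dd_wt hW hFi e
    set Q : ℂ → ℝ := fun z => L'⁻¹ * (syn (dd e (f.F i)) z).re with hQ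
    have hcs : Continuous (syn (dd e (f.F i))) := (hFn H P.A P.hA _ (hW.1 _ hWd)).1
    have hQc : Continuous Q := continuous_const.mul (Complex.continuous_re.comp hcs)
    have hQ1 : ∀ z, |Q z| ≤ 1 := by
      intro z
      rw [hQ]
      simp only
      rw [abs_mul, abs_of_pos (inv_pos.2 hL')]
      have h1 := (Complex.abs_re_le_norm _).trans (LP.F_grad hW hD f i e z)
      rw [he1, one_mul] at h1
      calc L'⁻¹ * |(syn (dd e (f.F i)) z).re| ≤ L'⁻¹ * L' :=
            mul_le_mul_of_nonneg_left (h1.trans hLL) (inv_pos.2 hL').le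
        _ = 1 := inv_mul_cancel₀ hL'.ne'
    have hQs : (fun z => (Q z : ℂ)) = fun z => (L' : ℂ)⁻¹ * syn (dd e (f.F i)) z := by
      funext z
      have h2 : syn (dd e (f.F i)) z = (((syn (dd e (f.F i)) z).re : ℝ) : ℂ) :=
        Complex.ext (by simp) (by simp [hreD])
      rw [hQ]
      simp only
      rw [Complex.ofReal_mul, ← h2, Complex.ofReal_inv]
    have hfn : ∀ N : H →L[ℂ] H, fn (fun z => (Q z : ℂ)) N =
        (L' : ℂ)⁻¹ • fn (syn (dd e (f.F i))) N := by
      intro N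
      rw [hQs, fn, fn, cfc_const_mul _ _ N hcs.continuousOn]
    set q : S1 H := (L' : ℂ)⁻¹ • Fd P (dd e (f.F i)) with hq
    have hopq : op q = fn (fun z => (Q z : ℂ)) P.A - fn (fun z => (Q z : ℂ)) P.B := by
      rw [hq, map_smul, hfn, hfn, ← smul_sub]
      congr 1
      exact ((hDu H P).2.2.2.2.2.2.2.2.2.2.2.2.2 _ hWd).2.1
    have h1 := hLMT H P Q hQc hQ1 q hopq ζ
    have hcm : cm P (fun z => (Q z : ℂ)) q = ((L' : ℂ)⁻¹ * (L' : ℂ)⁻¹) •
        cm P (syn (dd e (f.F i))) (Fd P (dd e (f.F i))) := by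
      rw [cm, cm, hfn, hfn, hq, lm_smul, rm_smul, map_smul, map_smul, ← smul_sub, ← smul_sub,
        smul_smul]
    have hn : ‖cm P (fun z => (Q z : ℂ)) q‖ ≤ CD * P.d / L' ^ 2 * (Sd f i / f.w i) := by
      rw [hcm, norm_smul, norm_mul, norm_inv, Complex.norm_real, Real.norm_of_nonneg hL'.le]
      have h2 := hDef H P f i e he1
      have h3 : ∑ j ∈ Finset.range (i + 1), ∑ k ∈ Finset.range (i + 1),
          f.m j * f.m k / f.w (min j k) = Sd f i / f.w i := by
        rw [Sd, mul_div_cancel_left₀ _ (f.w_pos i).ne']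
      rw [h3] at h2
      calc L'⁻¹ * L'⁻¹ * ‖cm P (syn (dd e (f.F i))) (Fd P (dd e (f.F i)))‖
          ≤ L'⁻¹ * L'⁻¹ * (CD * P.d * (Sd f i / f.w i)) :=
            mul_le_mul_of_nonneg_left h2 (by positivity)
        _ = CD * P.d / L' ^ 2 * (Sd f i / f.w i) := by
            field_simp
    have hII : II P ζ (syn (dd ζ (f.F i))) = ((‖ζ‖ * L' : ℝ) : ℂ) *
        II P ζ (fun z => (Q z : ℂ)) := by
      have hc2 : Continuous fun z => (Q z : ℂ) := Complex.continuous_ofReal.comp hQc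
      rw [← II_const_mul P ζ _ hc2]
      congr 1
      funext z
      have h2 := syn_dd_scale (c := ‖ζ‖) (e := e) (f.F i) z
      rw [← hζe] at h2
      rw [h2, congrFun hQs z]
      have hL2 : (L' : ℂ) ≠ 0 := by
        exact_mod_cast hL'.ne'
      push_cast
      field_simp
    rw [hII, Complex.im_ofReal_mul, abs_mul, abs_of_nonneg (by positivity)]
    calc ‖ζ‖ * L' * |(II P ζ (fun z => (Q z : ℂ))).im|
        ≤ ‖ζ‖ * L' * (C * (EN P ζ + ‖cm P (fun z => (Q z : ℂ)) q‖)) :=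
          mul_le_mul_of_nonneg_left h1 (by positivity)
      _ ≤ ‖ζ‖ * L' * (C * (EN P ζ + CD * P.d / L' ^ 2 * (Sd f i / f.w i))) := by
          gcongr
      _ = _ := by ring

theorem EN_cont (hDu : Stmt_Du.{v}) (P : Pair H) : Continuous (EN P) := by
  obtain ⟨-, -, -, -, -, -, -, -, -, du10, du11, -⟩ := hDu H P
  have hU2 : Continuous fun ζ : ℂ => U P (2 * ζ) := du11.comp (continuous_const.mul continuous_id)
  have h1 : EN P = fun ζ => 3 * (hs (U P ζ) (U P (2 * ζ) - U P ζ)).re +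
      16 * (2 * ‖U P ζ‖ - ‖U P (2 * ζ)‖) := by
    funext ζ
    have h2 : tD P ζ (U P ζ) = U P (2 * ζ) - U P ζ := by
      rw [two_mul, du10]
      abel
    rw [EN, h2]
  rw [h1]
  have h3 : Continuous fun ζ : ℂ => hs (U P ζ) (U P (2 * ζ) - U P ζ) := by
    have h4 : Continuous fun ζ : ℂ => (U P (2 * ζ) - U P ζ).toDual :=
      (S1.toDual (H := H)).continuous.comp (hU2.sub du11)
    have h5 : Continuous fun ζ : ℂ => star (op (U P ζ)) :=
      continuous_star.comp ((op (H := H)).continuous.comp du11)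
    exact h4.clm_apply h5
  exact (continuous_const.mul (Complex.continuous_re.comp h3)).add
    (continuous_const.mul ((continuous_const.mul du11.norm).sub hU2.norm))

theorem EN_le (hEN : Stmt_EN.{v}) (P : Pair H) (ζ : ℂ) : EN P ζ ≤ 32 * ‖ζ‖ * P.d := by
  obtain ⟨h1, -, -, h4⟩ := hEN H P ζ
  obtain ⟨-, -, h5, -⟩ := hEN H P (2 * ζ)
  rw [h1]
  linarith

/-- telescoping of the energies -/
theorem tele_EN (hEN : Stmt_EN.{v}) (P : Pair H) (f : LP) (x : ℂ) (K : ℕ) :
    ∑ i ∈ Ico 1 K, EN P (((Real.sqrt 2 / f.w i : ℝ) : ℂ) * x) / (Real.sqrt 2 / f.w i) ≤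
      32 * ‖x‖ * P.d := by
  have h2 : 0 < Real.sqrt 2 := by positivity
  have hσ : ∀ i, 0 < Real.sqrt 2 / f.w i := fun i => div_pos h2 (f.w_pos i)
  set F : ℕ → ℝ := fun i => 2 * (SS P (((Real.sqrt 2 / f.w i : ℝ) : ℂ) * x) /
    (Real.sqrt 2 / f.w i)) with hF
  have hF0 : ∀ i, 0 ≤ F i := fun i =>
    mul_nonneg (by norm_num) (div_nonneg (hEN H P _).2.2.1 (hσ i).le)
  have hs : ∀ i, Real.sqrt 2 / f.w (i + 1) = 2 * (Real.sqrt 2 / f.w i) := by
    intro i
    have := f.w_pos i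
    rw [f.w_succ]
    field_simp
  have hstep : ∀ i, EN P (((Real.sqrt 2 / f.w i : ℝ) : ℂ) * x) / (Real.sqrt 2 / f.w i) =
      F i - F (i + 1) := by
    intro i
    have h3 := hσ i
    rw [(hEN H P _).1, hF]
    simp only
    rw [hs i]
    have e1 : (((2 * (Real.sqrt 2 / f.w i) : ℝ) : ℂ) * x) =
        2 * (((Real.sqrt 2 / f.w i : ℝ) : ℂ) * x) := by
      push_cast
      ring
    rw [e1]
    set y := Real.sqrt 2 / f.w i
    field_simp
  have hb : F 1 ≤ 32 * ‖x‖ * P.d := by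
    have h3 := (hEN H P (((Real.sqrt 2 / f.w 1 : ℝ) : ℂ) * x)).2.2.2
    rw [norm_mul, Complex.norm_real, Real.norm_of_nonneg (hσ 1).le] at h3
    have h4 : SS P (((Real.sqrt 2 / f.w 1 : ℝ) : ℂ) * x) / (Real.sqrt 2 / f.w 1) ≤
        16 * ‖x‖ * P.d := by
      rw [div_le_iff₀ (hσ 1)]
      linarith
    rw [hF]
    simp only
    linarith
  rcases Nat.lt_or_ge K 1 with hK | hK
  · rw [Ico_eq_empty (by omega), sum_empty]
    exact (hF0 1).trans hb
  · have h5 : ∑ i ∈ Ico 1 K, EN P (((Real.sqrt 2 / f.w i : ℝ) : ℂ) * x) / (Real.sqrt 2 / f.w i) =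
        F 1 - F K := by
      induction K, hK using Nat.le_induction with
      | base => simp
      | succ K hK ih =>
        rw [sum_Ico_succ_top hK, ih, hstep]
        ring
    rw [h5]
    have := hF0 K
    linarith

end

end MAINB

open MAINB

theorem blk_MAINB (hMainI : Stmt_MainI.{v}) (hLMT : Stmt_LMT.{v}) (hEN : Stmt_EN.{v})
    (hDef : Stmt_Def.{v}) (hDu : Stmt_Du.{v}) (hAv : Stmt_Av.{v}) (hFn : Stmt_Fn.{v})
    (hW : Stmt_Wt) (hD : Stmt_Der) : Stmt_MainB.{v} := by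
  obtain ⟨C, hC0, hC⟩ := hLMT
  obtain ⟨CD, hCD0, hCD⟩ := hDef
  set A1 := ∫ x : ℂ, gam 1 x * ‖x‖ with hA1
  set A2 := ∫ x : ℂ, gam 1 x * ‖x‖ ^ 2 with hA2
  have hg0 : ∀ (σ : ℝ) (x : ℂ), 0 ≤ gam σ x := by
    intro σ x
    have := Real.pi_pos
    unfold gam
    positivity
  have hA1' : 0 ≤ A1 := integral_nonneg fun x => mul_nonneg (hg0 1 x) (norm_nonneg x)
  have hA2' : 0 ≤ A2 := integral_nonneg fun x => mul_nonneg (hg0 1 x) (by positivity)
  refine ⟨C / 4 * (32 * A2 + 9 * CD * A1), by positivity, ?_⟩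
  intro H _ _ _ P f hd hreal K
  have h22 : Real.sqrt 2 ^ 2 = 2 := Real.sq_sqrt (by norm_num)
  have h2 : 0 < Real.sqrt 2 := by positivity
  obtain ⟨im2, im1⟩ := gam_mom (((hAv H P).2.2.2.2.2.2.2.1 (Real.sqrt 2) h2).2.1)
  rcases Nat.lt_or_ge K 1 with hK | hK
  · rw [Ico_eq_empty (by omega), sum_empty]
    positivity
  set S2 := ∑ i ∈ range K, f.m i ^ 2 with hS2
  have hS20 : 0 ≤ S2 := sum_nonneg fun i _ => sq_nonneg _
  set L' := Real.sqrt S2 with hL'
  have hL'0 : 0 ≤ L' := Real.sqrt_nonneg _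
  have hL2 : L' ^ 2 = S2 := Real.sq_sqrt hS20
  have hLL : f.L ≤ L' := by
    refine Real.le_sqrt_of_sq_le ?_
    rw [← f.m0, hS2]
    exact single_le_sum (f := fun i => f.m i ^ 2) (fun i _ => sq_nonneg _)
      (mem_range.2 (by omega : 0 < K))
  have hFi : ∀ i, Wt (f.F i) := fun i => hW.2.1 f.a _ f.ha
  -- one term
  have hterm : ∀ i, |(Mn P (1 / f.w i) (f.F i) - Mn P (2 / f.w i) (f.F i)).re| ≤
      f.w i ^ 2 / 8 * ∫ ζ : ℂ, gam (Real.sqrt 2 / f.w i) ζ *
        |(II P ζ (syn (dd ζ (f.F i)))).im| := by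
    intro i
    have hw := f.w_pos i
    have h3 := hMainI H P (f.F i) (hFi i) (1 / f.w i) (by positivity)
    have e1 : (2 * (1 / f.w i)) = 2 / f.w i := by ring
    have e2 : Real.sqrt 2 * (1 / f.w i) = Real.sqrt 2 / f.w i := by ring
    rw [e1, e2] at h3
    rw [h3]
    set Z := ∫ ζ : ℂ, (gam (Real.sqrt 2 / f.w i) ζ : ℂ) * II P ζ (syn (dd ζ (f.F i))) with hZ
    have e3 : -(Complex.I / (8 * ((1 / f.w i : ℝ) : ℂ) ^ 2)) * Z =
        ((f.w i ^ 2 / 8 : ℝ) : ℂ) * (-(Complex.I * Z)) := by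
      have hw2 : (f.w i : ℂ) ≠ 0 := by exact_mod_cast hw.ne'
      push_cast
      field_simp
    rw [e3, Complex.re_ofReal_mul, abs_mul, abs_of_nonneg (by positivity)]
    have e4 : (-(Complex.I * Z)).re = Z.im := by simp
    rw [e4]
    refine mul_le_mul_of_nonneg_left ?_ (by positivity)
    by_cases hint : Integrable (fun ζ : ℂ => (gam (Real.sqrt 2 / f.w i) ζ : ℂ) *
        II P ζ (syn (dd ζ (f.F i))))
    · have h5 : Z.im = ∫ ζ : ℂ, ((gam (Real.sqrt 2 / f.w i) ζ : ℂ) *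
          II P ζ (syn (dd ζ (f.F i)))).im := by
        have := Complex.imCLM.integral_comp_comm hint
        rw [hZ]
        exact this.symm
      rw [h5]
      refine abs_integral_le_integral_abs.trans (le_of_eq ?_)
      refine integral_congr_ae (Filter.Eventually.of_forall fun ζ => ?_)
      simp only
      rw [Complex.im_ofReal_mul, abs_mul, abs_of_nonneg (hg0 _ _)]
    · rw [hZ, integral_undef hint, Complex.zero_im, abs_zero]
      exact integral_nonneg fun ζ => mul_nonneg (hg0 _ _) (abs_nonneg _)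
  rcases hL'0.eq_or_lt with hz | hpos
  · -- everything vanishes
    have hL0 : f.L = 0 := le_antisymm (by rw [hz]; exact hLL) f.L_nonneg
    have hz2 : ∀ (i : ℕ) (ζ : ℂ), (II P ζ (syn (dd ζ (f.F i)))).im = 0 := by
      intro i ζ
      have h3 : syn (dd ζ (f.F i)) = fun _ => 0 := by
        funext z
        have h4 := LP.F_grad hW hD f i ζ z
        rw [hL0, mul_zero] at h4
        exact norm_le_zero_iff.1 h4
      rw [h3, II_zero, Complex.zero_im]
    have h5 : ∀ i ∈ Ico 1 K, |(Mn P (1 / f.w i) (f.F i) - Mn P (2 / f.w i) (f.F i)).re| ≤ 0 := by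
      intro i _
      refine (hterm i).trans (le_of_eq ?_)
      simp [hz2]
    refine (sum_nonpos h5).trans ?_
    positivity
  · set σ : ℕ → ℝ := fun i => Real.sqrt 2 / f.w i with hσ
    have hσ0 : ∀ i, 0 < σ i := fun i => div_pos h2 (f.w_pos i)
    set cc : ℕ → ℝ := fun i => CD * P.d / L' ^ 2 * (Sd f i / f.w i) with hcc
    have hcc0 : ∀ i, 0 ≤ cc i := fun i => by
      have := Sd_nonneg f i
      have := f.w_pos i
      rw [hcc]
      positivity
    have hENc := EN_cont hDu P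
    have hEN0 : ∀ ζ, 0 ≤ EN P ζ := fun ζ => (hEN H P ζ).2.1
    have hgc : ∀ s : ℝ, Continuous fun x : ℂ => gam s x := by
      intro s
      unfold gam
      fun_prop
    -- integrability of the bound after scaling
    have hI : ∀ i, Integrable (fun x : ℂ => gam 1 x * (σ i * ‖x‖ * L' * C *
        (EN P ((σ i : ℂ) * x) + cc i))) := by
      intro i
      have hmaj : Integrable (fun x : ℂ => σ i * L' * C * (32 * σ i * P.d) *
          (gam 1 x * ‖x‖ ^ 2) + σ i * L' * C * cc i * (gam 1 x * ‖x‖)) :=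
        (im2.const_mul _).add (im1.const_mul _)
      have hc : Continuous fun x : ℂ => gam 1 x * (σ i * ‖x‖ * L' * C *
          (EN P ((σ i : ℂ) * x) + cc i)) := by
        have h4 : Continuous fun x : ℂ => EN P ((σ i : ℂ) * x) :=
          hENc.comp (continuous_const.mul continuous_id)
        have h5 := hgc 1
        fun_prop
      refine hmaj.mono' hc.aestronglyMeasurable (Filter.Eventually.of_forall fun x => ?_)
      have h6 : 0 ≤ EN P ((σ i : ℂ) * x) := hEN0 _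
      have h7 : EN P ((σ i : ℂ) * x) ≤ 32 * (σ i * ‖x‖) * P.d := by
        have := EN_le hEN P ((σ i : ℂ) * x)
        rwa [norm_mul, Complex.norm_real, Real.norm_of_nonneg (hσ0 i).le] at this
      have h8 := hσ0 i
      have h9 := hg0 1 x
      have h10 := hcc0 i
      rw [Real.norm_of_nonneg (by positivity)]
      calc gam 1 x * (σ i * ‖x‖ * L' * C * (EN P ((σ i : ℂ) * x) + cc i))
          ≤ gam 1 x * (σ i * ‖x‖ * L' * C * (32 * (σ i * ‖x‖) * P.d + cc i)) := by
            gcongr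
        _ = _ := by ring
    have hbd : ∀ i, |(Mn P (1 / f.w i) (f.F i) - Mn P (2 / f.w i) (f.F i)).re| ≤
        ∫ x : ℂ, L' * C / 4 * (gam 1 x * ‖x‖ * (EN P ((σ i : ℂ) * x) / σ i +
          CD * P.d / L' ^ 2 * Sd f i / Real.sqrt 2)) := by
      intro i
      have hw := f.w_pos i
      have h3 : ∫ ζ : ℂ, gam (σ i) ζ * |(II P ζ (syn (dd ζ (f.F i)))).im| ≤
          ∫ x : ℂ, gam 1 x * (σ i * ‖x‖ * L' * C * (EN P ((σ i : ℂ) * x) + cc i)) := by
        rw [integral_gam_scale (hσ0 i)]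
        refine integral_mono_of_nonneg (Filter.Eventually.of_forall fun x =>
          mul_nonneg (hg0 _ _) (abs_nonneg _)) (hI i) (Filter.Eventually.of_forall fun x => ?_)
        refine mul_le_mul_of_nonneg_left ?_ (hg0 _ _)
        have h4 := one_zeta hDu hFn hW hD hC hC0 hCD P f hreal i hpos hLL ((σ i : ℂ) * x)
        rwa [norm_mul, Complex.norm_real, Real.norm_of_nonneg (hσ0 i).le] at h4
      refine (hterm i).trans ((mul_le_mul_of_nonneg_left h3 (by positivity)).trans (le_of_eq ?_))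
      rw [← integral_const_mul]
      refine integral_congr_ae (Filter.Eventually.of_forall fun x => ?_)
      simp only [hcc, hσ]
      set y := Real.sqrt 2 with hy
      set E := EN P (((y / f.w i : ℝ) : ℂ) * x)
      have hy0 : y ≠ 0 := h2.ne'
      have h4 : f.w i ^ 2 / 8 = 1 / (4 * (y / f.w i) ^ 2) := by
        rw [div_pow, h22]
        field_simp
        norm_num
      rw [h4]
      field_simp
    have hI2 : ∀ i ∈ Ico 1 K, Integrable (fun x : ℂ => L' * C / 4 * (gam 1 x * ‖x‖ *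
        (EN P ((σ i : ℂ) * x) / σ i + CD * P.d / L' ^ 2 * Sd f i / Real.sqrt 2))) := by
      intro i _
      have hw := f.w_pos i
      have h3 := (hI i).const_mul (f.w i ^ 2 / 8)
      refine h3.congr (Filter.Eventually.of_forall fun x => ?_)
      simp only [hcc, hσ]
      set y := Real.sqrt 2 with hy
      set E := EN P (((y / f.w i : ℝ) : ℂ) * x)
      have hy0 : y ≠ 0 := h2.ne'
      have h4 : f.w i ^ 2 / 8 = 1 / (4 * (y / f.w i) ^ 2) := by
        rw [div_pow, h22]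
        field_simp
        norm_num
      rw [h4]
      field_simp
    refine (sum_le_sum fun i _ => hbd i).trans ?_
    rw [← integral_finsetSum _ hI2]
    have hfin : Integrable (fun x : ℂ => L' * C / 4 * (32 * P.d * (gam 1 x * ‖x‖ ^ 2) +
        9 * CD * P.d * (gam 1 x * ‖x‖))) :=
      ((im2.const_mul _).add (im1.const_mul _)).const_mul _
    have hle : ∫ x : ℂ, ∑ i ∈ Ico 1 K, L' * C / 4 * (gam 1 x * ‖x‖ *
        (EN P ((σ i : ℂ) * x) / σ i + CD * P.d / L' ^ 2 * Sd f i / Real.sqrt 2)) ≤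
        ∫ x : ℂ, L' * C / 4 * (32 * P.d * (gam 1 x * ‖x‖ ^ 2) +
          9 * CD * P.d * (gam 1 x * ‖x‖)) := by
      refine integral_mono (integrable_finsetSum _ hI2) hfin fun x => ?_
      simp only
      rw [← mul_sum]
      refine mul_le_mul_of_nonneg_left ?_ (by positivity)
      rw [← mul_sum, sum_add_distrib]
      have h3 := tele_EN hEN P f x K
      have h4 : ∑ i ∈ Ico 1 K, CD * P.d / L' ^ 2 * Sd f i / Real.sqrt 2 ≤ 9 * CD * P.d := by
        rw [← sum_div, ← mul_sum, div_le_iff₀ h2]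
        have h5 : ∑ i ∈ Ico 1 K, Sd f i ≤ 9 * L' ^ 2 := by
          rw [hL2]
          refine le_trans (sum_le_sum_of_subset_of_nonneg (fun i hi => ?_)
            fun i _ _ => Sd_nonneg f i) (sum_Sd f K)
          rw [mem_range]
          exact (mem_Ico.1 hi).2
        have h6 : CD * P.d / L' ^ 2 * ∑ i ∈ Ico 1 K, Sd f i ≤ CD * P.d / L' ^ 2 * (9 * L' ^ 2) :=
          mul_le_mul_of_nonneg_left h5 (by positivity)
        have h7 : CD * P.d / L' ^ 2 * (9 * L' ^ 2) = 9 * CD * P.d := by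
          field_simp
        rw [h7] at h6
        have h8 : 1 ≤ Real.sqrt 2 := by
          rw [show (1 : ℝ) = Real.sqrt 1 from Real.sqrt_one.symm]
          exact Real.sqrt_le_sqrt (by norm_num)
        have h9 : 0 ≤ 9 * CD * P.d := by positivity
        nlinarith
      have h5 : 0 ≤ gam 1 x * ‖x‖ := mul_nonneg (hg0 _ _) (norm_nonneg _)
      calc gam 1 x * ‖x‖ * (∑ i ∈ Ico 1 K, EN P ((σ i : ℂ) * x) / σ i +
            ∑ i ∈ Ico 1 K, CD * P.d / L' ^ 2 * Sd f i / Real.sqrt 2)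
          ≤ gam 1 x * ‖x‖ * (32 * ‖x‖ * P.d + 9 * CD * P.d) :=
            mul_le_mul_of_nonneg_left (add_le_add h3 h4) h5
        _ = _ := by ring
    refine hle.trans (le_of_eq ?_)
    rw [integral_const_mul, integral_add (im2.const_mul _) (im1.const_mul _), integral_const_mul,
      integral_const_mul]
    ring

end Pool.Bes
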