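import Pool.Agent.Work.Bes.Interface
import Pool.Agent.Work.Bes_h36.Common

/-!
Block MAINI: the difference of two main terms is a Gaussian average of `II`.
-/

open MeasureTheory Complex
open scoped ComplexOrder InnerProductSpace ComplexConjugate

set_option autoImplicit false
set_option linter.unusedSectionVars false

universe v

namespace Pool.Bes

open Pool.Bes.h36

section

variable {H : Type v} [NormedAddCommGroup H] [InnerProductSpace ℂ H] [CompleteSpace H]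

theorem maini_ring1 {R : Type*} [Ring R] (E E' F F' : R) (h1 : E * E' = 1)
    (h4 : F' * F = 1) :
    (E * (E * F' - 1) * F') * (F * E' - 1) =
      E * ((E * F' - 1) * E') - (E * E * (F' * F') - 1) + (E * F' - 1) := by
  have h4' : ∀ x, F' * (F * x) = x := fun x => by rw [← mul_assoc, h4, one_mul]
  simp only [mul_sub, sub_mul, mul_one, one_mul, mul_assoc, h1, h4']
  abel

theorem maini_ring2 {R : Type*} [Ring R] (E E' F F' : R) (h2 : E' * E = 1)
    (h3 : F * F' = 1) :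
    (F * E' - 1) * (E * (E * F' - 1) * F') =
      F * ((E * F' - 1) * F') - (E * E * (F' * F') - 1) + (E * F' - 1) := by
  have h2' : ∀ x, E' * (E * x) = x := fun x => by rw [← mul_assoc, h2, one_mul]
  simp only [mul_sub, sub_mul, mul_one, one_mul, mul_assoc, h2', h3]
  abel

/-- the two traces of the windows -/
theorem II_eq (hAlg : Stmt_Alg.{v}) (hEx : Stmt_Ex.{v}) (hDu : Stmt_Du.{v}) (P : Pair H) (ζ : ℂ)
    (Q : ℂ → ℂ) (hQ : Continuous Q) :
    II P ζ Q = 2 * pr (U P ζ) (fn Q P.A + fn Q P.B) - pr (U P (2 * ζ)) (fn Q P.A + fn Q P.B) := by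
  obtain ⟨aL, aR, -, aI, -⟩ := hAlg H
  obtain ⟨A0, Aadd, Astar, -, -, -, Acomm, -⟩ := hEx H P.A P.hA
  obtain ⟨B0, Badd, Bstar, -, -, -, Bcomm, -⟩ := hEx H P.B P.hB
  obtain ⟨-, -, -, -, -, hopU, -, -, -, hUadd, -⟩ := hDu H P
  have inj : ∀ X Y : S1 H, op X = op Y → X = Y := by
    intro X Y h
    have := aI (X - Y) (by rw [map_sub, h, sub_self])
    exact sub_eq_zero.1 this
  set E := ex P.A ζ with hE
  set E' := ex P.A (-ζ) with hE'
  set F := ex P.B ζ with hF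
  set F' := ex P.B (-ζ) with hF'
  have h1 : E * E' = 1 := by rw [hE, hE', ← Aadd, add_neg_cancel, A0]
  have h2 : E' * E = 1 := by rw [hE, hE', ← Aadd, neg_add_cancel, A0]
  have h3 : F * F' = 1 := by rw [hF, hF', ← Badd, add_neg_cancel, B0]
  have h4 : F' * F = 1 := by rw [hF, hF', ← Badd, neg_add_cancel, B0]
  have hu : op (U P ζ) = E * F' - 1 := hopU ζ
  have hsu : star (op (U P ζ)) = F * E' - 1 := by
    rw [hu, star_sub, star_one, star_mul, hE, hF', Astar, Bstar, neg_neg]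
  have hu2 : op (U P (2 * ζ)) = E * E * (F' * F') - 1 := by
    rw [hopU, two_mul, Aadd, neg_add, Badd]
  have hb : op (tD P ζ (U P ζ)) = E * (E * F' - 1) * F' := by
    change op (lm E (rm F' (U P ζ))) = _
    rw [aL, aR, hu, mul_assoc]
  have k1 : rm (star (op (U P ζ))) (tD P ζ (U P ζ)) =
      lm E (rm E' (U P ζ)) - U P (2 * ζ) + U P ζ := by
    apply inj
    rw [aR, hb, map_add, map_sub, aL, aR, hsu, hu2, hu]
    exact maini_ring1 E E' F F' h1 h4
  have k2 : lm (star (op (U P ζ))) (tD P ζ (U P ζ)) =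
      lm F (rm F' (U P ζ)) - U P (2 * ζ) + U P ζ := by
    apply inj
    rw [aL, hb, map_add, map_sub, aL, aR, hsu, hu2, hu]
    exact maini_ring2 E E' F F' h2 h3
  have c1 : E' * (fn Q P.A * E) = fn Q P.A := by
    rw [(Acomm Q ζ hQ).eq, ← mul_assoc, h2, one_mul]
  have c2 : F' * (fn Q P.B * F) = fn Q P.B := by
    rw [(Bcomm Q ζ hQ).eq, ← mul_assoc, h4, one_mul]
  unfold II
  rw [← pr_rm, ← pr_lm (star (op (U P ζ))), k1, k2]
  simp only [pr_add, pr_sub, pr_lm, pr_rm, c1, c2, pr_add_right]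
  ring

theorem fn_dd (hFn : Stmt_Fn.{v}) (hWt : Stmt_Wt) (N : H →L[ℂ] H) (hN : IsStarNormal N) (a : ℂ → ℂ)
    (ha : Wt a) (ζ : ℂ) :
    fn (syn (dd ζ a)) N = (ζ.re : ℂ) • fn (syn (dd 1 a)) N + (ζ.im : ℂ) • fn (syn (dd Complex.I a)) N := by
  obtain ⟨wi, -, -, -, -, wd, -⟩ := hWt
  have hi : ∀ e, Integrable (dd e a) := by
    intro e
    have := (wi _ (wd a e ha)).const_mul Complex.I
    refine this.congr (Filter.Eventually.of_forall fun ξ => ?_)
    simp only [dd]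
    ring
  obtain ⟨-, f1, -, -, -⟩ := hFn H N hN _ (hi ζ)
  obtain ⟨-, f2, -, -, g2⟩ := hFn H N hN _ (hi 1)
  obtain ⟨-, f3, -, -, g3⟩ := hFn H N hN _ (hi Complex.I)
  have g2' : Integrable (fun ξ => (ζ.re : ℂ) • dd 1 a ξ • ex N ξ) := Integrable.smul (ζ.re : ℂ) g2
  have g3' : Integrable (fun ξ => (ζ.im : ℂ) • dd Complex.I a ξ • ex N ξ) := Integrable.smul (ζ.im : ℂ) g3
  rw [f1, f2, f3, ← integral_smul, ← integral_smul, ← integral_add g2' g3']
  congr 1
  funext ξ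
  rw [smul_smul, smul_smul, ← add_smul]
  congr 1
  simp only [dd, ip]
  simp
  ring

theorem Mn_eq (hFn : Stmt_Fn.{v}) (hWt : Stmt_Wt) (hAv : Stmt_Av.{v}) (P : Pair H) (a : ℂ → ℂ)
    (ha : Wt a) (t : ℝ) (ht : 0 < t) :
    Mn P t a = 1 / 2 *
      (pr (G P (Real.sqrt 2 * t) (P.D 1)) (fn (syn (dd 1 a)) P.A + fn (syn (dd 1 a)) P.B) +
      pr (G P (Real.sqrt 2 * t) (P.D Complex.I))
        (fn (syn (dd Complex.I a)) P.A + fn (syn (dd Complex.I a)) P.B)) := by
  obtain ⟨wi, -, -, -, -, wd, -⟩ := hWt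
  have hi : ∀ e, Integrable (dd e a) := by
    intro e
    have := (wi _ (wd a e ha)).const_mul Complex.I
    refine this.congr (Filter.Eventually.of_forall fun ξ => ?_)
    simp only [dd]
    ring
  have hσ : 0 < Real.sqrt 2 * t := by positivity
  set X1 := G P (Real.sqrt 2 * t) (P.D 1)
  set X2 := G P (Real.sqrt 2 * t) (P.D Complex.I)
  have hG : ∀ ξ : ℂ, G P (Real.sqrt 2 * t) (P.D ξ) = (ξ.re : ℂ) • X1 + (ξ.im : ℂ) • X2 := by
    intro ξ
    rw [D_eq P ξ, G_add hAv P hσ, G_smul, G_smul]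
  have hp : ∀ (N : H →L[ℂ] H), IsStarNormal N → ∀ (e : ℂ) (X : S1 H),
      Integrable (fun ξ => dd e a ξ * pr X (ex N ξ)) ∧
      pr X (fn (syn (dd e a)) N) = ∫ ξ, dd e a ξ * pr X (ex N ξ) := by
    intro N hN e X
    obtain ⟨-, f1, -, -, g1⟩ := hFn H N hN _ (hi e)
    have e1 : ∀ ξ, dd e a ξ * pr X (ex N ξ) = X.toDual (dd e a ξ • ex N ξ) := by
      intro ξ
      rw [map_smul, smul_eq_mul]
      rfl
    constructor
    · refine (X.toDual.integrable_comp g1).congr (Filter.Eventually.of_forall fun ξ => ?_)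
      exact (e1 ξ).symm
    · rw [f1]
      simp only [e1]
      rw [ContinuousLinearMap.integral_comp_comm _ g1]
      rfl
  obtain ⟨i1, p1⟩ := hp P.A P.hA 1 X1
  obtain ⟨i2, p2⟩ := hp P.B P.hB 1 X1
  obtain ⟨i3, p3⟩ := hp P.A P.hA Complex.I X2
  obtain ⟨i4, p4⟩ := hp P.B P.hB Complex.I X2
  have i12 : Integrable (fun ξ => dd 1 a ξ * pr X1 (ex P.A ξ) + dd 1 a ξ * pr X1 (ex P.B ξ)) := i1.add i2
  have i34 : Integrable (fun ξ => dd Complex.I a ξ * pr X2 (ex P.A ξ)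
    + dd Complex.I a ξ * pr X2 (ex P.B ξ)) := i3.add i4
  unfold Mn
  rw [pr_add_right, pr_add_right, p1, p2, p3, p4, ← integral_add i1 i2, ← integral_add i3 i4,
    ← integral_add i12 i34]
  congr 2
  funext ξ
  rw [hG ξ]
  simp only [pr_add, pr_smul, dd, ip]
  simp
  ring

end

theorem blk_MAINI (hAlg : Stmt_Alg.{v}) (hEx : Stmt_Ex.{v}) (hAv : Stmt_Av.{v}) (hDu : Stmt_Du.{v})
    (hFn : Stmt_Fn.{v}) (hWt : Stmt_Wt) : Stmt_MainI.{v} := by
  intro H _ _ _ P a ha t ht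
  have hσ : 0 < Real.sqrt 2 * t := by positivity
  set σ := Real.sqrt 2 * t with hσdef
  have hσ2 : σ ^ 2 = 2 * t ^ 2 := by
    rw [hσdef, mul_pow, Real.sq_sqrt (by norm_num)]
  set R1 := fn (syn (dd 1 a)) P.A + fn (syn (dd 1 a)) P.B with hR1
  set R2 := fn (syn (dd Complex.I a)) P.A + fn (syn (dd Complex.I a)) P.B with hR2
  -- the two integrals
  have I1 : ∀ (e : ℂ) (R : H →L[ℂ] H),
      Integrable (fun ζ : ℂ => ((ip e ζ * gam σ ζ : ℝ) : ℂ) * pr (U P ζ) R) ∧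
      ∫ ζ : ℂ, ((ip e ζ * gam σ ζ : ℝ) : ℂ) * pr (U P ζ) R =
        (Complex.I * (σ : ℂ) ^ 2) * pr (G P σ (P.D e)) R := by
    intro e R
    obtain ⟨hi, he⟩ := ibp_U hAv hDu P hσ e
    constructor
    · refine ((prL R).integrable_comp hi).congr (Filter.Eventually.of_forall fun ζ => ?_)
      simp only [map_smul, smul_eq_mul]
      rfl
    · have := congrArg (fun X => pr X R) he
      simp only [pr_smul] at this
      rw [pr_integral hi] at this
      simpa only [pr_smul] using this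
  have I2 : ∀ (e : ℂ) (R : H →L[ℂ] H),
      Integrable (fun ζ : ℂ => ((ip e ζ * gam σ ζ : ℝ) : ℂ) * pr (U P (2 * ζ)) R) ∧
      ∫ ζ : ℂ, ((ip e ζ * gam σ ζ : ℝ) : ℂ) * pr (U P (2 * ζ)) R =
        (2 * Complex.I * (σ : ℂ) ^ 2) * pr (G P (2 * σ) (P.D e)) R := by
    intro e R
    have h2σ : 0 < 2 * σ := by positivity
    obtain ⟨hi, he⟩ := ibp_U hAv hDu P h2σ e
    set F : ℂ → ℂ := fun ζ => ((ip e ζ * gam (2 * σ) ζ : ℝ) : ℂ) * pr (U P ζ) R with hF
    have hFi : Integrable F := by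
      refine ((prL R).integrable_comp hi).congr (Filter.Eventually.of_forall fun ζ => ?_)
      simp only [map_smul, smul_eq_mul, hF]
      rfl
    have hFe : ∫ ζ, F ζ = (Complex.I * ((2 * σ : ℝ) : ℂ) ^ 2) * pr (G P (2 * σ) (P.D e)) R := by
      have := congrArg (fun X => pr X R) he
      simp only [pr_smul] at this
      rw [pr_integral hi] at this
      simpa only [pr_smul, hF] using this
    have hgam : ∀ ζ : ℂ, gam (2 * σ) (2 * ζ) = gam σ ζ / 4 := by
      intro ζ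
      unfold gam
      have : ‖(2 : ℂ) * ζ‖ ^ 2 / (2 * (2 * σ) ^ 2) = ‖ζ‖ ^ 2 / (2 * σ ^ 2) := by
        rw [norm_mul]
        simp only [RCLike.norm_ofNat]
        field_simp
      rw [this]
      have := hσ.ne'
      field_simp
      norm_num
    have hpt : ∀ ζ : ℂ, ((ip e ζ * gam σ ζ : ℝ) : ℂ) * pr (U P (2 * ζ)) R = 2 * F ((2 : ℝ) • ζ) := by
      intro ζ
      simp only [hF, Complex.real_smul]
      have h1 : ip e (((2 : ℝ) : ℂ) * ζ) = 2 * ip e ζ := by
        unfold ip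
        simp
        ring
      have h2 : gam (2 * σ) (((2 : ℝ) : ℂ) * ζ) = gam σ ζ / 4 := by
        have := hgam ζ
        simpa using this
      rw [h1, h2]
      push_cast
      ring
    have hcs := MeasureTheory.Measure.integral_comp_smul (volume : Measure ℂ) F 2
    rw [Complex.finrank_real_complex] at hcs
    constructor
    · have h3 : Integrable (fun ζ : ℂ => F ((2 : ℝ) • ζ)) :=
        hFi.comp_smul (by norm_num)
      refine (h3.const_mul 2).congr (Filter.Eventually.of_forall fun ζ => ?_)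
      exact (hpt ζ).symm
    · simp only [hpt]
      rw [integral_const_mul, hcs, hFe]
      rw [Complex.real_smul]
      have : |((2 : ℝ) ^ 2)⁻¹| = 1 / 4 := by
        rw [abs_of_pos (by norm_num)]
        norm_num
      rw [this]
      push_cast
      ring
  have hII : ∀ ζ : ℂ, (gam σ ζ : ℂ) * II P ζ (syn (dd ζ a)) =
      (2 * (((ip 1 ζ * gam σ ζ : ℝ) : ℂ) * pr (U P ζ) R1) +
        2 * (((ip Complex.I ζ * gam σ ζ : ℝ) : ℂ) * pr (U P ζ) R2)) -
      ((((ip 1 ζ * gam σ ζ : ℝ) : ℂ) * pr (U P (2 * ζ)) R1) +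
        (((ip Complex.I ζ * gam σ ζ : ℝ) : ℂ) * pr (U P (2 * ζ)) R2)) := by
    intro ζ
    have hc : Continuous (syn (dd ζ a)) := by
      obtain ⟨wi, -, -, -, -, wd, -⟩ := hWt
      have hi : Integrable (dd ζ a) := by
        have := (wi _ (wd a ζ ha)).const_mul Complex.I
        refine this.congr (Filter.Eventually.of_forall fun ξ => ?_)
        simp only [dd]
        ring
      exact (hFn H P.A P.hA _ hi).1
    rw [II_eq hAlg hEx hDu P ζ _ hc, fn_dd hFn hWt P.A P.hA a ha ζ, fn_dd hFn hWt P.B P.hB a ha ζ, hR1, hR2]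
    simp only [pr_add_right, pr_smul_right]
    have e1 : ip 1 ζ = ζ.re := by unfold ip; simp
    have e2 : ip Complex.I ζ = ζ.im := by unfold ip; simp
    rw [e1, e2]
    push_cast
    ring
  simp only [hII]
  obtain ⟨j1, k1⟩ := I1 1 R1
  obtain ⟨j2, k2⟩ := I1 Complex.I R2
  obtain ⟨j3, k3⟩ := I2 1 R1
  obtain ⟨j4, k4⟩ := I2 Complex.I R2
  have j12 : Integrable (fun ζ : ℂ => 2 * (((ip 1 ζ * gam σ ζ : ℝ) : ℂ) * pr (U P ζ) R1) +
      2 * (((ip Complex.I ζ * gam σ ζ : ℝ) : ℂ) * pr (U P ζ) R2)) :=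
    (j1.const_mul 2).add (j2.const_mul 2)
  have j34 : Integrable (fun ζ : ℂ => ((ip 1 ζ * gam σ ζ : ℝ) : ℂ) * pr (U P (2 * ζ)) R1 +
      ((ip Complex.I ζ * gam σ ζ : ℝ) : ℂ) * pr (U P (2 * ζ)) R2) := j3.add j4
  rw [integral_sub j12 j34,
    integral_add (j1.const_mul 2) (j2.const_mul 2), integral_add j3 j4, integral_const_mul,
    integral_const_mul, k1, k2, k3, k4, Mn_eq hFn hWt hAv P a ha t ht,
    Mn_eq hFn hWt hAv P a ha (2 * t) (by positivity)]
  have e3 : Real.sqrt 2 * (2 * t) = 2 * σ := by rw [hσdef]; ring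
  rw [e3, ← hσdef, ← hR1, ← hR2]
  have e4 : (σ : ℂ) ^ 2 = 2 * (t : ℂ) ^ 2 := by exact_mod_cast hσ2
  rw [e4]
  have ht0 : (t : ℂ) ≠ 0 := by exact_mod_cast ht.ne'
  field_simp
  rw [Complex.I_sq]
  ring

end Pool.Bes
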