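import Pool.Agent.Work.Bes.Interface

/-!
# Block MNB: the trivial bound of the main term
-/

open MeasureTheory Complex
open scoped ComplexOrder InnerProductSpace ComplexConjugate

set_option autoImplicit false
set_option linter.unusedSectionVars false

universe v

namespace Pool.Bes

namespace MnbBlock

variable {H : Type v} [NormedAddCommGroup H] [InnerProductSpace ℂ H] [CompleteSpace H]

theorem norm_pr_le (X : S1 H) (Y : H →L[ℂ] H) : ‖pr X Y‖ ≤ ‖X‖ * ‖Y‖ :=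
  X.toDual.le_opNorm Y

theorem pr_lin (X Y : S1 H) (c d : ℂ) (Z : H →L[ℂ] H) :
    pr (c • X + d • Y) Z = c * pr X Z + d * pr Y Z := by
  simp only [pr, map_add, map_smul, _root_.add_apply, _root_.smul_apply, smul_eq_mul]

theorem G_lin (hAv : Stmt_Av.{v}) (P : Pair H) (t : ℝ) (ht : 0 < t) (X Y : S1 H) (c d : ℂ) :
    G P t (c • X + d • Y) = c • G P t X + d • G P t Y := by
  obtain ⟨-, av2, av3, -, -, -, -, av8, -⟩ := hAv H P
  have hint : ∀ Z : S1 H, Integrable (fun s : ℂ => (gam t s : ℂ) • tD P s Z) := by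
    intro Z
    have h1 : Integrable (fun s : ℂ => gam t s * ‖Z‖) := (av8 t ht).2.1.mul_const _
    refine h1.mono ?_ ?_
    · have h2 : AEStronglyMeasurable (fun s : ℂ => (gam t s : ℂ)) volume :=
        Complex.continuous_ofReal.comp_aestronglyMeasurable (av8 t ht).2.1.aestronglyMeasurable
      exact h2.smul (av3 Z).aestronglyMeasurable
    · refine Filter.Eventually.of_forall fun s => ?_
      rw [norm_smul, norm_mul, Complex.norm_real, norm_norm, av2]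
  change (∫ s : ℂ, (gam t s : ℂ) • tD P s (c • X + d • Y)) =
    c • (∫ s : ℂ, (gam t s : ℂ) • tD P s X) + d • ∫ s : ℂ, (gam t s : ℂ) • tD P s Y
  have hadd : (∫ s : ℂ, c • ((gam t s : ℂ) • tD P s X)) + (∫ s : ℂ, d • ((gam t s : ℂ) • tD P s Y)) =
      ∫ s : ℂ, (c • ((gam t s : ℂ) • tD P s X) + d • ((gam t s : ℂ) • tD P s Y)) :=
    (integral_add ((hint X).smul c) ((hint Y).smul d)).symm
  rw [← integral_smul, ← integral_smul, hadd]
  refine integral_congr_ae (Filter.Eventually.of_forall fun s => ?_)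
  change (gam t s : ℂ) • tD P s (c • X + d • Y) =
    c • ((gam t s : ℂ) • tD P s X) + d • ((gam t s : ℂ) • tD P s Y)
  rw [map_add, map_smul, map_smul, smul_add, smul_comm _ c, smul_comm _ d]

/-- one term -/
theorem term (hFn : Stmt_Fn.{v}) (N : H →L[ℂ] H) (hN : IsStarNormal N) (b : ℂ → ℂ)
    (hb : Integrable b) (L : ℝ) (hL : ∀ z, ‖syn b z‖ ≤ L) (X : S1 H) :
    Integrable (fun ξ => b ξ * pr X (ex N ξ)) ∧ ‖∫ ξ, b ξ * pr X (ex N ξ)‖ ≤ ‖X‖ * L := by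
  obtain ⟨-, h2, h3, -, h5⟩ := hFn H N hN b hb
  have e : (fun ξ => b ξ * pr X (ex N ξ)) = fun ξ => X.toDual (b ξ • ex N ξ) := by
    funext ξ
    rw [map_smul]
    rfl
  rw [e]
  refine ⟨X.toDual.integrable_comp h5, ?_⟩
  rw [ContinuousLinearMap.integral_comp_comm _ h5, ← h2]
  refine (X.toDual.le_opNorm _).trans ?_
  rw [S1.norm_toDual]
  exact mul_le_mul_of_nonneg_left (h3 L hL) (norm_nonneg _)

end MnbBlock

open MnbBlock

theorem blk_MNB (hFn : Stmt_Fn.{v}) (hAv : Stmt_Av.{v}) (hW : Stmt_Wt) : Stmt_MnB.{v} := by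
  intro H _ _ _ P a ha L hL t ht
  have hr : 0 < Real.sqrt 2 * t := by positivity
  set r : ℝ := Real.sqrt 2 * t with hrdef
  have hG := fun e => (hAv H P).2.2.2.2.2.2.2.2.2.2.2.2 e r hr
  set X1 : S1 H := G P r (P.D 1) with hX1
  set X2 : S1 H := G P r (P.D Complex.I) with hX2
  have n1 : ‖X1‖ ≤ P.d := by
    have := hG 1
    rwa [norm_one, one_mul] at this
  have n2 : ‖X2‖ ≤ P.d := by
    have := hG Complex.I
    rwa [Complex.norm_I, one_mul] at this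
  have hd : 0 ≤ P.d := (norm_nonneg _).trans n1
  have hD : ∀ ξ : ℂ, P.D ξ = (ξ.re : ℂ) • P.D 1 + (ξ.im : ℂ) • P.D Complex.I := by
    intro ξ
    simp [Pair.D]
  have hGD : ∀ ξ : ℂ, G P r (P.D ξ) = (ξ.re : ℂ) • X1 + (ξ.im : ℂ) • X2 := by
    intro ξ
    rw [hD ξ, G_lin hAv P r hr]
  have hWd : ∀ e : ℂ, Integrable (dd e a) := by
    intro e
    have h1 := hW.1 _ (hW.2.2.2.2.1 _ Complex.I (hW.2.2.2.2.2.1 a e ha))
    refine h1.congr (Filter.Eventually.of_forall fun ξ => ?_)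
    change Complex.I * ((ip e ξ : ℂ) * a ξ) = Complex.I * (ip e ξ : ℂ) * a ξ
    ring
  have hL1 : ∀ z, ‖syn (dd 1 a) z‖ ≤ L := by
    intro z
    have := hL 1 z
    rwa [norm_one, one_mul] at this
  have hL2 : ∀ z, ‖syn (dd Complex.I a) z‖ ≤ L := by
    intro z
    have := hL Complex.I z
    rwa [Complex.norm_I, one_mul] at this
  have hL0 : 0 ≤ L := (norm_nonneg _).trans (hL1 0)
  obtain ⟨i1, b1⟩ := term hFn P.A P.hA _ (hWd 1) L hL1 X1
  obtain ⟨i2, b2⟩ := term hFn P.A P.hA _ (hWd Complex.I) L hL2 X2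
  obtain ⟨i3, b3⟩ := term hFn P.B P.hB _ (hWd 1) L hL1 X1
  obtain ⟨i4, b4⟩ := term hFn P.B P.hB _ (hWd Complex.I) L hL2 X2
  have key : Mn P t a = (1 / 2 : ℂ) * ((∫ ξ, dd 1 a ξ * pr X1 (ex P.A ξ)) +
      (∫ ξ, dd Complex.I a ξ * pr X2 (ex P.A ξ)) + ((∫ ξ, dd 1 a ξ * pr X1 (ex P.B ξ)) +
      ∫ ξ, dd Complex.I a ξ * pr X2 (ex P.B ξ))) := by
    have hadd : (∫ ξ, (dd 1 a ξ * pr X1 (ex P.A ξ) + dd Complex.I a ξ * pr X2 (ex P.A ξ))) +
        (∫ ξ, (dd 1 a ξ * pr X1 (ex P.B ξ) + dd Complex.I a ξ * pr X2 (ex P.B ξ))) =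
        ∫ ξ, (dd 1 a ξ * pr X1 (ex P.A ξ) + dd Complex.I a ξ * pr X2 (ex P.A ξ) +
          (dd 1 a ξ * pr X1 (ex P.B ξ) + dd Complex.I a ξ * pr X2 (ex P.B ξ))) :=
      (integral_add (i1.add i2) (i3.add i4)).symm
    rw [← integral_add i1 i2, ← integral_add i3 i4, hadd, Mn]
    congr 1
    refine integral_congr_ae (Filter.Eventually.of_forall fun ξ => ?_)
    change a ξ * Complex.I * (pr (G P r (P.D ξ)) (ex P.A ξ) + pr (G P r (P.D ξ)) (ex P.B ξ)) =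
      dd 1 a ξ * pr X1 (ex P.A ξ) + dd Complex.I a ξ * pr X2 (ex P.A ξ) +
      (dd 1 a ξ * pr X1 (ex P.B ξ) + dd Complex.I a ξ * pr X2 (ex P.B ξ))
    rw [hGD ξ, pr_lin, pr_lin]
    have e1 : dd 1 a ξ = Complex.I * (ξ.re : ℂ) * a ξ := by simp [dd, ip]
    have e2 : dd Complex.I a ξ = Complex.I * (ξ.im : ℂ) * a ξ := by simp [dd, ip]
    rw [e1, e2]
    ring
  rw [key, norm_mul]
  have hh : ‖(1 / 2 : ℂ)‖ = 1 / 2 := by norm_num
  rw [hh]
  have m1 : ‖X1‖ * L ≤ P.d * L := mul_le_mul_of_nonneg_right n1 hL0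
  have m2 : ‖X2‖ * L ≤ P.d * L := mul_le_mul_of_nonneg_right n2 hL0
  have s1 := norm_add_le (∫ ξ, dd 1 a ξ * pr X1 (ex P.A ξ)) (∫ ξ, dd Complex.I a ξ * pr X2 (ex P.A ξ))
  have s2 := norm_add_le (∫ ξ, dd 1 a ξ * pr X1 (ex P.B ξ)) (∫ ξ, dd Complex.I a ξ * pr X2 (ex P.B ξ))
  have s3 := norm_add_le ((∫ ξ, dd 1 a ξ * pr X1 (ex P.A ξ)) +
      (∫ ξ, dd Complex.I a ξ * pr X2 (ex P.A ξ))) ((∫ ξ, dd 1 a ξ * pr X1 (ex P.B ξ)) +
      ∫ ξ, dd Complex.I a ξ * pr X2 (ex P.B ξ))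
  linarith

end Pool.Bes
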