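import Pool.Agent.Work.Bes.Interface

/-!
# Block MT: two aligned windows
-/

open MeasureTheory Complex
open scoped ComplexOrder InnerProductSpace ComplexConjugate

set_option autoImplicit false
set_option linter.unusedSectionVars false

universe v

namespace Pool.Bes

namespace MTaux

variable {H : Type v} [NormedAddCommGroup H] [InnerProductSpace ℂ H] [CompleteSpace H]

theorem pr_add (X Y : S1 H) (S : H →L[ℂ] H) : pr (X + Y) S = pr X S + pr Y S := by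
  unfold pr; simp

theorem pr_addO (X : S1 H) (S T : H →L[ℂ] H) : pr X (S + T) = pr X S + pr X T := by
  unfold pr; simp

theorem pr_subO (X : S1 H) (S T : H →L[ℂ] H) : pr X (S - T) = pr X S - pr X T := by
  unfold pr; simp

theorem sn_nonneg (ω : S1 H) (Y : H →L[ℂ] H) : 0 ≤ sn ω Y := Real.sqrt_nonneg _

/-- cyclicity -/
theorem cyc (hA : Stmt_Alg.{v}) (X Y : S1 H) (S T : H →L[ℂ] H) :
    pr X (S * op Y * T) = pr Y (T * op X * S) := by
  obtain ⟨a1, a2, a3, -⟩ := hA H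
  have h1 : S * op Y * T = op (rm T (lm S Y)) := by rw [a2, a1]
  rw [h1, a3, pr_rm, pr_lm]

/-- `|pr ω (Y^* K Z)| ≤ ‖K‖ sn Y sn Z` -/
theorem cs_mid (hP : Stmt_Pos.{v}) (ω : S1 H) (hω : Pos ω) (Y K Z : H →L[ℂ] H) :
    ‖pr ω (star Y * K * Z)‖ ≤ ‖K‖ * (sn ω Y * sn ω Z) := by
  obtain ⟨-, -, -, p4, -, p6, -⟩ := hP H ω hω
  rw [mul_assoc]
  refine (p4 Y (K * Z)).trans ?_
  have h1 := p6 K Z
  have h2 := mul_le_mul_of_nonneg_left h1 (sn_nonneg ω Y)
  nlinarith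

end MTaux

open MTaux

theorem blk_MT : Stmt_Alg.{v} → Stmt_Pol.{v} → Stmt_Pos.{v} → Stmt_AL.{v} → Stmt_MT.{v} := by
  intro hA hPol hP hAL H _ _ _ a b m ha hb
  obtain ⟨Wa, ωa, hWa⟩ := hPol H a
  obtain ⟨Wb, ωb, hWb⟩ := hPol H b
  obtain ⟨Z, ωc, hZ⟩ := hPol H (a + b)
  obtain ⟨al1, al2, al3, al4, al5, al6, al7, al8⟩ := hAL H a Wa ωa hWa
  obtain ⟨bl1, bl2, bl3, bl4, bl5, bl6, bl7, bl8⟩ := hAL H b Wb ωb hWb
  obtain ⟨cl1, cl2, -⟩ := hAL H (a + b) Z ωc hZ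
  have hZ1 : ‖Z‖ ≤ 1 := hZ.1
  have hWa1 : ‖Wa‖ ≤ 1 := hWa.1
  have hWb1 : ‖Wb‖ ≤ 1 := hWb.1
  have hposa : Pos ωa := hWa.2.1
  have hposb : Pos ωb := hWb.2.1
  obtain ⟨pa1, pa2, pa3, pa4, pa5, pa6, pa7, -, pa9⟩ := hP H ωa hposa
  obtain ⟨pb1, pb2, pb3, pb4, pb5, pb6, pb7, -, pb9⟩ := hP H ωb hposb
  have hm : 0 ≤ m := (norm_nonneg _).trans ha
  -- defects
  set da : ℝ := ‖a‖ - (pr a (star Z)).re with hda
  set db : ℝ := ‖b‖ - (pr b (star Z)).re with hdb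
  have hsum : da + db = ‖a‖ + ‖b‖ - ‖a + b‖ := by
    have h1 : (pr a (star Z)).re + (pr b (star Z)).re = ‖a + b‖ := by
      rw [← Complex.add_re, ← pr_add, cl2, Complex.ofReal_re]
    linarith
  have hB8 := (bl8 Z hZ1).1
  -- self-adjointness of the operators of the positive parts
  have hsaa : star (op ωa) = op ωa := (IsSelfAdjoint.of_nonneg pa2).star_eq
  have hsab : star (op ωb) = op ωb := (IsSelfAdjoint.of_nonneg pb2).star_eq
  have hPb : ‖op ωb‖ ≤ m := by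
    rw [bl6]
    refine (norm_mul_le _ _).trans ?_
    rw [norm_star]
    calc ‖Wb‖ * ‖op b‖ ≤ 1 * m := mul_le_mul hWb1 hb (norm_nonneg _) (by norm_num)
      _ = m := one_mul m
  -- square root of P_b
  set R : H →L[ℂ] H := CFC.sqrt (op ωb) with hR
  have hRR : R * R = op ωb := CFC.sqrt_mul_sqrt_self (op ωb) pb2
  have hRsa : star R = R := (IsSelfAdjoint.of_nonneg (CFC.sqrt_nonneg (op ωb))).star_eq
  -- the number n
  set n : ℝ := sn ωa R with hn
  have hn0 : 0 ≤ n := sn_nonneg _ _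
  have hn2 : ((n ^ 2 : ℝ) : ℂ) = pr ωa (op ωb) := by
    have h1 : 0 ≤ pr ωa (op ωb) := pa1 _ pb2
    have h2 : n ^ 2 = (pr ωa (op ωb)).re := by
      rw [hn, pa9 R, hRsa, hRR]
    rw [h2]
    apply Complex.ext
    · simp
    · simp only [Complex.ofReal_im]
      exact (Complex.le_def.1 h1).2
  -- hs a b
  have hhs : hs a b = pr ωa (star Wa * Wb * op ωb) := by
    have h1 : hs a b = pr ωb (star (op a) * Wb) := by
      unfold hs
      conv_lhs => rw [hWb.2.2.1]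
      rw [pr_lm]
    rw [h1, al7, star_mul, hsaa]
    have h2 := cyc hA ωa ωb (star Wa * Wb) 1
    rw [mul_one, one_mul] at h2
    rw [h2, mul_assoc]
  set M : H →L[ℂ] H := star Wa * Wb - 1 with hM
  have hdiff : hs a b - ((n ^ 2 : ℝ) : ℂ) = pr ωa (M * op ωb) := by
    rw [hhs, hn2, ← pr_subO, hM, sub_mul, one_mul]
  -- the two pieces
  set Y1 : H →L[ℂ] H := R * (star (Wb - Z) * Wa) with hY1
  set Y2 : H →L[ℂ] H := R * (star Z * Wa - 1) with hY2
  have hstarM : R * star M = Y1 + Y2 := by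
    rw [hM, hY1, hY2, star_sub, star_mul, star_star, star_one, star_sub]
    noncomm_ring
  have hk1 : sn ωa Y1 ^ 2 ≤ 2 * m * db := by
    rw [pa9]
    have h1 : star Y1 * Y1 = (star Wa * (Wb - Z)) * op ωb * (star (Wb - Z) * Wa) := by
      rw [hY1, star_mul, hRsa, star_mul, star_star, ← hRR]
      noncomm_ring
    rw [h1, cyc hA]
    have h2 : star (Wb - Z) * Wa * op ωa * (star Wa * (Wb - Z)) =
        star (Wb - Z) * (op a * star Wa) * (Wb - Z) := by
      rw [al7]; noncomm_ring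
    rw [h2]
    have h3 := cs_mid hP ωb hposb (Wb - Z) (op a * star Wa) (Wb - Z)
    have h4 : ‖op a * star Wa‖ ≤ m := by
      refine (norm_mul_le _ _).trans ?_
      rw [norm_star]
      calc ‖op a‖ * ‖Wa‖ ≤ m * 1 := mul_le_mul ha hWa1 (norm_nonneg _) hm
        _ = m := mul_one m
    have h5 : sn ωb (Wb - Z) * sn ωb (Wb - Z) ≤ 2 * db := by
      have h6 : sn ωb (Wb - Z) = sn ωb (Z - Wb) := by
        unfold sn
        have : star (Wb - Z) * (Wb - Z) = star (Z - Wb) * (Z - Wb) := by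
          rw [star_sub, star_sub]; noncomm_ring
        rw [this]
      rw [h6, ← pow_two]
      exact hB8
    have h7 : (pr ωb (star (Wb - Z) * (op a * star Wa) * (Wb - Z))).re ≤
        ‖pr ωb (star (Wb - Z) * (op a * star Wa) * (Wb - Z))‖ := Complex.re_le_norm _
    have h8 : 0 ≤ sn ωb (Wb - Z) * sn ωb (Wb - Z) := mul_self_nonneg _
    nlinarith [mul_le_mul h4 h5 h8 hm]
  have hk2 : sn ωa Y2 ^ 2 ≤ 2 * m * da := by
    rw [pa9]
    have h1 : star Y2 * Y2 = star (star Z * Wa - 1) * op ωb * (star Z * Wa - 1) := by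
      rw [hY2, star_mul, hRsa, ← hRR]
      noncomm_ring
    rw [h1]
    have h3 := cs_mid hP ωa hposa (star Z * Wa - 1) (op ωb) (star Z * Wa - 1)
    have h5 : sn ωa (star Z * Wa - 1) * sn ωa (star Z * Wa - 1) ≤ 2 * da := by
      rw [← pow_two, pa9]
      have h6 : star (star Z * Wa - 1) * (star Z * Wa - 1) =
          star (star Z * Wa) * (star Z * Wa) - (star (star Z * Wa) + star Z * Wa) + 1 := by
        rw [star_sub, star_one]; noncomm_ring
      have h7 : pr ωa (star Z * Wa) = pr a (star Z) := by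
        conv_rhs => rw [hWa.2.2.1]
        rw [pr_lm]
      have h8 : (pr ωa (star (star Z * Wa))).re = (pr ωa (star Z * Wa)).re := by
        obtain ⟨-, -, -, -, -, -, -, -, a9⟩ := hA H
        rw [a9 ωa hsaa, Complex.conj_re]
      have h9 : (pr ωa (star (star Z * Wa) * (star Z * Wa))).re ≤ ‖a‖ := by
        rw [← pa9]
        have h10 := pa7 (star Z * Wa)
        have h11 : ‖star Z * Wa‖ ≤ 1 := by
          refine (norm_mul_le _ _).trans ?_
          rw [norm_star]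
          calc ‖Z‖ * ‖Wa‖ ≤ 1 * 1 := mul_le_mul hZ1 hWa1 (norm_nonneg _) (by norm_num)
            _ = 1 := one_mul 1
        have h12 : sn ωa (star Z * Wa) ≤ Real.sqrt ‖ωa‖ :=
          h10.trans (mul_le_of_le_one_left (Real.sqrt_nonneg _) h11)
        calc sn ωa (star Z * Wa) ^ 2 ≤ Real.sqrt ‖ωa‖ ^ 2 :=
              pow_le_pow_left₀ (sn_nonneg _ _) h12 2
          _ = ‖ωa‖ := Real.sq_sqrt (norm_nonneg _)
          _ = ‖a‖ := al1
      rw [h6, pr_addO, pr_subO, pr_addO, Complex.add_re, Complex.sub_re, Complex.add_re, h8, h7,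
        pa3, Complex.ofReal_re, al1]
      linarith
    have h7 := Complex.re_le_norm (pr ωa (star (star Z * Wa - 1) * op ωb * (star Z * Wa - 1)))
    have h8 : 0 ≤ sn ωa (star Z * Wa - 1) * sn ωa (star Z * Wa - 1) := mul_self_nonneg _
    nlinarith [mul_le_mul hPb h5 h8 hm]
  have hκ : ‖pr ωa (M * op ωb)‖ ≤ (sn ωa Y1 + sn ωa Y2) * n := by
    have h1 : M * op ωb = star (R * star M) * R := by
      rw [star_mul, star_star, hRsa, ← hRR, mul_assoc]
    rw [h1]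
    refine (pa4 _ _).trans ?_
    rw [hstarM]
    exact mul_le_mul_of_nonneg_right (pa5 Y1 Y2) hn0
  -- the final computation
  set κ : ℝ := sn ωa Y1 + sn ωa Y2 with hκd
  have hκ2 : κ ^ 2 ≤ 4 * m * (da + db) := by
    have : κ ^ 2 ≤ 2 * (sn ωa Y1 ^ 2 + sn ωa Y2 ^ 2) := by
      nlinarith [sq_nonneg (sn ωa Y1 - sn ωa Y2)]
    nlinarith
  have hκ0 : 0 ≤ κ := add_nonneg (sn_nonneg _ _) (sn_nonneg _ _)
  have hre : ((hs a b).re - n ^ 2) ^ 2 + (hs a b).im ^ 2 ≤ (κ * n) ^ 2 := by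
    have h1 : ‖hs a b - ((n ^ 2 : ℝ) : ℂ)‖ ≤ κ * n := by rw [hdiff]; exact hκ
    have h2 : ‖hs a b - ((n ^ 2 : ℝ) : ℂ)‖ ^ 2 = ((hs a b).re - n ^ 2) ^ 2 + (hs a b).im ^ 2 := by
      rw [← Complex.normSq_eq_norm_sq, Complex.normSq_apply]
      simp only [Complex.sub_re, Complex.sub_im, Complex.ofReal_re, Complex.ofReal_im]
      ring
    rw [← h2]
    exact pow_le_pow_left₀ (norm_nonneg _) h1 2
  rw [← hsum]
  set x : ℝ := (hs a b).re - n ^ 2 with hx
  have hxy : (-x + |(hs a b).im|) ^ 2 ≤ 2 * (κ * n) ^ 2 := by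
    have h1 : |(hs a b).im| ^ 2 = (hs a b).im ^ 2 := sq_abs _
    nlinarith [sq_nonneg (x + |(hs a b).im|)]
  have h2 : -x + |(hs a b).im| ≤ n ^ 2 + κ ^ 2 / 2 := by
    have h3 : 2 * (κ * n) ^ 2 ≤ (n ^ 2 + κ ^ 2 / 2) ^ 2 := by
      nlinarith [sq_nonneg (n ^ 2 - κ ^ 2 / 2)]
    have h4 : (-x + |(hs a b).im|) ^ 2 ≤ (n ^ 2 + κ ^ 2 / 2) ^ 2 := hxy.trans h3
    exact le_of_sq_le_sq' h4 (by positivity)
  have h5 : κ ^ 2 / 2 ≤ 2 * m * (da + db) := by linarith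
  have h6 : (hs a b).re = x + n ^ 2 := by rw [hx]; ring
  rw [h6]
  linarith
where
  le_of_sq_le_sq' {x y : ℝ} (h : x ^ 2 ≤ y ^ 2) (hy : 0 ≤ y) : x ≤ y :=
    (le_abs_self x).trans (by rw [← abs_of_nonneg hy]; exact sq_le_sq.1 h)

end Pool.Bes
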