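import Pool.Agent.Work.Bes.Interface

/-! # Block NEARB: the bound of the near part -/

open MeasureTheory Complex
open scoped ComplexOrder InnerProductSpace ComplexConjugate

set_option autoImplicit false
set_option linter.unusedSectionVars false

universe v

namespace Pool.Bes

namespace Nearb

/-- the weight -/
noncomputable def w (c : ℝ) : ℂ := ((1 / 2 - c : ℝ) : ℂ)

theorem w_cont : Continuous w := by
  unfold w
  fun_prop

theorem norm_w (c : ℝ) (hc : c ≤ 1 / 2) : ‖w c‖ = 1 / 2 - c := by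
  rw [w, Complex.norm_real, Real.norm_of_nonneg (by linarith)]

theorem prod_int (k : ℂ → ℝ → ℂ) (hk : Continuous (fun p : ℂ × ℝ => k p.1 p.2)) (C : ℝ)
    (hC : ∀ ξ c, ‖k ξ c‖ ≤ C) (g : ℂ → ℂ) (hg : Integrable g) :
    Integrable (fun p : ℂ × ℝ => g p.1 * (w p.2 * k p.1 p.2))
      (volume.prod (volume.restrict (Set.Ioc (0 : ℝ) (1 / 2)))) := by
  have hw : Integrable w (volume.restrict (Set.Ioc (0 : ℝ) (1 / 2))) :=
    (w_cont.integrableOn_Icc (a := 0) (b := 1 / 2)).mono_set Set.Ioc_subset_Icc_self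
  have h1 : Integrable (fun p : ℂ × ℝ => g p.1 * w p.2)
      (volume.prod (volume.restrict (Set.Ioc (0 : ℝ) (1 / 2)))) := hg.mul_prod hw
  have h2 := h1.mul_bdd (c := C) hk.aestronglyMeasurable
    (Filter.Eventually.of_forall fun p => hC p.1 p.2)
  refine h2.congr (Filter.Eventually.of_forall fun p => ?_)
  simp only [mul_assoc]

theorem swapA (k : ℂ → ℝ → ℂ) (hk : Continuous (fun p : ℂ × ℝ => k p.1 p.2)) (C : ℝ)
    (hC : ∀ ξ c, ‖k ξ c‖ ≤ C) (g : ℂ → ℂ) (hg : Integrable g) :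
    Integrable (fun ξ => g ξ * ∫ c in (0 : ℝ)..(1 / 2), w c * k ξ c) := by
  have h := (prod_int k hk C hC g hg).integral_prod_left
  refine h.congr (Filter.Eventually.of_forall fun ξ => ?_)
  simp only
  rw [← intervalIntegral.integral_const_mul, intervalIntegral.integral_of_le (by norm_num)]

theorem swapB (k : ℂ → ℝ → ℂ) (hk : Continuous (fun p : ℂ × ℝ => k p.1 p.2)) (C : ℝ)
    (hC : ∀ ξ c, ‖k ξ c‖ ≤ C) (g : ℂ → ℂ) (hg : Integrable g) :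
    ∫ ξ, g ξ * ∫ c in (0 : ℝ)..(1 / 2), w c * k ξ c =
      ∫ c in (0 : ℝ)..(1 / 2), w c * ∫ ξ, g ξ * k ξ c := by
  have h1 : ∀ ξ, g ξ * ∫ c in (0 : ℝ)..(1 / 2), w c * k ξ c =
      ∫ c in Set.Ioc (0 : ℝ) (1 / 2), g ξ * (w c * k ξ c) := by
    intro ξ
    rw [← intervalIntegral.integral_const_mul, intervalIntegral.integral_of_le (by norm_num)]
  simp_rw [h1]
  rw [intervalIntegral.integral_of_le (by norm_num),
    integral_integral_swap (f := fun ξ c => g ξ * (w c * k ξ c)) (prod_int k hk C hC g hg)]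
  congr 1
  funext c
  rw [← integral_const_mul]
  congr 1
  funext ξ
  ring

theorem int_w : ∫ c in (0 : ℝ)..(1 / 2), (1 / 2 - c) * (1 + 8 * c ^ 2) = 1 / 6 := by
  have h : ∀ c ∈ Set.uIcc (0 : ℝ) (1 / 2),
      HasDerivAt (fun c : ℝ => c / 2 + 4 * c ^ 3 / 3 - c ^ 2 / 2 - 2 * c ^ 4)
        ((1 / 2 - c) * (1 + 8 * c ^ 2)) c := by
    intro c _
    have h1 := (((hasDerivAt_id c).div_const 2).add
      (((hasDerivAt_pow 3 c).const_mul 4).div_const 3)).sub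
      ((hasDerivAt_pow 2 c).div_const 2) |>.sub ((hasDerivAt_pow 4 c).const_mul 2)
    refine h1.congr_deriv ?_
    norm_num
    ring
  rw [intervalIntegral.integral_eq_sub_of_hasDerivAt h
    (Continuous.intervalIntegrable (by fun_prop) _ _)]
  norm_num

theorem bound (F : ℝ → ℂ) (M : ℝ) (hF : ∀ c, 0 ≤ c → c ≤ 1 / 2 → ‖F c‖ ≤ (1 + 8 * c ^ 2) * M) :
    ‖∫ c in (0 : ℝ)..(1 / 2), w c * F c‖ ≤ M / 6 := by
  have h : M / 6 = ∫ c in (0 : ℝ)..(1 / 2), (1 / 2 - c) * (1 + 8 * c ^ 2) * M := by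
    rw [intervalIntegral.integral_mul_const, int_w]
    ring
  rw [h]
  refine intervalIntegral.norm_integral_le_of_norm_le (by norm_num)
    (Filter.Eventually.of_forall fun c hc => ?_) (Continuous.intervalIntegrable (by fun_prop) _ _)
  rw [norm_mul, norm_w c hc.2, mul_assoc]
  exact mul_le_mul_of_nonneg_left (hF c hc.1.le hc.2) (by linarith [hc.2])

variable {H : Type v} [NormedAddCommGroup H] [InnerProductSpace ℂ H] [CompleteSpace H]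

theorem norm_pr_le (X : S1 H) (Y : H →L[ℂ] H) : ‖pr X Y‖ ≤ ‖X‖ * ‖Y‖ :=
  (X.toDual).le_opNorm Y

theorem psi_cont (hAv : Stmt_Av.{v}) (hEx : Stmt_Ex.{v}) (P : Pair H) (t : ℝ) (e : ℂ) :
    Continuous (fun p : ℂ × ℝ => psi P t e p.1 p.2) := by
  obtain ⟨-, -, hc, -⟩ := hAv H P
  obtain ⟨-, -, -, -, hx, -⟩ := hEx H P.B P.hB
  have h1 : Continuous fun p : ℂ × ℝ => tD P (p.2 * p.1) (G P (Real.sqrt 2 * t) (P.D e)) :=
    (hc (G P (Real.sqrt 2 * t) (P.D e))).comp (by fun_prop)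
  have h2 : Continuous fun p : ℂ × ℝ => ex P.B p.1 * op (P.D e) :=
    (hx.comp continuous_fst).mul continuous_const
  exact ((S1.toDual (H := H)).continuous.comp h1).clm_apply h2

theorem psi_bd (hAv : Stmt_Av.{v}) (hEx : Stmt_Ex.{v}) (P : Pair H) (t : ℝ) (e ξ : ℂ) (c : ℝ) :
    ‖psi P t e ξ c‖ ≤ ‖G P (Real.sqrt 2 * t) (P.D e)‖ * ‖op (P.D e)‖ := by
  obtain ⟨-, hn, -⟩ := hAv H P
  obtain ⟨-, -, -, hx, -⟩ := hEx H P.B P.hB
  refine (norm_pr_le _ _).trans ?_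
  rw [hn]
  refine mul_le_mul_of_nonneg_left ?_ (norm_nonneg _)
  refine (norm_mul_le _ _).trans ?_
  calc ‖ex P.B ξ‖ * ‖op (P.D e)‖ ≤ 1 * ‖op (P.D e)‖ :=
        mul_le_mul_of_nonneg_right (hx ξ) (norm_nonneg _)
    _ = _ := one_mul _

/-- the difference -/
noncomputable def kk (P : Pair H) (t : ℝ) (e ξ : ℂ) (c : ℝ) : ℂ :=
  psi P t e ξ (1 - c) - psi P t e ξ c

theorem kk_cont (hAv : Stmt_Av.{v}) (hEx : Stmt_Ex.{v}) (P : Pair H) (t : ℝ) (e : ℂ) :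
    Continuous (fun p : ℂ × ℝ => kk P t e p.1 p.2) := by
  have h := psi_cont hAv hEx P t e
  have h1 : Continuous (fun p : ℂ × ℝ => psi P t e p.1 (1 - p.2)) :=
    h.comp (g := fun p : ℂ × ℝ => psi P t e p.1 p.2)
      (f := fun p : ℂ × ℝ => (p.1, 1 - p.2)) (by fun_prop)
  exact h1.sub h

theorem kk_bd (hAv : Stmt_Av.{v}) (hEx : Stmt_Ex.{v}) (P : Pair H) (t : ℝ) (e ξ : ℂ) (c : ℝ) :
    ‖kk P t e ξ c‖ ≤ 2 * (‖G P (Real.sqrt 2 * t) (P.D e)‖ * ‖op (P.D e)‖) := by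
  refine (norm_sub_le _ _).trans ?_
  have h1 := psi_bd hAv hEx P t e ξ (1 - c)
  have h2 := psi_bd hAv hEx P t e ξ c
  linarith

theorem kk_ii (hAv : Stmt_Av.{v}) (hEx : Stmt_Ex.{v}) (P : Pair H) (t : ℝ) (e ξ : ℂ) :
    IntervalIntegrable (fun c => w c * kk P t e ξ c) volume 0 (1 / 2) := by
  refine Continuous.intervalIntegrable ?_ _ _
  refine w_cont.mul ?_
  exact (kk_cont hAv hEx P t e).comp (g := fun p : ℂ × ℝ => kk P t e p.1 p.2)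
    (f := fun c : ℝ => (ξ, c)) (by fun_prop)

theorem split (hAv : Stmt_Av.{v}) (hEx : Stmt_Ex.{v}) (P : Pair H) (t : ℝ) (ξ : ℂ) :
    ∫ c in (0 : ℝ)..(1 / 2), w c * (Psi P t ξ (1 - c) - Psi P t ξ c) =
      (ξ.re : ℂ) ^ 2 * (∫ c in (0 : ℝ)..(1 / 2), w c * kk P t 1 ξ c) +
      (ξ.im : ℂ) ^ 2 * (∫ c in (0 : ℝ)..(1 / 2), w c * kk P t Complex.I ξ c) +
      ((ξ.re : ℂ) * (ξ.im : ℂ) * (∫ c in (0 : ℝ)..(1 / 2), w c * kk P t ep ξ c) -
      (ξ.re : ℂ) * (ξ.im : ℂ) * (∫ c in (0 : ℝ)..(1 / 2), w c * kk P t em ξ c)) := by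
  have i1 := (kk_ii hAv hEx P t 1 ξ).const_mul ((ξ.re : ℂ) ^ 2)
  have i2 := (kk_ii hAv hEx P t Complex.I ξ).const_mul ((ξ.im : ℂ) ^ 2)
  have i3 := (kk_ii hAv hEx P t ep ξ).const_mul ((ξ.re : ℂ) * (ξ.im : ℂ))
  have i4 := (kk_ii hAv hEx P t em ξ).const_mul ((ξ.re : ℂ) * (ξ.im : ℂ))
  rw [← intervalIntegral.integral_const_mul, ← intervalIntegral.integral_const_mul,
    ← intervalIntegral.integral_const_mul, ← intervalIntegral.integral_const_mul,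
    ← intervalIntegral.integral_sub i3 i4, ← intervalIntegral.integral_add i1 i2,
    ← intervalIntegral.integral_add (i1.add i2) (i3.sub i4)]
  congr 1
  funext c
  unfold Psi kk
  ring

theorem norm_ep : ‖ep‖ = 1 := by
  have h2 : (0 : ℝ) < Real.sqrt 2 := Real.sqrt_pos.2 (by norm_num)
  have h1 : ‖(1 + Complex.I : ℂ)‖ = Real.sqrt 2 := by
    rw [Complex.norm_def, Complex.normSq_apply]
    norm_num
  rw [ep, norm_div, h1, Complex.norm_real, Real.norm_of_nonneg h2.le, div_self h2.ne']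

theorem norm_em : ‖em‖ = 1 := by
  have h2 : (0 : ℝ) < Real.sqrt 2 := Real.sqrt_pos.2 (by norm_num)
  have h1 : ‖(1 - Complex.I : ℂ)‖ = Real.sqrt 2 := by
    rw [Complex.norm_def, Complex.normSq_apply]
    norm_num
  rw [em, norm_div, h1, Complex.norm_real, Real.norm_of_nonneg h2.le, div_self h2.ne']

theorem gm_mul (ρ : ℝ) (a q : ℂ → ℂ) (ξ : ℂ) :
    gm ρ (fun ξ => q ξ * a ξ) ξ = q ξ * gm ρ a ξ := by
  unfold gm
  ring

theorem four (f1 f2 f3 f4 : ℂ → ℂ) (N1 N2 N3 N4 : ℝ) (j1 : Integrable f1) (j2 : Integrable f2)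
    (j3 : Integrable f3) (j4 : Integrable f4) (n1 : ‖∫ ξ, f1 ξ‖ ≤ N1) (n2 : ‖∫ ξ, f2 ξ‖ ≤ N2)
    (n3 : ‖∫ ξ, f3 ξ‖ ≤ N3) (n4 : ‖∫ ξ, f4 ξ‖ ≤ N4) :
    ‖∫ ξ, (f1 ξ + f2 ξ + (f3 ξ - f4 ξ))‖ ≤ N1 + N2 + (N3 + N4) := by
  have k1 : Integrable fun ξ => f1 ξ + f2 ξ := j1.add j2
  have k2 : Integrable fun ξ => f3 ξ - f4 ξ := j3.sub j4
  rw [integral_add k1 k2, integral_add j1 j2, integral_sub j3 j4]
  exact norm_add_le_of_le (norm_add_le_of_le n1 n2) (norm_sub_le_of_le n3 n4)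

/-- one direction -/
theorem dir (hNG : Stmt_NearG.{v}) (hAv : Stmt_Av.{v}) (hEx : Stmt_Ex.{v}) (hWt : Stmt_Wt)
    (P : Pair H) (hd : 0 ≤ P.d) (b : ℂ → ℂ) (hb : Wt b) (U t : ℝ) (ht : 0 < t)
    (hV : ∀ z, ‖syn b z‖ ≤ 12 * t ^ 2 * U) (e : ℂ) (he : ‖e‖ = 1) :
    Integrable (fun ξ => gm (1 / (2 * Real.sqrt 2 * t)) b ξ *
      ∫ c in (0 : ℝ)..(1 / 2), w c * kk P t e ξ c) ∧
    ‖∫ ξ, gm (1 / (2 * Real.sqrt 2 * t)) b ξ * ∫ c in (0 : ℝ)..(1 / 2), w c * kk P t e ξ c‖ ≤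
      124 * U * t * Real.sqrt P.d * Real.sqrt (vv P e (t / Real.sqrt 2) - vv P e (12 * t)) := by
  have hg : Integrable (gm (1 / (2 * Real.sqrt 2 * t)) b) := hWt.1 _ (hWt.2.1 b _ hb)
  have hC := kk_cont hAv hEx P t e
  have hB := kk_bd hAv hEx P t e
  refine ⟨swapA _ hC _ hB _ hg, ?_⟩
  rw [swapB _ hC _ hB _ hg]
  refine (bound _ (62 * (12 * t ^ 2 * U) / t *
    Real.sqrt (P.d * (vv P e (t / Real.sqrt 2) - vv P e (12 * t)))) fun c hc0 hc1 => ?_).trans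
    (le_of_eq ?_)
  · refine (hNG H P b hb (12 * t ^ 2 * U) hV t e c ht he hc0 hc1).trans (le_of_eq ?_)
    ring
  · rw [Real.sqrt_mul hd]
    field_simp
    ring

end Nearb

open Nearb in
/-- BLOCK NEARB -/
theorem blk_NEARB : Stmt_NearI.{v} → Stmt_NearG.{v} → Stmt_Wt → Stmt_Der → Stmt_Av.{v} →
    Stmt_Ex.{v} → Stmt_NearB.{v} := by
  intro hNI hNG hWt hDer hAv hEx H _ _ _ P a ha U hU t ht
  have hU0 : 0 ≤ U := (norm_nonneg _).trans (hU 0)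
  have hd0 : 0 ≤ P.d := by
    obtain ⟨-, -, -, -, -, -, -, -, -, -, -, -, hvd⟩ := hAv H P
    have h1 := hvd 1 1 one_pos
    have h2 : 0 ≤ vv P 1 1 := norm_nonneg _
    rw [norm_one, one_mul] at h1
    linarith
  have s2 : (0 : ℝ) < Real.sqrt 2 := Real.sqrt_pos.2 (by norm_num)
  have s2' : Real.sqrt 2 ^ 2 = 2 := Real.sq_sqrt (by norm_num)
  set ρ : ℝ := 1 / (2 * Real.sqrt 2 * t) with hρ
  have hρ0 : 0 < ρ := by positivity
  have hρ2 : ρ ^ 2 = 1 / (8 * t ^ 2) := by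
    rw [hρ, div_pow, mul_pow, mul_pow, s2']
    norm_num
  obtain ⟨w1, w2, w3, w4, w5, w6, w7, w8, w9⟩ := hWt
  have hgm : gm (1 / (2 * t)) a = gm ρ (gm ρ a) := by
    rw [w8, hρ2]
    congr 1
    rw [show 1 / (8 * t ^ 2) + 1 / (8 * t ^ 2) = (1 / (2 * t)) ^ 2 by field_simp; norm_num]
    rw [Real.sqrt_sq (by positivity)]
  obtain ⟨-, -, d1, d2, d3⟩ := hDer a ha U ρ hρ0 hU
  have hval : 3 / 2 * U / ρ ^ 2 = 12 * t ^ 2 * U := by
    rw [hρ2]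
    field_simp
    ring
  rw [hval] at d1 d2 d3
  have wa : Wt (gm ρ a) := w2 a ρ ha
  have wb1 : Wt (fun ξ => (ξ.re : ℂ) ^ 2 * gm ρ a ξ) := by
    have := w6 _ 1 (w6 _ 1 wa)
    refine (congrArg Wt (funext fun ξ => ?_)).mp this
    simp only [ip, Complex.one_re, Complex.one_im, one_mul, zero_mul, add_zero]
    ring
  have wb2 : Wt (fun ξ => (ξ.im : ℂ) ^ 2 * gm ρ a ξ) := by
    have := w6 _ Complex.I (w6 _ Complex.I wa)
    refine (congrArg Wt (funext fun ξ => ?_)).mp this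
    simp only [ip, Complex.I_re, Complex.I_im, one_mul, zero_mul, zero_add]
    ring
  have wb3 : Wt (fun ξ => (ξ.re : ℂ) * (ξ.im : ℂ) * gm ρ a ξ) := by
    have := w6 _ 1 (w6 _ Complex.I wa)
    refine (congrArg Wt (funext fun ξ => ?_)).mp this
    simp only [ip, Complex.one_re, Complex.one_im, Complex.I_re, Complex.I_im, one_mul, zero_mul,
      zero_add, add_zero]
    ring
  have hWt' : Stmt_Wt := ⟨w1, w2, w3, w4, w5, w6, w7, w8, w9⟩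
  obtain ⟨j1, n1⟩ := dir hNG hAv hEx hWt' P hd0 _ wb1 U t ht d1 1 (by simp)
  obtain ⟨j2, n2⟩ := dir hNG hAv hEx hWt' P hd0 _ wb2 U t ht d2 Complex.I (by simp)
  obtain ⟨j3, n3⟩ := dir hNG hAv hEx hWt' P hd0 _ wb3 U t ht d3 ep norm_ep
  obtain ⟨j4, n4⟩ := dir hNG hAv hEx hWt' P hd0 _ wb3 U t ht d3 em norm_em
  rw [hNI H P _ (w2 a _ ha) t ht, hgm]
  have hpt : ∀ ξ, gm ρ (gm ρ a) ξ * ∫ c in (0 : ℝ)..(1 / 2), ((1 / 2 - c : ℝ) : ℂ) *
      (Psi P t ξ (1 - c) - Psi P t ξ c) =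
      gm ρ (fun ξ => (ξ.re : ℂ) ^ 2 * gm ρ a ξ) ξ *
        (∫ c in (0 : ℝ)..(1 / 2), w c * kk P t 1 ξ c) +
      gm ρ (fun ξ => (ξ.im : ℂ) ^ 2 * gm ρ a ξ) ξ *
        (∫ c in (0 : ℝ)..(1 / 2), w c * kk P t Complex.I ξ c) +
      (gm ρ (fun ξ => (ξ.re : ℂ) * (ξ.im : ℂ) * gm ρ a ξ) ξ *
        (∫ c in (0 : ℝ)..(1 / 2), w c * kk P t ep ξ c) -
      gm ρ (fun ξ => (ξ.re : ℂ) * (ξ.im : ℂ) * gm ρ a ξ) ξ *
        (∫ c in (0 : ℝ)..(1 / 2), w c * kk P t em ξ c)) := by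
    intro ξ
    have h := split hAv hEx P t ξ
    have h' : ∫ c in (0 : ℝ)..(1 / 2), ((1 / 2 - c : ℝ) : ℂ) *
      (Psi P t ξ (1 - c) - Psi P t ξ c) = ∫ c in (0 : ℝ)..(1 / 2), w c *
      (Psi P t ξ (1 - c) - Psi P t ξ c) := rfl
    rw [h', h, gm_mul ρ (gm ρ a) (fun ξ => (ξ.re : ℂ) ^ 2),
      gm_mul ρ (gm ρ a) (fun ξ => (ξ.im : ℂ) ^ 2),
      gm_mul ρ (gm ρ a) (fun ξ => (ξ.re : ℂ) * (ξ.im : ℂ))]
    ring
  simp_rw [hpt]
  refine (four _ _ _ _ _ _ _ _ j1 j2 j3 j4 n1 n2 n3 n4).trans ?_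
  have hpos : ∀ e : ℂ, 0 ≤ U * t * Real.sqrt P.d *
      Real.sqrt (vv P e (t / Real.sqrt 2) - vv P e (12 * t)) := fun e => by positivity
  nlinarith [hpos 1, hpos Complex.I, hpos ep, hpos em]

end Pool.Bes
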