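import Pool.Agent.Work.Bes.KN

/-!
# Block NEARG
-/

open MeasureTheory Complex
open scoped ComplexOrder InnerProductSpace ComplexConjugate

set_option autoImplicit false
set_option linter.unusedSectionVars false

universe v

namespace Pool.Bes.NGB

open KNB

/-! ### Gaussian identities -/

theorem nsq (z : ℂ) : ‖z‖ ^ 2 = z.re ^ 2 + z.im ^ 2 := by
  rw [Complex.sq_norm, Complex.normSq_apply]
  ring

theorem gam_neg (t : ℝ) (s : ℂ) : gam t (-s) = gam t s := by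
  rw [gam, gam, norm_neg]

theorem gam_cont (t : ℝ) : Continuous (gam t) := by
  unfold gam
  fun_prop

/-- Identity (ii). -/
theorem gauss_id (t c : ℝ) (ht : 0 < t) (ξ s : ℂ) :
    Real.exp (-((1 / (2 * Real.sqrt 2 * t)) ^ 2 * ‖ξ‖ ^ 2 / 2)) * gam t (s + c * ξ) =
    (1 + 8 * c ^ 2) * gam (t * Real.sqrt (1 + 8 * c ^ 2)) s *
      Real.exp (-((Real.sqrt (1 + 8 * c ^ 2) / (2 * Real.sqrt 2 * t)) ^ 2 *
        ‖ξ + ((8 * c / (1 + 8 * c ^ 2) : ℝ) : ℂ) * s‖ ^ 2 / 2)) := by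
  have hA : 0 < 1 + 8 * c ^ 2 := by positivity
  have hs2 : Real.sqrt 2 ^ 2 = 2 := Real.sq_sqrt (by norm_num)
  have hsA : Real.sqrt (1 + 8 * c ^ 2) ^ 2 = 1 + 8 * c ^ 2 := Real.sq_sqrt hA.le
  have hpi := Real.pi_pos
  rw [gam, gam]
  rw [show (t * Real.sqrt (1 + 8 * c ^ 2)) ^ 2 = t ^ 2 * (1 + 8 * c ^ 2) by rw [mul_pow, hsA],
    show (1 / (2 * Real.sqrt 2 * t)) ^ 2 = 1 / (8 * t ^ 2) by
      rw [div_pow, mul_pow, mul_pow, hs2]; ring,
    show (Real.sqrt (1 + 8 * c ^ 2) / (2 * Real.sqrt 2 * t)) ^ 2 = (1 + 8 * c ^ 2) / (8 * t ^ 2) by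
      rw [div_pow, mul_pow, mul_pow, hs2, hsA]; ring]
  have e1 : Real.exp (-(1 / (8 * t ^ 2) * ‖ξ‖ ^ 2 / 2)) *
      (1 / (2 * Real.pi * t ^ 2) * Real.exp (-(‖s + c * ξ‖ ^ 2 / (2 * t ^ 2)))) =
      1 / (2 * Real.pi * t ^ 2) * Real.exp (-(1 / (8 * t ^ 2) * ‖ξ‖ ^ 2 / 2) +
        -(‖s + c * ξ‖ ^ 2 / (2 * t ^ 2))) := by
    rw [Real.exp_add]; ring
  have e2 : (1 + 8 * c ^ 2) * (1 / (2 * Real.pi * (t ^ 2 * (1 + 8 * c ^ 2))) *
      Real.exp (-(‖s‖ ^ 2 / (2 * (t ^ 2 * (1 + 8 * c ^ 2)))))) *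
      Real.exp (-((1 + 8 * c ^ 2) / (8 * t ^ 2) *
        ‖ξ + ((8 * c / (1 + 8 * c ^ 2) : ℝ) : ℂ) * s‖ ^ 2 / 2)) =
      1 / (2 * Real.pi * t ^ 2) * Real.exp (-(‖s‖ ^ 2 / (2 * (t ^ 2 * (1 + 8 * c ^ 2)))) +
        -((1 + 8 * c ^ 2) / (8 * t ^ 2) *
        ‖ξ + ((8 * c / (1 + 8 * c ^ 2) : ℝ) : ℂ) * s‖ ^ 2 / 2)) := by
    rw [Real.exp_add]
    have : (1 + 8 * c ^ 2) * (1 / (2 * Real.pi * (t ^ 2 * (1 + 8 * c ^ 2)))) =
        1 / (2 * Real.pi * t ^ 2) := by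
      field_simp
    rw [← this]
    ring
  rw [e1, e2]
  congr 2
  rw [nsq, nsq, nsq, nsq]
  simp only [Complex.add_re, Complex.add_im, Complex.mul_re, Complex.mul_im, Complex.ofReal_re,
    Complex.ofReal_im, zero_mul, sub_zero, add_zero]
  field_simp
  ring

theorem int_gam_exp (σ b : ℝ) (hσ : 0 < σ) (hb : 0 < 1 / (2 * σ ^ 2) - b) :
    Integrable (fun s : ℂ => gam σ s * Real.exp (b * ‖s‖ ^ 2)) ∧
    ∫ s : ℂ, gam σ s * Real.exp (b * ‖s‖ ^ 2) = 1 / (1 - 2 * σ ^ 2 * b) := by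
  have e : (fun s : ℂ => gam σ s * Real.exp (b * ‖s‖ ^ 2)) = fun s : ℂ =>
      1 / (2 * Real.pi * σ ^ 2) * Real.exp (-((1 / (2 * σ ^ 2) - b) * ‖s‖ ^ 2)) := by
    funext s
    rw [gam, mul_assoc, ← Real.exp_add]
    congr 2
    ring
  rw [e]
  refine ⟨(integrable_rgauss _ hb).const_mul _, ?_⟩
  rw [integral_const_mul, int_rgauss _ hb]
  have hpi := Real.pi_pos
  have h1 : 1 / (2 * σ ^ 2) - b = (1 - 2 * σ ^ 2 * b) / (2 * σ ^ 2) := by
    field_simp
  have h2 : 0 < 1 - 2 * σ ^ 2 * b := by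
    rw [h1] at hb
    have := (div_pos_iff_of_pos_right (by positivity : (0 : ℝ) < 2 * σ ^ 2)).mp hb
    exact this
  rw [h1]
  field_simp

section

variable {H : Type v} [NormedAddCommGroup H] [InnerProductSpace ℂ H] [CompleteSpace H]

variable (P : Pair H)

theorem pr_tD' (s : ℂ) (X : S1 H) (Z : H →L[ℂ] H) :
    pr (tD P s X) Z = pr X (ex P.B (-s) * (Z * ex P.A s)) := rfl

theorem integrable_gam_tD (hAv : Stmt_Av.{v}) (t : ℝ) (ht : 0 < t) (X : S1 H) :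
    Integrable fun s : ℂ => (gam t s : ℂ) • tD P s X := by
  obtain ⟨-, htDn, htDc, -, -, -, -, hgam, -⟩ := hAv H P
  obtain ⟨-, hgi, hgp⟩ := hgam t ht
  have hgc : AEStronglyMeasurable (fun s : ℂ => (gam t s : ℂ)) volume :=
    (Complex.continuous_ofReal.comp_aestronglyMeasurable hgi.aestronglyMeasurable)
  refine Integrable.mono' (hgi.mul_const ‖X‖)
    (hgc.smul (htDc X).aestronglyMeasurable) (Filter.Eventually.of_forall fun r => ?_)
  rw [norm_smul, htDn, norm_gam _ ht]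

theorem pr_G (hAv : Stmt_Av.{v}) (t : ℝ) (ht : 0 < t) (X : S1 H) (Z : H →L[ℂ] H) :
    pr (G P t X) Z = ∫ q : ℂ, (gam t q : ℂ) * pr (tD P q X) Z := by
  have h2 : G P t X = ∫ s : ℂ, (gam t s : ℂ) • tD P s X := rfl
  rw [h2, ← prL_apply, ← ContinuousLinearMap.integral_comp_comm _ (integrable_gam_tD P hAv t ht X)]
  refine integral_congr_ae (Filter.Eventually.of_forall fun r => ?_)
  simp only [map_smul, prL_apply, smul_eq_mul]

/-- Moving the average from the adjoint factor. -/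
theorem pr_star_G (hAv : Stmt_Av.{v}) (hEx : Stmt_Ex.{v}) (r : ℝ) (hr : 0 < r) (D Y : S1 H)
    (hD : star (op D) = op D) (p p' : ℂ) :
    pr Y (ex P.B p * star (op (G P r D)) * ex P.A p') =
      pr (G P r Y) (ex P.B p * op D * ex P.A p') := by
  obtain ⟨hA0, hAadd, hAstar, hAn, hAc, -, -, -⟩ := hEx H P.A P.hA
  obtain ⟨hB0, hBadd, hBstar, hBn, hBc, -, -, -⟩ := hEx H P.B P.hB
  obtain ⟨-, htDn, htDc, htOc, -, -, hop, hgam, -⟩ := hAv H P
  obtain ⟨-, hgi, hgp⟩ := hgam r hr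
  have hgI : Integrable (fun s : ℂ => ((gam r s : ℝ) : ℂ)) := hgi.ofReal
  have h1 : star (op (G P r D)) = ∫ s : ℂ, (gam r s : ℂ) • (ex P.B s * op D * ex P.A (-s)) := by
    have h2 : op (G P r D) = ∫ s : ℂ, (gam r s : ℂ) • tO P s (op D) := hop _ _ hgI
    rw [h2, star_integral]
    refine integral_congr_ae (Filter.Eventually.of_forall fun s => ?_)
    simp only
    rw [star_smul, tO, star_mul, star_mul, hD, hAstar, hBstar, neg_neg]
    simp only [RCLike.star_def, Complex.conj_ofReal, mul_assoc]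
  have hint : Integrable fun s : ℂ => (gam r s : ℂ) • (ex P.B s * op D * ex P.A (-s)) := by
    have hc : Continuous fun s : ℂ => ex P.B s * op D * ex P.A (-s) :=
      (hBc.mul continuous_const).mul (hAc.comp continuous_neg)
    refine Integrable.smul_bdd hgI ‖op D‖ hc.aestronglyMeasurable
      (Filter.Eventually.of_forall fun s => ?_)
    calc ‖ex P.B s * op D * ex P.A (-s)‖ ≤ ‖ex P.B s‖ * ‖op D‖ * ‖ex P.A (-s)‖ :=
          (norm_mul_le _ _).trans (mul_le_mul_of_nonneg_right (norm_mul_le _ _) (norm_nonneg _))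
      _ ≤ 1 * ‖op D‖ * 1 := by
          refine mul_le_mul (mul_le_mul_of_nonneg_right (hBn _) (norm_nonneg _)) (hAn _)
            (norm_nonneg _) (by positivity)
      _ = ‖op D‖ := by ring
  set L : (H →L[ℂ] H) →L[ℂ] ℂ := Y.toDual.comp
    (ContinuousLinearMap.mulLeftRight ℂ (H →L[ℂ] H) (ex P.B p) (ex P.A p')) with hL
  have hL' : ∀ Z, L Z = pr Y (ex P.B p * Z * ex P.A p') := fun Z => rfl
  rw [← hL', h1, ← ContinuousLinearMap.integral_comp_comm _ hint, pr_G P hAv r hr]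
  rw [← integral_neg_eq_self (fun q : ℂ => (gam r q : ℂ) * pr (tD P q Y) (ex P.B p * op D * ex P.A p'))]
  refine integral_congr_ae (Filter.Eventually.of_forall fun s => ?_)
  simp only [map_smul, smul_eq_mul]
  rw [hL', gam_neg, pr_tD', neg_neg]
  congr 2
  have e1 : ex P.B p * (ex P.B s * op D * ex P.A (-s)) * ex P.A p' =
      (ex P.B p * ex P.B s) * op D * (ex P.A (-s) * ex P.A p') := by simp only [mul_assoc]
  have e2 : ex P.B s * (ex P.B p * op D * ex P.A p' * ex P.A (-s)) =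
      (ex P.B s * ex P.B p) * op D * (ex P.A p' * ex P.A (-s)) := by simp only [mul_assoc]
  rw [e1, e2, ← hBadd, ← hBadd, ← hAadd, ← hAadd, add_comm p s, add_comm (-s) p']

/-- The form of the windows. -/
theorem fm_eq (hAv : Stmt_Av.{v}) (hEx : Stmt_Ex.{v}) (t : ℝ) (ht : 0 < t) (D : S1 H)
    (hD : star (op D) = op D) (p p' : ℂ) :
    fm (G P (t / Real.sqrt 2) D) (ex P.A p') (ex P.B p) =
      pr (G P t D) (ex P.B p * op D * ex P.A p') := by
  have hr : 0 < t / Real.sqrt 2 := by positivity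
  have h := pr_star_G P hAv hEx (t / Real.sqrt 2) hr D (G P (t / Real.sqrt 2) D) hD p p'
  rw [fm, h]
  obtain ⟨-, -, -, -, -, -, -, -, -, hsemi, -⟩ := hAv H P
  rw [hsemi _ _ _ hr hr]
  congr 2
  rw [div_pow, Real.sq_sqrt (by norm_num), show t ^ 2 / 2 + t ^ 2 / 2 = t ^ 2 by ring,
    Real.sqrt_sq ht.le]

/-- Identity (i). -/
theorem psi_id (hAv : Stmt_Av.{v}) (hEx : Stmt_Ex.{v}) (t : ℝ) (ht : 0 < t) (e ξ : ℂ) (c : ℝ)
    (hD : star (op (P.D e)) = op (P.D e)) :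
    psi P t e ξ (1 - c) - psi P t e ξ c = ∫ s : ℂ, (gam t (s + c * ξ) : ℂ) *
      (fm (G P (t / Real.sqrt 2) (P.D e)) (ex P.A (ξ + s)) (ex P.B (-s)) -
        fm (G P (t / Real.sqrt 2) (P.D e)) (ex P.A (-s)) (ex P.B (ξ + s))) := by
  obtain ⟨hA0, hAadd, hAstar, hAn, hAc, -, -, -⟩ := hEx H P.A P.hA
  obtain ⟨hB0, hBadd, hBstar, hBn, hBc, -, -, -⟩ := hEx H P.B P.hB
  obtain ⟨htDadd, htDn, htDc, -, -, -, -, hgam, -, hsemi, hcomm, -⟩ := hAv H P
  obtain ⟨-, hgi, hgp⟩ := hgam t ht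
  set D := P.D e with hDdef
  set Y := G P t D with hY
  set ζ : ℂ → ℂ := fun p => pr (tD P p Y) (ex P.B ξ * op D) with hζ
  have hζc : Continuous ζ := (prL (ex P.B ξ * op D)).continuous.comp (htDc Y)
  have hζb : ∀ p, ‖ζ p‖ ≤ ‖Y‖ * ‖ex P.B ξ * op D‖ := fun p => by
    refine (pr_norm_le _ _).trans ?_
    rw [htDn]
  have hG : G P (Real.sqrt 2 * t) D = G P t Y := by
    rw [hY, hsemi _ _ _ ht ht]
    congr 1
    rw [← two_mul, Real.sqrt_mul (by norm_num), Real.sqrt_sq ht.le]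
  have hpsi : ∀ c' : ℝ, psi P t e ξ c' = ∫ q : ℂ, (gam t q : ℂ) * ζ (q + c' * ξ) := by
    intro c'
    rw [psi, ← hDdef, hG, hcomm, pr_G P hAv t ht]
    refine integral_congr_ae (Filter.Eventually.of_forall fun q => ?_)
    simp only [hζ]
    rw [htDadd]
  have h1 : psi P t e ξ (1 - c) = ∫ s : ℂ, (gam t (s + c * ξ) : ℂ) * ζ (ξ + s) := by
    rw [hpsi, ← integral_add_right_eq_self _ ((c : ℂ) * ξ)]
    refine integral_congr_ae (Filter.Eventually.of_forall fun s => ?_)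
    simp only
    congr 2
    push_cast
    ring
  have h2 : psi P t e ξ c = ∫ s : ℂ, (gam t (s + c * ξ) : ℂ) * ζ (-s) := by
    rw [hpsi, ← integral_neg_eq_self, ← integral_add_right_eq_self _ ((c : ℂ) * ξ)]
    refine integral_congr_ae (Filter.Eventually.of_forall fun s => ?_)
    simp only
    rw [gam_neg]
    congr 2
    ring
  have hgI : Integrable (fun s : ℂ => ((gam t (s + c * ξ) : ℝ) : ℂ)) :=
    (hgi.comp_add_right ((c : ℂ) * ξ)).ofReal
  have i1 : Integrable fun s : ℂ => ((gam t (s + c * ξ) : ℝ) : ℂ) * ζ (ξ + s) :=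
    hgI.mul_bdd (c := ‖Y‖ * ‖ex P.B ξ * op D‖)
      (hζc.comp (continuous_const.add continuous_id)).aestronglyMeasurable
      (Filter.Eventually.of_forall fun s => hζb _)
  have i2 : Integrable fun s : ℂ => ((gam t (s + c * ξ) : ℝ) : ℂ) * ζ (-s) :=
    hgI.mul_bdd (c := ‖Y‖ * ‖ex P.B ξ * op D‖)
      (hζc.comp continuous_neg).aestronglyMeasurable
      (Filter.Eventually.of_forall fun s => hζb _)
  rw [h1, h2, ← integral_sub i1 i2]
  refine integral_congr_ae (Filter.Eventually.of_forall fun s => ?_)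
  simp only
  rw [← mul_sub, fm_eq P hAv hEx t ht D hD, fm_eq P hAv hEx t ht D hD]
  congr 2
  · simp only [hζ]
    rw [pr_tD']
    congr 1
    have : ex P.B (-s) = ex P.B (-(ξ + s)) * ex P.B ξ := by
      rw [← hBadd]
      congr 1
      ring
    rw [this]
    simp only [mul_assoc]
  · simp only [hζ]
    rw [pr_tD', neg_neg]
    congr 1
    rw [add_comm ξ s, hBadd]
    simp only [mul_assoc]

theorem syn_shift (b : ℂ → ℂ) (w z : ℂ) :
    syn (fun ξ => b (ξ - w)) z = ch w z * syn b z := by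
  rw [syn, syn, ← integral_const_mul]
  rw [← integral_add_right_eq_self _ w]
  refine integral_congr_ae (Filter.Eventually.of_forall fun ξ => ?_)
  simp only [add_sub_cancel_right]
  have : ch (ξ + w) z = ch w z * ch ξ z := by
    rw [ch, ch, ch, ← Complex.exp_add]
    congr 1
    rw [← mul_add, ← Complex.ofReal_add]
    congr 2
    simp only [ip, Complex.add_re, Complex.add_im]
    ring
  rw [this]
  ring

theorem norm_ch (ξ z : ℂ) : ‖ch ξ z‖ = 1 := by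
  rw [ch, Complex.norm_exp]
  simp

/-- Functional calculus inside a continuous functional. -/
theorem fn_clm (hFn : Stmt_Fn.{v}) (N : H →L[ℂ] H) (hN : IsStarNormal N) (a : ℂ → ℂ)
    (ha : Integrable a) (L : (H →L[ℂ] H) →L[ℂ] ℂ) :
    (∫ ξ, a ξ * L (ex N ξ) = L (fn (syn a) N)) ∧ Integrable fun ξ => a ξ * L (ex N ξ) := by
  obtain ⟨-, h2, -, -, h5⟩ := hFn H N hN a ha
  constructor
  · rw [h2, ← ContinuousLinearMap.integral_comp_comm _ h5]
    refine integral_congr_ae (Filter.Eventually.of_forall fun ξ => ?_)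
    simp only [map_smul, smul_eq_mul]
  · have := L.integrable_comp h5
    refine this.congr (Filter.Eventually.of_forall fun ξ => ?_)
    simp only [map_smul, smul_eq_mul]

end

end Pool.Bes.NGB

namespace Pool.Bes

open KNB NGB

/-- Block NEARG. -/
theorem blk_NEARG : Stmt_Alg.{v} → Stmt_Ex.{v} → Stmt_Av.{v} → Stmt_Du.{v} → Stmt_Wt →
    Stmt_Fn.{v} → Stmt_GG.{v} → Stmt_NearG.{v} := by
  intro hAlg hEx hAv hDu hWt hFn hGG H _ _ _ P b hb V hV t e c ht he hc0 hc1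
  obtain ⟨hA0, hAadd, hAstar, hAn, hAc, -, -, -⟩ := hEx H P.A P.hA
  obtain ⟨hB0, hBadd, hBstar, hBn, hBc, -, -, -⟩ := hEx H P.B P.hB
  obtain ⟨htDadd, htDn, htDc, -, -, -, -, hgam, hGn, hsemi, hcomm, hanti, hvd⟩ := hAv H P
  obtain ⟨hDop, -, -, -, -, -, -, -, -, -, -, -, hopr, -⟩ := hDu H P
  obtain ⟨hWi, hWg, -⟩ := hWt
  have hbi : Integrable b := hWi b hb
  have hV0 : 0 ≤ V := (norm_nonneg _).trans (hV 0)
  have hs2 : 0 < Real.sqrt 2 := by positivity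
  have hs22 : Real.sqrt 2 ^ 2 = 2 := Real.sq_sqrt (by norm_num)
  have hpi := Real.pi_pos
  have hA' : 0 < 1 + 8 * c ^ 2 := by positivity
  have hD : star (op (P.D e)) = op (P.D e) := by
    rw [hDop]
    simp only [dt, star_sub, star_smul, star_add, star_star, RCLike.star_def, Complex.conj_conj]
    have h2 : (starRingEnd ℂ) (1 / 2 : ℂ) = 1 / 2 := by
      rw [show (1 / 2 : ℂ) = ((1 / 2 : ℝ) : ℂ) by norm_num, Complex.conj_ofReal]
    rw [h2]
    rw [add_comm (e • star P.A), add_comm (e • star P.B)]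
  set r : ℝ := t / Real.sqrt 2 with hr
  have hr0 : 0 < r := by positivity
  set X := G P r (P.D e) with hX
  set σ : ℝ := t * Real.sqrt (1 + 8 * c ^ 2) with hσ
  have hσ0 : 0 < σ := by positivity
  have hσ2 : σ ^ 2 = t ^ 2 * (1 + 8 * c ^ 2) := by
    rw [hσ, mul_pow, Real.sq_sqrt hA'.le]
  set ρ₁ : ℝ := Real.sqrt (1 + 8 * c ^ 2) / (2 * Real.sqrt 2 * t) with hρ₁
  have hρ₁0 : 0 < ρ₁ := by positivity
  have hρ₁2 : ρ₁ ^ 2 = (1 + 8 * c ^ 2) / (8 * t ^ 2) := by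
    rw [hρ₁, div_pow, mul_pow, mul_pow, hs22, Real.sq_sqrt hA'.le]
    ring
  set ρ' : ℝ := 1 / (2 * Real.sqrt 2 * t) with hρ'
  set μ : ℝ := 8 * c / (1 + 8 * c ^ 2) with hμ
  have hμ0 : 0 ≤ μ := by positivity
  have hμ1 : |1 - μ| ≤ 1 := by
    rw [abs_le]
    constructor
    · have : μ ≤ 2 := by
        rw [hμ, div_le_iff₀ hA']
        nlinarith [sq_nonneg (4 * c - 1), sq_nonneg c]
      linarith
    · linarith
  set Φ : ℂ → ℂ → ℂ := fun ξ s => fm X (ex P.A (ξ + s)) (ex P.B (-s)) -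
    fm X (ex P.A (-s)) (ex P.B (ξ + s)) with hΦ
  have hid : ∀ ξ, psi P t e ξ (1 - c) - psi P t e ξ c =
      ∫ s : ℂ, (gam t (s + c * ξ) : ℂ) * Φ ξ s := fun ξ => psi_id P hAv hEx t ht e ξ c hD
  -- the integrand after the Gaussian identity
  set F : ℂ → ℂ → ℂ := fun ξ s => (((1 + 8 * c ^ 2) * gam σ s : ℝ) : ℂ) *
    ((Real.exp (-(ρ₁ ^ 2 * ‖ξ + (μ : ℂ) * s‖ ^ 2 / 2)) : ℂ) * b ξ * Φ ξ s) with hF
  have step1 : (∫ ξ : ℂ, gm ρ' b ξ * (psi P t e ξ (1 - c) - psi P t e ξ c)) =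
      ∫ ξ : ℂ, ∫ s : ℂ, F ξ s := by
    refine integral_congr_ae (Filter.Eventually.of_forall fun ξ => ?_)
    simp only
    rw [hid, ← integral_const_mul]
    refine integral_congr_ae (Filter.Eventually.of_forall fun s => ?_)
    simp only [gm, hF]
    have h := gauss_id t c ht ξ s
    rw [← hρ', ← hρ₁, ← hμ, ← hσ] at h
    have h' : (Real.exp (-(ρ' ^ 2 * ‖ξ‖ ^ 2 / 2)) : ℂ) * (gam t (s + c * ξ) : ℂ) =
        (((1 + 8 * c ^ 2) * gam σ s : ℝ) : ℂ) *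
        (Real.exp (-(ρ₁ ^ 2 * ‖ξ + (μ : ℂ) * s‖ ^ 2 / 2)) : ℂ) := by
      rw [← Complex.ofReal_mul, h, ← Complex.ofReal_mul]
    calc _ = ((Real.exp (-(ρ' ^ 2 * ‖ξ‖ ^ 2 / 2)) : ℂ) * (gam t (s + c * ξ) : ℂ)) * b ξ * Φ ξ s := by
          ring
      _ = _ := by
          rw [h']
          ring
  have hXc : Continuous fun Y : H →L[ℂ] H => pr X Y := pr_continuous X
  have hΦc : Continuous (Function.uncurry Φ) := by
    have a1 : Continuous fun p : ℂ × ℂ => ex P.A (p.1 + p.2) :=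
      hAc.comp (continuous_fst.add continuous_snd)
    have a2 : Continuous fun p : ℂ × ℂ => ex P.A (-p.2) := hAc.comp continuous_snd.neg
    have b1 : Continuous fun p : ℂ × ℂ => ex P.B (p.1 + p.2) :=
      hBc.comp (continuous_fst.add continuous_snd)
    have b2 : Continuous fun p : ℂ × ℂ => ex P.B (-p.2) := hBc.comp continuous_snd.neg
    exact (hXc.comp ((b2.mul continuous_const).mul a1)).sub
      (hXc.comp ((b1.mul continuous_const).mul a2))
  have hfmb : ∀ p p' : ℂ, ‖fm X (ex P.A p') (ex P.B p)‖ ≤ ‖X‖ * ‖op X‖ := by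
    intro p p'
    refine (pr_norm_le _ _).trans (mul_le_mul_of_nonneg_left ?_ (norm_nonneg _))
    calc ‖ex P.B p * star (op X) * ex P.A p'‖ ≤ ‖ex P.B p‖ * ‖star (op X)‖ * ‖ex P.A p'‖ :=
          (norm_mul_le _ _).trans (mul_le_mul_of_nonneg_right (norm_mul_le _ _) (norm_nonneg _))
      _ ≤ 1 * ‖star (op X)‖ * 1 := by
          refine mul_le_mul (mul_le_mul_of_nonneg_right (hBn _) (norm_nonneg _)) (hAn _)
            (norm_nonneg _) (by positivity)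
      _ = ‖op X‖ := by rw [norm_star]; ring
  have hΦb : ∀ ξ s, ‖Φ ξ s‖ ≤ 2 * (‖X‖ * ‖op X‖) := by
    intro ξ s
    refine (norm_sub_le _ _).trans ?_
    have := hfmb (-s) (ξ + s)
    have := hfmb (ξ + s) (-s)
    linarith
  obtain ⟨-, hgσi, hgσp⟩ := hgam σ hσ0
  have hFi : Integrable (Function.uncurry F) (volume.prod volume) := by
    have hm : AEStronglyMeasurable (Function.uncurry F) (volume.prod volume) := by
      have c1 : Continuous fun p : ℂ × ℂ => (((1 + 8 * c ^ 2) * gam σ p.2 : ℝ) : ℂ) :=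
        Complex.continuous_ofReal.comp (continuous_const.mul ((gam_cont σ).comp continuous_snd))
      have c2 : Continuous fun p : ℂ × ℂ =>
          (Real.exp (-(ρ₁ ^ 2 * ‖p.1 + (μ : ℂ) * p.2‖ ^ 2 / 2)) : ℂ) := by fun_prop
      have c3 : AEStronglyMeasurable (fun p : ℂ × ℂ => b p.1) (volume.prod volume) :=
        hbi.aestronglyMeasurable.comp_fst
      exact c1.aestronglyMeasurable.mul ((c2.aestronglyMeasurable.mul c3).mul
        hΦc.aestronglyMeasurable)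
    have hdom : Integrable (fun p : ℂ × ℂ => ‖b p.1‖ *
        ((1 + 8 * c ^ 2) * gam σ p.2 * (2 * (‖X‖ * ‖op X‖)))) (volume.prod volume) :=
      hbi.norm.mul_prod ((hgσi.const_mul _).mul_const _)
    refine hdom.mono' hm (Filter.Eventually.of_forall fun p => ?_)
    obtain ⟨ξ, s⟩ := p
    simp only [Function.uncurry, hF]
    have hgg : (0 : ℝ) ≤ (1 + 8 * c ^ 2) * gam σ s := mul_nonneg hA'.le (hgσp s).le
    rw [norm_mul, norm_mul, norm_mul, Complex.norm_real, Complex.norm_real,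
      Real.norm_of_nonneg hgg, Real.norm_of_nonneg (Real.exp_pos _).le]
    have he1 : Real.exp (-(ρ₁ ^ 2 * ‖ξ + (μ : ℂ) * s‖ ^ 2 / 2)) ≤ 1 := by
      rw [Real.exp_le_one_iff]
      have : 0 ≤ ρ₁ ^ 2 * ‖ξ + (μ : ℂ) * s‖ ^ 2 / 2 := by positivity
      linarith
    calc (1 + 8 * c ^ 2) * gam σ s *
        (Real.exp (-(ρ₁ ^ 2 * ‖ξ + (μ : ℂ) * s‖ ^ 2 / 2)) * ‖b ξ‖ * ‖Φ ξ s‖) ≤
        (1 + 8 * c ^ 2) * gam σ s * (1 * ‖b ξ‖ * (2 * (‖X‖ * ‖op X‖))) := by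
          refine mul_le_mul_of_nonneg_left ?_ hgg
          exact mul_le_mul (mul_le_mul_of_nonneg_right he1 (norm_nonneg _)) (hΦb ξ s)
            (norm_nonneg _) (by positivity)
      _ = _ := by ring
  rw [step1, integral_integral_swap hFi]
  -- the inner integral
  set K : ℝ := 40 * V * ‖op X‖ * Real.sqrt (‖X‖ * (‖X‖ - ‖G P (4 / ρ₁) X‖)) with hK
  have hK0 : 0 ≤ K := by positivity
  have hinner : ∀ s : ℂ, ‖∫ ξ : ℂ, F ξ s‖ ≤
      (1 + 8 * c ^ 2) * K * (gam σ s * Real.exp (ρ₁ ^ 2 / 28 * ‖s‖ ^ 2)) := by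
    intro s
    set η : ℂ := ((1 - μ : ℝ) : ℂ) * s with hη
    set bs : ℂ → ℂ := fun ξ => b (ξ - μ * s) with hbs
    have hbsi : Integrable bs := hbi.comp_sub_right ((μ : ℂ) * s)
    have hgmi : Integrable (gm ρ₁ bs) := by
      have hcc : Continuous fun ξ : ℂ => (Real.exp (-(ρ₁ ^ 2 * ‖ξ‖ ^ 2 / 2)) : ℂ) := by fun_prop
      refine hbsi.bdd_mul (c := 1) hcc.aestronglyMeasurable
        (Filter.Eventually.of_forall fun ξ => ?_)
      rw [Complex.norm_real, Real.norm_of_nonneg (Real.exp_pos _).le, Real.exp_le_one_iff]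
      have : 0 ≤ ρ₁ ^ 2 * ‖ξ‖ ^ 2 / 2 := by positivity
      linarith
    have hsynb : ∀ z, ‖syn bs z‖ ≤ V := by
      intro z
      rw [hbs, syn_shift, norm_mul, norm_ch, one_mul]
      exact hV z
    have hgg := hGG H P X bs hbsi V hsynb ρ₁ hρ₁0 η s
    have hJ : (∫ ξ : ℂ, F ξ s) = (((1 + 8 * c ^ 2) * gam σ s : ℝ) : ℂ) *
        (fm X (fn (syn (gm ρ₁ bs)) P.A * ex P.A η) (ex P.B (-s)) -
          fm X (ex P.A (-s)) (fn (syn (gm ρ₁ bs)) P.B * ex P.B η)) := by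
      simp only [hF]
      rw [integral_const_mul]
      congr 1
      rw [← integral_sub_right_eq_self _ ((μ : ℂ) * s)]
      set L1 : (H →L[ℂ] H) →L[ℂ] ℂ := X.toDual.comp
        (ContinuousLinearMap.mulLeftRight ℂ (H →L[ℂ] H) (ex P.B (-s) * star (op X)) (ex P.A η))
        with hL1
      set L2 : (H →L[ℂ] H) →L[ℂ] ℂ := X.toDual.comp
        (ContinuousLinearMap.mulLeftRight ℂ (H →L[ℂ] H) 1
          (ex P.B η * star (op X) * ex P.A (-s))) with hL2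
      have hL1' : ∀ Z, L1 Z = fm X (Z * ex P.A η) (ex P.B (-s)) := by
        intro Z
        change pr X (ex P.B (-s) * star (op X) * Z * ex P.A η) =
          pr X (ex P.B (-s) * star (op X) * (Z * ex P.A η))
        simp only [mul_assoc]
      have hL2' : ∀ Z, L2 Z = fm X (ex P.A (-s)) (Z * ex P.B η) := by
        intro Z
        change pr X (1 * Z * (ex P.B η * star (op X) * ex P.A (-s))) =
          pr X (Z * ex P.B η * star (op X) * ex P.A (-s))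
        simp only [mul_assoc, one_mul]
      obtain ⟨e1, i1⟩ := fn_clm hFn P.A P.hA (gm ρ₁ bs) hgmi L1
      obtain ⟨e2, i2⟩ := fn_clm hFn P.B P.hB (gm ρ₁ bs) hgmi L2
      rw [← hL1', ← hL2', ← e1, ← e2, ← integral_sub i1 i2]
      refine integral_congr_ae (Filter.Eventually.of_forall fun ξ => ?_)
      simp only [hL1', hL2', hΦ, gm, hbs, sub_add_cancel]
      have h1 : ex P.A ξ * ex P.A η = ex P.A (ξ - μ * s + s) := by
        rw [← hAadd, hη]
        congr 1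
        push_cast
        ring
      have h2 : ex P.B ξ * ex P.B η = ex P.B (ξ - μ * s + s) := by
        rw [← hBadd, hη]
        congr 1
        push_cast
        ring
      rw [h1, h2]
      ring
    have hgg0 : (0 : ℝ) ≤ (1 + 8 * c ^ 2) * gam σ s := mul_nonneg hA'.le (hgσp s).le
    rw [hJ, norm_mul, Complex.norm_real, Real.norm_of_nonneg hgg0]
    have hη2 : ‖η‖ ^ 2 ≤ ‖s‖ ^ 2 := by
      rw [hη, norm_mul, Complex.norm_real, Real.norm_eq_abs, mul_pow]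
      have : |1 - μ| ^ 2 ≤ 1 := pow_le_one₀ (abs_nonneg _) hμ1
      exact mul_le_of_le_one_left (sq_nonneg _) this
    have hexp : Real.exp (ρ₁ ^ 2 * (‖η‖ ^ 2 + ‖s‖ ^ 2) / 56) ≤
        Real.exp (ρ₁ ^ 2 / 28 * ‖s‖ ^ 2) := by
      refine Real.exp_le_exp.mpr ?_
      have : 0 ≤ ρ₁ ^ 2 := sq_nonneg _
      nlinarith
    calc (1 + 8 * c ^ 2) * gam σ s * ‖fm X (fn (syn (gm ρ₁ bs)) P.A * ex P.A η) (ex P.B (-s)) -
          fm X (ex P.A (-s)) (fn (syn (gm ρ₁ bs)) P.B * ex P.B η)‖ ≤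
        (1 + 8 * c ^ 2) * gam σ s * (40 * V * Real.exp (ρ₁ ^ 2 * (‖η‖ ^ 2 + ‖s‖ ^ 2) / 56) *
          ‖op X‖ * Real.sqrt (‖X‖ * (‖X‖ - ‖G P (4 / ρ₁) X‖))) :=
          mul_le_mul_of_nonneg_left hgg hgg0
      _ = (1 + 8 * c ^ 2) * gam σ s * (K * Real.exp (ρ₁ ^ 2 * (‖η‖ ^ 2 + ‖s‖ ^ 2) / 56)) := by
          rw [hK]; ring
      _ ≤ (1 + 8 * c ^ 2) * gam σ s * (K * Real.exp (ρ₁ ^ 2 / 28 * ‖s‖ ^ 2)) :=
          mul_le_mul_of_nonneg_left (mul_le_mul_of_nonneg_left hexp hK0) hgg0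
      _ = _ := by ring
  have hc2 : 1 + 8 * c ^ 2 ≤ 3 := by nlinarith
  have hbpos : 0 < 1 / (2 * σ ^ 2) - ρ₁ ^ 2 / 28 := by
    rw [hσ2, hρ₁2]
    have e1 : 1 / (2 * (t ^ 2 * (1 + 8 * c ^ 2))) - (1 + 8 * c ^ 2) / (8 * t ^ 2) / 28 =
        (112 - (1 + 8 * c ^ 2) ^ 2) / (224 * t ^ 2 * (1 + 8 * c ^ 2)) := by
      field_simp
      ring
    rw [e1]
    have : 0 < 112 - (1 + 8 * c ^ 2) ^ 2 := by nlinarith
    positivity
  obtain ⟨hgi, hgv⟩ := int_gam_exp σ (ρ₁ ^ 2 / 28) hσ0 hbpos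
  have hfin : ‖∫ s : ℂ, ∫ ξ : ℂ, F ξ s‖ ≤
      ∫ s : ℂ, (1 + 8 * c ^ 2) * K * (gam σ s * Real.exp (ρ₁ ^ 2 / 28 * ‖s‖ ^ 2)) :=
    norm_integral_le_of_norm_le (hgi.const_mul _) (Filter.Eventually.of_forall hinner)
  refine hfin.trans ?_
  rw [integral_const_mul, hgv]
  have hval : 1 / (1 - 2 * σ ^ 2 * (ρ₁ ^ 2 / 28)) ≤ 112 / 103 := by
    have e1 : 2 * σ ^ 2 * (ρ₁ ^ 2 / 28) = (1 + 8 * c ^ 2) ^ 2 / 112 := by
      rw [hσ2, hρ₁2]
      field_simp
      ring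
    rw [e1, div_le_div_iff₀ (by nlinarith) (by norm_num)]
    nlinarith
  -- the norms
  have hXv : ‖X‖ = vv P e r := rfl
  have hXd : ‖X‖ ≤ P.d := by
    have := hvd e r hr0
    rw [he, one_mul] at this
    exact this
  have hd0 : 0 ≤ P.d := (norm_nonneg _).trans hXd
  have hopX : ‖op X‖ ≤ Real.sqrt 2 / t := by
    have := hopr e r hr0
    rw [he] at this
    refine this.trans (le_of_eq ?_)
    rw [hr]
    field_simp
  have h4 : 0 < 4 / ρ₁ := by positivity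
  have hGX : vv P e (12 * t) ≤ ‖G P (4 / ρ₁) X‖ := by
    rw [hX, hsemi _ _ _ h4 hr0]
    change vv P e (12 * t) ≤ vv P e (Real.sqrt ((4 / ρ₁) ^ 2 + r ^ 2))
    refine hanti e (Set.mem_Ioi.mpr (Real.sqrt_pos.mpr (by positivity)))
      (Set.mem_Ioi.mpr (by positivity)) ?_
    rw [show 12 * t = Real.sqrt ((12 * t) ^ 2) by rw [Real.sqrt_sq (by positivity)]]
    refine Real.sqrt_le_sqrt ?_
    rw [div_pow, hρ₁2, hr, div_pow, hs22]
    have e1 : 4 ^ 2 / ((1 + 8 * c ^ 2) / (8 * t ^ 2)) ≤ 128 * t ^ 2 := by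
      rw [div_le_iff₀ (by positivity)]
      have : 128 * t ^ 2 * ((1 + 8 * c ^ 2) / (8 * t ^ 2)) = 16 * (1 + 8 * c ^ 2) := by
        field_simp
        ring
      rw [this]
      nlinarith [sq_nonneg c]
    nlinarith [sq_nonneg t]
  have hmono : vv P e (12 * t) ≤ vv P e r := by
    refine hanti e (Set.mem_Ioi.mpr hr0) (Set.mem_Ioi.mpr (by positivity)) ?_
    rw [hr, div_le_iff₀ hs2]
    have : 1 ≤ Real.sqrt 2 := Real.one_le_sqrt.mpr (by norm_num)
    nlinarith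
  have hsq : Real.sqrt (‖X‖ * (‖X‖ - ‖G P (4 / ρ₁) X‖)) ≤
      Real.sqrt (P.d * (vv P e r - vv P e (12 * t))) := by
    refine Real.sqrt_le_sqrt ?_
    have h1 : ‖X‖ - ‖G P (4 / ρ₁) X‖ ≤ vv P e r - vv P e (12 * t) := by rw [← hXv]; linarith
    calc ‖X‖ * (‖X‖ - ‖G P (4 / ρ₁) X‖) ≤ ‖X‖ * (vv P e r - vv P e (12 * t)) :=
          mul_le_mul_of_nonneg_left h1 (norm_nonneg _)
      _ ≤ P.d * (vv P e r - vv P e (12 * t)) :=
          mul_le_mul_of_nonneg_right hXd (by linarith)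
  have hKle : K ≤ 40 * V * (Real.sqrt 2 / t) *
      Real.sqrt (P.d * (vv P e r - vv P e (12 * t))) := by
    rw [hK]
    exact mul_le_mul (mul_le_mul_of_nonneg_left hopX (by positivity)) hsq (Real.sqrt_nonneg _)
      (by positivity)
  have h62 : 40 * Real.sqrt 2 * (112 / 103) ≤ 62 := by
    have : Real.sqrt 2 ≤ 1.4143 := by
      rw [Real.sqrt_le_left (by norm_num)]
      norm_num
    nlinarith
  set S := Real.sqrt (P.d * (vv P e r - vv P e (12 * t))) with hS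
  have hS0 : 0 ≤ S := Real.sqrt_nonneg _
  calc (1 + 8 * c ^ 2) * K * (1 / (1 - 2 * σ ^ 2 * (ρ₁ ^ 2 / 28))) ≤
      (1 + 8 * c ^ 2) * K * (112 / 103) :=
        mul_le_mul_of_nonneg_left hval (by positivity)
    _ ≤ (1 + 8 * c ^ 2) * (40 * V * (Real.sqrt 2 / t) * S) * (112 / 103) := by
        refine mul_le_mul_of_nonneg_right (mul_le_mul_of_nonneg_left hKle hA'.le) (by norm_num)
    _ = (1 + 8 * c ^ 2) * (40 * Real.sqrt 2 * (112 / 103)) * V / t * S := by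
        field_simp
    _ ≤ (1 + 8 * c ^ 2) * 62 * V / t * S := by
        refine mul_le_mul_of_nonneg_right ?_ hS0
        refine div_le_div_of_nonneg_right ?_ ht.le
        exact mul_le_mul_of_nonneg_right (mul_le_mul_of_nonneg_left h62 hA'.le) hV0

end Pool.Bes
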