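import Pool.Agent.Work.Bes.KIA

/-! # Blocks OLG and CO -/

open MeasureTheory Complex
open scoped ComplexOrder InnerProductSpace ComplexConjugate

set_option autoImplicit false
set_option linter.unusedSectionVars false

universe v

namespace Pool.Bes.OLGB

open KIA
open WTB (gam_nonneg continuous_gam integral_gam integrable_gam)

theorem norm_syn_gm_le {a : ℂ → ℂ} (ha : Integrable a) {U : ℝ} (hU : ∀ z, ‖syn a z‖ ≤ U)
    {ρ : ℝ} (hρ : 0 < ρ) (z : ℂ) : ‖syn (gm ρ a) z‖ ≤ U := by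
  rw [WTB.syn_gm ha hρ]
  have h1 : ∀ n : ℂ, ‖(gam ρ n : ℂ) * syn a (z + n)‖ ≤ gam ρ n * U := by
    intro n
    rw [norm_mul, Complex.norm_real, Real.norm_eq_abs, abs_of_nonneg (gam_nonneg _ _)]
    exact mul_le_mul_of_nonneg_left (hU _) (gam_nonneg _ _)
  refine (norm_integral_le_of_norm_le ((integrable_gam hρ).mul_const U)
    (Filter.Eventually.of_forall h1)).trans ?_
  rw [integral_mul_const, integral_gam hρ, one_mul]

section

variable {H : Type v} [NormedAddCommGroup H] [InnerProductSpace ℂ H] [CompleteSpace H]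

theorem pair_d_nonneg (P : Pair H) : 0 ≤ P.d := by
  have h := P.hd 1
  have h1 := (norm_nonneg _).trans h
  rw [norm_one, one_mul] at h1
  exact h1

/-- `f(A + n)` -/
noncomputable def Sn (N : H →L[ℂ] H) (a : ℂ → ℂ) (n : ℂ) : H →L[ℂ] H :=
  fn (syn fun ξ => ch ξ n * a ξ) N

theorem integrable_ch_mul {a : ℂ → ℂ} (ha : Integrable a) (n : ℂ) :
    Integrable fun ξ => ch ξ n * a ξ := by
  refine (FNB.integrable_mul_ch a ha n).congr (Filter.Eventually.of_forall fun ξ => ?_)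
  simp only
  ring

theorem continuous_Sn (N : H →L[ℂ] H) (hN : IsStarNormal N) {a : ℂ → ℂ} (ha : Integrable a) :
    Continuous (Sn N a) := by
  have e : Sn N a = fun n => ∫ ξ, (ch ξ n * a ξ) • ex N ξ := by
    funext n
    exact FNB.fn_syn N hN _ (integrable_ch_mul ha n)
  rw [e]
  refine MeasureTheory.continuous_of_dominated (bound := fun ξ => ‖a ξ‖) ?_ ?_ ha.norm ?_
  · exact fun n => (FNB.integrable_smul_ex N _ (integrable_ch_mul ha n)).aestronglyMeasurable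
  · refine fun n => Filter.Eventually.of_forall fun ξ => ?_
    rw [norm_smul, norm_mul, EXB.norm_ch, one_mul]
    exact mul_le_of_le_one_right (norm_nonneg _) (EXB.norm_ex_le N ξ)
  · exact Filter.Eventually.of_forall fun ξ =>
      ((EXB.continuous_ch ξ).mul continuous_const).smul continuous_const

theorem norm_Sn_le (N : H →L[ℂ] H) {a : ℂ → ℂ} {U : ℝ} (hU : ∀ z, ‖syn a z‖ ≤ U) (n : ℂ) :
    ‖Sn N a n‖ ≤ U := by
  refine FNB.norm_fn_syn_le N _ U fun z => ?_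
  rw [FNB.syn_ch_mul]
  exact hU _

/-- the data of the block DU that we use -/
structure DuData (P : Pair H) : Prop where
  opD : ∀ ζ : ℂ, op (U P ζ) = ex P.A ζ * ex P.B (-ζ) - 1
  nm : ∀ ζ : ℂ, ‖U P ζ‖ ≤ ‖ζ‖ * P.d
  nop : ∀ ζ : ℂ, ‖op (U P ζ)‖ ≤ ‖ζ‖ * ‖P.A - P.B‖
  cont : Continuous (U P)
  opF : ∀ a : ℂ → ℂ, Wt a → op (Fd P a) = fn (syn a) P.A - fn (syn a) P.B

theorem duData (hDU : Stmt_Du.{v}) (P : Pair H) : DuData P := by
  obtain ⟨-, -, -, -, -, h6, h7, -, h9, -, h11, -, -, h14⟩ := hDU H P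
  exact ⟨h6, h7, h9, h11, fun a ha => (h14 a ha).2.1⟩

/-- the windows -/
noncomputable def Vr (P : Pair H) (r : ℂ) : S1 H := U P (-r)

theorem continuous_Vr {P : Pair H} (D : DuData P) : Continuous (Vr P) := D.cont.comp continuous_neg

theorem norm_Vr_le {P : Pair H} (D : DuData P) (r : ℂ) : ‖Vr P r‖ ≤ ‖r‖ * P.d := by
  have := D.nm (-r)
  rwa [norm_neg] at this

theorem op_Vr {P : Pair H} (D : DuData P) (r : ℂ) : op (Vr P r) = tO P (-r) 1 - 1 := by
  rw [Vr, D.opD, tO, mul_one]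

theorem continuous_tO {P : Pair H} : Continuous fun r : ℂ => tO P (-r) 1 := by
  unfold tO
  exact ((EXB.continuous_ex P.A).comp continuous_neg).mul continuous_const |>.mul
    ((EXB.continuous_ex P.B).comp (continuous_neg.comp continuous_neg))

theorem norm_tO_le {P : Pair H} (r : ℂ) : ‖tO P (-r) 1‖ ≤ 1 := by
  unfold tO
  have h1 := EXB.norm_ex_le P.A (-r)
  have h2 := EXB.norm_ex_le P.B (- -r)
  rw [mul_one]
  calc ‖ex P.A (-r) * ex P.B (- -r)‖ ≤ ‖ex P.A (-r)‖ * ‖ex P.B (- -r)‖ := norm_mul_le _ _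
    _ ≤ 1 * 1 := mul_le_mul h1 h2 (norm_nonneg _) zero_le_one
    _ = 1 := one_mul 1

/-- `Y - 1` as an element of `S1` -/
noncomputable def Y1 (P : Pair H) (ρ : ℝ) : S1 H := ∫ r : ℂ, (gam (1 / ρ) r : ℂ) • Vr P r

/-- `Y` -/
noncomputable def Yo (P : Pair H) (ρ : ℝ) : H →L[ℂ] H := ∫ r : ℂ, (gam (1 / ρ) r : ℂ) • tO P (-r) 1

theorem norm_gam_Vr_le {P : Pair H} (D : DuData P) (ρ : ℝ) (r : ℂ) :
    ‖(gam (1 / ρ) r : ℂ) • Vr P r‖ ≤ P.d * (‖r‖ * gam (1 / ρ) r) := by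
  rw [norm_smul, Complex.norm_real, Real.norm_eq_abs, abs_of_nonneg (gam_nonneg _ _)]
  have := mul_le_mul_of_nonneg_left (norm_Vr_le D r) (gam_nonneg (1 / ρ) r)
  linarith

theorem integrable_gam_Vr {P : Pair H} (D : DuData P) {ρ : ℝ} (hρ : 0 < ρ) :
    Integrable fun r : ℂ => (gam (1 / ρ) r : ℂ) • Vr P r := by
  refine Integrable.mono' ((integrable_norm_gam (s := 1 / ρ) (by positivity)).const_mul P.d) ?_
    (Filter.Eventually.of_forall fun r => norm_gam_Vr_le D ρ r)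
  exact ((Complex.continuous_ofReal.comp (continuous_gam _)).smul
    (continuous_Vr D)).aestronglyMeasurable

theorem norm_Y1_le {P : Pair H} (D : DuData P) {ρ : ℝ} (hρ : 0 < ρ) :
    ‖Y1 P ρ‖ ≤ Real.sqrt 2 * P.d / ρ := by
  refine (norm_integral_le_of_norm_le
    ((integrable_norm_gam (s := 1 / ρ) (by positivity)).const_mul P.d)
    (Filter.Eventually.of_forall fun r => norm_gam_Vr_le D ρ r)).trans ?_
  rw [integral_const_mul]
  refine (mul_le_mul_of_nonneg_left (integral_norm_gam_le (s := 1 / ρ) (by positivity))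
    (pair_d_nonneg P)).trans (le_of_eq ?_)
  ring

theorem op_Y1 {P : Pair H} (D : DuData P) {ρ : ℝ} (hρ : 0 < ρ) :
    op (Y1 P ρ) = Yo P ρ - 1 := by
  have hg : Integrable fun r : ℂ => (gam (1 / ρ) r : ℂ) :=
    (integrable_gam (by positivity : 0 < 1 / ρ)).ofReal
  have h1 : Integrable fun r : ℂ => (gam (1 / ρ) r : ℂ) • tO P (-r) 1 := by
    refine Integrable.mono' hg.norm ?_ (Filter.Eventually.of_forall fun r => ?_)
    · exact ((Complex.continuous_ofReal.comp (continuous_gam _)).smul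
        continuous_tO).aestronglyMeasurable
    · rw [norm_smul]
      exact mul_le_of_le_one_right (norm_nonneg _) (norm_tO_le r)
  have h2 : Integrable fun r : ℂ => (gam (1 / ρ) r : ℂ) • (1 : H →L[ℂ] H) := hg.smul_const _
  unfold Y1 Yo
  rw [← (op (H := H)).integral_comp_comm (integrable_gam_Vr D hρ)]
  simp_rw [map_smul, op_Vr D, smul_sub]
  rw [integral_sub h1 h2, integral_smul_const, integral_complex_ofReal,
    integral_gam (by positivity : 0 < 1 / ρ), Complex.ofReal_one, one_smul]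

/-- the operator of the double integral -/
theorem op_K {P : Pair H} (D : DuData P) (hKI : Stmt_KI.{v}) {ρ : ℝ} (hρ : 0 < ρ)
    {a : ℂ → ℂ} (ha : Integrable a) {U : ℝ} (hU : ∀ z, ‖syn a z‖ ≤ U) :
    op (Kd ρ (Sn P.A a) (Vr P)) =
      fn (syn (gm ρ a)) P.A * Yo P ρ - Yo P ρ * fn (syn (gm ρ a)) P.B := by
  have hgi : Integrable fun n => U * Qn ρ n := (integrable_Qn hρ).const_mul U
  rw [op_Kd hρ (Sn P.A a) (continuous_Sn P.A P.hA ha) (fun _ => U)
    (norm_Sn_le P.A hU) hgi (Vr P) (continuous_Vr D) P.d (pair_d_nonneg P) (norm_Vr_le D)]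
  have h := hKI H P 1 a ha ρ hρ 0
  rw [EXB.ex_zero P.A P.hA, EXB.ex_zero P.B P.hB, mul_one, mul_one] at h
  unfold Yo
  rw [h]
  congr 1
  funext n
  rw [mul_one, Sn]
  congr 1
  have hPs : Integrable fun r : ℂ => Ps ρ n r := by
    have h1 : Integrable fun r : ℂ => (gam ρ n : ℂ) * gam (1 / ρ) r :=
      ((integrable_gam (by positivity : 0 < 1 / ρ)).ofReal (𝕜 := ℂ)).const_mul _
    have h2 : Integrable fun r : ℂ => Lam ρ n r := by
      refine Integrable.mono' ((integrable_gam (by positivity : 0 < Real.sqrt 2 / ρ)).const_mul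
        (2 * gam (Real.sqrt 2 * ρ) n)) ?_ ?_
      · exact ((continuous_Lam ρ).comp (Continuous.prodMk_right n)).aestronglyMeasurable
      · exact Filter.Eventually.of_forall fun r => (norm_Lam hρ n r).le
    exact h1.sub h2
  have h1 : Integrable fun r : ℂ => Ps ρ n r • tO P (-r) 1 := by
    refine Integrable.mono' hPs.norm ?_ (Filter.Eventually.of_forall fun r => ?_)
    · exact (((continuous_Ps ρ).comp (Continuous.prodMk_right n)).smul
        continuous_tO).aestronglyMeasurable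
    · rw [norm_smul]
      exact mul_le_of_le_one_right (norm_nonneg _) (norm_tO_le r)
  have h2 : Integrable fun r : ℂ => Ps ρ n r • (1 : H →L[ℂ] H) := hPs.smul_const _
  simp_rw [op_Vr D, smul_sub]
  rw [integral_sub h1 h2, integral_smul_const, integral_Ps_right hρ, zero_smul, sub_zero]
  simp only [sub_zero, Ps]

theorem Fd_eq {P : Pair H} (D : DuData P) (hKI : Stmt_KI.{v}) {ρ : ℝ} (hρ : 0 < ρ)
    {a : ℂ → ℂ} (ha : Wt a) {U : ℝ} (hU : ∀ z, ‖syn a z‖ ≤ U) :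
    Fd P (gm ρ a) = Kd ρ (Sn P.A a) (Vr P) - (lm (fn (syn (gm ρ a)) P.A) (Y1 P ρ) -
      rm (fn (syn (gm ρ a)) P.B) (Y1 P ρ)) := by
  rw [← sub_eq_zero]
  refine ALGAux.eq_zero_of_op _ ?_
  rw [map_sub, map_sub, map_sub, ALGAux.op_lm, ALGAux.op_rm, op_K D hKI hρ
    (WTB.wt_integrable ha) hU, D.opF _ (WTB.wt_gm ha ρ), op_Y1 D hρ]
  noncomm_ring

theorem norm_Fd_le {P : Pair H} (D : DuData P) (hKI : Stmt_KI.{v}) {ρ : ℝ} (hρ : 0 < ρ)
    {a : ℂ → ℂ} (ha : Wt a) {U : ℝ} (hU : ∀ z, ‖syn a z‖ ≤ U) :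
    ‖Fd P (gm ρ a)‖ ≤ 9 * U * P.d / ρ := by
  have hU0 : 0 ≤ U := (norm_nonneg _).trans (hU 0)
  have hd := pair_d_nonneg P
  have hai := WTB.wt_integrable ha
  have hgi : Integrable fun n => U * Qn ρ n := (integrable_Qn hρ).const_mul U
  have hK := (integrable_Kd hρ (Sn P.A a) (continuous_Sn P.A P.hA hai) (fun _ => U)
    (norm_Sn_le P.A hU) hgi (Vr P) (continuous_Vr D) P.d hd (norm_Vr_le D)).2
  rw [integral_const_mul, integral_Qn hρ] at hK
  have hUg := norm_syn_gm_le hai hU hρ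
  have h1 : ‖lm (fn (syn (gm ρ a)) P.A) (Y1 P ρ)‖ ≤ U * (Real.sqrt 2 * P.d / ρ) :=
    (ALGAux.norm_lm_le _ _).trans (mul_le_mul (FNB.norm_fn_syn_le _ _ _ hUg) (norm_Y1_le D hρ)
      (norm_nonneg _) hU0)
  have h2 : ‖rm (fn (syn (gm ρ a)) P.B) (Y1 P ρ)‖ ≤ U * (Real.sqrt 2 * P.d / ρ) :=
    (ALGAux.norm_rm_le _ _).trans (mul_le_mul (FNB.norm_fn_syn_le _ _ _ hUg) (norm_Y1_le D hρ)
      (norm_nonneg _) hU0)
  rw [Fd_eq D hKI hρ ha hU]
  have h3 : ‖Kd ρ (Sn P.A a) (Vr P) - (lm (fn (syn (gm ρ a)) P.A) (Y1 P ρ) -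
      rm (fn (syn (gm ρ a)) P.B) (Y1 P ρ))‖ ≤ P.d * (U * ((Real.sqrt 2 + 4) / ρ)) +
      (U * (Real.sqrt 2 * P.d / ρ) + U * (Real.sqrt 2 * P.d / ρ)) :=
    (norm_sub_le _ _).trans (add_le_add hK ((norm_sub_le _ _).trans (add_le_add h1 h2)))
  refine h3.trans ?_
  have h4 : P.d * (U * ((Real.sqrt 2 + 4) / ρ)) +
      (U * (Real.sqrt 2 * P.d / ρ) + U * (Real.sqrt 2 * P.d / ρ)) =
      (3 * Real.sqrt 2 + 4) * (U * P.d / ρ) := by ring
  have h5 : 9 * U * P.d / ρ = 9 * (U * P.d / ρ) := by ring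
  have h6 : Real.sqrt 2 ≤ 1.5 := by
    rw [Real.sqrt_le_left (by norm_num)]
    norm_num
  rw [h4, h5]
  refine mul_le_mul_of_nonneg_right ?_ (by positivity)
  linarith

end

end Pool.Bes.OLGB

namespace Pool.Bes

theorem blk_OLG (hDU : Stmt_Du.{v}) (hKI : Stmt_KI.{v}) : Stmt_OLG.{v} := by
  intro H _ _ _ P a ha U hU ρ hρ
  exact OLGB.norm_Fd_le (OLGB.duData hDU P) hKI hρ ha hU

end Pool.Bes
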