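import Pool.Agent.Work.Bes.Interface

/-!
# Block PIN: pinching
-/

open MeasureTheory Complex
open scoped ComplexOrder InnerProductSpace ComplexConjugate

set_option autoImplicit false
set_option linter.unusedSectionVars false

universe v

namespace Pool.Bes

namespace PinBlock

variable {H : Type v} [NormedAddCommGroup H] [InnerProductSpace ℂ H] [CompleteSpace H]

theorem norm_pr_le (X : S1 H) (Y : H →L[ℂ] H) : ‖pr X Y‖ ≤ ‖X‖ * ‖Y‖ :=
  (X.toDual.le_opNorm Y)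

theorem pr_sw (S T : H →L[ℂ] H) (X : S1 H) (Y : H →L[ℂ] H) :
    pr (sw S T X) Y = pr X (T * (Y * S)) := rfl

theorem norm_sum_le (n : ℕ) (C C' Z : Fin n → H →L[ℂ] H)
    (hC : ∀ x : H, ∑ i, ‖C i x‖ ^ 2 ≤ ‖x‖ ^ 2) (hC' : ∀ x : H, ∑ i, ‖star (C' i) x‖ ^ 2 ≤ ‖x‖ ^ 2)
    (hZ : ∀ i, ‖Z i‖ ≤ 1) : ‖∑ i, C' i * (Z i * C i)‖ ≤ 1 := by
  refine ContinuousLinearMap.opNorm_le_bound _ zero_le_one fun x => ?_
  rw [one_mul]
  set S : H →L[ℂ] H := ∑ i, C' i * (Z i * C i) with hS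
  have h1 : ‖S x‖ ^ 2 ≤ ‖S x‖ * ‖x‖ := by
    have h2 : ((‖S x‖ ^ 2 : ℝ) : ℂ) = ∑ i, ⟪star (C' i) (S x), Z i (C i x)⟫_ℂ := by
      have h3 : ⟪S x, S x⟫_ℂ = ∑ i, ⟪star (C' i) (S x), Z i (C i x)⟫_ℂ := by
        have h4 : S x = ∑ i, C' i (Z i (C i x)) := by
          rw [hS, _root_.sum_apply]
          rfl
        conv_lhs => rw [h4]
        rw [← h4]
        have h5 : ⟪S x, ∑ i, C' i (Z i (C i x))⟫_ℂ = ∑ i, ⟪S x, C' i (Z i (C i x))⟫_ℂ :=
          inner_sum _ _ _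
        rw [← h4] at h5
        rw [h5]
        refine Finset.sum_congr rfl fun i _ => ?_
        rw [ContinuousLinearMap.star_eq_adjoint, ContinuousLinearMap.adjoint_inner_left]
      rw [← h3, inner_self_eq_norm_sq_to_K]
      norm_cast
    have h6 : ‖S x‖ ^ 2 ≤ ∑ i, ‖star (C' i) (S x)‖ * ‖C i x‖ := by
      have h7 : ‖((‖S x‖ ^ 2 : ℝ) : ℂ)‖ ≤ ∑ i, ‖star (C' i) (S x)‖ * ‖C i x‖ := by
        rw [h2]
        refine (_root_.norm_sum_le _ _).trans (Finset.sum_le_sum fun i _ => ?_)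
        refine (norm_inner_le_norm _ _).trans ?_
        refine mul_le_mul_of_nonneg_left ?_ (norm_nonneg _)
        refine ((Z i).le_opNorm _).trans ?_
        exact mul_le_of_le_one_left (norm_nonneg _) (hZ i)
      rwa [Complex.norm_real, Real.norm_of_nonneg (by positivity)] at h7
    have h8 : (∑ i, ‖star (C' i) (S x)‖ * ‖C i x‖) ^ 2 ≤ (‖S x‖ * ‖x‖) ^ 2 := by
      refine (Finset.sum_mul_sq_le_sq_mul_sq _ _ _).trans ?_
      rw [mul_pow]
      exact mul_le_mul (hC' _) (hC _) (Finset.sum_nonneg fun i _ => by positivity) (by positivity)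
    exact h6.trans (abs_le_of_sq_le_sq' h8 (by positivity)).2
  rcases (norm_nonneg (S x)).eq_or_lt with h | h
  · rw [← h]; exact norm_nonneg _
  · nlinarith

end PinBlock

open PinBlock in
theorem blk_PIN : Stmt_Pol.{v} → Stmt_AL.{v} → Stmt_Pin.{v} := by
  intro hPol hAL H _ _ _ X n C C' hC hC'
  have h0 : ∀ i, ∃ Z : H →L[ℂ] H, ‖Z‖ ≤ 1 ∧
      pr (sw (C i) (C' i) X) (star Z) = (‖sw (C i) (C' i) X‖ : ℂ) := by
    intro i
    obtain ⟨W, ω, hW⟩ := hPol H (sw (C i) (C' i) X)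
    exact ⟨W, hW.1, (hAL H _ W ω hW).2.1⟩
  choose Z hZ1 hZ2 using h0
  have h1 : ((∑ i, ‖sw (C i) (C' i) X‖ : ℝ) : ℂ) = pr X (∑ i, C' i * (star (Z i) * C i)) := by
    have : pr X (∑ i, C' i * (star (Z i) * C i)) = ∑ i, pr X (C' i * (star (Z i) * C i)) := by
      unfold pr
      exact map_sum _ _ _
    rw [this, Complex.ofReal_sum]
    refine Finset.sum_congr rfl fun i _ => ?_
    rw [← hZ2 i, pr_sw]
  have h2 : ‖((∑ i, ‖sw (C i) (C' i) X‖ : ℝ) : ℂ)‖ ≤ ‖X‖ := by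
    rw [h1]
    refine (norm_pr_le _ _).trans ?_
    refine mul_le_of_le_one_right (norm_nonneg _) ?_
    refine norm_sum_le n C C' (fun i => star (Z i)) hC hC' fun i => ?_
    rw [norm_star]
    exact hZ1 i
  rwa [Complex.norm_real, Real.norm_of_nonneg (Finset.sum_nonneg fun i _ => norm_nonneg _)] at h2

end Pool.Bes
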