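import Pool.Agent.Work.Bes.ALG

/-!
# Block POL: the polar decomposition of a trace class operator
-/

open MeasureTheory Complex
open scoped ComplexOrder InnerProductSpace ComplexConjugate

set_option autoImplicit false
set_option linter.unusedSectionVars false

universe v

namespace Pool.Bes

namespace POLAux

open ALGAux

variable {H : Type v} [NormedAddCommGroup H] [InnerProductSpace ℂ H] [CompleteSpace H]

theorem norm_abs_apply (T : H →L[ℂ] H) (x : H) : ‖CFC.abs T x‖ = ‖T x‖ := by
  have h1 : star (CFC.abs T) = CFC.abs T := (CFC.abs_nonneg T).isSelfAdjoint.star_eq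
  have h2 : ‖CFC.abs T x‖ ^ 2 = ‖T x‖ ^ 2 := by
    have h3 : ∀ S : H →L[ℂ] H, ((‖S x‖ ^ 2 : ℝ) : ℂ) = ⟪x, (star S * S) x⟫_ℂ := by
      intro S
      change _ = ⟪x, (star S) (S x)⟫_ℂ
      rw [ContinuousLinearMap.star_eq_adjoint, ContinuousLinearMap.adjoint_inner_right,
        inner_self_eq_norm_sq_to_K]
      norm_cast
    have h4 := h3 (CFC.abs T)
    rw [h1, CFC.abs_mul_abs, ← h3 T] at h4
    exact_mod_cast h4
  have h5 := (sq_eq_sq₀ (norm_nonneg _) (norm_nonneg _)).1 h2
  exact h5

/-- The polar decomposition of a bounded operator. -/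
theorem exists_polar (T : H →L[ℂ] H) : ∃ W : H →L[ℂ] H, ‖W‖ ≤ 1 ∧ T = W * CFC.abs T ∧
    star W * T = CFC.abs T := by
  set R := CFC.abs T with hR
  set K : Submodule ℂ H := (LinearMap.range R.toLinearMap).topologicalClosure with hK
  have : CompleteSpace K := (Submodule.isClosed_topologicalClosure _).completeSpace_coe
  have hmem : ∀ x, R x ∈ K := fun x =>
    (LinearMap.range R.toLinearMap).le_topologicalClosure ⟨x, rfl⟩
  let e : H →ₗ[ℂ] K := R.toLinearMap.codRestrict K hmem
  have he : ∀ x, ((e x : K) : H) = R x := fun x => rfl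
  have hn : ∀ x, ‖T.toLinearMap x‖ = ‖e x‖ := by
    intro x
    change ‖T x‖ = ‖R x‖
    rw [norm_abs_apply]
  have hdense : DenseRange e := by
    intro k
    rw [Metric.mem_closure_iff]
    intro ε hε
    have hk : (k : H) ∈ closure (LinearMap.range R.toLinearMap : Set H) := k.2
    obtain ⟨_, ⟨x, rfl⟩, hd⟩ := Metric.mem_closure_iff.1 hk ε hε
    exact ⟨e x, ⟨x, rfl⟩, hd⟩
  let W0 : K →L[ℂ] H := T.toLinearMap.extendOfNorm e
  have hW0 : ∀ x, W0 (e x) = T x := fun x =>
    LinearMap.extendOfNorm_eq hdense ⟨1, fun y => by rw [one_mul]; exact (hn y).le⟩ x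
  have hiso : ∀ k : K, ‖W0 k‖ = ‖k‖ := by
    refine hdense.induction ?_ (isClosed_eq (by fun_prop) (by fun_prop))
    rintro _ ⟨x, rfl⟩
    rw [hW0]
    exact hn x
  let WI : K →ₗᵢ[ℂ] H := ⟨W0.toLinearMap, hiso⟩
  let W : H →L[ℂ] H := W0.comp K.orthogonalProjectionOnto
  have hWR : ∀ x, W (R x) = T x := by
    intro x
    change W0 (K.orthogonalProjectionOnto (R x)) = T x
    have : K.orthogonalProjectionOnto (R x) = e x := by
      have := Submodule.orthogonalProjectionOnto_mem_subspace_eq_self (K := K) (e x)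
      exact this
    rw [this, hW0]
  have hWn : ‖W‖ ≤ 1 := by
    refine ContinuousLinearMap.opNorm_le_bound _ zero_le_one fun x => ?_
    change ‖W0 (K.orthogonalProjectionOnto x)‖ ≤ 1 * ‖x‖
    rw [hiso, one_mul]
    exact K.norm_orthogonalProjectionOnto_apply_le x
  have hWW : ∀ x, (star W) (W (R x)) = R x := by
    intro x
    refine ext_inner_left ℂ fun y => ?_
    rw [ContinuousLinearMap.star_eq_adjoint, ContinuousLinearMap.adjoint_inner_right]
    change ⟪W0 (K.orthogonalProjectionOnto y), W0 (K.orthogonalProjectionOnto (R x))⟫_ℂ = _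
    have h1 : ⟪W0 (K.orthogonalProjectionOnto y), W0 (K.orthogonalProjectionOnto (R x))⟫_ℂ =
        ⟪K.orthogonalProjectionOnto y, K.orthogonalProjectionOnto (R x)⟫_ℂ := WI.inner_map_map _ _
    rw [h1]
    have h2 : K.orthogonalProjectionOnto (R x) = e x :=
      Submodule.orthogonalProjectionOnto_mem_subspace_eq_self (K := K) (e x)
    rw [h2, Submodule.coe_inner, he]
    have h3 := Submodule.inner_orthogonalProjectionOnto_eq_of_mem_right (K := K) (e x) y
    rw [Submodule.coe_inner] at h3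
    exact h3
  refine ⟨W, hWn, ?_, ?_⟩
  · ext x
    exact (hWR x).symm
  · ext x
    change (star W) (T x) = R x
    rw [← hWR x]
    exact hWW x

theorem pos_of_op (ω : S1 H) (h : 0 ≤ op ω) : Pos ω := by
  intro Y
  set ω' : S1 H := lm Y (rm (star Y) ω) with hω'
  have hpr : ∀ S, pr ω' S = pr ω (star Y * (S * Y)) := by
    intro S
    rw [hω', pr_lm, pr_rm]
  have hop : op ω' = Y * op ω * star Y := by
    rw [hω', op_lm, op_rm, mul_assoc]
  have hop0 : 0 ≤ op ω' := by
    rw [hop]
    exact star_right_conjugate_nonneg h Y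
  have h1 : pr ω (star Y * Y) = pr ω' 1 := by rw [hpr, one_mul]
  rw [h1]
  have hcl : IsClosed {z : ℂ | 0 ≤ z} := isClosed_Ici
  refine hcl.closure_subset ?_
  rw [Metric.mem_closure_iff]
  intro ε hε
  by_cases hH : ‖(1 : H →L[ℂ] H)‖ = 0
  · refine ⟨0, (le_refl (0 : ℂ)), ?_⟩
    have : (1 : H →L[ℂ] H) = 0 := norm_eq_zero.1 hH
    rw [this]
    have h0 : pr ω' (0 : H →L[ℂ] H) = 0 := map_zero ω'.toDual
    rw [h0, dist_self]
    exact hε
  · obtain ⟨K, hK, hp⟩ := exists_proj ω' (ε / 2) (by positivity)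
    refine ⟨pr ω' (1 * K.starProjection), ?_, ?_⟩
    · change 0 ≤ pr ω' (1 * K.starProjection)
      rw [mul_proj]
      have : pr ω' (∑ i, r1 ((1 : H →L[ℂ] H) (stdOrthonormalBasis ℂ K i : H))
          (stdOrthonormalBasis ℂ K i : H)) = ∑ i, ⟪(stdOrthonormalBasis ℂ K i : H),
            op ω' (stdOrthonormalBasis ℂ K i : H)⟫_ℂ := by
        unfold pr
        rw [map_sum]
        refine Finset.sum_congr rfl fun i _ => ?_
        rw [inner_op]
        rfl
      rw [this]
      refine Finset.sum_nonneg fun i _ => ?_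
      have hp0 : (op ω').IsPositive := (ContinuousLinearMap.nonneg_iff_isPositive _).1 hop0
      exact hp0.inner_nonneg_right _
    · rw [dist_eq_norm]
      refine ((hp 1).1.trans ?_).trans_lt (half_lt_self hε)
      have : ‖(1 : H →L[ℂ] H)‖ ≤ 1 := ContinuousLinearMap.norm_id_le
      nlinarith

end POLAux

open ALGAux POLAux in
/-- Block POL. -/
theorem blk_POL : Stmt_Alg.{v} → Stmt_Pol.{v} := by
  intro _ H _ _ _ X
  obtain ⟨W, hW, h1, h2⟩ := exists_polar (op X)
  have hop : op (lm (star W) X) = CFC.abs (op X) := by rw [op_lm, h2]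
  refine ⟨W, lm (star W) X, hW, pos_of_op _ ?_, ?_, rfl⟩
  · rw [hop]
    exact CFC.abs_nonneg _
  · have : op (X - lm W (lm (star W) X)) = 0 := by
      rw [map_sub, op_lm, hop, ← h1, sub_self]
    exact (sub_eq_zero.1 (eq_zero_of_op _ this))

end Pool.Bes
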