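import Pool.Agent.Work.Bes.Interface

/-!
# Block POS: positive elements of `S1` (helper68)
-/

open MeasureTheory Complex
open scoped ComplexOrder InnerProductSpace ComplexConjugate

set_option autoImplicit false
set_option linter.unusedSectionVars false

universe v

namespace Pool.Bes

namespace PosBlock

variable {H : Type v} [NormedAddCommGroup H] [InnerProductSpace ℂ H] [CompleteSpace H]

theorem pr_add (ω : S1 H) (Y Z : H →L[ℂ] H) : pr ω (Y + Z) = pr ω Y + pr ω Z :=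
  map_add ω.toDual Y Z

theorem pr_sub (ω : S1 H) (Y Z : H →L[ℂ] H) : pr ω (Y - Z) = pr ω Y - pr ω Z :=
  map_sub ω.toDual Y Z

theorem pr_smul (ω : S1 H) (c : ℂ) (Y : H →L[ℂ] H) : pr ω (c • Y) = c * pr ω Y :=
  map_smul ω.toDual c Y

theorem pr_nonneg {ω : S1 H} (hω : Pos ω) (Y : H →L[ℂ] H) (hY : 0 ≤ Y) : 0 ≤ pr ω Y := by
  obtain ⟨S, rfl⟩ := CStarAlgebra.nonneg_iff_eq_star_mul_self.1 hY
  exact hω S

theorem pr_mono {ω : S1 H} (hω : Pos ω) (Y Z : H →L[ℂ] H) (h : Y ≤ Z) :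
    (pr ω Y).re ≤ (pr ω Z).re := by
  have h1 := pr_nonneg hω (Z - Y) (sub_nonneg.2 h)
  rw [pr_sub] at h1
  have h2 := (Complex.le_def.1 h1).1
  rw [Complex.zero_re, Complex.sub_re] at h2
  linarith

theorem symm {ω : S1 H} (hω : Pos ω) (Y Z : H →L[ℂ] H) :
    pr ω (star Z * Y) = conj (pr ω (star Y * Z)) := by
  have h1 := (Complex.le_def.1 (hω (Y + Z))).2
  have h2 := (Complex.le_def.1 (hω (Y + Complex.I • Z))).2
  have hY := (Complex.le_def.1 (hω Y)).2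
  have hZ := (Complex.le_def.1 (hω Z)).2
  rw [star_add, add_mul, mul_add, mul_add, pr_add, pr_add, pr_add] at h1
  rw [star_add, add_mul, mul_add, mul_add, pr_add, pr_add, pr_add, star_smul, smul_mul_assoc,
    smul_mul_assoc, mul_smul_comm, mul_smul_comm, pr_smul, pr_smul, pr_smul, pr_smul] at h2
  simp only [Complex.zero_im, Complex.add_im, Complex.mul_im, Complex.mul_re, Complex.I_re,
    Complex.I_im, Complex.star_def, Complex.conj_I, Complex.neg_re, Complex.neg_im] at h1 h2 hY hZ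
  apply Complex.ext
  · rw [Complex.conj_re]
    linarith
  · rw [Complex.conj_im]
    linarith

theorem sn_sq {ω : S1 H} (hω : Pos ω) (Y : H →L[ℂ] H) :
    sn ω Y ^ 2 = (pr ω (star Y * Y)).re := by
  have h := (Complex.le_def.1 (hω Y)).1
  rw [Complex.zero_re] at h
  exact Real.sq_sqrt h

theorem sn_nonneg (ω : S1 H) (Y : H →L[ℂ] H) : 0 ≤ sn ω Y := Real.sqrt_nonneg _

/-- the semi-inner product -/
@[reducible] noncomputable def core (ω : S1 H) (hω : Pos ω) : PreInnerProductSpace.Core ℂ (H →L[ℂ] H) where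
  inner Y Z := pr ω (star Y * Z)
  conj_inner_symm Y Z := by
    show conj (pr ω (star Z * Y)) = pr ω (star Y * Z)
    rw [symm hω Y Z, Complex.conj_conj]
  re_inner_nonneg Y := by
    have h := (Complex.le_def.1 (hω Y)).1
    rw [Complex.zero_re] at h
    exact h
  add_left Y Y' Z := by
    show pr ω (star (Y + Y') * Z) = pr ω (star Y * Z) + pr ω (star Y' * Z)
    rw [star_add, add_mul, pr_add]
  smul_left Y Z c := by
    show pr ω (star (c • Y) * Z) = conj c * pr ω (star Y * Z)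
    rw [star_smul, smul_mul_assoc, pr_smul]
    rfl

theorem cs_ineq {ω : S1 H} (hω : Pos ω) (Y Z : H →L[ℂ] H) :
    ‖pr ω (star Y * Z)‖ ≤ sn ω Y * sn ω Z := by
  have h := @InnerProductSpace.Core.inner_mul_inner_self_le ℂ (H →L[ℂ] H) _ _ _ (core ω hω) Y Z
  have h1 : ‖pr ω (star Y * Z)‖ * ‖pr ω (star Z * Y)‖ ≤
      (pr ω (star Y * Y)).re * (pr ω (star Z * Z)).re := h
  rw [symm hω Y Z, Complex.norm_conj, ← sn_sq hω, ← sn_sq hω] at h1
  have h2 : ‖pr ω (star Y * Z)‖ ^ 2 ≤ (sn ω Y * sn ω Z) ^ 2 := by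
    rw [mul_pow, pow_two ‖pr ω (star Y * Z)‖]
    exact h1
  exact (pow_le_pow_iff_left₀ (norm_nonneg _)
    (mul_nonneg (sn_nonneg _ _) (sn_nonneg _ _)) two_ne_zero).1 h2

theorem sn_add {ω : S1 H} (hω : Pos ω) (Y Z : H →L[ℂ] H) :
    sn ω (Y + Z) ≤ sn ω Y + sn ω Z := by
  have h1 := sn_sq hω (Y + Z)
  rw [star_add, add_mul, mul_add, mul_add, pr_add, pr_add, pr_add, symm hω Y Z] at h1
  simp only [Complex.add_re, Complex.conj_re] at h1
  have h2 := (Complex.re_le_norm _).trans (cs_ineq hω Y Z)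
  have h3 := sn_sq hω Y
  have h4 := sn_sq hω Z
  have h5 : sn ω (Y + Z) ^ 2 ≤ (sn ω Y + sn ω Z) ^ 2 := by
    nlinarith
  exact (pow_le_pow_iff_left₀ (sn_nonneg _ _)
    (add_nonneg (sn_nonneg _ _) (sn_nonneg _ _)) two_ne_zero).1 h5

theorem sn_mul {ω : S1 H} (hω : Pos ω) (S Y : H →L[ℂ] H) :
    sn ω (S * Y) ≤ ‖S‖ * sn ω Y := by
  have h1 : star S * S ≤ algebraMap ℝ (H →L[ℂ] H) (‖S‖ ^ 2) := by
    have := (IsSelfAdjoint.star_mul_self S).le_algebraMap_norm_self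
    rwa [CStarRing.norm_star_mul_self, ← pow_two] at this
  have h2 : star Y * (star S * S) * Y ≤ star Y * algebraMap ℝ (H →L[ℂ] H) (‖S‖ ^ 2) * Y :=
    star_left_conjugate_le_conjugate h1 Y
  have h3 := pr_mono hω _ _ h2
  have e1 : star Y * (star S * S) * Y = star (S * Y) * (S * Y) := by
    rw [star_mul]
    simp only [mul_assoc]
  have e2 : star Y * algebraMap ℝ (H →L[ℂ] H) (‖S‖ ^ 2) * Y =
      ((‖S‖ ^ 2 : ℝ) : ℂ) • (star Y * Y) := by
    rw [Algebra.algebraMap_eq_smul_one, mul_smul_comm, mul_one, smul_mul_assoc]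
    exact (Complex.coe_smul (‖S‖ ^ 2) (star Y * Y)).symm
  rw [e1, e2, pr_smul, Complex.re_ofReal_mul, ← sn_sq hω, ← sn_sq hω, ← mul_pow] at h3
  exact (pow_le_pow_iff_left₀ (sn_nonneg _ _)
    (mul_nonneg (norm_nonneg _) (sn_nonneg _ _)) two_ne_zero).1 h3

theorem pr_one {ω : S1 H} (hω : Pos ω) : pr ω 1 = (‖ω‖ : ℂ) := by
  have h0 := hω 1
  rw [star_one, one_mul] at h0
  have hre : pr ω 1 = ((pr ω 1).re : ℂ) := by
    apply Complex.ext
    · rw [Complex.ofReal_re]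
    · rw [Complex.ofReal_im]
      exact (Complex.le_def.1 h0).2.symm
  have hnn : 0 ≤ (pr ω 1).re := (Complex.le_def.1 h0).1
  have h1 : ‖ω.toDual‖ ≤ (pr ω 1).re := by
    refine ContinuousLinearMap.opNorm_le_bound _ hnn fun Y => ?_
    have h2 := cs_ineq hω 1 Y
    rw [star_one, one_mul] at h2
    have h3 := sn_mul hω Y 1
    rw [mul_one] at h3
    have h4 := sn_sq hω 1
    rw [star_one, one_mul] at h4
    have h5 : sn ω 1 * sn ω Y ≤ (pr ω 1).re * ‖Y‖ := by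
      calc sn ω 1 * sn ω Y ≤ sn ω 1 * (‖Y‖ * sn ω 1) :=
            mul_le_mul_of_nonneg_left h3 (sn_nonneg ω 1)
        _ = sn ω 1 ^ 2 * ‖Y‖ := by ring
        _ = (pr ω 1).re * ‖Y‖ := by rw [h4]
    exact h2.trans h5
  have h2 : (pr ω 1).re ≤ ‖ω.toDual‖ := by
    have h3 : ‖pr ω 1‖ ≤ ‖ω.toDual‖ * ‖(1 : H →L[ℂ] H)‖ := ω.toDual.le_opNorm 1
    have h4 : ‖(1 : H →L[ℂ] H)‖ ≤ 1 := ContinuousLinearMap.norm_id_le
    have h5 := Complex.re_le_norm (pr ω 1)
    have h6 := mul_le_mul_of_nonneg_left h4 (norm_nonneg ω.toDual)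
    linarith
  rw [hre, ← S1.norm_toDual, le_antisymm h2 h1]

theorem sn_one {ω : S1 H} (hω : Pos ω) : sn ω 1 = Real.sqrt ‖ω‖ := by
  unfold sn
  rw [star_one, one_mul, pr_one hω, Complex.ofReal_re]

theorem sn_le {ω : S1 H} (hω : Pos ω) (Y : H →L[ℂ] H) : sn ω Y ≤ ‖Y‖ * Real.sqrt ‖ω‖ := by
  have h := sn_mul hω Y 1
  rwa [mul_one, sn_one hω] at h

theorem r1_nonneg (x : H) : (0 : H →L[ℂ] H) ≤ r1 x x := by
  rw [ContinuousLinearMap.nonneg_iff_isPositive, ContinuousLinearMap.isPositive_iff_complex]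
  intro z
  have h : ⟪r1 x x z, z⟫_ℂ = ((‖⟪x, z⟫_ℂ‖ ^ 2 : ℝ) : ℂ) := by
    rw [r1_apply, inner_smul_left, ← Complex.normSq_eq_norm_sq, Complex.normSq_eq_conj_mul_self]
  rw [h]
  refine ⟨?_, ?_⟩
  · show ((((‖⟪x, z⟫_ℂ‖ ^ 2 : ℝ) : ℂ).re : ℝ) : ℂ) = _
    rw [Complex.ofReal_re]
  · show 0 ≤ ((‖⟪x, z⟫_ℂ‖ ^ 2 : ℝ) : ℂ).re
    rw [Complex.ofReal_re]
    positivity

theorem op_nonneg {ω : S1 H} (hω : Pos ω) : 0 ≤ op ω := by
  rw [ContinuousLinearMap.nonneg_iff_isPositive, ContinuousLinearMap.isPositive_iff_complex]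
  intro x
  have h := pr_nonneg hω _ (r1_nonneg x)
  rw [← inner_op] at h
  have h2 : ⟪op ω x, x⟫_ℂ = conj ⟪x, op ω x⟫_ℂ := (inner_conj_symm _ _).symm
  have h3 : (⟪x, op ω x⟫_ℂ).im = 0 := (Complex.le_def.1 h).2.symm
  have h4 : 0 ≤ (⟪x, op ω x⟫_ℂ).re := (Complex.le_def.1 h).1
  have h5 : ⟪op ω x, x⟫_ℂ = ⟪x, op ω x⟫_ℂ := by
    rw [h2]
    exact Complex.conj_eq_iff_im.2 h3
  rw [h5]
  refine ⟨?_, h4⟩
  apply Complex.ext
  · simp
  · simp [h3]

theorem cont_sn (ω : S1 H) : Continuous (sn ω) := by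
  unfold sn
  have h1 : Continuous (fun Y : H →L[ℂ] H => pr ω (star Y * Y)) :=
    ω.toDual.continuous.comp (continuous_star.mul continuous_id)
  exact Real.continuous_sqrt.comp (Complex.continuous_re.comp h1)

theorem sn_integral {ω : S1 H} (hω : Pos ω) (V : ℂ → H →L[ℂ] H) (hV : Integrable V) :
    sn ω (∫ r, V r) ≤ ∫ r, sn ω (V r) := by
  have hint : Integrable (fun r => sn ω (V r)) := by
    refine Integrable.mono' (hV.norm.mul_const (Real.sqrt ‖ω‖))
      ((cont_sn ω).comp_aestronglyMeasurable hV.aestronglyMeasurable) ?_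
    filter_upwards with r
    rw [Real.norm_of_nonneg (sn_nonneg _ _)]
    exact sn_le hω (V r)
  have hnn : 0 ≤ ∫ r, sn ω (V r) := integral_nonneg fun r => sn_nonneg _ _
  set I : H →L[ℂ] H := ∫ r, V r with hI
  rcases (sn_nonneg ω I).eq_or_lt with h0 | h0
  · rw [← h0]
    exact hnn
  · have h1 : pr ω (star I * I) = ∫ r, pr ω (star I * V r) := by
      have h := ((ω.toDual).comp (ContinuousLinearMap.mul ℂ (H →L[ℂ] H) (star I))).integral_comp_comm hV
      exact h.symm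
    have h2 : sn ω I ^ 2 ≤ sn ω I * ∫ r, sn ω (V r) := by
      rw [sn_sq hω, h1]
      refine (Complex.re_le_norm _).trans ((norm_integral_le_integral_norm _).trans ?_)
      rw [← integral_const_mul]
      refine integral_mono_of_nonneg (Filter.Eventually.of_forall fun r => norm_nonneg _)
        (hint.const_mul _) (Filter.Eventually.of_forall fun r => cs_ineq hω I (V r))
    rw [pow_two] at h2
    exact le_of_mul_le_mul_left h2 h0

end PosBlock

open PosBlock in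
/-- BLOCK POS -/
theorem blk_POS : Stmt_Pos.{v} := by
  intro H _ _ _ ω hω
  exact ⟨pr_nonneg hω, op_nonneg hω, pr_one hω, cs_ineq hω, sn_add hω, sn_mul hω, sn_le hω,
    sn_integral hω, sn_sq hω⟩

end Pool.Bes
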