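import Pool.Agent.Work.Bes.Interface
import Mathlib.NumberTheory.ZetaValues

/-! Block SIN: `x = ∑ α_n sin (θ_n x)` on `[-1, 1]` with `∑ |α_n| θ_n² < ∞` (helper21). -/

open Real

set_option autoImplicit false

namespace Pool.Bes.SinAux

theorem bern5 (y : ℝ) : (Polynomial.map (algebraMap ℚ ℝ) (Polynomial.bernoulli 5)).eval y =
    y ^ 5 - 5 / 2 * y ^ 4 + 5 / 3 * y ^ 3 - 1 / 6 * y := by
  simp_rw [Polynomial.bernoulli, Finset.sum_range_succ]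
  rw [Finset.sum_range_zero]
  simp only [Polynomial.map_add, Polynomial.map_monomial, Polynomial.eval_add,
    Polynomial.eval_monomial, zero_add]
  have h5 : bernoulli' 5 = 0 := bernoulli'_eq_zero_of_odd (by decide) (by norm_num)
  have c0 : Nat.choose 5 0 = 1 := by decide
  have c1 : Nat.choose 5 1 = 5 := by decide
  have c2 : Nat.choose 5 2 = 10 := by decide
  have c3 : Nat.choose 5 3 = 10 := by decide
  have c4 : Nat.choose 5 4 = 5 := by decide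
  have c5 : Nat.choose 5 5 = 1 := by decide
  rw [_root_.bernoulli_one, bernoulli_eq_bernoulli'_of_ne_one (by decide : 0 ≠ 1),
    bernoulli_eq_bernoulli'_of_ne_one (by decide : 2 ≠ 1),
    bernoulli_eq_bernoulli'_of_ne_one (by decide : 3 ≠ 1),
    bernoulli_eq_bernoulli'_of_ne_one (by decide : 4 ≠ 1),
    bernoulli_eq_bernoulli'_of_ne_one (by decide : 5 ≠ 1),
    bernoulli'_zero, bernoulli'_two, bernoulli'_three, bernoulli'_four, h5,
    c0, c1, c2, c3, c4, c5]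
  simp only [map_mul, map_one, map_div₀, map_neg, map_natCast, map_zero, eq_ratCast]
  norm_num
  ring

theorem S5 (y : ℝ) (hy : |y| ≤ 1 / 2) :
    HasSum (fun n : ℕ => 1 / (n : ℝ) ^ 5 * Real.sin (2 * π * n * (1 / 2 + y)))
      (-((2 * π) ^ 5 / 240) * (y ^ 5 - 5 / 6 * y ^ 3 + 7 / 48 * y)) := by
  have h1 := hasSum_one_div_nat_pow_mul_sin (k := 2) (by norm_num) (x := 1 / 2 + y)
    ⟨by linarith [(abs_le.1 hy).1], by linarith [(abs_le.1 hy).2]⟩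
  rw [show 2 * 2 + 1 = 5 by norm_num, bern5] at h1
  have f5 : ((Nat.factorial 5 : ℕ) : ℝ) = 120 := by
    norm_num [Nat.factorial]
  rw [f5] at h1
  have hv : (-((2 * π) ^ 5 / 240) * (y ^ 5 - 5 / 6 * y ^ 3 + 7 / 48 * y)) =
      (-1) ^ (2 + 1) * (2 * π) ^ 5 / 2 / 120 * ((1 / 2 + y) ^ 5 - 5 / 2 * (1 / 2 + y) ^ 4 +
        5 / 3 * (1 / 2 + y) ^ 3 - 1 / 6 * (1 / 2 + y)) := by
    ring
  rw [hv]
  exact h1

theorem trig (A a : ℝ) : 6 * Real.sin A - 4 * (Real.sin (A + a) + Real.sin (A - a)) +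
    (Real.sin (A + 2 * a) + Real.sin (A - 2 * a)) = 4 * (1 - Real.cos a) ^ 2 * Real.sin A := by
  rw [Real.sin_add, Real.sin_sub, Real.sin_add, Real.sin_sub, Real.cos_two_mul]
  ring

/-- the coefficient -/
noncomputable def al (c : ℝ) (n : ℕ) : ℝ :=
  c * (1 / (n : ℝ) ^ 5 * (4 * (1 - Real.cos (π * n / 4)) ^ 2) * (-1) ^ n)

theorem al_abs (c : ℝ) (n : ℕ) : |al c n| ≤ |c| * 16 * (1 / (n : ℝ) ^ 5) := by
  unfold al
  have h1 : |1 / (n : ℝ) ^ 5 * (4 * (1 - Real.cos (π * n / 4)) ^ 2) * (-1) ^ n| =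
      1 / (n : ℝ) ^ 5 * (4 * (1 - Real.cos (π * n / 4)) ^ 2) := by
    rw [abs_mul, abs_pow, abs_neg, abs_one, one_pow, mul_one]
    exact abs_of_nonneg (by positivity)
  have h2 : 4 * (1 - Real.cos (π * n / 4)) ^ 2 ≤ 16 := by
    nlinarith [Real.cos_le_one (π * n / 4), Real.neg_one_le_cos (π * n / 4)]
  have h3 : (0 : ℝ) ≤ 1 / (n : ℝ) ^ 5 := by positivity
  calc |c * (1 / (n : ℝ) ^ 5 * (4 * (1 - Real.cos (π * n / 4)) ^ 2) * (-1) ^ n)|
      = |c| * (1 / (n : ℝ) ^ 5 * (4 * (1 - Real.cos (π * n / 4)) ^ 2)) := by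
        rw [abs_mul, h1]
    _ ≤ |c| * (1 / (n : ℝ) ^ 5 * 16) :=
        mul_le_mul_of_nonneg_left (mul_le_mul_of_nonneg_left h2 h3) (abs_nonneg _)
    _ = |c| * 16 * (1 / (n : ℝ) ^ 5) := by ring

theorem al_abs2 (c : ℝ) (n : ℕ) :
    |al c n| * (π * n / 2) ^ 2 ≤ |c| * 16 * (π ^ 2 / 4) * (1 / (n : ℝ) ^ 3) := by
  have h1 := al_abs c n
  rcases Nat.eq_zero_or_pos n with hn | hn
  · subst hn
    simp
  have hn' : (0 : ℝ) < n := by exact_mod_cast hn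
  calc |al c n| * (π * n / 2) ^ 2 ≤ (|c| * 16 * (1 / (n : ℝ) ^ 5)) * (π * n / 2) ^ 2 :=
        mul_le_mul_of_nonneg_right h1 (by positivity)
    _ = |c| * 16 * (π ^ 2 / 4) * (1 / (n : ℝ) ^ 3) := by
        field_simp
        try ring

theorem al_eq (c : ℝ) (x : ℝ) (n : ℕ) : al c n * Real.sin (π * n / 2 * x) =
    c * (6 * (1 / (n : ℝ) ^ 5 * Real.sin (2 * π * n * (1 / 2 + x / 4))) -
          4 * (1 / (n : ℝ) ^ 5 * Real.sin (2 * π * n * (1 / 2 + (x / 4 + 1 / 8))) +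
            1 / (n : ℝ) ^ 5 * Real.sin (2 * π * n * (1 / 2 + (x / 4 - 1 / 8)))) +
          (1 / (n : ℝ) ^ 5 * Real.sin (2 * π * n * (1 / 2 + (x / 4 + 1 / 4))) +
            1 / (n : ℝ) ^ 5 * Real.sin (2 * π * n * (1 / 2 + (x / 4 - 1 / 4))))) := by
  have h2 := trig (2 * π * n * (1 / 2 + x / 4)) (π * n / 4)
  have e1 : 2 * π * n * (1 / 2 + x / 4) + π * n / 4 = 2 * π * n * (1 / 2 + (x / 4 + 1 / 8)) := by
    ring
  have e2 : 2 * π * n * (1 / 2 + x / 4) - π * n / 4 = 2 * π * n * (1 / 2 + (x / 4 - 1 / 8)) := by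
    ring
  have e3 : 2 * π * n * (1 / 2 + x / 4) + 2 * (π * n / 4) =
    2 * π * n * (1 / 2 + (x / 4 + 1 / 4)) := by ring
  have e4 : 2 * π * n * (1 / 2 + x / 4) - 2 * (π * n / 4) =
    2 * π * n * (1 / 2 + (x / 4 - 1 / 4)) := by ring
  rw [e1, e2, e3, e4] at h2
  have h3 : Real.sin (2 * π * n * (1 / 2 + x / 4)) = (-1) ^ n * Real.sin (π * n / 2 * x) := by
    have e5 : 2 * π * n * (1 / 2 + x / 4) = π * n / 2 * x + n * π := by ring
    rw [e5, Real.sin_add_nat_mul_pi]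
  have h4 : 6 * (1 / (n : ℝ) ^ 5 * Real.sin (2 * π * n * (1 / 2 + x / 4))) -
      4 * (1 / (n : ℝ) ^ 5 * Real.sin (2 * π * n * (1 / 2 + (x / 4 + 1 / 8))) +
        1 / (n : ℝ) ^ 5 * Real.sin (2 * π * n * (1 / 2 + (x / 4 - 1 / 8)))) +
      (1 / (n : ℝ) ^ 5 * Real.sin (2 * π * n * (1 / 2 + (x / 4 + 1 / 4))) +
        1 / (n : ℝ) ^ 5 * Real.sin (2 * π * n * (1 / 2 + (x / 4 - 1 / 4)))) =
      1 / (n : ℝ) ^ 5 * (4 * (1 - Real.cos (π * n / 4)) ^ 2 *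
        Real.sin (2 * π * n * (1 / 2 + x / 4))) := by
    rw [← h2]
    ring
  rw [h4, h3]
  unfold al
  ring

end Pool.Bes.SinAux

namespace Pool.Bes

open SinAux

theorem blk_Sin : Stmt_Sin := by
  have hpi := Real.pi_pos
  obtain ⟨Kc, hK⟩ : ∃ K : ℝ, K = -((2 * π) ^ 5 / 240) := ⟨_, rfl⟩
  have hK0 : Kc ≠ 0 := by
    rw [hK]
    have h2 : 0 < (2 * π) ^ 5 / 240 := by positivity
    exact neg_ne_zero.2 h2.ne'
  refine ⟨al (4 * 1024 / (30 * Kc)), fun n => π * n / 2, ?_, ?_, ?_⟩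
  · have h1 : Summable (fun n : ℕ => |4 * 1024 / (30 * Kc)| * 16 * (1 / (n : ℝ) ^ 5)) :=
      (Real.summable_one_div_nat_pow.2 (by norm_num)).mul_left _
    exact Summable.of_nonneg_of_le (fun n => abs_nonneg _) (fun n => al_abs _ n) h1
  · have h1 : Summable (fun n : ℕ => |4 * 1024 / (30 * Kc)| * 16 * (π ^ 2 / 4) *
        (1 / (n : ℝ) ^ 3)) :=
      (Real.summable_one_div_nat_pow.2 (by norm_num)).mul_left _
    exact Summable.of_nonneg_of_le (fun n => mul_nonneg (abs_nonneg _) (sq_nonneg _))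
      (fun n => al_abs2 _ n) h1
  · intro x hx
    obtain ⟨hx1, hx2⟩ := abs_le.1 hx
    have a0 := S5 (x / 4) (abs_le.2 ⟨by linarith, by linarith⟩)
    have a1 := S5 (x / 4 + 1 / 8) (abs_le.2 ⟨by linarith, by linarith⟩)
    have a2 := S5 (x / 4 - 1 / 8) (abs_le.2 ⟨by linarith, by linarith⟩)
    have a3 := S5 (x / 4 + 1 / 4) (abs_le.2 ⟨by linarith, by linarith⟩)
    have a4 := S5 (x / 4 - 1 / 4) (abs_le.2 ⟨by linarith, by linarith⟩)
    rw [← hK] at a0 a1 a2 a3 a4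
    have h1 := (((a0.mul_left 6).sub ((a1.add a2).mul_left 4)).add (a3.add a4)).mul_left
      (4 * 1024 / (30 * Kc))
    have hf : (fun n : ℕ => al (4 * 1024 / (30 * Kc)) n * Real.sin (π * n / 2 * x)) = _ :=
      funext fun n => al_eq (4 * 1024 / (30 * Kc)) x n
    show HasSum (fun n : ℕ => al (4 * 1024 / (30 * Kc)) n * Real.sin (π * n / 2 * x)) x
    rw [hf]
    have hv : x = 4 * 1024 / (30 * Kc) *
      (6 * (Kc * ((x / 4) ^ 5 - 5 / 6 * (x / 4) ^ 3 + 7 / 48 * (x / 4))) -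
          4 *
            (Kc * ((x / 4 + 1 / 8) ^ 5 - 5 / 6 * (x / 4 + 1 / 8) ^ 3 + 7 / 48 * (x / 4 + 1 / 8)) +
              Kc *
                ((x / 4 - 1 / 8) ^ 5 - 5 / 6 * (x / 4 - 1 / 8) ^ 3 + 7 / 48 * (x / 4 - 1 / 8))) +
        (Kc * ((x / 4 + 1 / 4) ^ 5 - 5 / 6 * (x / 4 + 1 / 4) ^ 3 + 7 / 48 * (x / 4 + 1 / 4)) +
          Kc * ((x / 4 - 1 / 4) ^ 5 - 5 / 6 * (x / 4 - 1 / 4) ^ 3 + 7 / 48 * (x / 4 - 1 / 4)))) := by
      field_simp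
      ring
    rw [← hv] at h1
    exact h1

end Pool.Bes
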