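import Pool.Agent.Work.Bes.Interface

/-! Block SUM: sums of energies (helper21). -/

open MeasureTheory

set_option autoImplicit false

namespace Pool.Bes.SumAux

/-- telescoping -/
theorem tele (v : ℝ → ℝ) (d y : ℝ) (hv : ∀ t, 0 < t → 0 ≤ v t ∧ v t ≤ d) (hy : 0 < y) (K n : ℕ) :
    ∑ i ∈ Finset.range K, (v (2 ^ i * y) - v (2 ^ (i + n) * y)) ≤ n * d := by
  induction n with
  | zero => simp
  | succ n ih =>
    have h1 : ∑ i ∈ Finset.range K, (v (2 ^ i * y) - v (2 ^ (i + (n + 1)) * y)) =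
        ∑ i ∈ Finset.range K, (v (2 ^ i * y) - v (2 ^ (i + n) * y)) +
          ∑ i ∈ Finset.range K, (v (2 ^ (i + n) * y) - v (2 ^ (i + 1 + n) * y)) := by
      rw [← Finset.sum_add_distrib]
      apply Finset.sum_congr rfl
      intro i _
      rw [show i + (n + 1) = i + 1 + n by ring]
      ring
    rw [h1, Finset.sum_range_sub' (fun i => v (2 ^ (i + n) * y))]
    have h2 := (hv (2 ^ (0 + n) * y) (by positivity)).2
    have h3 := (hv (2 ^ (K + n) * y) (by positivity)).1
    push_cast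
    linarith

theorem csq (m : ℕ → ℝ) (x : ℕ → ℝ) (K : ℕ) (S : ℝ) (hx : ∀ i ∈ Finset.range K, 0 ≤ x i)
    (hS : ∑ i ∈ Finset.range K, x i ≤ S) :
    ∑ i ∈ Finset.range K, |m i| * Real.sqrt (x i) ≤
      Real.sqrt (∑ i ∈ Finset.range K, m i ^ 2) * Real.sqrt S := by
  refine (Real.sum_mul_le_sqrt_mul_sqrt (Finset.range K) (fun i => |m i|)
    (fun i => Real.sqrt (x i))).trans ?_
  have h1 : ∑ i ∈ Finset.range K, |m i| ^ 2 = ∑ i ∈ Finset.range K, m i ^ 2 := by
    simp only [sq_abs]
  have h2 : ∑ i ∈ Finset.range K, Real.sqrt (x i) ^ 2 = ∑ i ∈ Finset.range K, x i := by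
    apply Finset.sum_congr rfl
    intro i hi
    exact Real.sq_sqrt (hx i hi)
  rw [h1, h2]
  exact mul_le_mul_of_nonneg_left (Real.sqrt_le_sqrt hS) (Real.sqrt_nonneg _)

/-- the pointwise bound -/
theorem ptw (v : ℝ → ℝ) (d t₀ : ℝ) (hanti : AntitoneOn v (Set.Ioi 0))
    (hv : ∀ t, 0 < t → 0 ≤ v t ∧ v t ≤ d) (ht₀ : 0 < t₀) (K : ℕ) (x : ℝ) (hx0 : 0 < x)
    (hx1 : x ≤ 1) :
    ∑ i ∈ Finset.range K, (v (2 ^ i * t₀ * x) -
      v (Real.sqrt ((2 ^ i * t₀ * x) ^ 2 + 64 * (2 ^ i * t₀) ^ 2))) ≤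
      (5 - Real.log x / Real.log 2) * d := by
  have hd : 0 ≤ d := (hv 1 one_pos).1.trans (hv 1 one_pos).2
  have hl2 : 0 < Real.log 2 := Real.log_pos (by norm_num)
  have hlx : Real.log x ≤ 0 := Real.log_nonpos hx0.le hx1
  set z : ℝ := 4 - Real.log x / Real.log 2 with hz
  have hz0 : 0 ≤ z := by
    have : Real.log x / Real.log 2 ≤ 0 := div_nonpos_of_nonpos_of_nonneg hlx hl2.le
    linarith
  set n : ℕ := ⌈z⌉₊ with hn
  have hn1 : z ≤ n := Nat.le_ceil z
  have hn2 : (n : ℝ) < z + 1 := Nat.ceil_lt_add_one hz0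
  have h2n : 16 / x ≤ (2 : ℝ) ^ n := by
    have h1 : (2 : ℝ) ^ n = Real.exp (Real.log 2 * n) := by
      rw [mul_comm, Real.exp_nat_mul, Real.exp_log (by norm_num)]
    have h2 : 16 / x = Real.exp (Real.log 2 * z) := by
      have h3 : Real.log 2 * z = Real.log 16 - Real.log x := by
        rw [hz, show (16 : ℝ) = 2 ^ 4 by norm_num, Real.log_pow]
        field_simp
        push_cast
        ring
      rw [h3, Real.exp_sub, Real.exp_log (by norm_num), Real.exp_log hx0]
    rw [h1, h2]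
    exact Real.exp_le_exp.2 (mul_le_mul_of_nonneg_left hn1 hl2.le)
  have h3 : 16 ≤ 2 ^ n * x := by
    rw [div_le_iff₀ hx0] at h2n
    exact h2n
  calc ∑ i ∈ Finset.range K, (v (2 ^ i * t₀ * x) -
        v (Real.sqrt ((2 ^ i * t₀ * x) ^ 2 + 64 * (2 ^ i * t₀) ^ 2)))
      ≤ ∑ i ∈ Finset.range K, (v (2 ^ i * (t₀ * x)) - v (2 ^ (i + n) * (t₀ * x))) := by
        apply Finset.sum_le_sum
        intro i _
        rw [show (2 : ℝ) ^ i * t₀ * x = 2 ^ i * (t₀ * x) by ring]
        have h4 : Real.sqrt ((2 ^ i * (t₀ * x)) ^ 2 + 64 * (2 ^ i * t₀) ^ 2) ≤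
            2 ^ (i + n) * (t₀ * x) := by
          apply Real.sqrt_le_iff.2
          refine ⟨by positivity, ?_⟩
          have h5 : (2 : ℝ) ^ (i + n) * (t₀ * x) = (2 ^ i * t₀) * (2 ^ n * x) := by
            rw [pow_add]
            ring
          have h6 : (2 : ℝ) ^ i * (t₀ * x) = (2 ^ i * t₀) * x := by ring
          rw [h5, h6]
          have h7 : x ^ 2 + 64 ≤ (2 ^ n * x) ^ 2 := by nlinarith
          calc (2 ^ i * t₀ * x) ^ 2 + 64 * (2 ^ i * t₀) ^ 2 = (2 ^ i * t₀) ^ 2 * (x ^ 2 + 64) := by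
                ring
            _ ≤ (2 ^ i * t₀) ^ 2 * (2 ^ n * x) ^ 2 :=
                mul_le_mul_of_nonneg_left h7 (sq_nonneg _)
            _ = _ := by ring
        have h8 : 0 < Real.sqrt ((2 ^ i * (t₀ * x)) ^ 2 + 64 * (2 ^ i * t₀) ^ 2) := by
          apply Real.sqrt_pos.2
          positivity
        have h9 : (0 : ℝ) < 2 ^ (i + n) * (t₀ * x) := by positivity
        have := hanti (Set.mem_Ioi.2 h8) (Set.mem_Ioi.2 h9) h4
        linarith
    _ ≤ n * d := tele v d (t₀ * x) hv (by positivity) K n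
    _ ≤ (5 - Real.log x / Real.log 2) * d := by
        apply mul_le_mul_of_nonneg_right _ hd
        linarith

end Pool.Bes.SumAux

namespace Pool.Bes

open SumAux

theorem blk_Sum : Stmt_Sum := by
  intro v d t₀ hanti hv ht₀ m K
  have hd : 0 ≤ d := (hv 1 one_pos).1.trans (hv 1 one_pos).2
  have hl2 : 0 < Real.log 2 := Real.log_pos (by norm_num)
  have hl2' : 0.69 < Real.log 2 := by
    have := Real.log_two_gt_d9
    linarith
  constructor
  · -- the measurable version
    set w : ℝ → ℝ := fun x => if x ≤ 0 then d else v x with hw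
    have hwa : Antitone w := by
      intro x y hxy
      simp only [hw]
      by_cases hx : x ≤ 0
      · rw [if_pos hx]
        by_cases hy : y ≤ 0
        · rw [if_pos hy]
        · rw [if_neg hy]
          exact (hv y (not_le.1 hy)).2
      · have hy : ¬ y ≤ 0 := by linarith
        rw [if_neg hx, if_neg hy]
        exact hanti (Set.mem_Ioi.2 (not_le.1 hx)) (Set.mem_Ioi.2 (not_le.1 hy)) hxy
    have hwm : Measurable w := hwa.measurable
    have hwb : ∀ x, 0 ≤ w x ∧ w x ≤ d := by
      intro x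
      simp only [hw]
      by_cases hx : x ≤ 0
      · rw [if_pos hx]
        exact ⟨hd, le_rfl⟩
      · rw [if_neg hx]
        exact hv x (not_le.1 hx)
    have hwv : ∀ x, 0 < x → w x = v x := by
      intro x hx
      simp only [hw]
      rw [if_neg (not_le.2 hx)]
    set f : ℕ → ℝ → ℝ := fun i x => Real.sqrt (w (2 ^ i * t₀ * x) -
      w (Real.sqrt ((2 ^ i * t₀ * x) ^ 2 + 64 * (2 ^ i * t₀) ^ 2))) with hf
    have hfm : ∀ i, Measurable (f i) := by
      intro i
      simp only [hf]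
      apply Measurable.sqrt
      apply Measurable.sub
      · exact hwm.comp (by fun_prop)
      · exact hwm.comp (by fun_prop)
    have hfi : ∀ i, IntervalIntegrable (f i) volume 0 1 := by
      intro i
      rw [intervalIntegrable_iff_integrableOn_Ioc_of_le zero_le_one]
      apply Measure.integrableOn_of_bounded (M := Real.sqrt d) (by simp)
        (hfm i).aestronglyMeasurable
      refine Filter.Eventually.of_forall fun x => ?_
      rw [Real.norm_eq_abs, abs_of_nonneg (Real.sqrt_nonneg _)]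
      apply Real.sqrt_le_sqrt
      have h1 := (hwb (2 ^ i * t₀ * x)).2
      have h2 := (hwb (Real.sqrt ((2 ^ i * t₀ * x) ^ 2 + 64 * (2 ^ i * t₀) ^ 2))).1
      linarith
    have h1 : ∀ i, 1 / (2 ^ i * t₀) * ∫ r in (0 : ℝ)..(2 ^ i * t₀),
        Real.sqrt (v r - v (Real.sqrt (r ^ 2 + 64 * (2 ^ i * t₀) ^ 2))) =
        ∫ x in (0 : ℝ)..1, f i x := by
      intro i
      have ht : (0 : ℝ) < 2 ^ i * t₀ := by positivity
      have h2 := intervalIntegral.integral_comp_mul_left (a := 0) (b := 1)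
        (fun r => Real.sqrt (w r - w (Real.sqrt (r ^ 2 + 64 * (2 ^ i * t₀) ^ 2)))) ht.ne'
      rw [mul_zero, mul_one, smul_eq_mul] at h2
      have h3 : ∫ r in (0 : ℝ)..(2 ^ i * t₀),
          Real.sqrt (v r - v (Real.sqrt (r ^ 2 + 64 * (2 ^ i * t₀) ^ 2))) =
          ∫ r in (0 : ℝ)..(2 ^ i * t₀),
          Real.sqrt (w r - w (Real.sqrt (r ^ 2 + 64 * (2 ^ i * t₀) ^ 2))) := by
        apply intervalIntegral.integral_congr_ae
        refine Filter.Eventually.of_forall fun r hr => ?_
        rw [Set.uIoc_of_le ht.le] at hr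
        rw [hwv r hr.1, hwv _ (Real.sqrt_pos.2 (by positivity))]
      rw [h3, one_div, ← h2]
    simp_rw [h1]
    have h2 : ∑ i ∈ Finset.range K, |m i| * ∫ x in (0 : ℝ)..1, f i x =
        ∫ x in (0 : ℝ)..1, ∑ i ∈ Finset.range K, |m i| * f i x := by
      rw [intervalIntegral.integral_finsetSum (fun i _ => (hfi i).const_mul _)]
      simp only [intervalIntegral.integral_const_mul]
    rw [h2]
    set M : ℝ := Real.sqrt (∑ i ∈ Finset.range K, m i ^ 2) with hM
    have hM0 : 0 ≤ M := Real.sqrt_nonneg _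
    have h3 : ∀ x ∈ Set.Ioo (0 : ℝ) 1, ∑ i ∈ Finset.range K, |m i| * f i x ≤
        M * Real.sqrt d * ((14 - Real.log x / Real.log 2) / 6) := by
      intro x hx
      have h4 : ∀ i, f i x = Real.sqrt (v (2 ^ i * t₀ * x) -
          v (Real.sqrt ((2 ^ i * t₀ * x) ^ 2 + 64 * (2 ^ i * t₀) ^ 2))) := by
        intro i
        have hx0 := hx.1
        simp only [hf]
        rw [hwv _ (by positivity), hwv _ (Real.sqrt_pos.2 (by positivity))]
      simp_rw [h4]
      have hx0 := hx.1
      have hlx : Real.log x ≤ 0 := Real.log_nonpos hx.1.le hx.2.le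
      have h5 : Real.log x / Real.log 2 ≤ 0 := div_nonpos_of_nonpos_of_nonneg hlx hl2.le
      refine (csq m _ K _ ?_ (ptw v d t₀ hanti hv ht₀ K x hx.1 hx.2.le)).trans ?_
      · intro i _
        have h6 : 2 ^ i * t₀ * x ≤
            Real.sqrt ((2 ^ i * t₀ * x) ^ 2 + 64 * (2 ^ i * t₀) ^ 2) := by
          apply Real.le_sqrt_of_sq_le
          have : 0 ≤ 64 * (2 ^ i * t₀) ^ 2 := by positivity
          linarith
        have h7 : (0 : ℝ) < 2 ^ i * t₀ * x := by positivity
        have := hanti (Set.mem_Ioi.2 h7) (Set.mem_Ioi.2 (lt_of_lt_of_le h7 h6)) h6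
        linarith
      · rw [← hM, Real.sqrt_mul (by linarith), mul_comm (Real.sqrt (5 - _)), mul_assoc]
        apply mul_le_mul_of_nonneg_left _ hM0
        apply mul_le_mul_of_nonneg_left _ (Real.sqrt_nonneg _)
        set g := 5 - Real.log x / Real.log 2 with hg
        have hg0 : 0 ≤ g := by linarith
        have h8 := Real.sq_sqrt hg0
        have h9 : 14 - Real.log x / Real.log 2 = g + 9 := by linarith
        rw [h9]
        nlinarith [sq_nonneg (Real.sqrt g - 3)]
    have hli : IntervalIntegrable (fun x => M * Real.sqrt d *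
        ((14 - Real.log x / Real.log 2) / 6)) volume 0 1 := by
      have h4 : IntervalIntegrable Real.log volume 0 1 := intervalIntegral.intervalIntegrable_log'
      have h5 : IntervalIntegrable (fun _ : ℝ => (14 : ℝ)) volume 0 1 := intervalIntegrable_const
      exact ((h5.sub (h4.div_const _)).div_const _).const_mul _
    have hsi : IntervalIntegrable (fun x => ∑ i ∈ Finset.range K, |m i| * f i x) volume 0 1 := by
      have h4 := IntervalIntegrable.sum (Finset.range K) (f := fun i x => |m i| * f i x)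
        (fun i _ => (hfi i).const_mul |m i|)
      have h5 : (∑ i ∈ Finset.range K, fun x => |m i| * f i x) =
          fun x => ∑ i ∈ Finset.range K, |m i| * f i x := by
        funext x
        simp
      rw [← h5]
      exact h4
    have h4 := intervalIntegral.integral_mono_on_of_le_Ioo zero_le_one hsi hli h3
    refine h4.trans ?_
    rw [intervalIntegral.integral_const_mul, intervalIntegral.integral_div,
      intervalIntegral.integral_sub intervalIntegrable_const
        (intervalIntegral.intervalIntegrable_log'.div_const _),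
      intervalIntegral.integral_div, integral_log]
    simp only [intervalIntegral.integral_const, Real.log_one, Real.log_zero, smul_eq_mul]
    have h5 : (((1 : ℝ) - 0) * 14 - (1 * 0 - 0 * 0 - 1 + 0) / Real.log 2) / 6 ≤ 3 := by
      have h6 : 1 / Real.log 2 ≤ 2 := by
        rw [div_le_iff₀ hl2]
        linarith
      have h7 : (((1 : ℝ) - 0) * 14 - (1 * 0 - 0 * 0 - 1 + 0) / Real.log 2) / 6 =
          (14 + 1 / Real.log 2) / 6 := by ring
      rw [h7]
      linarith
    calc M * Real.sqrt d * ((((1 : ℝ) - 0) * 14 - (1 * 0 - 0 * 0 - 1 + 0) / Real.log 2) / 6)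
        ≤ M * Real.sqrt d * 3 := mul_le_mul_of_nonneg_left h5 (by positivity)
      _ = 3 * Real.sqrt d * M := by ring
  · have h1 : ∀ i ∈ Finset.range K, 0 ≤ v (2 ^ i * t₀ / Real.sqrt 2) - v (12 * (2 ^ i * t₀)) := by
      intro i _
      have ht : (0 : ℝ) < 2 ^ i * t₀ := by positivity
      have h2 : (0 : ℝ) < 2 ^ i * t₀ / Real.sqrt 2 := by positivity
      have h3 : 2 ^ i * t₀ / Real.sqrt 2 ≤ 12 * (2 ^ i * t₀) := by
        rw [div_le_iff₀ (by positivity)]
        have h4 : 1 ≤ Real.sqrt 2 := by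
          rw [Real.one_le_sqrt]
          norm_num
        nlinarith
      have := hanti (Set.mem_Ioi.2 h2) (Set.mem_Ioi.2 (lt_of_lt_of_le h2 h3)) h3
      linarith
    have h2 : ∑ i ∈ Finset.range K, (v (2 ^ i * t₀ / Real.sqrt 2) - v (12 * (2 ^ i * t₀))) ≤
        9 * d := by
      have h3 := tele v d (t₀ / 2) hv (by positivity) K 5
      refine le_trans (Finset.sum_le_sum fun i _ => ?_) (h3.trans (by push_cast; linarith))
      have ht : (0 : ℝ) < 2 ^ i * t₀ := by positivity
      have h4 : 2 ^ i * (t₀ / 2) ≤ 2 ^ i * t₀ / Real.sqrt 2 := by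
        have h5 : Real.sqrt 2 ≤ 2 := by
          rw [Real.sqrt_le_left (by norm_num)]
          norm_num
        rw [show (2 : ℝ) ^ i * (t₀ / 2) = 2 ^ i * t₀ / 2 by ring]
        exact div_le_div_of_nonneg_left ht.le (by positivity) h5
      have h6 : 12 * (2 ^ i * t₀) ≤ 2 ^ (i + 5) * (t₀ / 2) := by
        rw [pow_add]
        nlinarith
      have h7 := hanti (Set.mem_Ioi.2 (show (0 : ℝ) < 2 ^ i * (t₀ / 2) by positivity))
        (Set.mem_Ioi.2 (show (0 : ℝ) < 2 ^ i * t₀ / Real.sqrt 2 by positivity)) h4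
      have h8 := hanti (Set.mem_Ioi.2 (show (0 : ℝ) < 12 * (2 ^ i * t₀) by positivity))
        (Set.mem_Ioi.2 (show (0 : ℝ) < 2 ^ (i + 5) * (t₀ / 2) by positivity)) h6
      linarith
    refine (csq m _ K _ h1 h2).trans (le_of_eq ?_)
    rw [Real.sqrt_mul (by norm_num), show (9 : ℝ) = 3 ^ 2 by norm_num,
      Real.sqrt_sq (by norm_num)]
    ring

end Pool.Bes
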