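import Pool.Agent.Work.Bes.Interface

/-!
# Block TN: a nuclear difference gives a `Pair`
-/

open MeasureTheory Complex
open scoped ComplexOrder InnerProductSpace ComplexConjugate

set_option autoImplicit false
set_option linter.unusedSectionVars false

universe v

namespace Pool.Bes

namespace TnBlock

variable {H : Type v} [NormedAddCommGroup H] [InnerProductSpace ℂ H] [CompleteSpace H]

/-- The rank one operator `z ↦ ⟪y, z⟫ x` as an element of `S1`. -/
noncomputable def vS (x y : H) : S1 H := S1.mk (vf x y) (vf_mem x y)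

theorem pr_vS (x y : H) (Y : H →L[ℂ] H) : pr (vS x y) Y = ⟪y, Y x⟫_ℂ := rfl

theorem norm_vS_le (x y : H) : ‖vS x y‖ ≤ ‖x‖ * ‖y‖ := by
  rw [← S1.norm_toDual]
  refine ContinuousLinearMap.opNorm_le_bound _ (by positivity) fun Y => ?_
  change ‖⟪y, Y x⟫_ℂ‖ ≤ _
  refine (norm_inner_le_norm _ _).trans ?_
  calc ‖y‖ * ‖Y x‖ ≤ ‖y‖ * (‖Y‖ * ‖x‖) := by
        gcongr
        exact Y.le_opNorm x
    _ = ‖x‖ * ‖y‖ * ‖Y‖ := by ring

theorem op_vS (x y : H) : op (vS x y) = r1 x y := by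
  refine ContinuousLinearMap.ext fun z => ext_inner_left ℂ fun w => ?_
  rw [inner_op, pr_vS, r1_apply, r1_apply, inner_smul_right, inner_smul_right, mul_comm]

theorem star_r1 (x y : H) : star (r1 x y) = r1 y x := by
  refine ContinuousLinearMap.ext fun z => ext_inner_left ℂ fun w => ?_
  rw [ContinuousLinearMap.star_eq_adjoint, ContinuousLinearMap.adjoint_inner_right, r1_apply,
    r1_apply, inner_smul_left, inner_smul_right, inner_conj_symm, mul_comm]

/-- sums of rank one operators -/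
theorem sum_vS (x y : ℕ → H) (hs : Summable fun k => ‖x k‖ * ‖y k‖) :
    Summable (fun k => vS (x k) (y k)) ∧ ‖∑' k, vS (x k) (y k)‖ ≤ ∑' k, ‖x k‖ * ‖y k‖ ∧
    HasSum (fun k => r1 (x k) (y k)) (op (∑' k, vS (x k) (y k))) := by
  have h1 : Summable (fun k => vS (x k) (y k)) :=
    Summable.of_norm_bounded hs fun k => norm_vS_le _ _
  refine ⟨h1, ?_, ?_⟩
  · exact tsum_of_norm_bounded hs.hasSum fun k => norm_vS_le _ _
  · have h2 := h1.hasSum.mapL (op (H := H))
    have h3 : (fun k => op (vS (x k) (y k))) = fun k => r1 (x k) (y k) := by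
      funext k
      exact op_vS _ _
    rwa [h3] at h2

end TnBlock

open TnBlock

theorem blk_TN : Stmt_TN.{v} := by
  intro H _ _ _ N₁ N₂ h₁ h₂ M hM
  obtain ⟨x, y, hs, hle, hsum⟩ := hM
  obtain ⟨-, s2, s3⟩ := sum_vS x y hs
  have hs' : Summable fun k => ‖y k‖ * ‖x k‖ := by
    refine hs.congr fun k => ?_
    rw [mul_comm]
  obtain ⟨-, t2, t3⟩ := sum_vS y x hs'
  set S : S1 H := ∑' k, vS (x k) (y k) with hS
  set S' : S1 H := ∑' k, vS (y k) (x k) with hS'
  have hSM : ‖S‖ ≤ M := s2.trans hle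
  have hSM' : ‖S'‖ ≤ M := by
    refine t2.trans ?_
    have : (∑' k, ‖y k‖ * ‖x k‖) = ∑' k, ‖x k‖ * ‖y k‖ := by
      congr 1
      funext k
      rw [mul_comm]
    rw [this]
    exact hle
  have hM0 : 0 ≤ M := (norm_nonneg _).trans hSM
  have opS : op S = N₂ - N₁ := by
    refine ContinuousLinearMap.ext fun z => ?_
    have h1 : HasSum (fun k => r1 (x k) (y k) z) (op S z) :=
      s3.mapL (ContinuousLinearMap.apply ℂ H z)
    exact h1.unique (hsum z)
  have opS' : op S' = star (N₂ - N₁) := by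
    have h1 : HasSum (fun k => star (r1 (x k) (y k))) (star (op S)) := s3.star
    have h2 : (fun k => star (r1 (x k) (y k))) = fun k => r1 (y k) (x k) := by
      funext k
      exact star_r1 _ _
    rw [h2, opS] at h1
    exact t3.unique h1
  have hop : ∀ e : ℂ, op ((1 / 2 : ℂ) • (conj e • S + e • S')) = dt e N₂ - dt e N₁ := by
    intro e
    rw [map_smul, map_add, map_smul, map_smul, opS, opS', dt, dt, ← smul_sub, star_sub]
    congr 1
    rw [smul_sub, smul_sub]
    abel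
  refine ⟨⟨N₂, N₁, h₂, h₁, (1 / 2 : ℂ) • (conj (1 : ℂ) • S + (1 : ℂ) • S'),
    (1 / 2 : ℂ) • (conj Complex.I • S + Complex.I • S'), hop 1, hop Complex.I, M, ?_⟩, rfl, rfl,
    rfl⟩
  intro e
  have h1 : (e.re : ℂ) • ((1 / 2 : ℂ) • (conj (1 : ℂ) • S + (1 : ℂ) • S')) +
      (e.im : ℂ) • ((1 / 2 : ℂ) • (conj Complex.I • S + Complex.I • S')) =
      (1 / 2 : ℂ) • (conj e • S + e • S') := by
    have e1 : conj e = (e.re : ℂ) - (e.im : ℂ) * Complex.I := by
      apply Complex.ext <;> simp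
    have e2 : e = (e.re : ℂ) + (e.im : ℂ) * Complex.I := (Complex.re_add_im e).symm
    have e3 : (1 / 2 : ℂ) • (conj e • S + e • S') = (1 / 2 : ℂ) •
        (((e.re : ℂ) - (e.im : ℂ) * Complex.I) • S + ((e.re : ℂ) + (e.im : ℂ) * Complex.I) • S') := by
      rw [← e1, ← e2]
    rw [e3, map_one, Complex.conj_I]
    module
  rw [h1]
  calc ‖(1 / 2 : ℂ) • (conj e • S + e • S')‖ ≤ ‖(1 / 2 : ℂ)‖ * (‖e‖ * ‖S‖ + ‖e‖ * ‖S'‖) := by
        rw [norm_smul]
        refine mul_le_mul_of_nonneg_left ((norm_add_le _ _).trans ?_) (norm_nonneg _)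
        rw [norm_smul, norm_smul, RCLike.norm_conj]
    _ ≤ (1 / 2) * (‖e‖ * M + ‖e‖ * M) := by
        have hh : ‖(1 / 2 : ℂ)‖ = 1 / 2 := by norm_num
        rw [hh]
        gcongr
    _ = ‖e‖ * M := by ring

end Pool.Bes
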