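import Pool.Agent.Work.Bes.AL
import Pool.Agent.Work.Bes.ALG
import Pool.Agent.Work.Bes.AV
import Pool.Agent.Work.Bes.CO
import Pool.Agent.Work.Bes.COS
import Pool.Agent.Work.Bes.DEF
import Pool.Agent.Work.Bes.DER
import Pool.Agent.Work.Bes.DU
import Pool.Agent.Work.Bes.EN
import Pool.Agent.Work.Bes.EX
import Pool.Agent.Work.Bes.FARB
import Pool.Agent.Work.Bes.FARI
import Pool.Agent.Work.Bes.FINAL
import Pool.Agent.Work.Bes.FN
import Pool.Agent.Work.Bes.FOUR
import Pool.Agent.Work.Bes.GG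
import Pool.Agent.Work.Bes.HT
import Pool.Agent.Work.Bes.KI
import Pool.Agent.Work.Bes.KN
import Pool.Agent.Work.Bes.LIM
import Pool.Agent.Work.Bes.LMT
import Pool.Agent.Work.Bes.LMT0
import Pool.Agent.Work.Bes.LPI
import Pool.Agent.Work.Bes.LPS
import Pool.Agent.Work.Bes.MAINB
import Pool.Agent.Work.Bes.MAINI
import Pool.Agent.Work.Bes.MID
import Pool.Agent.Work.Bes.MNB
import Pool.Agent.Work.Bes.MT
import Pool.Agent.Work.Bes.NEARB
import Pool.Agent.Work.Bes.NEARG
import Pool.Agent.Work.Bes.NEARI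
import Pool.Agent.Work.Bes.OLG
import Pool.Agent.Work.Bes.PIN
import Pool.Agent.Work.Bes.POL
import Pool.Agent.Work.Bes.POS
import Pool.Agent.Work.Bes.SIN
import Pool.Agent.Work.Bes.SUM
import Pool.Agent.Work.Bes.TN
import Pool.Agent.Work.Bes.WT

/-!
# The theorem, from the blocks
-/

set_option autoImplicit false

universe v

namespace Pool.Bes

theorem final : Stmt_Final.{v} := by
  have alg : Stmt_Alg.{v} := blk_ALG
  have pol : Stmt_Pol.{v} := blk_POL alg
  have pos : Stmt_Pos.{v} := blk_POS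
  have al : Stmt_AL.{v} := blk_AL alg pos
  have ex : Stmt_Ex.{v} := blk_Ex
  have fn : Stmt_Fn.{v} := blk_Fn
  have av : Stmt_Av.{v} := blk_AV alg ex
  have wt : Stmt_Wt := blk_WT
  have hDu : Stmt_Du.{v} := blk_DU alg ex fn av
  have der : Stmt_Der := blk_DER wt
  have ki : Stmt_KI.{v} := blk_KI fn ex
  have kn : Stmt_KN.{v} := blk_KN alg pos al fn av ex ki
  have gg : Stmt_GG.{v} := blk_GG alg pol pos al fn ex av kn
  have fari : Stmt_FarI.{v} := blk_FARI alg ex av hDu fn wt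
  have farb : Stmt_FarB.{v} := blk_FARB fari gg hDu av wt
  have neari : Stmt_NearI.{v} := blk_NEARI alg ex av hDu
  have hNG : Stmt_NearG.{v} := blk_NEARG alg ex av hDu wt fn gg
  have nearb : Stmt_NearB.{v} := blk_NEARB neari hNG wt der av ex
  have mt : Stmt_MT.{v} := blk_MT alg pol pos al
  have pin : Stmt_Pin.{v} := blk_PIN pol al
  have cos : Stmt_Cos.{v} := blk_COS alg
  have lmt0 : Stmt_LMT0.{v} := blk_LMT0 alg pol pos al mt pin cos hDu av
  have en : Stmt_EN.{v} := blk_EN alg pol pos al mt ex av hDu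
  have lmt : Stmt_LMT.{v} := blk_LMT alg hDu lmt0 blk_Sin en
  have olg : Stmt_OLG.{v} := blk_OLG hDu ki
  have co : Stmt_Co.{v} := blk_CO hDu ki
  have lpi : Stmt_LPI := blk_LPI wt
  have df : Stmt_Def.{v} := blk_DEF alg fn hDu wt der olg lpi
  have maini : Stmt_MainI.{v} := blk_MAINI alg ex av hDu fn wt
  have mainb : Stmt_MainB.{v} := blk_MAINB maini lmt en df hDu av fn wt der
  have mnb : Stmt_MnB.{v} := blk_MNB fn av wt
  have lim : Stmt_Lim.{v} := blk_LIM hDu wt
  have mid : Stmt_Mid.{v} := blk_MID farb nearb mnb mainb co lpi blk_Sum lim wt av hDu der alg ex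
  exact blk_FINAL mid blk_FOUR (blk_LPS wt) blk_TN blk_HT alg hDu

end Pool.Bes
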