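import Mathlib

/-!
# The trace of `f(A) - f(B)` for `f` in `Lip ∩ B^1_{∞,2}`: definitions

`S1 H` is the space of trace class operators, realised as the norm closure of the vector
functionals in the dual of `B(H)`: an element `X` is the functional `Y ↦ tr (Y X)`.
-/

open MeasureTheory Complex
open scoped ComplexOrder InnerProductSpace ComplexConjugate

set_option autoImplicit false
set_option linter.unusedSectionVars false

universe v

namespace Pool.Bes

section S1

variable {H : Type v} [NormedAddCommGroup H] [InnerProductSpace ℂ H] [CompleteSpace H]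

/-- The functional `Y ↦ ⟪y, Y x⟫`; it stands for the operator `z ↦ ⟪y, z⟫ x`. -/
noncomputable def vf (x y : H) : StrongDual ℂ (H →L[ℂ] H) :=
  (innerSL ℂ y).comp (ContinuousLinearMap.apply ℂ H x)

theorem vf_apply (x y : H) (Y : H →L[ℂ] H) : vf x y Y = ⟪y, Y x⟫_ℂ := rfl

variable (H) in
/-- The span of the vector functionals (the finite rank operators). -/
noncomputable def FRk : Submodule ℂ (StrongDual ℂ (H →L[ℂ] H)) :=
  Submodule.span ℂ (Set.range fun p : H × H => vf p.1 p.2)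

variable (H) in
/-- Its norm closure. -/
noncomputable def S1sub : Submodule ℂ (StrongDual ℂ (H →L[ℂ] H)) := (FRk H).topologicalClosure

variable (H) in
/-- Trace class operators: `X` is the functional `Y ↦ tr (Y X)`; the norm is the trace norm. -/
def S1 : Type v := ↥(S1sub H)

noncomputable instance : NormedAddCommGroup (S1 H) :=
  inferInstanceAs (NormedAddCommGroup ↥(S1sub H))

noncomputable instance : NormedSpace ℂ (S1 H) := inferInstanceAs (NormedSpace ℂ ↥(S1sub H))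

noncomputable instance : CompleteSpace (S1 H) :=
  (Submodule.isClosed_topologicalClosure (FRk H)).completeSpace_coe

/-- The functional of an element of `S1`. -/
noncomputable def S1.toDual : S1 H →L[ℂ] StrongDual ℂ (H →L[ℂ] H) := (S1sub H).subtypeL

theorem S1.norm_toDual (X : S1 H) : ‖X.toDual‖ = ‖X‖ := rfl

theorem S1.toDual_injective : Function.Injective (S1.toDual (H := H)) :=
  fun _ _ h => Subtype.ext h

/-- An element of the closure as an element of `S1`. -/
def S1.mk (φ : StrongDual ℂ (H →L[ℂ] H)) (h : φ ∈ S1sub H) : S1 H := ⟨φ, h⟩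

theorem S1.toDual_mk (φ : StrongDual ℂ (H →L[ℂ] H)) (h : φ ∈ S1sub H) :
    (S1.mk φ h).toDual = φ := rfl

theorem S1.toDual_mem (X : S1 H) : X.toDual ∈ S1sub H := X.2

/-- `pr X Y = tr (Y X)`. -/
noncomputable def pr (X : S1 H) (Y : H →L[ℂ] H) : ℂ := X.toDual Y

/-- The trace. -/
noncomputable def tr (X : S1 H) : ℂ := pr X 1

/-- A bounded operator on the dual which maps the vector functionals to `S1`, restricted to
`S1`. -/
noncomputable def lift (Φ : StrongDual ℂ (H →L[ℂ] H) →L[ℂ] StrongDual ℂ (H →L[ℂ] H))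
    (hΦ : ∀ x y : H, Φ (vf x y) ∈ S1sub H) : S1 H →L[ℂ] S1 H :=
  (Φ.comp (S1sub H).subtypeL).codRestrict (S1sub H) (by
    intro X
    have h1 : FRk H ≤ (S1sub H).comap Φ.toLinearMap := by
      rw [FRk, Submodule.span_le]
      rintro _ ⟨p, rfl⟩
      exact hΦ p.1 p.2
    have h2 : IsClosed (((S1sub H).comap Φ.toLinearMap : Submodule ℂ _) :
        Set (StrongDual ℂ (H →L[ℂ] H))) :=
      (Submodule.isClosed_topologicalClosure (FRk H)).preimage Φ.continuous
    have h3 : S1sub H ≤ (S1sub H).comap Φ.toLinearMap :=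
      Submodule.topologicalClosure_minimal _ h1 h2
    exact h3 X.2)

theorem toDual_lift (Φ : StrongDual ℂ (H →L[ℂ] H) →L[ℂ] StrongDual ℂ (H →L[ℂ] H))
    (hΦ : ∀ x y : H, Φ (vf x y) ∈ S1sub H) (X : S1 H) :
    (lift Φ hΦ X).toDual = Φ X.toDual := rfl

/-- Precomposition with the left multiplication by `S`. -/
noncomputable def preL (S : H →L[ℂ] H) :
    StrongDual ℂ (H →L[ℂ] H) →L[ℂ] StrongDual ℂ (H →L[ℂ] H) :=
  (ContinuousLinearMap.compL ℂ (H →L[ℂ] H) (H →L[ℂ] H) ℂ).flip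
    (ContinuousLinearMap.mul ℂ (H →L[ℂ] H) S)

/-- Precomposition with the right multiplication by `S`. -/
noncomputable def preR (S : H →L[ℂ] H) :
    StrongDual ℂ (H →L[ℂ] H) →L[ℂ] StrongDual ℂ (H →L[ℂ] H) :=
  (ContinuousLinearMap.compL ℂ (H →L[ℂ] H) (H →L[ℂ] H) ℂ).flip
    ((ContinuousLinearMap.mul ℂ (H →L[ℂ] H)).flip S)

theorem preL_apply (S : H →L[ℂ] H) (φ : StrongDual ℂ (H →L[ℂ] H)) (Y : H →L[ℂ] H) :
    preL S φ Y = φ (S * Y) := rfl

theorem preR_apply (S : H →L[ℂ] H) (φ : StrongDual ℂ (H →L[ℂ] H)) (Y : H →L[ℂ] H) :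
    preR S φ Y = φ (Y * S) := rfl

theorem vf_mem (x y : H) : vf x y ∈ S1sub H :=
  (FRk H).le_topologicalClosure (Submodule.subset_span ⟨(x, y), rfl⟩)

/-- The product `S X`. -/
noncomputable def lm (S : H →L[ℂ] H) : S1 H →L[ℂ] S1 H :=
  lift (preR S) (by
    intro x y
    have : preR S (vf x y) = vf (S x) y := by
      ext Y
      rfl
    rw [this]
    exact vf_mem _ _)

/-- The product `X S`. -/
noncomputable def rm (S : H →L[ℂ] H) : S1 H →L[ℂ] S1 H :=
  lift (preL S) (by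
    intro x y
    have : preL S (vf x y) = vf x (star S y) := by
      ext Y
      change ⟪y, S (Y x)⟫_ℂ = ⟪(star S) y, Y x⟫_ℂ
      rw [ContinuousLinearMap.star_eq_adjoint, ContinuousLinearMap.adjoint_inner_left]
    rw [this]
    exact vf_mem _ _)

theorem pr_lm (S : H →L[ℂ] H) (X : S1 H) (Y : H →L[ℂ] H) : pr (lm S X) Y = pr X (Y * S) := rfl

theorem pr_rm (S : H →L[ℂ] H) (X : S1 H) (Y : H →L[ℂ] H) : pr (rm S X) Y = pr X (S * Y) := rfl

/-- The rank one operator `z ↦ ⟪y, z⟫ x`. -/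
noncomputable def r1 (x y : H) : H →L[ℂ] H := (innerSL ℂ y).smulRight x

theorem r1_apply (x y z : H) : r1 x y z = ⟪y, z⟫_ℂ • x := rfl

theorem norm_r1 (x y : H) : ‖r1 x y‖ = ‖y‖ * ‖x‖ := by
  rw [r1, ContinuousLinearMap.norm_smulRight_apply, innerSL_apply_norm]

/-- The sesquilinear form `(y, x) ↦ ⟪y, X x⟫ = X (r1 x y)` of a functional. -/
noncomputable def sesq (X : StrongDual ℂ (H →L[ℂ] H)) : H →L⋆[ℂ] H →L[ℂ] ℂ :=
  LinearMap.mkContinuous₂
    (LinearMap.mk₂'ₛₗ (starRingEnd ℂ) (RingHom.id ℂ) (fun y x => X (r1 x y))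
      (fun y y' x => by
        rw [← map_add]
        congr 1
        ext z
        simp [r1_apply, add_smul])
      (fun c y x => by
        rw [← map_smul]
        congr 1
        ext z
        simp [r1_apply, smul_smul, mul_comm])
      (fun y x x' => by
        rw [← map_add]
        congr 1
        ext z
        simp [r1_apply, smul_add])
      (fun c y x => by
        rw [RingHom.id_apply, ← map_smul]
        congr 1
        ext z
        simp only [r1_apply, _root_.smul_apply]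
        rw [smul_comm]))
    ‖X‖ (fun y x => by
      refine (X.le_opNorm _).trans (le_of_eq ?_)
      rw [norm_r1, mul_assoc])

theorem sesq_apply (X : StrongDual ℂ (H →L[ℂ] H)) (y x : H) : sesq X y x = X (r1 x y) := rfl

/-- The operator of a functional (as a function). -/
noncomputable def opf (X : StrongDual ℂ (H →L[ℂ] H)) : H →L[ℂ] H :=
  star (InnerProductSpace.continuousLinearMapOfBilin (𝕜 := ℂ) (sesq X))

theorem inner_opf (X : StrongDual ℂ (H →L[ℂ] H)) (y x : H) : ⟪y, opf X x⟫_ℂ = X (r1 x y) := by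
  rw [opf, ContinuousLinearMap.star_eq_adjoint, ContinuousLinearMap.adjoint_inner_right,
    InnerProductSpace.continuousLinearMapOfBilin_apply, sesq_apply]

theorem norm_opf_le (X : StrongDual ℂ (H →L[ℂ] H)) : ‖opf X‖ ≤ ‖X‖ := by
  refine ContinuousLinearMap.opNorm_le_bound _ (norm_nonneg _) fun x => ?_
  have h1 : ‖opf X x‖ ^ 2 ≤ ‖X‖ * ‖x‖ * ‖opf X x‖ := by
    have h2 : ((‖opf X x‖ ^ 2 : ℝ) : ℂ) = X (r1 x (opf X x)) := by
      rw [← inner_opf, inner_self_eq_norm_sq_to_K]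
      norm_cast
    have h3 : ‖((‖opf X x‖ ^ 2 : ℝ) : ℂ)‖ ≤ ‖X‖ * (‖opf X x‖ * ‖x‖) := by
      rw [h2]
      refine (X.le_opNorm _).trans (le_of_eq ?_)
      rw [norm_r1]
    rw [Complex.norm_real, Real.norm_of_nonneg (by positivity)] at h3
    linarith
  rcases (norm_nonneg (opf X x)).eq_or_lt with h | h
  · rw [← h]; positivity
  · nlinarith

/-- The operator of an element of `S1`, as a linear map. -/
noncomputable def opL : S1 H →ₗ[ℂ] (H →L[ℂ] H) where
  toFun := fun X : S1 H => opf X.toDual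
  map_add' := fun X Y => by
    refine ContinuousLinearMap.ext fun x => ext_inner_left ℂ fun y => ?_
    rw [_root_.add_apply, inner_add_right, inner_opf, inner_opf, inner_opf]
    rfl
  map_smul' := fun c X => by
    refine ContinuousLinearMap.ext fun x => ext_inner_left ℂ fun y => ?_
    rw [RingHom.id_apply, _root_.smul_apply, inner_smul_right, inner_opf, inner_opf]
    rfl

/-- The operator of an element of `S1`. -/
noncomputable def op : S1 H →L[ℂ] (H →L[ℂ] H) :=
  LinearMap.mkContinuous (opL (H := H)) 1 (fun X : S1 H => by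
    rw [one_mul]
    exact norm_opf_le X.toDual)

theorem inner_op (X : S1 H) (y x : H) : ⟪y, op X x⟫_ℂ = pr X (r1 x y) := inner_opf X.toDual y x

theorem norm_op_le (X : S1 H) : ‖op X‖ ≤ ‖X‖ := norm_opf_le X.toDual

/-- The product `S X T`. -/
noncomputable def sw (S T : H →L[ℂ] H) : S1 H →L[ℂ] S1 H := (lm S).comp (rm T)

/-- `tr (S X T X^*)`. -/
noncomputable def fm (X : S1 H) (S T : H →L[ℂ] H) : ℂ := pr X (T * star (op X) * S)

/-- A positive element of `S1`. -/
def Pos (X : S1 H) : Prop := ∀ Y : H →L[ℂ] H, 0 ≤ pr X (star Y * Y)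

end S1

section Groups

variable {H : Type v} [NormedAddCommGroup H] [InnerProductSpace ℂ H] [CompleteSpace H]

/-- The self-adjoint operator `ξ · N = Re (conj ξ * N)`. -/
noncomputable def dt (ξ : ℂ) (N : H →L[ℂ] H) : H →L[ℂ] H :=
  (1 / 2 : ℂ) • (conj ξ • N + ξ • star N)

/-- The real inner product of `ξ` and `z`. -/
def ip (ξ z : ℂ) : ℝ := ξ.re * z.re + ξ.im * z.im

/-- The character `z ↦ exp (i ξ · z)`. -/
noncomputable def ch (ξ z : ℂ) : ℂ := Complex.exp (Complex.I * (ip ξ z : ℝ))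

/-- `f(N)`. -/
noncomputable def fn (f : ℂ → ℂ) (N : H →L[ℂ] H) : H →L[ℂ] H := cfc f N

/-- `exp (i ξ · N)`. -/
noncomputable def ex (N : H →L[ℂ] H) (ξ : ℂ) : H →L[ℂ] H := cfc (ch ξ) N

/-- The function with Fourier density `a`: `z ↦ ∫ a(ξ) exp (i ξ · z) dξ`. -/
noncomputable def syn (a : ℂ → ℂ) (z : ℂ) : ℂ := ∫ ξ : ℂ, a ξ * ch ξ z

/-- The Gaussian density with variance `t ^ 2` in each of the two coordinates. -/
noncomputable def gam (t : ℝ) (s : ℂ) : ℝ :=
  1 / (2 * Real.pi * t ^ 2) * Real.exp (-(‖s‖ ^ 2 / (2 * t ^ 2)))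

/-- Multiplication by the Fourier transform of the Gaussian of width `ρ`: the Fourier density of
`k_ρ * u` if `a` is the Fourier density of `u`. -/
noncomputable def gm (ρ : ℝ) (a : ℂ → ℂ) (ξ : ℂ) : ℂ :=
  (Real.exp (-(ρ ^ 2 * ‖ξ‖ ^ 2 / 2)) : ℝ) * a ξ

/-- Fourier densities with all moments. -/
def Wt (a : ℂ → ℂ) : Prop :=
  AEStronglyMeasurable a volume ∧ ∀ k : ℕ, Integrable (fun ξ => ‖ξ‖ ^ k * ‖a ξ‖) volume

variable (H) in
/-- A pair of bounded normal operators whose difference is trace class: `D1`, `D2` are the real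
and imaginary parts of `A - B`, and `d` bounds the trace norm of `e · (A - B)`, `‖e‖ = 1`. -/
structure Pair where
  A : H →L[ℂ] H
  B : H →L[ℂ] H
  hA : IsStarNormal A
  hB : IsStarNormal B
  D1 : S1 H
  D2 : S1 H
  hD1 : op D1 = dt 1 A - dt 1 B
  hD2 : op D2 = dt Complex.I A - dt Complex.I B
  d : ℝ
  hd : ∀ e : ℂ, ‖(e.re : ℂ) • D1 + (e.im : ℂ) • D2‖ ≤ ‖e‖ * d

variable (P : Pair H)

/-- `ξ · (A - B)` as an element of `S1`. -/
noncomputable def Pair.D (e : ℂ) : S1 H := (e.re : ℂ) • P.D1 + (e.im : ℂ) • P.D2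

/-- The translation `exp (i s · A) Y exp (-i s · B)` of an operator. -/
noncomputable def tO (s : ℂ) (Y : H →L[ℂ] H) : H →L[ℂ] H := ex P.A s * Y * ex P.B (-s)

/-- The translation of an element of `S1`. -/
noncomputable def tD (s : ℂ) : S1 H →L[ℂ] S1 H := sw (ex P.A s) (ex P.B (-s))

/-- The average `∫ ψ(s) τ_s X ds` in `S1`. -/
noncomputable def av (ψ : ℂ → ℂ) (X : S1 H) : S1 H := ∫ s : ℂ, ψ s • tD P s X

/-- The average `∫ ψ(s) τ_s Y ds` in `B(H)`. -/
noncomputable def avO (ψ : ℂ → ℂ) (Y : H →L[ℂ] H) : H →L[ℂ] H := ∫ s : ℂ, ψ s • tO P s Y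

/-- The Gaussian average of width `t`. -/
noncomputable def G (t : ℝ) (X : S1 H) : S1 H := av P (fun s => (gam t s : ℂ)) X

/-- The energy function `v_e(t) = ‖G_t D_e‖_1`. -/
noncomputable def vv (e : ℂ) (t : ℝ) : ℝ := ‖G P t (P.D e)‖

/-- `exp (i ξ · A) - exp (i ξ · B)` as an element of `S1` (Duhamel). -/
noncomputable def Ed (ξ : ℂ) : S1 H :=
  Complex.I • ∫ c in (0 : ℝ)..1, sw (ex P.A (c * ξ)) (ex P.B ((1 - c) * ξ)) (P.D ξ)

/-- `u(A) - u(B)` as an element of `S1`, for `u = syn a`. -/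
noncomputable def Fd (a : ℂ → ℂ) : S1 H := ∫ ξ : ℂ, a ξ • Ed P ξ

/-- `T(u) = tr (u(A) - u(B))` for `u = syn a`. -/
noncomputable def T (a : ℂ → ℂ) : ℂ := tr (Fd P a)

/-- The window `exp (i ζ · A) exp (-i ζ · B) - 1` as an element of `S1`. -/
noncomputable def U (ζ : ℂ) : S1 H := rm (ex P.B (-ζ)) (Ed P ζ)

/-- `N_t(u) = tr G_{√2 t} (u(A) - u(B))`: the part of `T(u)` of the hops of length `≲ 1/t`. -/
noncomputable def Nt (t : ℝ) (a : ℂ → ℂ) : ℂ := tr (G P (Real.sqrt 2 * t) (Fd P a))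

/-- The main term `(1/2) ∑ (∇u(a) + ∇u(b)) · Δ exp (-t² |Δ|²) |J|²`. -/
noncomputable def Mn (t : ℝ) (a : ℂ → ℂ) : ℂ :=
  (1 / 2 : ℂ) * ∫ ξ : ℂ, a ξ * Complex.I *
    (pr (G P (Real.sqrt 2 * t) (P.D ξ)) (ex P.A ξ) + pr (G P (Real.sqrt 2 * t) (P.D ξ)) (ex P.B ξ))

end Groups

end Pool.Bes
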