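import Pool.Agent.Work.Bes.Interface

/-!
# Block GG: the exchange lemma
-/

open MeasureTheory Complex
open scoped ComplexOrder InnerProductSpace ComplexConjugate

set_option autoImplicit false
set_option linter.unusedSectionVars false

universe v

namespace Pool.Bes

namespace GGaux

/-! ### Gaussian convolution and sup norms -/

theorem ip_eq_inner (w z : ℂ) : ip w z = ⟪w, z⟫_ℝ := by
  rw [Complex.inner, ip]
  simp [Complex.mul_re]
  ring

theorem norm_ch (ξ z : ℂ) : ‖ch ξ z‖ = 1 := by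
  unfold ch
  rw [mul_comm]
  exact Complex.norm_exp_ofReal_mul_I _

theorem continuous_ch (ξ : ℂ) : Continuous (ch ξ) := by
  unfold ch ip
  fun_prop

theorem gauss_ft (ρ : ℝ) (hρ : 0 < ρ) (ξ : ℂ) :
    ∫ n : ℂ, (gam ρ n : ℂ) * ch ξ n = (Real.exp (-(ρ ^ 2 * ‖ξ‖ ^ 2 / 2)) : ℝ) := by
  have hb : 0 < ((1 / (2 * ρ ^ 2) : ℝ) : ℂ).re := by
    rw [Complex.ofReal_re]; positivity
  have key := GaussianFourier.integral_cexp_neg_mul_sq_norm_add (V := ℂ) hb Complex.I ξ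
  have h1 : ∀ n : ℂ, (gam ρ n : ℂ) * ch ξ n = (1 / (2 * Real.pi * ρ ^ 2) : ℝ) *
      Complex.exp (-((1 / (2 * ρ ^ 2) : ℝ) : ℂ) * ‖n‖ ^ 2 + Complex.I * ⟪ξ, n⟫_ℝ) := by
    intro n
    rw [← ip_eq_inner, Complex.exp_add]
    unfold gam ch
    push_cast
    rw [mul_assoc]
    congr 2
    · congr 1
      field_simp
  have h2 : (fun n : ℂ => (gam ρ n : ℂ) * ch ξ n) = fun n : ℂ =>
      ((1 / (2 * Real.pi * ρ ^ 2) : ℝ) : ℂ) *
      Complex.exp (-((1 / (2 * ρ ^ 2) : ℝ) : ℂ) * ‖n‖ ^ 2 + Complex.I * ⟪ξ, n⟫_ℝ) := funext h1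
  rw [h2, integral_const_mul, key, Complex.finrank_real_complex]
  have hρc : (ρ : ℂ) ≠ 0 := Complex.ofReal_ne_zero.2 hρ.ne'
  have hpi : (Real.pi : ℂ) ≠ 0 := Complex.ofReal_ne_zero.2 Real.pi_ne_zero
  have h3 : ((2 : ℕ) : ℂ) / 2 = 1 := by norm_num
  rw [h3, Complex.cpow_one, ← mul_assoc, Complex.ofReal_exp]
  have h4 : ((1 / (2 * Real.pi * ρ ^ 2) : ℝ) : ℂ) * ((Real.pi : ℂ) / ((1 / (2 * ρ ^ 2) : ℝ) : ℂ)) =
      1 := by
    push_cast
    field_simp
  rw [h4, one_mul]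
  congr 1
  push_cast
  rw [Complex.I_sq]
  field_simp
  ring

theorem sup_gm (a : ℂ → ℂ) (ha : Integrable a) (U ρ : ℝ) (hρ : 0 < ρ)
    (hg1 : (∫ s, gam ρ s) = 1) (hg2 : Integrable (gam ρ)) (hg3 : ∀ s, 0 < gam ρ s)
    (hU : ∀ z, ‖syn a z‖ ≤ U) (z : ℂ) : ‖syn (gm ρ a) z‖ ≤ U := by
  have hgC : Integrable (fun n : ℂ => (gam ρ n : ℂ)) := hg2.ofReal
  have h1 : syn (gm ρ a) z = ∫ n : ℂ, (gam ρ n : ℂ) * syn a (z + n) := by
    unfold syn
    have hint : Integrable (fun p : ℂ × ℂ => (gam ρ p.1 : ℂ) * (a p.2 * ch p.2 (z + p.1)))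
        (volume.prod volume) := by
      have h2 : Integrable (fun p : ℂ × ℂ => (gam ρ p.1 : ℂ) * a p.2) (volume.prod volume) :=
        hgC.mul_prod ha
      have h3 := h2.mul_bdd (c := 1) (g := fun p : ℂ × ℂ => ch p.2 (z + p.1)) ?_ ?_
      · refine h3.congr (Filter.Eventually.of_forall fun p => ?_)
        ring
      · have : Continuous fun p : ℂ × ℂ => ch p.2 (z + p.1) := by
          unfold ch ip
          fun_prop
        exact this.aestronglyMeasurable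
      · exact Filter.Eventually.of_forall fun p => (norm_ch _ _).le
    have h4 : ∀ n : ℂ, (gam ρ n : ℂ) * (∫ ξ : ℂ, a ξ * ch ξ (z + n)) =
        ∫ ξ : ℂ, (gam ρ n : ℂ) * (a ξ * ch ξ (z + n)) := fun n => by
      rw [integral_const_mul]
    simp_rw [h4]
    rw [integral_integral_swap hint]
    refine integral_congr_ae (Filter.Eventually.of_forall fun ξ => ?_)
    have h5 : ∀ n : ℂ, (gam ρ n : ℂ) * (a ξ * ch ξ (z + n)) =
        (a ξ * ch ξ z) * ((gam ρ n : ℂ) * ch ξ n) := by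
      intro n
      have : ch ξ (z + n) = ch ξ z * ch ξ n := by
        unfold ch ip
        rw [← Complex.exp_add]
        congr 1
        simp only [Complex.add_re, Complex.add_im]
        push_cast
        ring
      rw [this]
      ring
    simp only [h5]
    rw [integral_const_mul, gauss_ft ρ hρ]
    unfold gm
    ring
  rw [h1]
  have h6 : ∀ n : ℂ, ‖(gam ρ n : ℂ) * syn a (z + n)‖ ≤ gam ρ n * U := by
    intro n
    rw [norm_mul, Complex.norm_real, Real.norm_of_nonneg (hg3 n).le]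
    exact mul_le_mul_of_nonneg_left (hU _) (hg3 n).le
  calc ‖∫ n : ℂ, (gam ρ n : ℂ) * syn a (z + n)‖ ≤ ∫ n : ℂ, gam ρ n * U :=
        norm_integral_le_of_norm_le (hg2.mul_const U) (Filter.Eventually.of_forall h6)
    _ = U := by rw [integral_mul_const, hg1, one_mul]

theorem integrable_gm (a : ℂ → ℂ) (ha : Integrable a) (ρ : ℝ) : Integrable (gm ρ a) := by
  unfold gm
  refine ha.bdd_mul (c := 1) ?_ ?_
  · have : Continuous fun ξ : ℂ => ((Real.exp (-(ρ ^ 2 * ‖ξ‖ ^ 2 / 2)) : ℝ) : ℂ) := by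
      fun_prop
    exact this.aestronglyMeasurable
  · refine Filter.Eventually.of_forall fun ξ => ?_
    rw [Complex.norm_real, Real.norm_of_nonneg (Real.exp_nonneg _), Real.exp_le_one_iff]
    have : 0 ≤ ρ ^ 2 * ‖ξ‖ ^ 2 / 2 := by positivity
    linarith

/-! ### Pairing lemmas -/

variable {H : Type v} [NormedAddCommGroup H] [InnerProductSpace ℂ H] [CompleteSpace H]

theorem pr_subO (X : S1 H) (S T : H →L[ℂ] H) : pr X (S - T) = pr X S - pr X T := by
  unfold pr; simp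

theorem sn_nonneg (ω : S1 H) (Y : H →L[ℂ] H) : 0 ≤ sn ω Y := Real.sqrt_nonneg _

theorem sn_sub_comm (ω : S1 H) (Y Z : H →L[ℂ] H) : sn ω (Y - Z) = sn ω (Z - Y) := by
  unfold sn
  have : star (Y - Z) * (Y - Z) = star (Z - Y) * (Z - Y) := by
    rw [star_sub, star_sub]; noncomm_ring
  rw [this]

/-- cyclicity -/
theorem cyc (hA : Stmt_Alg.{v}) (X Y : S1 H) (S T : H →L[ℂ] H) :
    pr X (S * op Y * T) = pr Y (T * op X * S) := by
  obtain ⟨a1, a2, a3, -⟩ := hA H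
  have h1 : S * op Y * T = op (rm T (lm S Y)) := by rw [a2, a1]
  rw [h1, a3, pr_rm, pr_lm]

/-- Cauchy-Schwarz with one factor bounded in norm -/
theorem bd (hP : Stmt_Pos.{v}) (ω : S1 H) (hω : Pos ω) (A B : H →L[ℂ] H) (c d e : ℝ)
    (hA : ‖A‖ ≤ c) (hB : sn ω B ≤ d) (he : ‖ω‖ = e) (hc : 0 ≤ c) :
    ‖pr ω (A * B)‖ ≤ c * Real.sqrt e * d := by
  obtain ⟨-, -, -, p4, -, -, p7, -⟩ := hP H ω hω
  have h1 := p4 (star A) B
  rw [star_star] at h1
  refine h1.trans ?_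
  have h2 : sn ω (star A) ≤ c * Real.sqrt e := by
    refine (p7 (star A)).trans ?_
    rw [norm_star, he]
    exact mul_le_mul_of_nonneg_right hA (Real.sqrt_nonneg _)
  exact mul_le_mul h2 hB (sn_nonneg _ _) (mul_nonneg hc (Real.sqrt_nonneg _))

theorem bd' (hP : Stmt_Pos.{v}) (ω : S1 H) (hω : Pos ω) (A B : H →L[ℂ] H) (c d e : ℝ)
    (hA : sn ω (star A) ≤ d) (hB : ‖B‖ ≤ c) (he : ‖ω‖ = e) (hc : 0 ≤ c) :
    ‖pr ω (A * B)‖ ≤ c * Real.sqrt e * d := by
  obtain ⟨-, -, -, p4, -, -, p7, -⟩ := hP H ω hω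
  have h1 := p4 (star A) B
  rw [star_star] at h1
  refine h1.trans ?_
  have h2 : sn ω B ≤ c * Real.sqrt e := by
    refine (p7 B).trans ?_
    rw [he]
    exact mul_le_mul_of_nonneg_right hB (Real.sqrt_nonneg _)
  rw [mul_comm]
  exact mul_le_mul h2 hA (sn_nonneg _ _) (mul_nonneg hc (Real.sqrt_nonneg _))

end GGaux

open GGaux

theorem blk_GG : Stmt_Alg.{v} → Stmt_Pol.{v} → Stmt_Pos.{v} → Stmt_AL.{v} → Stmt_Fn.{v} →
    Stmt_Ex.{v} → Stmt_Av.{v} → Stmt_KN.{v} → Stmt_GG.{v} := by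
  intro hA hPol hP hAL hFn hEx hAv hKN H _ _ _ P X a ha U hU ρ hρ η s
  obtain ⟨W, ω, hW⟩ := hPol H X
  obtain ⟨Z, ωz, hZ⟩ := hPol H (G P (4 / ρ) X)
  obtain ⟨al1, al2, al3, al4, al5, al6, al7, -⟩ := hAL H X W ω hW
  obtain ⟨-, cl2, -⟩ := hAL H (G P (4 / ρ) X) Z ωz hZ
  obtain ⟨k1, k2, k3⟩ := hKN H P X W ω Z ρ hρ hW hZ.1 cl2
  have k3' := k3 a ha U hU η
  obtain ⟨-, -, -, -, -, -, -, g1, -⟩ := hAv H P
  obtain ⟨g1a, g1b, g1c⟩ := g1 ρ hρ
  obtain ⟨eA0, eAadd, eAst, eAn, -⟩ := hEx H P.A P.hA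
  obtain ⟨eB0, eBadd, eBst, eBn, -⟩ := hEx H P.B P.hB
  obtain ⟨a1, a2, a3, -⟩ := hA H
  have hW1 : ‖W‖ ≤ 1 := hW.1
  have hposω : Pos ω := hW.2.1
  obtain ⟨pa1, pa2, pa3, pa4, pa5, pa6, pa7, -, pa9⟩ := hP H ω hposω
  have hU0 : 0 ≤ U := (norm_nonneg _).trans (hU 0)
  have hgi : Integrable (gm ρ a) := integrable_gm a ha ρ
  have hgs : ∀ z, ‖syn (gm ρ a) z‖ ≤ U := sup_gm a ha U ρ hρ g1a g1b g1c hU
  have hAU : ‖fn (syn (gm ρ a)) P.A‖ ≤ U := (hFn H P.A P.hA _ hgi).2.2.1 U hgs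
  have hBU : ‖fn (syn (gm ρ a)) P.B‖ ≤ U := (hFn H P.B P.hB _ hgi).2.2.1 U hgs
  -- abbreviations
  set Y : H →L[ℂ] H := ∫ r, (gam (1 / ρ) r : ℂ) • tO P (-r) Z with hY
  set hA' : H →L[ℂ] H := fn (syn (gm ρ a)) P.A * ex P.A η with hAdef
  set hB' : H →L[ℂ] H := fn (syn (gm ρ a)) P.B * ex P.B η with hBdef
  set F : H →L[ℂ] H := ex P.B (-s) with hF
  set E : H →L[ℂ] H := ex P.A (-s) with hE
  set δ : ℝ := ‖X‖ - ‖G P (4 / ρ) X‖ with hδ
  set x : ℝ := ‖op X‖ with hx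
  have hx0 : 0 ≤ x := norm_nonneg _
  have hFn1 : ‖F‖ ≤ 1 := eBn _
  have hEn1 : ‖E‖ ≤ 1 := eAn _
  have hA'n : ‖hA'‖ ≤ U := by
    refine (norm_mul_le _ _).trans ?_
    calc ‖fn (syn (gm ρ a)) P.A‖ * ‖ex P.A η‖ ≤ U * 1 :=
          mul_le_mul hAU (eAn _) (norm_nonneg _) hU0
      _ = U := mul_one U
  have hB'n : ‖hB'‖ ≤ U := by
    refine (norm_mul_le _ _).trans ?_
    calc ‖fn (syn (gm ρ a)) P.B‖ * ‖ex P.B η‖ ≤ U * 1 :=
          mul_le_mul hBU (eBn _) (norm_nonneg _) hU0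
      _ = U := mul_one U
  have hsaP : star (op ω) = op ω := (IsSelfAdjoint.of_nonneg pa2).star_eq
  have hPn : ‖op ω‖ ≤ x := by
    rw [al6]
    refine (norm_mul_le _ _).trans ?_
    rw [norm_star]
    calc ‖W‖ * ‖op X‖ ≤ 1 * x := mul_le_mul hW1 le_rfl (norm_nonneg _) (by norm_num)
      _ = x := one_mul x
  set ω' : S1 H := rm (star W) X with hω'
  obtain ⟨pb1, pb2, pb3, pb4, pb5, pb6, pb7, -, pb9⟩ := hP H ω' al3
  have hsaP' : star (op ω') = op ω' := (IsSelfAdjoint.of_nonneg pb2).star_eq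
  have hTP' : op X = op ω' * W := by
    conv_lhs => rw [al4]
    rw [a2]
  have hTst : star (op X) = op ω * star W := by rw [al7, star_mul, hsaP]
  have hTst' : star (op X) = star W * op ω' := by rw [hTP', star_mul, hsaP']
  have hTstn : ‖star (op X)‖ ≤ x := by rw [norm_star]
  have hTW : star (op X) * W = op ω := by
    have h1 : star (star W * op X) = op ω := by rw [← al6, hsaP]
    rw [star_mul, star_star] at h1
    exact h1
  have prX : ∀ S : H →L[ℂ] H, pr X S = pr ω (S * W) := fun S => by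
    conv_lhs => rw [hW.2.2.1]
    rw [pr_lm]
  -- exponentials
  set e1 : ℝ := Real.exp (ρ ^ 2 * ‖η‖ ^ 2 / 56) with he1
  set e2 : ℝ := Real.exp (ρ ^ 2 * ‖s‖ ^ 2 / 56) with he2
  set e3 : ℝ := Real.exp (ρ ^ 2 * (‖η‖ ^ 2 + ‖s‖ ^ 2) / 56) with he3
  have he31 : e1 ≤ e3 := by
    apply Real.exp_le_exp.2
    have : 0 ≤ ρ ^ 2 * ‖s‖ ^ 2 := by positivity
    nlinarith
  have he32 : e2 ≤ e3 := by
    apply Real.exp_le_exp.2
    have : 0 ≤ ρ ^ 2 * ‖η‖ ^ 2 := by positivity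
    nlinarith
  have he30 : 1 ≤ e3 := by
    apply Real.one_le_exp
    positivity
  -- the constant `sqrt 32 ≤ 6`
  have h32 : Real.sqrt (32 * δ) ≤ 6 * Real.sqrt δ := by
    rw [Real.sqrt_mul (by norm_num : (0:ℝ) ≤ 32)]
    refine mul_le_mul_of_nonneg_right ?_ (Real.sqrt_nonneg _)
    rw [show (6:ℝ) = Real.sqrt 36 by
      rw [show (36:ℝ) = 6 ^ 2 by norm_num]; exact (Real.sqrt_sq (by norm_num)).symm]
    exact Real.sqrt_le_sqrt (by norm_num)
  set D : ℝ := Real.sqrt δ with hD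
  have hD0 : 0 ≤ D := Real.sqrt_nonneg _
  set sX : ℝ := Real.sqrt ‖X‖ with hsX
  have hsX0 : 0 ≤ sX := Real.sqrt_nonneg _
  have hYW : sn ω (Y - W) ≤ 6 * D := k1.trans h32
  have hWY : sn ω (W - Y) ≤ 6 * D := by rw [sn_sub_comm]; exact hYW
  have hYW' : ∀ s' : ℂ, sn ω' (star (tO P s' Y - W)) ≤
      Real.exp (ρ ^ 2 * ‖s'‖ ^ 2 / 56) * (6 * D) := fun s' =>
    (k2 s').trans (mul_le_mul_of_nonneg_left h32 (Real.exp_nonneg _))
  have htO0 : tO P 0 Y = Y := by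
    unfold tO
    rw [neg_zero, eA0, eB0, one_mul, mul_one]
  have hYW0 : sn ω' (star (Y - W)) ≤ 6 * D := by
    have h1 := hYW' 0
    rw [htO0] at h1
    simpa using h1
  -- step 1
  set N1 : ℂ := pr ω (F * star (op X) * hA' * Y) with hN1
  set N2 : ℂ := pr ω (F * star (op X) * Y * hB') with hN2
  set N3 : ℂ := pr ω (F * op ω * hB') with hN3
  set N4 : ℂ := pr ω (star Y * E * op X * hB') with hN4
  have hfirst : fm X hA' F = pr ω (F * star (op X) * hA' * W) := by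
    unfold fm
    rw [prX]
  have hsecond : fm X E hB' = pr ω (star W * E * op X * hB') := by
    unfold fm
    have h1 : hB' * star (op X) * E = hB' * op ω * (star W * E) := by
      rw [hTst]; noncomm_ring
    rw [h1, cyc hA]
  have s1 : ‖fm X hA' F - N1‖ ≤ x * sX * (U * (6 * D)) := by
    rw [hfirst, hN1, ← pr_subO]
    have h1 : F * star (op X) * hA' * W - F * star (op X) * hA' * Y =
        (F * star (op X)) * (hA' * (W - Y)) := by noncomm_ring
    rw [h1]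
    refine bd hP ω hposω _ _ x (U * (6 * D)) ‖X‖ ?_ ?_ al1 hx0
    · refine (norm_mul_le _ _).trans ?_
      calc ‖F‖ * ‖star (op X)‖ ≤ 1 * x := mul_le_mul hFn1 hTstn (norm_nonneg _) (by norm_num)
        _ = x := one_mul x
    · refine (pa6 _ _).trans ?_
      exact mul_le_mul hA'n hWY (sn_nonneg _ _) hU0
  have s2 : ‖N1 - N2‖ ≤ x * sX * (14 * U * e1 * D) := by
    rw [hN1, hN2, ← pr_subO]
    have h1 : F * star (op X) * hA' * Y - F * star (op X) * Y * hB' =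
        (F * star (op X)) * (hA' * Y - Y * hB') := by noncomm_ring
    rw [h1]
    refine bd hP ω hposω _ _ x (14 * U * e1 * D) ‖X‖ ?_ ?_ al1 hx0
    · refine (norm_mul_le _ _).trans ?_
      calc ‖F‖ * ‖star (op X)‖ ≤ 1 * x := mul_le_mul hFn1 hTstn (norm_nonneg _) (by norm_num)
        _ = x := one_mul x
    · exact k3'
  have s5 : ‖N2 - N3‖ ≤ (U * x) * sX * (6 * D) := by
    have h0 : F * op ω * hB' = F * star (op X) * W * hB' := by
      rw [← hTW]; noncomm_ring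
    rw [hN2, hN3, h0, ← pr_subO]
    have h1 : F * star (op X) * Y * hB' - F * star (op X) * W * hB' =
        (F * star W) * op ω' * ((Y - W) * hB') := by
      rw [hTst']; noncomm_ring
    rw [h1, cyc hA]
    have h2 : (Y - W) * hB' * op ω * (F * star W) = (Y - W) * (hB' * op ω * (F * star W)) := by
      noncomm_ring
    rw [h2]
    refine bd' hP ω' al3 _ _ (U * x) (6 * D) ‖X‖ hYW0 ?_ al5 (mul_nonneg hU0 hx0)
    refine (norm_mul_le _ _).trans ?_
    have h3 : ‖hB' * op ω‖ ≤ U * x :=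
      (norm_mul_le _ _).trans (mul_le_mul hB'n hPn (norm_nonneg _) hU0)
    have h4 : ‖F * star W‖ ≤ 1 := by
      refine (norm_mul_le _ _).trans ?_
      rw [norm_star]
      calc ‖F‖ * ‖W‖ ≤ 1 * 1 := mul_le_mul hFn1 hW1 (norm_nonneg _) (by norm_num)
        _ = 1 := one_mul 1
    calc ‖hB' * op ω‖ * ‖F * star W‖ ≤ (U * x) * 1 :=
          mul_le_mul h3 h4 (norm_nonneg _) (mul_nonneg hU0 hx0)
      _ = U * x := mul_one _
  have s3 : ‖fm X E hB' - N4‖ ≤ (x * U) * sX * (6 * D) := by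
    rw [hsecond, hN4, ← pr_subO]
    have h1 : star W * E * op X * hB' - star Y * E * op X * hB' =
        star (W - Y) * (E * op X * hB') := by rw [star_sub]; noncomm_ring
    rw [h1]
    refine bd' hP ω hposω _ _ (x * U) (6 * D) ‖X‖ ?_ ?_ al1 (mul_nonneg hx0 hU0)
    · rw [star_star]; exact hWY
    · refine (norm_mul_le _ _).trans ?_
      have h3 : ‖E * op X‖ ≤ x := by
        refine (norm_mul_le _ _).trans ?_
        calc ‖E‖ * ‖op X‖ ≤ 1 * x := mul_le_mul hEn1 le_rfl (norm_nonneg _) (by norm_num)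
          _ = x := one_mul x
      exact mul_le_mul h3 hB'n (norm_nonneg _) hx0
  have s4 : ‖N4 - N3‖ ≤ (U * x) * sX * (e2 * (6 * D)) := by
    have h0 : star Y * E = F * star (tO P s Y) := by
      unfold tO
      rw [star_mul, star_mul, eAst, eBst, neg_neg, hE, hF, ← mul_assoc, ← eBadd, neg_add_cancel,
        eB0, one_mul]
    have h0' : F * op ω * hB' = F * star W * op X * hB' := by
      rw [al6]; noncomm_ring
    rw [hN4, hN3, h0, h0', ← pr_subO]
    have h1 : F * star (tO P s Y) * op X * hB' - F * star W * op X * hB' =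
        (F * star (tO P s Y - W)) * op ω' * (W * hB') := by
      rw [hTP', star_sub]; noncomm_ring
    rw [h1, cyc hA]
    have h2 : W * hB' * op ω * (F * star (tO P s Y - W)) =
        (W * hB' * op ω * F) * star (tO P s Y - W) := by noncomm_ring
    rw [h2]
    refine bd hP ω' al3 _ _ (U * x) (e2 * (6 * D)) ‖X‖ ?_ (hYW' s) al5 (mul_nonneg hU0 hx0)
    have h3 : ‖W * hB'‖ ≤ U := by
      refine (norm_mul_le _ _).trans ?_
      calc ‖W‖ * ‖hB'‖ ≤ 1 * U := mul_le_mul hW1 hB'n (norm_nonneg _) (by norm_num)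
        _ = U := one_mul U
    have h4 : ‖W * hB' * op ω‖ ≤ U * x :=
      (norm_mul_le _ _).trans (mul_le_mul h3 hPn (norm_nonneg _) hU0)
    refine (norm_mul_le _ _).trans ?_
    calc ‖W * hB' * op ω‖ * ‖F‖ ≤ (U * x) * 1 :=
          mul_le_mul h4 hFn1 (norm_nonneg _) (mul_nonneg hU0 hx0)
      _ = U * x := mul_one _
  -- assembly
  have htot : ‖fm X hA' F - fm X E hB'‖ ≤ x * sX * (U * (6 * D)) + x * sX * (14 * U * e1 * D) +
      (U * x) * sX * (6 * D) + ((x * U) * sX * (6 * D) + (U * x) * sX * (e2 * (6 * D))) := by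
    have h1 : fm X hA' F - fm X E hB' = (fm X hA' F - N1) + (N1 - N2) + (N2 - N3) -
        ((fm X E hB' - N4) + (N4 - N3)) := by ring
    rw [h1]
    refine (norm_sub_le _ _).trans (add_le_add ?_ ?_)
    · exact (norm_add_le _ _).trans (add_le_add ((norm_add_le _ _).trans (add_le_add s1 s2)) s5)
    · exact (norm_add_le _ _).trans (add_le_add s3 s4)
  refine htot.trans ?_
  have hfin : Real.sqrt (‖X‖ * δ) = sX * D := Real.sqrt_mul (norm_nonneg _) δ
  rw [hfin]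
  have hq : 0 ≤ U * x * (sX * D) := mul_nonneg (mul_nonneg hU0 hx0) (mul_nonneg hsX0 hD0)
  have h1 : x * sX * (U * (6 * D)) + x * sX * (14 * U * e1 * D) +
      (U * x) * sX * (6 * D) + ((x * U) * sX * (6 * D) + (U * x) * sX * (e2 * (6 * D))) =
      (U * x * (sX * D)) * (18 + 14 * e1 + 6 * e2) := by ring
  have h2 : 40 * U * e3 * x * (sX * D) = (U * x * (sX * D)) * (40 * e3) := by ring
  rw [h1, h2]
  refine mul_le_mul_of_nonneg_left ?_ hq
  linarith

end Pool.Bes
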