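import Pool.Agent.Work.Bes.Defs

/-!
# `|tr (f(A) - f(B))| ≤ C ‖A - B‖₁ (Lip f + ‖f‖_{B^1_{∞,2}})`: the blocks

Every block is a `Prop` `Stmt_...`.  Proofs on paper: `BLUEPRINT.md`.
-/

open MeasureTheory Complex
open scoped ComplexOrder InnerProductSpace ComplexConjugate

set_option autoImplicit false
set_option linter.unusedSectionVars false

universe v

namespace Pool.Bes

section

variable {H : Type v} [NormedAddCommGroup H] [InnerProductSpace ℂ H] [CompleteSpace H]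

/-- The seminorm `(tr Y ω Y^*)^{1/2}` of a positive `ω`. -/
noncomputable def sn (ω : S1 H) (Y : H →L[ℂ] H) : ℝ := Real.sqrt (pr ω (star Y * Y)).re

/-- `(W, ω)` is the polar decomposition of `X`: `X = W ω`, `ω = W^* X ≥ 0`. -/
def IsPolar (X : S1 H) (W : H →L[ℂ] H) (ω : S1 H) : Prop :=
  ‖W‖ ≤ 1 ∧ Pos ω ∧ X = lm W ω ∧ ω = lm (star W) X

/-- `tr X Y^*`-type products: `tr (a^* b)`. -/
noncomputable def hs (a b : S1 H) : ℂ := pr b (star (op a))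

end

/-- the Fourier density of the derivative in the direction `e` -/
noncomputable def dd (e : ℂ) (a : ℂ → ℂ) (ξ : ℂ) : ℂ := Complex.I * (ip e ξ : ℂ) * a ξ

/-! ### The toolkit -/

/-- BLOCK ALG -/
def Stmt_Alg : Prop := ∀ (H : Type v) [NormedAddCommGroup H] [InnerProductSpace ℂ H]
    [CompleteSpace H],
    (∀ (S : H →L[ℂ] H) (X : S1 H), op (lm S X) = S * op X) ∧
    (∀ (S : H →L[ℂ] H) (X : S1 H), op (rm S X) = op X * S) ∧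
    (∀ X Y : S1 H, pr X (op Y) = pr Y (op X)) ∧
    (∀ X : S1 H, op X = 0 → X = 0) ∧
    (∀ (S : H →L[ℂ] H) (X : S1 H), ‖lm S X‖ ≤ ‖S‖ * ‖X‖) ∧
    (∀ (S : H →L[ℂ] H) (X : S1 H), ‖rm S X‖ ≤ ‖S‖ * ‖X‖) ∧
    (∀ (X : S1 H) (Y : H →L[ℂ] H), ‖pr X Y‖ ≤ ‖X‖ * ‖Y‖) ∧
    (∀ X Y : S1 H, pr X (star (op Y)) = conj (pr Y (star (op X)))) ∧
    (∀ X : S1 H, star (op X) = op X → ∀ Y : H →L[ℂ] H, pr X (star Y) = conj (pr X Y))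

/-- BLOCK POL -/
def Stmt_Pol : Prop := ∀ (H : Type v) [NormedAddCommGroup H] [InnerProductSpace ℂ H]
    [CompleteSpace H] (X : S1 H), ∃ (W : H →L[ℂ] H) (ω : S1 H), IsPolar X W ω

/-- BLOCK POS -/
def Stmt_Pos : Prop := ∀ (H : Type v) [NormedAddCommGroup H] [InnerProductSpace ℂ H]
    [CompleteSpace H] (ω : S1 H), Pos ω →
    (∀ Y : H →L[ℂ] H, 0 ≤ Y → 0 ≤ pr ω Y) ∧ 0 ≤ op ω ∧ pr ω 1 = (‖ω‖ : ℂ) ∧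
    (∀ Y Z : H →L[ℂ] H, ‖pr ω (star Y * Z)‖ ≤ sn ω Y * sn ω Z) ∧
    (∀ Y Z : H →L[ℂ] H, sn ω (Y + Z) ≤ sn ω Y + sn ω Z) ∧
    (∀ S Y : H →L[ℂ] H, sn ω (S * Y) ≤ ‖S‖ * sn ω Y) ∧
    (∀ Y : H →L[ℂ] H, sn ω Y ≤ ‖Y‖ * Real.sqrt ‖ω‖) ∧
    (∀ (V : ℂ → H →L[ℂ] H), Integrable V → sn ω (∫ r, V r) ≤ ∫ r, sn ω (V r)) ∧
    (∀ Y, sn ω Y ^ 2 = (pr ω (star Y * Y)).re)

/-- BLOCK AL: alignment of a contraction with the polar part. -/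
def Stmt_AL : Prop := ∀ (H : Type v) [NormedAddCommGroup H] [InnerProductSpace ℂ H]
    [CompleteSpace H] (X : S1 H) (W : H →L[ℂ] H) (ω : S1 H), IsPolar X W ω →
    ‖ω‖ = ‖X‖ ∧ pr X (star W) = (‖X‖ : ℂ) ∧ Pos (rm (star W) X) ∧ X = rm W (rm (star W) X) ∧
    ‖rm (star W) X‖ = ‖X‖ ∧ op ω = star W * op X ∧ op X = W * op ω ∧
    ∀ V : H →L[ℂ] H, ‖V‖ ≤ 1 →
      sn ω (V - W) ^ 2 ≤ 2 * (‖X‖ - (pr X (star V)).re) ∧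
      sn (rm (star W) X) (star (V - W)) ^ 2 ≤ 2 * (‖X‖ - (pr X (star V)).re)

/-- BLOCK EX: the groups `exp (i s · N)`. -/
def Stmt_Ex : Prop := ∀ (H : Type v) [NormedAddCommGroup H] [InnerProductSpace ℂ H]
    [CompleteSpace H] (N : H →L[ℂ] H), IsStarNormal N →
    ex N 0 = 1 ∧ (∀ s t : ℂ, ex N (s + t) = ex N s * ex N t) ∧
    (∀ s : ℂ, star (ex N s) = ex N (-s)) ∧ (∀ s : ℂ, ‖ex N s‖ ≤ 1) ∧ Continuous (ex N) ∧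
    (∀ s ξ : ℂ, Commute (dt ξ N) (ex N s)) ∧
    (∀ (f : ℂ → ℂ) (s : ℂ), Continuous f → Commute (fn f N) (ex N s)) ∧
    (∀ (ξ : ℂ) (c : ℝ), HasDerivAt (fun c : ℝ => ex N (c * ξ))
      (Complex.I • (dt ξ N * ex N (c * ξ))) c)

/-- BLOCK FN: functions with an integrable Fourier density. -/
def Stmt_Fn : Prop := ∀ (H : Type v) [NormedAddCommGroup H] [InnerProductSpace ℂ H]
    [CompleteSpace H] (N : H →L[ℂ] H), IsStarNormal N → ∀ (a : ℂ → ℂ), Integrable a →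
    Continuous (syn a) ∧ fn (syn a) N = ∫ ξ, a ξ • ex N ξ ∧
    (∀ U : ℝ, (∀ z, ‖syn a z‖ ≤ U) → ‖fn (syn a) N‖ ≤ U) ∧
    (∀ n z : ℂ, syn (fun ξ => ch ξ n * a ξ) z = syn a (z + n)) ∧
    Integrable (fun ξ => a ξ • ex N ξ)

/-- BLOCK AV: averages of translates. -/
def Stmt_Av : Prop := ∀ (H : Type v) [NormedAddCommGroup H] [InnerProductSpace ℂ H]
    [CompleteSpace H] (P : Pair H),
    (∀ (s t : ℂ) (X : S1 H), tD P (s + t) X = tD P s (tD P t X)) ∧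
    (∀ (s : ℂ) (X : S1 H), ‖tD P s X‖ = ‖X‖) ∧ (∀ X : S1 H, Continuous fun s => tD P s X) ∧
    (∀ Y : H →L[ℂ] H, Continuous fun s => tO P s Y) ∧
    (∀ (s : ℂ) (X : S1 H), op (tD P s X) = tO P s (op X)) ∧
    (∀ (ψ : ℂ → ℂ) (X : S1 H), Integrable ψ → ‖av P ψ X‖ ≤ (∫ s, ‖ψ s‖) * ‖X‖) ∧
    (∀ (ψ : ℂ → ℂ) (X : S1 H), Integrable ψ → op (av P ψ X) = avO P ψ (op X)) ∧
    (∀ t : ℝ, 0 < t → (∫ s, gam t s) = 1 ∧ Integrable (gam t) ∧ ∀ s, 0 < gam t s) ∧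
    (∀ (t : ℝ) (X : S1 H), 0 < t → ‖G P t X‖ ≤ ‖X‖) ∧
    (∀ (t r : ℝ) (X : S1 H), 0 < t → 0 < r → G P t (G P r X) = G P (Real.sqrt (t ^ 2 + r ^ 2)) X) ∧
    (∀ (t : ℝ) (s : ℂ) (X : S1 H), tD P s (G P t X) = G P t (tD P s X)) ∧
    (∀ e : ℂ, AntitoneOn (vv P e) (Set.Ioi 0)) ∧ (∀ (e : ℂ) (t : ℝ), 0 < t → vv P e t ≤ ‖e‖ * P.d)

/-- BLOCK DU: Duhamel. -/
def Stmt_Du : Prop := ∀ (H : Type v) [NormedAddCommGroup H] [InnerProductSpace ℂ H]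
    [CompleteSpace H] (P : Pair H),
    (∀ ξ : ℂ, op (P.D ξ) = dt ξ P.A - dt ξ P.B) ∧ (∀ ξ : ℂ, ‖P.D ξ‖ ≤ ‖ξ‖ * P.d) ∧
    (∀ ξ : ℂ, op (Ed P ξ) = ex P.A ξ - ex P.B ξ) ∧ (∀ ξ : ℂ, ‖Ed P ξ‖ ≤ ‖ξ‖ * P.d) ∧
    Continuous (Ed P) ∧
    (∀ ζ : ℂ, op (U P ζ) = ex P.A ζ * ex P.B (-ζ) - 1) ∧ (∀ ζ : ℂ, ‖U P ζ‖ ≤ ‖ζ‖ * P.d) ∧
    (∀ ζ : ℂ, ‖op (U P ζ)‖ ≤ 2) ∧ (∀ ζ : ℂ, ‖op (U P ζ)‖ ≤ ‖ζ‖ * ‖P.A - P.B‖) ∧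
    (∀ s t : ℂ, U P (s + t) = U P s + tD P s (U P t)) ∧ Continuous (U P) ∧
    (∀ s e : ℂ, HasDerivAt (fun c : ℝ => U P (s + c * e)) (Complex.I • tD P s (P.D e)) 0) ∧
    (∀ (e : ℂ) (r : ℝ), 0 < r → ‖op (G P r (P.D e))‖ ≤ ‖e‖ / r) ∧
    (∀ a : ℂ → ℂ, Wt a → Integrable (fun ξ => a ξ • Ed P ξ) ∧
      op (Fd P a) = fn (syn a) P.A - fn (syn a) P.B ∧ T P a = ∫ ξ, a ξ * tr (Ed P ξ))

/-- BLOCK WT: stability of the class `Wt`. -/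
def Stmt_Wt : Prop :=
  (∀ a : ℂ → ℂ, Wt a → Integrable a) ∧ (∀ (a : ℂ → ℂ) (ρ : ℝ), Wt a → Wt (gm ρ a)) ∧
  (∀ a b : ℂ → ℂ, Wt a → Wt b → Wt (fun ξ => a ξ + b ξ)) ∧
  (∀ a b : ℂ → ℂ, Wt a → Wt b → Wt (fun ξ => a ξ - b ξ)) ∧
  (∀ (a : ℂ → ℂ) (c : ℂ), Wt a → Wt (fun ξ => c * a ξ)) ∧
  (∀ (a : ℂ → ℂ) (e : ℂ), Wt a → Wt (fun ξ => (ip e ξ : ℂ) * a ξ)) ∧
  (∀ (a : ℂ → ℂ) (n : ℂ), Wt a → Wt (fun ξ => ch ξ n * a ξ)) ∧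
  (∀ (a : ℂ → ℂ) (ρ σ : ℝ), gm ρ (gm σ a) = gm (Real.sqrt (ρ ^ 2 + σ ^ 2)) a) ∧
  (∀ (a : ℂ → ℂ), Wt a → ∀ ρ : ℝ, 0 < ρ → ∀ z : ℂ,
    syn (gm ρ a) z = ∫ n : ℂ, gam ρ n * syn a (z + n))

/-- BLOCK DER: sup norms of derivatives of `k_ρ * u`. -/
def Stmt_Der : Prop := ∀ (a : ℂ → ℂ), Wt a → ∀ (U ρ : ℝ), 0 < ρ → (∀ z, ‖syn a z‖ ≤ U) →
  (∀ z, ‖syn (gm ρ a) z‖ ≤ U) ∧
  (∀ e z : ℂ, ‖syn (fun ξ => (ip e ξ : ℂ) * gm ρ a ξ) z‖ ≤ ‖e‖ * U / ρ) ∧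
  (∀ z, ‖syn (fun ξ => (ξ.re : ℂ) ^ 2 * gm ρ a ξ) z‖ ≤ 3 / 2 * U / ρ ^ 2) ∧
  (∀ z, ‖syn (fun ξ => (ξ.im : ℂ) ^ 2 * gm ρ a ξ) z‖ ≤ 3 / 2 * U / ρ ^ 2) ∧
  (∀ z, ‖syn (fun ξ => (ξ.re : ℂ) * (ξ.im : ℂ) * gm ρ a ξ) z‖ ≤ 3 / 2 * U / ρ ^ 2)

/-! ### The exchange lemma -/

/-- the kernel `Λ` -/
noncomputable def Lam (ρ : ℝ) (n r : ℂ) : ℂ :=
  1 / (8 * (Real.pi : ℂ) ^ 2) * Complex.exp (-((ρ ^ 2 * ‖r‖ ^ 2 / 4 + ‖n‖ ^ 2 / (4 * ρ ^ 2) : ℝ) : ℂ)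
    - Complex.I * ((ip n r / 2 : ℝ) : ℂ))

/-- BLOCK KI: the kernel identity. -/
def Stmt_KI : Prop := ∀ (H : Type v) [NormedAddCommGroup H] [InnerProductSpace ℂ H]
    [CompleteSpace H] (P : Pair H) (Z : H →L[ℂ] H) (a : ℂ → ℂ), Integrable a → ∀ ρ : ℝ, 0 < ρ →
    ∀ η : ℂ,
    fn (syn (gm ρ a)) P.A * ex P.A η * (∫ r, (gam (1 / ρ) r : ℂ) • tO P (-r) Z) -
      (∫ r, (gam (1 / ρ) r : ℂ) • tO P (-r) Z) * (fn (syn (gm ρ a)) P.B * ex P.B η) =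
    ∫ n : ℂ, fn (syn fun ξ => ch ξ n * a ξ) P.A * ex P.A η *
      ∫ r : ℂ, ((gam ρ n : ℂ) * gam (1 / ρ) r - Lam ρ n (r - η)) • tO P (-r) Z

/-- BLOCK KN: its norm. -/
def Stmt_KN : Prop := ∀ (H : Type v) [NormedAddCommGroup H] [InnerProductSpace ℂ H]
    [CompleteSpace H] (P : Pair H) (X : S1 H) (W : H →L[ℂ] H) (ω : S1 H) (Z : H →L[ℂ] H)
    (ρ : ℝ), 0 < ρ → IsPolar X W ω → ‖Z‖ ≤ 1 →
    pr (G P (4 / ρ) X) (star Z) = (‖G P (4 / ρ) X‖ : ℂ) →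
    sn ω ((∫ r, (gam (1 / ρ) r : ℂ) • tO P (-r) Z) - W) ≤
      Real.sqrt (32 * (‖X‖ - ‖G P (4 / ρ) X‖)) ∧
    (∀ s : ℂ, sn (rm (star W) X) (star (tO P s (∫ r, (gam (1 / ρ) r : ℂ) • tO P (-r) Z) - W)) ≤
      Real.exp (ρ ^ 2 * ‖s‖ ^ 2 / 56) * Real.sqrt (32 * (‖X‖ - ‖G P (4 / ρ) X‖))) ∧
    ∀ (a : ℂ → ℂ), Integrable a → ∀ U : ℝ, (∀ z, ‖syn a z‖ ≤ U) → ∀ η : ℂ,
      sn ω (fn (syn (gm ρ a)) P.A * ex P.A η * (∫ r, (gam (1 / ρ) r : ℂ) • tO P (-r) Z) -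
        (∫ r, (gam (1 / ρ) r : ℂ) • tO P (-r) Z) * (fn (syn (gm ρ a)) P.B * ex P.B η)) ≤
      14 * U * Real.exp (ρ ^ 2 * ‖η‖ ^ 2 / 56) * Real.sqrt (‖X‖ - ‖G P (4 / ρ) X‖)

/-- BLOCK GG: the exchange lemma. -/
def Stmt_GG : Prop := ∀ (H : Type v) [NormedAddCommGroup H] [InnerProductSpace ℂ H]
    [CompleteSpace H] (P : Pair H) (X : S1 H) (a : ℂ → ℂ), Integrable a → ∀ U : ℝ,
    (∀ z, ‖syn a z‖ ≤ U) → ∀ ρ : ℝ, 0 < ρ → ∀ η s : ℂ,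
    ‖fm X (fn (syn (gm ρ a)) P.A * ex P.A η) (ex P.B (-s)) -
      fm X (ex P.A (-s)) (fn (syn (gm ρ a)) P.B * ex P.B η)‖ ≤
    40 * U * Real.exp (ρ ^ 2 * (‖η‖ ^ 2 + ‖s‖ ^ 2) / 56) * ‖op X‖ *
      Real.sqrt (‖X‖ * (‖X‖ - ‖G P (4 / ρ) X‖))

/-! ### Far and near parts -/

/-- BLOCK FARI: the flow of the Gaussian cut-off. -/
def Stmt_FarI : Prop := ∀ (H : Type v) [NormedAddCommGroup H] [InnerProductSpace ℂ H]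
    [CompleteSpace H] (P : Pair H) (a : ℂ → ℂ), Wt a → ∀ t : ℝ, 0 < t →
    T P a - Nt P t a = ∫ r in (0 : ℝ)..t, (2 * r : ℂ) *
      ((fm (G P r (P.D 1)) (fn (syn a) P.A) 1 - fm (G P r (P.D 1)) 1 (fn (syn a) P.B)) +
      (fm (G P r (P.D Complex.I)) (fn (syn a) P.A) 1 -
        fm (G P r (P.D Complex.I)) 1 (fn (syn a) P.B)))

/-- BLOCK FARB -/
def Stmt_FarB : Prop := ∀ (H : Type v) [NormedAddCommGroup H] [InnerProductSpace ℂ H]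
    [CompleteSpace H] (P : Pair H) (a : ℂ → ℂ), Wt a → ∀ U : ℝ, (∀ z, ‖syn a z‖ ≤ U) →
    ∀ t : ℝ, 0 < t →
    ‖T P (gm (1 / (2 * t)) a) - Nt P t (gm (1 / (2 * t)) a)‖ ≤ 80 * U * Real.sqrt P.d *
      ((∫ r in (0 : ℝ)..t, Real.sqrt (vv P 1 r - vv P 1 (Real.sqrt (r ^ 2 + 64 * t ^ 2)))) +
      ∫ r in (0 : ℝ)..t, Real.sqrt (vv P Complex.I r -
        vv P Complex.I (Real.sqrt (r ^ 2 + 64 * t ^ 2))))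

/-- the diagonal directions `(1 ± i)/√2` -/
noncomputable def ep : ℂ := (1 + Complex.I) / Real.sqrt 2
noncomputable def em : ℂ := (1 - Complex.I) / Real.sqrt 2

section

variable {H : Type v} [NormedAddCommGroup H] [InnerProductSpace ℂ H] [CompleteSpace H]

/-- `∑ (e · Δ)² exp (i ξ · (b + c Δ)) exp (-t² |Δ|²) |J|²` -/
noncomputable def psi (P : Pair H) (t : ℝ) (e ξ : ℂ) (c : ℝ) : ℂ :=
  pr (tD P (c * ξ) (G P (Real.sqrt 2 * t) (P.D e))) (ex P.B ξ * op (P.D e))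

/-- `∑ (ξ · Δ)² exp (i ξ · (b + c Δ)) exp (-t² |Δ|²) |J|²` -/
noncomputable def Psi (P : Pair H) (t : ℝ) (ξ : ℂ) (c : ℝ) : ℂ :=
  (ξ.re : ℂ) ^ 2 * psi P t 1 ξ c + (ξ.im : ℂ) ^ 2 * psi P t Complex.I ξ c +
    (ξ.re : ℂ) * (ξ.im : ℂ) * (psi P t ep ξ c - psi P t em ξ c)

end

/-- BLOCK NEARI: the trapezoidal rule. -/
def Stmt_NearI : Prop := ∀ (H : Type v) [NormedAddCommGroup H] [InnerProductSpace ℂ H]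
    [CompleteSpace H] (P : Pair H) (a : ℂ → ℂ), Wt a → ∀ t : ℝ, 0 < t →
    Nt P t a - Mn P t a = ∫ ξ : ℂ, a ξ * ∫ c in (0 : ℝ)..(1 / 2), ((1 / 2 - c : ℝ) : ℂ) *
      (Psi P t ξ (1 - c) - Psi P t ξ c)

/-- BLOCK NEARG: one direction, one value of `c`. -/
def Stmt_NearG : Prop := ∀ (H : Type v) [NormedAddCommGroup H] [InnerProductSpace ℂ H]
    [CompleteSpace H] (P : Pair H) (b : ℂ → ℂ), Wt b → ∀ V : ℝ, (∀ z, ‖syn b z‖ ≤ V) →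
    ∀ (t : ℝ) (e : ℂ) (c : ℝ), 0 < t → ‖e‖ = 1 → 0 ≤ c → c ≤ 1 / 2 →
    ‖∫ ξ : ℂ, gm (1 / (2 * Real.sqrt 2 * t)) b ξ * (psi P t e ξ (1 - c) - psi P t e ξ c)‖ ≤
      (1 + 8 * c ^ 2) * 62 * V / t *
        Real.sqrt (P.d * (vv P e (t / Real.sqrt 2) - vv P e (12 * t)))

/-- BLOCK NEARB -/
def Stmt_NearB : Prop := ∀ (H : Type v) [NormedAddCommGroup H] [InnerProductSpace ℂ H]
    [CompleteSpace H] (P : Pair H) (a : ℂ → ℂ), Wt a → ∀ U : ℝ, (∀ z, ‖syn a z‖ ≤ U) →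
    ∀ t : ℝ, 0 < t →
    ‖Nt P t (gm (1 / (2 * t)) a) - Mn P t (gm (1 / (2 * t)) a)‖ ≤ 125 * U * t * Real.sqrt P.d *
      (Real.sqrt (vv P 1 (t / Real.sqrt 2) - vv P 1 (12 * t)) +
      Real.sqrt (vv P Complex.I (t / Real.sqrt 2) - vv P Complex.I (12 * t)) +
      Real.sqrt (vv P ep (t / Real.sqrt 2) - vv P ep (12 * t)) +
      Real.sqrt (vv P em (t / Real.sqrt 2) - vv P em (12 * t)))

/-! ### The main term -/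

/-- BLOCK MT: two aligned windows. -/
def Stmt_MT : Prop := ∀ (H : Type v) [NormedAddCommGroup H] [InnerProductSpace ℂ H]
    [CompleteSpace H] (a b : S1 H) (m : ℝ), ‖op a‖ ≤ m → ‖op b‖ ≤ m →
    |(hs a b).im| ≤ (hs a b).re + 2 * m * (‖a‖ + ‖b‖ - ‖a + b‖)

/-- BLOCK PIN: pinching. -/
def Stmt_Pin : Prop := ∀ (H : Type v) [NormedAddCommGroup H] [InnerProductSpace ℂ H]
    [CompleteSpace H] (X : S1 H) (n : ℕ) (C C' : Fin n → H →L[ℂ] H),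
    (∀ x : H, ∑ i, ‖C i x‖ ^ 2 ≤ ‖x‖ ^ 2) → (∀ x : H, ∑ i, ‖star (C' i) x‖ ^ 2 ≤ ‖x‖ ^ 2) →
    ∑ i, ‖sw (C i) (C' i) X‖ ≤ ‖X‖

section

variable {H : Type v} [NormedAddCommGroup H] [InnerProductSpace ℂ H] [CompleteSpace H]

/-- the commutator `Q(A) X - X Q(B)` -/
noncomputable def cm (P : Pair H) (Q : ℂ → ℂ) (X : S1 H) : S1 H :=
  lm (fn Q P.A) X - rm (fn Q P.B) X

/-- `exp (i θ Q)` -/
noncomputable def eQ (θ : ℝ) (Q : ℂ → ℝ) (z : ℂ) : ℂ := Complex.exp (Complex.I * ((θ * Q z : ℝ) : ℂ))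

/-- `cos (θ (Q(a) - Q(b))) X` -/
noncomputable def cs (P : Pair H) (θ : ℝ) (Q : ℂ → ℝ) (X : S1 H) : S1 H :=
  (1 / 2 : ℂ) • (sw (fn (eQ θ Q) P.A) (fn (eQ (-θ) Q) P.B) X +
    sw (fn (eQ (-θ) Q) P.A) (fn (eQ θ Q) P.B) X)

/-- `tr Q(A) b a^* + tr Q(B) a^* b` for the windows `a = U ζ`, `b = τ_ζ a` -/
noncomputable def II (P : Pair H) (ζ : ℂ) (Q : ℂ → ℂ) : ℂ :=
  pr (tD P ζ (U P ζ)) (star (op (U P ζ)) * fn Q P.A) +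
    pr (tD P ζ (U P ζ)) (fn Q P.B * star (op (U P ζ)))

/-- `3 Re tr a^* b + 16 (‖a‖ + ‖b‖ - ‖a + b‖)` for the windows `a = U ζ`, `b = τ_ζ a` -/
noncomputable def EN (P : Pair H) (ζ : ℂ) : ℝ :=
  3 * (hs (U P ζ) (tD P ζ (U P ζ))).re + 16 * (2 * ‖U P ζ‖ - ‖U P (2 * ζ)‖)

/-- the telescoping functional -/
noncomputable def SS (P : Pair H) (ζ : ℂ) : ℝ := 16 * ‖U P ζ‖ - 3 / 2 * (hs (U P ζ) (U P ζ)).re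

end

/-- BLOCK COS -/
def Stmt_Cos : Prop := ∀ (H : Type v) [NormedAddCommGroup H] [InnerProductSpace ℂ H]
    [CompleteSpace H] (P : Pair H) (Q : ℂ → ℝ), Continuous Q → ∀ (θ : ℝ) (X : S1 H),
    ‖X - cs P θ Q X‖ ≤ θ ^ 2 / 2 * ‖cm P (fun z => (Q z : ℂ)) (cm P (fun z => (Q z : ℂ)) X)‖

/-- BLOCK LMT0 -/
def Stmt_LMT0 : Prop := ∀ (H : Type v) [NormedAddCommGroup H] [InnerProductSpace ℂ H]
    [CompleteSpace H] (P : Pair H) (Q : ℂ → ℝ), Continuous Q → ∀ (q : S1 H),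
    op q = fn (fun z => (Q z : ℂ)) P.A - fn (fun z => (Q z : ℂ)) P.B → ∀ (θ : ℝ) (ζ : ℂ),
    |(II P ζ (fun z => (Real.sin (θ * Q z) : ℂ))).im| ≤
      EN P ζ + 6 * θ ^ 2 * ‖cm P (fun z => (Q z : ℂ)) q‖

/-- BLOCK SIN -/
def Stmt_Sin : Prop := ∃ α θ : ℕ → ℝ, Summable (fun n => |α n|) ∧
  Summable (fun n => |α n| * θ n ^ 2) ∧
  ∀ x : ℝ, |x| ≤ 1 → HasSum (fun n => α n * Real.sin (θ n * x)) x

/-- BLOCK LMT -/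
def Stmt_LMT : Prop := ∃ C : ℝ, 0 ≤ C ∧ ∀ (H : Type v) [NormedAddCommGroup H]
    [InnerProductSpace ℂ H] [CompleteSpace H] (P : Pair H) (Q : ℂ → ℝ), Continuous Q →
    (∀ z, |Q z| ≤ 1) → ∀ (q : S1 H),
    op q = fn (fun z => (Q z : ℂ)) P.A - fn (fun z => (Q z : ℂ)) P.B → ∀ (ζ : ℂ),
    |(II P ζ (fun z => (Q z : ℂ))).im| ≤
      C * (EN P ζ + ‖cm P (fun z => (Q z : ℂ)) q‖)

/-- BLOCK EN: telescoping of the energies. -/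
def Stmt_EN : Prop := ∀ (H : Type v) [NormedAddCommGroup H]
    [InnerProductSpace ℂ H] [CompleteSpace H] (P : Pair H) (ζ : ℂ),
    EN P ζ = 2 * SS P ζ - SS P (2 * ζ) ∧ 0 ≤ EN P ζ ∧ 0 ≤ SS P ζ ∧ SS P ζ ≤ 16 * ‖ζ‖ * P.d

/-- BLOCK OLG -/
def Stmt_OLG : Prop := ∀ (H : Type v) [NormedAddCommGroup H] [InnerProductSpace ℂ H]
    [CompleteSpace H] (P : Pair H) (a : ℂ → ℂ), Wt a → ∀ U : ℝ, (∀ z, ‖syn a z‖ ≤ U) →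
    ∀ ρ : ℝ, 0 < ρ → ‖Fd P (gm ρ a)‖ ≤ 9 * U * P.d / ρ

/-- BLOCK CO: the coarse part. -/
def Stmt_Co : Prop := ∀ (H : Type v) [NormedAddCommGroup H] [InnerProductSpace ℂ H]
    [CompleteSpace H] (P : Pair H) (a : ℂ → ℂ), Wt a → ∀ L : ℝ,
    (∀ e z : ℂ, ‖syn (dd e a) z‖ ≤ ‖e‖ * L) →
    ∀ ρ : ℝ, 0 < ρ → 3 * ‖P.A - P.B‖ ≤ ρ → ‖T P (gm ρ a)‖ ≤ 20 * L * P.d

/-- Littlewood-Paley data: `F_i = k_{ℓ_i} * f`, `ℓ_i = ℓ 2^{-i}`,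
`F_i - F_{i-1} = k_{ℓ_i/2} * u_i`, `|u_i| ≤ m_i ℓ_i`, `m_0 = L` -/
structure LP where
  a : ℂ → ℂ
  ha : Wt a
  l : ℝ
  hl : 0 < l
  L : ℝ
  hL : ∀ e z : ℂ, ‖syn (dd e a) z‖ ≤ ‖e‖ * L
  m : ℕ → ℝ
  m0 : m 0 = L
  hm : ∀ i : ℕ, 1 ≤ i → ∀ z : ℂ,
    ‖syn (fun ξ => gm (Real.sqrt 3 * (l / 2 ^ i / 2)) a ξ -
      gm (Real.sqrt 15 * (l / 2 ^ i / 2)) a ξ) z‖ ≤ m i * (l / 2 ^ i)

/-- the width `ℓ_i` -/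
noncomputable def LP.w (f : LP) (i : ℕ) : ℝ := f.l / 2 ^ i
/-- `F_i` -/
noncomputable def LP.F (f : LP) (i : ℕ) : ℂ → ℂ := gm (f.w i) f.a

/-- BLOCK LPI: the pieces. -/
def Stmt_LPI : Prop := ∀ (f : LP) (i : ℕ), 1 ≤ i →
  (fun ξ => f.F i ξ - f.F (i - 1) ξ) = gm (f.w i / 2) (fun ξ =>
    gm (Real.sqrt 3 * (f.w i / 2)) f.a ξ - gm (Real.sqrt 15 * (f.w i / 2)) f.a ξ)

/-- BLOCK DEF: the double commutators. -/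
def Stmt_Def : Prop := ∃ C : ℝ, 0 ≤ C ∧ ∀ (H : Type v) [NormedAddCommGroup H]
    [InnerProductSpace ℂ H] [CompleteSpace H] (P : Pair H) (f : LP) (i : ℕ) (e : ℂ), ‖e‖ = 1 →
    ‖cm P (syn (dd e (f.F i))) (Fd P (dd e (f.F i)))‖ ≤
      C * P.d * ∑ j ∈ Finset.range (i + 1), ∑ k ∈ Finset.range (i + 1),
        f.m j * f.m k / f.w (min j k)

/-- BLOCK MAINI -/
def Stmt_MainI : Prop := ∀ (H : Type v) [NormedAddCommGroup H] [InnerProductSpace ℂ H]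
    [CompleteSpace H] (P : Pair H) (a : ℂ → ℂ), Wt a → ∀ t : ℝ, 0 < t →
    Mn P t a - Mn P (2 * t) a = -(Complex.I / (8 * t ^ 2)) *
      ∫ ζ : ℂ, (gam (Real.sqrt 2 * t) ζ : ℂ) * II P ζ (syn (dd ζ a))

/-- BLOCK MAINB -/
def Stmt_MainB : Prop := ∃ C : ℝ, 0 ≤ C ∧ ∀ (H : Type v) [NormedAddCommGroup H]
    [InnerProductSpace ℂ H] [CompleteSpace H] (P : Pair H) (f : LP), 0 ≤ P.d →
    (∀ z, (syn f.a z).im = 0) → ∀ K : ℕ,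
    ∑ i ∈ Finset.Ico 1 K, |(Mn P (1 / f.w i) (f.F i) - Mn P (2 / f.w i) (f.F i)).re| ≤
      C * P.d * Real.sqrt (∑ i ∈ Finset.range K, f.m i ^ 2)

/-- BLOCK MNB: the trivial bound of the main term. -/
def Stmt_MnB : Prop := ∀ (H : Type v) [NormedAddCommGroup H] [InnerProductSpace ℂ H]
    [CompleteSpace H] (P : Pair H) (a : ℂ → ℂ), Wt a → ∀ L : ℝ,
    (∀ e z : ℂ, ‖syn (dd e a) z‖ ≤ ‖e‖ * L) → ∀ t : ℝ, 0 < t → ‖Mn P t a‖ ≤ 2 * L * P.d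

/-- BLOCK SUM: sums of energies. -/
def Stmt_Sum : Prop := ∀ (v : ℝ → ℝ) (d t₀ : ℝ), AntitoneOn v (Set.Ioi 0) →
  (∀ t, 0 < t → 0 ≤ v t ∧ v t ≤ d) → 0 < t₀ → ∀ (m : ℕ → ℝ) (K : ℕ),
  ∑ i ∈ Finset.range K, |m i| * (1 / (2 ^ i * t₀) * ∫ r in (0 : ℝ)..(2 ^ i * t₀),
    Real.sqrt (v r - v (Real.sqrt (r ^ 2 + 64 * (2 ^ i * t₀) ^ 2)))) ≤
      3 * Real.sqrt d * Real.sqrt (∑ i ∈ Finset.range K, m i ^ 2) ∧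
  ∑ i ∈ Finset.range K, |m i| * Real.sqrt (v (2 ^ i * t₀ / Real.sqrt 2) - v (12 * (2 ^ i * t₀))) ≤
      3 * Real.sqrt d * Real.sqrt (∑ i ∈ Finset.range K, m i ^ 2)

/-- BLOCK LIM -/
def Stmt_Lim : Prop := ∀ (H : Type v) [NormedAddCommGroup H] [InnerProductSpace ℂ H]
    [CompleteSpace H] (P : Pair H) (a : ℂ → ℂ), Wt a → ∀ l : ℝ,
    Filter.Tendsto (fun K : ℕ => T P (gm (l / 2 ^ K) a)) Filter.atTop (nhds (T P a))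

/-- BLOCK MID: the inequality for Littlewood-Paley data. -/
def Stmt_Mid : Prop := ∃ C : ℝ, 0 ≤ C ∧ ∀ (H : Type v) [NormedAddCommGroup H]
    [InnerProductSpace ℂ H] [CompleteSpace H] (P : Pair H) (f : LP),
    (∀ z, (syn f.a z).im = 0) → 3 * ‖P.A - P.B‖ ≤ f.l → ∀ M : ℝ,
    (∀ K, ∑ i ∈ Finset.range K, f.m i ^ 2 ≤ M ^ 2) → 0 ≤ M →
    |(T P f.a).re| ≤ C * P.d * M

/-! ### From functions to data, and the final theorem -/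

/-- BLOCK FOUR -/
def Stmt_Four : Prop := ∀ f : ℂ → ℂ, ContDiff ℝ (⊤ : ℕ∞) f → HasCompactSupport f →
  ∃ a : ℂ → ℂ, Wt a ∧ (∀ z, syn a z = f z) ∧
    ∀ e z : ℂ, syn (dd e a) z = fderiv ℝ f z e

/-- BLOCK LPS -/
def Stmt_LPS : Prop := ∀ (a : ℂ → ℂ), Wt a → ∀ (ρ V : ℝ), 0 < ρ →
  (∀ h z : ℂ, ‖h‖ ≤ ρ → ‖syn a (z + h) + syn a (z - h) - 2 * syn a z‖ ≤ V) →
  ∀ z : ℂ, ‖syn (fun ξ => gm (Real.sqrt 3 * (ρ / 2)) a ξ - gm (Real.sqrt 15 * (ρ / 2)) a ξ) z‖ ≤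
    22 * V

section

variable {H : Type v} [NormedAddCommGroup H] [InnerProductSpace ℂ H] [CompleteSpace H]

/-- The operator `T` has trace `c`. -/
def HasTrace (T : H →L[ℂ] H) (c : ℂ) : Prop :=
  ∀ (ι : Type) [Countable ι] (e : HilbertBasis ι ℂ H), HasSum (fun i => inner ℂ (e i) (T (e i))) c

/-- The trace norm of `T` is at most `M` (nuclear representation). -/
def TraceNormLE (T : H →L[ℂ] H) (M : ℝ) : Prop :=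
  ∃ x y : ℕ → H, Summable (fun k => ‖x k‖ * ‖y k‖) ∧ ∑' k, ‖x k‖ * ‖y k‖ ≤ M ∧
    ∀ z, HasSum (fun k => inner ℂ (y k) z • x k) (T z)

end

/-- BLOCK TN -/
def Stmt_TN : Prop := ∀ (H : Type v) [NormedAddCommGroup H] [InnerProductSpace ℂ H]
    [CompleteSpace H] (N₁ N₂ : H →L[ℂ] H), IsStarNormal N₁ → IsStarNormal N₂ → ∀ M : ℝ,
    TraceNormLE (N₂ - N₁) M → ∃ P : Pair H, P.A = N₂ ∧ P.B = N₁ ∧ P.d = M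

/-- BLOCK HT -/
def Stmt_HT : Prop := ∀ (H : Type v) [NormedAddCommGroup H] [InnerProductSpace ℂ H]
    [CompleteSpace H] (X : S1 H), HasTrace (op X) (tr X)

/-- The theorem. -/
def Stmt_Final : Prop := ∃ C : ℝ, 0 ≤ C ∧ ∀ (H : Type v) [NormedAddCommGroup H]
    [InnerProductSpace ℂ H] [CompleteSpace H] (N₁ N₂ : H →L[ℂ] H), IsStarNormal N₁ →
    IsStarNormal N₂ → ∀ M : ℝ, TraceNormLE (N₂ - N₁) M → ∀ R : ℝ, 0 < R → ‖N₂ - N₁‖ ≤ R →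
    ∀ f : ℂ → ℂ, ContDiff ℝ (⊤ : ℕ∞) f → HasCompactSupport f → ∀ (L : ℝ) (w : ℕ → ℝ),
    (∀ z : ℂ, ‖fderiv ℝ f z‖ ≤ L) → Summable (fun j => w j ^ 2) →
    (∀ (j : ℕ) (z h : ℂ), ‖h‖ ≤ R / 2 ^ j → ‖f (z + h) + f (z - h) - 2 * f z‖ ≤ w j * (R / 2 ^ j)) →
    ∃ c : ℂ, HasTrace (cfc f N₂ - cfc f N₁) c ∧
      ‖c‖ ≤ C * M * (L + Real.sqrt (∑' j, w j ^ 2))

end Pool.Bes
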