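import Pool.Agent.Work.Bes.FN
import Pool.Agent.Work.Bes.WT
import Pool.Agent.Work.Bes.ALG

/-! # Gaussian moments, the kernel `Lam`, and the double integral of the blocks OLG and CO -/

open MeasureTheory Complex
open scoped ComplexOrder InnerProductSpace ComplexConjugate

set_option autoImplicit false
set_option linter.unusedSectionVars false

universe v

namespace Pool.Bes.KIA

open WTB (gam_nonneg continuous_gam integral_gam integrable_gam integral_gam_ch ip_comm)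

theorem integral_sq_gam {s : ℝ} (hs : 0 < s) : ∫ r : ℂ, ‖r‖ ^ 2 * gam s r = 2 * s ^ 2 := by
  have h := Complex.integral_rpow_mul_exp_neg_mul_rpow (p := 2) (q := 2)
    (b := 1 / (2 * s ^ 2)) (by norm_num) (by norm_num) (by positivity)
  have e1 : (fun r : ℂ => ‖r‖ ^ 2 * gam s r) = fun r : ℂ =>
      (1 / (2 * Real.pi * s ^ 2)) * (‖r‖ ^ (2 : ℝ) *
        Real.exp (-(1 / (2 * s ^ 2)) * ‖r‖ ^ (2 : ℝ))) := by
    funext r
    rw [gam, Real.rpow_two]
    have : -(‖r‖ ^ 2 / (2 * s ^ 2)) = -(1 / (2 * s ^ 2)) * ‖r‖ ^ 2 := by ring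
    rw [this]
    ring
  rw [e1, integral_const_mul, h]
  have h2 : (-((2 : ℝ) + 2) / 2) = -(2 : ℕ) := by norm_num
  have h3 : (((2 : ℝ) + 2) / 2) = ((1 : ℕ) : ℝ) + 1 := by norm_num
  rw [h2, h3, Real.Gamma_nat_eq_factorial, Real.rpow_neg (by positivity), Real.rpow_natCast]
  have hs0 : s ≠ 0 := hs.ne'
  have hpi := Real.pi_ne_zero
  simp only [Nat.factorial_one, Nat.cast_one, mul_one]
  field_simp

theorem integrable_sq_gam {s : ℝ} (hs : 0 < s) : Integrable fun r : ℂ => ‖r‖ ^ 2 * gam s r := by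
  by_contra hc
  have h := integral_sq_gam hs
  rw [integral_undef hc] at h
  have : 0 < 2 * s ^ 2 := by positivity
  linarith

theorem norm_le_aux {s : ℝ} (hs : 0 < s) (x : ℝ) :
    x ≤ x ^ 2 * (1 / (2 * (Real.sqrt 2 * s))) + (Real.sqrt 2 * s) / 2 := by
  have h2 : 0 < Real.sqrt 2 * s := by positivity
  have h : 0 ≤ (x - Real.sqrt 2 * s) ^ 2 * (1 / (2 * (Real.sqrt 2 * s))) := by positivity
  have e : (x - Real.sqrt 2 * s) ^ 2 * (1 / (2 * (Real.sqrt 2 * s))) =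
      x ^ 2 * (1 / (2 * (Real.sqrt 2 * s))) + (Real.sqrt 2 * s) / 2 - x := by
    field_simp
    ring
  linarith

theorem integrable_norm_gam {s : ℝ} (hs : 0 < s) : Integrable fun r : ℂ => ‖r‖ * gam s r := by
  refine Integrable.mono' (((integrable_sq_gam hs).const_mul (1 / (2 * (Real.sqrt 2 * s)))).add
    ((integrable_gam hs).const_mul ((Real.sqrt 2 * s) / 2))) ?_ ?_
  · exact (continuous_norm.mul (continuous_gam s)).aestronglyMeasurable
  · refine Filter.Eventually.of_forall fun r => ?_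
    rw [Real.norm_eq_abs, abs_of_nonneg (mul_nonneg (norm_nonneg _) (gam_nonneg _ _))]
    have := mul_le_mul_of_nonneg_right (norm_le_aux hs ‖r‖) (gam_nonneg s r)
    simp only [Pi.add_apply]
    linarith

theorem integral_norm_gam_le {s : ℝ} (hs : 0 < s) :
    ∫ r : ℂ, ‖r‖ * gam s r ≤ Real.sqrt 2 * s := by
  have h1 : ∫ r : ℂ, ‖r‖ * gam s r ≤ ∫ r : ℂ, ((1 / (2 * (Real.sqrt 2 * s))) * (‖r‖ ^ 2 * gam s r) +
      ((Real.sqrt 2 * s) / 2) * gam s r) := by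
    refine integral_mono (integrable_norm_gam hs) (((integrable_sq_gam hs).const_mul _).add
      ((integrable_gam hs).const_mul _)) fun r => ?_
    have := mul_le_mul_of_nonneg_right (norm_le_aux hs ‖r‖) (gam_nonneg s r)
    simp only
    linarith
  refine h1.trans (le_of_eq ?_)
  rw [integral_add ((integrable_sq_gam hs).const_mul _) ((integrable_gam hs).const_mul _),
    integral_const_mul, integral_const_mul, integral_sq_gam hs, integral_gam hs]
  have h2 : Real.sqrt 2 * Real.sqrt 2 = 2 := Real.mul_self_sqrt (by norm_num)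
  have h3 : Real.sqrt 2 ≠ 0 := by positivity
  have hs0 : s ≠ 0 := hs.ne'
  field_simp
  nlinarith [h2]

theorem Lam_eq {ρ : ℝ} (hρ : 0 < ρ) (n r : ℂ) :
    Lam ρ n r = ((2 * gam (Real.sqrt 2 * ρ) n * gam (Real.sqrt 2 / ρ) r : ℝ) : ℂ) *
      ch (-(n / 2)) r := by
  have h2 : Real.sqrt 2 ^ 2 = 2 := Real.sq_sqrt (by norm_num)
  have hip : ip (-(n / 2)) r = -(ip n r / 2) := by
    simp only [ip, Complex.neg_re, Complex.neg_im, Complex.div_ofNat_re, Complex.div_ofNat_im]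
    ring
  have hρ0 : ρ ≠ 0 := hρ.ne'
  have hpi := Real.pi_ne_zero
  have e1 : 2 * gam (Real.sqrt 2 * ρ) n * gam (Real.sqrt 2 / ρ) r =
      1 / (8 * Real.pi ^ 2) * Real.exp (-(ρ ^ 2 * ‖r‖ ^ 2 / 4 + ‖n‖ ^ 2 / (4 * ρ ^ 2))) := by
    rw [gam, gam, mul_pow, div_pow, h2]
    have e2 : -(ρ ^ 2 * ‖r‖ ^ 2 / 4 + ‖n‖ ^ 2 / (4 * ρ ^ 2)) =
        -(‖n‖ ^ 2 / (2 * (2 * ρ ^ 2))) + -(‖r‖ ^ 2 / (2 * (2 / ρ ^ 2))) := by
      field_simp
      ring
    rw [e2, Real.exp_add]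
    field_simp
    norm_num
  rw [e1, Lam, ch, hip, sub_eq_add_neg, Complex.exp_add, Complex.ofReal_mul, Complex.ofReal_exp]
  push_cast
  have e3 : -(Complex.I * ((ip n r : ℂ) / 2)) = Complex.I * -((ip n r : ℂ) / 2) := by ring
  rw [e3]
  ring

theorem norm_Lam {ρ : ℝ} (hρ : 0 < ρ) (n r : ℂ) :
    ‖Lam ρ n r‖ = 2 * gam (Real.sqrt 2 * ρ) n * gam (Real.sqrt 2 / ρ) r := by
  rw [Lam_eq hρ, norm_mul, WTB.norm_ch, mul_one, Complex.norm_real, Real.norm_eq_abs, abs_of_nonneg]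
  have := gam_nonneg (Real.sqrt 2 * ρ) n
  have := gam_nonneg (Real.sqrt 2 / ρ) r
  positivity

theorem continuous_Lam (ρ : ℝ) : Continuous fun p : ℂ × ℂ => Lam ρ p.1 p.2 := by
  unfold Lam ip
  fun_prop

theorem ip_self_sq (n : ℂ) : ‖-(n / 2)‖ ^ 2 = ‖n‖ ^ 2 / 4 := by
  rw [norm_neg, norm_div, div_pow]
  norm_num

theorem integral_Lam_right {ρ : ℝ} (hρ : 0 < ρ) (n : ℂ) :
    ∫ r : ℂ, Lam ρ n r = (gam ρ n : ℂ) := by
  have h2 : Real.sqrt 2 ^ 2 = 2 := Real.sq_sqrt (by norm_num)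
  have e1 : (fun r : ℂ => Lam ρ n r) = fun r : ℂ =>
      ((2 * gam (Real.sqrt 2 * ρ) n : ℝ) : ℂ) *
        ((gam (Real.sqrt 2 / ρ) r : ℂ) * ch r (-(n / 2))) := by
    funext r
    rw [Lam_eq hρ, ch, ch, ip_comm]
    push_cast
    ring
  have e2 : ∀ r : ℂ, (gam (Real.sqrt 2 / ρ) r : ℂ) * ch r (-(n / 2)) =
      (gam (Real.sqrt 2 / ρ) r : ℂ) * ch (-(n / 2)) r := by
    intro r
    rw [ch, ch, ip_comm]
  simp_rw [e1, e2]
  rw [integral_const_mul, integral_gam_ch (by positivity), ← Complex.ofReal_mul]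
  congr 1
  rw [gam, gam, mul_pow, div_pow, h2, ip_self_sq]
  have hρ0 : ρ ≠ 0 := hρ.ne'
  have hpi := Real.pi_ne_zero
  have e3 : -(‖n‖ ^ 2 / (2 * ρ ^ 2)) = -(‖n‖ ^ 2 / (2 * (2 * ρ ^ 2))) +
      -(2 / ρ ^ 2 * (‖n‖ ^ 2 / 4) / 2) := by
    field_simp
    ring
  rw [e3, Real.exp_add]
  ring

theorem integral_Lam_left {ρ : ℝ} (hρ : 0 < ρ) (r : ℂ) :
    ∫ n : ℂ, Lam ρ n r = (gam (1 / ρ) r : ℂ) := by
  have h2 : Real.sqrt 2 ^ 2 = 2 := Real.sq_sqrt (by norm_num)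
  have hρ0 : ρ ≠ 0 := hρ.ne'
  have hpi := Real.pi_ne_zero
  have e1 : (fun n : ℂ => Lam ρ n r) = fun n : ℂ =>
      ((2 * gam (Real.sqrt 2 / ρ) r : ℝ) : ℂ) *
        ((gam (Real.sqrt 2 * ρ) n : ℂ) * ch (-(r / 2)) n) := by
    funext n
    have hip : ip (-(n / 2)) r = ip (-(r / 2)) n := by
      simp only [ip, Complex.neg_re, Complex.neg_im, Complex.div_ofNat_re, Complex.div_ofNat_im]
      ring
    rw [Lam_eq hρ, ch, ch, hip]
    push_cast
    ring
  simp_rw [e1]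
  rw [integral_const_mul, integral_gam_ch (by positivity), ← Complex.ofReal_mul]
  congr 1
  rw [gam, gam, div_pow, mul_pow, h2, ip_self_sq]
  have e3 : -(‖r‖ ^ 2 / (2 * (1 / ρ) ^ 2)) = -(‖r‖ ^ 2 / (2 * (2 / ρ ^ 2))) +
      -(2 * ρ ^ 2 * (‖r‖ ^ 2 / 4) / 2) := by
    field_simp
    ring
  rw [e3, Real.exp_add]
  field_simp

/-- the kernel `gam ρ n * gam (1/ρ) r - Lam ρ n r` -/
noncomputable def Ps (ρ : ℝ) (n r : ℂ) : ℂ := (gam ρ n : ℂ) * gam (1 / ρ) r - Lam ρ n r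

/-- its majorant -/
noncomputable def Pb (ρ : ℝ) (n r : ℂ) : ℝ :=
  gam ρ n * gam (1 / ρ) r + 2 * gam (Real.sqrt 2 * ρ) n * gam (Real.sqrt 2 / ρ) r

theorem continuous_Ps (ρ : ℝ) : Continuous fun p : ℂ × ℂ => Ps ρ p.1 p.2 := by
  unfold Ps
  exact ((Complex.continuous_ofReal.comp ((continuous_gam ρ).comp continuous_fst)).mul
    (Complex.continuous_ofReal.comp ((continuous_gam (1 / ρ)).comp continuous_snd))).sub
    (continuous_Lam ρ)

theorem norm_Ps_le {ρ : ℝ} (hρ : 0 < ρ) (n r : ℂ) : ‖Ps ρ n r‖ ≤ Pb ρ n r := by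
  refine (norm_sub_le _ _).trans ?_
  rw [norm_Lam hρ, ← Complex.ofReal_mul, Complex.norm_real, Real.norm_eq_abs,
    abs_of_nonneg (mul_nonneg (gam_nonneg _ _) (gam_nonneg _ _)), Pb]

theorem Pb_nonneg (ρ : ℝ) (n r : ℂ) : 0 ≤ Pb ρ n r := by
  have := gam_nonneg ρ n
  have := gam_nonneg (1 / ρ) r
  have := gam_nonneg (Real.sqrt 2 * ρ) n
  have := gam_nonneg (Real.sqrt 2 / ρ) r
  unfold Pb
  positivity

/-- the majorant of `∫ ‖Ps ρ n r‖ ‖r‖ dr` -/
noncomputable def Qn (ρ : ℝ) (n : ℂ) : ℝ :=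
  Real.sqrt 2 / ρ * gam ρ n + 4 / ρ * gam (Real.sqrt 2 * ρ) n

theorem integrable_Pb_norm {ρ : ℝ} (hρ : 0 < ρ) (n : ℂ) :
    Integrable fun r : ℂ => Pb ρ n r * ‖r‖ := by
  have h1 := (integrable_norm_gam (s := 1 / ρ) (by positivity)).const_mul (gam ρ n)
  have h2 := (integrable_norm_gam (s := Real.sqrt 2 / ρ) (by positivity)).const_mul
    (2 * gam (Real.sqrt 2 * ρ) n)
  refine (h1.add h2).congr (Filter.Eventually.of_forall fun r => ?_)
  simp only [Pi.add_apply, Pb]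
  ring

theorem integral_Pb_norm_le {ρ : ℝ} (hρ : 0 < ρ) (n : ℂ) :
    ∫ r : ℂ, Pb ρ n r * ‖r‖ ≤ Qn ρ n := by
  have h1 := (integrable_norm_gam (s := 1 / ρ) (by positivity)).const_mul (gam ρ n)
  have h2 := (integrable_norm_gam (s := Real.sqrt 2 / ρ) (by positivity)).const_mul
    (2 * gam (Real.sqrt 2 * ρ) n)
  have e : (fun r : ℂ => Pb ρ n r * ‖r‖) = fun r : ℂ => gam ρ n * (‖r‖ * gam (1 / ρ) r) +
      (2 * gam (Real.sqrt 2 * ρ) n) * (‖r‖ * gam (Real.sqrt 2 / ρ) r) := by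
    funext r
    simp only [Pb]
    ring
  rw [e, integral_add h1 h2, integral_const_mul, integral_const_mul, Qn]
  have h3 := integral_norm_gam_le (s := 1 / ρ) (by positivity)
  have h4 := integral_norm_gam_le (s := Real.sqrt 2 / ρ) (by positivity)
  have h5 := mul_le_mul_of_nonneg_left h3 (gam_nonneg ρ n)
  have h6 := mul_le_mul_of_nonneg_left h4
    (mul_nonneg zero_le_two (gam_nonneg (Real.sqrt 2 * ρ) n))
  have h7 : Real.sqrt 2 * Real.sqrt 2 = 2 := Real.mul_self_sqrt (by norm_num)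
  have h8 : 2 * gam (Real.sqrt 2 * ρ) n * (Real.sqrt 2 * (Real.sqrt 2 / ρ)) =
      4 / ρ * gam (Real.sqrt 2 * ρ) n := by
    rw [← mul_div_assoc, h7]
    ring
  have h9 : gam ρ n * (Real.sqrt 2 * (1 / ρ)) = Real.sqrt 2 / ρ * gam ρ n := by ring
  linarith

theorem Qn_nonneg {ρ : ℝ} (hρ : 0 < ρ) (n : ℂ) : 0 ≤ Qn ρ n := by
  have := gam_nonneg ρ n
  have := gam_nonneg (Real.sqrt 2 * ρ) n
  unfold Qn
  positivity

theorem continuous_Qn (ρ : ℝ) : Continuous (Qn ρ) := by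
  unfold Qn
  exact (continuous_const.mul (continuous_gam _)).add (continuous_const.mul (continuous_gam _))

theorem integrable_Qn {ρ : ℝ} (hρ : 0 < ρ) : Integrable (Qn ρ) :=
  ((integrable_gam hρ).const_mul _).add ((integrable_gam (by positivity)).const_mul _)

theorem integral_Qn {ρ : ℝ} (hρ : 0 < ρ) : ∫ n, Qn ρ n = (Real.sqrt 2 + 4) / ρ := by
  have h1 : Integrable fun n => Real.sqrt 2 / ρ * gam ρ n := (integrable_gam hρ).const_mul _
  have h2 : Integrable fun n => 4 / ρ * gam (Real.sqrt 2 * ρ) n :=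
    (integrable_gam (by positivity)).const_mul _
  unfold Qn
  rw [integral_add h1 h2, integral_const_mul, integral_const_mul, integral_gam hρ,
    integral_gam (by positivity)]
  ring

theorem integrable_norm_Qn {ρ : ℝ} (hρ : 0 < ρ) : Integrable fun n : ℂ => ‖n‖ * Qn ρ n := by
  have h1 := (integrable_norm_gam hρ).const_mul (Real.sqrt 2 / ρ)
  have h2 := (integrable_norm_gam (s := Real.sqrt 2 * ρ) (by positivity)).const_mul (4 / ρ)
  refine (h1.add h2).congr (Filter.Eventually.of_forall fun r => ?_)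
  simp only [Pi.add_apply, Qn]
  ring

theorem integral_norm_Qn_le {ρ : ℝ} (hρ : 0 < ρ) : ∫ n : ℂ, ‖n‖ * Qn ρ n ≤ 10 := by
  have h1 := (integrable_norm_gam hρ).const_mul (Real.sqrt 2 / ρ)
  have h2 := (integrable_norm_gam (s := Real.sqrt 2 * ρ) (by positivity)).const_mul (4 / ρ)
  have e : (fun n : ℂ => ‖n‖ * Qn ρ n) = fun n : ℂ => Real.sqrt 2 / ρ * (‖n‖ * gam ρ n) +
      4 / ρ * (‖n‖ * gam (Real.sqrt 2 * ρ) n) := by
    funext n
    simp only [Qn]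
    ring
  rw [e, integral_add h1 h2, integral_const_mul, integral_const_mul]
  have h3 := mul_le_mul_of_nonneg_left (integral_norm_gam_le hρ)
    (show 0 ≤ Real.sqrt 2 / ρ by positivity)
  have h4 := mul_le_mul_of_nonneg_left (integral_norm_gam_le (s := Real.sqrt 2 * ρ) (by positivity))
    (show 0 ≤ 4 / ρ by positivity)
  have h7 : Real.sqrt 2 * Real.sqrt 2 = 2 := Real.mul_self_sqrt (by norm_num)
  have h8 : 4 / ρ * (Real.sqrt 2 * (Real.sqrt 2 * ρ)) = 8 := by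
    rw [← mul_assoc (Real.sqrt 2), h7]
    field_simp
    norm_num
  have h9 : Real.sqrt 2 / ρ * (Real.sqrt 2 * ρ) = 2 := by
    have : Real.sqrt 2 / ρ * (Real.sqrt 2 * ρ) = (Real.sqrt 2 * Real.sqrt 2) * (ρ / ρ) := by ring
    rw [this, h7, div_self hρ.ne', mul_one]
  linarith

theorem integral_Ps_right {ρ : ℝ} (hρ : 0 < ρ) (n : ℂ) : ∫ r : ℂ, Ps ρ n r = 0 := by
  unfold Ps
  have h1 : Integrable fun r : ℂ => (gam ρ n : ℂ) * gam (1 / ρ) r :=
    ((integrable_gam (by positivity : 0 < 1 / ρ)).ofReal (𝕜 := ℂ)).const_mul _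
  have h2 : Integrable fun r : ℂ => Lam ρ n r := by
    refine Integrable.mono' ((integrable_gam (by positivity : 0 < Real.sqrt 2 / ρ)).const_mul
      (2 * gam (Real.sqrt 2 * ρ) n)) ?_ ?_
    · exact ((continuous_Lam ρ).comp (Continuous.prodMk_right n)).aestronglyMeasurable
    · exact Filter.Eventually.of_forall fun r => (norm_Lam hρ n r).le
  rw [integral_sub h1 h2, integral_const_mul, integral_Lam_right hρ, integral_complex_ofReal,
    integral_gam (by positivity : 0 < 1 / ρ)]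
  simp

theorem integral_Ps_left {ρ : ℝ} (hρ : 0 < ρ) (r : ℂ) : ∫ n : ℂ, Ps ρ n r = 0 := by
  unfold Ps
  have h1 : Integrable fun n : ℂ => (gam ρ n : ℂ) * gam (1 / ρ) r :=
    ((integrable_gam hρ).ofReal (𝕜 := ℂ)).mul_const _
  have h2 : Integrable fun n : ℂ => Lam ρ n r := by
    refine Integrable.mono' (((integrable_gam (by positivity : 0 < Real.sqrt 2 * ρ)).const_mul
      2).mul_const (gam (Real.sqrt 2 / ρ) r)) ?_ ?_
    · exact ((continuous_Lam ρ).comp (Continuous.prodMk_left r)).aestronglyMeasurable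
    · exact Filter.Eventually.of_forall fun n => (norm_Lam hρ n r).le
  rw [integral_sub h1 h2, integral_mul_const, integral_Lam_left hρ, integral_complex_ofReal,
    integral_gam hρ]
  simp

section

variable {E : Type*} [NormedAddCommGroup E] [NormedSpace ℂ E] [CompleteSpace E]

/-- `∫ Ps ρ n r • V r dr` -/
noncomputable def Wn (ρ : ℝ) (V : ℂ → E) (n : ℂ) : E := ∫ r : ℂ, Ps ρ n r • V r

theorem norm_Ps_smul_le {ρ : ℝ} (hρ : 0 < ρ) (V : ℂ → E) (d : ℝ)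
    (hV : ∀ r, ‖V r‖ ≤ ‖r‖ * d) (n r : ℂ) : ‖Ps ρ n r • V r‖ ≤ d * (Pb ρ n r * ‖r‖) := by
  rw [norm_smul]
  calc ‖Ps ρ n r‖ * ‖V r‖ ≤ Pb ρ n r * (‖r‖ * d) :=
        mul_le_mul (norm_Ps_le hρ n r) (hV r) (norm_nonneg _) (Pb_nonneg _ _ _)
    _ = d * (Pb ρ n r * ‖r‖) := by ring

theorem integrable_Ps_smul {ρ : ℝ} (hρ : 0 < ρ) (V : ℂ → E) (hc : Continuous V) (d : ℝ)
    (hV : ∀ r, ‖V r‖ ≤ ‖r‖ * d) (n : ℂ) : Integrable fun r : ℂ => Ps ρ n r • V r := by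
  refine Integrable.mono' ((integrable_Pb_norm hρ n).const_mul d) ?_ ?_
  · exact (((continuous_Ps ρ).comp (Continuous.prodMk_right n)).smul hc).aestronglyMeasurable
  · exact Filter.Eventually.of_forall fun r => norm_Ps_smul_le hρ V d hV n r

theorem norm_Wn_le {ρ : ℝ} (hρ : 0 < ρ) (V : ℂ → E) (d : ℝ) (hd : 0 ≤ d)
    (hV : ∀ r, ‖V r‖ ≤ ‖r‖ * d) (n : ℂ) : ‖Wn ρ V n‖ ≤ d * Qn ρ n := by
  refine (norm_integral_le_of_norm_le ((integrable_Pb_norm hρ n).const_mul d)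
    (Filter.Eventually.of_forall fun r => norm_Ps_smul_le hρ V d hV n r)).trans ?_
  rw [integral_const_mul]
  exact mul_le_mul_of_nonneg_left (integral_Pb_norm_le hρ n) hd

theorem aesm_prod (ρ : ℝ) (V : ℂ → E) (hc : Continuous V) :
    AEStronglyMeasurable (fun p : ℂ × ℂ => Ps ρ p.1 p.2 • V p.2) (volume.prod volume) :=
  ((continuous_Ps ρ).smul (hc.comp continuous_snd)).aestronglyMeasurable

theorem aesm_Wn (ρ : ℝ) (V : ℂ → E) (hc : Continuous V) :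
    AEStronglyMeasurable (Wn ρ V) volume :=
  (aesm_prod ρ V hc).integral_prod_right'

theorem integrable_Wn {ρ : ℝ} (hρ : 0 < ρ) (V : ℂ → E) (hc : Continuous V) (d : ℝ) (hd : 0 ≤ d)
    (hV : ∀ r, ‖V r‖ ≤ ‖r‖ * d) : Integrable (Wn ρ V) :=
  Integrable.mono' ((integrable_Qn hρ).const_mul d) (aesm_Wn ρ V hc)
    (Filter.Eventually.of_forall fun n => norm_Wn_le hρ V d hd hV n)

theorem integral_Wn {ρ : ℝ} (hρ : 0 < ρ) (V : ℂ → E) (hc : Continuous V) (d : ℝ) (hd : 0 ≤ d)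
    (hV : ∀ r, ‖V r‖ ≤ ‖r‖ * d) : ∫ n, Wn ρ V n = 0 := by
  have hint : Integrable (fun p : ℂ × ℂ => Ps ρ p.1 p.2 • V p.2) (volume.prod volume) := by
    rw [integrable_prod_iff (aesm_prod ρ V hc)]
    refine ⟨Filter.Eventually.of_forall fun n => integrable_Ps_smul hρ V hc d hV n, ?_⟩
    refine Integrable.mono' ((integrable_Qn hρ).const_mul d)
      (aesm_prod ρ V hc).norm.integral_prod_right' ?_
    refine Filter.Eventually.of_forall fun n => ?_
    rw [Real.norm_eq_abs, abs_of_nonneg (integral_nonneg fun r => norm_nonneg _)]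
    calc ∫ r : ℂ, ‖Ps ρ n r • V r‖ ≤ ∫ r : ℂ, d * (Pb ρ n r * ‖r‖) :=
          integral_mono (integrable_Ps_smul hρ V hc d hV n).norm
            ((integrable_Pb_norm hρ n).const_mul d) fun r => norm_Ps_smul_le hρ V d hV n r
      _ = d * ∫ r : ℂ, Pb ρ n r * ‖r‖ := integral_const_mul _ _
      _ ≤ d * Qn ρ n := mul_le_mul_of_nonneg_left (integral_Pb_norm_le hρ n) hd
  unfold Wn
  rw [integral_integral_swap hint]
  have h0 : ∀ r : ℂ, ∫ n : ℂ, Ps ρ n r • V r = 0 := by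
    intro r
    rw [integral_smul_const, integral_Ps_left hρ, zero_smul]
  simp_rw [h0]
  exact integral_zero _ _

end

section

variable {H : Type v} [NormedAddCommGroup H] [InnerProductSpace ℂ H] [CompleteSpace H]

/-- left multiplication as a continuous bilinear map -/
noncomputable def lmL : (H →L[ℂ] H) →L[ℂ] S1 H →L[ℂ] S1 H :=
  LinearMap.mkContinuous
    { toFun := fun S => lm S
      map_add' := fun S S' => by
        refine ContinuousLinearMap.ext fun X => ALGAux.ext_pr fun Y => ?_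
        rw [_root_.add_apply, ALGAux.pr_add_left, pr_lm, pr_lm, pr_lm, mul_add,
          ALGAux.pr_add_right]
      map_smul' := fun c S => by
        refine ContinuousLinearMap.ext fun X => ALGAux.ext_pr fun Y => ?_
        rw [RingHom.id_apply, _root_.smul_apply, ALGAux.pr_smul_left, pr_lm, pr_lm, mul_smul_comm,
          ALGAux.pr_smul_right] } 1 (fun S => by
      rw [one_mul]
      exact ContinuousLinearMap.opNorm_le_bound _ (norm_nonneg _) fun X => ALGAux.norm_lm_le S X)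

theorem lmL_apply (S : H →L[ℂ] H) (X : S1 H) : lmL S X = lm S X := rfl

/-- the double integral -/
noncomputable def Kd (ρ : ℝ) (S : ℂ → H →L[ℂ] H) (V : ℂ → S1 H) : S1 H :=
  ∫ n : ℂ, lmL (S n) (Wn ρ V n)

theorem integrable_Kd {ρ : ℝ} (hρ : 0 < ρ) (S : ℂ → H →L[ℂ] H) (hS : Continuous S) (g : ℂ → ℝ)
    (hg : ∀ n, ‖S n‖ ≤ g n) (hgi : Integrable fun n => g n * Qn ρ n) (V : ℂ → S1 H)
    (hc : Continuous V) (d : ℝ) (hd : 0 ≤ d) (hV : ∀ r, ‖V r‖ ≤ ‖r‖ * d) :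
    Integrable (fun n => lmL (S n) (Wn ρ V n)) ∧ ‖Kd ρ S V‖ ≤ d * ∫ n, g n * Qn ρ n := by
  have hb : ∀ n, ‖lmL (S n) (Wn ρ V n)‖ ≤ d * (g n * Qn ρ n) := by
    intro n
    rw [lmL_apply]
    calc ‖lm (S n) (Wn ρ V n)‖ ≤ ‖S n‖ * ‖Wn ρ V n‖ := ALGAux.norm_lm_le _ _
      _ ≤ g n * (d * Qn ρ n) := mul_le_mul (hg n) (norm_Wn_le hρ V d hd hV n) (norm_nonneg _)
          ((norm_nonneg _).trans (hg n))
      _ = d * (g n * Qn ρ n) := by ring
  refine ⟨Integrable.mono' (hgi.const_mul d) ?_ (Filter.Eventually.of_forall hb), ?_⟩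
  · exact (lmL (H := H)).aestronglyMeasurable_comp₂ hS.aestronglyMeasurable (aesm_Wn ρ V hc)
  · refine (norm_integral_le_of_norm_le (hgi.const_mul d) (Filter.Eventually.of_forall hb)).trans ?_
    rw [integral_const_mul]

theorem op_Wn {ρ : ℝ} (hρ : 0 < ρ) (V : ℂ → S1 H)
    (hc : Continuous V) (d : ℝ) (hV : ∀ r, ‖V r‖ ≤ ‖r‖ * d) (n : ℂ) :
    op (Wn ρ V n) = ∫ r : ℂ, Ps ρ n r • op (V r) := by
  unfold Wn
  rw [← (op (H := H)).integral_comp_comm (integrable_Ps_smul hρ V hc d hV n)]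
  simp_rw [map_smul]

theorem op_Kd {ρ : ℝ} (hρ : 0 < ρ) (S : ℂ → H →L[ℂ] H) (hS : Continuous S) (g : ℂ → ℝ)
    (hg : ∀ n, ‖S n‖ ≤ g n) (hgi : Integrable fun n => g n * Qn ρ n) (V : ℂ → S1 H)
    (hc : Continuous V) (d : ℝ) (hd : 0 ≤ d) (hV : ∀ r, ‖V r‖ ≤ ‖r‖ * d) :
    op (Kd ρ S V) = ∫ n : ℂ, S n * ∫ r : ℂ, Ps ρ n r • op (V r) := by
  unfold Kd
  rw [← (op (H := H)).integral_comp_comm (integrable_Kd hρ S hS g hg hgi V hc d hd hV).1]
  congr 1
  funext n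
  rw [lmL_apply, ALGAux.op_lm, op_Wn hρ V hc d hV]

end

end Pool.Bes.KIA
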