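import Pool.Agent.Work.Bes.WT

/-!
# Block NEARI: the trapezoidal rule (helper79)
-/

open MeasureTheory Complex
open scoped ComplexOrder InnerProductSpace ComplexConjugate

set_option autoImplicit false

universe v

namespace Pool.Bes.NIB

open Pool.Bes.WTB

section alg
variable {H : Type v} [NormedAddCommGroup H] [InnerProductSpace ℂ H] [CompleteSpace H]

theorem pr_ext {X Y : S1 H} (h : ∀ Z : H →L[ℂ] H, pr X Z = pr Y Z) : X = Y :=
  S1.toDual_injective (ContinuousLinearMap.ext h)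

theorem pr_add (X Y : S1 H) (Z : H →L[ℂ] H) : pr (X + Y) Z = pr X Z + pr Y Z := by
  rw [pr, map_add]
  rfl

theorem pr_smul (c : ℂ) (X : S1 H) (Z : H →L[ℂ] H) : pr (c • X) Z = c * pr X Z := by
  rw [pr, map_smul]
  rfl

theorem pr_sub (X Y : S1 H) (Z : H →L[ℂ] H) : pr (X - Y) Z = pr X Z - pr Y Z := by
  rw [pr, map_sub]
  rfl

theorem pr_add_right (X : S1 H) (Z W : H →L[ℂ] H) : pr X (Z + W) = pr X Z + pr X W :=
  map_add _ _ _

theorem pr_smul_right (c : ℂ) (X : S1 H) (Z : H →L[ℂ] H) : pr X (c • Z) = c * pr X Z :=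
  map_smul _ _ _

theorem pr_sub_right (X : S1 H) (Z W : H →L[ℂ] H) : pr X (Z - W) = pr X Z - pr X W :=
  map_sub _ _ _

theorem pr_sw (S T : H →L[ℂ] H) (X : S1 H) (Z : H →L[ℂ] H) :
    pr (sw S T X) Z = pr X (T * (Z * S)) := rfl

/-- `tr` after an operator, as a continuous linear map -/
noncomputable def prL (Z : H →L[ℂ] H) : S1 H →L[ℂ] ℂ :=
  (ContinuousLinearMap.apply ℂ ℂ Z).comp S1.toDual

theorem prL_apply (Z : H →L[ℂ] H) (X : S1 H) : prL Z X = pr X Z := rfl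

end alg

section grp
variable {H : Type v} [NormedAddCommGroup H] [InnerProductSpace ℂ H] [CompleteSpace H]

/-- the facts about the groups used below -/
structure Gps (P : Pair H) : Prop where
  A0 : ex P.A 0 = 1
  Aa : ∀ s t : ℂ, ex P.A (s + t) = ex P.A s * ex P.A t
  An : ∀ s : ℂ, ‖ex P.A s‖ ≤ 1
  Ac : Continuous (ex P.A)
  Am : ∀ s ξ : ℂ, Commute (dt ξ P.A) (ex P.A s)
  Ad : ∀ (ξ : ℂ) (c : ℝ), HasDerivAt (fun c : ℝ => ex P.A (c * ξ))
    (Complex.I • (dt ξ P.A * ex P.A (c * ξ))) c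
  B0 : ex P.B 0 = 1
  Ba : ∀ s t : ℂ, ex P.B (s + t) = ex P.B s * ex P.B t
  Bn : ∀ s : ℂ, ‖ex P.B s‖ ≤ 1
  Bc : Continuous (ex P.B)
  Bm : ∀ s ξ : ℂ, Commute (dt ξ P.B) (ex P.B s)
  Bd : ∀ (ξ : ℂ) (c : ℝ), HasDerivAt (fun c : ℝ => ex P.B (c * ξ))
    (Complex.I • (dt ξ P.B * ex P.B (c * ξ))) c

variable {P : Pair H}

theorem pr_tD (s : ℂ) (X : S1 H) (Z : H →L[ℂ] H) :
    pr (tD P s X) Z = pr X (ex P.B (-s) * (Z * ex P.A s)) := rfl

theorem tD_zero (g : Gps P) (X : S1 H) : tD P 0 X = X := by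
  apply pr_ext
  intro Z
  rw [pr_tD, neg_zero, g.A0, g.B0, mul_one, one_mul]

theorem B_neg (g : Gps P) (s : ℂ) : ex P.B (-s) * ex P.B s = 1 := by
  rw [← g.Ba, neg_add_cancel, g.B0]

/-- the translates and right multiplication -/
theorem sw_eq (g : Gps P) (ξ : ℂ) (c : ℝ) (X : S1 H) :
    sw (ex P.A (c * ξ)) (ex P.B ((1 - c) * ξ)) X = rm (ex P.B ξ) (tD P (c * ξ) X) := by
  apply pr_ext
  intro Z
  have h1 : ex P.B ((1 - c) * ξ) = ex P.B (-(c * ξ)) * ex P.B ξ := by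
    rw [← g.Ba]
    congr 1
    ring
  rw [pr_sw, pr_rm, pr_tD, h1]
  simp only [mul_assoc]

theorem tD_rm (g : Gps P) (s ξ : ℂ) (X : S1 H) :
    tD P s (rm (ex P.B ξ) X) = rm (ex P.B ξ) (tD P s X) := by
  apply pr_ext
  intro Z
  rw [pr_tD, pr_rm, pr_rm, pr_tD, ← mul_assoc, ← g.Ba, ← mul_assoc (ex P.B (-s)),
    ← mul_assoc (ex P.B (-s)), ← g.Ba, mul_assoc, add_comm]

/-- `G` as a continuous linear map -/
noncomputable def Gc (P : Pair H) (τ : ℝ)
    (hi : ∀ X : S1 H, Integrable fun s : ℂ => (gam τ s : ℂ) • tD P s X)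
    (hb : ∀ X : S1 H, ‖G P τ X‖ ≤ ‖X‖) : S1 H →L[ℂ] S1 H :=
  LinearMap.mkContinuous
    { toFun := G P τ
      map_add' := fun X Y => by
        rw [G, G, G, av, av, av, ← integral_add (hi X) (hi Y)]
        refine integral_congr_ae (Filter.Eventually.of_forall fun s => ?_)
        simp only [map_add, smul_add]
      map_smul' := fun c X => by
        rw [G, G, av, av, RingHom.id_apply, ← integral_smul]
        refine integral_congr_ae (Filter.Eventually.of_forall fun s => ?_)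
        simp only [map_smul]
        rw [smul_comm] } 1 (fun X => by
          rw [one_mul]
          exact hb X)

theorem Gc_apply (P : Pair H) (τ : ℝ)
    (hi : ∀ X : S1 H, Integrable fun s : ℂ => (gam τ s : ℂ) • tD P s X)
    (hb : ∀ X : S1 H, ‖G P τ X‖ ≤ ‖X‖) (X : S1 H) : Gc P τ hi hb X = G P τ X := rfl

theorem D_one : P.D 1 = P.D1 := by
  rw [Pair.D]
  simp

theorem D_I : P.D Complex.I = P.D2 := by
  rw [Pair.D]
  simp

theorem D_eq (ξ : ℂ) : P.D ξ = (ξ.re : ℂ) • P.D 1 + (ξ.im : ℂ) • P.D Complex.I := by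
  rw [D_one, D_I, Pair.D]

theorem D_ep : P.D ep = ((1 / Real.sqrt 2 : ℝ) : ℂ) • (P.D 1 + P.D Complex.I) := by
  have h1 : ep.re = 1 / Real.sqrt 2 := by
    rw [ep, ← Complex.ofReal_one, Complex.div_ofReal_re]
    simp
  have h2 : ep.im = 1 / Real.sqrt 2 := by
    rw [ep, Complex.div_ofReal_im]
    simp
  rw [D_eq ep, h1, h2, smul_add]

theorem D_em : P.D em = ((1 / Real.sqrt 2 : ℝ) : ℂ) • (P.D 1 - P.D Complex.I) := by
  have h1 : em.re = 1 / Real.sqrt 2 := by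
    rw [em, Complex.div_ofReal_re]
    simp
  have h2 : em.im = -(1 / Real.sqrt 2) := by
    rw [em, Complex.div_ofReal_im]
    simp
    ring
  rw [D_eq em, h1, h2, smul_sub, Complex.ofReal_neg, neg_smul, sub_eq_add_neg]

/-- `Psi` is the quadratic form in the direction `ξ` -/
theorem Psi_eq (t : ℝ) (ξ : ℂ) (c : ℝ) (K : S1 H →L[ℂ] S1 H)
    (hK : ∀ X, K X = G P (Real.sqrt 2 * t) X) :
    Psi P t ξ c = pr (tD P (c * ξ) (G P (Real.sqrt 2 * t) (P.D ξ))) (ex P.B ξ * op (P.D ξ)) := by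
  rw [Psi, psi, psi, psi, psi, D_ep, D_em]
  rw [← hK, ← hK, ← hK, ← hK, ← hK, D_eq ξ]
  simp only [map_add, map_sub, map_smul, pr_add, pr_sub, pr_smul, mul_add, mul_sub,
    mul_smul_comm, pr_add_right, pr_sub_right, pr_smul_right]
  have h2 : ((1 / Real.sqrt 2 : ℝ) : ℂ) * ((1 / Real.sqrt 2 : ℝ) : ℂ) = 1 / 2 := by
    rw [← Complex.ofReal_mul]
    have h3 : (1 / Real.sqrt 2) * (1 / Real.sqrt 2) = 1 / 2 := by
      rw [div_mul_div_comm, Real.mul_self_sqrt (by norm_num), one_mul]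
    rw [h3]
    push_cast
    ring
  generalize pr (tD P (c * ξ) (K (P.D 1))) (ex P.B ξ * op (P.D 1)) = x11
  generalize pr (tD P (c * ξ) (K (P.D 1))) (ex P.B ξ * op (P.D Complex.I)) = x12
  generalize pr (tD P (c * ξ) (K (P.D Complex.I))) (ex P.B ξ * op (P.D 1)) = x21
  generalize pr (tD P (c * ξ) (K (P.D Complex.I))) (ex P.B ξ * op (P.D Complex.I)) = x22
  linear_combination (2 * (ξ.re : ℂ) * ξ.im * (x12 + x21)) * h2

/-- `θ(c) = i tr (τ_{cξ}(Y) F_ξ)` and its derivative -/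
theorem deriv_theta (g : Gps P) (hD : ∀ ξ : ℂ, op (P.D ξ) = dt ξ P.A - dt ξ P.B) (Y : S1 H)
    (ξ : ℂ) (c : ℝ) :
    HasDerivAt (fun c : ℝ => Complex.I * pr (tD P (c * ξ) Y) (ex P.B ξ))
      (-pr (tD P (c * ξ) Y) (ex P.B ξ * op (P.D ξ))) c := by
  have h1 : (fun c : ℝ => Complex.I * pr (tD P (c * ξ) Y) (ex P.B ξ)) =
      fun c : ℝ => Complex.I * pr Y (ex P.B (((1 - c : ℝ) : ℂ) * ξ) * ex P.A (c * ξ)) := by
    funext c
    rw [pr_tD, ← mul_assoc, ← g.Ba]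
    congr 3
    push_cast
    ring_nf
  rw [h1]
  have hB : HasDerivAt (fun c : ℝ => ex P.B (((1 - c : ℝ) : ℂ) * ξ))
      (-(Complex.I • (dt ξ P.B * ex P.B (((1 - c : ℝ) : ℂ) * ξ)))) c :=
    HasDerivAt.comp_const_sub 1 c (g.Bd ξ (1 - c))
  have hAB := hB.mul (g.Ad ξ c)
  have h2 := ((Y.toDual.restrictScalars ℝ).hasFDerivAt.comp_hasDerivAt c hAB).const_mul Complex.I
  refine h2.congr_deriv ?_
  change Complex.I * pr Y _ = _
  rw [pr_tD, hD, mul_sub]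
  have e1 : ex P.B (((1 - c : ℝ) : ℂ) * ξ) = ex P.B (-(c * ξ)) * ex P.B ξ := by
    rw [← g.Ba]
    congr 1
    push_cast
    ring
  have e2 : dt ξ P.B * ex P.B (((1 - c : ℝ) : ℂ) * ξ) * ex P.A (c * ξ) =
      ex P.B (-(c * ξ)) * (ex P.B ξ * dt ξ P.B * ex P.A (c * ξ)) := by
    rw [(g.Bm _ ξ).eq, e1]
    simp only [mul_assoc]
  have e3 : ex P.B (((1 - c : ℝ) : ℂ) * ξ) * (dt ξ P.A * ex P.A (c * ξ)) =
      ex P.B (-(c * ξ)) * (ex P.B ξ * dt ξ P.A * ex P.A (c * ξ)) := by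
    rw [e1]
    simp only [mul_assoc]
  rw [neg_mul, smul_mul_assoc, mul_smul_comm, e2, e3, pr_add_right, sub_mul, mul_sub,
    pr_sub_right, pr_smul_right]
  have e4 : pr Y (-(Complex.I • (ex P.B (-(c * ξ)) * (ex P.B ξ * dt ξ P.B * ex P.A (c * ξ))))) =
      -(Complex.I * pr Y (ex P.B (-(c * ξ)) * (ex P.B ξ * dt ξ P.B * ex P.A (c * ξ)))) := by
    rw [← pr_smul_right]
    exact map_neg _ _
  rw [e4]
  linear_combination (pr Y (ex P.B (-(c * ξ)) * (ex P.B ξ * dt ξ P.A * ex P.A (c * ξ))) -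
    pr Y (ex P.B (-(c * ξ)) * (ex P.B ξ * dt ξ P.B * ex P.A (c * ξ)))) * Complex.I_mul_I

end grp

/-- the trapezoidal rule -/
theorem trapez (θ ψ : ℝ → ℂ) (hd : ∀ c, HasDerivAt θ (-ψ c) c) (hψ : Continuous ψ) :
    (∫ c in (0 : ℝ)..1, θ c) - 1 / 2 * (θ 0 + θ 1) =
      ∫ c in (0 : ℝ)..(1 / 2), ((1 / 2 - c : ℝ) : ℂ) * (ψ (1 - c) - ψ c) := by
  have h1 := intervalIntegral.integral_mul_deriv_eq_deriv_mul (a := 0) (b := 1)
    (u := fun c : ℝ => ((c - 1 / 2 : ℝ) : ℂ)) (u' := fun _ => 1) (v := θ) (v' := fun c => -ψ c)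
    (fun c _ => by
      have h := (HasDerivAt.sub_const (1 / 2 : ℝ) (hasDerivAt_id c)).ofReal_comp
      simpa using h) (fun c _ => hd c) (continuous_const.intervalIntegrable _ _) (by
      exact (hψ.neg).intervalIntegrable _ _)
  simp only [one_mul] at h1
  have hc1 : Continuous fun c : ℝ => ((c - 1 / 2 : ℝ) : ℂ) * ψ c :=
    (Complex.continuous_ofReal.comp (by fun_prop)).mul hψ
  have hc2 : Continuous fun c : ℝ => ((1 / 2 - c : ℝ) : ℂ) * ψ c :=
    (Complex.continuous_ofReal.comp (by fun_prop)).mul hψ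
  have hc3 : Continuous fun c : ℝ => ((1 / 2 - c : ℝ) : ℂ) * ψ (1 - c) :=
    (Complex.continuous_ofReal.comp (by fun_prop)).mul (hψ.comp (by fun_prop))
  have h2 : ∫ c in (0 : ℝ)..1, ((c - 1 / 2 : ℝ) : ℂ) * -ψ c =
      -∫ c in (0 : ℝ)..1, ((c - 1 / 2 : ℝ) : ℂ) * ψ c := by
    rw [← intervalIntegral.integral_neg]
    refine intervalIntegral.integral_congr fun c _ => ?_
    ring
  have h3 : ∫ c in (0 : ℝ)..1, ((c - 1 / 2 : ℝ) : ℂ) * ψ c =
      (∫ c in (0 : ℝ)..(1 / 2), ((c - 1 / 2 : ℝ) : ℂ) * ψ c) +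
        ∫ c in (1 / 2 : ℝ)..1, ((c - 1 / 2 : ℝ) : ℂ) * ψ c :=
    (intervalIntegral.integral_add_adjacent_intervals (hc1.intervalIntegrable _ _)
      (hc1.intervalIntegrable _ _)).symm
  have h4 : ∫ c in (1 / 2 : ℝ)..1, ((c - 1 / 2 : ℝ) : ℂ) * ψ c =
      ∫ c in (0 : ℝ)..(1 / 2), ((1 / 2 - c : ℝ) : ℂ) * ψ (1 - c) := by
    have h5 := intervalIntegral.integral_comp_sub_left (a := 0) (b := 1 / 2)
      (fun c : ℝ => ((c - 1 / 2 : ℝ) : ℂ) * ψ c) 1
    rw [show (1 : ℝ) - 1 / 2 = 1 / 2 by norm_num, sub_zero] at h5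
    rw [← h5]
    refine intervalIntegral.integral_congr fun c _ => ?_
    congr 2
    ring
  have h5 : ∫ c in (0 : ℝ)..(1 / 2), ((1 / 2 - c : ℝ) : ℂ) * (ψ (1 - c) - ψ c) =
      (∫ c in (0 : ℝ)..(1 / 2), ((1 / 2 - c : ℝ) : ℂ) * ψ (1 - c)) +
        ∫ c in (0 : ℝ)..(1 / 2), ((c - 1 / 2 : ℝ) : ℂ) * ψ c := by
    rw [← intervalIntegral.integral_add (hc3.intervalIntegrable _ _) (hc1.intervalIntegrable _ _)]
    refine intervalIntegral.integral_congr fun c _ => ?_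
    push_cast
    ring
  rw [h5, ← h4]
  push_cast at h1 h2 h3 ⊢
  linear_combination h1 - h2 + h3

end Pool.Bes.NIB

namespace Pool.Bes

open Pool.Bes.NIB

theorem blk_NEARI : Stmt_Alg.{v} → Stmt_Ex.{v} → Stmt_Av.{v} → Stmt_Du.{v} → Stmt_NearI.{v} := by
  intro hAlg hEx hAv hDu H _ _ _ P a ha t ht
  obtain ⟨_, _, _, _, _, hrm, hpr, _⟩ := hAlg H
  obtain ⟨eA0, eA1, _, eA3, eA4, eA5, _, eA7⟩ := hEx H P.A P.hA
  obtain ⟨eB0, eB1, _, eB3, eB4, eB5, _, eB7⟩ := hEx H P.B P.hB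
  have g : Gps P := ⟨eA0, eA1, eA3, eA4, eA5, eA7, eB0, eB1, eB3, eB4, eB5, eB7⟩
  obtain ⟨av1, av2, av3, _, _, _, _, av8, av9, _, av11, _⟩ := hAv H P
  obtain ⟨dD, dDn, _, _, _, _, _, _, _, _, _, _, _, dF⟩ := hDu H P
  have hτ : 0 < Real.sqrt 2 * t := by positivity
  obtain ⟨_, hgi, hgp⟩ := av8 _ hτ
  have hi : ∀ X : S1 H, Integrable fun s : ℂ => (gam (Real.sqrt 2 * t) s : ℂ) • tD P s X := by
    intro X
    refine (hgi.norm.mul_const ‖X‖).mono' ?_ (Filter.Eventually.of_forall fun s => ?_)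
    · exact (Complex.continuous_ofReal.comp (WTB.continuous_gam _)).aestronglyMeasurable.smul
        (av3 X).aestronglyMeasurable
    · rw [norm_smul, av2, Complex.norm_real]
  have hb : ∀ X : S1 H, ‖G P (Real.sqrt 2 * t) X‖ ≤ ‖X‖ := fun X => av9 _ X hτ
  set K : S1 H →L[ℂ] S1 H := Gc P (Real.sqrt 2 * t) hi hb with hKdef
  have hK : ∀ X, K X = G P (Real.sqrt 2 * t) X := fun X => rfl
  have hKn : ∀ X, ‖K X‖ ≤ ‖X‖ := hb
  -- `K` commutes with the right multiplication by `F ξ`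
  have hKrm : ∀ (ξ : ℂ) (X : S1 H), K (rm (ex P.B ξ) X) = rm (ex P.B ξ) (K X) := by
    intro ξ X
    rw [hK, hK, G, G, av, av, ← ContinuousLinearMap.integral_comp_comm _ (hi X)]
    refine integral_congr_ae (Filter.Eventually.of_forall fun s => ?_)
    simp only [map_smul]
    rw [tD_rm g]
  have hKtD : ∀ (s : ℂ) (X : S1 H), K (tD P s X) = tD P s (K X) := by
    intro s X
    rw [hK, hK]
    exact (av11 _ s X).symm
  -- the function `θ`
  set θ : ℂ → ℝ → ℂ := fun ξ c => Complex.I * pr (tD P (c * ξ) (K (P.D ξ))) (ex P.B ξ) with hθ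
  set L : S1 H →L[ℂ] ℂ := (prL 1).comp K with hL
  have hLE : ∀ ξ : ℂ, L (Ed P ξ) = ∫ c in (0 : ℝ)..1, θ ξ c := by
    intro ξ
    have hc : Continuous fun c : ℝ => rm (ex P.B ξ) (tD P (c * ξ) (P.D ξ)) :=
      (rm (ex P.B ξ)).continuous.comp ((av3 (P.D ξ)).comp (by fun_prop))
    have h1 : Ed P ξ = Complex.I • ∫ c in (0 : ℝ)..1, rm (ex P.B ξ) (tD P (c * ξ) (P.D ξ)) := by
      rw [Ed]
      congr 1
      refine intervalIntegral.integral_congr fun c _ => ?_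
      exact sw_eq g ξ c (P.D ξ)
    rw [h1, map_smul, ← ContinuousLinearMap.intervalIntegral_comp_comm _
      (hc.intervalIntegrable _ _), smul_eq_mul, ← intervalIntegral.integral_const_mul]
    refine intervalIntegral.integral_congr fun c _ => ?_
    change Complex.I * pr (K (rm (ex P.B ξ) (tD P (c * ξ) (P.D ξ)))) 1 = _
    rw [hKrm, hKtD, pr_rm, mul_one]
  obtain ⟨hFi, _, _⟩ := dF a ha
  have hNt : Nt P t a = ∫ ξ : ℂ, a ξ * ∫ c in (0 : ℝ)..1, θ ξ c := by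
    have h1 : Nt P t a = L (∫ ξ : ℂ, a ξ • Ed P ξ) := rfl
    rw [h1, ← ContinuousLinearMap.integral_comp_comm _ hFi]
    refine integral_congr_ae (Filter.Eventually.of_forall fun ξ => ?_)
    simp only [map_smul, smul_eq_mul]
    rw [hLE]
  have hNi : Integrable fun ξ : ℂ => a ξ * ∫ c in (0 : ℝ)..1, θ ξ c := by
    have h1 : Integrable fun ξ : ℂ => L (a ξ • Ed P ξ) := ContinuousLinearMap.integrable_comp _ hFi
    refine h1.congr (Filter.Eventually.of_forall fun ξ => ?_)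
    simp only [map_smul, smul_eq_mul]
    rw [hLE]
  have hθ0 : ∀ ξ : ℂ, θ ξ 0 = Complex.I * pr (K (P.D ξ)) (ex P.B ξ) := by
    intro ξ
    rw [hθ]
    simp only
    rw [Complex.ofReal_zero, zero_mul, tD_zero g]
  have hθ1 : ∀ ξ : ℂ, θ ξ 1 = Complex.I * pr (K (P.D ξ)) (ex P.A ξ) := by
    intro ξ
    rw [hθ]
    simp only
    rw [Complex.ofReal_one, one_mul, pr_tD, ← mul_assoc, B_neg g, one_mul]
  have hMn : Mn P t a = ∫ ξ : ℂ, a ξ * (1 / 2 * (θ ξ 0 + θ ξ 1)) := by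
    rw [Mn, ← integral_const_mul]
    refine integral_congr_ae (Filter.Eventually.of_forall fun ξ => ?_)
    simp only
    rw [hθ0, hθ1, hK]
    ring
  have hDc : Continuous fun ξ : ℂ => P.D ξ := by
    unfold Pair.D
    exact ((Complex.continuous_ofReal.comp Complex.continuous_re).smul continuous_const).add
      ((Complex.continuous_ofReal.comp Complex.continuous_im).smul continuous_const)
  have hMi : Integrable fun ξ : ℂ => a ξ * (1 / 2 * (θ ξ 0 + θ ξ 1)) := by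
    have hc : Continuous fun ξ : ℂ => 1 / 2 * (θ ξ 0 + θ ξ 1) := by
      simp_rw [hθ0, hθ1]
      refine continuous_const.mul (Continuous.add ?_ ?_)
      · refine continuous_const.mul ?_
        exact ((S1.toDual (H := H)).continuous.comp (K.continuous.comp hDc)).clm_apply g.Bc
      · refine continuous_const.mul ?_
        exact ((S1.toDual (H := H)).continuous.comp (K.continuous.comp hDc)).clm_apply g.Ac
    refine ((ha.2 1).mul_const P.d).mono' (ha.1.mul hc.aestronglyMeasurable)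
      (Filter.Eventually.of_forall fun ξ => ?_)
    have hb1 : ∀ Z : H →L[ℂ] H, ‖Z‖ ≤ 1 → ‖Complex.I * pr (K (P.D ξ)) Z‖ ≤ ‖ξ‖ * P.d := by
      intro Z hZ
      rw [norm_mul, Complex.norm_I, one_mul]
      refine (hpr _ _).trans ?_
      refine (mul_le_of_le_one_right (norm_nonneg _) hZ).trans ?_
      exact (hKn _).trans (dDn ξ)
    rw [norm_mul, norm_mul, hθ0, hθ1, pow_one]
    have h1 := hb1 _ (g.Bn ξ)
    have h2 := hb1 _ (g.An ξ)
    have h3 := norm_add_le (Complex.I * pr (K (P.D ξ)) (ex P.B ξ))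
      (Complex.I * pr (K (P.D ξ)) (ex P.A ξ))
    have h4 : ‖(1 / 2 : ℂ)‖ = 1 / 2 := by norm_num
    rw [h4]
    have h5 : 1 / 2 * ‖Complex.I * pr (K (P.D ξ)) (ex P.B ξ) +
        Complex.I * pr (K (P.D ξ)) (ex P.A ξ)‖ ≤ ‖ξ‖ * P.d := by linarith
    calc ‖a ξ‖ * (1 / 2 * ‖Complex.I * pr (K (P.D ξ)) (ex P.B ξ) +
          Complex.I * pr (K (P.D ξ)) (ex P.A ξ)‖) ≤ ‖a ξ‖ * (‖ξ‖ * P.d) :=
          mul_le_mul_of_nonneg_left h5 (norm_nonneg _)
      _ = ‖ξ‖ * ‖a ξ‖ * P.d := by ring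
  rw [hNt, hMn, ← integral_sub hNi hMi]
  refine integral_congr_ae (Filter.Eventually.of_forall fun ξ => ?_)
  simp only
  rw [← mul_sub]
  congr 1
  refine trapez (θ ξ) (Psi P t ξ) (fun c => ?_) ?_
  · rw [Psi_eq t ξ c K hK]
    exact deriv_theta g dD (K (P.D ξ)) ξ c
  · have h1 : Psi P t ξ = fun c : ℝ => pr (tD P (c * ξ) (K (P.D ξ))) (ex P.B ξ * op (P.D ξ)) := by
      funext c
      exact Psi_eq t ξ c K hK
    rw [h1]
    exact (prL (ex P.B ξ * op (P.D ξ))).continuous.comp ((av3 (K (P.D ξ))).comp (by fun_prop))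

end Pool.Bes
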